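import Pool.Agent.P.MP_53e370_gt.Defs
import Pool.Agent.P.MP_ac4909_gt.Ref

/-! Named programs (every edge of a sliced diagram gets a name) and the doubled link `W`: the link,
its mirror image on top of it, and one ring for every edge, which clasps the edge and its mirror
image. -/

namespace Pool.Agent.P.MP_53e370_gt.S

open Pool.Agent.P.MP_ac4909_gt Rev

/-- elementary tangles with names for the incoming and outgoing edges; in `cr b x y y' x'` the edges
`x, y` come in and `y', x'` go out, `x'` continues `x` -/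
inductive NGen (E : Type) where
  | cup (e₁ e₂ : E)
  | cap (e₁ e₂ : E)
  | cr (b : Bool) (x y y' x' : E)

/-- a slice with names; a vertical strand has an incoming and an outgoing name -/
structure NSl (E : Type) where
  l : List (E × E)
  g : NGen E
  r : List (E × E)

variable {ι E α β : Type}

def NGen.src : NGen E → List E
  | .cup _ _ => []
  | .cap e₁ e₂ => [e₁, e₂]
  | .cr _ x y _ _ => [x, y]

def NGen.tgt : NGen E → List E
  | .cup e₁ e₂ => [e₁, e₂]
  | .cap _ _ => []
  | .cr _ _ _ y' x' => [y', x']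

def NSl.src (s : NSl E) : List E := s.l.map Prod.fst ++ s.g.src ++ s.r.map Prod.fst

def NSl.tgt (s : NSl E) : List E := s.l.map Prod.snd ++ s.g.tgt ++ s.r.map Prod.snd

/-- the names fit together, and the last row is empty -/
def NRun : List E → List (NSl E) → Prop
  | ρ, [] => ρ = []
  | ρ, s :: P => ρ = s.src ∧ NRun s.tgt P

def NGen.ok (arc : E → Arc ι) : NGen E → Prop
  | .cup e₁ e₂ => arc e₂ = rev (arc e₁)
  | .cap e₁ e₂ => arc e₂ = rev (arc e₁)
  | .cr _ x y y' x' => arc x' = arc x ∧ arc y' = arc y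

/-- the labels `arc` of the edges are compatible with the slice -/
def NSl.ok (arc : E → Arc ι) (s : NSl E) : Prop :=
  (∀ z ∈ s.l ++ s.r, arc z.2 = arc z.1) ∧ s.g.ok arc

def NGen.okc (k : E → α) : NGen E → Prop
  | .cup e₁ e₂ => k e₂ = k e₁
  | .cap e₁ e₂ => k e₂ = k e₁
  | .cr _ x y y' x' => k x' = k x ∧ k y' = k y

/-- `k` is constant along the strands of the slice -/
def NSl.okc (k : E → α) (s : NSl E) : Prop := (∀ z ∈ s.l ++ s.r, k z.2 = k z.1) ∧ s.g.okc k

def NGen.gen (φ : E → α) : NGen E → Gen α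
  | .cup e₁ _ => .cup (φ e₁)
  | .cap e₁ _ => .cap (φ e₁)
  | .cr b x y _ _ => .cr (φ x) (φ y) b

/-- the underlying slice -/
def NSl.sl (φ : E → α) (s : NSl E) : Sl α :=
  ⟨s.l.map fun z => φ z.1, s.g.gen φ, s.r.map fun z => φ z.1⟩

/-- a naming of all edges of the closed diagram `L` by the elements of `E` -/
structure Prog (L : List (Sl (Arc ι))) (E : Type) where
  arc : E → Arc ι
  pr : List (NSl E)
  run : NRun [] pr
  ok : ∀ s ∈ pr, s.ok arc
  map : pr.map (NSl.sl arc) = L
  nodup : (pr.flatMap NSl.tgt).Nodup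
  all : ∀ e, e ∈ pr.flatMap NSl.tgt

/-- the component of an edge -/
def Prog.nm {L : List (Sl (Arc ι))} (Q : Prog L E) (e : E) : ι := (Q.arc e).name

def adjG : Gen α → Gen α
  | .cup o => .cap o
  | .cap o => .cup o
  | .cr x y s => .cr y x (!s)

def adjSl (s : Sl α) : Sl α := ⟨s.l, adjG s.g, s.r⟩

/-- reflection of a word in a horizontal line -/
def adj (w : List (Sl α)) : List (Sl α) := (w.map adjSl).reverse

/-- the lower half of a ring: a cup at the right end of the zone `M`, whose right arm goes under the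
strands `l`, clasps `x`, and returns under `l` -/
def ringHalf [Rev β] (M l : List β) (x : β) (r : List β) (o : β) : List (Sl β) :=
  ⟨M, .cup o, l ++ x :: r⟩ :: (cross false [rev o] (x :: r) (M ++ [o]) l ++
    [⟨M ++ [o] ++ l, .cr (rev o) x true, r⟩, ⟨M ++ [o] ++ l, .cr x (rev o) true, r⟩] ++
    cross true l (x :: r) (M ++ [o]) [rev o])

/-- label of an edge in the lower half -/
def bigA (arc : E → Arc ι) (e : E) : Arc (ι ⊕ E) := ⟨.inl (arc e).name, (arc e).up⟩

/-- label of the left arm of the ring of an edge -/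
def rgA (ι : Type) (e : E) : Arc (ι ⊕ E) := ⟨.inr e, true⟩

/-- the arms of the rings of a row -/
def zone (ι : Type) : List E → List (Arc (ι ⊕ E))
  | [] => []
  | x :: ρ => zone ι ρ ++ [rgA ι x, rev (rgA ι x)]

/-- half rings for the edges `ρ` of the row `l ++ ρ`, from right to left -/
def rings (arc : E → Arc ι) (M : List (Arc (ι ⊕ E))) : List E → List E → List (Sl (Arc (ι ⊕ E)))
  | _, [] => []
  | l, x :: ρ => rings arc M (l ++ [x]) ρ ++
      ringHalf (M ++ zone ι ρ) (l.map (bigA arc)) (bigA arc x) (ρ.map (bigA arc)) (rgA ι x)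

/-- the slice with the strands `M` added on its left -/
def shl (M : List α) (s : Sl α) : Sl α := ⟨M ++ s.l, s.g, s.r⟩

/-- the link with all half rings; the arms of the rings are collected on the left -/
def top (arc : E → Arc ι) : List (Arc (ι ⊕ E)) → List (NSl E) → List (Sl (Arc (ι ⊕ E)))
  | _, [] => []
  | M, s :: P => shl M (s.sl (bigA arc)) :: (rings arc M [] s.tgt ++ top arc (M ++ zone ι s.tgt) P)

/-- the last row of `top` (without the initial zone) -/
def zoneAll (ι : Type) : List (NSl E) → List (Arc (ι ⊕ E))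
  | [] => []
  | s :: P => zone ι s.tgt ++ zoneAll ι P

/-- relabelling for the lower (`b = true`) and the upper (`b = false`) half -/
def relab (b : Bool) (x : Arc (ι ⊕ E)) : Arc ((ι ⊕ ι) ⊕ E) :=
  ⟨x.name.elim (fun i => .inl (if b then .inl i else .inr i)) .inr, x.up⟩

/-- the doubled link with rings -/
def Prog.W {L : List (Sl (Arc ι))} (Q : Prog L E) : List (Sl (Arc ((ι ⊕ ι) ⊕ E))) :=
  (top Q.arc [] Q.pr).map (Sl.map (relab true)) ++ adj ((top Q.arc [] Q.pr).map (Sl.map (relab false)))

/-- colours of the link, of its mirror image, and of the rings -/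
def cl (k kb : ι → ℕ) (κ : E → ℕ) : (ι ⊕ ι) ⊕ E → ℕ := Sum.elim (Sum.elim k kb) κ

/-- `1` if a strand of the skein passes over a strand of a component in `v` -/
def chiG [DecidableEq ι] (v : Finset ι) : Gen (Option (Arc ι)) → ℕ
  | .cr none (some y) true => if y.name ∈ v then 1 else 0
  | .cr (some x) none false => if x.name ∈ v then 1 else 0
  | _ => 0

/-- the number of crossings where the skein passes over the sublink `v` -/
def chi [DecidableEq ι] (v : Finset ι) (D : List (Sl (Option (Arc ι)))) : ℕ :=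
  (D.map fun s => chiG v s.g).sum

/-- exponent of the twist of a slice -/
def ex (n : α → ℕ) (s : Sl α) : ℤ :=
  match s.g with
  | .cup o => (n o : ℤ) ^ 2 + 2 * n o * wid n s.l
  | .cap o => (n o : ℤ) ^ 2 + 2 * n o * wid n s.l
  | .cr x y b => if b then (n x : ℤ) * n y else -((n x : ℤ) * n y)

def Ex (n : α → ℕ) (w : List (Sl α)) : ℤ := (w.map (ex n)).sum

end Pool.Agent.P.MP_53e370_gt.S
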