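import Pool.Agent.P.MP_53e370_gt.Fuse
import Pool.Agent.P.MP_53e370_gt.S.WDefs
import Pool.Agent.P.MP_ac4909_gt.Cheb

/-! Paths, fusion channels, rings, cuts and reduced products in a Temperley-Lieb model.  A family
`x : ℕ → R` is an element `x p` placed at position `p`; families form the ring `ℕ → R`. -/

namespace Pool.Agent.P.MP_53e370_gt.S

open Pool.Agent.P.MP_ac4909_gt

/-- one step of a path -/
def stp (b : ℕ) (s : Bool) : ℕ := if s then b + 1 else b - 1

/-- the end of the path `σ` that starts at `b` -/
def en : ℕ → List Bool → ℕ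
  | b, [] => b
  | b, s :: σ => en (stp b s) σ

/-- the weight of a path -/
def wt : List Bool → ℤ
  | [] => 0
  | s :: σ => (if s then 1 else -1) + wt σ

/-- all paths of a given length -/
def ls : ℕ → Finset (List Bool)
  | 0 => {[]}
  | n + 1 => (ls n).image (List.cons true) ∪ (ls n).image (List.cons false)

/-- the box of colours -/
def bx (α : Type) [Fintype α] [DecidableEq α] (N : ℕ) : Finset (α → ℕ) :=
  Fintype.piFinset fun _ => Finset.range (N + 1)

/-- the colours in the box with the parities of `π` -/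
def bxp {α : Type} [Fintype α] [DecidableEq α] (N : ℕ) (π : α → ℕ) : Finset (α → ℕ) :=
  (bx α N).filter fun k => ∀ i, k i % 2 = π i % 2

section Scal
variable {K : Type} [Field K]

/-- the global dimension -/
def DD (a : K) (N : ℕ) : K := ∑ κ ∈ Finset.range (N + 1), Dl a κ ^ 2

/-- the Kirby colour with `j` meridians, as a polynomial in the core -/
noncomputable def Fp (a : K) (N j : ℕ) : Polynomial K :=
  ∑ κ ∈ Finset.range (N + 1), Polynomial.C (Dl a κ * mu a κ ^ j) * Polynomial.Chebyshev.S K κ

/-- the coloured Jones polynomial at `a` for the colours `m` -/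
noncomputable def Jv {α : Type} [Fintype α] (a : K) (ha : a ≠ 0) (W : List (Sl (Arc α)))
    (m : α → ℕ) : K := lev a ha (JP W fun i => (m i : ℤ) + 1)

/-- the rings get the Kirby colour weighted by `F` -/
noncomputable def Gs {ι E : Type} [Fintype ι] [Fintype E] [DecidableEq E] (a : K) (ha : a ≠ 0)
    (W : List (Sl (Arc ((ι ⊕ ι) ⊕ E)))) (N : ℕ) (k kb : ι → ℕ) (F : (E → ℕ) → K) : K :=
  ∑ κ ∈ bx E N, (∏ e, Dl a (κ e) / DD a N) * F κ * Jv a ha W (cl k kb κ)

end Scal

variable {K : Type} [Field K] {R : Type} [Ring R] [Algebra K R] {E : Type}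

/-- every Jones-Wenzl element is genuine or zero -/
def Ok (T : TL K R) : Prop := ∀ m, Adm T.a (m + 1) ∨ ∀ p, T.f m p = 0

/-- the model is truncated at the top colour `N` -/
structure Lev (T : TL K R) (N : ℕ) : Prop where
  adm : Adm T.a (N + 1)
  zero : ∀ p, T.f (N + 1) p = 0
  dl : Dl T.a (N + 1) = 0
  sq : T.a ^ 2 - T.a⁻¹ ^ 2 ≠ 0
  mu_ne : ∀ c, 1 ≤ c → c ≤ N → mu T.a c ≠ dlt T.a
  dd : DD T.a N ≠ 0

/-- the top colour `N` is a boson -/
structure Bos (T : TL K R) (N : ℕ) : Prop where
  pos : 1 ≤ N
  adm : Adm T.a (N + 1)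
  zero : ∀ p, T.f (N + 1) p = 0
  root : T.a ^ (N + 2) = -1
  dim : Dl T.a N = 1

variable (T : TL K R)

/-- inclusion of the colour `stp b s` in the colour `b` followed by one strand -/
def i1 : ℕ → Bool → ℕ → R
  | b, true, p => T.f (b + 1) p
  | 0, false, _ => 0
  | b + 1, false, p => T.f (b + 1) p * T.U (p + b)

/-- projection from the colour `b` followed by one strand to the colour `stp b s` -/
def p1 : ℕ → Bool → ℕ → R
  | b, true, p => T.f (b + 1) p
  | 0, false, _ => 0
  | b + 1, false, p => kap T.a b • (T.C (p + b) * T.f (b + 1) p)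

/-- inclusion of the colour `en b σ` in the colour `b` followed by `σ.length` strands -/
def II : ℕ → List Bool → ℕ → R
  | b, [], p => T.f b p
  | b, s :: σ, p => i1 T b s p * II (stp b s) σ p

/-- the corresponding projection -/
def PP : ℕ → List Bool → ℕ → R
  | b, [], p => T.f b p
  | b, s :: σ, p => PP (stp b s) σ p * p1 T b s p

/-- partial trace over the `c` leftmost strands -/
def ptr (c : ℕ) (Z : ℕ → R) (p : ℕ) : R := T.capC c p * Z (p + c) * T.cupC c p

/-- normalised partial trace -/
def lp (c : ℕ) (Z : ℕ → R) : ℕ → R := (Dl T.a c)⁻¹ • ptr T c Z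

/-- absorption: from the colour `en k σ` followed by `σ.length` strands to the colour `k` -/
def Abs (k : ℕ) (σ : List Bool) (p : ℕ) : R := T.capC σ.length (p + k) * II T k σ p

/-- emission: from the colour `k` to the colour `en k σ` followed by `σ.length` strands -/
def Em (k : ℕ) (σ : List Bool) (p : ℕ) : R := PP T k σ p * T.cupC σ.length (p + k)

/-- for `X` from `c` to `b + j` strands, a half turn of `X`, from `b` to `c + j` strands -/
def Tw (b c j : ℕ) (X : ℕ → R) (q : ℕ) : R :=
  T.capC b q * T.crC true j c (q + b + b) * X (q + b) * T.cupC c (q + b)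

/-- for `X` from `b + j` to `c` strands, a half turn of `X`, from `c + j` to `b` strands -/
def Tw' (b c j : ℕ) (X : ℕ → R) (q : ℕ) : R :=
  T.capC c (q + b) * X (q + b) * T.cupC b q * T.crC false c j q

/-- the full twist of `k` strands with the `j` strands on their right -/
def Mon (s : Bool) (k j p : ℕ) : R := T.crC s j k p * T.crC s k j p

/-- `j` parallel rings around `n` strands -/
def ringN (j n p : ℕ) : R :=
  T.capC j p * T.crC true n j (p + j) * T.crC true j n (p + j) * T.cupC j p

/-- a polynomial in the ring around `n` strands -/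
noncomputable def Om (q : Polynomial K) (n p : ℕ) : R := Polynomial.aeval (ringN T 1 n p) q

/-- the operator `Y ↦ A * Y (· + n) * B` on families -/
def sand (K : Type) [Field K] [Algebra K R] (A : ℕ → R) (n : ℕ) (B : ℕ → R) :
    Module.End K (ℕ → R) where
  toFun Y p := A p * Y (p + n) * B p
  map_add' Y Z := funext fun p => by simp only [Pi.add_apply, mul_add, add_mul]
  map_smul' c Y := funext fun p => by
    simp only [Pi.smul_apply, RingHom.id_apply, mul_smul_comm, smul_mul_assoc]

/-- `j` parallel rings that clasp the `k` incoming strands after the first `w` and the `kb`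
outgoing strands after the first `wb` -/
def RgN (j w k wb kb : ℕ) : Module.End K (ℕ → R) :=
  sand K (fun p => T.capC j p * (T.crC true wb j (p + j) * T.crC false kb j (p + j + wb) *
      T.crC false j kb (p + j + wb) * T.crC false j wb (p + j))) (j + j)
    fun p => T.crC true w j (p + j) * T.crC true k j (p + j + w) * T.crC true j k (p + j + w) *
      T.crC false j w (p + j) * T.cupC j p

/-- the ring coloured by a polynomial -/
noncomputable def OmR (q : Polynomial K) (w k wb kb : ℕ) : Module.End K (ℕ → R) :=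
  q.sum fun n c => c • RgN T n w k wb kb

/-- the two clasped strands are cut and rejoined along the path `σ` -/
def Cut (σ : List Bool) (w k wb kb : ℕ) : Module.End K (ℕ → R) :=
  sand K (fun p => T.crC false kb wb p * T.capC kb (p + kb) * T.crC true wb kb (p + kb + kb))
    (kb + kb) fun p => T.crC false k w (p + kb + kb) * Abs T k σ (p + kb + kb) *
      T.cupC kb (p + kb) * Em T k σ p * T.crC true w k p

/-- value of a named generator for the colours `k` -/
def ngv (k : E → ℕ) : NGen E → ℕ → R
  | .cup e _, p => T.f (k e) p * T.cupC (k e) p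
  | .cap e _, p => T.capC (k e) p * T.f (k e) p
  | .cr b x y _ _, p => T.crC b (k x) (k y) p

/-- value of the mirror image of a named generator -/
def nga (k : E → ℕ) : NGen E → ℕ → R
  | .cup e _, p => T.capC (k e) p * T.f (k e) p
  | .cap e _, p => T.f (k e) p * T.cupC (k e) p
  | .cr b x y _ _, p => T.crC (!b) (k y) (k x) p

/-- the operators `Ω` of the edges of a row, the first one innermost -/
def Phi (k kb : E → ℕ) (Ω : E → ℕ → ℕ → Module.End K (ℕ → R)) :
    ℕ → ℕ → List E → Module.End K (ℕ → R)
  | _, _, [] => 1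
  | w, wb, x :: ρ => Phi k kb Ω (w + k x) (wb + kb x) ρ * Ω x w wb

/-- evaluation of the doubled link, from the inside to the outside -/
def Hv (k kb : E → ℕ) (Ω : E → ℕ → ℕ → Module.End K (ℕ → R)) : List (NSl E) → ℕ → R
  | [], _ => 1
  | s :: P, p => nga T kb s.g (p + wid kb (s.l.map Prod.fst)) *
      Phi k kb Ω 0 0 s.tgt (Hv k kb Ω P) p * ngv T k s.g (p + wid k (s.l.map Prod.fst))

/-- `Y` is local, from the row `ρ` with colours `k` to the row `ρ` with colours `kb`, and absorbs the
Jones-Wenzl elements on both sides -/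
structure Sand (k kb : E → ℕ) (ρ : List E) (Y : ℕ → R) : Prop where
  loc : T.Loc (wid k ρ) (wid kb ρ) Y
  right : ∀ p, Y p * row k (fun e => T.f (k e)) ρ p = Y p
  left : ∀ p, row kb (fun e => T.f (kb e)) ρ p * Y p = Y p

/-- all strands of a row are cut: the upper ends are closed up -/
def RR (k kb : E → ℕ) (σ : E → List Bool) : ℕ → List E → (ℕ → R) → ℕ → R
  | _, [], Y => Y
  | m, x :: ρ, Y => RR k kb σ ((σ x).length + m) ρ
      (ptr T (kb x) fun q => Y q * T.crC false (k x) m q * Abs T (k x) (σ x) q)

/-- all strands of a row are cut: the lower ends -/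
def EE (k kb : E → ℕ) (σ : E → List Bool) : ℕ → List E → (ℕ → R) → ℕ → R
  | _, [], y => y
  | m, x :: ρ, y => fun p => EE k kb σ ((σ x).length + m) ρ y (p + kb x) * Em T (k x) (σ x) p *
      T.crC true m (k x) p

/-- operators on thin strands for the vertical strands and the generators.  The thin strands of a
row come in the reverse order. -/
structure Ops (E R : Type) where
  id : E → E → ℕ → R
  cup : E → E → ℕ → R
  cap : E → E → ℕ → R
  cr : Bool → E → E → E → E → ℕ → R

def Ops.gen (O : Ops E R) : NGen E → ℕ → R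
  | .cup e₁ e₂ => O.cup e₁ e₂
  | .cap e₁ e₂ => O.cap e₁ e₂
  | .cr b x y y' x' => O.cr b x y y' x'

/-- the operators of vertical strands are put to the left of `z`, one after the other -/
def tensL (O : Ops E R) (j : E → ℕ) : List (E × E) → (ℕ → R) → ℕ → R
  | [], z => z
  | x :: l, z => tensL O j l fun p => O.id x.1 x.2 p * z (p + j x.1)

/-- the reduced operator of a slice -/
def Osl (O : Ops E R) (j : E → ℕ) (s : NSl E) : ℕ → R :=
  tensL O j s.r fun p => O.gen s.g p * tensL O j s.l (fun _ => 1) (p + wid j s.g.src)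

/-- the reduced product -/
def Red (O : Ops E R) (j : E → ℕ) : List (NSl E) → ℕ → R
  | [], _ => 1
  | s :: P, p => Red O j P p * Osl O j s p

/-- the loop of a vertical strand -/
def qId (k kb : E → ℕ) (σ : E → List Bool) (x x' : E) : ℕ → R :=
  lp T (kb x) fun q => Em T (k x') (σ x') q * Abs T (k x) (σ x) q

def qCup (k kb : E → ℕ) (σ : E → List Bool) (e₁ e₂ : E) : ℕ → R :=
  lp T (kb e₂) fun q => Em T (k e₂) (σ e₂) q *
    Tw T (kb e₁) (k e₁) (σ e₁).length (Em T (k e₁) (σ e₁)) q

def qCap (k kb : E → ℕ) (σ : E → List Bool) (e₁ e₂ : E) : ℕ → R :=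
  lp T (kb e₂) fun q => Tw' T (kb e₁) (k e₁) (σ e₁).length (Abs T (k e₁) (σ e₁)) q *
    Abs T (k e₂) (σ e₂) q

def qCr (k kb : E → ℕ) (σ : E → List Bool) : Bool → E → E → E → E → ℕ → R
  | true, x, y, y', x', p =>
    lp T (kb x) (fun q => Em T (k x') (σ x') q * Mon T true (k x) (σ y').length q *
      Abs T (k x) (σ x) q) p * T.crC false (σ y').length (σ x).length p * qId T k kb σ y y' p
  | false, x, y, y', x', p =>
    lp T (kb y) (fun q => Mon T false (kb y) (σ x').length q *
      T.crC false (σ y').length (σ x').length (q + kb y) * Em T (k y') (σ y') q *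
      Abs T (k y) (σ y) q) p * qId T k kb σ x x' (p + (σ y).length)

/-- the normalised loops that remain after all rings are cut -/
def qOps (k kb : E → ℕ) (σ : E → List Bool) : Ops E R :=
  ⟨qId T k kb σ, qCup T k kb σ, qCap T k kb σ, qCr T k kb σ⟩

def lpG (d : E → K) : NGen E → K
  | .cup _ e₂ => d e₂
  | .cap _ e₂ => d e₂
  | .cr _ x y _ _ => d x * d y

/-- product of `d` over the loops of a slice -/
def lpS (d : E → K) (s : NSl E) : K := ((s.l ++ s.r).map fun z => d z.1).prod * lpG d s.g

/-- the model at `-i a` on the same space -/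
noncomputable def twT {R : Type} [Ring R] [Algebra ℂ R] (T : TL ℂ R) : TL ℂ R where
  a := -Complex.I * T.a
  ha := mul_ne_zero (neg_ne_zero.2 Complex.I_ne_zero) T.ha
  U p := (-Complex.I * (-1) ^ p) • T.U p
  C p := (-Complex.I * (-1) ^ p) • T.C p
  loop i := by
    have h : ((-1 : ℂ) ^ i) * (-1) ^ i = 1 := by rw [← mul_pow]; simp
    rw [smul_mul_smul_comm, T.loop, Algebra.smul_def, ← map_mul]
    congr 1
    have e1 : -Complex.I * (-1) ^ i * (-Complex.I * (-1) ^ i) = -1 := by
      linear_combination (Complex.I ^ 2) * h + Complex.I_sq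
    have e2 : (-Complex.I * T.a) ^ 2 = -T.a ^ 2 := by
      linear_combination (T.a ^ 2) * Complex.I_sq
    rw [e1, dlt, dlt, inv_pow, inv_pow, e2, inv_neg]
    ring
  zig i := by
    have h : ((-1 : ℂ) ^ i) * (-1) ^ i = 1 := by rw [← mul_pow]; simp
    rw [smul_mul_smul_comm, T.zig, pow_succ]
    have : -Complex.I * ((-1) ^ i * -1) * (-Complex.I * (-1) ^ i) = 1 := by
      linear_combination (-Complex.I ^ 2) * h - Complex.I_sq
    rw [this, one_smul]
  zag i := by
    have h : ((-1 : ℂ) ^ i) * (-1) ^ i = 1 := by rw [← mul_pow]; simp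
    rw [smul_mul_smul_comm, T.zag, pow_succ]
    have : -Complex.I * (-1) ^ i * (-Complex.I * ((-1) ^ i * -1)) = 1 := by
      linear_combination (-Complex.I ^ 2) * h - Complex.I_sq
    rw [this, one_smul]
  UU i j h := by
    rw [smul_mul_smul_comm, smul_mul_smul_comm, T.UU i j h, pow_add]
    congr 1
    ring
  CC i j h := by
    rw [smul_mul_smul_comm, smul_mul_smul_comm, T.CC i j h, pow_add]
    congr 1
    ring
  CU i j h := by
    rw [smul_mul_smul_comm, smul_mul_smul_comm, T.CU i j h, pow_add]
    congr 1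
    ring
  CU' i j h := by
    rw [smul_mul_smul_comm, smul_mul_smul_comm, T.CU' i j h, pow_add]
    congr 1
    ring

end Pool.Agent.P.MP_53e370_gt.S
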