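import Pool.Agent.P.MP_53e370_gt.S.SU
import Pool.Agent.P.MP_53e370_gt.S.TDefs
import Pool.Agent.P.MP_ac4909_gt.VModel

/-! The classical model at `a = -1` on tensor powers of `ℂ²`, limits of families of
Temperley-Lieb elements, limits in the presence of one thick strand, Haar averages. -/

namespace Pool.Agent.P.MP_53e370_gt.S

open Pool.Agent.P.MP_ac4909_gt Filter Topology MeasureTheory

variable {Rc : Type} [Ring Rc] [Algebra ℂ Rc] (V : Lv Rc) {ι E Λ : Type}

/-- the classical model -/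
noncomputable def Tc : TL ℂ Rc := V.tl (-1 : ℂ) (neg_ne_zero.2 one_ne_zero)

def ix (s : Bool) : Fin 2 := if s then 0 else 1

/-- creation of a first strand in the state `s` -/
def cre (s : Bool) : Rc := if s then V.Z else V.O

/-- annihilation of the first strand in the state `s` -/
def ann (s : Bool) : Rc := if s then V.Z' else V.O'

def CrL : List Bool → Rc
  | [] => 1
  | s :: σ => cre V s * CrL σ

def AnL : List Bool → Rc
  | [] => 1
  | s :: σ => AnL σ * ann V s

/-- the action of `h` on each of the first `n` strands -/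
noncomputable def gam (h : SU) : ℕ → Rc
  | 0 => 1
  | n + 1 => ∑ s : Bool, ∑ s' : Bool, h.1 (ix s) (ix s') • (cre V s * gam h n * ann V s')

/-- the element `x` moved to position `p` -/
def sh (x : Rc) (p : ℕ) : Rc := V.Phi^[p] x

/-- `x` is an operator from the first `a` to the first `b` strands -/
def LC (a b : ℕ) (x : Rc) : Prop := ∀ y, x * sh V y a = sh V y b * x

/-- classical emission -/
noncomputable def em (σ : List Bool) : Rc := AnL V σ * (Tc V).cupC σ.length 0

/-- classical absorption -/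
noncomputable def ab (σ : List Bool) : Rc := (Tc V).capC σ.length 0 * CrL V σ

/-- emission in the frame `g` -/
noncomputable def EmV (g : SU) (σ : List Bool) : Rc := gam V g σ.length * em V σ

/-- absorption in the frame `a` -/
noncomputable def AbV (a : SU) (σ : List Bool) : Rc := ab V σ * gam V a⁻¹ σ.length

/-- the value of an absorption after an emission -/
noncomputable def pr (σ : List Bool) (h : SU) : ℂ := (σ.map fun s => -h.1 (ix (!s)) (ix (!s))).prod

/-- the sign of a generator -/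
def sgG (j : E → ℕ) : NGen E → ℂ
  | .cr true x _ y' _ => (-1) ^ (j y' * j x)
  | .cr false _ _ y' x' => (-1) ^ (j y' * j x')
  | _ => 1

/-- the total sign -/
noncomputable def sgP (j : E → ℕ) (P : List (NSl E)) : ℂ := (P.map fun s => sgG j s.g).prod

/-- the classical operators for emission frames `g` and absorption frames `a` -/
noncomputable def cOps (g a : E → SU) (σ : E → List Bool) : Ops E Rc where
  id x x' := sh V (EmV V (g x') (σ x') * AbV V (a x) (σ x))
  cup e₁ e₂ := sh V (EmV V (g e₂) (σ e₂) * EmV V (g e₁) (σ e₁))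
  cap e₁ e₂ := sh V (AbV V (a e₁) (σ e₁) * AbV V (a e₂) (σ e₂))
  cr b x y y' x' := sh V (sgG (fun e => (σ e).length) (.cr b x y y' x') •
    (EmV V (g x') (σ x') * EmV V (g y') (σ y') * AbV V (a x) (σ x) * AbV V (a y) (σ y)))

def NGen.Compat (ζ : E → Circle) (t : E ⊕ E → SU) (g a : E → SU) : NGen E → Prop
  | .cup e₁ e₂ => g e₂ = t (.inr e₂) ∧ g e₁ = t (.inr e₂) * Sm (ζ e₁)
  | .cap e₁ e₂ => a e₂ = t (.inl e₂) ∧ a e₁ = t (.inl e₂) * (Sm (ζ e₁))⁻¹
  | .cr true x y y' x' => a x = t (.inl x) ∧ a y = t (.inl y) ∧ g x' = t (.inl x) ∧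
      g y' = t (.inl x) * dg (ζ x ^ 2) * (t (.inl x))⁻¹ * t (.inl y)
  | .cr false x y y' x' => a x = t (.inl x) ∧ a y = t (.inl y) ∧ g y' = t (.inl y) ∧
      g x' = t (.inl y) * (dg (ζ y ^ 2))⁻¹ * (t (.inl y))⁻¹ * t (.inl x)

/-- the emission and absorption frames at a slice, in terms of the frames `t` of the loops -/
def NSl.Compat (ζ : E → Circle) (t : E ⊕ E → SU) (g a : E → SU) (s : NSl E) : Prop :=
  (∀ z ∈ s.l ++ s.r, g z.2 = t (.inl z.1) ∧ a z.1 = t (.inl z.1)) ∧ s.g.Compat ζ t g a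

/-- the loops of a generator -/
def NGen.loops : NGen E → List (E ⊕ E)
  | .cup _ e₂ => [.inr e₂]
  | .cap _ e₂ => [.inl e₂]
  | .cr _ x y _ _ => [.inl x, .inl y]

/-- emission and absorption frames of all edges -/
structure Frames {L : List (Sl (Arc ι))} (Q : Prog L E) where
  g : (ι → Circle) → (E ⊕ E → SU) → E → SU
  a : (ι → Circle) → (E ⊕ E → SU) → E → SU
  cg : Continuous fun x : (ι → Circle) × (E ⊕ E → SU) => g x.1 x.2
  ca : Continuous fun x : (ι → Circle) × (E ⊕ E → SU) => a x.1 x.2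
  compat : ∀ ζ t, ∀ s ∈ Q.pr, s.Compat (fun e => ζ (Q.nm e)) t (g ζ t) (a ζ t)

/-- product of Haar measures -/
noncomputable def hpi (Λ G : Type) [Fintype Λ] [Group G] [TopologicalSpace G]
    [IsTopologicalGroup G] [CompactSpace G] [MeasurableSpace G] [BorelSpace G] :
    Measure (Λ → G) := Measure.pi fun _ => hp G

/-- `X` is the average of `x`, which depends only on the coordinates in `S` -/
inductive Av [Fintype Λ] (S : Set Λ) : ((Λ → SU) → Rc) → Rc → Prop
  | single (φ : (Λ → SU) → ℂ) (r : Rc) : Continuous φ → DependsOn φ S →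
      Av S (fun ω => φ ω • r) ((∫ ω, φ ω ∂(hpi Λ SU)) • r)
  | add {x y : (Λ → SU) → Rc} {X Y : Rc} : Av S x X → Av S y Y →
      Av S (fun ω => x ω + y ω) (X + Y)
  | zero : Av S (fun _ => 0) 0

/-- projection to the invariants of `n` strands -/
noncomputable def P0 {K : Type} [Field K] {R : Type} [Ring R] [Algebra K R] (T : TL K R)
    (n p : ℕ) : R :=
  ∑ τ ∈ (ls n).filter fun τ => en 0 τ = 0, II T 0 τ p * PP T 0 τ p

variable {R : ℕ → Type} [∀ t, Ring (R t)] [∀ t, Algebra ℂ (R t)] (T : ∀ t, TL ℂ (R t))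

/-- a sequence of models with `a → -1` -/
structure Seq : Prop where
  ok : ∀ t, Ok (T t)
  lim : Tendsto (fun t => (T t).a) atTop (𝓝 (-1))

/-- `Cv T V m n X x`: the local families `X t` converge to the classical family `x` -/
inductive Cv : ℕ → ℕ → (∀ t, ℕ → R t) → (ℕ → Rc) → Prop
  | one (m : ℕ) : Cv m m (fun _ _ => 1) fun _ => 1
  | U (m j : ℕ) : j ≤ m → Cv m (m + 2) (fun t p => (T t).U (p + j)) fun p => (Tc V).U (p + j)
  | C (m j : ℕ) : j ≤ m → Cv (m + 2) m (fun t p => (T t).C (p + j)) fun p => (Tc V).C (p + j)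
  | mul {m n k : ℕ} {X Y : ∀ t, ℕ → R t} {x y : ℕ → Rc} : Cv n k Y y → Cv m n X x →
      Cv m k (fun t p => Y t p * X t p) fun p => y p * x p
  | add {m n : ℕ} {X Y : ∀ t, ℕ → R t} {x y : ℕ → Rc} : Cv m n X x → Cv m n Y y →
      Cv m n (fun t p => X t p + Y t p) fun p => x p + y p
  | smul {m n : ℕ} {X : ∀ t, ℕ → R t} {x : ℕ → Rc} (c : ℕ → ℂ) (c₀ : ℂ) :
      Tendsto c atTop (𝓝 c₀) → Cv m n X x → Cv m n (fun t p => c t • X t p) fun p => c₀ • x p
  | zero (m n : ℕ) : Cv m n (fun _ _ => 0) fun _ => 0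
  | congr {m n : ℕ} {X Y : ∀ t, ℕ → R t} {x : ℕ → Rc} : Cv m n X x →
      (∀ᶠ t in atTop, X t = Y t) → Cv m n Y x

/-- a sequence of colours far from both ends of the range -/
structure Mid (β : ℕ → ℕ) (ζ : Circle) : Prop where
  big : Tendsto β atTop atTop
  adm : ∀ n, ∀ᶠ t in atTop, Adm (T t).a (β t + n)
  lim : Tendsto (fun t => (-(T t).a) ^ β t) atTop (𝓝 (ζ : ℂ))
  gen : (ζ : ℂ) ^ 4 ≠ 1

/-- sequences of colours of all edges in the classical regime, for the paths `σ` -/
structure Reg (k kb : ℕ → E → ℕ) (σ : E → List Bool) (ζ : E → Circle) : Prop where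
  mid : ∀ e, Mid T (fun t => kb t e) (ζ e)
  even : ∀ t e, Even (kb t e)
  ends : ∀ e, ∀ᶠ t in atTop, en (k t e) (σ e) = kb t e

/-- two sequences of colours at a fixed distance -/
def Near (β c : ℕ → ℕ) : Prop := ∃ d : ℤ, ∀ᶠ t in atTop, (c t : ℤ) = β t + d

/-- `Z t` goes from the colour `β t` followed by `a` strands to the colour `β' t` followed by `b`
strands, and its matrix elements in the path bases converge to those of `z` -/
structure Dyn (β β' : ℕ → ℕ) (a b : ℕ) (Z : ∀ t, ℕ → R t) (z : Rc) : Prop where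
  loc : ∀ᶠ t in atTop, (T t).Loc (β t + a) (β' t + b) (Z t)
  comm : ∀ᶠ t in atTop, ∀ p, (T t).f (β' t) p * Z t p * (T t).f (β t) p = Z t p * (T t).f (β t) p
  ent : ∀ σ σ' : List Bool, σ.length = a → σ'.length = b → ∃ (c : ℕ → ℂ) (c₀ : ℂ),
    Tendsto c atTop (𝓝 c₀) ∧ AnL V σ' * z * CrL V σ = c₀ • (1 : Rc) ∧
      ∀ᶠ t in atTop, (∀ p, PP (T t) (β' t) σ' p * Z t p * II (T t) (β t) σ p =
        c t • (T t).f (en (β t) σ) p) ∧ (en (β t) σ ≠ en (β' t) σ' → c t = 0)

/-- the families `X t` converge to the average of `x` -/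
def Lim [Fintype Λ] (S : Set Λ) (m n : ℕ) (X : ∀ t, ℕ → R t) (x : (Λ → SU) → ℕ → Rc) : Prop :=
  ∃ y : ℕ → Rc, Cv V T m n X y ∧ ∀ p, Av S (fun ω => x ω p) (y p)

end Pool.Agent.P.MP_53e370_gt.S
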