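import Pool.Agent.P.MP_53e370_gt.Root
import Pool.Agent.P.MP_53e370_gt.S.CDefs

/-! The levels, the two roots of unity, the configuration space and the limit functional. -/

namespace Pool.Agent.P.MP_53e370_gt.S

open Pool.Agent.P.MP_ac4909_gt Filter Topology MeasureTheory

/-- the level -/
def pp (t : ℕ) : ℕ := 5 ^ (t + 1)

/-- the top colour -/
def NN (t : ℕ) : ℕ := pp t - 2

/-- the number of even colours -/
def qq (t : ℕ) : ℕ := (pp t - 1) / 2

/-- the unitary root of unity, of order `4 p` -/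
noncomputable def a1 (t : ℕ) : ℂ := -Complex.exp (Real.pi * Complex.I / (2 * pp t))

theorem a1_ne (t : ℕ) : a1 t ≠ 0 := neg_ne_zero.2 (Complex.exp_ne_zero _)

/-- the root of unity of order `2 p` -/
noncomputable def bb (t : ℕ) : ℂ := -Complex.I * a1 t

theorem bb_ne (t : ℕ) : bb t ≠ 0 := mul_ne_zero (neg_ne_zero.2 Complex.I_ne_zero) (a1_ne t)

/-- the eigenvalue of the meridian at `a1 t` -/
noncomputable def muR (t κ : ℕ) : ℝ := -2 * Real.cos (Real.pi * (κ + 1) / pp t)

/-- surgery on the components `α` at `bb t`; the components `β` have the colours `n - 1` -/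
noncomputable def Ha {α β : Type} [Fintype α] [DecidableEq α] [Fintype β]
    (W : List (Sl (Arc (α ⊕ β)))) (t : ℕ) (n : β → ℤ) : ℂ :=
  ∑ m ∈ bx α (NN t), (∏ i, Dl (bb t) (m i)) *
    lev (bb t) (bb_ne t) (JP W (Sum.elim (fun i => (m i : ℤ) + 1) n))

/-- the same with `j e` plain parallel copies of the components `β` -/
noncomputable def Hp {α β : Type} [Fintype α] [DecidableEq α] [Fintype β]
    (W : List (Sl (Arc (α ⊕ β)))) (t : ℕ) (j : β → ℕ) : ℂ :=
  ∑ m ∈ bx α (NN t), (∏ i, Dl (bb t) (m i)) *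
    lev (bb t) (bb_ne t) (beta W (chb (fun i => ((Sum.elim m (0 : β → ℕ) i : ℕ) : ℤ) + 1) *
      ∏ i, MvPolynomial.X i ^ Sum.elim (0 : α → ℕ) j i))

variable {ι E : Type} [Fintype ι] [DecidableEq ι] [Fintype E] [DecidableEq E]

/-- the measure on the colours of the rings: even colours on the mirror image, colours of parity
`π` on the link -/
noncomputable def mm (W : List (Sl (Arc ((ι ⊕ ι) ⊕ E)))) (π : ι → ℕ) (t : ℕ) (κ : E → ℕ) : ℂ :=
  (∏ e, Dl (a1 t) (κ e) / DD (a1 t) (NN t)) *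
    ∑ kb ∈ bxp (NN t) (0 : ι → ℕ), ∑ k ∈ bxp (NN t) π,
      (∏ i, Dl (a1 t) (k i) * Dl (a1 t) (kb i) / DD (a1 t) (NN t)) *
        Jv (a1 t) (a1_ne t) W (cl k kb κ)

/-- the functional at level `t` -/
noncomputable def TT (W : List (Sl (Arc ((ι ⊕ ι) ⊕ E)))) (π : ι → ℕ) (t : ℕ)
    (F : (E → ℝ) → ℝ) : ℂ :=
  ∑ κ ∈ bx E (NN t), mm W π t κ * (F fun e => muR t (κ e) : ℝ)

/-- the part of the measure that does not depend on the parity class -/
noncomputable def YY (W : List (Sl (Arc ((ι ⊕ ι) ⊕ E)))) (t : ℕ) (κ : E → ℕ) : ℂ :=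
  ((4 : ℂ) ^ Fintype.card ι * DD (a1 t) (NN t) ^ (Fintype.card E + Fintype.card ι))⁻¹ *
    (∏ e, Dl (bb t) (κ e)) * Ha W t fun e => (κ e : ℤ) + 1

/-- the summand of the Riemann sum over the colours `2 n` of the mirror image -/
noncomputable def AA (W : List (Sl (Arc ((ι ⊕ ι) ⊕ E)))) (π : ι → ℕ) (j : E → ℕ) (t : ℕ)
    (n : ι → ℕ) : ℂ :=
  ∑ k ∈ bxp (NN t) π,
    (∏ i, (qq t : ℂ) * (Dl (a1 t) (k i) * Dl (a1 t) (2 * n i) / DD (a1 t) (NN t))) *
      Gs (a1 t) (a1_ne t) W (NN t) k (fun i => 2 * n i) fun κ => ∏ e, mu (a1 t) (κ e) ^ j e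

/-- `exp(i π θ / 2)` -/
noncomputable def zt (θ : unitInterval) : Circle := Circle.exp (Real.pi * θ / 2)

/-- the torus elements with product one along each component -/
noncomputable def tt (nm : E → ι) (base : ι → E) (τ : E → Circle) (e : E) : Circle :=
  τ e * if e = base (nm e) then (∏ e' ∈ Finset.univ.filter fun e' => nm e' = nm e, τ e')⁻¹ else 1

/-- minus the trace of the holonomy along the meridian of the ring `e` -/
noncomputable def zz {L : List (Sl (Arc ι))} {Q : Prog L E} (F : Frames Q) (base : ι → E)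
    (ζ : ι → Circle) (ω : E ⊕ E → SU) (τ : E → Circle) (e : E) : ℝ :=
  -(Matrix.trace (dg (tt Q.nm base τ e) * ((F.a ζ ω e)⁻¹ * F.g ζ ω e)).1).re

/-- the configuration space -/
abbrev Cfg (ι E : Type) : Type := (ι → unitInterval) × (E ⊕ E → SU) × (E → Circle)

/-- the product measure -/
noncomputable def nu (ι E : Type) [Fintype ι] [Fintype E] : Measure (Cfg ι E) :=
  (volume : Measure (ι → unitInterval)).prod ((hpi (E ⊕ E) SU).prod (hpi E Circle))

/-- the Weyl density -/
noncomputable def rho (x : Cfg ι E) : ℝ := ∏ i, Real.sin (Real.pi * x.1 i) ^ 2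

noncomputable def zc {L : List (Sl (Arc ι))} {Q : Prog L E} (F : Frames Q) (base : ι → E)
    (x : Cfg ι E) : E → ℝ := zz F base (fun i => zt (x.1 i)) x.2.1 x.2.2

/-- the limit functional -/
noncomputable def JJ {L : List (Sl (Arc ι))} {Q : Prog L E} (F : Frames Q) (base : ι → E)
    (G : (E → ℝ) → ℝ) : ℝ := ∫ x, rho x * G (zc F base x) ∂(nu ι E)

/-- a bump at `-2` -/
noncomputable def bump (δ x : ℝ) : ℝ := max 0 (-2 * Real.cos (Real.pi * δ) - x)

/-- the test function of parity `π` -/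
noncomputable def test (δ : ℝ) (π : E → ℕ) (x : E → ℝ) : ℝ :=
  ∏ e, (bump δ (x e) + (-1) ^ π e * bump δ (-x e))

/-- indicator function of a set of components -/
def ind (v : Finset ι) (i : ι) : ℕ := if i ∈ v then 1 else 0

end Pool.Agent.P.MP_53e370_gt.S
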