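import Pool.Agent.P.MP_53e370_gt.S.Cls

/-! Averages; the Haar average of the action is the projection to the invariants. -/

namespace Pool.Agent.P.MP_53e370_gt.S

open Pool.Agent.P.MP_ac4909_gt MeasureTheory

variable {Rc : Type} [Ring Rc] [Algebra ℂ Rc] {V : Lv Rc}
  {Λ : Type} [Fintype Λ] {S S' : Set Λ} {x y : (Λ → SU) → Rc} {X Y : Rc}

instance (Λ G : Type) [Fintype Λ] [Group G] [TopologicalSpace G] [IsTopologicalGroup G]
    [CompactSpace G] [MeasurableSpace G] [BorelSpace G] : IsProbabilityMeasure (hpi Λ G) := by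
  unfold hpi; infer_instance

theorem Av.congr (h : Av S x X) (h₁ : ∀ ω, x ω = y ω) (h₂ : X = Y) : Av S y Y := by
  obtain rfl : x = y := funext h₁
  exact h₂ ▸ h

theorem Av.mono (h : Av S x X) (hS : S ⊆ S') : Av S' x X := by
  induction h with
  | single φ r h1 h2 => exact .single φ r h1 (h2.mono hS)
  | add _ _ ih1 ih2 => exact .add ih1 ih2
  | zero => exact .zero

theorem Av.const (S : Set Λ) (r : Rc) : Av S (fun _ => r) r := by
  refine (Av.single (S := S) (fun _ => 1) r continuous_const fun _ _ _ => rfl).congr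
    (fun _ => one_smul _ _) ?_
  simp

theorem Av.map (h : Av S x X) (φ : Rc →ₗ[ℂ] Rc) : Av S (fun ω => φ (x ω)) (φ X) := by
  induction h with
  | single ψ r h1 h2 =>
    exact (Av.single ψ (φ r) h1 h2).congr (fun _ => (map_smul φ _ _).symm) (map_smul φ _ _).symm
  | add _ _ ih1 ih2 =>
    exact (ih1.add ih2).congr (fun _ => (map_add φ _ _).symm) (map_add φ _ _).symm
  | zero => exact Av.zero.congr (fun _ => (map_zero φ).symm) (map_zero φ).symm

theorem Av.sum {I : Type} (s : Finset I) {f : I → (Λ → SU) → Rc} {F : I → Rc}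
    (h : ∀ i ∈ s, Av S (f i) (F i)) : Av S (fun ω => ∑ i ∈ s, f i ω) (∑ i ∈ s, F i) := by
  classical
  induction s using Finset.induction_on with
  | empty => exact Av.zero.congr (fun _ => Finset.sum_empty.symm) Finset.sum_empty.symm
  | insert i s hi ih =>
    exact ((h i (Finset.mem_insert_self _ _)).add
      (ih fun j hj => h j (Finset.mem_insert_of_mem hj))).congr
      (fun ω => (Finset.sum_insert (f := fun i => f i ω) hi).symm) (Finset.sum_insert hi).symm

theorem AvL_indep {φ ψ : (Λ → SU) → ℂ} (h1 : DependsOn φ S) (h2 : DependsOn ψ S')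
    (hd : Disjoint S S') :
    ∫ ω, φ ω * ψ ω ∂(hpi Λ SU) = (∫ ω, φ ω ∂(hpi Λ SU)) * ∫ ω, ψ ω ∂(hpi Λ SU) := by
  classical
  have hm := measurePreserving_piEquivPiSubtypeProd (fun _ : Λ => hp SU) fun i => i ∈ S
  set e := MeasurableEquiv.piEquivPiSubtypeProd (fun _ : Λ => SU) fun i => i ∈ S with he
  have e1 : ∀ ω, φ ω = φ (e.symm ((e ω).1, 1)) := fun ω => h1 fun i hi => by
    change ω i = dite _ _ _
    rw [dif_pos hi]
    rfl
  have e2 : ∀ ω, ψ ω = ψ (e.symm (1, (e ω).2)) := fun ω => h2 fun i hi => by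
    change ω i = dite _ _ _
    rw [dif_neg fun h => Set.disjoint_left.1 hd h hi]
    rfl
  have i0 := hm.integral_comp' fun z => φ (e.symm (z.1, 1)) * ψ (e.symm (1, z.2))
  have i1 := hm.integral_comp' fun z => φ (e.symm (z.1, 1))
  have i2 := hm.integral_comp' fun z => ψ (e.symm (1, z.2))
  simp only [← e1, ← e2] at i0 i1 i2
  unfold hpi
  rw [i0, i1, i2, integral_prod_mul (fun a => φ (e.symm (a, 1))) fun b => ψ (e.symm (1, b)),
    integral_fun_fst fun a => φ (e.symm (a, 1)), integral_fun_snd fun b => ψ (e.symm (1, b))]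
  simp

theorem Av.mul (hx : Av S x X) (hy : Av S' y Y) (hd : Disjoint S S') :
    Av (S ∪ S') (fun ω => x ω * y ω) (X * Y) := by
  induction hx with
  | single φ r h1 h2 =>
    induction hy with
    | single ψ t k1 k2 =>
      refine (Av.single (fun ω => φ ω * ψ ω) (r * t) (h1.mul k1) fun a b hab => ?_).congr
        (fun _ => (smul_mul_smul_comm _ _ _ _).symm) ?_
      · simp only [h2 fun i hi => hab i (Or.inl hi), k2 fun i hi => hab i (Or.inr hi)]
      · rw [AvL_indep h2 k2 hd, smul_mul_smul_comm]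
    | add _ _ ih1 ih2 =>
      exact (ih1.add ih2).congr (fun _ => (mul_add _ _ _).symm) (mul_add _ _ _).symm
    | zero => exact Av.zero.congr (fun _ => (mul_zero _).symm) (mul_zero _).symm
  | add _ _ ih1 ih2 =>
    exact (ih1.add ih2).congr (fun _ => (add_mul _ _ _).symm) (add_mul _ _ _).symm
  | zero => exact Av.zero.congr (fun _ => (zero_mul _).symm) (zero_mul _).symm

theorem Av.lin (h : Av S x X) (φ : Rc →ₗ[ℂ] ℂ) :
    Continuous (fun ω => φ (x ω)) ∧ φ X = ∫ ω, φ (x ω) ∂(hpi Λ SU) := by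
  induction h with
  | single ψ r h1 h2 =>
    simp only [map_smul, smul_eq_mul]
    exact ⟨h1.mul continuous_const, (integral_mul_const _ _).symm⟩
  | add _ _ ih1 ih2 =>
    simp only [map_add]
    refine ⟨ih1.1.add ih2.1, ?_⟩
    rw [integral_add (ih1.1.integrable_of_hasCompactSupport (HasCompactSupport.of_compactSpace _))
      (ih2.1.integrable_of_hasCompactSupport (HasCompactSupport.of_compactSpace _)), ih1.2, ih2.2]
  | zero =>
    simp only [map_zero, integral_zero, and_true]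
    exact continuous_const

theorem AvL_ext {A B : Rc} (h : ∀ φ : Rc →ₗ[ℂ] ℂ, φ A = φ B) : A = B := by
  rw [← sub_eq_zero, ← Module.forall_dual_apply_eq_zero_iff ℂ]
  intro φ
  rw [map_sub, h, sub_self]

theorem AvL_uniq (hx : Av S x X) (hy : Av S' y Y) (h : ∀ ω, x ω = y ω) : X = Y :=
  AvL_ext fun φ => by simp only [(hx.lin φ).2, (hy.lin φ).2, h]

theorem AvL_left (hx : Av S x X) (a : Rc) : Av S (fun ω => a * x ω) (a * X) :=
  hx.map (LinearMap.mulLeft ℂ a)

theorem AvL_right (hx : Av S x X) (a : Rc) : Av S (fun ω => x ω * a) (X * a) :=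
  hx.map (LinearMap.mulRight ℂ a)

theorem AvL_ex (V : Lv Rc) (l : Λ) (n : ℕ) (c : SU → ℂ) (hc : Continuous c) :
    ∃ A, Av {l} (fun ω => c (ω l) • gam V (ω l) n) A := by
  induction n generalizing c with
  | zero =>
    exact ⟨_, Av.single (fun ω => c (ω l)) 1 (hc.comp (continuous_apply l)) fun a b h => by
      simp only [h l rfl]⟩
  | succ n ih =>
    choose A hA using fun s s' : Bool =>
      ih (fun h => c h * h.1 (ix s) (ix s')) (hc.mul (continuous_entry _ _))
    refine ⟨_, (Av.sum Finset.univ fun s _ => Av.sum Finset.univ fun s' _ =>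
      AvL_right (AvL_left (hA s s') (cre V s)) (ann V s')).congr (fun ω => ?_) rfl⟩
    simp only [gam, Finset.smul_sum, smul_smul, mul_smul_comm, smul_mul_assoc]

theorem AvL_inv {l : Λ} {n : ℕ} {A : Rc} (hA : Av {l} (fun ω => gam V (ω l) n) A) (g : SU) :
    gam V g n * A = A := by
  refine AvL_ext fun φ => ?_
  have : (hpi Λ SU).IsMulLeftInvariant := by unfold hpi; infer_instance
  rw [((AvL_left hA (gam V g n)).lin φ).2, (hA.lin φ).2,
    ← integral_mul_left_eq_self (fun ω : Λ → SU => φ (gam V (ω l) n)) fun _ => g]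
  simp only [Pi.mul_apply, gam_mul]

theorem AvL_ann_C (V : Lv Rc) (s : Bool) (j : ℕ) :
    ann V s * (Tc V).C (j + 1) = (Tc V).C j * ann V s := by
  unfold Tc
  rw [V.vm_C_succ]
  cases s
  · exact V.vm_O_mul_Phi _
  · exact V.vm_Z_mul_Phi _

theorem AvL_perm {σ σ' : List Bool} (h : σ.Perm σ') {y : Rc}
    (hy : ∀ j, j + 2 ≤ σ.length → (Tc V).C j * y = 0) : AnL V σ * y = AnL V σ' * y := by
  induction h generalizing y with
  | nil => rfl
  | cons s _ ih =>
    simp only [AnL, mul_assoc]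
    refine ih fun j hj => ?_
    rw [← mul_assoc, ← AvL_ann_C, mul_assoc, hy _ (by simp only [List.length_cons]; omega),
      mul_zero]
  | swap s t l =>
    have h0 := hy 0 (by simp only [List.length_cons]; omega)
    rw [Tc_C, sub_mul, sub_eq_zero] at h0
    simp only [AnL, mul_assoc] at h0 ⊢
    cases s <;> cases t <;> simp only [h0]
  | trans h1 _ ih1 ih2 => rw [ih1 hy, ih2 (h1.length_eq ▸ hy)]

theorem AvL_ann_gam (V : Lv Rc) (h : SU) (n : ℕ) (s : Bool) :
    ann V s * gam V h (n + 1) = h.1 (ix s) 0 • (gam V h n * ann V true) +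
      h.1 (ix s) 1 • (gam V h n * ann V false) := by
  rw [← mul_one (ann V s * gam V h (n + 1)), ← sum_cre_ann V, mul_add, ← mul_assoc, ← mul_assoc,
    ann_gam, ann_gam, smul_mul_assoc, smul_mul_assoc]
  rfl

theorem AvL_torus (V : Lv Rc) (z : Circle) (σ : List Bool) :
    AnL V σ * gam V (dg z) σ.length = (z : ℂ) ^ wt σ • AnL V σ := by
  have hz := Circle.coe_ne_zero z
  induction σ with
  | nil => simp [AnL, gam, wt]
  | cons s σ ih =>
    rw [AnL, List.length_cons, mul_assoc, AvL_ann_gam, mul_add, mul_smul_comm, mul_smul_comm,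
      ← mul_assoc, ← mul_assoc, ih, wt, zpow_add₀ hz, smul_mul_assoc, smul_mul_assoc, smul_smul,
      smul_smul]
    cases s <;> simp [dg, ix]

theorem AvL_kill {σ : List Bool} (hσ : wt σ ≠ 0) {y : Rc}
    (hy : ∀ g, gam V g σ.length * y = y) : AnL V σ * y = 0 := by
  have h := AvL_torus V (Circle.exp (Real.pi / wt σ)) σ
  have hw : ((wt σ : ℤ) : ℂ) ≠ 0 := Int.cast_ne_zero.2 hσ
  have e : ((Circle.exp (Real.pi / wt σ) : Circle) : ℂ) ^ wt σ = -1 := by
    rw [Circle.coe_exp, ← Complex.exp_int_mul, ← Complex.exp_pi_mul_I]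
    congr 1
    push_cast
    field_simp
  have h2 : AnL V σ * y = -(AnL V σ * y) := by
    conv_lhs => rw [← hy (dg (Circle.exp (Real.pi / wt σ))), ← mul_assoc, h, e]
    rw [neg_smul, one_smul, neg_mul]
  have h3 : (2 : ℂ) • (AnL V σ * y) = 0 := by
    rw [two_smul]
    nth_rewrite 1 [h2]
    exact neg_add_cancel _
  exact (smul_eq_zero.1 h3).resolve_left two_ne_zero

theorem AvL_rot : ∃ g : SU, g.1 0 0 = ((3 / 5 : ℝ) : ℂ) ∧ g.1 0 1 = ((4 / 5 : ℝ) : ℂ) := by
  refine ⟨⟨!![3 / 5, 4 / 5; -(4 / 5), 3 / 5], ?_⟩, by simp, by simp⟩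
  rw [Matrix.mem_specialUnitaryGroup_iff, Matrix.mem_unitaryGroup_iff]
  refine ⟨?_, by norm_num [Matrix.det_fin_two]⟩
  ext i j
  fin_cases i <;> fin_cases j <;> simp [Matrix.mul_apply, Fin.sum_univ_two, map_ofNat] <;> norm_num

theorem AvL_exp (V : Lv Rc) {g : SU} {α β : ℝ} (hα : 0 < α) (hβ : 0 < β) (h0 : g.1 0 0 = α)
    (h1 : g.1 0 1 = β) (d : ℕ) : ∃ c : List Bool → ℝ, (∀ σ, 0 < c σ) ∧
      AnL V (List.replicate d true) * gam V g d = ∑ σ ∈ ls d, (c σ : ℂ) • AnL V σ := by
  refine ⟨fun σ => (σ.map fun s => if s then α else β).prod, fun σ => List.prod_pos ?_, ?_⟩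
  · intro a ha
    obtain ⟨s, -, rfl⟩ := List.mem_map.1 ha
    split_ifs <;> assumption
  · induction d with
    | zero => simp [AnL, gam, ls]
    | succ d ih =>
      rw [List.replicate_succ, AnL, mul_assoc, AvL_ann_gam, mul_add, mul_smul_comm, mul_smul_comm,
        ← mul_assoc, ← mul_assoc, ih, sum_ls_succ]
      change g.1 0 0 • _ + g.1 0 1 • _ = _
      simp only [h0, h1, Finset.sum_mul, Finset.smul_sum, smul_smul, AnL, smul_mul_assoc,
        List.map_cons, List.prod_cons, Complex.ofReal_mul, if_true, Bool.false_eq_true, if_false]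

theorem AvL_wt (σ : List Bool) : wt σ = σ.count true - σ.count false ∧
    σ.length = σ.count true + σ.count false := by
  induction σ with
  | nil => simp [wt]
  | cons s σ ih =>
    obtain ⟨a, b⟩ := ih
    cases s <;> simp [wt] <;> omega

theorem AvL_van {d : ℕ} (hd : d ≠ 0) {y : Rc} (hy : ∀ g, gam V g d * y = y)
    (hC : ∀ j, j + 2 ≤ d → (Tc V).C j * y = 0) : y = 0 := by
  have key : ∀ σ ∈ ls d, AnL V σ * y = 0 := by
    intro σ hσ
    have hl := mem_ls.1 hσ
    by_cases hw : wt σ = 0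
    swap
    · exact AvL_kill hw (hl ▸ hy)
    obtain ⟨g, h0, h1⟩ := AvL_rot
    obtain ⟨c, hc, e⟩ := AvL_exp V (by norm_num) (by norm_num) h0 h1 d
    have z0 : AnL V (List.replicate d true) * y = 0 := by
      refine AvL_kill ?_ (by rwa [List.length_replicate])
      rw [(AvL_wt _).1]
      simpa [List.count_replicate] using hd
    have z1 : ∀ τ ∈ ls d, (c τ : ℂ) • AnL V τ * y =
        ((if wt τ = 0 then c τ else 0 : ℝ) : ℂ) • (AnL V σ * y) := by
      intro τ hτ
      have hl' := mem_ls.1 hτ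
      rw [smul_mul_assoc]
      split_ifs with h
      · have a1 := AvL_wt σ
        have a2 := AvL_wt τ
        rw [AvL_perm (σ' := σ) (List.perm_iff_count.2 fun b => by cases b <;> omega) (hl' ▸ hC)]
      · rw [AvL_kill h (hl' ▸ hy), smul_zero, Complex.ofReal_zero, zero_smul]
    rw [← hy g, ← mul_assoc, e, Finset.sum_mul, Finset.sum_congr rfl z1, ← Finset.sum_smul,
      ← Complex.ofReal_sum] at z0
    refine (smul_eq_zero.1 z0).resolve_left (Complex.ofReal_ne_zero.2 (ne_of_gt ?_))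
    refine Finset.sum_pos' (fun τ _ => ?_) ⟨σ, hσ, by rw [if_pos hw]; exact hc σ⟩
    split_ifs
    · exact (hc τ).le
    · exact le_rfl
  rw [← one_mul y, ← sum_CrL_AnL V d, Finset.sum_mul]
  exact Finset.sum_eq_zero fun σ hσ => by rw [mul_assoc, key σ hσ, mul_zero]

theorem av_gam (V : Lv Rc) (l : Λ) (n : ℕ) :
    Av {l} (fun ω => gam V (ω l) n) (P0 (Tc V) n 0) := by
  choose A hA' using fun n => AvL_ex V l n (fun _ => 1) continuous_const
  have hA : ∀ n, Av {l} (fun ω => gam V (ω l) n) (A n) := fun n =>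
    (hA' n).congr (fun _ => one_smul _ _) rfl
  have hloc : ∀ {a b : ℕ} {z : ℕ → Rc}, (Tc V).Loc a b z → A b * z 0 = z 0 * A a :=
    fun hz => AvL_uniq (AvL_right (hA _) _) (AvL_left (hA _) _) fun ω => gam_loc hz _
  have h0 : A 0 = 1 := AvL_uniq (hA 0) (Av.const {l} 1) fun _ => rfl
  have hv : ∀ d, d ≠ 0 → A d * (Tc V).f d 0 = 0 := fun d hd => by
    refine AvL_van (V := V) hd (fun g => by rw [← mul_assoc, AvL_inv (hA d)]) fun j hj => ?_
    have h := (ok_Tc V).C_f hj 0
    rw [zero_add] at h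
    rw [hloc ((Tc V).loc_f d), ← mul_assoc, h, zero_mul]
  refine (hA n).congr (fun _ => rfl) ?_
  have hc : ∑ σ ∈ ls n, II (Tc V) 0 σ 0 * PP (Tc V) 0 σ 0 = 1 := complete (ok_Tc V) 0 n 0
  rw [← mul_one (A n), ← hc, Finset.mul_sum, P0, Finset.sum_filter]
  refine Finset.sum_congr rfl fun τ hτ => ?_
  have hl := loc_II (Tc V) 0 τ
  rw [zero_add, mem_ls.1 hτ] at hl
  rw [← mul_assoc, hloc hl]
  split_ifs with h
  · rw [h, h0, mul_one]
  · rw [← f_PP (ok_Tc V), mul_assoc, ← mul_assoc (A _), hv _ h, zero_mul, mul_zero]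

end Pool.Agent.P.MP_53e370_gt.S
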