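import Pool.Agent.P.MP_53e370_gt.S.DynS
import Pool.Agent.P.MP_53e370_gt.S.AvL

/-! Closing up the thick strand averages over the group. -/

namespace Pool.Agent.P.MP_53e370_gt.S

open Pool.Agent.P.MP_ac4909_gt Filter Topology MeasureTheory

section
variable {K : Type} [Field K] {A : Type} [Ring A] [Algebra K A] {T : TL K A}

theorem Avg_bend {m n : ℕ} {x : ℕ → A} (hx : T.Loc m n x) (p : ℕ) :
    x p = T.capC m (p + n) * (x p * T.cupC m p) := by
  have h := hx.far' (T.loc_capC m) p (p + m) (p + n) (by omega) (by omega)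
  rw [← mul_assoc, ← h, mul_assoc, T.zigC, mul_one]

theorem Avg_lp_cup (b m : ℕ) (Z : ℕ → A) (p : ℕ) :
    lp T b Z p * T.cupC m p = lp T b (fun q => Z q * T.cupC m (q + b)) p := by
  have h := (T.loc_cupC b).far' (T.loc_cupC m) p p (p + b + b) (by omega) (by omega)
  simp only [lp, Pi.smul_apply, ptr, smul_mul_assoc, mul_assoc, h]

theorem Avg_left_lp {i j : ℕ} {x : ℕ → A} (hx : T.Loc i j x) (b : ℕ) (W : ℕ → A) (p : ℕ) :
    x p * lp T b W p = lp T b (fun q => x (q + b) * W q) p := by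
  have h := (T.loc_capC b).far' hx p (p + b + b) p (by omega) (by omega)
  simp only [lp, Pi.smul_apply, ptr, mul_smul_comm, ← mul_assoc, h]

theorem Avg_lp_f (hT : Ok T) {b : ℕ} (hb : Adm T.a (b + 1)) {W : ℕ → A} {c : K}
    (hW : ∀ q, W q = c • T.f b q) (p : ℕ) : lp T b W p = c • (1 : A) := by
  have h1 : T.f b p * T.cupC b p = T.f b (p + b) * T.cupC b p := hT.rot b p
  have h2 := T.f_closure (hb.mono (Nat.le_succ b)) p
  have h3 : Dl T.a b ≠ 0 := hb b (Nat.lt_succ_self b)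
  simp only [lp, Pi.smul_apply, ptr, hW, mul_smul_comm, smul_mul_assoc]
  rw [mul_assoc, ← h1, ← mul_assoc, h2, Algebra.algebraMap_eq_smul_one, smul_smul, smul_smul]
  congr 1
  field_simp

theorem Avg_kill (hT : Ok T) {N : ℕ} {W : ℕ → A} (hW : T.Loc 0 N W) {τ : List Bool}
    (hl : τ.length = N) (h0 : en 0 τ ≠ 0) (p : ℕ) : PP T 0 τ p * W p = 0 := by
  obtain ⟨c, hc, hc0⟩ := schur hT
    (((loc_PP T 0 τ).cast (m' := N) (by omega) rfl fun _ => rfl).mul hW)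
  have h := hc p
  rw [hc0 (Ne.symm h0), zero_smul, ← mul_assoc, f_PP hT] at h
  have e : T.f 0 p = 1 := rfl
  rwa [e, mul_one] at h

theorem Avg_expand (hT : Ok T) {N : ℕ} {W : ℕ → A} (hW : T.Loc 0 N W) (p : ℕ) :
    W p = ∑ τ ∈ (ls N).filter fun τ => en 0 τ = 0, II T 0 τ p * (PP T 0 τ p * W p) := by
  have h := complete hT 0 N p
  have e : T.f 0 p = 1 := rfl
  rw [e] at h
  rw [Finset.sum_filter_of_ne]
  · simp only [← mul_assoc]
    rw [← Finset.sum_mul, h, one_mul]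
  · intro τ hτ hne
    by_contra h0
    exact hne (by rw [Avg_kill hT hW (mem_ls.1 hτ) h0, mul_zero])

end

variable {Rc : Type} [Ring Rc] [Algebra ℂ Rc] {V : Lv Rc}
  {R : ℕ → Type} [∀ t, Ring (R t)] [∀ t, Algebra ℂ (R t)] {T : ∀ t, TL ℂ (R t)}
  {Λ : Type} [Fintype Λ] {S S' : Set Λ} {m n k m' n' : ℕ} {X Y : ∀ t, ℕ → R t}
  {x y : (Λ → SU) → ℕ → Rc}

theorem Lim.congr (h : Lim V T S m n X x) (hS : S ⊆ S') (hm : m = m') (hn : n = n')
    (h₁ : ∀ᶠ t in atTop, ∀ p, X t p = Y t p) (h₂ : ∀ ω p, x ω p = y ω p) :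
    Lim V T S' m' n' Y y := by
  subst hm hn
  obtain ⟨u, hu, ha⟩ := h
  exact ⟨u, hu.congr (h₁.mono fun t ht => funext ht),
    fun p => ((ha p).mono hS).congr (fun ω => h₂ ω p) rfl⟩

theorem Lim.mul (hY : Lim V T S n k Y y) (hX : Lim V T S' m n X x) (hd : Disjoint S S') :
    Lim V T (S ∪ S') m k (fun t p => Y t p * X t p) fun ω p => y ω p * x ω p := by
  obtain ⟨u, hu, ha⟩ := hY
  obtain ⟨v, hv, hb⟩ := hX
  exact ⟨_, hu.mul hv, fun p => (ha p).mul (hb p) hd⟩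

theorem Lim.padR (h : Lim V T S m n X x) (j : ℕ) : Lim V T S (m + j) (n + j) X x := by
  obtain ⟨u, hu, ha⟩ := h
  exact ⟨u, hu.padR j, ha⟩

theorem Lim.padL (h : Lim V T S m n X x) (j : ℕ) :
    Lim V T S (j + m) (j + n) (fun t p => X t (p + j)) fun ω p => x ω (p + j) := by
  obtain ⟨u, hu, ha⟩ := h
  exact ⟨_, hu.padL j, fun p => ha (p + j)⟩

theorem lim_cv {z : ℕ → Rc} (h : Cv V T m n X z) : Lim V T (∅ : Set Λ) m n X fun _ => z :=
  ⟨z, h, fun p => Av.const _ (z p)⟩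

theorem Lim.scalar [Nontrivial Rc] (hS : Seq T) (h : Lim V T S 0 0 X x) {φ : (Λ → SU) → ℂ}
    (hφ : ∀ ω, x ω 0 = φ ω • (1 : Rc)) : ∃ c : ℕ → ℂ, (∀ᶠ t in atTop, X t 0 = c t • (1 : R t)) ∧
      Tendsto c atTop (𝓝 (∫ ω, φ ω ∂(hpi Λ SU))) := by
  obtain ⟨u, hu, ha⟩ := h
  obtain ⟨c, c₀, hc, hX, h0⟩ := hu.scalar hS
  obtain ⟨ψ, hψ⟩ := Module.Projective.exists_dual_eq_one ℂ (one_ne_zero : (1 : Rc) ≠ 0)
  have h1 := ((ha 0).lin ψ).2
  simp only [h0, hφ, map_smul, hψ, smul_eq_mul, mul_one] at h1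
  exact ⟨c, hX, h1 ▸ hc⟩

theorem Avg_cl {z : Rc} (hz : LC V m n z) (h : SU) :
    (Tc V).capC m n * gam V h (n + m) * (z * (Tc V).cupC m 0) = gam V h n * z * gam V h⁻¹ m := by
  have h1 : gam V h (m + m) * (Tc V).cupC m 0 = (Tc V).cupC m 0 * gam V h 0 :=
    gam_loc ((Tc V).loc_cupC m) h
  have e0 : gam V h 0 = 1 := rfl
  rw [e0, mul_one, gam_add] at h1
  have h2 : sh V (gam V h m) m * (Tc V).cupC m 0 = gam V h⁻¹ m * (Tc V).cupC m 0 := by
    calc sh V (gam V h m) m * (Tc V).cupC m 0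
        = (gam V h⁻¹ m * gam V h m) * sh V (gam V h m) m * (Tc V).cupC m 0 := by
          rw [← gam_mul, inv_mul_cancel, gam_one, one_mul]
      _ = gam V h⁻¹ m * (gam V h m * sh V (gam V h m) m * (Tc V).cupC m 0) := by
          simp only [mul_assoc]
      _ = _ := by rw [h1]
  have hu : LC V m n (gam V h n * z * gam V h⁻¹ m) :=
    ((LC_gam V h n).mul hz).mul (LC_gam V h⁻¹ m)
  have h3 := hu ((Tc V).capC m 0)
  rw [← loc_sh ((Tc V).loc_capC m), ← loc_sh ((Tc V).loc_capC m)] at h3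
  have h4 : (Tc V).capC m m * (Tc V).cupC m 0 = 1 := by
    simpa only [zero_add] using (Tc V).zigC m 0
  calc (Tc V).capC m n * gam V h (n + m) * (z * (Tc V).cupC m 0)
      = (Tc V).capC m n * (gam V h n * ((sh V (gam V h m) n * z) * (Tc V).cupC m 0)) := by
        rw [gam_add]; simp only [mul_assoc]
    _ = (Tc V).capC m n * (gam V h n * z * gam V h⁻¹ m) * (Tc V).cupC m 0 := by
        rw [← hz, mul_assoc z, h2]; simp only [mul_assoc]
    _ = _ := by rw [← h3, mul_assoc, h4, mul_one]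

theorem Avg_loop (hS : Seq T) {β : ℕ → ℕ} {ζ : Circle} (hβ : Mid T β ζ) {W : ∀ t, ℕ → R t} {w : Rc}
    (hW : Dyn V T β β 0 0 W w) (hf : ∀ᶠ t in atTop, ∀ p, W t p * (T t).f (β t) p = W t p) :
    ∃ (c : ℕ → ℂ) (c₀ : ℂ), Tendsto c atTop (𝓝 c₀) ∧ w = c₀ • (1 : Rc) ∧
      ∀ᶠ t in atTop, ∀ p, lp (T t) (β t) (W t) p = c t • (1 : R t) := by
  obtain ⟨c, c₀, hc, h0, he⟩ := hW.ent [] [] rfl rfl
  refine ⟨c, c₀, hc, by simpa only [AnL, CrL, one_mul, mul_one] using h0, ?_⟩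
  filter_upwards [he, hf, hW.comm, hβ.adm 1] with t h1 h2 h3 h4 p
  refine Avg_lp_f (hS.ok t) h4 (fun q => ?_) p
  have h5 := h1.1 q
  simp only [PP, II, en] at h5
  rw [← h5, h3, h2]

theorem lim_lp (hS : Seq T) {β : ℕ → ℕ} {ζ : Circle} (hβ : Mid T β ζ) {Z : ∀ t, ℕ → R t} {z : Rc}
    (hZ : Dyn V T β β m n Z z) (hf : ∀ᶠ t in atTop, ∀ p, Z t p * (T t).f (β t) p = Z t p) (l : Λ) :
    Lim V T {l} m n (fun t => lp (T t) (β t) (Z t))
      fun ω => sh V (gam V (ω l) n * z * gam V (ω l)⁻¹ m) := by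
  have hW : Dyn V T β β 0 (n + m) (fun t p => Z t p * (T t).cupC m (p + β t))
      (z * (Tc V).cupC m 0) :=
    (hZ.padR hS hβ m).mul hS (dyn_small hS hβ (cv_cupC V T m))
  have hWf : ∀ᶠ t in atTop, ∀ p, Z t p * (T t).cupC m (p + β t) * (T t).f (β t) p =
      Z t p * (T t).cupC m (p + β t) := by
    filter_upwards [hf] with t ht p
    have h := ((T t).loc_f (β t)).far' ((T t).loc_cupC m) p (p + β t) (p + β t) le_rfl rfl
    rw [mul_assoc, ← h, ← mul_assoc, ht]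
  have key : ∀ τ : List Bool, ∃ (c : ℕ → ℂ) (c₀ : ℂ),
      τ ∈ (ls (n + m)).filter (fun τ => en 0 τ = 0) →
      Tendsto c atTop (𝓝 c₀) ∧ PP (Tc V) 0 τ 0 * (z * (Tc V).cupC m 0) = c₀ • (1 : Rc) ∧
      ∀ᶠ t in atTop, ∀ p, lp (T t) (β t) (fun q => PP (T t) 0 τ (q + β t) *
        (Z t q * (T t).cupC m (q + β t))) p = c t • (1 : R t) := by
    intro τ
    by_cases hτ : τ ∈ (ls (n + m)).filter (fun τ => en 0 τ = 0)
    · obtain ⟨h1, h2⟩ := Finset.mem_filter.1 hτ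
      have h3 := mem_ls.1 h1
      have hP : Cv V T (n + m) 0 (fun t => PP (T t) 0 τ) (PP (Tc V) 0 τ) :=
        (cv_PP V hS 0 τ).cast (by omega) h2 (fun _ _ => rfl) fun _ => rfl
      obtain ⟨c, c₀, h⟩ := Avg_loop hS hβ ((dyn_small hS hβ hP).mul hS hW)
        (hWf.mono fun t ht p => by rw [mul_assoc, ht])
      exact ⟨c, c₀, fun _ => h⟩
    · exact ⟨0, 0, fun h => absurd h hτ⟩
  choose c c₀ hc using key
  have hI : Cv V T 0 (n + m)
      (fun t p => ∑ τ ∈ (ls (n + m)).filter (fun τ => en 0 τ = 0), c τ t • II (T t) 0 τ p)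
      fun p => ∑ τ ∈ (ls (n + m)).filter (fun τ => en 0 τ = 0), c₀ τ • II (Tc V) 0 τ p := by
    refine Cv.sum (F := fun τ t p => c τ t • II (T t) 0 τ p)
      (f := fun τ p => c₀ τ • II (Tc V) 0 τ p) _ fun τ hτ => ?_
    obtain ⟨h1, h2⟩ := Finset.mem_filter.1 hτ
    have h3 := mem_ls.1 h1
    exact Cv.smul (c τ) (c₀ τ) (hc τ hτ).1
      ((cv_II V hS 0 τ).cast h2 (by omega) (fun _ _ => rfl) fun _ => rfl)
  have hC : Cv V T (n + m + m) n (fun t p => (T t).capC m (p + n))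
      fun p => (Tc V).capC m (p + n) :=
    ((cv_capC V T m).padL n).cast (by omega) rfl (fun _ _ => rfl) fun _ => rfl
  have hY := hC.mul ((hI.padR m).cast (zero_add m) rfl (fun _ _ => rfl) fun _ => rfl)
  have hall : ∀ᶠ t in atTop, ∀ τ ∈ (ls (n + m)).filter (fun τ => en 0 τ = 0), ∀ p,
      lp (T t) (β t) (fun q => PP (T t) 0 τ (q + β t) *
        (Z t q * (T t).cupC m (q + β t))) p = c τ t • (1 : R t) :=
    (eventually_all_finset _).2 fun τ hτ => (hc τ hτ).2.2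
  refine ⟨_, hY.congr ?_, fun p => ?_⟩
  · filter_upwards [hall, hZ.loc, hW.loc] with t h1 h2 h3
    funext p
    rw [Avg_bend (loc_lp h2) p, Avg_lp_cup, Avg_expand (hS.ok t) (loc_lp h3) p]
    congr 1
    refine Finset.sum_congr rfl fun τ hτ => ?_
    rw [Avg_left_lp (loc_PP (T t) 0 τ), h1 τ hτ, mul_smul_comm, mul_one]
  · obtain ⟨ψ, hψ⟩ := exists_shL V p
    have h := (av_gam V l (n + m)).map (ψ ∘ₗ LinearMap.mulRight ℂ (z * (Tc V).cupC m 0) ∘ₗ
      LinearMap.mulLeft ℂ ((Tc V).capC m n))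
    refine h.congr (fun ω => ?_) ?_
    · simp only [LinearMap.comp_apply, LinearMap.mulRight_apply, LinearMap.mulLeft_apply, hψ]
      rw [Avg_cl hZ.lc]
    · simp only [LinearMap.comp_apply, LinearMap.mulRight_apply, LinearMap.mulLeft_apply, hψ]
      rw [loc_sh hY.loc.2 p]
      congr 1
      rw [zero_add, mul_assoc, P0, Finset.sum_mul]
      congr 1
      refine Finset.sum_congr rfl fun τ hτ => ?_
      rw [mul_assoc, (hc τ hτ).2.1, mul_smul_comm, mul_one]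

end Pool.Agent.P.MP_53e370_gt.S
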