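import Pool.Agent.P.MP_53e370_gt.S.TDefs
import Pool.Agent.P.MP_53e370_gt.Sym

/-! At a root of unity of order `2 p` the top colour is transparent. -/

namespace Pool.Agent.P.MP_53e370_gt.S

open Pool.Agent.P.MP_ac4909_gt

variable {K : Type} [Field K] {R : Type} [Ring R] [Algebra K R] {T : TL K R} {ι : Type}
  [Fintype ι] [DecidableEq ι]

section Aux

open Rev

variable {N : ℕ} {α : Type} {j : α → ℕ}

theorem Boson_adm (h : Bos T N) : Adm T.a N := h.adm.mono (Nat.le_succ N)

theorem Boson_zp (h : Bos T N) (s : Bool) : zp T.a s ^ (N + 2) = -1 := by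
  cases s
  · simp only [zp, Bool.false_eq_true, if_false]
    rw [inv_pow, h.root, inv_neg_one]
  · exact h.root

theorem Boson_X {M : ℕ} (h : Bos T (M + 1)) (p : ℕ) :
    T.X true (M + 1) p * T.f (M + 1) p = T.X false (M + 1) p * T.f (M + 1) p := by
  have h1 := h.zero p
  rw [T.jw_f_two, sub_eq_zero] at h1
  have h2 : ∀ s, T.X s (M + 1) p * T.f (M + 1) p = (kap T.a M * -zp T.a (!s) ^ (M + 3)) •
      (T.f (M + 1) (p + 1) * T.U p * T.C (p + M) * T.f (M + 1) p) := fun s => by
    conv_lhs => rw [h1]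
    rw [mul_smul_comm, ← mul_assoc, ← mul_assoc, ← mul_assoc, X_f_U T (Boson_adm h),
      smul_mul_assoc, smul_mul_assoc, smul_smul]
  rw [h2, h2, show M + 3 = M + 1 + 2 from rfl, Boson_zp h, Boson_zp h]

theorem Boson_change (h : Bos T N) (m : ℕ) :
    ∀ p, T.crC true N m p * T.f N p = T.crC false N m p * T.f N p := by
  obtain ⟨M, rfl⟩ : ∃ M, N = M + 1 := ⟨N - 1, by have := h.pos; omega⟩
  induction m with
  | zero => intro p; simp [TL.crC]
  | succ m ih =>
    intro p
    have h1 := (T.loc_f (M + 1)).natL false 1 p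
    rw [T.crC_one_right] at h1
    rw [TL.crC, TL.crC, mul_assoc, Boson_X h, h1, ← mul_assoc, ih, mul_assoc, mul_assoc, h1]

theorem Boson_change' (h : Bos T N) (m p : ℕ) :
    T.crC true m N p * T.f N (p + m) = T.crC false m N p * T.f N (p + m) := by
  have h1 := Boson_change h m p
  have h2 : T.crC false m N p * T.crC true N m p = 1 := T.r2C true N m p
  have h3 : T.crC false N m p * T.crC true m N p = 1 := T.r2C true m N p
  have h4 := (T.loc_f N).natR true m p
  have h5 := congrArg (fun x => T.crC false m N p * x * T.crC true m N p) h1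
  rw [← mul_assoc, h2, one_mul, ← h4, mul_assoc, mul_assoc, ← h4, ← mul_assoc (T.crC false _ m p),
    h3, one_mul] at h5
  exact h5

theorem Boson_f_ecup (h : Bos T N) (p : ℕ) : T.f N p * ecup T N p = ecup T N p := by
  rw [ecup, ← mul_assoc, T.f_idem (Boson_adm h)]

theorem Boson_f_ecup' (h : Bos T N) (p : ℕ) : T.f N (p + N) * ecup T N p = ecup T N p := by
  rw [ecup, T.rot_f (Boson_adm h) p, ← mul_assoc, T.f_idem (Boson_adm h)]

theorem Boson_nested (h : Bos T N) (p : ℕ) :
    ecup T N (p + N) * ecup T N p = ecup T N p * ecup T N p := by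
  have h1 := fuse T h.adm h.zero p N 0 (by omega)
  have h2 := (T.loc_f N).far' (loc_ecup T N) p (p + N) (p + N) le_rfl rfl
  have h3 : T.f N p * T.f N (p + N) * (ecup T N (p + N) * ecup T N p) =
      ecup T N (p + N) * ecup T N p := by
    rw [mul_assoc, ← mul_assoc (T.f N (p + N)), Boson_f_ecup h, ← mul_assoc, h2, mul_assoc,
      Boson_f_ecup h]
  have h4 : T.f N p * T.f N (p + N) * T.cupC N p = ecup T N p := by
    rw [mul_assoc, ← T.rot_f (Boson_adm h) p, ← mul_assoc, T.f_idem (Boson_adm h), ecup]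
  have h5 : T.capC N p * ecup T N (p + N) = T.f N p := by
    have e1 := (T.rot_f (Boson_adm h)).cap (T.loc_f N) (T.loc_f N) p
    have e2 := (T.loc_f N).far' (T.loc_cupC N) p (p + N) (p + N) le_rfl rfl
    rw [ecup, ← mul_assoc, e1, mul_assoc, e2, ← mul_assoc, T.zagC, one_mul]
  have h6 : Dl T.a 0 / Dl T.a N = 1 := by rw [h.dim, Dl, div_one]
  rw [← h3, h1, h6, one_smul, add_zero, h4, mul_assoc, mul_assoc (T.capC N p), h3,
    ← mul_assoc (T.capC N p), h5, Boson_f_ecup h]

theorem Boson_ecup_Gam (h : Bos T N) (p k : ℕ) : ∀ l, l ≤ 2 * k →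
    ecup T N (p + l * N) * Gam T N k p = Gam T N (k + 1) p := by
  induction k with
  | zero =>
    intro l hl
    obtain rfl : l = 0 := by omega
    simp [Gam]
  | succ k ih =>
    intro l hl
    match l, hl with
    | 0, _ => simp [Gam]
    | 1, _ =>
      rw [one_mul, Gam, ← mul_assoc, Boson_nested h, mul_assoc]
      rfl
    | l + 2, hl =>
      have h1 := (loc_ecup T N).far' (loc_ecup T N) p (p + l * N) (p + (l + 2) * N) (by omega)
        (by ring)
      rw [Gam, ← mul_assoc, ← h1, mul_assoc, ih l (by omega)]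
      rfl

theorem Boson_cap_Gam (h : Bos T N) (p k l : ℕ) (hl : l ≤ 2 * k) :
    T.capC N (p + l * N) * T.f N (p + l * N) * Gam T N (k + 1) p = Gam T N k p := by
  rw [← Boson_ecup_Gam h p k l hl, ← mul_assoc, mul_assoc (T.capC _ _), Boson_f_ecup h, ecup,
    ← mul_assoc, T.f_closure (Boson_adm h), h.dim, map_one, one_mul]

theorem Boson_cr_Gam (h : Bos T N) (s : Bool) (p k l : ℕ) (hl : l ≤ 2 * k) :
    T.crC s N N (p + l * N) * Gam T N (k + 1) p = Gam T N (k + 1) p := by
  obtain ⟨M, rfl⟩ : ∃ M, N = M + 1 := ⟨N - 1, by have := h.pos; omega⟩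
  have h1 := twist T (Boson_adm h) s (M + 1) 0 (p + l * (M + 1)) (by omega)
  rw [add_zero, ← T.rot_f (Boson_adm h), show M + 3 = M + 1 + 2 from rfl, Boson_zp h, neg_neg,
    one_pow, one_smul] at h1
  rw [← Boson_ecup_Gam h p k l hl, ← mul_assoc, ecup, ← mul_assoc, h1]

theorem Boson_f_Gam (h : Bos T N) (p k l : ℕ) (hl : l < 2 * k) :
    T.f N (p + l * N) * Gam T N k p = Gam T N k p := by
  obtain ⟨k, rfl⟩ : ∃ k', k = k' + 1 := ⟨k - 1, by omega⟩
  rcases Nat.lt_or_ge (2 * k) l with h1 | h1
  · obtain rfl : l = 2 * k + 1 := by omega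
    rw [← Boson_ecup_Gam h p k (2 * k) le_rfl, ← mul_assoc (T.f N _),
      show p + (2 * k + 1) * N = p + 2 * k * N + N by ring, Boson_f_ecup' h]
  · rw [← Boson_ecup_Gam h p k l h1, ← mul_assoc, Boson_f_ecup h]

theorem Boson_f_V (h : Bos T N) (l r : List (Option α)) (he : Even (cnt (l ++ none :: r))) :
    T.f N (pw j l + cnt l * N) * V T N j (l ++ none :: r) = V T N j (l ++ none :: r) := by
  have h1 := W_top (j := j) (k := 1) (k' := 1)
    ((T.loc_f N).cast (one_mul N).symm (one_mul N).symm fun _ => rfl) r l 0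
  simp only [zero_add, List.replicate_one, List.singleton_append] at h1
  rw [V, ← mul_assoc, h1, mul_assoc, pw_append, pw, Boson_f_Gam h]
  rw [cnt_append, cnt, Nat.even_iff] at *
  omega

variable [Rev α]

theorem Boson_step (h : Bos T N) (hj : ∀ x, j (rev x) = j x) (s : Sl (Option α))
    (he : Even (cnt s.src)) : Even (cnt s.tgt) ∧ T.val (gcol T N j) s * V T N j s.src =
      V T N j s.tgt * T.ev (Col.plain j) (erase [s]) := by
  obtain ⟨l, g, r⟩ := s
  rcases g with (_ | o) | (_ | o) | ⟨_ | x, _ | y, b⟩ <;>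
    simp only [Sl.src, Sl.tgt, Gen.src, Gen.tgt, List.append_assoc, List.cons_append,
      List.nil_append, rev_none, rev_some, TL.val, TL.gval, wid_gcol, erase, Gen.erase,
      List.filterMap_cons, List.filterMap_nil, Option.map_none, Option.map_some, TL.ev, mul_one,
      one_mul, Col.plain, pw_eq] at he ⊢
  · refine ⟨by simp only [cnt_append, cnt, Nat.even_iff] at he ⊢; omega, ?_⟩
    refine (V_top (k := 0) (k' := 2) (y := ecup T N)
      ((loc_ecup T N).cast (by simp) (two_mul N).symm fun _ => rfl) r l 1 ?_).trans (one_smul _ _)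
    simp only [cnt_append, cnt, Nat.even_iff, List.replicate, List.cons_append,
      List.nil_append] at he ⊢
    rw [Boson_ecup_Gam h _ _ _ (by omega), show (cnt l + (cnt r + 1 + 1)) / 2 =
      (cnt l + cnt r) / 2 + 1 by omega, one_smul]
  · refine ⟨by simpa only [cnt_append, cnt] using he, ?_⟩
    exact V_plain (j := j) (y := fun p => 1 * T.cupC (j o) p) (r := r) (σ := r)
      (σ' := some o :: some (rev o) :: r)
      ((T.loc_cupC (j o)).cast rfl rfl fun _ => (one_mul _).symm) (fun _ => rfl)
      (fun p => by simp only [W, hj, add_assoc]) (by simp) (by simp only [pw, hj, add_assoc])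
      rfl l |>.trans (by rw [one_mul])
  · refine ⟨by simp only [cnt_append, cnt, Nat.even_iff] at he ⊢; omega, ?_⟩
    refine (V_top (k := 2) (k' := 0) (y := fun p => T.capC N p * T.f N p)
      ((TL.Loc.mul (T.loc_capC N) ((T.loc_f N).padR N)).cast (two_mul N).symm (by simp)
        fun _ => rfl) r l 1 ?_).trans (one_smul _ _)
    simp only [cnt_append, cnt, Nat.even_iff, List.replicate, List.cons_append,
      List.nil_append] at he ⊢
    rw [show (cnt l + (cnt r + 1 + 1)) / 2 = (cnt l + cnt r) / 2 + 1 by omega,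
      Boson_cap_Gam h _ _ _ (by omega), one_smul]
  · refine ⟨by simpa only [cnt_append, cnt] using he, ?_⟩
    exact V_plain (j := j) (y := fun p => T.capC (j o) p * 1) (r := r) (σ' := r)
      (σ := some o :: some (rev o) :: r) ((T.loc_capC (j o)).cast rfl rfl fun _ => (mul_one _).symm)
      (fun p => by simp only [W, hj, add_assoc]) (fun _ => rfl) (by simp only [pw, hj, add_assoc])
      (by simp) rfl l |>.trans (by rw [mul_one])
  · refine ⟨he, ?_⟩
    refine (V_top (k := 2) (k' := 2) (y := T.crC b N N)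
      ((T.loc_crC b N N).cast (two_mul N).symm (two_mul N).symm fun _ => rfl) r l 1 ?_).trans
      (one_smul _ _)
    simp only [cnt_append, cnt, Nat.even_iff, List.replicate, List.cons_append,
      List.nil_append] at he ⊢
    rw [show (cnt l + (cnt r + 1 + 1)) / 2 = (cnt l + cnt r) / 2 + 1 by omega,
      Boson_cr_Gam h _ _ _ _ (by omega), one_smul]
  · refine ⟨by simpa only [cnt_append, cnt] using he, ?_⟩
    have h1 := V_mix (W_over' (T := T) (N := N) (j := j) y r) rfl rfl l
    cases b
    · have h2 := Boson_f_V (j := j) h l (some y :: r) he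
      have h3 := Boson_change h (j y) (pw j l + cnt l * N)
      rw [← h1, ← h2, ← mul_assoc, ← mul_assoc, h3]
      rfl
    · exact h1
  · refine ⟨by simpa only [cnt_append, cnt] using he, ?_⟩
    have h1 := V_mix (W_over (T := T) (N := N) (j := j) x r) rfl rfl l
    cases b
    · exact h1
    · have h2 := Boson_f_V (j := j) h (l ++ [some x]) r (by simpa using he)
      have h3 := Boson_change' h (j x) (pw j l + cnt l * N)
      simp only [List.append_assoc, List.cons_append, List.nil_append, pw_append, cnt_append, pw,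
        cnt, add_zero] at h2
      rw [add_right_comm] at h2
      rw [← h1, ← h2, ← mul_assoc, ← mul_assoc, ← h3]
      rfl
  · refine ⟨by simpa only [cnt_append, cnt] using he, ?_⟩
    exact V_plain (j := j) (y := T.crC b (j x) (j y)) (r := r) (σ := some x :: some y :: r)
      (σ' := some y :: some x :: r) (T.loc_crC b (j x) (j y))
      (fun p => by simp only [W, add_assoc]) (fun p => by simp only [W, add_assoc])
      (by simp only [pw, add_assoc]) (by simp only [pw, add_assoc]) rfl l

theorem Boson_sweep (h : Bos T N) (hj : ∀ x, j (rev x) = j x) {w : List (Sl (Option α))}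
    {ρ ρ' : List (Option α)} (hw : Run ρ w ρ') (he : Even (cnt ρ)) :
    T.ev (gcol T N j) w * V T N j ρ = V T N j ρ' * T.ev (Col.plain j) (erase w) := by
  induction w generalizing ρ with
  | nil => simp [show ρ = ρ' from hw, TL.ev, erase]
  | cons s w ih =>
    obtain ⟨rfl, h2⟩ := hw
    obtain ⟨h3, h4⟩ := Boson_step h hj s he
    rw [TL.ev, mul_assoc, h4, ← mul_assoc, ih h2 h3, ← List.singleton_append (l := w),
      erase_append, T.ev_append, mul_assoc]

theorem Boson_closed (h : Bos T N) (hj : ∀ x, j (rev x) = j x) {w : List (Sl (Option α))}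
    (hw : Run [] w []) : T.ev (gcol T N j) w = T.ev (Col.plain j) (erase w) := by
  simpa [V, W, cnt, Gam] using Boson_sweep h hj hw (by simp [cnt])

omit [Fintype ι] in
theorem Boson_ev (h : Bos T N) (v : Finset ι) (n : ι → ℕ) {L : List (Sl (Arc ι))}
    (hL : Run [] L []) : T.ev (T.jcA (fun i => if i ∈ v then N else 0) n fun _ => true) L =
      T.ev (Col.plain fun a : Arc ι => n a.name) L := by
  obtain ⟨a1, a2, -⟩ := par_word v T N n hL
  rw [← tens_par, ← T.ev_cable, Boson_closed h (fun _ => rfl) a1, a2]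
  rintro (_ | x)
  · exact T.loc_f N
  · exact TL.Loc.one _

theorem Boson_beta [Nontrivial R] (h : Bos T N) (v : Finset ι) {L : List (Sl (Arc ι))}
    (hL : IsFramedLink L) (p : MvPolynomial ι ℤ) :
    lev T.a T.ha (beta L (chb (fun i => ((if i ∈ v then N else 0 : ℕ) : ℤ) + 1) * p)) =
      lev T.a T.ha (beta L p) := by
  induction p using MvPolynomial.induction_on' with
  | add p q hp hq => rw [mul_add, map_add, map_add, hp, hq, map_add, map_add]
  | monomial n c =>
    have a1 := T.ev_jcA hL (fun i => if i ∈ v then N else 0) n (fun _ => true) fun i =>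
      (Boson_adm h).mono (by split_ifs <;> omega)
    have a2 := T.ev_jcA hL 0 n (fun _ => true) fun i => (Boson_adm h).mono (Nat.zero_le _)
    have e1 : (T.jcA 0 n fun _ => true) = Col.plain fun a : Arc ι => n a.name := by
      simp [TL.jcA, Col.plain, TL.f]
    have e2 : chb (fun i : ι => (((0 : ι → ℕ) i : ℕ) : ℤ) + 1) = 1 := by simp [chb]
    rw [Boson_ev h v n hL.1, ← e1, a2, e2, one_mul, cheb_monomial,
      Finsupp.equivFunOnFinite_symm_coe] at a1
    have a3 := (algebraMap K R).injective a1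
    have e : (MvPolynomial.monomial n c : MvPolynomial ι ℤ) = c • MvPolynomial.monomial n 1 := by
      rw [MvPolynomial.smul_monomial, smul_eq_mul, mul_one]
    rw [e, mul_smul_comm, map_smul, map_zsmul, map_smul, map_zsmul, ← a3]

end Aux

theorem Jv_bos [Nontrivial R] {N : ℕ} (h : Bos T N) {L : List (Sl (Arc ι))} (hL : IsFramedLink L)
    (v : Finset ι) (m : ι → ℕ) (hm : ∀ i, m i ≤ N) :
    Jv T.a T.ha L (fun i => if i ∈ v then N - m i else m i) = Jv T.a T.ha L m := by
  rw [Jv, Jv, JP, JP, ← Boson_beta h v hL (chb fun i => (m i : ℤ) + 1), chb, chb, chb, ← Finset.prod_mul_distrib]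
  have key := prod_congr_mod
    ((lev T.a T.ha).toAddMonoidHom.comp (beta L).toAddMonoidHom)
    (fun i => Polynomial.aeval (MvPolynomial.X i : MvPolynomial ι ℤ)
      (Polynomial.Chebyshev.S ℤ ((N + 1 : ℕ) : ℤ)))
    (fun i => Polynomial.aeval (MvPolynomial.X i : MvPolynomial ι ℤ)
      (Polynomial.Chebyshev.S ℤ (((if i ∈ v then N - m i else m i : ℕ) : ℤ) + 1 - 1)))
    (fun i => Polynomial.aeval (MvPolynomial.X i : MvPolynomial ι ℤ)
      (Polynomial.Chebyshev.S ℤ (((if i ∈ v then N else 0 : ℕ) : ℤ) + 1 - 1)) *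
        Polynomial.aeval (MvPolynomial.X i : MvPolynomial ι ℤ)
          (Polynomial.Chebyshev.S ℤ ((m i : ℤ) + 1 - 1)))
    (fun i p => cheb_vanish T hL (N + 1) h.adm h.zero i p) (fun i => ?_) Finset.univ 1
  · rw [mul_one, mul_one] at key
    exact key
  · simp only [add_sub_cancel_right]
    rw [← map_mul, ← map_sub]
    refine map_dvd _ ?_
    split_ifs
    · rw [Nat.cast_sub (hm i), Nat.cast_add_one]
      exact cheb_refl N (m i)
    · simp

end Pool.Agent.P.MP_53e370_gt.S
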