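import Pool.Agent.P.MP_53e370_gt.S.TDefs

/-! Paths, completeness and orthogonality of the fusion channels, Schur lemma. -/

namespace Pool.Agent.P.MP_53e370_gt.S

open Pool.Agent.P.MP_ac4909_gt

variable {K : Type} [Field K] {R : Type} [Ring R] [Algebra K R] {T : TL K R}

theorem mem_ls {n : ℕ} {σ : List Bool} : σ ∈ ls n ↔ σ.length = n := by
  induction n generalizing σ with
  | zero => simp [ls]
  | succ n ih =>
    cases σ with
    | nil => simp [ls]
    | cons s σ => cases s <;> simp [ls, ih]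

theorem sum_ls_succ {M : Type} [AddCommMonoid M] (n : ℕ) (g : List Bool → M) :
    ∑ σ ∈ ls (n + 1), g σ = ∑ σ ∈ ls n, g (true :: σ) + ∑ σ ∈ ls n, g (false :: σ) := by
  have hd : Disjoint ((ls n).image (List.cons true)) ((ls n).image (List.cons false)) := by
    rw [Finset.disjoint_left]
    intro x hx hx'
    obtain ⟨a, -, rfl⟩ := Finset.mem_image.1 hx
    obtain ⟨b, -, hb⟩ := Finset.mem_image.1 hx'
    simp at hb
  rw [ls, Finset.sum_union hd, Finset.sum_image fun a _ b _ h => List.cons_injective h,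
    Finset.sum_image fun a _ b _ h => List.cons_injective h]

theorem sum_ls_add {M : Type} [AddCommMonoid M] (m n : ℕ) (g : List Bool → M) :
    ∑ σ ∈ ls (m + n), g σ = ∑ σ ∈ ls m, ∑ τ ∈ ls n, g (σ ++ τ) := by
  induction m generalizing g with
  | zero => simp [ls]
  | succ m ih =>
    rw [show m + 1 + n = m + n + 1 by omega, sum_ls_succ, sum_ls_succ, ih, ih]
    rfl

theorem en_append (b : ℕ) (σ τ : List Bool) : en b (σ ++ τ) = en (en b σ) τ := by
  induction σ generalizing b with
  | nil => rfl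
  | cons s σ ih => exact ih _

theorem en_eq {b : ℕ} {σ : List Bool} (h : σ.length ≤ b) : (en b σ : ℤ) = b + wt σ := by
  induction σ generalizing b with
  | nil => simp [en, wt]
  | cons s σ ih =>
    rw [List.length_cons] at h
    have h' : σ.length ≤ stp b s := by cases s <;> simp [stp] <;> omega
    rw [en, ih h', wt]
    cases s <;> simp [stp] <;> omega

theorem en_le (b : ℕ) (σ : List Bool) : en b σ ≤ b + σ.length := by
  induction σ generalizing b with
  | nil => simp [en]
  | cons s σ ih =>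
    have h := ih (stp b s)
    have h' : stp b s ≤ b + 1 := by cases s <;> simp [stp]; omega
    rw [en, List.length_cons]
    omega

theorem le_en (b : ℕ) (σ : List Bool) : b ≤ en b σ + σ.length := by
  induction σ generalizing b with
  | nil => simp [en]
  | cons s σ ih =>
    have h := ih (stp b s)
    have h' : b ≤ stp b s + 1 := by cases s <;> simp [stp] <;> omega
    rw [en, List.length_cons]
    omega

theorem wt_mod (σ : List Bool) : wt σ % 2 = (σ.length : ℤ) % 2 := by
  induction σ with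
  | nil => simp [wt]
  | cons s σ ih =>
    rw [wt, List.length_cons]
    cases s <;> simp only [if_true, Bool.false_eq_true, if_false] <;> push_cast <;> omega

theorem abs_wt_le (σ : List Bool) : |wt σ| ≤ σ.length := by
  induction σ with
  | nil => simp [wt]
  | cons s σ ih =>
    rw [abs_le] at ih ⊢
    rw [wt, List.length_cons]
    cases s <;> simp only [if_true, Bool.false_eq_true, if_false] <;> push_cast <;> omega

theorem Paths_f_succ {m p : ℕ} (h : T.f m p = 0) : T.f (m + 1) p = 0 := by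
  cases m with
  | zero => exact h
  | succ m => rw [T.jw_f_two, h, mul_zero, smul_zero, sub_zero]

theorem Lev.f_zero {N : ℕ} (h : Lev T N) {m : ℕ} (hm : N < m) (p : ℕ) : T.f m p = 0 := by
  induction m, hm using Nat.le_induction with
  | base => exact h.zero p
  | succ m _ ih => exact Paths_f_succ ih

theorem Lev.ok {N : ℕ} (h : Lev T N) : Ok T := fun m => by
  rcases Nat.lt_or_ge N m with hm | hm
  · exact Or.inr (h.f_zero hm)
  · exact Or.inl (h.adm.mono (by omega))

theorem Ok.idem (h : Ok T) (m p : ℕ) : T.f m p * T.f m p = T.f m p := by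
  rcases h m with ha | hz
  · exact T.f_idem (ha.mono (Nat.le_succ _)) p
  · rw [hz, mul_zero]

theorem Ok.C_f (h : Ok T) {n j : ℕ} (hj : j + 2 ≤ n) (p : ℕ) : T.C (p + j) * T.f n p = 0 := by
  rcases h n with ha | hz
  · exact T.C_mul_f (ha.mono (Nat.le_succ _)) hj p
  · rw [hz, mul_zero]

theorem Ok.f_U (h : Ok T) {n j : ℕ} (hj : j + 2 ≤ n) (p : ℕ) : T.f n p * T.U (p + j) = 0 := by
  rcases h n with ha | hz
  · exact T.f_mul_U (ha.mono (Nat.le_succ _)) hj p
  · rw [hz, zero_mul]

theorem Ok.f_f (h : Ok T) {n m j : ℕ} (hm : m + j ≤ n) (p : ℕ) :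
    T.f n p * T.f m (p + j) = T.f n p := by
  rcases h n with ha | hz
  · exact T.f_mul_f (ha.mono (Nat.le_succ _)) hm p
  · rw [hz, zero_mul]

theorem Ok.f_f' (h : Ok T) {n m j : ℕ} (hm : m + j ≤ n) (p : ℕ) :
    T.f m (p + j) * T.f n p = T.f n p := by
  rcases h n with ha | hz
  · exact T.f_mul_f' (ha.mono (Nat.le_succ _)) hm p
  · rw [hz, mul_zero]

theorem Ok.rot (h : Ok T) (n : ℕ) : T.Rot n n (T.f n) (T.f n) := by
  rcases h n with ha | hz
  · exact T.rot_f (ha.mono (Nat.le_succ _))
  · intro p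
    rw [hz, hz]

theorem Ok.merid (h : Ok T) (n p : ℕ) : ringN T 1 n p * T.f n p = mu T.a n • T.f n p := by
  rcases h n with ha | hz
  · rw [ringN, T.capC_one, T.cupC_one]
    exact T.f_merid (ha.mono (Nat.le_succ _)) p
  · rw [hz, mul_zero, smul_zero]

theorem Paths_i1_t (T : TL K R) (b p : ℕ) : i1 T b true p = T.f (b + 1) p := by simp [i1]

theorem Paths_i1_z (T : TL K R) (p : ℕ) : i1 T 0 false p = 0 := by simp [i1]

theorem Paths_i1_f (T : TL K R) (b p : ℕ) :
    i1 T (b + 1) false p = T.f (b + 1) p * T.U (p + b) := by simp [i1]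

theorem Paths_p1_t (T : TL K R) (b p : ℕ) : p1 T b true p = T.f (b + 1) p := by simp [p1]

theorem Paths_p1_z (T : TL K R) (p : ℕ) : p1 T 0 false p = 0 := by simp [p1]

theorem Paths_p1_f (T : TL K R) (b p : ℕ) :
    p1 T (b + 1) false p = kap T.a b • (T.C (p + b) * T.f (b + 1) p) := by simp [p1]

theorem Paths_f_i1 (h : Ok T) (b : ℕ) (s : Bool) (p : ℕ) : T.f b p * i1 T b s p = i1 T b s p := by
  cases s with
  | true =>
    rw [Paths_i1_t]
    exact h.f_f' (j := 0) (by omega) p
  | false =>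
    cases b with
    | zero => rw [Paths_i1_z, mul_zero]
    | succ b => rw [Paths_i1_f, ← mul_assoc, h.idem]

theorem Paths_p1_f' (h : Ok T) (b : ℕ) (s : Bool) (p : ℕ) :
    p1 T b s p * T.f b p = p1 T b s p := by
  cases s with
  | true =>
    rw [Paths_p1_t]
    exact h.f_f (j := 0) (by omega) p
  | false =>
    cases b with
    | zero => rw [Paths_p1_z, zero_mul]
    | succ b => rw [Paths_p1_f, smul_mul_assoc, mul_assoc, h.idem]

theorem Paths_i1_stp (h : Ok T) (b : ℕ) (s : Bool) (p : ℕ) :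
    i1 T b s p * T.f (stp b s) p = i1 T b s p := by
  cases s with
  | true =>
    rw [Paths_i1_t]
    exact h.idem (b + 1) p
  | false =>
    cases b with
    | zero => rw [Paths_i1_z, zero_mul]
    | succ b =>
      have e : T.f b p * T.U (p + b) = T.U (p + b) * T.f b p := T.jw_f_U b p 0
      have e' : T.f (b + 1) p * T.f b p = T.f (b + 1) p := h.f_f (j := 0) (by omega) p
      rw [Paths_i1_f, show stp (b + 1) false = b from rfl, mul_assoc, ← e, ← mul_assoc, e']

theorem Paths_step (h : Ok T) (b p : ℕ) :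
    i1 T b true p * p1 T b true p + i1 T b false p * p1 T b false p = T.f b p := by
  rw [Paths_i1_t, Paths_p1_t, h.idem]
  cases b with
  | zero =>
    rw [Paths_i1_z, zero_mul, add_zero]
    rfl
  | succ b =>
    rw [Paths_i1_f, Paths_p1_f, T.jw_f_two, mul_smul_comm]
    simp only [mul_assoc, sub_add_cancel]

theorem Paths_pi_ne (h : Ok T) (b : ℕ) {s s' : Bool} (hs : s' ≠ s) (p : ℕ) :
    p1 T b s' p * i1 T b s p = 0 := by
  cases s <;> cases s'
  · exact absurd rfl hs
  · cases b with
    | zero => rw [Paths_i1_z, mul_zero]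
    | succ b =>
      have e : T.f (b + 1 + 1) p * T.f (b + 1) p = T.f (b + 1 + 1) p :=
        h.f_f (j := 0) (by omega) p
      rw [Paths_i1_f, Paths_p1_t, ← mul_assoc, e, h.f_U (by omega)]
  · cases b with
    | zero => rw [Paths_p1_z, zero_mul]
    | succ b =>
      have e : T.f (b + 1) p * T.f (b + 1 + 1) p = T.f (b + 1 + 1) p :=
        h.f_f' (j := 0) (by omega) p
      rw [Paths_i1_t, Paths_p1_f, smul_mul_assoc, mul_assoc, e, h.C_f (by omega), smul_zero]
  · exact absurd rfl hs

theorem Paths_pi_f (h : Ok T) (b p : ℕ) : p1 T (b + 1) false p * i1 T (b + 1) false p =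
    kap T.a b • (T.C (p + b) * T.f (b + 1) p * T.U (p + b)) := by
  rw [Paths_i1_f, Paths_p1_f, smul_mul_assoc, mul_assoc, ← mul_assoc (T.f _ _), h.idem, mul_assoc]

theorem Paths_pi (h : Ok T) (b : ℕ) (s : Bool) (p : ℕ) :
    ∃ c : K, p1 T b s p * i1 T b s p = c • T.f (stp b s) p := by
  cases s with
  | true => exact ⟨1, by rw [Paths_i1_t, Paths_p1_t, h.idem, one_smul]; rfl⟩
  | false =>
    cases b with
    | zero => exact ⟨0, by rw [Paths_i1_z, mul_zero, zero_smul]⟩
    | succ b =>
      rw [Paths_pi_f h]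
      rcases h (b + 1) with ha | hz
      · exact ⟨_, by rw [T.f_ptr (ha.mono (Nat.le_succ _)), smul_smul]; rfl⟩
      · exact ⟨0, by rw [hz, mul_zero, zero_mul, smul_zero, zero_smul]⟩

theorem Paths_pi_eq (h : Ok T) {b : ℕ} (ha : Adm T.a (b + 1)) (hb : 1 ≤ b) (s : Bool) (p : ℕ) :
    p1 T b s p * i1 T b s p = T.f (stp b s) p := by
  cases s with
  | true => rw [Paths_i1_t, Paths_p1_t, h.idem]; rfl
  | false =>
    obtain ⟨b, rfl⟩ : ∃ k, b = k + 1 := ⟨b - 1, by omega⟩
    have a0 : Dl T.a b ≠ 0 := ha b (by omega)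
    have a1 : Dl T.a (b + 1) ≠ 0 := ha (b + 1) (by omega)
    have hk : kap T.a b * (Dl T.a (b + 1) / Dl T.a b) = 1 := by
      rw [kap]
      field_simp
    rw [Paths_pi_f h, T.f_ptr (ha.mono (Nat.le_succ _)), smul_smul, hk, one_smul]
    rfl

theorem loc_i1 (T : TL K R) (b : ℕ) (s : Bool) : T.Loc (stp b s) (b + 1) (i1 T b s) := by
  cases s with
  | true => exact (T.loc_f (b + 1)).cast rfl rfl fun p => (Paths_i1_t T b p).symm
  | false =>
    cases b with
    | zero => exact (TL.Loc.zero _ _).cast rfl rfl fun p => (Paths_i1_z T p).symm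
    | succ b =>
      exact (((T.loc_f (b + 1)).padR 1).mul (TL.Loc.U b b le_rfl)).cast rfl rfl
        fun p => (Paths_i1_f T b p).symm

theorem loc_p1 (T : TL K R) (b : ℕ) (s : Bool) : T.Loc (b + 1) (stp b s) (p1 T b s) := by
  cases s with
  | true => exact (T.loc_f (b + 1)).cast rfl rfl fun p => (Paths_p1_t T b p).symm
  | false =>
    cases b with
    | zero => exact (TL.Loc.zero _ _).cast rfl rfl fun p => (Paths_p1_z T p).symm
    | succ b =>
      exact (((TL.Loc.C b b le_rfl).mul ((T.loc_f (b + 1)).padR 1)).smul (kap T.a b)).cast rfl rfl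
        fun p => (Paths_p1_f T b p).symm

theorem loc_II (T : TL K R) (b : ℕ) (σ : List Bool) :
    T.Loc (en b σ) (b + σ.length) (II T b σ) := by
  induction σ generalizing b with
  | nil => exact (T.loc_f b).cast rfl rfl fun _ => rfl
  | cons s σ ih =>
    exact (((loc_i1 T b s).padR σ.length).mul (ih (stp b s))).cast rfl
      (by rw [List.length_cons]; omega) fun _ => rfl

theorem loc_PP (T : TL K R) (b : ℕ) (σ : List Bool) :
    T.Loc (b + σ.length) (en b σ) (PP T b σ) := by
  induction σ generalizing b with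
  | nil => exact (T.loc_f b).cast rfl rfl fun _ => rfl
  | cons s σ ih =>
    exact ((ih (stp b s)).mul ((loc_p1 T b s).padR σ.length)).cast
      (by rw [List.length_cons]; omega) rfl fun _ => rfl

theorem f_II (h : Ok T) (b : ℕ) (σ : List Bool) (p : ℕ) : T.f b p * II T b σ p = II T b σ p := by
  cases σ with
  | nil => exact h.idem b p
  | cons s σ => rw [II, ← mul_assoc, Paths_f_i1 h]

theorem II_f (h : Ok T) (b : ℕ) (σ : List Bool) (p : ℕ) :
    II T b σ p * T.f (en b σ) p = II T b σ p := by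
  induction σ generalizing b with
  | nil => exact h.idem b p
  | cons s σ ih => rw [II, en, mul_assoc, ih]

theorem f_PP (h : Ok T) (b : ℕ) (σ : List Bool) (p : ℕ) :
    T.f (en b σ) p * PP T b σ p = PP T b σ p := by
  induction σ generalizing b with
  | nil => exact h.idem b p
  | cons s σ ih => rw [PP, en, ← mul_assoc, ih]

theorem PP_f (h : Ok T) (b : ℕ) (σ : List Bool) (p : ℕ) : PP T b σ p * T.f b p = PP T b σ p := by
  cases σ with
  | nil => exact h.idem b p
  | cons s σ => rw [PP, mul_assoc, Paths_p1_f' h]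

theorem II_append (h : Ok T) (b : ℕ) (σ τ : List Bool) (p : ℕ) :
    II T b (σ ++ τ) p = II T b σ p * II T (en b σ) τ p := by
  induction σ generalizing b with
  | nil => exact (f_II h b τ p).symm
  | cons s σ ih => rw [List.cons_append, II, II, en, ih, mul_assoc]

theorem PP_append (h : Ok T) (b : ℕ) (σ τ : List Bool) (p : ℕ) :
    PP T b (σ ++ τ) p = PP T (en b σ) τ p * PP T b σ p := by
  induction σ generalizing b with
  | nil => exact (PP_f h b τ p).symm
  | cons s σ ih => rw [List.cons_append, PP, PP, en, ih, mul_assoc]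

theorem complete (h : Ok T) (b n p : ℕ) : ∑ σ ∈ ls n, II T b σ p * PP T b σ p = T.f b p := by
  induction n generalizing b with
  | zero =>
    rw [ls, Finset.sum_singleton]
    exact h.idem b p
  | succ n ih =>
    have key : ∀ s, ∑ σ ∈ ls n, II T b (s :: σ) p * PP T b (s :: σ) p =
        i1 T b s p * p1 T b s p := by
      intro s
      rw [← Paths_i1_stp h b s p, ← ih (stp b s), Finset.mul_sum, Finset.sum_mul]
      refine Finset.sum_congr rfl fun σ _ => ?_
      rw [II, PP]
      simp only [mul_assoc]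
    rw [sum_ls_succ, key, key, Paths_step h]

theorem orth_ne (h : Ok T) (b : ℕ) {σ σ' : List Bool} (hl : σ.length = σ'.length) (hne : σ ≠ σ')
    (p : ℕ) : PP T b σ' p * II T b σ p = 0 := by
  induction σ generalizing b σ' with
  | nil =>
    cases σ' with
    | nil => exact absurd rfl hne
    | cons s σ' => simp at hl
  | cons s σ ih =>
    cases σ' with
    | nil => simp at hl
    | cons s' σ' =>
      rw [PP, II, mul_assoc, ← mul_assoc (p1 T b s' p)]
      by_cases hs : s' = s
      · subst hs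
        obtain ⟨c, hc⟩ := Paths_pi h b s' p
        rw [hc, smul_mul_assoc, f_II h, mul_smul_comm,
          ih _ (by simpa using hl) fun e => hne (by rw [e]), smul_zero]
      · rw [Paths_pi_ne h b hs, zero_mul, mul_zero]

theorem orth_eq (h : Ok T) {b : ℕ} {σ : List Bool} (ha : Adm T.a (b + σ.length + 1))
    (hl : σ.length ≤ b) (p : ℕ) : PP T b σ p * II T b σ p = T.f (en b σ) p := by
  induction σ generalizing b with
  | nil => exact h.idem b p
  | cons s σ ih =>
    rw [List.length_cons] at ha hl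
    have h1 : stp b s ≤ b + 1 := by cases s <;> simp [stp]; omega
    have h2 : σ.length ≤ stp b s := by cases s <;> simp [stp] <;> omega
    rw [PP, II, en, mul_assoc, ← mul_assoc (p1 T b s p),
      Paths_pi_eq h (ha.mono (by omega)) (by omega), f_II h, ih (ha.mono (by omega)) h2]

/-- combinations of nested cups on top of the Jones-Wenzl element on `m` strands -/
inductive Paths_Q (T : TL K R) (m : ℕ) : ℕ → (ℕ → R) → Prop
  | base : Paths_Q T m m (T.f m)
  | U (n j : ℕ) (x : ℕ → R) : j ≤ n → Paths_Q T m n x →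
      Paths_Q T m (n + 2) fun p => T.U (p + j) * x p
  | add (n : ℕ) (x y : ℕ → R) : Paths_Q T m n x → Paths_Q T m n y →
      Paths_Q T m n fun p => x p + y p
  | smul (n : ℕ) (c : K) (x : ℕ → R) : Paths_Q T m n x → Paths_Q T m n fun p => c • x p
  | zero (n : ℕ) : Paths_Q T m n fun _ => 0

theorem Paths_Q.congr {m n : ℕ} {x y : ℕ → R} (h : Paths_Q T m n x) (e : ∀ p, y p = x p) :
    Paths_Q T m n y := by
  rwa [funext e]

theorem Paths_Q_C (h : Ok T) {m n : ℕ} {x : ℕ → R} (hx : Paths_Q T m n x) :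
    ∀ k j, n = k + 2 → j ≤ k → Paths_Q T m k fun p => T.C (p + j) * x p := by
  induction hx with
  | base =>
    intro k j hk hj
    exact (Paths_Q.zero k).congr fun p => h.C_f (by omega) p
  | U n i x hi hx ih =>
    intro k j hk hj
    obtain rfl : n = k := by omega
    rcases Nat.lt_trichotomy i j with hij | rfl | hij
    · rcases Nat.lt_or_ge (i + 1) j with h' | h'
      · obtain ⟨j, rfl⟩ : ∃ k, j = k + 2 := ⟨j - 2, by omega⟩
        obtain ⟨n, rfl⟩ : ∃ k, n = k + 2 := ⟨n - 2, by omega⟩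
        exact (Paths_Q.U n i _ (by omega) (ih n j rfl (by omega))).congr fun p => by
          rw [← mul_assoc, ← add_assoc, T.CU (p + i) (p + j) (by omega), mul_assoc]
      · obtain rfl : j = i + 1 := by omega
        exact hx.congr fun p => by rw [← mul_assoc, ← add_assoc, T.zig, one_mul]
    · exact (Paths_Q.smul n (dlt T.a) _ hx).congr fun p => by
        rw [← mul_assoc, T.loop, Algebra.smul_def]
    · rcases Nat.lt_or_ge (j + 1) i with h' | h'
      · obtain ⟨i, rfl⟩ : ∃ k, i = k + 2 := ⟨i - 2, by omega⟩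
        obtain ⟨n, rfl⟩ : ∃ k, n = k + 2 := ⟨n - 2, by omega⟩
        exact (Paths_Q.U n i _ (by omega) (ih n j rfl (by omega))).congr fun p => by
          rw [← mul_assoc, ← add_assoc, T.CU' (p + j) (p + i) (by omega), mul_assoc]
      · obtain rfl : i = j + 1 := by omega
        exact hx.congr fun p => by rw [← mul_assoc, ← add_assoc, T.zag, one_mul]
  | add n x y _ _ ihx ihy =>
    intro k j hk hj
    exact (Paths_Q.add k _ _ (ihx k j hk hj) (ihy k j hk hj)).congr fun p => mul_add _ _ _
  | smul n c x _ ih =>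
    intro k j hk hj
    exact (Paths_Q.smul k c _ (ih k j hk hj)).congr fun p => mul_smul_comm _ _ _
  | zero n =>
    intro k j _ _
    exact (Paths_Q.zero k).congr fun p => mul_zero _

theorem Paths_Q_loc (h : Ok T) {m k n : ℕ} {x : ℕ → R} (hx : T.Loc k n x) :
    ∀ {y : ℕ → R}, Paths_Q T m k y → Paths_Q T m n fun p => x p * y p := by
  induction hx with
  | one k => exact fun hy => hy.congr fun p => one_mul _
  | U k j hj => exact fun hy => Paths_Q.U k j _ hj hy
  | C k j hj => exact fun hy => Paths_Q_C h hy k j rfl hj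
  | mul _ _ ih₁ ih₂ => exact fun hy => (ih₁ (ih₂ hy)).congr fun p => mul_assoc _ _ _
  | add _ _ ih₁ ih₂ =>
    exact fun hy => (Paths_Q.add _ _ _ (ih₁ hy) (ih₂ hy)).congr fun p => add_mul _ _ _
  | smul c _ ih => exact fun hy => (Paths_Q.smul _ c _ (ih hy)).congr fun p => smul_mul_assoc _ _ _
  | zero k n => exact fun _ => (Paths_Q.zero n).congr fun p => zero_mul _

theorem Paths_Q_fin (h : Ok T) {m n : ℕ} {y : ℕ → R} (hy : Paths_Q T m n y) :
    ∃ c : K, (∀ p, T.f n p * y p = c • T.f m p) ∧ (m ≠ n → c = 0) := by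
  induction hy with
  | base => exact ⟨1, fun p => by rw [h.idem, one_smul], fun hne => absurd rfl hne⟩
  | U n j x hj _ _ =>
    exact ⟨0, fun p => by rw [← mul_assoc, h.f_U (by omega), zero_mul, zero_smul], fun _ => rfl⟩
  | add n x y _ _ ihx ihy =>
    obtain ⟨c, hc, hc0⟩ := ihx
    obtain ⟨d, hd, hd0⟩ := ihy
    exact ⟨c + d, fun p => by rw [mul_add, hc, hd, add_smul],
      fun hne => by rw [hc0 hne, hd0 hne, add_zero]⟩
  | smul n e x _ ih =>
    obtain ⟨c, hc, hc0⟩ := ih
    exact ⟨e * c, fun p => by rw [mul_smul_comm, hc, smul_smul],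
      fun hne => by rw [hc0 hne, mul_zero]⟩
  | zero n => exact ⟨0, fun p => by rw [mul_zero, zero_smul], fun _ => rfl⟩

theorem schur (h : Ok T) {m n : ℕ} {x : ℕ → R} (hx : T.Loc m n x) :
    ∃ c : K, (∀ p, T.f n p * x p * T.f m p = c • T.f m p) ∧ (m ≠ n → c = 0) := by
  obtain ⟨c, hc, hc0⟩ := Paths_Q_fin h (Paths_Q_loc h hx Paths_Q.base)
  exact ⟨c, fun p => by rw [mul_assoc, hc], hc0⟩

theorem Paths_mul {m n n' k : ℕ} {x y : ℕ → R} (hy : T.Loc n' k y) (hx : T.Loc m n x)
    (e : n = n') : T.Loc m k fun p => y p * x p := by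
  subst e
  exact hy.mul hx

theorem loc_Em (T : TL K R) (k : ℕ) (σ : List Bool) :
    T.Loc k (en k σ + σ.length) (Em T k σ) :=
  (Paths_mul ((loc_PP T k σ).padR σ.length) ((T.loc_cupC σ.length).padL k) (by omega)).cast
    rfl rfl fun _ => rfl

theorem loc_Abs (T : TL K R) (k : ℕ) (σ : List Bool) :
    T.Loc (en k σ + σ.length) k (Abs T k σ) :=
  (Paths_mul ((T.loc_capC σ.length).padL k) ((loc_II T k σ).padR σ.length) (by omega)).cast
    rfl rfl fun _ => rfl

theorem loc_ptr {c m n : ℕ} {Z : ℕ → R} (hZ : T.Loc (c + m) (c + n) Z) :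
    T.Loc m n (ptr T c Z) :=
  (Paths_mul (Paths_mul ((T.loc_capC c).padR n) (hZ.padL c) (by omega)) ((T.loc_cupC c).padR m)
    (by omega)).cast (by omega) (by omega) fun _ => rfl

theorem loc_lp {c m n : ℕ} {Z : ℕ → R} (hZ : T.Loc (c + m) (c + n) Z) :
    T.Loc m n (lp T c Z) :=
  ((loc_ptr hZ).smul (Dl T.a c)⁻¹).cast rfl rfl fun _ => rfl

theorem loc_Tw {b c j : ℕ} {X : ℕ → R} (hX : T.Loc c (b + j) X) :
    T.Loc b (c + j) (Tw T b c j X) :=
  (Paths_mul (Paths_mul (Paths_mul ((T.loc_capC b).padR (c + j))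
    (((T.loc_crC true j c).padL b).padL b) (by omega)) ((hX.padR c).padL b) (by omega))
    ((T.loc_cupC c).padL b) rfl).cast (by omega) (by omega) fun _ => rfl

theorem loc_Tw' {b c j : ℕ} {X : ℕ → R} (hX : T.Loc (b + j) c X) :
    T.Loc (c + j) b (Tw' T b c j X) :=
  (Paths_mul (Paths_mul (Paths_mul ((T.loc_capC c).padL b) ((hX.padR c).padL b) rfl)
    ((T.loc_cupC b).padR (j + c)) (by omega)) (T.loc_crC false c j) (by omega)).cast
    rfl (by omega) fun _ => rfl

theorem loc_Mon (T : TL K R) (s : Bool) (k j : ℕ) : T.Loc (k + j) (k + j) (Mon T s k j) :=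
  ((T.loc_crC s j k).mul (T.loc_crC s k j)).cast rfl rfl fun _ => rfl

theorem loc_ringN (T : TL K R) (j n : ℕ) : T.Loc n n (ringN T j n) :=
  (Paths_mul (Paths_mul (Paths_mul ((T.loc_capC j).padR n) ((T.loc_crC true n j).padL j)
    (by omega)) ((T.loc_crC true j n).padL j) rfl) ((T.loc_cupC j).padR n) (by omega)).cast
    (by omega) (by omega) fun _ => rfl

theorem f_Em (h : Ok T) (k : ℕ) (σ : List Bool) (p : ℕ) :
    T.f (en k σ) p * Em T k σ p = Em T k σ p := by
  rw [Em, ← mul_assoc, f_PP h]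

theorem Em_f (h : Ok T) (k : ℕ) (σ : List Bool) (p : ℕ) : Em T k σ p * T.f k p = Em T k σ p := by
  rw [Em, mul_assoc, ← (T.loc_f k).far' (T.loc_cupC σ.length) p (p + k) (p + k) le_rfl rfl,
    ← mul_assoc, PP_f h]

theorem f_Abs (h : Ok T) (k : ℕ) (σ : List Bool) (p : ℕ) :
    T.f k p * Abs T k σ p = Abs T k σ p := by
  rw [Abs, ← mul_assoc, (T.loc_f k).far' (T.loc_capC σ.length) p (p + k) (p + k) le_rfl rfl,
    mul_assoc, f_II h]

theorem Abs_f (h : Ok T) (k : ℕ) (σ : List Bool) (p : ℕ) :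
    Abs T k σ p * T.f (en k σ) p = Abs T k σ p := by
  rw [Abs, mul_assoc, II_f h]

end Pool.Agent.P.MP_53e370_gt.S
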