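import Pool.Agent.P.MP_53e370_gt.S.CDefs
import Pool.Agent.P.MP_53e370_gt.S.Paths
import Pool.Agent.P.MP_ac4909_gt.Scal

/-! Algebra of the classical model. -/

namespace Pool.Agent.P.MP_53e370_gt.S

open Pool.Agent.P.MP_ac4909_gt

variable {Rc : Type} [Ring Rc] [Algebra ℂ Rc] {V : Lv Rc}

theorem ok_Tc (V : Lv Rc) : Ok (Tc V) := fun _ => Or.inl (adm_neg_one _)

theorem Tc_U (V : Lv Rc) : (Tc V).U 0 = cre V true * cre V false - cre V false * cre V true := by
  rw [Tc, Lv.U_zero]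
  simp [cre]

theorem Tc_C (V : Lv Rc) : (Tc V).C 0 = ann V true * ann V false - ann V false * ann V true := by
  rw [Tc, Lv.vm_C_zero]
  simp [ann]

theorem ann_cre (V : Lv Rc) (s s' : Bool) : ann V s * cre V s' = if s = s' then 1 else 0 := by
  cases s <;> cases s' <;> simp [ann, cre, V.ZZ, V.OO, V.ZO, V.OZ]

theorem sum_cre_ann (V : Lv Rc) : cre V true * ann V true + cre V false * ann V false = 1 := by
  simpa [cre, ann] using V.sum

theorem Cls_ac (s s' : Bool) (x : Rc) :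
    ann V s * (cre V s' * x) = if s = s' then x else 0 := by
  rw [← mul_assoc, ann_cre]
  split_ifs <;> simp

theorem Cls_Phi_cre (x : Rc) (s : Bool) : V.Phi x * cre V s = cre V s * x := by
  cases s
  · exact V.Phi_mul_O x
  · exact V.Phi_mul_Z x

theorem Cls_ann_Phi (x : Rc) (s : Bool) : ann V s * V.Phi x = x * ann V s := by
  cases s
  · exact V.vm_O_mul_Phi x
  · exact V.vm_Z_mul_Phi x

theorem Cls_ext1 {x y : Rc} (h : ∀ s s', ann V s * x * cre V s' = ann V s * y * cre V s') :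
    x = y := by
  have e : ∀ z : Rc, z = cre V true * (ann V true * z * cre V true) * ann V true +
      cre V true * (ann V true * z * cre V false) * ann V false +
      (cre V false * (ann V false * z * cre V true) * ann V true +
      cre V false * (ann V false * z * cre V false) * ann V false) := fun z => by
    conv_lhs => rw [← one_mul z, ← mul_one (1 * z), ← sum_cre_ann V]
    simp only [mul_add, add_mul, mul_assoc]
    abel
  rw [e x, e y, h, h, h, h]

theorem AnL_CrL (V : Lv Rc) {σ σ' : List Bool} (h : σ.length = σ'.length) :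
    AnL V σ * CrL V σ' = if σ = σ' then 1 else 0 := by
  induction σ generalizing σ' with
  | nil =>
    cases σ' with
    | nil => simp [AnL, CrL]
    | cons => simp at h
  | cons s σ ih =>
    cases σ' with
    | nil => simp at h
    | cons s' σ' =>
      rw [AnL, CrL, mul_assoc, Cls_ac]
      by_cases hs : s = s'
      · rw [if_pos hs, ih (by simpa using h)]
        simp [hs]
      · simp [hs]

theorem sum_CrL_AnL (V : Lv Rc) (n : ℕ) : ∑ σ ∈ ls n, CrL V σ * AnL V σ = 1 := by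
  induction n with
  | zero => simp [ls, CrL, AnL]
  | succ n ih =>
    have e : ∀ s, ∑ σ ∈ ls n, CrL V (s :: σ) * AnL V (s :: σ) = cre V s * ann V s := fun s => by
      conv_rhs => rw [← mul_one (cre V s), ← ih, Finset.mul_sum, Finset.sum_mul]
      exact Finset.sum_congr rfl fun σ _ => by simp only [CrL, AnL, mul_assoc]
    rw [sum_ls_succ, e, e, sum_cre_ann]

theorem Cls_extR (n : ℕ) {x y : Rc} (h : ∀ σ : List Bool, σ.length = n →
    x * CrL V σ = y * CrL V σ) : x = y := by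
  rw [← mul_one x, ← mul_one y, ← sum_CrL_AnL V n, Finset.mul_sum, Finset.mul_sum]
  exact Finset.sum_congr rfl fun σ hσ => by rw [← mul_assoc, ← mul_assoc, h σ (mem_ls.1 hσ)]

theorem Cls_extL (n : ℕ) {x y : Rc} (h : ∀ σ : List Bool, σ.length = n →
    AnL V σ * x = AnL V σ * y) : x = y := by
  rw [← one_mul x, ← one_mul y, ← sum_CrL_AnL V n, Finset.sum_mul, Finset.sum_mul]
  exact Finset.sum_congr rfl fun σ hσ => by rw [mul_assoc, mul_assoc, h σ (mem_ls.1 hσ)]

theorem CrL_append (V : Lv Rc) (σ τ : List Bool) : CrL V (σ ++ τ) = CrL V σ * CrL V τ := by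
  induction σ with
  | nil => simp [CrL]
  | cons s σ ih => rw [List.cons_append, CrL, CrL, ih, mul_assoc]

theorem AnL_append (V : Lv Rc) (σ τ : List Bool) : AnL V (σ ++ τ) = AnL V τ * AnL V σ := by
  induction σ with
  | nil => simp [AnL]
  | cons s σ ih => rw [List.cons_append, AnL, AnL, ih, mul_assoc]

theorem sh_zero (x : Rc) : sh V x 0 = x := rfl

theorem sh_succ (x : Rc) (p : ℕ) : sh V x (p + 1) = V.Phi (sh V x p) :=
  Function.iterate_succ_apply' _ _ _

theorem sh_one (V : Lv Rc) (p : ℕ) : sh V 1 p = 1 := V.vm_it_one p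

theorem sh_mul (x y : Rc) (p : ℕ) : sh V (x * y) p = sh V x p * sh V y p := V.vm_it_mul p x y

theorem sh_add (x y : Rc) (p : ℕ) : sh V (x + y) p = sh V x p + sh V y p := by
  induction p with
  | zero => rfl
  | succ p ih => rw [sh_succ, sh_succ, sh_succ, ih, Lv.Phi_add]

theorem sh_smul (c : ℂ) (x : Rc) (p : ℕ) : sh V (c • x) p = c • sh V x p := by
  induction p with
  | zero => rfl
  | succ p ih => rw [sh_succ, sh_succ, ih, Lv.Phi_smul]

theorem sh_sh (x : Rc) (p q : ℕ) : sh V (sh V x p) q = sh V x (q + p) :=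
  (Function.iterate_add_apply _ q p x).symm

theorem exists_shL (V : Lv Rc) (p : ℕ) : ∃ φ : Rc →ₗ[ℂ] Rc, ∀ x, φ x = sh V x p :=
  ⟨⟨⟨fun x => sh V x p, fun x y => sh_add x y p⟩, fun c x => sh_smul c x p⟩, fun _ => rfl⟩

theorem loc_sh {m n : ℕ} {x : ℕ → Rc} (hx : (Tc V).Loc m n x) (p : ℕ) : x p = sh V (x 0) p := by
  induction p with
  | zero => rfl
  | succ p ih => rw [sh_succ, ← ih]; exact V.loc_succ _ _ hx p

theorem sh_CrL (x : Rc) (σ : List Bool) : sh V x σ.length * CrL V σ = CrL V σ * x := by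
  induction σ with
  | nil => simp [CrL, sh_zero]
  | cons s σ ih =>
    rw [List.length_cons, sh_succ, CrL, ← mul_assoc, Cls_Phi_cre, mul_assoc, ih, mul_assoc]

theorem AnL_sh (x : Rc) (σ : List Bool) : AnL V σ * sh V x σ.length = x * AnL V σ := by
  induction σ with
  | nil => simp [AnL, sh_zero]
  | cons s σ ih =>
    rw [List.length_cons, sh_succ, AnL, mul_assoc, Cls_ann_Phi, ← mul_assoc, ih, mul_assoc]

theorem Cls_one (p : ℕ) : sh V ((Tc V).U 0) p = (Tc V).U p ∧ sh V ((Tc V).C 0) p = (Tc V).C p :=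
  ⟨(loc_sh (Tc V).loc_U p).symm, (loc_sh (Tc V).loc_C p).symm⟩

theorem LC_loc {m n : ℕ} {x : ℕ → Rc} (hx : (Tc V).Loc m n x) : LC V m n (x 0) := by
  intro y
  induction hx with
  | one m => rw [one_mul, mul_one]
  | U m j hj =>
    obtain ⟨d, rfl⟩ := Nat.exists_eq_add_of_le hj
    beta_reduce
    rw [zero_add, ← (Cls_one j).1, add_assoc, ← sh_sh y d, ← sh_sh y (d + 2), ← sh_mul, ← sh_mul,
      sh_succ, sh_succ]
    exact congrArg (sh V · j) (V.vm_far_U _ _).symm
  | C m j hj =>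
    obtain ⟨d, rfl⟩ := Nat.exists_eq_add_of_le hj
    beta_reduce
    rw [zero_add, ← (Cls_one j).2, add_assoc, ← sh_sh y d, ← sh_sh y (d + 2), ← sh_mul, ← sh_mul,
      sh_succ, sh_succ]
    exact congrArg (sh V · j) (V.vm_far_C _ _)
  | mul _ _ ih1 ih2 => rw [mul_assoc, ih2, ← mul_assoc, ih1, mul_assoc]
  | add _ _ ih1 ih2 => rw [add_mul, mul_add, ih1, ih2]
  | smul c _ ih => rw [smul_mul_assoc, mul_smul_comm, ih]
  | zero => rw [zero_mul, mul_zero]

theorem LC_one (V : Lv Rc) (n : ℕ) : LC V n n 1 := fun y => by rw [one_mul, mul_one]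

theorem LC.mul {a b c : ℕ} {x y : Rc} (hy : LC V b c y) (hx : LC V a b x) : LC V a c (y * x) :=
  fun z => by rw [mul_assoc, hx z, ← mul_assoc, hy z, mul_assoc]

theorem LC.add {a b : ℕ} {x y : Rc} (hx : LC V a b x) (hy : LC V a b y) : LC V a b (x + y) :=
  fun z => by rw [add_mul, mul_add, hx z, hy z]

theorem LC.smul {a b : ℕ} {x : Rc} (c : ℂ) (hx : LC V a b x) : LC V a b (c • x) :=
  fun z => by rw [smul_mul_assoc, mul_smul_comm, hx z]

theorem LC.padR {a b : ℕ} {x : Rc} (hx : LC V a b x) (n : ℕ) : LC V (a + n) (b + n) x :=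
  fun z => by rw [← sh_sh, ← sh_sh, hx]

theorem LC.padL {a b : ℕ} {x : Rc} (hx : LC V a b x) (n : ℕ) :
    LC V (n + a) (n + b) (sh V x n) :=
  fun z => by rw [← sh_sh, ← sh_sh, ← sh_mul, ← sh_mul, hx z]

theorem LC_CrL (V : Lv Rc) (σ : List Bool) : LC V 0 σ.length (CrL V σ) :=
  fun y => (sh_CrL y σ).symm

theorem LC_AnL (V : Lv Rc) (σ : List Bool) : LC V σ.length 0 (AnL V σ) := fun y => AnL_sh y σ

theorem Cls_gam_succ (h : SU) (n : ℕ) : gam V h (n + 1) =
    h.1 0 0 • (cre V true * gam V h n * ann V true) +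
      h.1 0 1 • (cre V true * gam V h n * ann V false) +
      (h.1 1 0 • (cre V false * gam V h n * ann V true) +
      h.1 1 1 • (cre V false * gam V h n * ann V false)) := by
  rw [gam]
  simp only [Fintype.sum_bool]
  rfl

theorem Cls_gam_cre (h : SU) (n : ℕ) (s : Bool) : gam V h (n + 1) * cre V s =
    h.1 0 (ix s) • (cre V true * gam V h n) + h.1 1 (ix s) • (cre V false * gam V h n) := by
  rw [Cls_gam_succ]
  cases s <;> simp [add_mul, mul_assoc, ann_cre, ix]

theorem Cls_ann_gam (h : SU) (n : ℕ) (s : Bool) : ann V s * gam V h (n + 1) =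
    h.1 (ix s) 0 • (gam V h n * ann V true) + h.1 (ix s) 1 • (gam V h n * ann V false) := by
  rw [Cls_gam_succ]
  cases s <;> simp [mul_add, mul_assoc, Cls_ac, ix]

theorem Cls_agc (h : SU) (n : ℕ) (s s' : Bool) :
    ann V s * gam V h (n + 1) * cre V s' = h.1 (ix s) (ix s') • gam V h n := by
  rw [Cls_ann_gam]
  cases s' <;> simp [add_mul, mul_assoc, ann_cre, ix]

theorem LC_gam (V : Lv Rc) (h : SU) (n : ℕ) : LC V n n (gam V h n) := by
  intro y
  induction n with
  | zero => rw [gam, one_mul, mul_one]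
  | succ n ih =>
    refine Cls_ext1 (V := V) fun s s' => ?_
    rw [sh_succ, ← mul_assoc, ← mul_assoc, Cls_ann_Phi, mul_assoc _ (V.Phi _), Cls_Phi_cre,
      ← mul_assoc, Cls_agc, mul_assoc (sh V y n), mul_assoc (sh V y n), Cls_agc, smul_mul_assoc,
      mul_smul_comm, ih]

theorem LC_em (V : Lv Rc) (σ : List Bool) : LC V 0 σ.length (em V σ) := by
  have h := (LC_AnL V σ).padR σ.length
  rw [zero_add] at h
  exact h.mul (LC_loc ((Tc V).loc_cupC _))

theorem LC_ab (V : Lv Rc) (σ : List Bool) : LC V σ.length 0 (ab V σ) := by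
  have h := (LC_CrL V σ).padR σ.length
  rw [zero_add] at h
  exact (LC_loc ((Tc V).loc_capC _)).mul h

theorem LC_EmV (V : Lv Rc) (g : SU) (σ : List Bool) : LC V 0 σ.length (EmV V g σ) :=
  (LC_gam V g _).mul (LC_em V σ)

theorem LC_AbV (V : Lv Rc) (a : SU) (σ : List Bool) : LC V σ.length 0 (AbV V a σ) :=
  (LC_ab V σ).mul (LC_gam V a⁻¹ _)

theorem LC_of_ent {a b : ℕ} {z : Rc} (h : ∀ σ σ' : List Bool, σ.length = a → σ'.length = b →
    ∃ c : ℂ, AnL V σ' * z * CrL V σ = c • (1 : Rc)) : LC V a b z := by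
  intro y
  refine Cls_extR (V := V) a fun σ hσ => Cls_extL (V := V) b fun σ' hσ' => ?_
  obtain ⟨c, hc⟩ := h σ σ' hσ hσ'
  subst hσ hσ'
  rw [mul_assoc, sh_CrL, ← mul_assoc, ← mul_assoc, hc, ← mul_assoc, ← mul_assoc, AnL_sh,
    mul_assoc y, mul_assoc y, hc, smul_mul_assoc, mul_smul_comm, one_mul, mul_one]

theorem gam_one (V : Lv Rc) (n : ℕ) : gam V 1 n = 1 := by
  induction n with
  | zero => rfl
  | succ n ih =>
    rw [Cls_gam_succ, ih]
    simpa using sum_cre_ann V

theorem gam_mul (V : Lv Rc) (g h : SU) (n : ℕ) : gam V (g * h) n = gam V g n * gam V h n := by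
  induction n with
  | zero => simp [gam]
  | succ n ih =>
    refine Cls_ext1 (V := V) fun s s' => ?_
    rw [Cls_agc, ← mul_assoc, mul_assoc _ (gam V h _), Cls_ann_gam, Cls_gam_cre, ih,
      Submonoid.coe_mul, Matrix.mul_apply, Fin.sum_univ_two]
    simp [add_mul, mul_add, mul_assoc, Cls_ac, add_smul, smul_smul, mul_comm]

theorem gam_add (V : Lv Rc) (h : SU) (m n : ℕ) :
    gam V h (m + n) = gam V h m * sh V (gam V h n) m := by
  induction m with
  | zero => rw [zero_add, gam, one_mul, sh_zero]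
  | succ m ih =>
    refine Cls_ext1 (V := V) fun s s' => ?_
    rw [Nat.add_right_comm, Cls_agc, sh_succ, ← mul_assoc, mul_assoc _ (V.Phi _), Cls_Phi_cre,
      ← mul_assoc, Cls_agc, ih, smul_mul_assoc]

theorem ann_gam (V : Lv Rc) (h : SU) (n : ℕ) (s s' : Bool) :
    ann V s * gam V h (n + 1) * cre V s' = h.1 (ix s) (ix s') • gam V h n := Cls_agc h n s s'

theorem Cls_gam_sh {h : SU} {m n : ℕ} {x : Rc} (hx : gam V h n * x = x * gam V h m) (j : ℕ) :
    gam V h (j + n) * sh V x j = sh V x j * gam V h (j + m) := by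
  induction j with
  | zero => rwa [zero_add, zero_add]
  | succ j ih =>
    refine Cls_ext1 (V := V) fun s s' => ?_
    rw [Nat.add_right_comm, Nat.add_right_comm j 1 m, sh_succ, ← mul_assoc, ← mul_assoc,
      Cls_ann_Phi, mul_assoc _ (V.Phi _), Cls_Phi_cre, ← mul_assoc, Cls_agc, mul_assoc (sh V x j),
      mul_assoc (sh V x j), Cls_agc, smul_mul_assoc, mul_smul_comm, ih]

theorem Cls_det (h : SU) : h.1 0 0 * h.1 1 1 - h.1 0 1 * h.1 1 0 = 1 := by
  rw [← Matrix.det_fin_two]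
  exact (Matrix.mem_specialUnitaryGroup_iff.1 h.2).2

theorem Cls_gam_U (h : SU) (d : ℕ) :
    gam V h (d + 2) * (Tc V).U 0 = (Tc V).U 0 * gam V h d := by
  rw [Tc_U, mul_sub, ← mul_assoc, ← mul_assoc, Cls_gam_cre, Cls_gam_cre,
    ← one_smul ℂ ((_ - _) * gam V h d), ← Cls_det h]
  simp only [add_mul, sub_mul, smul_mul_assoc, mul_assoc, Cls_gam_cre, mul_add, mul_smul_comm, ix,
    if_true, Bool.false_eq_true, if_false]
  module

theorem Cls_gam_C (h : SU) (d : ℕ) :
    gam V h d * (Tc V).C 0 = (Tc V).C 0 * gam V h (d + 2) := by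
  rw [Tc_C, sub_mul, mul_assoc, mul_assoc, Cls_ann_gam, Cls_ann_gam,
    ← one_smul ℂ (gam V h d * (_ - _)), ← Cls_det h]
  simp only [add_mul, mul_sub, smul_mul_assoc, ← mul_assoc, Cls_ann_gam, mul_add, mul_smul_comm,
    ix, if_true, Bool.false_eq_true, if_false]
  module

theorem gam_loc {m n : ℕ} {x : ℕ → Rc} (hx : (Tc V).Loc m n x) (h : SU) :
    gam V h n * x 0 = x 0 * gam V h m := by
  induction hx with
  | one m => rw [one_mul, mul_one]
  | U m j hj =>
    obtain ⟨d, rfl⟩ := Nat.exists_eq_add_of_le hj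
    beta_reduce
    rw [zero_add, ← (Cls_one j).1, add_assoc]
    exact Cls_gam_sh (Cls_gam_U h d) j
  | C m j hj =>
    obtain ⟨d, rfl⟩ := Nat.exists_eq_add_of_le hj
    beta_reduce
    rw [zero_add, ← (Cls_one j).2, add_assoc]
    exact Cls_gam_sh (Cls_gam_C h d) j
  | mul _ _ ih1 ih2 => rw [← mul_assoc, ih1, mul_assoc, ih2, mul_assoc]
  | add _ _ ih1 ih2 => rw [add_mul, mul_add, ih1, ih2]
  | smul c _ ih => rw [smul_mul_assoc, mul_smul_comm, ih]
  | zero => rw [zero_mul, mul_zero]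

theorem Cls_sig (s u t : Bool) (x : Rc) :
    (Tc V).sig s 0 * (cre V u * (cre V t * x)) = -(cre V t * (cre V u * x)) := by
  have e : ∀ b, zp (Tc V).a b = -1 := fun b => by
    cases b
    · exact inv_neg_one
    · rfl
  rw [TL.sig, e, e, Tc_U, Tc_C]
  cases u <;> cases t <;> simp [add_mul, mul_assoc, Cls_ac, sub_eq_add_neg]

theorem Cls_X (s t : Bool) (σ : List Bool) (x : Rc) :
    (Tc V).X s σ.length 0 * (CrL V σ * (cre V t * x)) =
      (-1 : ℂ) ^ σ.length • (cre V t * (CrL V σ * x)) := by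
  induction σ with
  | nil => simp [TL.X, CrL]
  | cons u σ ih =>
    have e : (Tc V).X s σ.length (0 + 1) = V.Phi ((Tc V).X s σ.length 0) :=
      V.loc_succ _ _ ((Tc V).loc_X s _) 0
    rw [List.length_cons, TL.X, e, CrL, mul_assoc, mul_assoc, ← mul_assoc (V.Phi _), Cls_Phi_cre,
      mul_assoc, ih, mul_smul_comm, mul_smul_comm, Cls_sig, pow_succ, mul_neg_one, neg_smul,
      smul_neg, mul_assoc]

theorem crC_CrL (V : Lv Rc) (s : Bool) (σ τ : List Bool) :
    (Tc V).crC s σ.length τ.length 0 * (CrL V σ * CrL V τ) =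
      (-1 : ℂ) ^ (σ.length * τ.length) • (CrL V τ * CrL V σ) := by
  induction τ with
  | nil => simp [TL.crC, CrL]
  | cons t τ ih =>
    have e : (Tc V).crC s σ.length τ.length (0 + 1) = V.Phi ((Tc V).crC s σ.length τ.length 0) :=
      V.loc_succ _ _ ((Tc V).loc_crC s _ _) 0
    rw [List.length_cons, TL.crC, e, CrL, mul_assoc, Cls_X, mul_smul_comm, ← mul_assoc,
      Cls_Phi_cre, mul_assoc, ih, mul_smul_comm, smul_smul, ← pow_add, mul_assoc, mul_add, mul_one,
      add_comm]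

theorem crC_LC {n : ℕ} {x : Rc} (hx : LC V 0 n x) (s : Bool) (k : ℕ) :
    (Tc V).crC s n k 0 * x = (-1 : ℂ) ^ (n * k) • sh V x k := by
  refine Cls_extR (V := V) k fun τ hτ => ?_
  subst hτ
  rw [smul_mul_assoc, sh_CrL, ← one_mul x, ← sum_CrL_AnL V n]
  simp only [Finset.sum_mul, Finset.mul_sum, Finset.smul_sum]
  refine Finset.sum_congr rfl fun σ hσ => ?_
  obtain rfl := mem_ls.1 hσ
  have h : AnL V σ * x * CrL V τ = CrL V τ * (AnL V σ * x) := ((LC_AnL V σ).mul hx) (CrL V τ)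
  rw [mul_assoc, mul_assoc, mul_assoc, ← mul_assoc (AnL V σ), h, ← mul_assoc (CrL V σ),
    ← mul_assoc, crC_CrL, smul_mul_assoc, mul_assoc, mul_assoc]

theorem Cls_em (s : Bool) (σ : List Bool) :
    em V (s :: σ) = (if s then (1 : ℂ) else -1) • (em V σ * cre V (!s)) := by
  have e : (Tc V).cupC σ.length (0 + 1) = V.Phi ((Tc V).cupC σ.length 0) :=
    V.loc_succ _ _ ((Tc V).loc_cupC _) 0
  rw [em, em, List.length_cons, TL.cupC, e, AnL, mul_assoc, ← mul_assoc (ann V s), Cls_ann_Phi,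
    Tc_U]
  cases s <;> simp [mul_sub, mul_assoc, Cls_ac]

theorem Cls_ab (s : Bool) (σ : List Bool) :
    ab V (s :: σ) = (if s then (-1 : ℂ) else 1) • (ann V (!s) * ab V σ) := by
  have e : (Tc V).capC σ.length (0 + 1) = V.Phi ((Tc V).capC σ.length 0) :=
    V.loc_succ _ _ ((Tc V).loc_capC _) 0
  rw [ab, ab, List.length_cons, TL.capC, e, CrL, mul_assoc, ← mul_assoc (V.Phi _), Cls_Phi_cre,
    Tc_C]
  cases s <;> simp [sub_mul, mul_assoc, Cls_ac]

theorem Cls_ab_em (h : SU) (σ : List Bool) :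
    ab V σ * (gam V h σ.length * em V σ) = pr σ h • (1 : Rc) := by
  induction σ with
  | nil => simp [ab, em, gam, pr, CrL, AnL, TL.capC, TL.cupC]
  | cons s σ ih =>
    have e : pr (s :: σ) h = -h.1 (ix (!s)) (ix (!s)) * pr σ h := by simp [pr]
    have e1 : sh V (gam V h 1) σ.length * em V σ = em V σ * gam V h 1 := (LC_em V σ _).symm
    have e2 : ann V (!s) * ab V σ * (gam V h (σ.length + 1) * (em V σ * cre V (!s))) =
        (h.1 (ix (!s)) (ix (!s)) * pr σ h) • (1 : Rc) := by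
      rw [gam_add, mul_assoc (gam V h _), ← mul_assoc (sh V _ _), e1, mul_assoc (em V σ),
        ← mul_assoc (gam V h _), mul_assoc, ← mul_assoc (ab V σ), ih, smul_mul_assoc, one_mul,
        mul_smul_comm, ← mul_assoc, Cls_agc, gam, smul_smul, mul_comm]
    rw [Cls_em, Cls_ab, e, List.length_cons, smul_mul_assoc, mul_smul_comm, mul_smul_comm, e2,
      smul_smul, smul_smul]
    cases s <;> simp

theorem AbV_EmV (V : Lv Rc) (a g : SU) (σ : List Bool) :
    AbV V a σ * EmV V g σ = pr σ (a⁻¹ * g) • (1 : Rc) := by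
  rw [AbV, EmV, mul_assoc, ← mul_assoc (gam V a⁻¹ _), ← gam_mul, Cls_ab_em]

end Pool.Agent.P.MP_53e370_gt.S
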