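import Pool.Agent.P.MP_53e370_gt.S.Cls
import Pool.Agent.P.MP_ac4909_gt.Scal

/-! Limits of local families. -/

namespace Pool.Agent.P.MP_53e370_gt.S

open Pool.Agent.P.MP_ac4909_gt Filter Topology

variable {Rc : Type} [Ring Rc] [Algebra ℂ Rc] {V : Lv Rc}
  {R : ℕ → Type} [∀ t, Ring (R t)] [∀ t, Algebra ℂ (R t)] {T : ∀ t, TL ℂ (R t)}
  {m n m' n' : ℕ} {X Y : ∀ t, ℕ → R t} {x y : ℕ → Rc}

theorem Cv.loc (h : Cv V T m n X x) :
    (∀ᶠ t in atTop, (T t).Loc m n (X t)) ∧ (Tc V).Loc m n x := by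
  induction h with
  | one m => exact ⟨Eventually.of_forall fun t => TL.Loc.one m, TL.Loc.one m⟩
  | U m j hj => exact ⟨Eventually.of_forall fun t => TL.Loc.U m j hj, TL.Loc.U m j hj⟩
  | C m j hj => exact ⟨Eventually.of_forall fun t => TL.Loc.C m j hj, TL.Loc.C m j hj⟩
  | mul _ _ ihy ihx =>
    refine ⟨?_, TL.Loc.mul ihy.2 ihx.2⟩
    filter_upwards [ihy.1, ihx.1] with t hy hx
    exact TL.Loc.mul hy hx
  | add _ _ ihx ihy =>
    refine ⟨?_, TL.Loc.add ihx.2 ihy.2⟩
    filter_upwards [ihy.1, ihx.1] with t hy hx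
    exact TL.Loc.add hx hy
  | smul c c₀ _ _ ih =>
    refine ⟨?_, TL.Loc.smul c₀ ih.2⟩
    filter_upwards [ih.1] with t hx
    exact TL.Loc.smul (c t) hx
  | zero m n => exact ⟨Eventually.of_forall fun t => TL.Loc.zero m n, TL.Loc.zero m n⟩
  | congr _ he ih =>
    refine ⟨?_, ih.2⟩
    filter_upwards [ih.1, he] with t hx ht
    exact ht ▸ hx

theorem Cv.cast (h : Cv V T m n X x) (hm : m = m') (hn : n = n') (h₁ : ∀ t p, X t p = Y t p)
    (h₂ : ∀ p, x p = y p) : Cv V T m' n' Y y := by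
  subst hm hn
  obtain rfl : X = Y := funext fun t => funext (h₁ t)
  obtain rfl : x = y := funext h₂
  exact h

theorem Cv.padR (h : Cv V T m n X x) (j : ℕ) : Cv V T (m + j) (n + j) X x := by
  induction h with
  | one m => exact Cv.one _
  | U m i hi =>
    exact (Cv.U (m + j) i (by omega)).cast rfl (by omega) (fun _ _ => rfl) fun _ => rfl
  | C m i hi =>
    exact (Cv.C (m + j) i (by omega)).cast (by omega) rfl (fun _ _ => rfl) fun _ => rfl
  | mul _ _ ihy ihx => exact Cv.mul ihy ihx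
  | add _ _ ihx ihy => exact Cv.add ihx ihy
  | smul c c₀ hc _ ih => exact Cv.smul c c₀ hc ih
  | zero m n => exact Cv.zero _ _
  | congr _ he ih => exact Cv.congr ih he

theorem Cv.padL (h : Cv V T m n X x) (j : ℕ) :
    Cv V T (j + m) (j + n) (fun t p => X t (p + j)) fun p => x (p + j) := by
  induction h with
  | one m => exact Cv.one _
  | U m i hi =>
    exact (Cv.U (j + m) (j + i) (by omega)).cast rfl (by omega)
      (fun _ _ => by rw [← add_assoc]) fun _ => by rw [← add_assoc]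
  | C m i hi =>
    exact (Cv.C (j + m) (j + i) (by omega)).cast (by omega) rfl
      (fun _ _ => by rw [← add_assoc]) fun _ => by rw [← add_assoc]
  | mul _ _ ihy ihx => exact Cv.mul ihy ihx
  | add _ _ ihx ihy => exact Cv.add ihx ihy
  | smul c c₀ hc _ ih => exact Cv.smul c c₀ hc ih
  | zero m n => exact Cv.zero _ _
  | congr _ he ih =>
    refine Cv.congr ih ?_
    filter_upwards [he] with t ht
    rw [ht]

theorem Cv.sum {I : Type} (s : Finset I) {F : I → ∀ t, ℕ → R t} {f : I → ℕ → Rc}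
    (h : ∀ i ∈ s, Cv V T m n (F i) (f i)) :
    Cv V T m n (fun t p => ∑ i ∈ s, F i t p) fun p => ∑ i ∈ s, f i p := by
  classical
  induction s using Finset.induction_on with
  | empty => exact (Cv.zero m n).cast rfl rfl (fun _ _ => by simp) fun _ => by simp
  | insert i s hi ih =>
    exact (Cv.add (h i (Finset.mem_insert_self i s))
      (ih fun k hk => h k (Finset.mem_insert_of_mem hk))).cast rfl rfl
      (fun _ _ => by rw [Finset.sum_insert hi]) fun _ => by rw [Finset.sum_insert hi]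

theorem cv_cupC (V : Lv Rc) (T : ∀ t, TL ℂ (R t)) (m : ℕ) :
    Cv V T 0 (m + m) (fun t => (T t).cupC m) ((Tc V).cupC m) := by
  induction m with
  | zero => exact (Cv.one 0).cast rfl rfl (fun _ _ => rfl) fun _ => rfl
  | succ m ih =>
    exact (Cv.mul ((ih.padL 1).padR 1) (Cv.U 0 0 le_rfl)).cast rfl (by omega)
      (fun _ _ => rfl) fun _ => rfl

theorem cv_capC (V : Lv Rc) (T : ∀ t, TL ℂ (R t)) (m : ℕ) :
    Cv V T (m + m) 0 (fun t => (T t).capC m) ((Tc V).capC m) := by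
  induction m with
  | zero => exact (Cv.one 0).cast rfl rfl (fun _ _ => rfl) fun _ => rfl
  | succ m ih =>
    exact (Cv.mul (Cv.C 0 0 le_rfl) ((ih.padL 1).padR 1)).cast (by omega) rfl
      (fun _ _ => rfl) fun _ => rfl

theorem CvL_a (V : Lv Rc) : (Tc V).a = -1 := rfl

theorem CvL_inv (hS : Seq T) : Tendsto (fun t => (T t).a⁻¹) atTop (𝓝 (-1 : ℂ)⁻¹) :=
  hS.lim.inv₀ (neg_ne_zero.2 one_ne_zero)

theorem CvL_zp (hS : Seq T) (s : Bool) :
    Tendsto (fun t => zp (T t).a s) atTop (𝓝 (zp (-1 : ℂ) s)) := by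
  cases s with
  | true => exact hS.lim
  | false => exact CvL_inv hS

theorem CvL_dlt (hS : Seq T) : Tendsto (fun t => dlt (T t).a) atTop (𝓝 (dlt (-1 : ℂ))) :=
  ((hS.lim.pow 2).neg).sub ((CvL_inv hS).pow 2)

theorem CvL_Dl (hS : Seq T) (m : ℕ) :
    Tendsto (fun t => Dl (T t).a m) atTop (𝓝 (Dl (-1 : ℂ) m)) ∧
      Tendsto (fun t => Dl (T t).a (m + 1)) atTop (𝓝 (Dl (-1 : ℂ) (m + 1))) := by
  induction m with
  | zero => exact ⟨tendsto_const_nhds, CvL_dlt hS⟩
  | succ m ih => exact ⟨ih.2, ((CvL_dlt hS).mul ih.2).sub ih.1⟩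

theorem CvL_kap (hS : Seq T) (m : ℕ) :
    Tendsto (fun t => kap (T t).a m) atTop (𝓝 (kap (-1 : ℂ) m)) := by
  refine (CvL_Dl hS m).1.div (CvL_Dl hS m).2 ?_
  rw [Dl_neg_one]
  refine mul_ne_zero (pow_ne_zero _ (neg_ne_zero.2 one_ne_zero)) ?_
  exact_mod_cast Nat.succ_ne_zero (m + 1)

theorem CvL_sig (V : Lv Rc) (hS : Seq T) (s : Bool) :
    Cv V T 2 2 (fun t => (T t).sig s) ((Tc V).sig s) :=
  (Cv.add (Cv.smul _ _ (CvL_zp hS s) (Cv.one 2))
    (Cv.smul _ _ (CvL_zp hS (!s)) (Cv.mul (Cv.U 0 0 le_rfl) (Cv.C 0 0 le_rfl)))).cast rfl rfl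
      (fun _ _ => rfl) fun _ => rfl

theorem CvL_X (V : Lv Rc) (hS : Seq T) (s : Bool) (m : ℕ) :
    Cv V T (m + 1) (m + 1) (fun t => (T t).X s m) ((Tc V).X s m) := by
  induction m with
  | zero => exact (Cv.one 1).cast rfl rfl (fun _ _ => rfl) fun _ => rfl
  | succ m ih =>
    exact (Cv.mul (((CvL_sig V hS s).padR m).cast (m' := 1 + (m + 1)) (n' := m + 1 + 1)
      (by omega) (by omega) (fun _ _ => rfl) fun _ => rfl) (ih.padL 1)).cast (by omega) rfl
      (fun _ _ => rfl) fun _ => rfl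

theorem cv_crC (V : Lv Rc) (hS : Seq T) (s : Bool) (m n : ℕ) :
    Cv V T (m + n) (n + m) (fun t => (T t).crC s m n) ((Tc V).crC s m n) := by
  induction n with
  | zero => exact (Cv.one m).cast rfl (by omega) (fun _ _ => rfl) fun _ => rfl
  | succ n ih =>
    exact (Cv.mul (ih.padL 1) (((CvL_X V hS s m).padR n).cast (m' := m + (n + 1))
      (n' := 1 + (m + n)) (by omega) (by omega) (fun _ _ => rfl) fun _ => rfl)).cast rfl
      (by omega) (fun _ _ => rfl) fun _ => rfl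

theorem CvL_f (V : Lv Rc) (hS : Seq T) (n : ℕ) :
    Cv V T (n + 1) (n + 1) (fun t => (T t).f (n + 1)) ((Tc V).f (n + 1)) := by
  induction n with
  | zero => exact (Cv.one 1).cast rfl rfl (fun _ _ => rfl) fun _ => rfl
  | succ n ih =>
    have h1 := ih.padR 1
    refine (Cv.add h1 (Cv.smul _ _ (CvL_kap hS n).neg
      (Cv.mul (Cv.mul (Cv.mul h1 (Cv.U n n le_rfl)) (Cv.C n n le_rfl)) h1))).cast rfl rfl
      (fun t p => ?_) fun p => ?_
    · rw [neg_smul, ← sub_eq_add_neg]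
      rfl
    · rw [neg_smul, ← sub_eq_add_neg]
      rfl

theorem cv_f (V : Lv Rc) (hS : Seq T) (n : ℕ) :
    Cv V T n n (fun t => (T t).f n) ((Tc V).f n) := by
  cases n with
  | zero => exact (Cv.one 0).cast rfl rfl (fun _ _ => rfl) fun _ => rfl
  | succ n => exact CvL_f V hS n

theorem CvL_i1 (V : Lv Rc) (hS : Seq T) (b : ℕ) (s : Bool) :
    Cv V T (stp b s) (b + 1) (fun t => i1 (T t) b s) (i1 (Tc V) b s) := by
  cases s with
  | true =>
    exact (cv_f V hS (b + 1)).cast rfl rfl (fun _ _ => by rw [i1]) fun _ => by rw [i1]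
  | false =>
    cases b with
    | zero => exact (Cv.zero _ _).cast rfl rfl (fun _ _ => rfl) fun _ => rfl
    | succ b =>
      exact (Cv.mul ((cv_f V hS (b + 1)).padR 1) (Cv.U b b le_rfl)).cast rfl rfl
        (fun _ _ => rfl) fun _ => rfl

theorem CvL_p1 (V : Lv Rc) (hS : Seq T) (b : ℕ) (s : Bool) :
    Cv V T (b + 1) (stp b s) (fun t => p1 (T t) b s) (p1 (Tc V) b s) := by
  cases s with
  | true =>
    exact (cv_f V hS (b + 1)).cast rfl rfl (fun _ _ => by rw [p1]) fun _ => by rw [p1]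
  | false =>
    cases b with
    | zero => exact (Cv.zero _ _).cast rfl rfl (fun _ _ => rfl) fun _ => rfl
    | succ b =>
      exact (Cv.smul _ _ (CvL_kap hS b)
        (Cv.mul (Cv.C b b le_rfl) ((cv_f V hS (b + 1)).padR 1))).cast rfl rfl
        (fun _ _ => rfl) fun _ => rfl

theorem cv_II (V : Lv Rc) (hS : Seq T) (b : ℕ) (σ : List Bool) :
    Cv V T (en b σ) (b + σ.length) (fun t => II (T t) b σ) (II (Tc V) b σ) := by
  induction σ generalizing b with
  | nil => exact (cv_f V hS b).cast rfl rfl (fun _ _ => rfl) fun _ => rfl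
  | cons s σ ih =>
    exact (Cv.mul ((CvL_i1 V hS b s).padR σ.length) (ih (stp b s))).cast rfl
      (by rw [List.length_cons]; omega) (fun _ _ => rfl) fun _ => rfl

theorem cv_PP (V : Lv Rc) (hS : Seq T) (b : ℕ) (σ : List Bool) :
    Cv V T (b + σ.length) (en b σ) (fun t => PP (T t) b σ) (PP (Tc V) b σ) := by
  induction σ generalizing b with
  | nil => exact (cv_f V hS b).cast rfl rfl (fun _ _ => rfl) fun _ => rfl
  | cons s σ ih =>
    exact (Cv.mul (ih (stp b s)) ((CvL_p1 V hS b s).padR σ.length)).cast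
      (by rw [List.length_cons]; omega) rfl (fun _ _ => rfl) fun _ => rfl

/-- convergent combinations of crossingless diagrams without caps, of a given width -/
inductive CvL_N (V : Lv Rc) (T : ∀ t, TL ℂ (R t)) : ℕ → (∀ t, R t) → Rc → Prop
  | one : CvL_N V T 0 (fun _ => 1) 1
  | U (n j : ℕ) (Z : ∀ t, R t) (z : Rc) : j ≤ n → CvL_N V T n Z z →
      CvL_N V T (n + 2) (fun t => (T t).U j * Z t) ((Tc V).U j * z)
  | add (n : ℕ) (Z W : ∀ t, R t) (z w : Rc) : CvL_N V T n Z z → CvL_N V T n W w →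
      CvL_N V T n (fun t => Z t + W t) (z + w)
  | smul (n : ℕ) (c : ℕ → ℂ) (c₀ : ℂ) (Z : ∀ t, R t) (z : Rc) : Tendsto c atTop (𝓝 c₀) →
      CvL_N V T n Z z → CvL_N V T n (fun t => c t • Z t) (c₀ • z)
  | zero (n : ℕ) : CvL_N V T n (fun _ => 0) 0
  | congr (n : ℕ) (Z W : ∀ t, R t) (z : Rc) : CvL_N V T n Z z → (∀ᶠ t in atTop, Z t = W t) →
      CvL_N V T n W z

theorem CvL_N.cast {Z W : ∀ t, R t} {z w : Rc} (h : CvL_N V T n Z z) (h₁ : ∀ t, W t = Z t)
    (h₂ : w = z) : CvL_N V T n W w := by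
  obtain rfl : W = Z := funext h₁
  subst h₂
  exact h

theorem CvL_N.C (hS : Seq T) {Z : ∀ t, R t} {z : Rc} (h : CvL_N V T n Z z) :
    ∀ m j, n = m + 2 → j ≤ m → CvL_N V T m (fun t => (T t).C j * Z t) ((Tc V).C j * z) := by
  induction h with
  | one => intro m j h; omega
  | U n i Z z hi hx ih =>
    intro m j hm hj
    obtain rfl : n = m := by omega
    rcases Nat.lt_trichotomy i j with h | rfl | h
    · rcases Nat.lt_or_ge (i + 1) j with h' | h'
      · obtain ⟨j, rfl⟩ : ∃ k, j = k + 2 := ⟨j - 2, by omega⟩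
        obtain ⟨n, rfl⟩ : ∃ k, n = k + 2 := ⟨n - 2, by omega⟩
        exact (CvL_N.U n i _ _ (by omega) (ih n j rfl (by omega))).cast
          (fun t => by rw [← mul_assoc, (T t).CU i j (by omega), mul_assoc])
          (by rw [← mul_assoc, (Tc V).CU i j (by omega), mul_assoc])
      · obtain rfl : j = i + 1 := by omega
        exact hx.cast (fun t => by rw [← mul_assoc, (T t).zig, one_mul])
          (by rw [← mul_assoc, (Tc V).zig, one_mul])
    · exact (CvL_N.smul n _ _ _ _ (CvL_dlt hS) hx).cast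
        (fun t => by rw [← mul_assoc, (T t).loop, Algebra.smul_def])
        (by rw [← mul_assoc, (Tc V).loop, Algebra.smul_def, CvL_a])
    · rcases Nat.lt_or_ge (j + 1) i with h' | h'
      · obtain ⟨i, rfl⟩ : ∃ k, i = k + 2 := ⟨i - 2, by omega⟩
        obtain ⟨n, rfl⟩ : ∃ k, n = k + 2 := ⟨n - 2, by omega⟩
        exact (CvL_N.U n i _ _ (by omega) (ih n j rfl (by omega))).cast
          (fun t => by rw [← mul_assoc, (T t).CU' j i (by omega), mul_assoc])
          (by rw [← mul_assoc, (Tc V).CU' j i (by omega), mul_assoc])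
      · obtain rfl : i = j + 1 := by omega
        exact hx.cast (fun t => by rw [← mul_assoc, (T t).zag, one_mul])
          (by rw [← mul_assoc, (Tc V).zag, one_mul])
  | add n Z W z w _ _ ihx ihy =>
    intro m j hm hj
    exact (CvL_N.add m _ _ _ _ (ihx m j hm hj) (ihy m j hm hj)).cast
      (fun t => mul_add _ _ _) (mul_add _ _ _)
  | smul n c c₀ Z z hc _ ih =>
    intro m j hm hj
    exact (CvL_N.smul m c c₀ _ _ hc (ih m j hm hj)).cast
      (fun t => mul_smul_comm _ _ _) (mul_smul_comm _ _ _)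
  | zero n =>
    intro m j _ _
    exact (CvL_N.zero m).cast (fun t => mul_zero _) (mul_zero _)
  | congr n Z W z _ he ih =>
    intro m j hm hj
    refine CvL_N.congr m _ _ _ (ih m j hm hj) ?_
    filter_upwards [he] with t ht
    rw [ht]

theorem CvL_N.scalar {Z : ∀ t, R t} {z : Rc} (h : CvL_N V T n Z z) (hn : n = 0) :
    ∃ (c : ℕ → ℂ) (c₀ : ℂ), Tendsto c atTop (𝓝 c₀) ∧
      (∀ᶠ t in atTop, Z t = c t • (1 : R t)) ∧ z = c₀ • (1 : Rc) := by
  induction h with
  | one =>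
    exact ⟨fun _ => 1, 1, tendsto_const_nhds, Eventually.of_forall fun t => (one_smul _ _).symm,
      (one_smul _ _).symm⟩
  | U n i Z z hi hx ih => omega
  | add n Z W z w _ _ ihx ihy =>
    obtain ⟨c, c₀, h1, h2, h3⟩ := ihx hn
    obtain ⟨d, d₀, k1, k2, k3⟩ := ihy hn
    refine ⟨fun t => c t + d t, c₀ + d₀, h1.add k1, ?_, by rw [h3, k3, add_smul]⟩
    filter_upwards [h2, k2] with t ht kt
    rw [ht, kt, add_smul]
  | smul n c c₀ Z z hc _ ih =>
    obtain ⟨d, d₀, k1, k2, k3⟩ := ih hn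
    refine ⟨fun t => c t * d t, c₀ * d₀, hc.mul k1, ?_, by rw [k3, mul_smul]⟩
    filter_upwards [k2] with t kt
    rw [kt, mul_smul]
  | zero n =>
    exact ⟨fun _ => 0, 0, tendsto_const_nhds, Eventually.of_forall fun t => (zero_smul _ _).symm,
      (zero_smul _ _).symm⟩
  | congr n Z W z _ he ih =>
    obtain ⟨d, d₀, k1, k2, k3⟩ := ih hn
    refine ⟨d, d₀, k1, ?_, k3⟩
    filter_upwards [k2, he] with t kt ht
    rw [← ht, kt]

theorem CvL_act (hS : Seq T) (h : Cv V T m n X x) : ∀ (Z : ∀ t, R t) (z : Rc),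
    CvL_N V T m Z z → CvL_N V T n (fun t => X t 0 * Z t) (x 0 * z) := by
  induction h with
  | one m => exact fun Z z h => h.cast (fun t => one_mul _) (one_mul _)
  | U m j hj =>
    exact fun Z z h => (CvL_N.U m j Z z hj h).cast (fun t => by simp only [zero_add])
      (by simp only [zero_add])
  | C m j hj =>
    exact fun Z z h => (h.C hS m j rfl hj).cast (fun t => by simp only [zero_add])
      (by simp only [zero_add])
  | mul _ _ ihy ihx =>
    exact fun Z z h => (ihy _ _ (ihx Z z h)).cast (fun t => mul_assoc _ _ _) (mul_assoc _ _ _)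
  | add _ _ ihx ihy =>
    exact fun Z z h => (CvL_N.add _ _ _ _ _ (ihx Z z h) (ihy Z z h)).cast
      (fun t => add_mul _ _ _) (add_mul _ _ _)
  | smul c c₀ hc _ ih =>
    exact fun Z z h => (CvL_N.smul _ c c₀ _ _ hc (ih Z z h)).cast
      (fun t => smul_mul_assoc _ _ _) (smul_mul_assoc _ _ _)
  | zero m n => exact fun Z z _ => (CvL_N.zero n).cast (fun t => zero_mul _) (zero_mul _)
  | congr _ he ih =>
    refine fun Z z h => CvL_N.congr _ _ _ _ (ih Z z h) ?_
    filter_upwards [he] with t ht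
    rw [ht]

theorem Cv.scalar (hS : Seq T) (h : Cv V T 0 0 X x) : ∃ (c : ℕ → ℂ) (c₀ : ℂ),
    Tendsto c atTop (𝓝 c₀) ∧ (∀ᶠ t in atTop, X t 0 = c t • (1 : R t)) ∧ x 0 = c₀ • (1 : Rc) := by
  obtain ⟨c, c₀, h1, h2, h3⟩ := (CvL_act hS h _ _ CvL_N.one).scalar rfl
  refine ⟨c, c₀, h1, ?_, by rw [← h3, mul_one]⟩
  filter_upwards [h2] with t ht
  rw [← ht, mul_one]

end Pool.Agent.P.MP_53e370_gt.S
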