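import Pool.Agent.P.MP_53e370_gt.S.ADefs

/-! Every element of `SU(2)` is conjugate to a diagonal matrix. -/

namespace Pool.Agent.P.MP_53e370_gt.S

open Pool.Agent.P.MP_ac4909_gt

theorem su_ent (g : SU) : g.1 1 1 = star (g.1 0 0) ∧ g.1 1 0 = -star (g.1 0 1) ∧
    g.1 0 0 * g.1 1 1 - g.1 0 1 * g.1 1 0 = 1 := by
  obtain ⟨h1, h2⟩ := Matrix.mem_specialUnitaryGroup_iff.1 g.2
  rw [Matrix.mem_unitaryGroup_iff] at h1
  have h3 : star g.1 = Matrix.adjugate g.1 := by
    have h4 := Matrix.adjugate_mul g.1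
    rw [h2, one_smul] at h4
    rw [← one_mul (star g.1), ← h4, mul_assoc, h1, mul_one]
  rw [Matrix.adjugate_fin_two] at h3
  have e1 := congrFun (congrFun h3 0) 0
  have e2 := congrFun (congrFun h3 1) 0
  simp only [Matrix.star_apply, Matrix.of_apply, Matrix.cons_val', Matrix.cons_val_zero,
    Matrix.cons_val_one, Matrix.cons_val_fin_one] at e1 e2
  refine ⟨e1.symm, by rw [e2, neg_neg], ?_⟩
  rw [← Matrix.det_fin_two, h2]

theorem su_trace_eq (g : SU) : Matrix.trace g.1 = ((2 * (g.1 0 0).re : ℝ) : ℂ) := by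
  rw [Matrix.trace_fin_two, (su_ent g).1, Complex.star_def, Complex.add_conj]

theorem su_trace (g : SU) : ((Matrix.trace g.1).re : ℂ) = Matrix.trace g.1 := by
  rw [su_trace_eq, Complex.ofReal_re]

theorem su_re_le (g : SU) : |(g.1 0 0).re| ≤ 1 :=
  (Complex.abs_re_le_norm _).trans
    (entry_norm_bound_of_unitary (Matrix.mem_specialUnitaryGroup_iff.1 g.2).1 0 0)

theorem su_trace_le (g : SU) : |(Matrix.trace g.1).re| ≤ 2 := by
  rw [su_trace_eq, Complex.ofReal_re, abs_mul, abs_two]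
  linarith [su_re_le g]

theorem su_diag (g : SU) : ∃ (q : SU) (θ : unitInterval), g = q * dg (zt θ ^ 2) * q⁻¹ := by
  obtain ⟨e1, e2, e3⟩ := su_ent g
  obtain ⟨hl, hu⟩ := abs_le.1 (su_re_le g)
  let θ : unitInterval := ⟨Real.arccos (g.1 0 0).re / Real.pi,
    div_nonneg (Real.arccos_nonneg _) Real.pi_pos.le,
    (div_le_one Real.pi_pos).2 (Real.arccos_le_pi _)⟩
  obtain ⟨z, hz⟩ : ∃ z, z = zt θ ^ 2 := ⟨_, rfl⟩
  have hz0 := Circle.coe_ne_zero z
  have hzc : (starRingEnd ℂ) (z : ℂ) = (z : ℂ)⁻¹ := (Circle.coe_inv_eq_conj z).symm.trans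
      (Circle.coe_inv z)
  have hre : (z : ℂ).re = (g.1 0 0).re := by
    have : z = Circle.exp (Real.arccos (g.1 0 0).re) := by
      rw [hz, zt, sq, ← Circle.exp_add]
      congr 1
      have := Real.pi_ne_zero
      simp only [θ]
      field_simp
      ring
    rw [this, Circle.coe_exp, Complex.exp_ofReal_mul_I_re, Real.cos_arccos hl hu]
  have hsum : (z : ℂ) + (z : ℂ)⁻¹ = g.1 0 0 + g.1 1 1 := by
    rw [← hzc, e1, Complex.star_def, Complex.add_conj, Complex.add_conj, hre]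
  have hdet : (g.1 - (z : ℂ) • (1 : Matrix (Fin 2) (Fin 2) ℂ)).det = 0 := by
    have h := mul_inv_cancel₀ hz0
    rw [Matrix.det_fin_two]
    simp only [Matrix.sub_apply, Matrix.smul_apply, Matrix.one_apply_eq, smul_eq_mul, mul_one,
      Matrix.one_apply_ne (zero_ne_one : (0 : Fin 2) ≠ 1),
      Matrix.one_apply_ne (one_ne_zero : (1 : Fin 2) ≠ 0), mul_zero, sub_zero]
    linear_combination e3 + (z : ℂ) * hsum - h
  obtain ⟨v, hv0, hv⟩ := Matrix.exists_mulVec_eq_zero_iff.2 hdet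
  have r0 : g.1 0 0 * v 0 + g.1 0 1 * v 1 = z * v 0 := by
    have := congrFun hv 0
    simp [Matrix.mulVec, dotProduct, Fin.sum_univ_two] at this
    linear_combination this
  have r1 : g.1 1 0 * v 0 + g.1 1 1 * v 1 = z * v 1 := by
    have := congrFun hv 1
    simp [Matrix.mulVec, dotProduct, Fin.sum_univ_two] at this
    linear_combination this
  have hpos : 0 < Complex.normSq (v 0) + Complex.normSq (v 1) := by
    refine lt_of_le_of_ne (add_nonneg (Complex.normSq_nonneg _) (Complex.normSq_nonneg _)) ?_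
    intro h
    have h0 := Complex.normSq_nonneg (v 0)
    have h1 := Complex.normSq_nonneg (v 1)
    apply hv0
    funext i
    fin_cases i
    · exact Complex.normSq_eq_zero.1 (by simp only [Fin.zero_eta]; linarith)
    · exact Complex.normSq_eq_zero.1 (by simp only [Fin.mk_one]; linarith)
  obtain ⟨s, hs⟩ : ∃ s : ℝ, s ^ 2 * (Complex.normSq (v 0) + Complex.normSq (v 1)) = 1 :=
    ⟨(Real.sqrt (Complex.normSq (v 0) + Complex.normSq (v 1)))⁻¹, by
      rw [inv_pow, Real.sq_sqrt hpos.le, inv_mul_cancel₀ hpos.ne']⟩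
  have hs' : (s : ℂ) ^ 2 * (v 0 * (starRingEnd ℂ) (v 0) + v 1 * (starRingEnd ℂ) (v 1)) = 1 := by
    rw [Complex.mul_conj, Complex.mul_conj]
    exact_mod_cast hs
  let q : SU := ⟨!![s * v 0, -(s * (starRingEnd ℂ) (v 1)); s * v 1, s * (starRingEnd ℂ) (v 0)], by
    rw [Matrix.mem_specialUnitaryGroup_iff, Matrix.mem_unitaryGroup_iff]
    refine ⟨?_, by rw [Matrix.det_fin_two_of]; linear_combination hs'⟩
    ext i j
    fin_cases i <;> fin_cases j <;> simp [Matrix.mul_apply, Fin.sum_univ_two] <;>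
      first | linear_combination hs' | ring⟩
  refine ⟨q, θ, ?_⟩
  rw [← hz, eq_mul_inv_iff_mul_eq]
  have c0 := congrArg (starRingEnd ℂ) r0
  have c1 := congrArg (starRingEnd ℂ) r1
  rw [e1, e2] at c1 r1
  simp only [map_add, map_mul, hzc, Complex.star_def, map_neg, Complex.conj_conj] at c0 c1 r1
  refine Subtype.ext ?_
  ext i j
  fin_cases i <;> fin_cases j <;>
    simp [q, dg, Matrix.mul_apply, Fin.sum_univ_two, e1, e2]
  · linear_combination (s : ℂ) * r0
  · linear_combination (-s : ℂ) * c1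
  · linear_combination (s : ℂ) * r1
  · linear_combination (s : ℂ) * c0

theorem Sm_sq (z : Circle) : (Sm z * Sm z).1 = -1 := by
  ext i j
  fin_cases i <;> fin_cases j <;> simp [Sm]

theorem Sm_dg (z w : Circle) : Sm z * dg w * (Sm z)⁻¹ = (dg w)⁻¹ := by
  rw [mul_inv_eq_iff_eq_mul, eq_inv_mul_iff_mul_eq]
  refine Subtype.ext ?_
  ext i j
  fin_cases i <;> fin_cases j <;> simp [Sm, dg] <;> field_simp

theorem dg_one : dg 1 = 1 := by
  refine Subtype.ext ?_
  ext i j
  fin_cases i <;> fin_cases j <;> simp [dg]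

end Pool.Agent.P.MP_53e370_gt.S
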