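import Pool.Agent.P.MP_53e370_gt.S.CvL
import Pool.Agent.P.MP_ac4909_gt.Scal

/-! Limits next to a thick strand: closure properties and basic examples. -/

namespace Pool.Agent.P.MP_53e370_gt.S

open Pool.Agent.P.MP_ac4909_gt Filter Topology

variable {Rc : Type} [Ring Rc] [Algebra ℂ Rc] {V : Lv Rc}
  {R : ℕ → Type} [∀ t, Ring (R t)] [∀ t, Algebra ℂ (R t)] {T : ∀ t, TL ℂ (R t)}
  {β β' β'' γ γ' : ℕ → ℕ} {ζ : Circle} {a b c : ℕ} {Z Z' : ∀ t, ℕ → R t} {z z' : Rc}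

theorem Near.refl (β : ℕ → ℕ) : Near β β := ⟨0, Eventually.of_forall fun t => by simp⟩

theorem Near.symm (h : Near β γ) : Near γ β := by
  obtain ⟨d, hd⟩ := h
  exact ⟨-d, hd.mono fun t ht => by omega⟩

theorem Near.trans (h : Near β γ) (h' : Near γ γ') : Near β γ' := by
  obtain ⟨d, hd⟩ := h
  obtain ⟨d', hd'⟩ := h'
  exact ⟨d + d', (hd.and hd').mono fun t ht => by omega⟩

theorem near_en (h : Tendsto β atTop atTop) (σ : List Bool) : Near β fun t => en (β t) σ :=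
  ⟨wt σ, (h.eventually_ge_atTop σ.length).mono fun _ ht => en_eq ht⟩

theorem near_of_en (h : Tendsto γ atTop atTop) (σ : List Bool)
    (he : ∀ᶠ t in atTop, en (β t) σ = γ t) : Near γ β := by
  refine ⟨-wt σ, ?_⟩
  filter_upwards [he, h.eventually_ge_atTop (σ.length + σ.length)] with t h1 h2
  have h3 := en_le (β t) σ
  have h4 := en_eq (b := β t) (σ := σ) (by omega)
  omega

theorem Mid.near (hS : Seq T) (h : Mid T β ζ) (hn : Near β γ) : Mid T γ ζ := by
  obtain ⟨d, hd⟩ := hn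
  refine ⟨?_, fun n => ?_, ?_, h.gen⟩
  · refine tendsto_atTop.2 fun n => ?_
    filter_upwards [hd, h.big.eventually_ge_atTop (n + d.natAbs)] with t h1 h2
    omega
  · filter_upwards [hd, h.adm (n + d.natAbs)] with t h1 h2
    exact fun j hj => h2 j (by omega)
  · have h1 : Tendsto (fun t => (-(T t).a) ^ d) atTop (𝓝 1) := by
      have := hS.lim.neg.zpow₀ d (Or.inl (by norm_num))
      simpa using this
    have h2 := h.lim.mul h1
    rw [mul_one] at h2
    refine h2.congr' ?_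
    filter_upwards [hd] with t ht
    rw [← zpow_natCast, ← zpow_natCast, ht, zpow_add₀ (neg_ne_zero.2 (T t).ha)]

theorem Mid.kap (hS : Seq T) (h : Mid T β ζ) :
    Tendsto (fun t => kap (T t).a (β t)) atTop (𝓝 (-1)) := by
  have hz : (ζ : ℂ) ≠ 0 := Circle.coe_ne_zero ζ
  have hz2 : (ζ : ℂ) ^ 2 - (ζ : ℂ)⁻¹ ^ 2 ≠ 0 := by
    intro e
    apply h.gen
    have h1 : (ζ : ℂ) * (ζ : ℂ)⁻¹ = 1 := mul_inv_cancel₀ hz
    linear_combination (ζ : ℂ) ^ 2 * e + ((ζ : ℂ) * (ζ : ℂ)⁻¹ + 1) * h1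
  have ha := hS.lim
  have hai := ha.inv₀ (by norm_num)
  have hw := h.lim
  have hwi := hw.inv₀ hz
  have n1 := ((hw.pow 2).mul (ha.pow 2)).sub ((hwi.pow 2).mul (hai.pow 2))
  have n2 := (((hw.pow 2).mul (ha.pow 4)).sub ((hwi.pow 2).mul (hai.pow 4))).neg
  have e1 : (ζ : ℂ) ^ 2 * (-1) ^ 2 - (ζ : ℂ)⁻¹ ^ 2 * (-1 : ℂ)⁻¹ ^ 2 =
      (ζ : ℂ) ^ 2 - (ζ : ℂ)⁻¹ ^ 2 := by norm_num
  have e2 : (ζ : ℂ) ^ 2 * (-1) ^ 4 - (ζ : ℂ)⁻¹ ^ 2 * (-1 : ℂ)⁻¹ ^ 4 =
      (ζ : ℂ) ^ 2 - (ζ : ℂ)⁻¹ ^ 2 := by norm_num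
  rw [e1] at n1
  rw [e2] at n2
  have n3 := n1.div n2 (neg_ne_zero.2 hz2)
  rw [div_neg, div_self hz2] at n3
  refine n3.congr' ?_
  filter_upwards [(hw.pow 4).eventually_ne h.gen] with t ht
  have ha0 := (T t).ha
  have h1 : (T t).a * (T t).a⁻¹ = 1 := mul_inv_cancel₀ ha0
  have hD : (T t).a ^ 2 - (T t).a⁻¹ ^ 2 ≠ 0 := by
    intro e
    apply ht
    have h4 : (-(T t).a) ^ 4 = 1 := by
      linear_combination (T t).a ^ 2 * e + ((T t).a * (T t).a⁻¹ + 1) * h1
    rw [← pow_mul, mul_comm, pow_mul, h4, one_pow]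
  have hs : ((-1 : ℂ) ^ β t) ≠ 0 := pow_ne_zero _ (by norm_num)
  have w2 : ((-(T t).a) ^ β t) ^ 2 = (T t).a ^ (2 * β t) := by
    rw [← pow_mul, mul_comm, pow_mul, neg_sq, ← pow_mul]
  have w3 : ((-(T t).a) ^ β t)⁻¹ ^ 2 = (T t).a⁻¹ ^ (2 * β t) := by
    rw [inv_pow, w2, inv_pow]
  simp only [Pi.div_apply]
  rw [w2, w3, Pool.Agent.P.MP_ac4909_gt.kap, ← mul_div_mul_left (Dl _ _) _ hD, Dl_closed _ ha0,
    Dl_closed _ ha0, ← mul_div_mul_left _ (-_) hs]
  congr 1 <;> ring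

theorem Dyn.lc (h : Dyn V T β β' a b Z z) : LC V a b z :=
  LC_of_ent fun σ σ' h1 h2 => by
    obtain ⟨_, c₀, _, h3, _⟩ := h.ent σ σ' h1 h2
    exact ⟨c₀, h3⟩

theorem Dyn.congr (h : Dyn V T β β' a b Z z) (h₁ : ∀ᶠ t in atTop, β t = γ t)
    (h₂ : ∀ᶠ t in atTop, β' t = γ' t) (h₃ : ∀ᶠ t in atTop, ∀ p, Z t p = Z' t p) (h₄ : z = z') :
    Dyn V T γ γ' a b Z' z' := by
  have h₅ : ∀ᶠ t in atTop, Z t = Z' t := h₃.mono fun t ht => funext ht
  refine ⟨?_, ?_, fun σ σ' h1 h2 => ?_⟩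
  · filter_upwards [h.loc, h₁, h₂, h₅] with t e e1 e2 e3
    rwa [← e1, ← e2, ← e3]
  · filter_upwards [h.comm, h₁, h₂, h₅] with t e e1 e2 e3
    rwa [← e1, ← e2, ← e3]
  · obtain ⟨k, k₀, h3, h4, h5⟩ := h.ent σ σ' h1 h2
    refine ⟨k, k₀, h3, h₄ ▸ h4, ?_⟩
    filter_upwards [h5, h₁, h₂, h₅] with t e e1 e2 e3
    rwa [← e1, ← e2, ← e3]

theorem Dyn.mul (hS : Seq T) (h' : Dyn V T β' β'' b c Z' z') (h : Dyn V T β β' a b Z z) :
    Dyn V T β β'' a c (fun t p => Z' t p * Z t p) (z' * z) := by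
  refine ⟨?_, ?_, fun σ σ'' h1 h2 => ?_⟩
  · filter_upwards [h.loc, h'.loc] with t e e'
    exact e'.mul e
  · filter_upwards [h.comm, h'.comm] with t e e' p
    calc (T t).f (β'' t) p * (Z' t p * Z t p) * (T t).f (β t) p
        = (T t).f (β'' t) p * Z' t p * (Z t p * (T t).f (β t) p) := by simp only [mul_assoc]
      _ = (T t).f (β'' t) p * Z' t p * (T t).f (β' t) p * Z t p * (T t).f (β t) p := by
          rw [← e p]; simp only [mul_assoc]
      _ = Z' t p * ((T t).f (β' t) p * Z t p * (T t).f (β t) p) := by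
          rw [e' p]; simp only [mul_assoc]
      _ = _ := by rw [e p, mul_assoc]
  · have H : ∀ σ' : {x // x ∈ ls b}, _ := fun σ' => h.ent σ σ'.1 h1 (mem_ls.1 σ'.2)
    have H' : ∀ σ' : {x // x ∈ ls b}, _ := fun σ' => h'.ent σ'.1 σ'' (mem_ls.1 σ'.2) h2
    choose k k₀ hk hk0 hke using H
    choose l l₀ hl hl0 hle using H'
    refine ⟨fun t => ∑ σ', l σ' t * k σ' t, ∑ σ', l₀ σ' * k₀ σ',
      tendsto_finsetSum _ fun σ' _ => (hl σ').mul (hk σ'), ?_, ?_⟩
    · calc AnL V σ'' * (z' * z) * CrL V σ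
          = AnL V σ'' * z' * (∑ σ' ∈ ls b, CrL V σ' * AnL V σ') * (z * CrL V σ) := by
            rw [sum_CrL_AnL]; simp only [mul_assoc, one_mul]
        _ = ∑ σ' : {x // x ∈ ls b}, (AnL V σ'' * z' * CrL V σ'.1) * (AnL V σ'.1 * z * CrL V σ) := by
            rw [← Finset.sum_coe_sort, Finset.mul_sum, Finset.sum_mul]
            simp only [mul_assoc]
        _ = _ := by
            rw [Finset.sum_smul]
            refine Finset.sum_congr rfl fun σ' _ => ?_
            rw [hk0, hl0, smul_mul_smul_comm, mul_one]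
    · filter_upwards [h.comm, eventually_all.2 hke, eventually_all.2 hle] with t e e1 e2
      refine ⟨fun p => ?_, fun hne => Finset.sum_eq_zero fun σ' _ => ?_⟩
      · have e3 : Z t p * II (T t) (β t) σ p = (T t).f (β' t) p * (Z t p * II (T t) (β t) σ p) := by
          rw [← f_II (hS.ok t)]
          simp only [← mul_assoc]
          rw [e p]
        calc PP (T t) (β'' t) σ'' p * (Z' t p * Z t p) * II (T t) (β t) σ p
            = PP (T t) (β'' t) σ'' p * Z' t p *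
                (∑ σ' ∈ ls b, II (T t) (β' t) σ' p * PP (T t) (β' t) σ' p) *
                (Z t p * II (T t) (β t) σ p) := by
              rw [complete (hS.ok t), mul_assoc _ ((T t).f (β' t) p), ← e3]
              simp only [mul_assoc]
          _ = ∑ σ' : {x // x ∈ ls b}, (PP (T t) (β'' t) σ'' p * Z' t p * II (T t) (β' t) σ'.1 p) *
                (PP (T t) (β' t) σ'.1 p * Z t p * II (T t) (β t) σ p) := by
              rw [← Finset.sum_coe_sort, Finset.mul_sum, Finset.sum_mul]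
              simp only [mul_assoc]
          _ = _ := by
              rw [Finset.sum_smul]
              refine Finset.sum_congr rfl fun σ' _ => ?_
              rw [(e1 σ').1 p, (e2 σ').1 p, smul_mul_smul_comm]
              by_cases e4 : en (β t) σ = en (β' t) σ'.1
              · rw [← e4, (hS.ok t).idem]
              · rw [(e1 σ').2 e4, mul_zero, zero_smul, zero_smul]
      · by_cases e4 : en (β t) σ = en (β' t) σ'.1
        · rw [(e2 σ').2 (e4 ▸ hne), zero_mul]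
        · rw [(e1 σ').2 e4, mul_zero]

theorem Dyn.add (h : Dyn V T β β' a b Z z) (h' : Dyn V T β β' a b Z' z') :
    Dyn V T β β' a b (fun t p => Z t p + Z' t p) (z + z') := by
  refine ⟨?_, ?_, fun σ σ' h1 h2 => ?_⟩
  · filter_upwards [h.loc, h'.loc] with t e e'
    exact e.add e'
  · filter_upwards [h.comm, h'.comm] with t e e' p
    rw [mul_add, add_mul, add_mul, e p, e' p]
  · obtain ⟨k, k₀, h3, h4, h5⟩ := h.ent σ σ' h1 h2
    obtain ⟨l, l₀, h6, h7, h8⟩ := h'.ent σ σ' h1 h2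
    refine ⟨fun t => k t + l t, k₀ + l₀, h3.add h6, ?_, ?_⟩
    · rw [mul_add, add_mul, h4, h7, add_smul]
    · filter_upwards [h5, h8] with t e e'
      refine ⟨fun p => ?_, fun hne => ?_⟩
      · rw [mul_add, add_mul, e.1 p, e'.1 p, add_smul]
      · rw [e.2 hne, e'.2 hne, add_zero]

theorem Dyn.smul (h : Dyn V T β β' a b Z z) {k : ℕ → ℂ} {k₀ : ℂ} (hk : Tendsto k atTop (𝓝 k₀)) :
    Dyn V T β β' a b (fun t p => k t • Z t p) (k₀ • z) := by
  refine ⟨?_, ?_, fun σ σ' h1 h2 => ?_⟩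
  · filter_upwards [h.loc] with t e
    exact e.smul _
  · filter_upwards [h.comm] with t e p
    rw [mul_smul_comm, smul_mul_assoc, smul_mul_assoc, e p]
  · obtain ⟨l, l₀, h6, h7, h8⟩ := h.ent σ σ' h1 h2
    refine ⟨fun t => k t * l t, k₀ * l₀, hk.mul h6, ?_, ?_⟩
    · rw [mul_smul_comm, smul_mul_assoc, h7, mul_smul]
    · filter_upwards [h8] with t e
      refine ⟨fun p => ?_, fun hne => ?_⟩
      · rw [mul_smul_comm, smul_mul_assoc, e.1 p, mul_smul]
      · rw [e.2 hne, mul_zero]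

theorem dyn_zero (V : Lv Rc) (T : ∀ t, TL ℂ (R t)) (β β' : ℕ → ℕ) (a b : ℕ) :
    Dyn V T β β' a b (fun _ _ => 0) 0 :=
  ⟨Eventually.of_forall fun _ => TL.Loc.zero _ _, Eventually.of_forall fun _ _ => by simp,
    fun _ _ _ _ => ⟨fun _ => 0, 0, tendsto_const_nhds, by simp,
      Eventually.of_forall fun _ => ⟨fun _ => by simp, fun _ => rfl⟩⟩⟩

theorem Dyn.sum {I : Type} (s : Finset I) {F : I → ∀ t, ℕ → R t} {f : I → Rc}
    (h : ∀ i ∈ s, Dyn V T β β' a b (F i) (f i)) :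
    Dyn V T β β' a b (fun t p => ∑ i ∈ s, F i t p) (∑ i ∈ s, f i) := by
  classical
  induction s using Finset.induction_on with
  | empty => simpa using dyn_zero V T β β' a b
  | insert i s hi ih =>
    simp only [Finset.sum_insert hi]
    exact (h i (Finset.mem_insert_self i s)).add
      (ih fun j hj => h j (Finset.mem_insert_of_mem hj))

theorem DynB_orth (hS : Seq T) (hβ : Mid T β ζ) {σ σ' : List Bool} (hl : σ.length = σ'.length) :
    ∀ᶠ t in atTop, ∀ p, PP (T t) (β t) σ' p * II (T t) (β t) σ p =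
      (if σ' = σ then (1 : ℂ) else 0) • (T t).f (en (β t) σ) p := by
  filter_upwards [hβ.adm (σ.length + 1), hβ.big.eventually_ge_atTop σ.length] with t e1 e2 p
  by_cases e : σ' = σ
  · rw [if_pos e, e, one_smul]
    exact orth_eq (hS.ok t) e1 e2 p
  · rw [if_neg e, zero_smul]
    exact orth_ne (hS.ok t) _ hl (Ne.symm e) p

theorem DynB_AnL (V : Lv Rc) {σ σ' : List Bool} (hl : σ.length = σ'.length) :
    AnL V σ' * CrL V σ = (if σ' = σ then (1 : ℂ) else 0) • (1 : Rc) := by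
  rw [AnL_CrL V hl.symm]
  by_cases e : σ' = σ
  · rw [if_pos e, if_pos e, one_smul]
  · rw [if_neg e, if_neg e, zero_smul]

theorem Dyn.padR (hS : Seq T) (hβ : Mid T β ζ) (h : Dyn V T β β' a b Z z) (n : ℕ) :
    Dyn V T β β' (a + n) (b + n) Z z := by
  refine ⟨?_, h.comm, fun σ σ' h1 h2 => ?_⟩
  · filter_upwards [h.loc] with t e
    exact (e.padR n).cast (by omega) (by omega) fun _ => rfl
  · obtain ⟨σ₁, σ₂, rfl, l1⟩ : ∃ σ₁ σ₂ : List Bool, σ = σ₁ ++ σ₂ ∧ σ₁.length = a :=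
      ⟨σ.take a, σ.drop a, (List.take_append_drop a σ).symm, by simp; omega⟩
    obtain ⟨τ₁, τ₂, rfl, l2⟩ : ∃ τ₁ τ₂ : List Bool, σ' = τ₁ ++ τ₂ ∧ τ₁.length = b :=
      ⟨σ'.take b, σ'.drop b, (List.take_append_drop b σ').symm, by simp; omega⟩
    rw [List.length_append] at h1 h2
    have hl : σ₂.length = τ₂.length := by omega
    obtain ⟨k, k₀, h3, h4, h5⟩ := h.ent σ₁ τ₁ l1 l2
    refine ⟨fun t => k t * if τ₂ = σ₂ then 1 else 0, k₀ * if τ₂ = σ₂ then 1 else 0,
      h3.mul_const _, ?_, ?_⟩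
    · rw [AnL_append, CrL_append]
      calc AnL V τ₂ * AnL V τ₁ * z * (CrL V σ₁ * CrL V σ₂)
          = AnL V τ₂ * (AnL V τ₁ * z * CrL V σ₁) * CrL V σ₂ := by simp only [mul_assoc]
        _ = _ := by rw [h4, mul_smul_comm, mul_one, smul_mul_assoc, DynB_AnL V hl, mul_smul]
    · filter_upwards [h5, DynB_orth hS (hβ.near hS (near_en hβ.big σ₁)) hl] with t e e'
      refine ⟨fun p => ?_, fun hne => ?_⟩
      · rw [PP_append (hS.ok t), II_append (hS.ok t), en_append]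
        calc PP (T t) (en (β' t) τ₁) τ₂ p * PP (T t) (β' t) τ₁ p * Z t p *
              (II (T t) (β t) σ₁ p * II (T t) (en (β t) σ₁) σ₂ p)
            = PP (T t) (en (β' t) τ₁) τ₂ p * (PP (T t) (β' t) τ₁ p * Z t p * II (T t) (β t) σ₁ p) *
              II (T t) (en (β t) σ₁) σ₂ p := by simp only [mul_assoc]
          _ = k t • (PP (T t) (en (β' t) τ₁) τ₂ p * II (T t) (en (β t) σ₁) σ₂ p) := by
              rw [e.1 p, mul_smul_comm, smul_mul_assoc, mul_assoc, f_II (hS.ok t)]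
          _ = _ := by
              by_cases e4 : en (β t) σ₁ = en (β' t) τ₁
              · rw [← e4, e' p, mul_smul]
              · rw [e.2 e4, zero_mul, zero_smul, zero_smul]
      · by_cases e4 : τ₂ = σ₂
        · rw [e.2 fun e5 => hne (by rw [en_append, en_append, e5, e4]), zero_mul]
        · rw [if_neg e4, mul_zero]

theorem dyn_II (V : Lv Rc) (hS : Seq T) (hβ : Mid T β ζ) (σ : List Bool) :
    Dyn V T (fun t => en (β t) σ) β 0 σ.length (fun t => II (T t) (β t) σ) (CrL V σ) := by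
  refine ⟨Eventually.of_forall fun t => loc_II (T t) (β t) σ,
    Eventually.of_forall fun t p => by rw [f_II (hS.ok t)], fun τ σ' h1 h2 => ?_⟩
  obtain rfl : τ = [] := List.length_eq_zero_iff.1 h1
  refine ⟨fun _ => if σ' = σ then 1 else 0, _, tendsto_const_nhds, ?_, ?_⟩
  · rw [CrL, mul_one, DynB_AnL V h2.symm]
  · filter_upwards [DynB_orth hS hβ h2.symm] with t e
    refine ⟨fun p => ?_, fun hne => if_neg fun e4 => hne (by rw [e4]; rfl)⟩
    rw [II, mul_assoc, II_f (hS.ok t), e p]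
    rfl

theorem dyn_PP (V : Lv Rc) (hS : Seq T) (hβ : Mid T β ζ) (σ : List Bool) :
    Dyn V T β (fun t => en (β t) σ) σ.length 0 (fun t => PP (T t) (β t) σ) (AnL V σ) := by
  refine ⟨Eventually.of_forall fun t => loc_PP (T t) (β t) σ,
    Eventually.of_forall fun t p => by rw [f_PP (hS.ok t)], fun σ' τ h1 h2 => ?_⟩
  obtain rfl : τ = [] := List.length_eq_zero_iff.1 h2
  refine ⟨fun _ => if σ = σ' then 1 else 0, _, tendsto_const_nhds, ?_, ?_⟩
  · rw [AnL, one_mul, DynB_AnL V h1]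
  · filter_upwards [DynB_orth hS hβ h1] with t e
    refine ⟨fun p => ?_, fun hne => if_neg fun e4 => hne (by rw [e4]; rfl)⟩
    rw [PP, f_PP (hS.ok t), e p]

end Pool.Agent.P.MP_53e370_gt.S
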