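import Pool.Agent.P.MP_53e370_gt.S.DynB

/-! Thin elements, emission, absorption and monodromy next to a thick strand. -/

namespace Pool.Agent.P.MP_53e370_gt.S

open Pool.Agent.P.MP_ac4909_gt Filter Topology

section Alg
variable {K : Type} [Field K] {R : Type} [Ring R] [Algebra K R] {T : TL K R}

theorem DynS_U_f (h : Ok T) (b p : ℕ) :
    T.U (p + (b + 1)) * T.f (b + 1) p =
      II T (b + 1) [true, false] p + kap T.a b • II T (b + 1) [false, true] p := by
  have h1 : II T (b + 1) [true, false] p = T.f (b + 2) p * T.U (p + (b + 1)) * T.f (b + 1) p := by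
    show T.f (b + 2) p * (T.f (b + 2) p * T.U (p + (b + 1)) * T.f (b + 1) p) = _
    rw [← mul_assoc, ← mul_assoc, h.idem]
  have h2 : II T (b + 1) [false, true] p = T.f (b + 1) p * T.U (p + b) * T.f (b + 1) p := by
    show T.f (b + 1) p * T.U (p + b) * (T.f (b + 1) p * T.f (b + 1) p) = _
    rw [h.idem]
  have h3 : T.f (b + 1) p * T.U (p + (b + 1)) = T.U (p + (b + 1)) * T.f (b + 1) p :=
    T.jw_f_U (b + 1) p 0
  have h4 : T.C (p + b) * T.U (p + (b + 1)) = 1 := T.zag (p + b)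
  have h5 : T.f (b + 1) p * T.U (p + b) * T.C (p + b) * T.f (b + 1) p * T.U (p + (b + 1)) *
      T.f (b + 1) p = T.f (b + 1) p * T.U (p + b) * T.f (b + 1) p := by
    rw [mul_assoc _ (T.f (b + 1) p) (T.U _), h3, ← mul_assoc, mul_assoc _ (T.C _), h4, mul_one,
      mul_assoc _ (T.f (b + 1) p), h.idem]
  rw [h1, h2, T.jw_f_two, sub_mul, sub_mul, smul_mul_assoc, smul_mul_assoc, h5, h3, mul_assoc,
    h.idem, sub_add_cancel]

theorem DynS_C_f (h : Ok T) (b p : ℕ) (hk : kap T.a (b + 1) ≠ 0) :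
    T.C (p + (b + 1)) * T.f (b + 1) p =
      (kap T.a (b + 1))⁻¹ • PP T (b + 1) [true, false] p + PP T (b + 1) [false, true] p := by
  have h1 : PP T (b + 1) [true, false] p =
      kap T.a (b + 1) • (T.f (b + 1) p * T.C (p + (b + 1)) * T.f (b + 2) p) := by
    show T.f (b + 1) p * (kap T.a (b + 1) • (T.C (p + (b + 1)) * T.f (b + 2) p)) *
      T.f (b + 2) p = _
    rw [mul_smul_comm, smul_mul_assoc, ← mul_assoc, mul_assoc _ (T.f (b + 2) p), h.idem]
  have h2 : PP T (b + 1) [false, true] p =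
      kap T.a b • (T.f (b + 1) p * T.C (p + b) * T.f (b + 1) p) := by
    show T.f (b + 1) p * T.f (b + 1) p * (kap T.a b • (T.C (p + b) * T.f (b + 1) p)) = _
    rw [h.idem, mul_smul_comm, mul_assoc]
  have h3 : T.f (b + 1) p * T.C (p + (b + 1)) = T.C (p + (b + 1)) * T.f (b + 1) p :=
    T.jw_f_C (b + 1) p 0
  have h4 : T.C (p + (b + 1)) * T.U (p + b) = 1 := T.zig (p + b)
  have h5 : T.f (b + 1) p * T.C (p + (b + 1)) *
      (T.f (b + 1) p * T.U (p + b) * T.C (p + b) * T.f (b + 1) p) =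
      T.f (b + 1) p * T.C (p + b) * T.f (b + 1) p := by
    rw [← mul_assoc, ← mul_assoc, ← mul_assoc, mul_assoc (T.f (b + 1) p) (T.C (p + (b + 1))),
      ← h3, ← mul_assoc, h.idem, mul_assoc _ (T.C (p + (b + 1))) (T.U (p + b)), h4, mul_one]
  rw [h1, h2, smul_smul, inv_mul_cancel₀ hk, one_smul, T.jw_f_two, mul_sub, mul_smul_comm, h5,
    sub_add_cancel, h3, mul_assoc, h.idem]

theorem DynS_f_X {N : ℕ} (h : Adm T.a N) (s : Bool) (p n : ℕ) : ∀ j, j + n + 1 ≤ N →
    T.f N p * T.X s n (p + j) = zp T.a s ^ n • T.f N p := by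
  induction n with
  | zero => intro j _; simp [TL.X]
  | succ n ih =>
    intro j hj
    rw [TL.X, ← mul_assoc, f_mul_sig T h (by omega), smul_mul_assoc, add_assoc,
      ih (j + 1) (by omega), smul_smul, pow_succ']

theorem DynS_mon_t {b : ℕ} (h : Adm T.a (b + 1)) (s : Bool) (p : ℕ) :
    Mon T s b 1 p * II T b [true] p = zp T.a s ^ (2 * b) • II T b [true] p := by
  show T.crC s 1 b p * T.crC s b 1 p * (T.f (b + 1) p * T.f (b + 1) p) =
    zp T.a s ^ (2 * b) • (T.f (b + 1) p * T.f (b + 1) p)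
  rw [T.f_idem h, mul_assoc, T.jwmer_left h s p b le_rfl, mul_smul_comm,
    T.jwmer_right h s p b le_rfl, smul_smul, ← pow_add, two_mul]

theorem DynS_mon_f {b : ℕ} (h : Adm T.a (b + 1)) (s : Bool) (p : ℕ) :
    Mon T s (b + 1) 1 p * II T (b + 1) [false] p =
      zp T.a (!s) ^ (2 * (b + 1) + 4) • II T (b + 1) [false] p := by
  show T.crC s 1 (b + 1) p * T.crC s (b + 1) 1 p * (T.f (b + 1) p * T.U (p + b) * T.f b p) =
    zp T.a (!s) ^ (2 * (b + 1) + 4) • (T.f (b + 1) p * T.U (p + b) * T.f b p)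
  have h1 := X_f_U T h s p
  have h2 := (T.loc_f (b + 1)).natR s 1 p
  have h3 : T.crC s 1 (b + 1) p = T.crC s 1 b (p + 1) * T.sig s p := by
    rw [add_comm b 1, T.hexR, T.crC_one_one]
  have h4 : T.crC (!s) b 1 p * T.U (p + b) = T.crC s 1 b (p + 1) * T.U p := by
    have := T.cupSlC (!s) b 1 p
    rwa [T.cupC_one, T.cupC_one, Bool.not_not] at this
  have h5 : T.f (b + 1) p * T.crC (!s) b 1 p = zp T.a (!s) ^ b • T.f (b + 1) p := by
    rw [T.crC_one_right]
    exact DynS_f_X h (!s) p b 0 (by omega)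
  have h6 : T.crC s 1 (b + 1) p * (T.f (b + 1) (p + 1) * T.U p) =
      (-zp T.a (!s) ^ 3 * zp T.a (!s) ^ b) • (T.f (b + 1) p * T.U (p + b)) := by
    rw [← mul_assoc, h2, mul_assoc, h3, mul_assoc, sig_U, mul_smul_comm, mul_smul_comm, ← h4,
      ← mul_assoc, h5, smul_mul_assoc, smul_smul]
  rw [← mul_assoc, mul_assoc (T.crC s 1 (b + 1) p), ← mul_assoc (T.crC s (b + 1) 1 p),
    T.crC_one_right, h1, mul_smul_comm, h6, smul_smul, smul_mul_assoc]
  congr 1
  ring

theorem DynS_mon_one (h : Ok T) {b : ℕ} (ha : Adm T.a (b + 1 + 1)) (s : Bool) (p : ℕ) :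
    Mon T s (b + 1) 1 p * T.f (b + 1) p =
      zp T.a s ^ (2 * (b + 1)) • (II T (b + 1) [true] p * PP T (b + 1) [true] p) +
      zp T.a (!s) ^ (2 * (b + 1) + 4) • (II T (b + 1) [false] p * PP T (b + 1) [false] p) := by
  have h1 := complete h (b + 1) 1 p
  rw [sum_ls_succ] at h1
  simp only [ls, Finset.sum_singleton] at h1
  rw [← h1, mul_add, ← mul_assoc, ← mul_assoc, DynS_mon_t ha, DynS_mon_f (ha.mono (by omega)),
    smul_mul_assoc, smul_mul_assoc]

theorem DynS_mon_succ (T : TL K R) (s : Bool) (k m p : ℕ) :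
    Mon T s k (1 + m) p =
      T.crC (!s) m 1 (p + k) * Mon T s k m p * T.crC s 1 m (p + k) * Mon T s k 1 p := by
  have h1 := (loc_Mon T s k m).natR s 1 p
  rw [T.hexR] at h1
  have h2 := T.r2C s 1 m (p + k)
  calc Mon T s k (1 + m) p
      = T.crC s 1 k p * Mon T s k m (p + 1) * T.crC s k 1 p := by
        rw [Mon, Mon, T.hexL, T.hexR]
        simp only [mul_assoc]
    _ = T.crC (!s) m 1 (p + k) * (T.crC s 1 m (p + k) * T.crC s 1 k p * Mon T s k m (p + 1)) *
          T.crC s k 1 p := by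
        rw [← mul_assoc, ← mul_assoc, h2, one_mul]
    _ = _ := by
        rw [h1, Mon, Mon]
        simp only [mul_assoc]

end Alg

variable {Rc : Type} [Ring Rc] [Algebra ℂ Rc] {V : Lv Rc}
  {R : ℕ → Type} [∀ t, Ring (R t)] [∀ t, Algebra ℂ (R t)] {T : ∀ t, TL ℂ (R t)}
  {β : ℕ → ℕ} {ζ : Circle}

theorem DynS_cast {β' : ℕ → ℕ} {a b a' b' : ℕ} {Z : ∀ t, ℕ → R t} {z : Rc}
    (h : Dyn V T β β' a b Z z) (ha : a = a') (hb : b = b') : Dyn V T β β' a' b' Z z := by
  subst ha hb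
  exact h

theorem DynS_congr (hS : Seq T) {β' : ℕ → ℕ} {a b : ℕ} {Z Z' : ∀ t, ℕ → R t} {z z' : Rc}
    (h : Dyn V T β β' a b Z z) (hl : ∀ t, (T t).Loc (β t + a) (β' t + b) (Z' t))
    (he : ∀ᶠ t in atTop, ∀ p, Z' t p * (T t).f (β t) p = Z t p * (T t).f (β t) p) (hz : z = z') :
    Dyn V T β β' a b Z' z' := by
  subst hz
  refine ⟨Eventually.of_forall hl, ?_, fun σ σ' hσ hσ' => ?_⟩
  · filter_upwards [h.comm, he] with t h1 h2 p
    rw [mul_assoc, h2, ← mul_assoc, h1]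
  · obtain ⟨c, c₀, h1, h2, h3⟩ := h.ent σ σ' hσ hσ'
    refine ⟨c, c₀, h1, h2, ?_⟩
    filter_upwards [h3, he] with t h4 h5
    refine ⟨fun p => ?_, h4.2⟩
    rw [← h4.1 p, ← f_II (hS.ok t), ← mul_assoc, mul_assoc _ (Z' t p), h5, ← mul_assoc,
      ← mul_assoc]

theorem DynS_pos (hβ : Mid T β ζ) : ∀ᶠ t in atTop, ∃ b, β t = b + 1 := by
  filter_upwards [hβ.big.eventually_ge_atTop 1] with t ht
  exact ⟨β t - 1, by omega⟩

theorem DynS_one (V : Lv Rc) (hS : Seq T) (hβ : Mid T β ζ) (m : ℕ) :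
    Dyn V T β β m m (fun _ _ => 1) 1 := by
  have h1 : Dyn V T β β 0 0 (fun _ _ => 1) 1 :=
    DynS_congr hS (dyn_II V hS hβ []) (fun t => TL.Loc.one _)
      (Eventually.of_forall fun t p => by rw [one_mul]; exact ((hS.ok t).idem _ _).symm) rfl
  exact DynS_cast (h1.padR hS hβ m) (zero_add m) (zero_add m)

theorem DynS_en_tf (β : ℕ → ℕ) : ∀ᶠ t in atTop, en (β t) [true, false] = β t :=
  Eventually.of_forall fun _ => rfl

theorem DynS_en_ft (hβ : Mid T β ζ) : ∀ᶠ t in atTop, en (β t) [false, true] = β t := by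
  filter_upwards [DynS_pos hβ] with t ht
  obtain ⟨b, hb⟩ := ht
  rw [hb]
  rfl

theorem DynS_U (V : Lv Rc) (hS : Seq T) (hβ : Mid T β ζ) :
    Dyn V T β β 0 2 (fun t p => (T t).U (p + β t)) ((Tc V).U 0) := by
  have h1 := (dyn_II V hS hβ [true, false]).congr (DynS_en_tf β) (Eventually.of_forall fun _ => rfl)
    (Eventually.of_forall fun _ _ => rfl) rfl
  have h2 := (dyn_II V hS hβ [false, true]).congr (DynS_en_ft hβ)
    (Eventually.of_forall fun _ => rfl) (Eventually.of_forall fun _ _ => rfl) rfl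
  have hk := (hβ.near hS (near_en hβ.big [false])).kap hS
  refine DynS_congr hS (h1.add (h2.smul hk)) (fun t => (T t).loc_U.padL (β t)) ?_ ?_
  · filter_upwards [DynS_pos hβ] with t ht p
    obtain ⟨b, hb⟩ := ht
    rw [hb, DynS_U_f (hS.ok t), add_mul, smul_mul_assoc]
    congr 1
    · exact (II_f (hS.ok t) (b + 1) [true, false] p).symm
    · exact congrArg _ (II_f (hS.ok t) (b + 1) [false, true] p).symm
  · rw [Tc_U]
    simp only [CrL, mul_one, neg_smul, one_smul, sub_eq_add_neg]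

theorem DynS_C (V : Lv Rc) (hS : Seq T) (hβ : Mid T β ζ) :
    Dyn V T β β 2 0 (fun t p => (T t).C (p + β t)) ((Tc V).C 0) := by
  have h1 := (dyn_PP V hS hβ [true, false]).congr (Eventually.of_forall fun _ => rfl) (DynS_en_tf β)
    (Eventually.of_forall fun _ _ => rfl) rfl
  have h2 := (dyn_PP V hS hβ [false, true]).congr (Eventually.of_forall fun _ => rfl)
    (DynS_en_ft hβ) (Eventually.of_forall fun _ _ => rfl) rfl
  have hk := hβ.kap hS
  have hn : (-1 : ℂ) ≠ 0 := neg_ne_zero.2 one_ne_zero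
  refine DynS_congr hS ((h1.smul (hk.inv₀ hn)).add h2) (fun t => (T t).loc_C.padL (β t)) ?_ ?_
  · filter_upwards [DynS_pos hβ, hk.eventually_ne hn] with t ht hne p
    obtain ⟨b, hb⟩ := ht
    rw [hb] at hne ⊢
    rw [DynS_C_f (hS.ok t) b p hne, add_mul, smul_mul_assoc, PP_f (hS.ok t), PP_f (hS.ok t)]
  · rw [Tc_C]
    simp only [AnL, one_mul, inv_neg, inv_one, neg_smul, one_smul]
    abel

theorem DynS_padL (hS : Seq T) (hβ : Mid T β ζ) {a b : ℕ} {X : ∀ t, ℕ → R t} {z : Rc}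
    (hX : ∀ t, (T t).Loc a b (X t))
    (h : ∀ γ, Mid T γ ζ → Dyn V T γ γ a b (fun t p => X t (p + γ t)) z) (j : ℕ) :
    Dyn V T β β (j + a) (j + b) (fun t p => X t (p + β t + j)) (sh V z j) := by
  have h1 : ∀ σ ∈ ls j, Dyn V T β β (j + a) (j + b)
      (fun t p => II (T t) (β t) σ p * X t (p + en (β t) σ) * PP (T t) (β t) σ p)
      (CrL V σ * z * AnL V σ) := by
    intro σ hσ
    have hl := mem_ls.1 hσ
    have hm := hβ.near hS (near_en hβ.big σ)
    have h2 := DynS_cast ((dyn_II V hS hβ σ).padR hS hm b) (zero_add b) (by rw [hl])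
    have h3 := DynS_cast ((dyn_PP V hS hβ σ).padR hS hβ a) (by rw [hl]) (zero_add a)
    exact (h2.mul hS (h _ hm)).mul hS h3
  refine DynS_congr hS (Dyn.sum _ h1) (fun t => ?_) (Eventually.of_forall fun t p => ?_) ?_
  · exact ((hX t).padL (β t + j)).cast (add_assoc _ _ _) (add_assoc _ _ _)
      fun p => by rw [add_assoc]
  · rw [Finset.sum_mul]
    conv_lhs => rw [← complete (hS.ok t) (β t) j p, Finset.mul_sum]
    refine Finset.sum_congr rfl fun σ hσ => ?_
    have hl := mem_ls.1 hσ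
    rw [mul_assoc, PP_f (hS.ok t), ← mul_assoc,
      (loc_II (T t) (β t) σ).far' (hX t) p (p + en (β t) σ) (p + β t + j) le_rfl (by omega)]
  · have : ∀ σ ∈ ls j, CrL V σ * z * AnL V σ = sh V z j * (CrL V σ * AnL V σ) := by
      intro σ hσ
      rw [← mem_ls.1 hσ, ← mul_assoc, sh_CrL]
    rw [Finset.sum_congr rfl this, ← Finset.mul_sum, sum_CrL_AnL, mul_one]

theorem dyn_small (hS : Seq T) (hβ : Mid T β ζ) {a b : ℕ} {X : ∀ t, ℕ → R t} {x : ℕ → Rc}
    (h : Cv V T a b X x) : Dyn V T β β a b (fun t p => X t (p + β t)) (x 0) := by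
  induction h with
  | one m => exact DynS_one V hS hβ m
  | U m j hj =>
    have h1 := (DynS_padL hS hβ (fun t => (T t).loc_U) (fun γ hγ => DynS_U V hS hγ) j).padR hS hβ
      (m - j)
    rw [← loc_sh (Tc V).loc_U j] at h1
    simp only [zero_add]
    exact DynS_cast h1 (by omega) (by omega)
  | C m j hj =>
    have h1 := (DynS_padL hS hβ (fun t => (T t).loc_C) (fun γ hγ => DynS_C V hS hγ) j).padR hS hβ
      (m - j)
    rw [← loc_sh (Tc V).loc_C j] at h1
    simp only [zero_add]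
    exact DynS_cast h1 (by omega) (by omega)
  | mul _ _ ih1 ih2 => exact ih1.mul hS ih2
  | add _ _ ih1 ih2 => exact ih1.add ih2
  | smul c c₀ hc _ ih => exact ih.smul hc
  | zero m n => exact dyn_zero V T β β m n
  | congr _ he ih =>
    refine ih.congr (Eventually.of_forall fun _ => rfl) (Eventually.of_forall fun _ => rfl) ?_ rfl
    filter_upwards [he] with t ht p
    rw [ht]

theorem dyn_Em (V : Lv Rc) (hS : Seq T) (hβ : Mid T β ζ) (σ : List Bool) :
    Dyn V T β (fun t => en (β t) σ) 0 σ.length (fun t => Em (T t) (β t) σ) (em V σ) :=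
  DynS_cast (((dyn_PP V hS hβ σ).padR hS hβ σ.length).mul hS
    (dyn_small hS hβ (cv_cupC V T σ.length))) rfl (zero_add _)

theorem dyn_Abs (V : Lv Rc) (hS : Seq T) (hβ : Mid T β ζ) (σ : List Bool) :
    Dyn V T (fun t => en (β t) σ) β σ.length 0 (fun t => Abs (T t) (β t) σ) (ab V σ) :=
  DynS_cast ((dyn_small hS hβ (cv_capC V T σ.length)).mul hS
    ((dyn_II V hS hβ σ).padR hS (hβ.near hS (near_en hβ.big σ)) σ.length)) (zero_add _) rfl

theorem DynS_dg_inv (z : Circle) : (dg z)⁻¹ = dg z⁻¹ := by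
  apply inv_eq_of_mul_eq_one_right
  apply Subtype.ext
  show (dg z).1 * (dg z⁻¹).1 = 1
  ext i j
  fin_cases i <;> fin_cases j <;> simp [dg, Matrix.mul_apply, Fin.sum_univ_two]

theorem DynS_gam_dg (V : Lv Rc) (z : Circle) :
    gam V (dg z) 1 = (z : ℂ) • (CrL V [true] * AnL V [true]) +
      (z : ℂ)⁻¹ • (CrL V [false] * AnL V [false]) := by
  simp [gam, dg, ix, CrL, AnL]

theorem DynS_lim (hS : Seq T) (hβ : Mid T β ζ) (s : Bool) (n : ℕ) :
    Tendsto (fun t => zp (T t).a s ^ (2 * β t + 2 * n)) atTop (𝓝 (zp ((ζ : ℂ) ^ 2) s)) := by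
  have h1 : Tendsto (fun t => (T t).a ^ (2 * β t + 2 * n)) atTop (𝓝 ((ζ : ℂ) ^ 2)) := by
    have h2 := (hβ.lim.pow 2).mul (hS.lim.pow (2 * n))
    rw [pow_mul, neg_one_sq, one_pow, mul_one] at h2
    refine h2.congr fun t => ?_
    rw [← pow_mul, mul_comm (β t) 2, pow_mul, neg_sq, ← pow_mul, ← pow_add]
  cases s
  · simp only [zp, Bool.false_eq_true, if_false, inv_pow]
    exact h1.inv₀ (pow_ne_zero _ (Circle.coe_ne_zero ζ))
  · simpa only [zp, if_true] using h1

theorem DynS_mon1 (V : Lv Rc) (hS : Seq T) (hβ : Mid T β ζ) (s : Bool) :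
    Dyn V T β β 1 1 (fun t => Mon (T t) s (β t) 1)
      (gam V (if s then dg (ζ ^ 2) else (dg (ζ ^ 2))⁻¹) 1) := by
  have h1 := ((dyn_II V hS hβ [true]).mul hS (dyn_PP V hS hβ [true])).smul (DynS_lim hS hβ s 0)
  have h2 := ((dyn_II V hS hβ [false]).mul hS (dyn_PP V hS hβ [false])).smul
    (DynS_lim hS hβ (!s) 2)
  refine DynS_congr hS (h1.add h2) (fun t => loc_Mon _ _ _ _) ?_ ?_
  · filter_upwards [DynS_pos hβ, hβ.adm 1] with t ht ha p
    obtain ⟨b, hb⟩ := ht
    rw [hb] at ha ⊢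
    rw [DynS_mon_one (hS.ok t) ha, add_mul, smul_mul_assoc, smul_mul_assoc, mul_assoc, mul_assoc,
      PP_f (hS.ok t), PP_f (hS.ok t)]
    rfl
  · cases s
    · simp [DynS_dg_inv, DynS_gam_dg, zp]
    · simp [DynS_gam_dg, zp]

theorem DynS_nat {m : ℕ} {z : Rc} (hz : LC V m m z) (s : Bool) (k : ℕ) :
    (Tc V).crC s m k 0 * z = sh V z k * (Tc V).crC s m k 0 := by
  rw [← mul_one (_ * z), ← mul_one (sh V z k * _), ← sum_CrL_AnL V m, Finset.mul_sum,
    Finset.mul_sum]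
  refine Finset.sum_congr rfl fun σ hσ => ?_
  have hl : LC V 0 m (CrL V σ) := mem_ls.1 hσ ▸ LC_CrL V σ
  rw [← mul_assoc, ← mul_assoc, mul_assoc _ z, crC_LC (hz.mul hl), mul_assoc (sh V z k),
    crC_LC hl, sh_mul, mul_smul_comm]

theorem dyn_Mon (V : Lv Rc) (hS : Seq T) (hβ : Mid T β ζ) (s : Bool) (j : ℕ) :
    Dyn V T β β j j (fun t => Mon (T t) s (β t) j)
      (gam V (if s then dg (ζ ^ 2) else (dg (ζ ^ 2))⁻¹) j) := by
  induction j with
  | zero =>
    refine (DynS_one V hS hβ 0).congr (Eventually.of_forall fun _ => rfl)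
      (Eventually.of_forall fun _ => rfl) (Eventually.of_forall fun t p => ?_) rfl
    rw [Mon, TL.crC_zero_left, one_mul]
    rfl
  | succ m ih =>
    have h1 := dyn_small hS hβ (cv_crC V hS (!s) m 1)
    have h2 := dyn_small hS hβ (cv_crC V hS s 1 m)
    have h3 := ((h1.mul hS (ih.padR hS hβ 1)).mul hS h2).mul hS ((DynS_mon1 V hS hβ s).padR hS hβ m)
    rw [add_comm m 1]
    refine h3.congr (Eventually.of_forall fun _ => rfl) (Eventually.of_forall fun _ => rfl)
      (Eventually.of_forall fun t p => (DynS_mon_succ _ _ _ _ _).symm) ?_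
    rw [DynS_nat (LC_gam V _ m), mul_assoc (sh V _ 1), TL.r2C, mul_one, gam_add]
    exact (LC_gam V _ 1 _).symm

end Pool.Agent.P.MP_53e370_gt.S
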