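import Pool.Agent.P.MP_53e370_gt.S.DynS

/-! Half turns of vertices. -/

namespace Pool.Agent.P.MP_53e370_gt.S

open Pool.Agent.P.MP_ac4909_gt Filter Topology

variable {Rc : Type} [Ring Rc] [Algebra ℂ Rc] {V : Lv Rc}
  {R : ℕ → Type} [∀ t, Ring (R t)] [∀ t, Algebra ℂ (R t)] {T : ∀ t, TL ℂ (R t)}
  {β γ : ℕ → ℕ} {ζ : Circle} {j : ℕ} {X : ∀ t, ℕ → R t} {z : Rc}

section Alg
variable {K : Type} [Field K] {A : Type} [Ring A] [Algebra K A] {M : TL K A}

theorem DynT_nil (h : Ok M) (b q : ℕ) : Tw M b b 0 (M.f b) q = M.f b q := by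
  unfold Tw
  rw [M.crC_zero_left, mul_one, (h.rot b).cap (M.loc_f b) (M.loc_f b), mul_assoc,
    (M.loc_f b).far' (M.loc_cupC b) q (q + b) (q + b) le_rfl rfl, ← mul_assoc, M.zagC, one_mul]

theorem DynT_cup {b c j : ℕ} {X : ℕ → A} (hX : M.Loc c (b + j) X) (r : ℕ) :
    Tw M b c j X (r + b) * M.cupC b r = M.crC true j c (r + b) * X r * M.cupC c r := by
  unfold Tw
  have e1 := (M.loc_cupC b).far' (M.loc_cupC c) r r (r + b + b) (by omega) (by omega)
  have e2 := (M.loc_cupC b).far' hX r r (r + b + b) (by omega) (by omega)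
  have e3 := (M.loc_cupC b).far' (M.loc_crC true j c) r (r + b) (r + b + b + b) (by omega)
    (by omega)
  calc _ = M.capC b (r + b) * (M.crC true j c (r + b + b + b) *
        (X (r + b + b) * (M.cupC c (r + b + b) * M.cupC b r))) := by simp only [mul_assoc]
    _ = M.capC b (r + b) * M.cupC b r * (M.crC true j c (r + b) * (X r * M.cupC c r)) := by
        rw [← e1, ← mul_assoc (X _), ← e2, mul_assoc (M.cupC b r), ← mul_assoc (M.crC _ _ _ _),
          ← e3]
        simp only [mul_assoc]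
    _ = _ := by rw [M.zigC, one_mul, mul_assoc]

theorem DynT_split {b b' c k j : ℕ} {X Y : ℕ → A} (hY : M.Loc b' (b + k) Y)
    (hX : M.Loc c (b' + j) X) (q : ℕ) :
    Tw M b c (k + j) (fun p => Y p * X p) q =
      M.crC false j k (q + c) * (Tw M b' c j X q * Tw M b b' k Y q) := by
  have hW := loc_Tw hX
  have e1 := (M.loc_capC b).far' hW q (q + b + b) q (by omega) (by omega)
  have e2 := hW.natR true k (q + b + b)
  have e3 := hY.far' hW (q + b) (q + b + b') (q + b + b + k) (by omega) (by omega)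
  have e4 := DynT_cup hX (q + b)
  have e5 := hY.far' (M.loc_crC true j c) (q + b) (q + b + b') (q + b + b + k) (by omega)
    (by omega)
  have e6 := (M.loc_capC b).far' (M.loc_crC false j k) q (q + b + b + c) (q + c) (by omega)
    (by omega)
  have e7 : M.crC false j k (q + b + b + c) * (M.crC true k (c + j) (q + b + b) *
      M.crC true j c (q + b + b + k)) = M.crC true (k + j) c (q + b + b) := by
    have h1 := M.r2C true k j (q + b + b + c)
    simp only [Bool.not_true] at h1
    rw [M.hexR, M.hexL, mul_assoc, ← mul_assoc (M.crC false _ _ _), h1, one_mul]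
  generalize Tw M b' c j X = W at e1 e2 e3 e4 ⊢
  unfold Tw
  symm
  calc _ = M.crC false j k (q + c) * (W q * M.capC b q) * M.crC true k b' (q + b + b) *
        Y (q + b) * M.cupC b' (q + b) := by simp only [mul_assoc]
    _ = M.crC false j k (q + c) * M.capC b q * (W (q + b + b) * M.crC true k b' (q + b + b)) *
        Y (q + b) * M.cupC b' (q + b) := by rw [← e1]; simp only [mul_assoc]
    _ = M.crC false j k (q + c) * M.capC b q * M.crC true k (c + j) (q + b + b) *
        (W (q + b + b + k) * Y (q + b)) * M.cupC b' (q + b) := by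
        rw [← e2]; simp only [mul_assoc]
    _ = M.crC false j k (q + c) * M.capC b q * M.crC true k (c + j) (q + b + b) *
        Y (q + b) * (W (q + b + b') * M.cupC b' (q + b)) := by rw [← e3]; simp only [mul_assoc]
    _ = M.crC false j k (q + c) * M.capC b q * M.crC true k (c + j) (q + b + b) *
        (Y (q + b) * M.crC true j c (q + b + b')) * X (q + b) * M.cupC c (q + b) := by
        rw [e4]; simp only [mul_assoc]
    _ = M.capC b q * (M.crC false j k (q + b + b + c) * (M.crC true k (c + j) (q + b + b) *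
        M.crC true j c (q + b + b + k))) * (Y (q + b) * X (q + b)) * M.cupC c (q + b) := by
        rw [e5, ← e6]; simp only [mul_assoc]
    _ = _ := by rw [e7]

theorem DynT_f_crC {b : ℕ} (h : Adm M.a (b + 1)) (q : ℕ) :
    M.f (b + 1) q * M.crC false b 1 q = M.a⁻¹ ^ b • M.f (b + 1) q := by
  have h1 := M.r2C false b 1 q
  simp only [Bool.not_false] at h1
  have h2 := f_mul_crC M h true q b le_rfl
  have h3 : M.f (b + 1) q = M.a ^ b • (M.f (b + 1) q * M.crC false b 1 q) := by
    conv_lhs => rw [← mul_one (M.f (b + 1) q), ← h1, ← mul_assoc, h2]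
    simp [zp]
  conv_rhs => rw [h3]
  rw [smul_smul, ← mul_pow, inv_mul_cancel₀ M.ha, one_pow, one_smul]

theorem DynT_up {b : ℕ} (h : Adm M.a (b + 1)) (q : ℕ) :
    Tw M b (b + 1) 1 (i1 M b true) q = (-M.a⁻¹ ^ (b + 3)) • i1 M (b + 1) false q := by
  change M.capC b q * M.crC true 1 (b + 1) (q + b + b) * M.f (b + 1) (q + b) *
    M.cupC (b + 1) (q + b) = (-M.a⁻¹ ^ (b + 3)) • (M.f (b + 1) q * M.U (q + b))
  have e1 : M.f (b + 1) (q + b) * M.cupC (b + 1) (q + b) =
      M.f (b + 1) (q + b + b + 1) * M.cupC (b + 1) (q + b) := M.rot_f h (q + b)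
  have e2 := (M.loc_f (b + 1)).natR true 1 (q + b + b)
  have e3 := (M.loc_capC b).far' (M.loc_f (b + 1)) q (q + b + b) q (by omega) (by omega)
  have e4 : M.cupC (b + 1) (q + b) = M.U (q + b + b) * M.cupC b (q + b) := by
    rw [M.cupC_add, M.cupC_one]
  have e5 : M.crC true 1 (b + 1) (q + b + b) * M.U (q + b + b) =
      (-M.a⁻¹ ^ 3) • (M.crC true 1 b (q + b + b + 1) * M.U (q + b + b)) := by
    rw [Nat.add_comm b 1, M.hexR, M.crC_one_one, mul_assoc, sig_U, mul_smul_comm]
    simp [zp]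
  have e6 := (M.loc_capC b).far' (M.loc_crC true 1 b) q (q + b + b + 1) (q + 1) (by omega)
    (by omega)
  have e7 := (M.loc_capC b).far' M.loc_U q (q + b + b) q (by omega) (by omega)
  have e8 := M.cupSlC false b 1 q
  simp only [Bool.not_false, M.cupC_one] at e8
  calc _ = M.capC b q * (M.crC true 1 (b + 1) (q + b + b) * M.f (b + 1) (q + b + b + 1)) *
        M.cupC (b + 1) (q + b) := by rw [mul_assoc _ (M.f _ _), e1]; simp only [mul_assoc]
    _ = M.capC b q * M.f (b + 1) (q + b + b) * (M.crC true 1 (b + 1) (q + b + b) *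
        M.U (q + b + b)) * M.cupC b (q + b) := by rw [e2, e4]; simp only [mul_assoc]
    _ = (-M.a⁻¹ ^ 3) • (M.f (b + 1) q * (M.capC b q * M.crC true 1 b (q + b + b + 1)) *
        M.U (q + b + b) * M.cupC b (q + b)) := by
        rw [e3, e5]; simp only [mul_assoc, mul_smul_comm, smul_mul_assoc]
    _ = (-M.a⁻¹ ^ 3) • (M.f (b + 1) q * M.crC true 1 b (q + 1) *
        (M.capC b q * M.U (q + b + b)) * M.cupC b (q + b)) := by rw [e6]; simp only [mul_assoc]
    _ = (-M.a⁻¹ ^ 3) • (M.f (b + 1) q * (M.crC true 1 b (q + 1) * M.U q) *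
        (M.capC b q * M.cupC b (q + b))) := by rw [e7]; simp only [mul_assoc]
    _ = _ := by
        rw [M.zagC, mul_one, ← e8, ← mul_assoc, DynT_f_crC h, smul_mul_assoc, smul_smul]
        congr 1
        ring

theorem DynT_down {b : ℕ} (h : Adm M.a (b + 1)) (q : ℕ) :
    Tw M (b + 1) b 1 (i1 M (b + 1) false) q = M.a ^ b • i1 M b true q := by
  change M.capC (b + 1) q * M.crC true 1 b (q + (b + 1) + (b + 1)) *
    (M.f (b + 1) (q + (b + 1)) * M.U (q + (b + 1) + b)) * M.cupC b (q + (b + 1)) =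
      M.a ^ b • M.f (b + 1) q
  have e1 := (M.loc_capC (b + 1)).far' (M.loc_crC true 1 b) q (q + (b + 1) + (b + 1)) q
    (by omega) (by omega)
  have e2 := (M.rot_f h).cap (M.loc_f _) (M.loc_f _) q
  have e4 : M.U (q + (b + 1) + b) * M.cupC b (q + (b + 1)) = M.cupC (b + 1) (q + (b + 1)) := by
    rw [M.cupC_add, M.cupC_one]
  have e5 := (M.loc_f (b + 1)).far' (M.loc_cupC (b + 1)) q (q + (b + 1)) (q + (b + 1)) le_rfl rfl
  calc _ = M.crC true 1 b q * (M.capC (b + 1) q * M.f (b + 1) (q + (b + 1))) *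
        (M.U (q + (b + 1) + b) * M.cupC b (q + (b + 1))) := by rw [e1]; simp only [mul_assoc]
    _ = M.crC true 1 b q * (M.capC (b + 1) q * (M.f (b + 1) q * M.cupC (b + 1) (q + (b + 1)))) := by
        rw [e2, e4]; simp only [mul_assoc]
    _ = _ := by
        rw [e5, ← mul_assoc (M.capC _ _), M.zagC, one_mul, M.jwmer_right h true q b le_rfl]
        simp [zp]

theorem DynT_II_one (h : Ok M) (b : ℕ) (s : Bool) (p : ℕ) : II M b [s] p = i1 M b s p := by
  change i1 M b s p * M.f (stp b s) p = i1 M b s p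
  cases s with
  | true => exact h.idem (b + 1) p
  | false =>
    cases b with
    | zero => exact zero_mul _
    | succ b =>
      change M.f (b + 1) p * M.U (p + b) * M.f b p = M.f (b + 1) p * M.U (p + b)
      have e1 : M.f b p * M.U (p + b) = M.U (p + b) * M.f b p := M.jw_f_U b p 0
      have e2 : M.f (b + 1) p * M.f b p = M.f (b + 1) p := h.f_f (j := 0) (by omega) p
      rw [mul_assoc, ← e1, ← mul_assoc, e2]

end Alg

theorem DynT_gam_true (V : Lv Rc) (ζ : Circle) :
    gam V (Sm ζ) 1 * cre V true = (ζ : ℂ)⁻¹ • CrL V [false] := by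
  simp only [gam, Fintype.sum_bool, add_mul, smul_mul_assoc, mul_one, mul_assoc, ann_cre, CrL]
  simp [Sm, ix]

theorem DynT_gam_false (V : Lv Rc) (ζ : Circle) :
    gam V (Sm ζ) 1 * cre V false = (-(ζ : ℂ)) • CrL V [true] := by
  simp only [gam, Fintype.sum_bool, add_mul, smul_mul_assoc, mul_one, mul_assoc, ann_cre, CrL]
  simp [Sm, ix]

theorem DynT_near (hβ : Mid T β ζ) (s : Bool) : Near β fun t => stp (β t) s :=
  near_en hβ.big [s]

theorem DynT_one (hS : Seq T) (hβ : Mid T β ζ) (s : Bool) :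
    Dyn V T β (fun t => stp (β t) s) 0 1
      (fun t p => (-1 : ℂ) ^ β t • Tw (T t) (β t) (stp (β t) s) 1 (i1 (T t) (β t) s) p)
      (gam V (Sm ζ) 1 * cre V s) := by
  have hβ' := hβ.near hS (DynT_near hβ s)
  have hz : (ζ : ℂ) ≠ 0 := Circle.coe_ne_zero ζ
  cases s with
  | true =>
    have hk : Tendsto (fun t => ((-(T t).a) ^ β t)⁻¹ * -((T t).a⁻¹ ^ 3)) atTop (𝓝 (ζ : ℂ)⁻¹) := by
      have h1 := (hβ.lim.inv₀ hz).mul ((hS.lim.inv₀ (by norm_num)).pow 3).neg
      convert h1 using 2
      norm_num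
    refine ((dyn_II V hS hβ' [false]).smul hk).congr (Eventually.of_forall fun t => rfl)
      (Eventually.of_forall fun t => rfl) ?_ (DynT_gam_true V ζ).symm
    filter_upwards [hβ.adm 1] with t ht p
    rw [DynT_II_one (hS.ok t)]
    change _ • i1 (T t) (β t + 1) false p = _ • Tw (T t) (β t) (β t + 1) 1 _ p
    rw [DynT_up ht, smul_smul]
    congr 1
    rw [neg_pow (T t).a, mul_inv, ← inv_pow, ← inv_pow, inv_neg_one]
    ring
  | false =>
    have hk : Tendsto (fun t => -((-(T t).a) ^ stp (β t) false)) atTop (𝓝 (-(ζ : ℂ))) :=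
      hβ'.lim.neg
    have hb : ∀ᶠ t in atTop, 1 ≤ β t := hβ.big.eventually_ge_atTop 1
    refine ((dyn_II V hS hβ' [true]).smul hk).congr ?_
      (Eventually.of_forall fun t => rfl) ?_ (DynT_gam_false V ζ).symm
    · filter_upwards [hb] with t ht
      change β t - 1 + 1 = β t
      omega
    · filter_upwards [hβ.adm 0, hb] with t ht h1 p
      rw [DynT_II_one (hS.ok t)]
      obtain ⟨b, hb⟩ : ∃ b, β t = b + 1 := ⟨β t - 1, by omega⟩
      rw [hb] at ht ⊢
      change (-((-(T t).a) ^ b)) • i1 (T t) b true p = _ • Tw (T t) (b + 1) b 1 _ p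
      rw [DynT_down ht, smul_smul]
      congr 1
      rw [neg_pow (T t).a]
      ring

theorem DynT_cl (V : Lv Rc) (h : SU) (s : Bool) (σ : List Bool) :
    (-1 : ℂ) ^ σ.length • ((Tc V).crC false σ.length 1 0 *
      (gam V h σ.length * CrL V σ * (gam V h 1 * cre V s))) =
      gam V h (σ.length + 1) * CrL V (s :: σ) := by
  have h0 : LC V 0 1 (cre V s) := by simpa [CrL] using LC_CrL V [s]
  have h1 : LC V 0 σ.length (gam V h σ.length * CrL V σ) := (LC_gam V h _).mul (LC_CrL V σ)
  have h2 : LC V 0 1 (gam V h 1 * cre V s) := (LC_gam V h 1).mul h0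
  rw [← mul_assoc, crC_LC h1, smul_mul_assoc, smul_smul, mul_one, ← mul_pow, ← h2, sh_zero,
    Nat.add_comm σ.length 1, gam_add, CrL]
  have h3 := h0 (gam V h σ.length)
  rw [sh_zero] at h3
  simp only [neg_mul, one_mul, neg_neg, one_pow, one_smul, mul_assoc]
  rw [← mul_assoc (cre V s), h3, mul_assoc]

theorem DynT_path (hS : Seq T) (τ : List Bool) : ∀ {β : ℕ → ℕ}, Mid T β ζ →
    Dyn V T β (fun t => en (β t) τ) 0 τ.length
      (fun t p => (-1 : ℂ) ^ (β t * τ.length) •
        Tw (T t) (β t) (en (β t) τ) τ.length (II (T t) (β t) τ) p)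
      (gam V (Sm ζ) τ.length * CrL V τ) := by
  induction τ with
  | nil =>
    intro β hβ
    refine (dyn_II V hS hβ []).congr (Eventually.of_forall fun t => rfl)
      (Eventually.of_forall fun t => rfl) (Eventually.of_forall fun t p => ?_) (one_mul _).symm
    change (T t).f (β t) p = (-1 : ℂ) ^ 0 • Tw (T t) (β t) (β t) 0 ((T t).f (β t)) p
    rw [DynT_nil (hS.ok t), pow_zero, one_smul]
  | cons s σ ih =>
    intro β hβ
    have hβ' := hβ.near hS (DynT_near hβ s)
    have hc := hβ'.near hS (near_en hβ'.big σ)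
    have d1 := DynT_one (V := V) hS hβ s
    have d2 := (ih hβ').padR hS hβ' 1
    have d3 := dyn_small hS hc (cv_crC V hS false σ.length 1)
    rw [Nat.add_comm 1 σ.length] at d3
    have d4 := (Dyn.mul hS d3 (Dyn.mul hS d2 d1)).smul
      (tendsto_const_nhds (x := (-1 : ℂ) ^ σ.length))
    refine d4.congr (Eventually.of_forall fun t => rfl) (Eventually.of_forall fun t => rfl) ?_
      (DynT_cl V _ s σ)
    filter_upwards [hβ.big.eventually_ge_atTop 1] with t ht p
    have e1 := DynT_split (loc_i1 (T t) (β t) s) (loc_II (T t) (stp (β t) s) σ) p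
    rw [Nat.add_comm 1 σ.length] at e1
    change _ = (-1 : ℂ) ^ (β t * (σ.length + 1)) • Tw (T t) (β t) (en (stp (β t) s) σ)
      (σ.length + 1) (fun p => i1 (T t) (β t) s p * II (T t) (stp (β t) s) σ p) p
    rw [e1]
    simp only [smul_mul_assoc, mul_smul_comm, smul_smul]
    congr 1
    obtain ⟨b, hb⟩ : ∃ b, β t = b + 1 := ⟨β t - 1, by omega⟩
    have h2 : (-1 : ℂ) ^ stp (β t) s = (-1) ^ b := by
      rw [hb]
      cases s
      · rfl
      · change (-1 : ℂ) ^ (b + 1 + 1) = _
        rw [pow_succ, pow_succ]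
        ring
    rw [pow_mul, pow_mul, h2, hb, pow_succ (-1 : ℂ) b, pow_succ _ σ.length, mul_pow]
    ring

theorem dyn_Tw (hS : Seq T) (hβ : Mid T β ζ) (hn : Near β γ) (hX : Dyn V T γ β 0 j X z)
    (hf : ∀ᶠ t in atTop, ∀ p, X t p * (T t).f (γ t) p = X t p) :
    Dyn V T β γ 0 j (fun t p => (-1 : ℂ) ^ (β t * j) • Tw (T t) (β t) (γ t) j (X t) p)
      (gam V (Sm ζ) j * z) := by
  obtain ⟨d, hd⟩ := hn
  have hent := fun (τ : List Bool) (h : τ.length = j) => hX.ent [] τ rfl h
  choose! c c₀ hc hz hev using hent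
  have hz' : z = ∑ τ ∈ ls j, c₀ τ • CrL V τ := by
    conv_lhs => rw [← one_mul z, ← sum_CrL_AnL V j, Finset.sum_mul]
    refine Finset.sum_congr rfl fun τ hτ => ?_
    have h1 := hz τ (mem_ls.1 hτ)
    rw [CrL, mul_one] at h1
    rw [mul_assoc, h1, mul_smul_comm, mul_one]
  have hall := (Finset.eventually_all (ls j)).2 fun τ hτ => hev τ (mem_ls.1 hτ)
  have hX' : ∀ᶠ t in atTop, ∀ p, X t p = ∑ τ ∈ ls j, c τ t • II (T t) (β t) τ p := by
    filter_upwards [hall, hf, hX.comm] with t h1 h2 h3 p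
    rw [← h2 p, ← h3 p, ← complete (hS.ok t) (β t) j p, Finset.sum_mul, Finset.sum_mul]
    refine Finset.sum_congr rfl fun τ hτ => ?_
    obtain ⟨h4, h5⟩ := h1 τ hτ
    have h6 : PP (T t) (β t) τ p * X t p * (T t).f (γ t) p = c τ t • (T t).f (γ t) p := h4 p
    rw [mul_assoc (II _ _ _ _), mul_assoc (II _ _ _ _), h6, mul_smul_comm]
    by_cases h7 : γ t = en (β t) τ
    · rw [h7, II_f (hS.ok t)]
    · rw [h5 h7, zero_smul, zero_smul]
  have hterm : ∀ τ ∈ ls j, Dyn V T β γ 0 j
      (fun t p => c τ t • ((-1 : ℂ) ^ (β t * j) • Tw (T t) (β t) (γ t) j (II (T t) (β t) τ) p))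
      (c₀ τ • (gam V (Sm ζ) j * CrL V τ)) := by
    intro τ hτ
    have hl := mem_ls.1 hτ
    have he : ∀ᶠ t in atTop, (en (β t) τ : ℤ) = β t + wt τ :=
      (hβ.big.eventually_ge_atTop τ.length).mono fun t ht => en_eq ht
    by_cases hw : wt τ = d
    · have h1 : ∀ᶠ t in atTop, en (β t) τ = γ t := by
        filter_upwards [he, hd] with t h1 h2
        omega
      have h2 := (DynT_path (V := V) hS τ hβ).smul (hc τ hl)
      rw [hl] at h2
      refine h2.congr (Eventually.of_forall fun t => rfl) h1 ?_ rfl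
      filter_upwards [h1] with t h3 p
      rw [h3]
    · have h1 : ∀ᶠ t in atTop, c τ t = 0 := by
        filter_upwards [he, hd, hev τ hl] with t h1 h2 h3
        refine h3.2 ?_
        change γ t ≠ en (β t) τ
        omega
      have h2 : c₀ τ = 0 :=
        tendsto_nhds_unique (hc τ hl) (tendsto_const_nhds.congr' (h1.mono fun t h => h.symm))
      refine (dyn_zero V T β γ 0 j).congr (Eventually.of_forall fun t => rfl)
        (Eventually.of_forall fun t => rfl) ?_ (by rw [h2, zero_smul])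
      filter_upwards [h1] with t h3 p
      rw [h3, zero_smul]
  refine (Dyn.sum (ls j) hterm).congr (Eventually.of_forall fun t => rfl)
    (Eventually.of_forall fun t => rfl) ?_ ?_
  · filter_upwards [hX'] with t h1 p
    simp only [Tw, h1, Finset.mul_sum, Finset.sum_mul, Finset.smul_sum, mul_smul_comm,
      smul_mul_assoc]
    exact Finset.sum_congr rfl fun τ _ => smul_comm _ _ _
  · rw [hz', Finset.mul_sum]
    exact Finset.sum_congr rfl fun τ _ => (mul_smul_comm _ _ _).symm

end Pool.Agent.P.MP_53e370_gt.S
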