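import Pool.Agent.P.MP_53e370_gt.S.DynS

/-! Half turns of vertices, the mirror case. -/

namespace Pool.Agent.P.MP_53e370_gt.S

open Pool.Agent.P.MP_ac4909_gt Filter Topology

section Alg
variable {K : Type} [Field K] {A : Type} [Ring A] [Algebra K A] (T : TL K A)

theorem DynU_C_sig (s : Bool) (p : ℕ) : T.C p * T.sig s p = (-zp T.a (!s) ^ 3) • T.C p := by
  have h := mul_inv_cancel₀ T.ha
  rw [TL.sig, mul_add, mul_smul_comm, mul_smul_comm, mul_one, ← mul_assoc, T.loop,
    ← Algebra.smul_def, smul_smul, ← add_smul]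
  congr 1
  cases s <;> simp only [zp, dlt, Bool.not_true, Bool.not_false, if_true, Bool.false_eq_true,
    if_false]
  · linear_combination (-T.a⁻¹) * h
  · linear_combination (-T.a) * h

variable {T}

theorem DynU_nil (h : Ok T) (b q : ℕ) : Tw' T b b 0 (PP T b []) q = PP T b [] q := by
  have h1 := h.rot b q
  have h2 := (T.loc_f b).far' (T.loc_capC b) q (q + b) (q + b) le_rfl rfl
  simp only [Tw', PP, TL.crC, mul_one]
  rw [mul_assoc, ← h1, ← mul_assoc, ← h2, mul_assoc, T.zigC, mul_one]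

theorem DynU_up {b : ℕ} (h : Adm T.a (b + 1)) (q : ℕ) :
    Tw' T b (b + 1) 1 (T.f (b + 1)) q = (-T.a ^ (b + 3)) • (T.C (q + b) * T.f (b + 1) q) := by
  have h1 := (T.rot_f h).cap (T.loc_f _) (T.loc_f _) (q + b)
  have h2 := (T.loc_cupC b).far' (T.loc_f (b + 1)) q (q + 1) (q + b + (b + 1)) (by omega)
    (by omega)
  have h3 := (T.loc_f (b + 1)).natL false 1 q
  have h4 := (T.loc_cupC b).far' T.loc_C q q (q + b + b) (by omega) (by omega)
  have h5 := T.capSlC true b 1 q
  have h6 := T.hexL false 1 b 1 q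
  have h7 := T.jwmer_right h true q b le_rfl
  rw [T.capC_one, T.capC_one, Bool.not_true] at h5
  rw [add_comm 1 b, T.crC_one_one] at h6
  rw [Tw', ← h1, mul_assoc (T.capC _ _), ← h2, mul_assoc, mul_assoc, ← h3, T.capC_add,
    T.capC_one, mul_assoc, ← mul_assoc (T.C _), ← h4, mul_assoc, ← mul_assoc, T.zigC, one_mul,
    h6, ← mul_assoc, ← mul_assoc, DynU_C_sig, smul_mul_assoc, ← h5, smul_mul_assoc, mul_assoc, h7,
    mul_smul_comm, smul_smul]
  congr 1
  simp only [zp, Bool.not_false, if_true]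
  ring

theorem DynU_down {b : ℕ} (h : Adm T.a (b + 1)) (q : ℕ) :
    Tw' T (b + 1) b 1 (p1 T (b + 1) false) q = (kap T.a b * T.a⁻¹ ^ b) • T.f (b + 1) q := by
  have h1 := T.rot_f h q
  have h2 := (T.loc_f (b + 1)).far' (T.loc_capC (b + 1)) q (q + (b + 1)) (q + (b + 1)) le_rfl rfl
  have h3 := T.capC_add b 1 (q + (b + 1))
  have h4 := f_mul_crC T h true q b le_rfl
  have h5 : T.crC true 1 b q * T.crC false b 1 q = 1 := T.r2C false b 1 q
  have h6 : T.f (b + 1) q * T.crC false b 1 q = T.a⁻¹ ^ b • T.f (b + 1) q := by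
    have h7 := congrArg (fun x => T.a⁻¹ ^ b • (x * T.crC false b 1 q)) h4
    simp only [zp, if_true, mul_assoc, h5, mul_one, smul_mul_assoc, smul_smul] at h7
    rw [h7, ← mul_pow, inv_mul_cancel₀ T.ha, one_pow, one_smul]
  rw [T.capC_one] at h3
  simp only [Tw', p1, mul_smul_comm, smul_mul_assoc]
  rw [← mul_assoc, ← h3, mul_assoc (T.capC _ _), ← h1, ← mul_assoc, ← h2, mul_assoc (T.f _ _),
    T.zigC, mul_one, h6, smul_smul]

theorem DynU_fac {b b' c j : ℕ} {X Y : ℕ → A} (hY : T.Loc (b + 1) b' Y) (hX : T.Loc (b' + j) c X)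
    (q : ℕ) : Tw' T b c (j + 1) (fun p => X p * Y p) q =
      Tw' T b b' 1 Y q * (Tw' T b' c j X q * T.crC true 1 j (q + c)) := by
  have hP : T.Loc (b' + j + c) 0 fun p => T.capC c p * X p := (T.loc_capC c).mul (hX.padR c)
  have hZ : T.Loc (j + c) b' fun p => T.capC c (p + b') * X (p + b') * T.cupC b' p :=
    (hP.padL b').mul (((T.loc_cupC b').padR (j + c)).cast (by omega) (by omega) fun _ => rfl)
  have hW : T.Loc 1 (b + b') fun p => Y (p + b) * T.cupC b p :=
    (hY.padL b).mul (((T.loc_cupC b).padR 1).cast (by omega) (by omega) fun _ => rfl)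
  have h1 := hZ.natL false 1 q
  have h2 := T.hexL false j c 1 q
  have h3 := T.hexR false c j 1 q
  have h4 := (T.loc_crC true 1 j).natR false c q
  have h5 : T.crC false j 1 q * T.crC true 1 j q = 1 := T.r2C true 1 j q
  have h6 := hW.far' hZ q (q + 1) (q + b + b') (by omega) (by omega)
  have h7 := (T.loc_capC b').far' hP (q + b) (q + b + b' + b') (q + b) (by omega) (by omega)
  have h8 := T.zagC b' (q + b)
  rw [add_comm 1 j] at h4
  have h9 : T.crC false (j + c) 1 q * (T.crC false c j q * T.crC true 1 j (q + c)) =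
      T.crC false c (j + 1) q := by
    rw [h2, mul_assoc, ← mul_assoc (T.crC false c 1 _), ← h3, h4, ← mul_assoc, h5, one_mul]
  symm
  calc _ = T.capC b' (q + b) * (Y (q + b) * T.cupC b q) * (T.crC false b' 1 q *
        (T.capC c (q + b') * X (q + b') * T.cupC b' q)) *
        (T.crC false c j q * T.crC true 1 j (q + c)) := by simp only [Tw', mul_assoc]
    _ = T.capC b' (q + b) * (Y (q + b) * T.cupC b q *
        (T.capC c (q + 1 + b') * X (q + 1 + b') * T.cupC b' (q + 1))) *
        (T.crC false (j + c) 1 q * (T.crC false c j q * T.crC true 1 j (q + c))) := by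
        rw [h1]; simp only [mul_assoc]
    _ = T.capC b' (q + b) * (T.capC c (q + b + b' + b') * X (q + b + b' + b')) *
        T.cupC b' (q + b + b') * (Y (q + b) * T.cupC b q) * T.crC false c (j + 1) q := by
        rw [h6, h9]; simp only [mul_assoc]
    _ = _ := by
        rw [h7, mul_assoc (T.capC c _ * _), h8, mul_one]; simp only [Tw', mul_assoc]

theorem DynU_sum {I : Type} (s : Finset I) (k : I → K) (F : I → ℕ → A) (b c j q : ℕ) :
    Tw' T b c j (fun p => ∑ i ∈ s, k i • F i p) q = ∑ i ∈ s, k i • Tw' T b c j (F i) q := by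
  simp only [Tw', Finset.mul_sum, Finset.sum_mul, mul_smul_comm, smul_mul_assoc]

end Alg

variable {Rc : Type} [Ring Rc] [Algebra ℂ Rc] {V : Lv Rc}
  {R : ℕ → Type} [∀ t, Ring (R t)] [∀ t, Algebra ℂ (R t)] {T : ∀ t, TL ℂ (R t)}
  {β γ : ℕ → ℕ} {ζ : Circle} {j : ℕ} {X : ∀ t, ℕ → R t} {z : Rc}

theorem DynU_ext {x y : Rc} (n : ℕ)
    (h : ∀ σ : List Bool, σ.length = n → x * CrL V σ = y * CrL V σ) : x = y := by
  rw [← mul_one x, ← mul_one y, ← sum_CrL_AnL V n, Finset.mul_sum, Finset.mul_sum]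
  exact Finset.sum_congr rfl fun σ hσ => by
    rw [← mul_assoc, h σ (mem_ls.1 hσ), mul_assoc]

theorem DynU_LC_crC {n : ℕ} {y : Rc} (hy : LC V n 0 y) (s : Bool) (k : ℕ) :
    y * (Tc V).crC s k n 0 = (-1 : ℂ) ^ (k * n) • sh V y k := by
  refine DynU_ext (V := V) k fun σ hσ => DynU_ext (V := V) n fun τ hτ => ?_
  subst hσ hτ
  have h1 : y * CrL V τ * CrL V σ = CrL V σ * (y * CrL V τ) := hy.mul (LC_CrL V τ) (CrL V σ)
  rw [mul_assoc, mul_assoc, crC_CrL, mul_smul_comm, smul_mul_assoc, smul_mul_assoc, sh_CrL,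
    ← mul_assoc, h1, mul_assoc]

theorem DynU_ann_gam (V : Lv Rc) (ζ : Circle) (n : ℕ) (s : Bool) :
    ann V s * gam V (Sm ζ) (n + 1) =
      (Sm ζ).1 (ix s) (ix (!s)) • (gam V (Sm ζ) n * ann V (!s)) := by
  rw [← mul_one (ann V s * _), ← sum_cre_ann V, mul_add, ← mul_assoc, ← mul_assoc, ann_gam,
    ann_gam, smul_mul_assoc, smul_mul_assoc]
  cases s <;> simp [Sm, ix]

theorem DynU_one (V : Lv Rc) (hS : Seq T) (hβ : Mid T β ζ) (s : Bool) :
    Dyn V T (fun t => stp (β t) s) β 1 0 (fun t p => (-1 : ℂ) ^ β t •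
      Tw' (T t) (β t) (stp (β t) s) 1 (p1 (T t) (β t) s) p)
      ((Sm ζ).1 (ix s) (ix (!s)) • AnL V [!s]) := by
  have hb : Mid T (fun t => stp (β t) s) ζ := hβ.near hS (near_en hβ.big [s])
  have D := dyn_PP V hS hb [!s]
  have hz := Circle.coe_ne_zero ζ
  cases s with
  | false =>
    have hk := ((hb.kap hS).mul (hb.lim.inv₀ hz)).neg
    refine (D.smul hk).congr (.of_forall fun _ => rfl) ?_ ?_ ?_
    · filter_upwards [hβ.big.eventually_ge_atTop 1] with t ht
      simp only [en, stp, Bool.not_false, if_true, Bool.false_eq_true, if_false]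
      omega
    · filter_upwards [hβ.big.eventually_ge_atTop 1, hβ.adm 0] with t ht ha p
      obtain ⟨b, hb⟩ : ∃ b, β t = b + 1 := ⟨β t - 1, by omega⟩
      rw [hb] at ha ⊢
      have e : stp (b + 1) false = b := rfl
      have e' : PP (T t) b [!false] p = (T t).f (b + 1) p := (T t).f_idem ha p
      rw [e, e', DynU_down ha, smul_smul]
      congr 1
      rw [neg_pow (T t).a, mul_inv, ← inv_pow, ← inv_pow, inv_neg_one]
      ring
    · congr 1
      simp [Sm, ix]
  | true =>
    have hk := ((hβ.lim.mul (hS.lim.pow 3)).div (hβ.kap hS) (by norm_num)).neg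
    refine (D.smul hk).congr (.of_forall fun _ => rfl) (.of_forall fun _ => rfl) ?_ ?_
    · filter_upwards [hβ.adm 2] with t ha p
      have ha1 : Adm (T t).a (β t + 1) := ha.mono (by omega)
      have hk0 : kap (T t).a (β t) ≠ 0 := div_ne_zero (ha _ (by omega)) (ha _ (by omega))
      have e : stp (β t) true = β t + 1 := rfl
      have e1 : p1 (T t) (β t) true = (T t).f (β t + 1) := rfl
      have e2 : (T t).f (β t) p * (T t).C (p + β t) = (T t).C (p + β t) * (T t).f (β t) p :=
        (T t).jw_f_C (β t) p 0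
      have e3 : (T t).f (β t) p * (T t).f (β t + 1) p = (T t).f (β t + 1) p :=
        (T t).f_mul_f' (j := 0) ha1 (by omega) p
      have e4 : PP (T t) (β t + 1) [!true] p = (T t).f (β t) p *
          (kap (T t).a (β t) • ((T t).C (p + β t) * (T t).f (β t + 1) p)) := rfl
      rw [e, e1, e4, DynU_up ha1, mul_smul_comm, ← mul_assoc, e2, mul_assoc, e3, smul_smul,
        smul_smul]
      congr 1
      simp only [Pi.div_apply]
      rw [neg_pow (T t).a, pow_add]
      field_simp
    · congr 1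
      simp [Sm, ix]
      norm_num

theorem DynU_PP (V : Lv Rc) (hS : Seq T) (τ : List Bool) : ∀ {β : ℕ → ℕ}, Mid T β ζ →
    Dyn V T (fun t => en (β t) τ) β τ.length 0 (fun t p => (-1 : ℂ) ^ (β t * τ.length) •
      Tw' (T t) (β t) (en (β t) τ) τ.length (PP (T t) (β t) τ) p)
      (AnL V τ * gam V (Sm ζ) τ.length) := by
  induction τ with
  | nil =>
    intro β hβ
    refine (dyn_PP V hS hβ []).congr (.of_forall fun _ => rfl) (.of_forall fun _ => rfl)
      (.of_forall fun t p => ?_) (mul_one _).symm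
    simp only [List.length_nil, mul_zero, pow_zero, one_smul, en]
    exact (DynU_nil (hS.ok t) _ _).symm
  | cons s τ ih =>
    intro β hβ
    have hb : Mid T (fun t => stp (β t) s) ζ := hβ.near hS (near_en hβ.big [s])
    have hc : Mid T (fun t => en (stp (β t) s) τ) ζ := hb.near hS (near_en hb.big τ)
    have D1 := DynU_one V hS hβ s
    have D2 := (ih hb).padR hS hc 1
    have D3 := dyn_small hS hc ((cv_crC V hS true 1 τ.length).cast (add_comm _ _) rfl
      (fun _ _ => rfl) fun _ => rfl)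
    have D := (D1.mul hS (D2.mul hS D3)).smul (tendsto_const_nhds (x := (-1 : ℂ) ^ τ.length))
    refine D.congr (.of_forall fun _ => rfl) (.of_forall fun _ => rfl) ?_ ?_
    · filter_upwards [hβ.big.eventually_ge_atTop 1] with t ht p
      have e : PP (T t) (β t) (s :: τ) = fun p => PP (T t) (stp (β t) s) τ p * p1 (T t) (β t) s p :=
        rfl
      rw [e, List.length_cons, en, DynU_fac (loc_p1 _ _ _) (loc_PP _ _ _)]
      simp only [mul_smul_comm, smul_mul_assoc, smul_smul]
      congr 1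
      rw [← pow_add, ← pow_add, neg_one_pow_eq_pow_mod_two, neg_one_pow_eq_pow_mod_two (n := β t * _)]
      congr 1
      obtain ⟨b, hb⟩ : ∃ b, β t = b + 1 := ⟨β t - 1, by omega⟩
      rw [hb]
      cases s
      · congr 1
        simp only [stp, Bool.false_eq_true, if_false, Nat.add_sub_cancel]
        ring
      · have : τ.length + (stp (b + 1) true * τ.length + (b + 1)) =
            (b + 1) * (τ.length + 1) + 2 * τ.length := by
          simp only [stp, if_true]
          ring
        rw [this, Nat.add_mul_mod_self_left]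
    · have h1 : LC V τ.length 0 (AnL V τ * gam V (Sm ζ) τ.length) :=
        (LC_AnL V τ).mul (LC_gam V _ _)
      have h2 : AnL V [!s] * sh V (AnL V τ * gam V (Sm ζ) τ.length) 1 =
          AnL V τ * gam V (Sm ζ) τ.length * AnL V [!s] := AnL_sh _ [!s]
      have h5 : AnL V (s :: τ) = AnL V τ * ann V s := rfl
      have h3 : ((-1 : ℂ) ^ τ.length) * (-1) ^ τ.length = 1 := by rw [← mul_pow]; simp
      have h4 : AnL V [!s] = ann V (!s) := one_mul _
      rw [DynU_LC_crC h1, one_mul, mul_smul_comm, smul_smul, h3, one_smul, smul_mul_assoc, h2,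
        List.length_cons, h5, mul_assoc (AnL V τ) (ann V s), DynU_ann_gam, mul_smul_comm, h4,
        mul_assoc]

theorem dyn_Tw' (hS : Seq T) (hβ : Mid T β ζ) (hn : Near β γ) (hX : Dyn V T β γ j 0 X z)
    (hf : ∀ᶠ t in atTop, ∀ p, X t p * (T t).f (β t) p = X t p) :
    Dyn V T γ β j 0 (fun t p => (-1 : ℂ) ^ (β t * j) • Tw' (T t) (β t) (γ t) j (X t) p)
      (z * gam V (Sm ζ) j) := by
  obtain ⟨d, hd⟩ := hn
  have hent : ∀ τ : List Bool, ∃ (c : ℕ → ℂ) (c₀ : ℂ), τ.length = j →
      Tendsto c atTop (𝓝 c₀) ∧ z * CrL V τ = c₀ • (1 : Rc) ∧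
      ∀ᶠ t in atTop, (∀ p, (T t).f (γ t) p * X t p * II (T t) (β t) τ p =
        c t • (T t).f (en (β t) τ) p) ∧ (en (β t) τ ≠ γ t → c t = 0) := fun τ => by
    by_cases h : τ.length = j
    · obtain ⟨c, c₀, h1, h2, h3⟩ := hX.ent τ [] h rfl
      exact ⟨c, c₀, fun _ => ⟨h1, by simpa only [AnL, one_mul] using h2, h3⟩⟩
    · exact ⟨0, 0, fun h' => absurd h' h⟩
  choose c c₀ hc using hent
  have key : ∀ τ ∈ ls j, Dyn V T γ β j 0 (fun t p => c τ t • ((-1 : ℂ) ^ (β t * j) •
      Tw' (T t) (β t) (γ t) j (PP (T t) (β t) τ) p)) (c₀ τ • (AnL V τ * gam V (Sm ζ) j)) := by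
    intro τ hτ
    have hl := mem_ls.1 hτ
    obtain ⟨h1, -, h3⟩ := hc τ hl
    subst hl
    by_cases hw : wt τ = d
    · have he : ∀ᶠ t in atTop, en (β t) τ = γ t := by
        filter_upwards [hd, hβ.big.eventually_ge_atTop τ.length] with t ht ht'
        have := en_eq ht'
        omega
      refine ((DynU_PP V hS τ hβ).smul h1).congr he (.of_forall fun _ => rfl) ?_ rfl
      filter_upwards [he] with t ht p
      rw [ht]
    · have he : ∀ᶠ t in atTop, c τ t = 0 := by
        filter_upwards [hd, hβ.big.eventually_ge_atTop τ.length, h3] with t ht ht' h4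
        refine h4.2 fun h => hw ?_
        have := en_eq ht'
        omega
      have h0 : c₀ τ = 0 :=
        tendsto_nhds_unique h1 (tendsto_const_nhds.congr' (he.mono fun _ h => h.symm))
      refine (dyn_zero V T γ β _ _).congr (.of_forall fun _ => rfl) (.of_forall fun _ => rfl) ?_ ?_
      · filter_upwards [he] with t ht p
        rw [ht, zero_smul]
      · rw [h0, zero_smul]
  refine (Dyn.sum _ key).congr (.of_forall fun _ => rfl) (.of_forall fun _ => rfl) ?_ ?_
  · have hall := (Finset.eventually_all (ls j)).2 fun τ hτ => (hc τ (mem_ls.1 hτ)).2.2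
    filter_upwards [hall, hf, hX.comm] with t h1 h2 h3 p
    have e : X t = fun p => ∑ τ ∈ ls j, c τ t • PP (T t) (β t) τ p := by
      funext p
      rw [← h2 p, ← h3 p, ← complete (hS.ok t) (β t) j p, Finset.mul_sum]
      refine Finset.sum_congr rfl fun τ hτ => ?_
      rw [← mul_assoc, (h1 τ hτ).1 p, smul_mul_assoc, f_PP (hS.ok t)]
    rw [e, DynU_sum, Finset.smul_sum]
    exact Finset.sum_congr rfl fun τ _ => smul_comm _ _ _
  · have e : z = ∑ τ ∈ ls j, c₀ τ • AnL V τ := by
      rw [← mul_one z, ← sum_CrL_AnL V j, Finset.mul_sum]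
      refine Finset.sum_congr rfl fun τ hτ => ?_
      rw [← mul_assoc, (hc τ (mem_ls.1 hτ)).2.1, smul_mul_assoc, one_mul]
    rw [e, Finset.sum_mul]
    simp only [smul_mul_assoc]

end Pool.Agent.P.MP_53e370_gt.S
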