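import Pool.Agent.P.MP_53e370_gt.S.WLink

/-! The twist exponent of the doubled link modulo four. -/

namespace Pool.Agent.P.MP_53e370_gt.S

open Pool.Agent.P.MP_ac4909_gt Rev

variable {ι E α : Type} {L : List (Sl (Arc ι))}

theorem Ex_append (n : α → ℕ) (u w : List (Sl α)) : Ex n (u ++ w) = Ex n u + Ex n w := by
  simp [Ex]

theorem ExW_cons (n : α → ℕ) (s : Sl α) (w : List (Sl α)) : Ex n (s :: w) = ex n s + Ex n w := by
  simp [Ex]

theorem ExW_nil (n : α → ℕ) : Ex n [] = 0 := rfl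

theorem ExW_wid_nil (n : α → ℕ) : wid n [] = 0 := rfl

theorem ExW_wid_cons (n : α → ℕ) (x : α) (u : List α) : wid n (x :: u) = n x + wid n u := by
  simp [wid]

theorem ExW_wid_append (n : α → ℕ) (u v : List α) : wid n (u ++ v) = wid n u + wid n v := by
  simp [wid]

theorem ExW_wid_map {β : Type} (n : β → ℕ) (φ : α → β) (u : List α) :
    wid n (u.map φ) = wid (fun x => n (φ x)) u := by
  simp [wid, Function.comp_def]

theorem Ex_map {β : Type} (n : β → ℕ) (φ : α → β) (w : List (Sl α)) :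
    Ex n (w.map (Sl.map φ)) = Ex (fun x => n (φ x)) w := by
  induction w with
  | nil => rfl
  | cons s w ih =>
    rw [List.map_cons, ExW_cons, ExW_cons, ih]
    congr 1
    obtain ⟨l, g, r⟩ := s
    cases g <;> simp only [ex, Sl.map, Gen.map, ExW_wid_map]

/-- a difference of potentials telescopes along a run -/
theorem ExW_tele [Rev α] (f : Sl α → ℤ) (F : List α → ℤ)
    (h : ∀ s : Sl α, f s ≡ F s.tgt - F s.src [ZMOD 4]) {ρ σ : List α} {w : List (Sl α)}
    (hw : Run ρ w σ) : (w.map f).sum ≡ F σ - F ρ [ZMOD 4] := by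
  induction w generalizing ρ with
  | nil =>
    have e : ρ = σ := hw
    rw [e, sub_self]
    rfl
  | cons s w ih =>
    obtain ⟨rfl, h2⟩ := hw
    rw [List.map_cons, List.sum_cons]
    have e : F σ - F s.src = (F s.tgt - F s.src) + (F σ - F s.tgt) := by ring
    rw [e]
    exact (h s).add (ih h2)

/-- the potential used for a change of colours by even numbers -/
def ExW_pot (n : α → ℕ) (d : α → ℤ) : List α → ℤ
  | [] => 0
  | x :: ρ => n x * d x + 2 * n x * (ρ.map d).sum + ExW_pot n d ρ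

theorem ExW_pot_append (n : α → ℕ) (d : α → ℤ) (u v : List α) :
    ExW_pot n d (u ++ v) = ExW_pot n d u + ExW_pot n d v + 2 * wid n u * (v.map d).sum := by
  induction u with
  | nil => simp [ExW_pot, wid]
  | cons x u ih =>
    rw [List.cons_append, ExW_pot, ExW_pot, ih, ExW_wid_cons, List.map_append, List.sum_append]
    push_cast
    ring

theorem ExW_wid_add {n n' : α → ℕ} {d : α → ℤ} (h : ∀ x, (n' x : ℤ) = n x + 2 * d x)
    (u : List α) : (wid n' u : ℤ) = wid n u + 2 * (u.map d).sum := by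
  induction u with
  | nil => simp [wid]
  | cons x u ih =>
    rw [ExW_wid_cons, ExW_wid_cons, List.map_cons, List.sum_cons]
    push_cast
    rw [ih, h]
    ring

theorem ExW_sub (n n' : α → ℕ) (w : List (Sl α)) :
    (w.map fun s => ex n s - ex n' s).sum = Ex n w - Ex n' w := by
  induction w with
  | nil => rfl
  | cons s w ih =>
    rw [List.map_cons, List.sum_cons, ih, ExW_cons, ExW_cons]
    ring

theorem Ex_par [Rev α] {w : List (Sl α)} (hw : Run [] w []) {n n' : α → ℕ}
    (hn : ∀ x, n (rev x) = n x) (hn' : ∀ x, n' (rev x) = n' x) (h : ∀ x, n x % 2 = n' x % 2) :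
    Ex n w ≡ Ex n' w [ZMOD 4] := by
  obtain ⟨d, hd, hdr⟩ : ∃ d : α → ℤ, (∀ x, (n' x : ℤ) = n x + 2 * d x) ∧ ∀ x, d (rev x) = d x :=
    ⟨fun x => ((n' x : ℤ) - n x) / 2, fun x => by
      have := h x
      show (n' x : ℤ) = n x + 2 * (((n' x : ℤ) - n x) / 2)
      omega, fun x => by simp only [hn, hn']⟩
  have h1 := ExW_tele (fun s => ex n s - ex n' s) (ExW_pot n d) (fun s => ?_) hw
  · rw [ExW_sub, sub_self] at h1
    exact (Int.modEq_iff_dvd.2 (by simpa using (Int.modEq_iff_dvd.1 h1.symm))).symm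
  · obtain ⟨l, g, r⟩ := s
    refine Int.modEq_iff_dvd.2 ?_
    cases g with
    | cup o =>
      refine ⟨2 * n o * d o + 2 * wid n l * d o + n o * (r.map d).sum + d o ^ 2 +
        n o * (l.map d).sum + 2 * d o * (l.map d).sum, ?_⟩
      simp only [ex, Sl.src, Sl.tgt, Gen.src, Gen.tgt, ExW_pot_append, ExW_pot, hd,
        ExW_wid_add hd, ExW_wid_append, ExW_wid_cons, ExW_wid_nil, hn, hdr, List.map_cons,
        List.map_nil, List.sum_cons, List.sum_nil]
      push_cast
      ring
    | cap o =>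
      refine ⟨-(n o * (r.map d).sum) + d o ^ 2 +
        n o * (l.map d).sum + 2 * d o * (l.map d).sum, ?_⟩
      simp only [ex, Sl.src, Sl.tgt, Gen.src, Gen.tgt, ExW_pot_append, ExW_pot, hd,
        ExW_wid_add hd, ExW_wid_append, ExW_wid_cons, ExW_wid_nil, hn, hdr, List.map_cons,
        List.map_nil, List.sum_cons, List.sum_nil]
      push_cast
      ring
    | cr x y b =>
      refine ⟨if b then d x * n y + d x * d y else -(n x * d y) - d x * d y, ?_⟩
      simp only [ex, Sl.src, Sl.tgt, Gen.src, Gen.tgt, ExW_pot_append, ExW_pot, hd,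
        ExW_wid_append, ExW_wid_cons, ExW_wid_nil, List.map_cons,
        List.map_nil, List.sum_cons, List.sum_nil]
      push_cast
      cases b
      · simp only [Bool.false_eq_true, if_false]
        ring
      · simp only [if_true]
        ring

theorem ExW_adj_sum (n : α → ℕ) (w : List (Sl α)) :
    (w.map fun s => ex n (adjSl s) + ex n s).sum = Ex n (adj w) + Ex n w := by
  induction w with
  | nil => rfl
  | cons s w ih =>
    have e : adj (s :: w) = adj w ++ [adjSl s] := by simp [adj]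
    rw [List.map_cons, List.sum_cons, ih, e, Ex_append, ExW_cons, ExW_cons, ExW_nil]
    ring

theorem Ex_adj [Rev α] {ρ σ : List α} {w : List (Sl α)} (hw : Run ρ w σ) {n : α → ℕ}
    (hn : ∀ x, n (rev x) = n x) :
    Ex n (adj w) + Ex n w ≡ (wid n σ : ℤ) - wid n ρ [ZMOD 4] := by
  rw [← ExW_adj_sum]
  refine ExW_tele _ (fun u => (wid n u : ℤ)) (fun s => ?_) hw
  obtain ⟨l, g, r⟩ := s
  refine Int.modEq_iff_dvd.2 ?_
  cases g with
  | cup o =>
    obtain ⟨c, hc⟩ := Int.even_mul_pred_self (n o)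
    refine ⟨-c - n o * wid n l, ?_⟩
    simp only [ex, adjSl, adjG, Sl.src, Sl.tgt, Gen.src, Gen.tgt, ExW_wid_append, ExW_wid_cons,
      ExW_wid_nil, hn]
    push_cast
    linear_combination (-2) * hc
  | cap o =>
    obtain ⟨c, hc⟩ := Int.even_mul_succ_self (n o)
    refine ⟨-c - n o * wid n l, ?_⟩
    simp only [ex, adjSl, adjG, Sl.src, Sl.tgt, Gen.src, Gen.tgt, ExW_wid_append, ExW_wid_cons,
      ExW_wid_nil, hn]
    push_cast
    linear_combination (-2) * hc
  | cr x y b =>
    refine ⟨0, ?_⟩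
    simp only [ex, adjSl, adjG, Sl.src, Sl.tgt, Gen.src, Gen.tgt, ExW_wid_append, ExW_wid_cons,
      ExW_wid_nil]
    push_cast
    cases b
    · simp only [Bool.false_eq_true, if_false, Bool.not_false, if_true]
      ring
    · simp only [Bool.false_eq_true, if_false, Bool.not_true, if_true]
      ring

theorem ExW_cross1 (n : α → ℕ) (s : Bool) (y : α) (r l xs : List α) :
    Ex n (cross1 s y r l xs) = (if s then 1 else -1) * (wid n xs : ℤ) * n y := by
  induction xs generalizing l with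
  | nil => simp [cross1, Ex, wid]
  | cons x xs ih =>
    rw [cross1, Ex_append, ih, ExW_cons, ExW_nil, ExW_wid_cons]
    push_cast
    cases s
    · simp only [ex, Bool.false_eq_true, if_false]
      ring
    · simp only [ex, if_true]
      ring

theorem ExW_cross (n : α → ℕ) (s : Bool) (xs r l ys : List α) :
    Ex n (cross s xs r l ys) = (if s then 1 else -1) * (wid n xs : ℤ) * wid n ys := by
  induction ys generalizing l with
  | nil => simp [cross, Ex, wid]
  | cons y ys ih =>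
    rw [cross, Ex_append, ih, ExW_cross1, ExW_wid_cons]
    push_cast
    ring

theorem ExW_ringHalf [Rev α] (n : α → ℕ) (M l : List α) (x : α) (r : List α) (o : α)
    (ho : n (rev o) = n o) :
    Ex n (ringHalf M l x r o) = (n o : ℤ) ^ 2 + 2 * n o * n x + 2 * n o * wid n M := by
  simp only [ringHalf, ExW_cons, Ex_append, ExW_cross, ExW_nil, ex, ExW_wid_cons, ExW_wid_nil, ho,
    Bool.false_eq_true, if_false, if_true]
  push_cast
  ring

theorem ExW_zone (c : ι → ℕ) (κ : E → ℕ) (ρ : List E) :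
    wid (fun x : Arc (ι ⊕ E) => Sum.elim c κ x.name) (zone ι ρ) = 2 * (ρ.map κ).sum := by
  induction ρ with
  | nil => rfl
  | cons x ρ ih =>
    rw [zone, ExW_wid_append, ih, ExW_wid_cons, ExW_wid_cons, ExW_wid_nil, List.map_cons,
      List.sum_cons]
    show 2 * (ρ.map κ).sum + (κ x + (κ x + 0)) = _
    ring

theorem ExW_zoneAll (c : ι → ℕ) (κ : E → ℕ) (P : List (NSl E)) :
    wid (fun x : Arc (ι ⊕ E) => Sum.elim c κ x.name) (zoneAll ι P) =
      2 * ((P.flatMap NSl.tgt).map κ).sum := by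
  induction P with
  | nil => rfl
  | cons s P ih =>
    rw [zoneAll, ExW_wid_append, ih, ExW_zone, List.flatMap_cons, List.map_append, List.sum_append]
    ring

theorem ExW_rings (c : ι → ℕ) (κ : E → ℕ) (arc : E → Arc ι) (M : List (Arc (ι ⊕ E)))
    (hM : 2 ∣ wid (fun x : Arc (ι ⊕ E) => Sum.elim c κ x.name) M) (l ρ : List E) :
    Ex (fun x : Arc (ι ⊕ E) => Sum.elim c κ x.name) (rings arc M l ρ) ≡
      (ρ.map fun e => (κ e : ℤ) ^ 2 + 2 * κ e * c (arc e).name).sum [ZMOD 4] := by
  induction ρ generalizing l with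
  | nil => rfl
  | cons x ρ ih =>
    obtain ⟨t, ht⟩ := hM
    rw [rings, Ex_append, ExW_ringHalf _ _ _ _ _ _ rfl, List.map_cons, List.sum_cons, add_comm,
      ExW_wid_append, ExW_zone, ht]
    refine Int.ModEq.add ?_ (ih _)
    refine Int.modEq_iff_dvd.2 ⟨-(κ x * (t + ((ρ.map κ).sum : ℕ))), ?_⟩
    simp only [rgA, bigA, Sum.elim_inl, Sum.elim_inr]
    push_cast
    ring

theorem ExW_top (c : ι → ℕ) (κ : E → ℕ) (arc : E → Arc ι) (P : List (NSl E))
    (M : List (Arc (ι ⊕ E))) (hM : 2 ∣ wid (fun x : Arc (ι ⊕ E) => Sum.elim c κ x.name) M) :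
    Ex (fun x : Arc (ι ⊕ E) => Sum.elim c κ x.name) (top arc M P) ≡
      Ex (fun x : Arc ι => c x.name) (P.map (NSl.sl arc)) +
        ((P.flatMap NSl.tgt).map fun e => (κ e : ℤ) ^ 2 + 2 * κ e * c (arc e).name).sum
      [ZMOD 4] := by
  induction P generalizing M with
  | nil => rfl
  | cons s P ih =>
    have h1 := ih (M ++ zone ι s.tgt) (by
      rw [ExW_wid_append, ExW_zone]
      exact dvd_add hM (dvd_mul_right _ _))
    have h2 := ExW_rings c κ arc M hM [] s.tgt
    have h3 : ex (fun x : Arc (ι ⊕ E) => Sum.elim c κ x.name) (shl M (s.sl (bigA arc))) ≡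
        ex (fun x : Arc ι => c x.name) (s.sl arc) [ZMOD 4] := by
      obtain ⟨t, ht⟩ := hM
      obtain ⟨l, g, r⟩ := s
      refine Int.modEq_iff_dvd.2 ?_
      cases g with
      | cup e₁ e₂ =>
        refine ⟨-(c (arc e₁).name * t), ?_⟩
        simp only [ex, shl, NSl.sl, NGen.gen, ExW_wid_append, ExW_wid_map, ht, bigA, Sum.elim_inl]
        push_cast
        ring
      | cap e₁ e₂ =>
        refine ⟨-(c (arc e₁).name * t), ?_⟩
        simp only [ex, shl, NSl.sl, NGen.gen, ExW_wid_append, ExW_wid_map, ht, bigA, Sum.elim_inl]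
        push_cast
        ring
      | cr b x y y' x' =>
        refine ⟨0, ?_⟩
        simp only [ex, shl, NSl.sl, NGen.gen, bigA, Sum.elim_inl, sub_self, mul_zero]
    rw [top, ExW_cons, Ex_append, List.map_cons, ExW_cons, List.flatMap_cons, List.map_append,
      List.sum_append]
    refine (h3.add (h2.add h1)).trans ?_
    rw [add_left_comm (List.sum _), add_assoc]

theorem ExW_rows [Fintype E] (Q : Prog L E) {M : Type} [AddCommMonoid M] (g : E → M) :
    ((Q.pr.flatMap NSl.tgt).map g).sum = ∑ e, g e := by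
  classical
  rw [← List.sum_toFinset g Q.nodup]
  exact Finset.sum_congr (Finset.eq_univ_of_forall fun e => List.mem_toFinset.2 (Q.all e))
    fun _ _ => rfl

theorem ExW_zero (w : List (Sl α)) : Ex (fun _ => 0) w = 0 := by
  induction w with
  | nil => rfl
  | cons s w ih =>
    rw [ExW_cons, ih]
    obtain ⟨l, g, r⟩ := s
    cases g <;> simp [ex]

theorem Ex_W [Fintype E] (Q : Prog L E) (hL : Run [] L []) (k kb π : ι → ℕ) (κ : E → ℕ)
    (hk : ∀ i, k i % 2 = π i % 2) (hkb : ∀ i, kb i % 2 = 0) :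
    Ex (fun x => cl k kb κ x.name) Q.W ≡ Ex (fun x : Arc ι => π x.name) L +
      2 * ∑ e, (κ e : ℤ) * (1 + π (Q.nm e)) [ZMOD 4] := by
  have e1 : (fun x : Arc (ι ⊕ E) => cl k kb κ (relab true x).name) =
      fun x : Arc (ι ⊕ E) => Sum.elim k κ x.name := by
    funext x
    obtain ⟨a | a, b⟩ := x <;> rfl
  have e2 : (fun x : Arc (ι ⊕ E) => cl k kb κ (relab false x).name) =
      fun x : Arc (ι ⊕ E) => Sum.elim kb κ x.name := by
    funext x
    obtain ⟨a | a, b⟩ := x <;> rfl
  have h1 := ExW_top k κ Q.arc Q.pr [] (dvd_zero 2)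
  have h2 := ExW_top kb κ Q.arc Q.pr [] (dvd_zero 2)
  have h3 := Ex_adj (run_top Q.run Q.ok []) (n := fun x : Arc (ι ⊕ E) => Sum.elim kb κ x.name)
    fun _ => rfl
  have h4 := Ex_par hL (n := fun x : Arc ι => k x.name) (n' := fun x : Arc ι => π x.name)
    (fun _ => rfl) (fun _ => rfl) fun x => hk x.name
  have h5 := Ex_par hL (n := fun x : Arc ι => kb x.name) (n' := fun _ => 0)
    (fun _ => rfl) (fun _ => rfl) fun x => hkb x.name
  rw [Q.map, ExW_rows] at h1 h2
  rw [List.nil_append, List.nil_append, List.map_nil, ExW_zoneAll, ExW_rows, ExW_wid_nil] at h3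
  rw [ExW_zero] at h5
  have h6 : (4 : ℤ) ∣ 2 * ∑ e, (κ e : ℤ) * (1 + π (Q.nm e)) -
      (∑ e, ((κ e : ℤ) ^ 2 + 2 * κ e * k (Q.arc e).name) -
        ∑ e, ((κ e : ℤ) ^ 2 + 2 * κ e * kb (Q.arc e).name) + ((2 * ∑ e, κ e : ℕ) : ℤ)) := by
    push_cast
    rw [Finset.mul_sum, Finset.mul_sum, ← Finset.sum_sub_distrib, ← Finset.sum_add_distrib,
      ← Finset.sum_sub_distrib]
    refine Finset.dvd_sum fun e _ => ?_
    obtain ⟨t, ht⟩ : (2 : ℤ) ∣ (π (Q.nm e) : ℤ) - k (Q.nm e) + kb (Q.nm e) := by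
      have := hk (Q.nm e)
      have := hkb (Q.nm e)
      omega
    refine ⟨κ e * t, ?_⟩
    simp only [Prog.nm] at ht ⊢
    linear_combination (2 * (κ e : ℤ)) * ht
  rw [Prog.W, Ex_append, adj_map, Ex_map, Ex_map, e1, e2]
  rw [Int.modEq_iff_dvd] at h1 h2 h3 h4 h5 ⊢
  have h7 := dvd_add (dvd_add (dvd_sub (dvd_sub (dvd_add h1 h3) h2) h5) h4) h6
  refine (congrArg (fun z : ℤ => (4 : ℤ) ∣ z) ?_).mp h7
  push_cast
  ring

end Pool.Agent.P.MP_53e370_gt.S
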