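import Pool.Agent.P.MP_53e370_gt.S.ADefs

/-! The roots of unity `bb t` of order `2 p`, and evaluation of rational functions at them. -/

namespace Pool.Agent.P.MP_53e370_gt.S

open Filter Topology Pool.Agent.P.MP_ac4909_gt

/-- the degree of `bb t` -/
def dgr (t : ℕ) : ℕ := 4 * 5 ^ t

theorem dgr_pos (t : ℕ) : 0 < dgr t := by unfold dgr; positivity

theorem dgr_tendN : Tendsto dgr atTop atTop :=
  (tendsto_pow_atTop_atTop_of_one_lt (by norm_num : 1 < 5)).const_mul_atTop' (by norm_num : 0 < 4)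

theorem dgr_tend : Tendsto (fun t => (dgr t : ℝ)) atTop atTop :=
  tendsto_natCast_atTop_atTop.comp dgr_tendN

theorem dgr_pp (t : ℕ) : 5 * dgr t = 4 * pp t := by unfold dgr pp; ring

theorem pp_mod (t : ℕ) : pp t % 4 = 1 := by
  unfold pp
  rw [Nat.pow_mod]
  norm_num

theorem bb_prim (t : ℕ) : IsPrimitiveRoot (bb t) (2 * pp t) := by
  obtain ⟨m, hm⟩ : ∃ m, pp t = 4 * m + 1 := ⟨pp t / 4, by have := pp_mod t; omega⟩
  have hc : (2 * m + 1).Coprime (2 * pp t) := by
    refine Nat.Coprime.mul_right (by simp) ?_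
    rw [hm, show 4 * m + 1 = (2 * m + 1) + 2 * m by ring, Nat.coprime_self_add_right]
    simp
  have h := Complex.isPrimitiveRoot_exp_of_coprime _ _ (by omega) hc
  have hp : (pp t : ℂ) ≠ 0 := by exact_mod_cast (by omega : pp t ≠ 0)
  have e : bb t = Complex.exp (2 * Real.pi * Complex.I *
      (((2 * m + 1 : ℕ) : ℂ) / ((2 * pp t : ℕ) : ℂ))) := by
    have hm' : (pp t : ℂ) = 4 * m + 1 := by exact_mod_cast hm
    rw [bb, a1, neg_mul_neg]
    nth_rewrite 1 [← Complex.exp_pi_div_two_mul_I]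
    rw [← Complex.exp_add]
    congr 1
    push_cast
    field_simp
    rw [hm']
    ring
  rwa [e]

theorem aeval_bb_ne {p : Polynomial ℚ} (hp : p ≠ 0) {t : ℕ} (h : p.natDegree < dgr t) :
    Polynomial.aeval (bb t) p ≠ 0 := by
  intro h0
  have h1 := Polynomial.natDegree_le_of_dvd (minpoly.dvd ℚ (bb t) h0) hp
  have h2 := pp_mod t
  rw [← Polynomial.cyclotomic_eq_minpoly_rat (bb_prim t) (by omega),
    Polynomial.natDegree_cyclotomic, Nat.totient_mul (by
      rw [pp]; exact Nat.Coprime.pow_right _ (by norm_num)), Nat.totient_two, pp,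
    Nat.totient_prime_pow_succ Nat.prime_five] at h1
  unfold dgr at h
  omega

/-- a nontrivial rational combination of distinct powers with small exponents does not vanish -/
theorem sum_zpow_bb_ne {σ : Type} (S : Finset σ) (c : σ → ℚ) (e : σ → ℤ) (t : ℕ)
    (hc : ∃ x ∈ S, c x ≠ 0) (hinj : Set.InjOn e S) (he : ∀ x ∈ S, 2 * |e x| < dgr t) :
    ∑ x ∈ S, (c x : ℂ) * bb t ^ e x ≠ 0 := by
  classical
  obtain ⟨x0, hx0, hc0⟩ := hc
  obtain ⟨r, hr⟩ : ∃ r : ℕ, r = (dgr t - 1) / 2 := ⟨_, rfl⟩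
  have he' : ∀ x ∈ S, -(r : ℤ) ≤ e x ∧ e x ≤ r := fun x hx => by
    have := he x hx
    refine abs_le.1 ?_
    omega
  set p : Polynomial ℚ := ∑ x ∈ S, Polynomial.monomial (e x + r).toNat (c x) with hp
  have hp0 : p ≠ 0 := by
    intro h
    apply hc0
    have h1 : p.coeff (e x0 + r).toNat = c x0 := by
      rw [hp, Polynomial.finsetSum_coeff, Finset.sum_eq_single x0]
      · simp
      · intro y hy hne
        rw [Polynomial.coeff_monomial, if_neg]
        intro h2
        have h3 := he' y hy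
        have h4 := he' x0 hx0
        exact hne (hinj hy hx0 (by omega))
      · intro h2; exact absurd hx0 h2
    rw [← h1, h, Polynomial.coeff_zero]
  have hdeg : p.natDegree < dgr t := by
    have h0 := dgr_pos t
    refine lt_of_le_of_lt (Polynomial.natDegree_sum_le_of_forall_le (n := 2 * r) _ _
      fun x hx => (Polynomial.natDegree_monomial_le _).trans ?_) (by omega)
    have := he' x hx
    omega
  intro h
  apply aeval_bb_ne hp0 (t := t) hdeg
  have h1 : Polynomial.aeval (bb t) p = (∑ x ∈ S, (c x : ℂ) * bb t ^ e x) * bb t ^ (r : ℤ) := by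
    rw [hp, map_sum, Finset.sum_mul]
    refine Finset.sum_congr rfl (fun x hx => ?_)
    have h2 := he' x hx
    rw [Polynomial.aeval_monomial, mul_assoc, ← zpow_add₀ (bb_ne t), ← zpow_natCast,
      Int.toNat_of_nonneg (by omega)]
    rfl
  rw [h1, h, zero_mul]

theorem root_ev_lt (n : ℕ) : ∀ᶠ t : ℕ in atTop, n < dgr t := dgr_tendN.eventually_gt_atTop n

theorem exists_theta : ∃ θ : RatFunc ℚ →+* Germ (atTop : Filter ℕ) ℂ, ∀ p : Polynomial ℚ,
    θ (algebraMap (Polynomial ℚ) (RatFunc ℚ) p) =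
      ((fun t => Polynomial.aeval (bb t) p : ℕ → ℂ) : Germ atTop ℂ) := by
  let φ : Polynomial ℚ →+* Germ (atTop : Filter ℕ) ℂ := (Germ.coeRingHom atTop).comp
    (RingHom.pi fun t => (Polynomial.aeval (bb t) : Polynomial ℚ →ₐ[ℚ] ℂ).toRingHom)
  have hφ : ∀ p, φ p = ((fun t => Polynomial.aeval (bb t) p : ℕ → ℂ) : Germ atTop ℂ) :=
    fun _ => rfl
  have hu : ∀ y : nonZeroDivisors (Polynomial ℚ), IsUnit (φ y) := by
    intro y
    refine IsUnit.of_mul_eq_one
      ((fun t => (Polynomial.aeval (bb t) (y : Polynomial ℚ))⁻¹ : ℕ → ℂ) : Germ atTop ℂ) ?_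
    rw [hφ, ← Germ.coe_mul, ← Germ.coe_one, Germ.coe_eq]
    filter_upwards [root_ev_lt (y : Polynomial ℚ).natDegree] with t ht
    exact mul_inv_cancel₀ (aeval_bb_ne (nonZeroDivisors.coe_ne_zero y) ht)
  exact ⟨IsLocalization.lift hu, fun p => (IsLocalization.lift_eq hu p).trans (hφ p)⟩

/-- evaluation of a rational function at `bb t`, as a germ at `t = ∞` -/
noncomputable def theta : RatFunc ℚ →+* Germ (atTop : Filter ℕ) ℂ := exists_theta.choose

theorem theta_poly (p : Polynomial ℚ) : theta (algebraMap (Polynomial ℚ) (RatFunc ℚ) p) =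
    ((fun t => Polynomial.aeval (bb t) p : ℕ → ℂ) : Germ atTop ℂ) := exists_theta.choose_spec p

theorem root_theta_pow (n : ℕ) :
    theta (RatFunc.X ^ n) = ((fun t => bb t ^ n : ℕ → ℂ) : Germ atTop ℂ) := by
  rw [← RatFunc.algebraMap_X, ← map_pow, theta_poly]
  simp

theorem theta_X_zpow (n : ℤ) :
    theta (RatFunc.X ^ n) = ((fun t => bb t ^ n : ℕ → ℂ) : Germ atTop ℂ) := by
  obtain ⟨m, rfl | rfl⟩ := n.eq_nat_or_neg
  · simp only [zpow_natCast]
    exact root_theta_pow m
  · have h1 : theta (RatFunc.X ^ (-(m : ℤ))) * theta (RatFunc.X ^ m) = 1 := by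
      rw [← map_mul, zpow_neg, zpow_natCast, inv_mul_cancel₀ (pow_ne_zero _ RatFunc.X_ne_zero),
        map_one]
    have h2 : theta (RatFunc.X ^ m) * ((fun t => bb t ^ (-(m : ℤ)) : ℕ → ℂ) : Germ atTop ℂ) =
        1 := by
      rw [root_theta_pow, ← Germ.coe_mul, ← Germ.coe_one]
      congr 1
      funext t
      rw [Pi.mul_apply, zpow_neg, zpow_natCast, mul_inv_cancel₀ (pow_ne_zero _ (bb_ne t))]
      rfl
    exact left_inv_eq_right_inv h1 h2

end Pool.Agent.P.MP_53e370_gt.S
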