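import Pool.Agent.P.MP_53e370_gt.S.TDefs

/-! Existence and elementary properties of named programs. -/

namespace Pool.Agent.P.MP_53e370_gt.S

open Pool.Agent.P.MP_ac4909_gt Rev

variable {ι E α : Type} {L : List (Sl (Arc ι))}

theorem Prog_map_eq (k : E → α) (l : List (E × E)) (h : ∀ z ∈ l, k z.2 = k z.1) :
    (l.map Prod.snd).map k = (l.map Prod.fst).map k := by
  rw [List.map_map, List.map_map]
  exact List.map_congr_left h

theorem Prog_prod_flat {M β : Type} [CommMonoid M] (d : E → M) (f : β → List E) (P : List β) :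
    (P.map fun s => ((f s).map d).prod).prod = ((P.flatMap f).map d).prod := by
  induction P with
  | nil => rfl
  | cons s P ih => rw [List.map_cons, List.prod_cons, ih, List.flatMap_cons, List.map_append,
      List.prod_append]

theorem Prog.exists_base (Q : Prog L E) (hL : IsFramedLink L) :
    ∃ base : ι → E, ∀ i, Q.nm (base i) = i := by
  have h : ∀ i, ∃ e, Q.nm e = i := by
    intro i
    obtain ⟨s, hs, b, hb⟩ := hL.2.1 i
    rw [← Q.map] at hs
    obtain ⟨⟨l, g, r⟩, -, rfl⟩ := List.mem_map.1 hs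
    cases g with
    | cup e₁ e₂ => exact ⟨e₁, congrArg Arc.name (Gen.cup.inj hb)⟩
    | cap e₁ e₂ => cases hb
    | cr c x y y' x' => cases hb
  choose base hb using h
  exact ⟨base, hb⟩

theorem Prog.okc (Q : Prog L E) (F : ι → α) : ∀ s ∈ Q.pr, s.okc fun e => F (Q.nm e) := by
  rintro ⟨l, g, r⟩ hs
  obtain ⟨h1, h2⟩ := Q.ok _ hs
  refine ⟨fun z hz => congrArg (fun a : Arc ι => F a.name) (h1 z hz), ?_⟩
  cases g with
  | cup e₁ e₂ =>
    have h3 := congrArg (fun a : Arc ι => F a.name) (show Q.arc e₂ = rev (Q.arc e₁) from h2)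
    exact h3
  | cap e₁ e₂ =>
    have h3 := congrArg (fun a : Arc ι => F a.name) (show Q.arc e₂ = rev (Q.arc e₁) from h2)
    exact h3
  | cr c x y y' x' =>
    exact ⟨congrArg (fun a : Arc ι => F a.name) h2.1, congrArg (fun a : Arc ι => F a.name) h2.2⟩

theorem NRun.flatMap {ρ : List E} {P : List (NSl E)} (h : NRun ρ P) :
    P.flatMap NSl.src = ρ ++ P.flatMap NSl.tgt := by
  induction P generalizing ρ with
  | nil => rw [show ρ = [] from h]; rfl
  | cons s P ih => rw [List.flatMap_cons, List.flatMap_cons, ih h.2, h.1]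

theorem Prog.flatMap_src (Q : Prog L E) : Q.pr.flatMap NSl.src = Q.pr.flatMap NSl.tgt :=
  Q.run.flatMap

theorem NSl.okc.wid {k : E → ℕ} {s : NSl E} (h : s.okc k) :
    wid k (s.l.map Prod.snd) = wid k (s.l.map Prod.fst) ∧
      wid k (s.r.map Prod.snd) = wid k (s.r.map Prod.fst) := by
  have h1 := Prog_map_eq k s.l fun z hz => h.1 z (List.mem_append_left _ hz)
  have h2 := Prog_map_eq k s.r fun z hz => h.1 z (List.mem_append_right _ hz)
  exact ⟨congrArg List.sum h1, congrArg List.sum h2⟩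

theorem NSl.ok.src_sl {arc : E → Arc ι} {s : NSl E} (h : s.ok arc) :
    (s.sl arc).src = s.src.map arc := by
  obtain ⟨l, g, r⟩ := s
  have h2 : (g.gen arc).src = g.src.map arc := by
    cases g with
    | cup e₁ e₂ => rfl
    | cap e₁ e₂ => exact congrArg (fun t => [arc e₁, t]) (Eq.symm h.2)
    | cr c x y y' x' => rfl
  simp only [Sl.src, NSl.sl, NSl.src, List.map_append, List.map_map, h2]
  rfl

theorem NSl.ok.tgt_sl {arc : E → Arc ι} {s : NSl E} (h : s.ok arc) :
    (s.sl arc).tgt = s.tgt.map arc := by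
  obtain ⟨l, g, r⟩ := s
  have h2 : (g.gen arc).tgt = g.tgt.map arc := by
    cases g with
    | cup e₁ e₂ => exact congrArg (fun t => [arc e₁, t]) (Eq.symm h.2)
    | cap e₁ e₂ => rfl
    | cr c x y y' x' => exact congrArg₂ (fun t u => [t, u]) h.2.2.symm h.2.1.symm
  have h3 := Prog_map_eq arc l fun z hz => h.1 z (List.mem_append_left _ hz)
  have h4 := Prog_map_eq arc r fun z hz => h.1 z (List.mem_append_right _ hz)
  simp only [Sl.tgt, NSl.sl, NSl.tgt, List.map_append, h2, h3, h4]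
  simp only [List.map_map]
  rfl

/-- a list of pairs with distinct keys is part of the graph of a function -/
theorem exists_fun_of_nodup {D : Type} [Nonempty D] (ℓ : List (E × D))
    (h : (ℓ.map Prod.fst).Nodup) : ∃ F : E → D, ∀ z ∈ ℓ, F z.1 = z.2 := by
  classical
  refine ⟨fun e => if h : ∃ z ∈ ℓ, z.1 = e then h.choose.2 else Classical.arbitrary D,
    fun z hz => ?_⟩
  have h1 : ∃ y ∈ ℓ, y.1 = z.1 := ⟨z, hz, rfl⟩
  show (if h : ∃ y ∈ ℓ, y.1 = z.1 then h.choose.2 else Classical.arbitrary D) = z.2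
  rw [dif_pos h1, List.inj_on_of_nodup_map h h1.choose_spec.1 hz h1.choose_spec.2]

/-- a product over all edges, row by row -/
theorem Prog.prod_rows [Fintype E] {M : Type} [CommMonoid M] (Q : Prog L E) (d : E → M) :
    (Q.pr.map fun s => (s.tgt.map d).prod).prod = ∏ e, d e := by
  classical
  rw [Prog_prod_flat, ← List.prod_toFinset d Q.nodup]
  exact Finset.prod_congr (Finset.eq_univ_iff_forall.2 fun e => List.mem_toFinset.2 (Q.all e))
    fun _ _ => rfl

/-- the weight of the strands that point up -/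
def Prog_u {K : Type} [Field K] (d : ι → K) (a : Arc ι) : K := if a.up then d a.name else 1

theorem Prog_u_rev {K : Type} [Field K] (d : ι → K) (a : Arc ι) :
    Prog_u d a * Prog_u d (rev a) = d a.name := by
  obtain ⟨i, b⟩ := a
  cases b
  · exact one_mul _
  · exact mul_one _

theorem Prog_lp_sl {K : Type} [Field K] (arc : E → Arc ι) (d : ι → K) {s : NSl E}
    (h : s.ok arc) : lpS (fun e => d (arc e).name) s * ((s.src.map arc).map (Prog_u d)).prod =
      (s.src.map fun e => d (arc e).name).prod * ((s.tgt.map arc).map (Prog_u d)).prod := by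
  obtain ⟨l, g, r⟩ := s
  have h3 := Prog_map_eq arc l fun z hz => h.1 z (List.mem_append_left _ hz)
  have h4 := Prog_map_eq arc r fun z hz => h.1 z (List.mem_append_right _ hz)
  have h5 : lpG (fun e => d (arc e).name) g * ((g.src.map arc).map (Prog_u d)).prod =
      (g.src.map fun e => d (arc e).name).prod * ((g.tgt.map arc).map (Prog_u d)).prod := by
    cases g with
    | cup e₁ e₂ =>
      have h6 : arc e₂ = rev (arc e₁) := h.2
      simp only [lpG, NGen.src, NGen.tgt, List.map_nil, List.map_cons, List.prod_nil,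
        List.prod_cons, mul_one, one_mul, h6, Prog_u_rev]
      rfl
    | cap e₁ e₂ =>
      have h6 : arc e₂ = rev (arc e₁) := h.2
      simp only [lpG, NGen.src, NGen.tgt, List.map_nil, List.map_cons, List.prod_nil,
        List.prod_cons, mul_one, h6, Prog_u_rev]
      rfl
    | cr c x y y' x' =>
      have h6 : arc x' = arc x := h.2.1
      have h7 : arc y' = arc y := h.2.2
      simp only [lpG, NGen.src, NGen.tgt, List.map_nil, List.map_cons, List.prod_nil,
        List.prod_cons, mul_one, h6, h7]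
      ring
  have h6 : ∀ t : List (E × E), (t.map fun z => d (arc z.1).name) =
      (t.map Prod.fst).map fun e => d (arc e).name := fun t => by
    rw [List.map_map]
    rfl
  simp only [lpS, NSl.src, NSl.tgt, List.map_append, List.prod_append, h3, h4, h6]
  linear_combination (((l.map Prod.fst).map fun e => d (arc e).name).prod *
    ((r.map Prod.fst).map fun e => d (arc e).name).prod *
    (((l.map Prod.fst).map arc).map (Prog_u d)).prod *
    (((r.map Prod.fst).map arc).map (Prog_u d)).prod) * h5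

theorem Prog_lp {K : Type} [Field K] (arc : E → Arc ι) (d : ι → K) (P : List (NSl E)) :
    ∀ ρ : List E, NRun ρ P → (∀ s ∈ P, s.ok arc) →
      (P.map (lpS fun e => d (arc e).name)).prod * ((ρ.map arc).map (Prog_u d)).prod =
        (P.map fun s => (s.src.map fun e => d (arc e).name).prod).prod := by
  induction P with
  | nil =>
    intro ρ h _
    rw [show ρ = [] from h]
    exact one_mul _
  | cons s P ih =>
    intro ρ h ho
    have h1 := ih s.tgt h.2 fun t ht => ho t (List.mem_cons_of_mem _ ht)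
    have h2 := Prog_lp_sl arc d (ho s List.mem_cons_self)
    rw [h.1, List.map_cons, List.map_cons, List.prod_cons, List.prod_cons, ← h1]
    linear_combination (P.map (lpS fun e => d (arc e).name)).prod * h2

theorem Prog.prod_lpS [Fintype E] {K : Type} [Field K] (Q : Prog L E) (d : ι → K) :
    (Q.pr.map (lpS fun e => d (Q.nm e))).prod = ∏ e, d (Q.nm e) := by
  have h := Prog_lp Q.arc d Q.pr [] Q.run Q.ok
  rw [List.map_nil, List.map_nil, List.prod_nil, mul_one, Prog_prod_flat, Q.flatMap_src,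
    ← Prog_prod_flat] at h
  exact h.trans (Q.prod_rows fun e => d (Q.nm e))

/-- fresh names for vertical strands -/
theorem Prog_fresh (ρ : List (α × ℕ)) : ∀ c : ℕ, ∃ l : List ((α × ℕ) × (α × ℕ)),
    l.map Prod.fst = ρ ∧ (∀ z ∈ l, z.2.1 = z.1.1) ∧
      (l.map Prod.snd).map Prod.snd = List.range' c ρ.length := by
  induction ρ with
  | nil => exact fun _ => ⟨[], rfl, fun _ h => (nomatch h), rfl⟩
  | cons a ρ ih =>
    intro c
    obtain ⟨l, h1, h2, h3⟩ := ih (c + 1)
    refine ⟨(a, (a.1, c)) :: l, by rw [List.map_cons, h1], ?_, ?_⟩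
    · intro z hz
      rcases List.mem_cons.1 hz with h | h
      · rw [h]
      · exact h2 z h
    · rw [List.map_cons, List.map_cons, h3, List.length_cons, List.range'_succ]

theorem Prog_gen (g : Gen (Arc ι)) (ρ : List (Arc ι × ℕ)) (h : ρ.map Prod.fst = g.src) (c : ℕ) :
    ∃ (g' : NGen (Arc ι × ℕ)) (m : ℕ), g'.src = ρ ∧ g'.ok Prod.fst ∧ g'.gen Prod.fst = g ∧
      g'.tgt.map Prod.snd = List.range' c m := by
  cases g with
  | cup o =>
    exact ⟨.cup (o, c) (rev o, c + 1), 2, (List.map_eq_nil_iff.1 h).symm, rfl, rfl, rfl⟩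
  | cap o =>
    obtain ⟨a, t, rfl, h1, h2⟩ := List.map_eq_cons_iff.1 h
    obtain ⟨b, u, rfl, h3, h4⟩ := List.map_eq_cons_iff.1 h2
    rw [List.map_eq_nil_iff.1 h4]
    exact ⟨.cap a b, 0, rfl, h3.trans (congrArg rev h1.symm), congrArg Gen.cap h1, rfl⟩
  | cr x y s =>
    obtain ⟨a, t, rfl, h1, h2⟩ := List.map_eq_cons_iff.1 h
    obtain ⟨b, u, rfl, h3, h4⟩ := List.map_eq_cons_iff.1 h2
    rw [List.map_eq_nil_iff.1 h4]
    exact ⟨.cr s a b (b.1, c) (a.1, c + 1), 2, rfl, ⟨rfl, rfl⟩,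
      congrArg₂ (fun t u => Gen.cr t u s) h1 h3, rfl⟩

theorem Prog_slice (s : Sl (Arc ι)) (ρ : List (Arc ι × ℕ)) (h : ρ.map Prod.fst = s.src) (c : ℕ) :
    ∃ (s' : NSl (Arc ι × ℕ)) (m : ℕ), s'.src = ρ ∧ s'.ok Prod.fst ∧ s'.sl Prod.fst = s ∧
      s'.tgt.map Prod.snd = List.range' c m := by
  obtain ⟨l, g, r⟩ := s
  obtain ⟨ρ₀, ρr, rfl, h1, hr⟩ := List.map_eq_append_iff.1 h
  obtain ⟨ρl, ρg, rfl, hl, hg⟩ := List.map_eq_append_iff.1 h1
  obtain ⟨l', a1, a2, a3⟩ := Prog_fresh ρl c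
  obtain ⟨g', m, b1, b2, b3, b4⟩ := Prog_gen g ρg hg (c + ρl.length)
  obtain ⟨r', c1, c2, c3⟩ := Prog_fresh ρr (c + (ρl.length + m))
  refine ⟨⟨l', g', r'⟩, ρl.length + m + ρr.length, ?_, ⟨fun z hz => ?_, b2⟩, ?_, ?_⟩
  · rw [NSl.src, a1, b1, c1]
  · rcases List.mem_append.1 hz with h2 | h2
    · exact a2 z h2
    · exact c2 z h2
  · have e1 : (l'.map fun z => z.1.1) = l := by
      rw [← show ρl.map Prod.fst = l from hl, ← a1, List.map_map]
      rfl
    have e2 : (r'.map fun z => z.1.1) = r := by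
      rw [← show ρr.map Prod.fst = r from hr, ← c1, List.map_map]
      rfl
    rw [NSl.sl, e1, e2, b3]
  · rw [NSl.tgt, List.map_append, List.map_append, a3, b4, c3, List.range'_append_1,
      List.range'_append_1]

theorem Prog_nat (L : List (Sl (Arc ι))) : ∀ (ρ : List (Arc ι × ℕ)) (c : ℕ),
    Run (ρ.map Prod.fst) L [] → ∃ (P : List (NSl (Arc ι × ℕ))) (m : ℕ), NRun ρ P ∧
      (∀ s ∈ P, s.ok Prod.fst) ∧ P.map (NSl.sl Prod.fst) = L ∧
      (P.flatMap NSl.tgt).map Prod.snd = List.range' c m := by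
  induction L with
  | nil => exact fun ρ c h => ⟨[], 0, List.map_eq_nil_iff.1 h, fun _ h => (nomatch h), rfl, rfl⟩
  | cons s L ih =>
    intro ρ c h
    obtain ⟨s', m, a1, a2, a3, a4⟩ := Prog_slice s ρ h.1 c
    obtain ⟨P, m', b1, b2, b3, b4⟩ := ih s'.tgt (c + m) (by
      rw [← a2.tgt_sl, a3]
      exact h.2)
    refine ⟨s' :: P, m + m', ⟨a1.symm, b1⟩, fun t ht => ?_, by rw [List.map_cons, a3, b3], ?_⟩
    · rcases List.mem_cons.1 ht with h2 | h2
      · rw [h2]
        exact a2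
      · exact b2 t h2
    · rw [List.flatMap_cons, List.map_append, a4, b4, List.range'_append_1]

/-- renaming of a generator -/
def Prog_mg (φ : α → E) : NGen α → NGen E
  | .cup e₁ e₂ => .cup (φ e₁) (φ e₂)
  | .cap e₁ e₂ => .cap (φ e₁) (φ e₂)
  | .cr b x y y' x' => .cr b (φ x) (φ y) (φ y') (φ x')

/-- renaming of a slice -/
def Prog_mp (φ : α → E) (s : NSl α) : NSl E :=
  ⟨s.l.map (Prod.map φ φ), Prog_mg φ s.g, s.r.map (Prod.map φ φ)⟩

theorem Prog_mp_src (φ : α → E) (s : NSl α) : (Prog_mp φ s).src = s.src.map φ := by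
  obtain ⟨l, g, r⟩ := s
  have h : (Prog_mg φ g).src = g.src.map φ := by cases g <;> rfl
  simp only [Prog_mp, NSl.src, List.map_append, List.map_map, h]
  rfl

theorem Prog_mp_tgt (φ : α → E) (s : NSl α) : (Prog_mp φ s).tgt = s.tgt.map φ := by
  obtain ⟨l, g, r⟩ := s
  have h : (Prog_mg φ g).tgt = g.tgt.map φ := by cases g <;> rfl
  simp only [Prog_mp, NSl.tgt, List.map_append, List.map_map, h]
  rfl

theorem Prog_mp_run (φ : α → E) {P : List (NSl α)} {ρ : List α} (h : NRun ρ P) :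
    NRun (ρ.map φ) (P.map (Prog_mp φ)) := by
  induction P generalizing ρ with
  | nil => rw [show ρ = [] from h]; rfl
  | cons s P ih =>
    refine ⟨by rw [Prog_mp_src, h.1], ?_⟩
    rw [Prog_mp_tgt]
    exact ih h.2

theorem Prog_mem_fst {s : NSl α} {z : α × α} (h : z ∈ s.l ++ s.r) : z.1 ∈ s.src ++ s.tgt := by
  refine List.mem_append_left _ ?_
  rcases List.mem_append.1 h with h | h
  · exact List.mem_append_left _ (List.mem_append_left _ (List.mem_map_of_mem h))
  · exact List.mem_append_right _ (List.mem_map_of_mem h)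

theorem Prog_mem_snd {s : NSl α} {z : α × α} (h : z ∈ s.l ++ s.r) : z.2 ∈ s.src ++ s.tgt := by
  refine List.mem_append_right _ ?_
  rcases List.mem_append.1 h with h | h
  · exact List.mem_append_left _ (List.mem_append_left _ (List.mem_map_of_mem h))
  · exact List.mem_append_right _ (List.mem_map_of_mem h)

theorem Prog_mem_gen {s : NSl α} {a : α} (h : a ∈ s.g.src ++ s.g.tgt) : a ∈ s.src ++ s.tgt := by
  rcases List.mem_append.1 h with h | h
  · exact List.mem_append_left _ (List.mem_append_left _ (List.mem_append_right _ h))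
  · exact List.mem_append_right _ (List.mem_append_left _ (List.mem_append_right _ h))

theorem Prog_mp_ok {φ : α → E} {arc : α → Arc ι} {arc' : E → Arc ι} {s : NSl α}
    (hφ : ∀ a ∈ s.src ++ s.tgt, arc' (φ a) = arc a) (h : s.ok arc) : (Prog_mp φ s).ok arc' := by
  refine ⟨fun z hz => ?_, ?_⟩
  · have hz' : z ∈ (s.l ++ s.r).map (Prod.map φ φ) := by
      rw [List.map_append]
      exact hz
    obtain ⟨y, hy, rfl⟩ := List.mem_map.1 hz'
    exact (hφ _ (Prog_mem_snd hy)).trans ((h.1 y hy).trans (hφ _ (Prog_mem_fst hy)).symm)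
  · have h1 : ∀ a ∈ s.g.src ++ s.g.tgt, arc' (φ a) = arc a := fun a ha => hφ a (Prog_mem_gen ha)
    have h2 := h.2
    obtain ⟨l, g, r⟩ := s
    cases g with
    | cup e₁ e₂ =>
      show arc' (φ e₂) = rev (arc' (φ e₁))
      rw [h1 e₁ (by simp [NGen.src, NGen.tgt]), h1 e₂ (by simp [NGen.src, NGen.tgt])]
      exact h2
    | cap e₁ e₂ =>
      show arc' (φ e₂) = rev (arc' (φ e₁))
      rw [h1 e₁ (by simp [NGen.src, NGen.tgt]), h1 e₂ (by simp [NGen.src, NGen.tgt])]
      exact h2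
    | cr c x y y' x' =>
      show arc' (φ x') = arc' (φ x) ∧ arc' (φ y') = arc' (φ y)
      rw [h1 x (by simp [NGen.src, NGen.tgt]), h1 y (by simp [NGen.src, NGen.tgt]),
        h1 x' (by simp [NGen.src, NGen.tgt]), h1 y' (by simp [NGen.src, NGen.tgt])]
      exact h2

theorem Prog_mp_sl {φ : α → E} {arc : α → Arc ι} {arc' : E → Arc ι} {s : NSl α}
    (hφ : ∀ a ∈ s.src ++ s.tgt, arc' (φ a) = arc a) : (Prog_mp φ s).sl arc' = s.sl arc := by
  have h1 : ∀ a ∈ s.g.src ++ s.g.tgt, arc' (φ a) = arc a := fun a ha => hφ a (Prog_mem_gen ha)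
  have h2 : ∀ z ∈ s.l ++ s.r, arc' (φ z.1) = arc z.1 := fun z hz => hφ _ (Prog_mem_fst hz)
  obtain ⟨l, g, r⟩ := s
  have e1 : ((l.map (Prod.map φ φ)).map fun z => arc' z.1) = l.map fun z => arc z.1 := by
    rw [List.map_map]
    exact List.map_congr_left fun z hz => h2 z (List.mem_append_left _ hz)
  have e2 : ((r.map (Prod.map φ φ)).map fun z => arc' z.1) = r.map fun z => arc z.1 := by
    rw [List.map_map]
    exact List.map_congr_left fun z hz => h2 z (List.mem_append_right _ hz)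
  have e3 : (Prog_mg φ g).gen arc' = g.gen arc := by
    cases g with
    | cup e₁ e₂ => exact congrArg Gen.cup (h1 e₁ (by simp [NGen.src, NGen.tgt]))
    | cap e₁ e₂ => exact congrArg Gen.cap (h1 e₁ (by simp [NGen.src, NGen.tgt]))
    | cr c x y y' x' =>
      exact congrArg₂ (fun t u => Gen.cr t u c) (h1 x (by simp [NGen.src, NGen.tgt]))
        (h1 y (by simp [NGen.src, NGen.tgt]))
  rw [NSl.sl, NSl.sl, Prog_mp, e1, e2, e3]

theorem exists_prog (hL : Run [] L []) :
    ∃ (E : Type) (_ : Fintype E) (_ : DecidableEq E), Nonempty (Prog L E) := by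
  classical
  obtain ⟨P, m, h1, h2, h3, h4⟩ := Prog_nat L [] 0 hL
  have hn : (P.flatMap NSl.tgt).Nodup := by
    refine List.Nodup.of_map Prod.snd ?_
    rw [h4]
    exact List.nodup_range'
  have hs : P.flatMap NSl.src = P.flatMap NSl.tgt := h1.flatMap
  rcases P with _ | ⟨s₀, P₀⟩
  · refine ⟨Empty, inferInstance, inferInstance, ⟨⟨Empty.elim, [], rfl, fun _ h => (nomatch h),
      h3, List.nodup_nil, fun e => e.elim⟩⟩⟩
  obtain ⟨a₀, ha₀⟩ : ∃ a, a ∈ (s₀ :: P₀).flatMap NSl.tgt := by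
    obtain ⟨l, g, r⟩ := s₀
    cases g with
    | cup e₁ e₂ => exact ⟨e₁, by simp [NSl.tgt, NGen.tgt]⟩
    | cap e₁ e₂ => exact ⟨e₁, by rw [← hs]; simp [NSl.src, NGen.src]⟩
    | cr c x y y' x' => exact ⟨y', by simp [NSl.tgt, NGen.tgt]⟩
  generalize s₀ :: P₀ = P at h1 h2 h3 hn hs ha₀
  let φ : Arc ι × ℕ → {a // a ∈ P.flatMap NSl.tgt} := fun a =>
    if h : a ∈ P.flatMap NSl.tgt then ⟨a, h⟩ else ⟨a₀, ha₀⟩
  have hφ : ∀ a ∈ P.flatMap NSl.tgt, (φ a).1 = a := fun a ha => by
    simp only [φ]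
    rw [dif_pos ha]
  have hφ' : ∀ s ∈ P, ∀ a ∈ s.src ++ s.tgt, (φ a).1.1 = a.1 := fun s h a ha => by
    rw [hφ a]
    rcases List.mem_append.1 ha with h5 | h5
    · rw [← hs]
      exact List.mem_flatMap.2 ⟨s, h, h5⟩
    · exact List.mem_flatMap.2 ⟨s, h, h5⟩
  have ht : (P.map (Prog_mp φ)).flatMap NSl.tgt = (P.flatMap NSl.tgt).map φ := by
    rw [List.flatMap_map, List.map_flatMap]
    exact congrArg (fun f => P.flatMap f) (funext fun s => Prog_mp_tgt φ s)
  refine ⟨{a // a ∈ P.flatMap NSl.tgt}, inferInstance, inferInstance,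
    ⟨⟨fun e => e.1.1, P.map (Prog_mp φ), Prog_mp_run φ h1, ?_, ?_, ?_, ?_⟩⟩⟩
  · intro s hs'
    obtain ⟨t, ht', rfl⟩ := List.mem_map.1 hs'
    exact Prog_mp_ok (hφ' t ht') (h2 t ht')
  · rw [List.map_map, ← h3]
    exact List.map_congr_left fun t ht' => Prog_mp_sl (hφ' t ht')
  · rw [ht]
    exact hn.map_on fun x hx y hy e => by rw [← hφ x hx, ← hφ y hy, e]
  · intro e
    rw [ht]
    exact List.mem_map.2 ⟨e.1, e.2, Subtype.ext (hφ _ e.2)⟩

end Pool.Agent.P.MP_53e370_gt.S
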