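import Pool.Agent.P.MP_53e370_gt.S.RingCut
import Pool.Agent.P.MP_53e370_gt.S.Prog

/-! All rings are cut. -/

namespace Pool.Agent.P.MP_53e370_gt.S

open Pool.Agent.P.MP_ac4909_gt

variable {K : Type} [Field K] {R : Type} [Ring R] [Algebra K R] {T : TL K R} {E : Type}

/-- the lower half of a ring -/
def HvCut_B (T : TL K R) (j w k p : ℕ) : R :=
  T.crC true w j (p + j) * T.crC true k j (p + j + w) * T.crC true j k (p + j + w) *
    T.crC false j w (p + j) * T.cupC j p

/-- the upper half of a ring -/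
def HvCut_A (T : TL K R) (j w k p : ℕ) : R :=
  T.capC j p * (T.crC true w j (p + j) * T.crC false k j (p + j + w) *
    T.crC false j k (p + j + w) * T.crC false j w (p + j))

theorem HvCut_RgN (j w k wb kb : ℕ) (Y : ℕ → R) (p : ℕ) :
    RgN T j w k wb kb Y p = HvCut_A T j wb kb p * Y (p + (j + j)) * HvCut_B T j w k p := rfl

theorem HvCut_locM (T : TL K R) (s : Bool) (j w k : ℕ) :
    T.Loc (j + j + (w + k)) (j + j + (w + k)) fun p =>
      T.crC true w j (p + j) * T.crC s k j (p + j + w) * T.crC s j k (p + j + w) *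
        T.crC false j w (p + j) := by
  have h1 : T.Loc (j + j + (w + k)) (j + j + (w + k)) fun p => T.crC true w j (p + j) :=
    (((T.loc_crC true w j).padL j).padR k).cast (by omega) (by omega) fun _ => rfl
  have h2 : T.Loc (j + j + (w + k)) (j + j + (w + k)) fun p => T.crC s k j (p + j + w) :=
    ((T.loc_crC s k j).padL (j + w)).cast (by omega) (by omega) fun _ => by rw [add_assoc]
  have h3 : T.Loc (j + j + (w + k)) (j + j + (w + k)) fun p => T.crC s j k (p + j + w) :=
    ((T.loc_crC s j k).padL (j + w)).cast (by omega) (by omega) fun _ => by rw [add_assoc]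
  have h4 : T.Loc (j + j + (w + k)) (j + j + (w + k)) fun p => T.crC false j w (p + j) :=
    (((T.loc_crC false j w).padL j).padR k).cast (by omega) (by omega) fun _ => rfl
  exact ((h1.mul h2).mul h3).mul h4

theorem HvCut_locB (T : TL K R) (j w k : ℕ) :
    T.Loc (w + k) (j + j + (w + k)) (HvCut_B T j w k) :=
  ((HvCut_locM T true j w k).mul (((T.loc_cupC j).padR (w + k)).cast (m' := w + k) (by omega) rfl
    fun _ => rfl)).cast rfl rfl fun _ => rfl

theorem HvCut_locA (T : TL K R) (j w k : ℕ) :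
    T.Loc (j + j + (w + k)) (w + k) (HvCut_A T j w k) :=
  ((((T.loc_capC j).padR (w + k)).cast (n' := w + k) rfl (by omega) fun _ => rfl).mul
    (HvCut_locM T false j w k)).cast rfl rfl fun _ => rfl

theorem HvCut_M1 (s : Bool) (j : ℕ) {w : ℕ} (k : ℕ) {G : ℕ → R} (hG : T.Loc w w G) (q : ℕ) :
    SemiconjBy (T.crC true w j q * T.crC s k j (q + w) * T.crC s j k (q + w) *
      T.crC false j w q) (G (q + j)) (G (q + j)) := by
  have h1 : SemiconjBy (T.crC true w j q) (G q) (G (q + j)) := hG.natL true j q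
  have h2 : SemiconjBy (T.crC s k j (q + w)) (G q) (G q) :=
    (hG.far' (T.loc_crC s k j) q (q + w) (q + w) le_rfl rfl).symm
  have h3 : SemiconjBy (T.crC s j k (q + w)) (G q) (G q) :=
    (hG.far' (T.loc_crC s j k) q (q + w) (q + w) le_rfl rfl).symm
  have h4 : SemiconjBy (T.crC false j w q) (G (q + j)) (G q) := hG.natR false j q
  exact ((h1.mul_left h2).mul_left h3).mul_left h4

theorem HvCut_M2 (s : Bool) (j w : ℕ) {k : ℕ} {G : ℕ → R} (hG : T.Loc k k G) (q : ℕ) :
    SemiconjBy (T.crC true w j q * T.crC s k j (q + w) * T.crC s j k (q + w) *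
      T.crC false j w q) (G (q + w + j)) (G (q + w + j)) := by
  have h1 : SemiconjBy (T.crC true w j q) (G (q + w + j)) (G (q + w + j)) :=
    (T.loc_crC true w j).far' hG q _ _ (by omega) (by omega)
  have h2 : SemiconjBy (T.crC s k j (q + w)) (G (q + w)) (G (q + w + j)) := hG.natL s j (q + w)
  have h3 : SemiconjBy (T.crC s j k (q + w)) (G (q + w + j)) (G (q + w)) := hG.natR s j (q + w)
  have h4 : SemiconjBy (T.crC false j w q) (G (q + w + j)) (G (q + w + j)) :=
    (T.loc_crC false j w).far' hG q _ _ (by omega) (by omega)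
  exact ((h1.mul_left h2).mul_left h3).mul_left h4

theorem HvCut_B_row (j : ℕ) {k : E → ℕ} {F : E → ℕ → R} (hF : ∀ e, T.Loc (k e) (k e) (F e))
    (l : List E) (x : E) (r : List E) (p : ℕ) :
    SemiconjBy (HvCut_B T j (wid k l) (k x) p) (row k F (l ++ x :: r) p)
      (row k F (l ++ x :: r) (p + (j + j))) := by
  have hl := TL.loc_row hF l
  have hr := TL.loc_row hF r
  simp only [row_append, row]
  refine SemiconjBy.mul_right ?_ (SemiconjBy.mul_right ?_ ?_)
  · have h0 : SemiconjBy (T.cupC j p) (row k F l p) (row k F l (p + j + j)) :=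
      (T.loc_cupC j).far' hl p _ _ (by omega) (by omega)
    rw [← add_assoc]
    exact (HvCut_M1 true j (k x) hl (p + j)).mul_left h0
  · have h0 : SemiconjBy (T.cupC j p) (F x (p + wid k l)) (F x (p + j + wid k l + j)) :=
      (T.loc_cupC j).far' (hF x) p _ _ (by omega) (by omega)
    rw [show p + (j + j) + wid k l = p + j + wid k l + j by omega]
    exact (HvCut_M2 true j (wid k l) (hF x) (p + j)).mul_left h0
  · exact (HvCut_locB T j (wid k l) (k x)).far' hr p _ _ (by omega) (by omega)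

theorem HvCut_A_row (j : ℕ) {k : E → ℕ} {F : E → ℕ → R} (hF : ∀ e, T.Loc (k e) (k e) (F e))
    (l : List E) (x : E) (r : List E) (p : ℕ) :
    SemiconjBy (HvCut_A T j (wid k l) (k x) p) (row k F (l ++ x :: r) (p + (j + j)))
      (row k F (l ++ x :: r) p) := by
  have hl := TL.loc_row hF l
  have hr := TL.loc_row hF r
  simp only [row_append, row]
  refine SemiconjBy.mul_right ?_ (SemiconjBy.mul_right ?_ ?_)
  · have h0 : SemiconjBy (T.capC j p) (row k F l (p + j + j)) (row k F l p) :=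
      (T.loc_capC j).far' hl p _ _ (by omega) (by omega)
    rw [← add_assoc]
    exact h0.mul_left (HvCut_M1 false j (k x) hl (p + j))
  · have h0 : SemiconjBy (T.capC j p) (F x (p + j + wid k l + j)) (F x (p + wid k l)) :=
      (T.loc_capC j).far' (hF x) p _ _ (by omega) (by omega)
    rw [show p + (j + j) + wid k l = p + j + wid k l + j by omega]
    exact h0.mul_left (HvCut_M2 false j (wid k l) (hF x) (p + j))
  · exact (HvCut_locA T j (wid k l) (k x)).far' hr p _ _ (by omega) (by omega)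

/-- the families that absorb a row form a submodule -/
def HvCut_sub (T : TL K R) (k kb : E → ℕ) (ρ : List E) : Submodule K (ℕ → R) where
  carrier := {Y | Sand T k kb ρ Y}
  add_mem' := fun {Y Z} hY hZ => ⟨hY.loc.add hZ.loc,
    fun p => by rw [Pi.add_apply, add_mul, hY.right, hZ.right],
    fun p => by rw [Pi.add_apply, mul_add, hY.left, hZ.left]⟩
  zero_mem' := ⟨.zero _ _, fun p => by rw [Pi.zero_apply, zero_mul],
    fun p => by rw [Pi.zero_apply, mul_zero]⟩
  smul_mem' := fun c Y hY => ⟨hY.loc.smul c,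
    fun p => by rw [Pi.smul_apply, smul_mul_assoc, hY.right],
    fun p => by rw [Pi.smul_apply, mul_smul_comm, hY.left]⟩

theorem HvCut_sand_RgN {k kb : E → ℕ} {l : List E} {x : E} {r : List E} {Y : ℕ → R}
    (hY : Sand T k kb (l ++ x :: r) Y) (j : ℕ) :
    Sand T k kb (l ++ x :: r) (RgN T j (wid k l) (k x) (wid kb l) (kb x) Y) := by
  refine ⟨?_, fun p => ?_, fun p => ?_⟩
  · have hA := (HvCut_locA T j (wid kb l) (kb x)).padR (wid kb r)
    have hB := (HvCut_locB T j (wid k l) (k x)).padR (wid k r)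
    have hM := (hY.loc.padL (j + j)).cast (m' := j + j + (wid k l + k x) + wid k r)
      (n' := j + j + (wid kb l + kb x) + wid kb r) (by simp only [wid_append, wid_cons]; omega)
      (by simp only [wid_append, wid_cons]; omega) fun _ => rfl
    exact ((hA.mul hM).mul hB).cast (by simp only [wid_append, wid_cons]; omega)
      (by simp only [wid_append, wid_cons]; omega) fun _ => rfl
  · rw [HvCut_RgN, mul_assoc, (HvCut_B_row j (fun e => T.loc_f (k e)) l x r p).eq, ← mul_assoc,
      mul_assoc (HvCut_A _ _ _ _ _), hY.right]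
  · rw [HvCut_RgN, ← mul_assoc, ← mul_assoc, ← (HvCut_A_row j (fun e => T.loc_f (kb e)) l x r p).eq,
      mul_assoc (HvCut_A _ _ _ _ _), hY.left]

theorem HvCut_sand_OmR {k kb : E → ℕ} {l : List E} {x : E} {r : List E} {Y : ℕ → R}
    (hY : Sand T k kb (l ++ x :: r) Y) (q : Polynomial K) :
    Sand T k kb (l ++ x :: r) (OmR T q (wid k l) (k x) (wid kb l) (kb x) Y) := by
  have : OmR T q (wid k l) (k x) (wid kb l) (kb x) Y ∈ HvCut_sub T k kb (l ++ x :: r) := by
    rw [OmR, Polynomial.sum_def, LinearMap.sum_apply]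
    refine Submodule.sum_mem _ fun n _ => ?_
    rw [LinearMap.smul_apply]
    exact Submodule.smul_mem _ _ (HvCut_sand_RgN hY n)
  exact this

theorem HvCut_sand_Phi {k kb : E → ℕ} (q : E → Polynomial K) (ρ : List E) :
    ∀ (l : List E) {Y : ℕ → R}, Sand T k kb (l ++ ρ) Y → Sand T k kb (l ++ ρ)
      (Phi k kb (fun e w wb => OmR T (q e) w (k e) wb (kb e)) (wid k l) (wid kb l) ρ Y) := by
  induction ρ with
  | nil => exact fun l Y hY => hY
  | cons x ρ ih =>
    intro l Y hY
    have h1 := HvCut_sand_OmR hY (q x)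
    rw [List.append_cons] at h1
    have h2 := ih (l ++ [x]) h1
    rw [← List.append_cons] at h2
    simpa only [Phi, Module.End.mul_apply, wid_append, wid_cons, wid_nil, add_zero] using h2

theorem HvCut_row_f (h : Ok T) (k : E → ℕ) (l : List E) (x : E) (r : List E) (p : ℕ) :
    row k (fun e => T.f (k e)) (l ++ x :: r) p * T.f (k x) (p + wid k l) =
      row k (fun e => T.f (k e)) (l ++ x :: r) p := by
  have hr := TL.loc_row (fun e => T.loc_f (k e)) r
  simp only [row_append, row]
  rw [mul_assoc, mul_assoc, ← (T.loc_f (k x)).far' hr (p + wid k l) _ _ le_rfl rfl,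
    ← mul_assoc (T.f _ _), h.idem]

theorem HvCut_f_row (h : Ok T) (k : E → ℕ) (l : List E) (x : E) (r : List E) (p : ℕ) :
    T.f (k x) (p + wid k l) * row k (fun e => T.f (k e)) (l ++ x :: r) p =
      row k (fun e => T.f (k e)) (l ++ x :: r) p := by
  have hl := TL.loc_row (fun e => T.loc_f (k e)) l
  simp only [row_append, row]
  rw [← mul_assoc, ← hl.far' (T.loc_f (k x)) p _ _ le_rfl rfl, mul_assoc,
    ← mul_assoc (T.f _ _), h.idem]

theorem HvCut_Phi_eq {N : ℕ} (h : Lev T N) {k kb : E → ℕ} (hk : ∀ e, k e ≤ N)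
    (hkb : ∀ e, kb e ≤ N) (j : E → ℕ) (ρ : List E) :
    ∀ (l : List E) {Y : ℕ → R}, Sand T k kb (l ++ ρ) Y →
      Phi k kb (fun e w wb => OmR T (Fp T.a N (j e)) w (k e) wb (kb e)) (wid k l) (wid kb l) ρ Y =
      Phi k kb (fun e w wb => ∑ σ ∈ (ls (j e)).filter fun σ => en (k e) σ = kb e,
        (DD T.a N / Dl T.a (kb e)) • Cut T σ w (k e) wb (kb e)) (wid k l) (wid kb l) ρ Y := by
  induction ρ with
  | nil => exact fun l Y hY => rfl
  | cons x ρ ih =>
    intro l Y hY
    have h1 := HvCut_sand_OmR hY (Fp T.a N (j x))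
    rw [List.append_cons] at h1
    have h2 := ih (l ++ [x]) h1
    have h3 := ring_cut h (w := wid k l) (r := wid k ρ) (wb := wid kb l) (rb := wid kb ρ) (hk x)
      (hkb x) (hY.loc.cast (by simp only [wid_append, wid_cons]; omega)
        (by simp only [wid_append, wid_cons]; omega) fun _ => rfl)
      (fun p => by rw [← hY.right p, mul_assoc, HvCut_row_f h.ok])
      (fun p => by rw [← hY.left p, ← mul_assoc, HvCut_f_row h.ok]) (j x)
    simp only [wid_append, wid_cons, wid_nil, add_zero] at h2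
    simp only [Phi, Module.End.mul_apply]
    rw [h2, h3, LinearMap.sum_apply]
    rfl

theorem HvCut_cup (h : Ok T) (n q : ℕ) :
    SemiconjBy (T.f n q * T.cupC n q) 1 (T.f n q * (T.f n (q + n) * 1)) := by
  rw [SemiconjBy, mul_one, mul_one, mul_assoc, h.rot n q, ← mul_assoc (T.f n (q + n)), h.idem,
    ← h.rot n q, ← mul_assoc, h.idem, h.rot n q]

theorem HvCut_cap (h : Ok T) (n q : ℕ) :
    SemiconjBy (T.capC n q * T.f n q) (T.f n q * (T.f n (q + n) * 1)) 1 := by
  have hc := (h.rot n).cap (T.loc_f n) (T.loc_f n) q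
  rw [SemiconjBy, mul_one, one_mul, ← mul_assoc, mul_assoc (T.capC n q), h.idem, ← hc, mul_assoc,
    h.idem]

theorem HvCut_cr (T : TL K R) (b : Bool) (m n q : ℕ) :
    SemiconjBy (T.crC b m n q) (T.f m q * (T.f n (q + m) * 1)) (T.f n q * (T.f m (q + n) * 1)) := by
  rw [mul_one, mul_one, (T.loc_f n).far' (T.loc_f m) q (q + n) (q + n) le_rfl rfl]
  exact SemiconjBy.mul_right ((T.loc_f m).natL b n q) ((T.loc_f n).natR b m q)

theorem HvCut_ngv (h : Ok T) {k : E → ℕ} {g : NGen E} (hg : g.okc k) :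
    T.Loc (wid k g.src) (wid k g.tgt) (ngv T k g) ∧ ∀ q, SemiconjBy (ngv T k g q)
      (row k (fun e => T.f (k e)) g.src q) (row k (fun e => T.f (k e)) g.tgt q) := by
  cases g with
  | cup e₁ e₂ =>
    have e : k e₂ = k e₁ := hg
    simp only [NGen.src, NGen.tgt, row, ngv, wid_cons, wid_nil, e, add_zero]
    exact ⟨((T.loc_f _).padR _).mul (T.loc_cupC _), HvCut_cup h _⟩
  | cap e₁ e₂ =>
    have e : k e₂ = k e₁ := hg
    simp only [NGen.src, NGen.tgt, row, ngv, wid_cons, wid_nil, e, add_zero]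
    exact ⟨(T.loc_capC _).mul ((T.loc_f _).padR _), HvCut_cap h _⟩
  | cr b x y y' x' =>
    obtain ⟨e, e'⟩ : k x' = k x ∧ k y' = k y := hg
    simp only [NGen.src, NGen.tgt, row, ngv, wid_cons, wid_nil, e, e', add_zero]
    exact ⟨T.loc_crC _ _ _, HvCut_cr T _ _ _⟩

theorem HvCut_nga (h : Ok T) {k : E → ℕ} {g : NGen E} (hg : g.okc k) :
    T.Loc (wid k g.tgt) (wid k g.src) (nga T k g) ∧ ∀ q, SemiconjBy (nga T k g q)
      (row k (fun e => T.f (k e)) g.tgt q) (row k (fun e => T.f (k e)) g.src q) := by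
  cases g with
  | cup e₁ e₂ =>
    have e : k e₂ = k e₁ := hg
    simp only [NGen.src, NGen.tgt, row, nga, wid_cons, wid_nil, e, add_zero]
    exact ⟨(T.loc_capC _).mul ((T.loc_f _).padR _), HvCut_cap h _⟩
  | cap e₁ e₂ =>
    have e : k e₂ = k e₁ := hg
    simp only [NGen.src, NGen.tgt, row, nga, wid_cons, wid_nil, e, add_zero]
    exact ⟨((T.loc_f _).padR _).mul (T.loc_cupC _), HvCut_cup h _⟩
  | cr b x y y' x' =>
    obtain ⟨e, e'⟩ : k x' = k x ∧ k y' = k y := hg
    simp only [NGen.src, NGen.tgt, row, nga, wid_cons, wid_nil, e, e', add_zero]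
    exact ⟨T.loc_crC _ _ _, HvCut_cr T _ _ _⟩

theorem HvCut_row_snd (T : TL K R) {k : E → ℕ} (l : List (E × E))
    (hl : ∀ z ∈ l, k z.2 = k z.1) :
    row k (fun e => T.f (k e)) (l.map Prod.snd) = row k (fun e => T.f (k e)) (l.map Prod.fst) := by
  induction l with
  | nil => rfl
  | cons z l ih =>
    funext p
    simp only [List.map_cons, row]
    rw [ih fun z hz => hl z (List.mem_cons_of_mem _ hz), hl z List.mem_cons_self]

theorem HvCut_slice {k : E → ℕ} {F : E → ℕ → R} (hF : ∀ e, T.Loc (k e) (k e) (F e))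
    (l r : List E) {a b : List E} {G : ℕ → R} (hG : T.Loc (wid k a) (wid k b) G)
    (hs : ∀ q, SemiconjBy (G q) (row k F a q) (row k F b q)) (p : ℕ) :
    SemiconjBy (G (p + wid k l)) (row k F l p * row k F a (p + wid k l) *
      row k F r (p + (wid k l + wid k a))) (row k F l p * row k F b (p + wid k l) *
      row k F r (p + (wid k l + wid k b))) := by
  refine SemiconjBy.mul_right (SemiconjBy.mul_right ?_ (hs _)) ?_
  · exact ((TL.loc_row hF l).far' hG p _ _ le_rfl rfl).symm
  · exact hG.far' (TL.loc_row hF r) _ _ _ (by omega) (by omega)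

theorem HvCut_sand_step (h : Ok T) {k kb : E → ℕ} {s : NSl E} (hk : s.okc k) (hkb : s.okc kb)
    {Y : ℕ → R} (hY : Sand T k kb s.tgt Y) :
    Sand T k kb s.src fun p => nga T kb s.g (p + wid kb (s.l.map Prod.fst)) * Y p *
      ngv T k s.g (p + wid k (s.l.map Prod.fst)) := by
  obtain ⟨hv, hv'⟩ := HvCut_ngv h hk.2
  obtain ⟨ha, ha'⟩ := HvCut_nga h hkb.2
  obtain ⟨w1, w2⟩ := hk.wid
  obtain ⟨w3, w4⟩ := hkb.wid
  have r1 := HvCut_row_snd T s.l fun z hz => hk.1 z (List.mem_append_left _ hz)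
  have r2 := HvCut_row_snd T s.r fun z hz => hk.1 z (List.mem_append_right _ hz)
  have r3 := HvCut_row_snd T s.l fun z hz => hkb.1 z (List.mem_append_left _ hz)
  have r4 := HvCut_row_snd T s.r fun z hz => hkb.1 z (List.mem_append_right _ hz)
  refine ⟨?_, fun p => ?_, fun p => ?_⟩
  · have hA := (ha.padL (wid kb (s.l.map Prod.fst))).padR (wid kb (s.r.map Prod.fst))
    have hB := (hv.padL (wid k (s.l.map Prod.fst))).padR (wid k (s.r.map Prod.fst))
    have hM := hY.loc.cast
      (m' := wid k (s.l.map Prod.fst) + wid k s.g.tgt + wid k (s.r.map Prod.fst))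
      (n' := wid kb (s.l.map Prod.fst) + wid kb s.g.tgt + wid kb (s.r.map Prod.fst))
      (by simp only [NSl.tgt, wid_append, w1, w2]) (by simp only [NSl.tgt, wid_append, w3, w4])
      fun _ => rfl
    exact ((hA.mul hM).mul hB).cast (by simp only [NSl.src, wid_append])
      (by simp only [NSl.src, wid_append]) fun _ => rfl
  · have e := hY.right p
    simp only [NSl.tgt, row_append, wid_append, w1, r1, r2] at e
    simp only [NSl.src, row_append, wid_append]
    rw [mul_assoc, (HvCut_slice (fun e => T.loc_f (k e)) _ _ hv hv' p).eq, ← mul_assoc,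
      mul_assoc (nga _ _ _ _), e]
  · have e := hY.left p
    simp only [NSl.tgt, row_append, wid_append, w3, r3, r4] at e
    simp only [NSl.src, row_append, wid_append]
    rw [← mul_assoc, ← mul_assoc, ← (HvCut_slice (fun e => T.loc_f (kb e)) _ _ ha ha' p).eq,
      mul_assoc (nga _ _ _ _), e]

theorem HvCut_sand_Hv (h : Ok T) {k kb : E → ℕ} (q : E → Polynomial K) {P : List (NSl E)} :
    ∀ {ρ : List E}, NRun ρ P → (∀ s ∈ P, s.okc k ∧ s.okc kb) →
      Sand T k kb ρ (Hv T k kb (fun e w wb => OmR T (q e) w (k e) wb (kb e)) P) := by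
  induction P with
  | nil =>
    intro ρ hrun _
    obtain rfl : ρ = [] := hrun
    exact ⟨.one 0, fun p => mul_one _, fun p => one_mul _⟩
  | cons s P ih =>
    intro ρ hrun hok
    obtain ⟨rfl, hrun⟩ := hrun
    have h1 := ih hrun fun s hs => hok s (List.mem_cons_of_mem _ hs)
    have h2 := HvCut_sand_Phi q s.tgt [] h1
    exact HvCut_sand_step h (hok s List.mem_cons_self).1 (hok s List.mem_cons_self).2 h2

theorem Hv_cut {N : ℕ} (h : Lev T N) {k kb : E → ℕ} (hk : ∀ e, k e ≤ N) (hkb : ∀ e, kb e ≤ N)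
    (j : E → ℕ) {ρ : List E} {P : List (NSl E)} (hrun : NRun ρ P)
    (hok : ∀ s ∈ P, s.okc k ∧ s.okc kb) :
    Hv T k kb (fun e w wb => OmR T (Fp T.a N (j e)) w (k e) wb (kb e)) P =
      Hv T k kb (fun e w wb => ∑ σ ∈ (ls (j e)).filter fun σ => en (k e) σ = kb e,
        (DD T.a N / Dl T.a (kb e)) • Cut T σ w (k e) wb (kb e)) P := by
  induction P generalizing ρ with
  | nil => rfl
  | cons s P ih =>
    obtain ⟨rfl, hrun⟩ := hrun
    have hok' : ∀ s ∈ P, s.okc k ∧ s.okc kb := fun s hs => hok s (List.mem_cons_of_mem _ hs)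
    have h1 := HvCut_sand_Hv h.ok (fun e => Fp T.a N (j e)) hrun hok'
    have h2 := HvCut_Phi_eq h hk hkb j s.tgt [] h1
    funext p
    simp only [Hv]
    rw [← ih hrun hok']
    exact congrArg (fun Z : ℕ → R => nga T kb s.g (p + wid kb (s.l.map Prod.fst)) * Z p *
      ngv T k s.g (p + wid k (s.l.map Prod.fst))) h2

end Pool.Agent.P.MP_53e370_gt.S
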