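import Pool.Agent.P.MP_53e370_gt.S.PhiCut

/-! The loops of a crossing. -/

namespace Pool.Agent.P.MP_53e370_gt.S

open Pool.Agent.P.MP_ac4909_gt

variable {K : Type} [Field K] {R : Type} [Ring R] [Algebra K R] {T : TL K R} {E : Type}
  {k kb : E → ℕ} {σ : E → List Bool}

theorem GenCr_sw {a b c d : R} (h : a * b = c * d) (t : R) : a * (b * t) = c * (d * t) := by
  rw [← mul_assoc, h, mul_assoc]

theorem GenCr_mg {a b c : R} (h : a * b = c) (t : R) : a * (b * t) = c * t := by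
  rw [← mul_assoc, h]

theorem GenCr_r2 (s : Bool) (m n p : ℕ) (t : R) :
    T.crC (!s) n m p * (T.crC s m n p * t) = t := by
  rw [← mul_assoc, T.r2C, one_mul]

theorem GenCr_tf (m n p : ℕ) (t : R) : T.crC true n m p * (T.crC false m n p * t) = t :=
  GenCr_r2 false m n p t

theorem GenCr_ft (m n p : ℕ) (t : R) : T.crC false n m p * (T.crC true m n p * t) = t :=
  GenCr_r2 true m n p t

theorem GenCr_up {m n j : ℕ} {x : ℕ → R} (hx : T.Loc m (n + j) x) (s : Bool) (c r : ℕ) (t : R) :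
    T.crC s c n r * (x (r + c) * t) =
      T.crC (!s) j c (r + n) * (x r * (T.crC s c m r * t)) := by
  rw [← GenCr_sw (hx.natR s c r), T.hexR, mul_assoc, GenCr_r2]

theorem GenCr_dn {m n j : ℕ} {x : ℕ → R} (hx : T.Loc m (n + j) x) (s : Bool) (c r : ℕ) (t : R) :
    x r * (T.crC s c m r * t) = T.crC s c j (r + n) * (T.crC s c n r * (x (r + c) * t)) := by
  rw [← GenCr_sw (hx.natR s c r), T.hexR, mul_assoc]

theorem GenCr_lf {m n j : ℕ} {x : ℕ → R} (hx : T.Loc m (n + j) x) (s : Bool) (c r : ℕ) (t : R) :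
    x (r + c) * (T.crC s m c r * t) = T.crC s n c r * (T.crC s j c (r + n) * (x r * t)) := by
  rw [← GenCr_sw (hx.natL s c r), T.hexL, mul_assoc]

section Core

variable {kx ky bx cy jx jy lx ly : ℕ} {Ex Ey Ax Ay : ℕ → R}

theorem GenCr_true (hEx : T.Loc kx (bx + lx) Ex) (hEy : T.Loc ky (cy + ly) Ey)
    (hAx : T.Loc (bx + jx) kx Ax) (p : ℕ) (t : R) :
    T.capC cy p * (T.capC bx (p + cy) * (T.crC false cy bx (p + cy + bx) *
      (Ex (p + cy + bx + cy) * (T.crC true ly kx (p + cy + bx + cy) * (Ey (p + cy + bx) *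
      (T.crC true kx ky (p + cy + bx) * (Ax (p + cy + bx) * (T.cupC bx (p + cy) *
      (T.crC false ky jx (p + cy) * t))))))))) =
    ptr T bx (fun q => Ex q * Mon T true kx ly q * Ax q) p * (T.crC false ly jx p *
      (T.capC cy p * (Ey (p + cy) * t))) := by
  have hM := loc_Mon T true kx ly
  have hL : T.Loc (jx + ly) (lx + ly) (ptr T bx fun q => Ex q * Mon T true kx ly q * Ax q) :=
    loc_ptr ((((hEx.padR ly).mul hM).mul (hAx.padR ly)).cast (by omega) (by omega) fun _ => rfl)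
  have e : ∀ (q : ℕ) (u : R), T.capC bx q * (Ex (q + bx) * (Mon T true kx ly (q + bx) *
      (Ax (q + bx) * (T.cupC bx q * u)))) =
      ptr T bx (fun q => Ex q * Mon T true kx ly q * Ax q) q * u := fun q u => by
    simp only [ptr, mul_assoc]
  have c1 := T.loc_capC bx
  have c2 := T.loc_cupC bx
  have c3 := T.loc_capC cy
  rw [GenCr_up hEx, GenCr_dn hEy, GenCr_mg (c := Mon T true kx ly _) rfl, GenCr_up hM,
    T.hexR false cy kx ly, mul_assoc, GenCr_ft, Bool.not_false,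
    GenCr_sw (c1.far' (T.loc_crC _ lx cy) _ _ (p + cy) (by omega) (by omega)),
    GenCr_sw (hEx.far' (T.loc_crC _ ly cy) _ _ (p + cy + bx + (bx + lx)) (by omega) (by omega)),
    GenCr_sw (c1.far' (T.loc_crC _ ly cy) _ _ (p + cy + lx) (by omega) (by omega)),
    ← GenCr_sw (hAx.far' hEy _ (p + cy + bx + (bx + jx)) _ (by omega) (by omega)),
    ← GenCr_sw (c2.far' hEy _ (p + cy + jx) _ (by omega) (by omega)),
    ← GenCr_sw (hAx.far' (T.loc_crC false cy ly) _ (p + cy + bx + (bx + jx)) _ (by omega)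
      (by omega)),
    ← GenCr_sw (c2.far' (T.loc_crC false cy ly) _ (p + cy + jx) _ (by omega) (by omega)),
    e, GenCr_lf hEy, GenCr_mg (T.hexR false cy jx ly _).symm, ← GenCr_sw (hL.natR false cy _),
    GenCr_mg (T.hexL true lx ly cy _).symm, GenCr_tf,
    GenCr_sw (c3.far' hL p _ p (by omega) (by omega)),
    GenCr_sw (c3.far' (T.loc_crC false ly jx) p _ p (by omega) (by omega))]

theorem GenCr_false (hEx : T.Loc kx (bx + lx) Ex) (hEy : T.Loc ky (cy + ly) Ey)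
    (hAx : T.Loc (bx + jx) kx Ax) (hAy : T.Loc (cy + jy) ky Ay) (p : ℕ) (t : R) :
    T.capC cy p * (T.capC bx (p + cy) * (T.crC true cy bx (p + cy + bx) *
      (Ex (p + cy + bx + cy) * (T.crC true ly kx (p + cy + bx + cy) * (Ey (p + cy + bx) *
      (T.crC false kx ky (p + cy + bx) * (Ax (p + cy + bx) * (T.cupC bx (p + cy) *
      (T.crC false ky jx (p + cy) * (Ay (p + cy) * (T.cupC cy p * t))))))))))) =
    T.capC cy p * (T.crC false lx cy (p + cy) * (T.crC false cy lx (p + cy) *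
      (T.crC false ly lx (p + cy + cy) * (Ey (p + cy) * (Ay (p + cy) * (T.cupC cy p *
      (ptr T bx (fun q => Ex q * Ax q) (p + jy) * t))))))) := by
  have hO : T.Loc jx lx (ptr T bx fun q => Ex q * Ax q) := loc_ptr (hEx.mul hAx)
  have e : ∀ (q : ℕ) (u : R), T.capC bx q * (Ex (q + bx) * (Ax (q + bx) * (T.cupC bx q * u))) =
      ptr T bx (fun q => Ex q * Ax q) q * u := fun q u => by
    simp only [ptr, mul_assoc]
  have c1 := T.loc_capC bx
  have c2 := T.loc_cupC bx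
  rw [GenCr_up hEx, GenCr_dn hEy, Bool.not_true, GenCr_tf, GenCr_tf,
    GenCr_sw (c1.far' (T.loc_crC _ lx cy) _ _ (p + cy) (by omega) (by omega)),
    ← GenCr_sw (hAx.far' hEy _ (p + cy + bx + (bx + jx)) _ (by omega) (by omega)),
    ← GenCr_sw (c2.far' hEy _ (p + cy + jx) _ (by omega) (by omega)),
    e, GenCr_lf hEy, ← GenCr_sw (hO.natR false cy _), ← GenCr_sw (hO.natR false ly _),
    ← GenCr_sw (hEy.far' hO _ (p + cy + ky) _ (by omega) (by omega)),
    ← GenCr_sw (hAy.far' hO _ (p + cy + (cy + jy)) _ (by omega) (by omega)),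
    ← GenCr_sw ((T.loc_cupC cy).far' hO _ (p + jy) _ (by omega) (by omega))]

theorem GenCr_strip (hEy : T.Loc ky (cy + ly) Ey) (hAx : T.Loc (bx + jx) kx Ax)
    (hAy : T.Loc (cy + jy) ky Ay) {m m' : ℕ} {z : ℕ → R} (hz : T.Loc m m' z) (b : Bool) (p : ℕ) :
    T.crC true (ly + m') kx (p + cy + bx + cy) * (Ey (p + cy + bx) *
      (T.crC true m' ky (p + cy + bx) * (z (p + cy + bx) * (T.crC b kx ky (p + cy + bx + m) *
      (T.crC false kx m (p + cy + bx) * (Ax (p + cy + bx) * (T.cupC bx (p + cy) *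
      (T.crC false ky (jx + m) (p + cy) * (Ay (p + cy) * T.cupC cy p))))))))) =
    T.crC true ly kx (p + cy + bx + cy) * (Ey (p + cy + bx) *
      (T.crC b kx ky (p + cy + bx) * (Ax (p + cy + bx) * (T.cupC bx (p + cy) *
      (T.crC false ky jx (p + cy) * (Ay (p + cy) * (T.cupC cy p * z (p + (jy + jx))))))))) := by
  have c2 := T.loc_cupC bx
  rw [T.hexL true ly m' kx, mul_assoc,
    ← GenCr_sw (hEy.far' (T.loc_crC true m' kx) _ (p + cy + bx + ky) _ (by omega) (by omega)),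
    GenCr_mg (T.hexR true m' ky kx _).symm, GenCr_sw (hz.natL true (ky + kx) _),
    GenCr_sw ((T.loc_crC b kx ky).natR true m _), T.hexR true m kx ky, mul_assoc, GenCr_tf,
    ← GenCr_sw (hAx.far' (T.loc_crC true m ky) _ (p + cy + bx + (bx + jx)) _ (by omega)
      (by omega)),
    ← GenCr_sw (c2.far' (T.loc_crC true m ky) _ (p + cy + jx) _ (by omega) (by omega)),
    T.hexR false ky jx m, mul_assoc, GenCr_tf,
    ← GenCr_sw ((T.loc_crC b kx ky).far' hz _ (p + cy + bx + (kx + ky)) _ (by omega) (by omega)),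
    ← GenCr_sw (hAx.far' hz _ (p + cy + bx + (bx + jx + ky)) _ (by omega) (by omega)),
    ← GenCr_sw (c2.far' hz _ (p + cy + (jx + ky)) _ (by omega) (by omega)),
    ← GenCr_sw ((T.loc_crC false ky jx).far' hz _ (p + cy + (jx + ky)) _ (by omega) (by omega)),
    ← GenCr_sw (hAy.far' hz _ (p + cy + (cy + jy + jx)) _ (by omega) (by omega)),
    ← (T.loc_cupC cy).far' hz _ (p + (jy + jx)) _ (by omega) (by omega)]

end Core

theorem gen_cr (b : Bool) {x₁ y₁ y₂ x₂ : E} (hkx : k x₂ = k x₁) (hky : k y₂ = k y₁)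
    (hkbx : kb x₂ = kb x₁) (hkby : kb y₂ = kb y₁) (h₁ : en (k x₁) (σ x₁) = kb x₁)
    (h₂ : en (k y₁) (σ y₁) = kb y₁) (h₃ : en (k x₂) (σ x₂) = kb x₂)
    (h₄ : en (k y₂) (σ y₂) = kb y₂) (hdx : Dl T.a (kb x₁) ≠ 0) (hdy : Dl T.a (kb y₁) ≠ 0)
    (ρ ρ' : List E) (hρ' : ∀ e ∈ ρ', en (k e) (σ e) = kb e) {m m' : ℕ} {y z : ℕ → R}
    (hz : T.Loc m m' z)
    (hy : T.Loc (wid (fun e => (σ e).length) ρ' + ((σ x₂).length + ((σ y₂).length + m'))) 0 y) :
    RR T k kb σ m (x₁ :: y₁ :: ρ) (fun p => nga T kb (.cr b x₁ y₁ y₂ x₂) p *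
        EE T k kb σ m' (y₂ :: x₂ :: ρ') y p * z p * ngv T k (.cr b x₁ y₁ y₂ x₂) (p + m)) =
      (Dl T.a (kb x₁) * Dl T.a (kb y₁)) • RR T k kb σ ((σ y₁).length + ((σ x₁).length + m)) ρ
        fun p => EE T k kb σ ((σ x₂).length + ((σ y₂).length + m')) ρ' y p *
          (qCr T k kb σ b x₁ y₁ y₂ x₂ p * z (p + ((σ x₁).length + (σ y₁).length))) := by
  have hEx := loc_Em T (k x₂) (σ x₂)
  have hEy := loc_Em T (k y₂) (σ y₂)
  have hAx := loc_Abs T (k x₁) (σ x₁)
  have hAy := loc_Abs T (k y₁) (σ y₁)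
  have hW := loc_EE (r := 0) (rb := 0) hρ' hy
  rw [h₃, hkbx, hkx] at hEx
  rw [h₄, hkby, hky] at hEy
  rw [h₁] at hAx
  rw [h₂] at hAy
  rw [← RR_smul]
  refine congrArg (RR T k kb σ _ ρ) (funext fun p => ?_)
  simp only [ptr, nga, ngv, EE, Pi.smul_apply, mul_assoc, hkx, hky, hkbx, hkby]
  rw [GenCr_strip hEy hAx hAy hz, GenCr_sw ((T.loc_crC (!b) (kb y₁) (kb x₁)).far' hW _ _
      (p + kb y₁ + kb x₁ + kb y₁ + kb x₁) (by omega) (by omega)),
    GenCr_sw ((T.loc_capC (kb x₁)).far' hW _ _ (p + kb y₁ + kb y₁) (by omega) (by omega)),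
    GenCr_sw ((T.loc_capC (kb y₁)).far' hW _ _ p (by omega) (by omega)), ← mul_smul_comm,
    Nat.add_comm (σ x₁).length]
  refine congrArg (_ * ·) ?_
  cases b
  · rw [Bool.not_false, GenCr_false hEx hEy hAx hAy]
    simp only [qCr, qId, lp, Pi.smul_apply, smul_mul_assoc, mul_smul_comm, smul_smul, hkx, hky]
    rw [show Dl T.a (kb x₁) * Dl T.a (kb y₁) * ((Dl T.a (kb x₁))⁻¹ * (Dl T.a (kb y₁))⁻¹) = 1 by
      field_simp, one_smul]
    simp only [ptr, Mon, mul_assoc]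
  · rw [Bool.not_true, GenCr_true hEx hEy hAx]
    simp only [qCr, qId, lp, Pi.smul_apply, smul_mul_assoc, mul_smul_comm, smul_smul, hkx, hky]
    rw [show Dl T.a (kb x₁) * Dl T.a (kb y₁) * ((Dl T.a (kb y₁))⁻¹ * (Dl T.a (kb x₁))⁻¹) = 1 by
      field_simp, one_smul]
    simp only [ptr, mul_assoc]

end Pool.Agent.P.MP_53e370_gt.S
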