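import Pool.Agent.P.MP_53e370_gt.S.GenCup
import Pool.Agent.P.MP_53e370_gt.S.GenCr
import Pool.Agent.P.MP_53e370_gt.S.Prog

/-! After cutting, the doubled link is the reduced product of its loops. -/

namespace Pool.Agent.P.MP_53e370_gt.S

open Pool.Agent.P.MP_ac4909_gt

variable {K : Type} [Field K] {R : Type} [Ring R] [Algebra K R] {T : TL K R} {ι E : Type}

section
variable {k kb : E → ℕ} {σ : E → List Bool}

theorem Slice_loc_qId {x x' : E} (hk : k x' = k x) (hkb : kb x' = kb x)
    (h₁ : en (k x) (σ x) = kb x) (h₂ : en (k x') (σ x') = kb x') :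
    T.Loc (σ x).length (σ x').length (qId T k kb σ x x') := by
  have l₁ := loc_Abs T (k x) (σ x)
  have l₂ := loc_Em T (k x') (σ x')
  rw [h₁] at l₁
  rw [h₂, hkb] at l₂
  exact loc_lp (Paths_mul l₂ l₁ hk.symm)

theorem loc_qgen {g : NGen E} (hk : g.okc k) (hkb : g.okc kb)
    (hσ : ∀ e, en (k e) (σ e) = kb e) :
    T.Loc (wid (fun e => (σ e).length) g.src) (wid (fun e => (σ e).length) g.tgt)
      ((qOps T k kb σ).gen g) := by
  have lE : ∀ e, T.Loc (k e) (kb e + (σ e).length) (Em T (k e) (σ e)) := fun e => by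
    have := loc_Em T (k e) (σ e)
    rwa [hσ] at this
  have lA : ∀ e, T.Loc (kb e + (σ e).length) (k e) (Abs T (k e) (σ e)) := fun e => by
    have := loc_Abs T (k e) (σ e)
    rwa [hσ] at this
  cases g with
  | cup e₁ e₂ =>
    have hk' : k e₂ = k e₁ := hk
    have hkb' : kb e₂ = kb e₁ := hkb
    have h1 := Paths_mul ((lE e₂).padR (σ e₁).length) (loc_Tw (lE e₁)) (by omega)
    have h2 := loc_lp (c := kb e₂) (m := 0) (n := (σ e₂).length + (σ e₁).length)
      (h1.cast (by omega) (by omega) fun _ => rfl)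
    exact h2.cast (by simp [NGen.src]) (by simp [NGen.tgt]; omega) fun _ => rfl
  | cap e₁ e₂ =>
    have hk' : k e₂ = k e₁ := hk
    have hkb' : kb e₂ = kb e₁ := hkb
    have h1 := Paths_mul (loc_Tw' (lA e₁)) ((lA e₂).padR (σ e₁).length) (by omega)
    have h2 := loc_lp (c := kb e₂) (m := (σ e₂).length + (σ e₁).length) (n := 0)
      (h1.cast (by omega) (by omega) fun _ => rfl)
    exact h2.cast (by simp [NGen.src]; omega) (by simp [NGen.tgt]) fun _ => rfl
  | cr b x y y' x' =>
    obtain ⟨hkx, hky⟩ : k x' = k x ∧ k y' = k y := hk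
    obtain ⟨hbx, hby⟩ : kb x' = kb x ∧ kb y' = kb y := hkb
    cases b with
    | true =>
      have h1 := Paths_mul (Paths_mul ((lE x').padR (σ y').length)
        (loc_Mon T true (k x) (σ y').length) (by omega)) ((lA x).padR (σ y').length) rfl
      have h2 := loc_lp (c := kb x) (m := (σ x).length + (σ y').length)
        (n := (σ x').length + (σ y').length) (h1.cast (by omega) (by omega) fun _ => rfl)
      have h3 := Paths_mul (Paths_mul h2 (T.loc_crC false (σ y').length (σ x).length) rfl)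
        ((Slice_loc_qId (T := T) hky hby (hσ y) (hσ y')).padR (σ x).length) rfl
      exact h3.cast (by simp [NGen.src]; omega) (by simp [NGen.tgt]; omega) fun _ => rfl
    | false =>
      have h1 := Paths_mul (Paths_mul (Paths_mul
        ((loc_Mon T false (kb y) (σ x').length).padR (σ y').length)
        ((T.loc_crC false (σ y').length (σ x').length).padL (kb y)) (by omega))
        ((lE y').padR (σ x').length) (by omega)) ((lA y).padR (σ x').length) (by omega)
      have h2 := loc_lp (c := kb y) (m := (σ y).length + (σ x').length)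
        (n := (σ x').length + (σ y').length) (h1.cast (by omega) (by omega) fun _ => rfl)
      have h3 := Paths_mul h2
        ((Slice_loc_qId (T := T) hkx hbx (hσ x) (hσ x')).padL (σ y).length) rfl
      exact h3.cast (by simp [NGen.src]; omega) (by simp [NGen.tgt]; omega) fun _ => rfl

theorem Slice_loc_tensL (hσ : ∀ e, en (k e) (σ e) = kb e) (l : List (E × E)) :
    (∀ u ∈ l, k u.2 = k u.1) → (∀ u ∈ l, kb u.2 = kb u.1) → ∀ {m m' : ℕ} {z : ℕ → R},
      T.Loc m m' z → T.Loc (wid (fun e => (σ e).length) (l.map Prod.fst) + m)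
        (wid (fun e => (σ e).length) (l.map Prod.snd) + m')
        (tensL (qOps T k kb σ) (fun e => (σ e).length) l z) := by
  induction l with
  | nil => exact fun _ _ _ _ _ hz => hz.cast (by simp) (by simp) fun _ => rfl
  | cons x l ih =>
    intro hk hkb m m' z hz
    have h1 := (Slice_loc_qId (T := T) (hk x List.mem_cons_self) (hkb x List.mem_cons_self)
      (hσ x.1) (hσ x.2)).tens hz
    exact (ih (fun u hu => hk u (List.mem_cons_of_mem _ hu))
      (fun u hu => hkb u (List.mem_cons_of_mem _ hu)) h1).cast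
        (by simp only [List.map_cons, wid_cons]; omega)
        (by simp only [List.map_cons, wid_cons]; omega) fun _ => rfl

theorem loc_Osl {s : NSl E} (hk : s.okc k) (hkb : s.okc kb) (hσ : ∀ e, en (k e) (σ e) = kb e) :
    T.Loc (wid (fun e => (σ e).length) s.src) (wid (fun e => (σ e).length) s.tgt)
      (Osl (qOps T k kb σ) (fun e => (σ e).length) s) := by
  have h1 := Slice_loc_tensL (T := T) hσ s.l (fun u hu => hk.1 u (List.mem_append_left _ hu))
    (fun u hu => hkb.1 u (List.mem_append_left _ hu)) (TL.Loc.one 0)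
  have h2 := Slice_loc_tensL (T := T) hσ s.r (fun u hu => hk.1 u (List.mem_append_right _ hu))
    (fun u hu => hkb.1 u (List.mem_append_right _ hu)) ((loc_qgen hk.2 hkb.2 hσ).tens h1)
  exact h2.cast (by simp only [NSl.src, wid_append]; omega)
    (by simp only [NSl.tgt, wid_append]; omega) fun _ => rfl

theorem Slice_id {n b j m m' w wb a a' c c' d d' : ℕ} {W Em' Ab z A B : ℕ → R}
    (hW : T.Loc d d' W) (hAb : T.Loc (b + j) n Ab) (hz : T.Loc m m' z) (hA : T.Loc a a' A)
    (hB : T.Loc c c' B) (p : ℕ) :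
    ptr T b (fun q => A (q + (b + wb)) * (W (q + b) * Em' q * T.crC true m' n q) * z q *
        B (q + m + (n + w)) * T.crC false n m q * Ab q) p =
      A (p + wb) * W p * (ptr T b (fun q => Em' q * Ab q) p * z (p + j)) *
        B (p + (j + m) + w) := by
  have e1 : T.capC b p * A (p + b + (b + wb)) = A (p + wb) * T.capC b p :=
    (T.loc_capC b).far' hA p _ _ (by omega) (by omega)
  have e2 : T.capC b p * W (p + b + b) = W p * T.capC b p :=
    (T.loc_capC b).far' hW p _ _ (by omega) (by omega)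
  have e3 : T.crC true m' n (p + b) * z (p + b) = z (p + b + n) * T.crC true m n (p + b) :=
    hz.natL true n (p + b)
  have e4 : T.crC true m n (p + b) * B (p + b + m + (n + w)) =
      B (p + b + m + (n + w)) * T.crC true m n (p + b) :=
    (T.loc_crC true m n).far' hB _ _ _ (by omega) (by omega)
  have e5 : T.crC true m n (p + b) * T.crC false n m (p + b) = 1 := T.r2C false n m (p + b)
  have e6 : B (p + b + m + (n + w)) * Ab (p + b) =
      Ab (p + b) * B (p + (j + m) + w + (b + b)) :=
    (hAb.far' hB _ _ _ (by omega) (by omega)).symm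
  have e7 : z (p + b + n) * Ab (p + b) = Ab (p + b) * z (p + j + (b + b)) :=
    (hAb.far' hz _ _ _ (by omega) (by omega)).symm
  have e8 : B (p + (j + m) + w + (b + b)) * T.cupC b p = T.cupC b p * B (p + (j + m) + w) :=
    ((T.loc_cupC b).far' hB _ _ _ (by omega) (by omega)).symm
  have e9 : z (p + j + (b + b)) * T.cupC b p = T.cupC b p * z (p + j) :=
    ((T.loc_cupC b).far' hz _ _ _ (by omega) (by omega)).symm
  simp only [ptr, mul_assoc]
  rw [GenCup_ra e1, GenCup_ra e2, GenCup_ra e3, GenCup_ra e4, GenCup_rb e5, one_mul,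
    GenCup_ra e6, e8, GenCup_ra e7, GenCup_ra e9]

theorem gen_id {x x' : E} (hk : k x' = k x) (hkb : kb x' = kb x) (h₁ : en (k x) (σ x) = kb x)
    (h₂ : en (k x') (σ x') = kb x') (hd : Dl T.a (kb x) ≠ 0) (ρ ρ' : List E)
    (hρ' : ∀ e ∈ ρ', en (k e) (σ e) = kb e) {m m' w wb a a' b b' : ℕ} {y z A B : ℕ → R}
    (hz : T.Loc m m' z) (hA : T.Loc a a' A) (hB : T.Loc b b' B)
    (hy : T.Loc (wid (fun e => (σ e).length) ρ' + ((σ x').length + m')) 0 y) :
    RR T k kb σ m (x :: ρ) (fun p => A (p + (kb x + wb)) * EE T k kb σ m' (x' :: ρ') y p * z p *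
        B (p + m + (k x + w))) =
      Dl T.a (kb x) • RR T k kb σ ((σ x).length + m) ρ fun p => A (p + wb) *
        EE T k kb σ ((σ x').length + m') ρ' y p *
          (qId T k kb σ x x' p * z (p + (σ x).length)) * B (p + ((σ x).length + m) + w) := by
  have hW := loc_EE (r := 0) hρ' hy
  have l₁ := loc_Abs T (k x) (σ x)
  rw [h₁] at l₁
  rw [← RR_smul, RR]
  congr 1
  funext p
  simp only [EE, qId, lp, Pi.smul_apply, smul_mul_assoc, mul_smul_comm, smul_smul,
    mul_inv_cancel₀ hd, one_smul]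
  rw [hk, hkb]
  exact Slice_id hW l₁ hz hA hB p

theorem Slice_list (hσ : ∀ e, en (k e) (σ e) = kb e) (hd : ∀ e, Dl T.a (kb e) ≠ 0)
    (ρ ρ' : List E) {a a' b b' : ℕ} {y A B : ℕ → R} (hA : T.Loc a a' A) (hB : T.Loc b b' B)
    (l : List (E × E)) :
    (∀ u ∈ l, k u.2 = k u.1) → (∀ u ∈ l, kb u.2 = kb u.1) → ∀ {m m' : ℕ} {z : ℕ → R},
      T.Loc m m' z →
      T.Loc (wid (fun e => (σ e).length) (l.map Prod.snd ++ ρ') + m') 0 y →
      RR T k kb σ m (l.map Prod.fst ++ ρ) (fun p => A (p + wid kb (l.map Prod.fst)) *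
          EE T k kb σ m' (l.map Prod.snd ++ ρ') y p * z p * B (p + m + wid k (l.map Prod.fst))) =
        (l.map fun u => Dl T.a (kb u.1)).prod •
          RR T k kb σ (wid (fun e => (σ e).length) (l.map Prod.fst) + m) ρ fun p => A p *
            EE T k kb σ (wid (fun e => (σ e).length) (l.map Prod.snd) + m') ρ' y p *
              tensL (qOps T k kb σ) (fun e => (σ e).length) l z p *
                B (p + (wid (fun e => (σ e).length) (l.map Prod.fst) + m)) := by
  induction l with
  | nil =>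
    intro _ _ m m' z _ _
    simp only [List.map_nil, List.nil_append, wid_nil, add_zero, zero_add, List.prod_nil,
      one_smul, tensL]
  | cons x l ih =>
    intro hk hkb m m' z hz hy
    have k1 := hk x List.mem_cons_self
    have k2 := hkb x List.mem_cons_self
    have h1 := (Slice_loc_qId (T := T) k1 k2 (hσ x.1) (hσ x.2)).tens hz
    have hy' : T.Loc (wid (fun e => (σ e).length) (l.map Prod.snd ++ ρ') +
        ((σ x.2).length + m')) 0 y :=
      hy.cast (by simp only [List.map_cons, List.cons_append, wid_cons]; omega) rfl fun _ => rfl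
    have e1 : wid (fun e => (σ e).length) (l.map Prod.fst) + ((σ x.1).length + m) =
        (σ x.1).length + wid (fun e => (σ e).length) (l.map Prod.fst) + m := by omega
    have e2 : wid (fun e => (σ e).length) (l.map Prod.snd) + ((σ x.2).length + m') =
        (σ x.2).length + wid (fun e => (σ e).length) (l.map Prod.snd) + m' := by omega
    have i1 := ih (fun u hu => hk u (List.mem_cons_of_mem _ hu))
      (fun u hu => hkb u (List.mem_cons_of_mem _ hu)) h1 hy'
    rw [e1, e2] at i1
    simp only [List.map_cons, List.cons_append, wid_cons, List.prod_cons]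
    rw [gen_id k1 k2 (hσ x.1) (hσ x.2) (hd x.1) _ _ (fun e _ => hσ e) hz hA hB hy', i1, smul_smul]
    rfl

theorem Slice_gen (hT : Ok T) {g : NGen E} (hk : g.okc k) (hkb : g.okc kb)
    (hσ : ∀ e, en (k e) (σ e) = kb e) (hd : ∀ e, Dl T.a (kb e) ≠ 0) (ρ ρ' : List E)
    {m m' : ℕ} {y z : ℕ → R} (hz : T.Loc m m' z)
    (hy : T.Loc (wid (fun e => (σ e).length) (g.tgt ++ ρ') + m') 0 y) :
    RR T k kb σ m (g.src ++ ρ) (fun p => nga T kb g p * EE T k kb σ m' (g.tgt ++ ρ') y p * z p *
        ngv T k g (p + m)) =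
      lpG (fun e => Dl T.a (kb e)) g •
        RR T k kb σ (wid (fun e => (σ e).length) g.src + m) ρ fun p =>
          EE T k kb σ (wid (fun e => (σ e).length) g.tgt + m') ρ' y p *
            ((qOps T k kb σ).gen g p * z (p + wid (fun e => (σ e).length) g.src)) := by
  cases g with
  | cup e₁ e₂ =>
    have e : (σ e₁).length + (σ e₂).length + m' = (σ e₂).length + ((σ e₁).length + m') := by omega
    simp only [NGen.src, NGen.tgt, List.cons_append, List.nil_append, wid_cons, wid_nil, add_zero,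
      zero_add] at hy ⊢
    rw [gen_cup hT hk hkb (hσ _) (hσ _) (hd _) ρ ρ' (fun e _ => hσ e) hz
      (hy.cast (by omega) rfl fun _ => rfl), RR_smul, e]
    rfl
  | cap e₁ e₂ =>
    have e : (σ e₁).length + (σ e₂).length + m = (σ e₂).length + ((σ e₁).length + m) := by omega
    simp only [NGen.src, NGen.tgt, List.cons_append, List.nil_append, wid_cons, wid_nil, add_zero,
      zero_add] at hy ⊢
    rw [gen_cap hT hk hkb (hσ _) (hσ _) (hd _) ρ ρ' (fun e _ => hσ e) hz hy, e]
    rfl
  | cr b x y₁ y' x' =>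
    have e : (σ x).length + (σ y₁).length + m = (σ y₁).length + ((σ x).length + m) := by omega
    have e' : (σ y').length + (σ x').length + m' = (σ x').length + ((σ y').length + m') := by omega
    simp only [NGen.src, NGen.tgt, List.cons_append, List.nil_append, wid_cons, wid_nil, add_zero,
      zero_add] at hy ⊢
    rw [gen_cr b hk.1 hk.2 hkb.1 hkb.2 (hσ _) (hσ _) (hσ _) (hσ _) (hd _) (hd _) ρ ρ'
      (fun e _ => hσ e) hz (hy.cast (by omega) rfl fun _ => rfl), e, e']
    rfl

theorem Slice_loc_ngv {g : NGen E} (hk : g.okc k) :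
    T.Loc (wid k g.src) (wid k g.tgt) (ngv T k g) := by
  cases g with
  | cup e₁ e₂ =>
    have hk' : k e₂ = k e₁ := hk
    exact (((T.loc_f (k e₁)).padR (k e₁)).mul (T.loc_cupC (k e₁))).cast (by simp [NGen.src])
      (by simp [NGen.tgt, hk']) fun _ => rfl
  | cap e₁ e₂ =>
    have hk' : k e₂ = k e₁ := hk
    exact ((T.loc_capC (k e₁)).mul ((T.loc_f (k e₁)).padR (k e₁))).cast
      (by simp [NGen.src, hk']) (by simp [NGen.tgt]) fun _ => rfl
  | cr b x y y' x' =>
    obtain ⟨h1, h2⟩ : k x' = k x ∧ k y' = k y := hk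
    exact (T.loc_crC b (k x) (k y)).cast (by simp [NGen.src]) (by simp [NGen.tgt, h1, h2])
      fun _ => rfl

theorem Slice_loc_nga {g : NGen E} (hk : g.okc k) :
    T.Loc (wid k g.tgt) (wid k g.src) (nga T k g) := by
  cases g with
  | cup e₁ e₂ =>
    have hk' : k e₂ = k e₁ := hk
    exact ((T.loc_capC (k e₁)).mul ((T.loc_f (k e₁)).padR (k e₁))).cast
      (by simp [NGen.tgt, hk']) (by simp [NGen.src]) fun _ => rfl
  | cap e₁ e₂ =>
    have hk' : k e₂ = k e₁ := hk
    exact (((T.loc_f (k e₁)).padR (k e₁)).mul (T.loc_cupC (k e₁))).cast (by simp [NGen.tgt])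
      (by simp [NGen.src, hk']) fun _ => rfl
  | cr b x y y' x' =>
    obtain ⟨h1, h2⟩ : k x' = k x ∧ k y' = k y := hk
    exact (T.loc_crC (!b) (k y) (k x)).cast (by simp [NGen.tgt, h1, h2]) (by simp [NGen.src])
      fun _ => rfl

theorem slice_eq (hT : Ok T) {s : NSl E} (hk : s.okc k) (hkb : s.okc kb)
    (hσ : ∀ e, en (k e) (σ e) = kb e) (hd : ∀ e, Dl T.a (kb e) ≠ 0) {y : ℕ → R}
    (hy : T.Loc (wid (fun e => (σ e).length) s.tgt) 0 y) :
    RR T k kb σ 0 s.src (fun p => nga T kb s.g (p + wid kb (s.l.map Prod.fst)) *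
        EE T k kb σ 0 s.tgt y p * ngv T k s.g (p + wid k (s.l.map Prod.fst))) =
      lpS (fun e => Dl T.a (kb e)) s •
        fun p => y p * Osl (qOps T k kb σ) (fun e => (σ e).length) s p := by
  have kl := fun u hu => hk.1 u (List.mem_append_left s.r hu)
  have kr := fun u hu => hk.1 u (List.mem_append_right s.l hu)
  have bl := fun u hu => hkb.1 u (List.mem_append_left s.r hu)
  have br := fun u hu => hkb.1 u (List.mem_append_right s.l hu)
  rw [NSl.tgt] at hy
  have z1 := Slice_loc_tensL (T := T) hσ s.l kl bl (TL.Loc.one 0)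
  have z2 := (loc_qgen hk.2 hkb.2 hσ).tens z1
  have s1 := Slice_list hσ hd (s.g.src ++ s.r.map Prod.fst) (s.g.tgt ++ s.r.map Prod.snd)
    (y := y) (Slice_loc_nga (T := T) hkb.2) (Slice_loc_ngv (T := T) hk.2) s.l kl bl (TL.Loc.one 0)
    (hy.cast (by simp only [wid_append]; omega) rfl fun _ => rfl)
  have s2 := Slice_gen hT hk.2 hkb.2 hσ hd (s.r.map Prod.fst) (s.r.map Prod.snd) (y := y) z1
    (hy.cast (by simp only [wid_append]; omega) rfl fun _ => rfl)
  have s3 := Slice_list hσ hd [] [] (y := y) (TL.Loc.one (T := T) 0) (TL.Loc.one 0) s.r kr br z2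
    (hy.cast (by simp only [wid_append, wid_nil]; omega) rfl fun _ => rfl)
  rw [s2] at s1
  simp only [List.append_nil, one_mul, mul_one, RR, EE] at s3
  rw [s3] at s1
  simp only [mul_one, add_zero] at s1
  rw [NSl.src, NSl.tgt, List.append_assoc, List.append_assoc, s1, smul_smul, smul_smul, lpS,
    List.map_append, List.prod_append, mul_right_comm]
  rfl

theorem Slice_red (hT : Ok T) (hσ : ∀ e, en (k e) (σ e) = kb e) (hd : ∀ e, Dl T.a (kb e) ≠ 0)
    (P : List (NSl E)) : ∀ {ρ : List E}, NRun ρ P → (∀ s ∈ P, s.okc k ∧ s.okc kb) →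
      T.Loc (wid k ρ) (wid kb ρ)
        (Hv T k kb (fun e w wb => Cut T (σ e) w (k e) wb (kb e)) P) ∧
      T.Loc (wid (fun e => (σ e).length) ρ) 0 (Red (qOps T k kb σ) (fun e => (σ e).length) P) ∧
      RR T k kb σ 0 ρ (Hv T k kb (fun e w wb => Cut T (σ e) w (k e) wb (kb e)) P) =
        (P.map (lpS fun e => Dl T.a (kb e))).prod •
          Red (qOps T k kb σ) (fun e => (σ e).length) P := by
  induction P with
  | nil =>
    intro ρ h _
    obtain rfl : ρ = [] := h
    refine ⟨(TL.Loc.one 0).cast rfl rfl fun _ => rfl, (TL.Loc.one 0).cast rfl rfl fun _ => rfl, ?_⟩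
    rw [List.map_nil, List.prod_nil, one_smul]
    rfl
  | cons s P ih =>
    intro ρ h hok
    obtain ⟨rfl, h⟩ := h
    obtain ⟨hk, hkb⟩ := hok s List.mem_cons_self
    obtain ⟨i1, i2, i3⟩ := ih h fun u hu => hok u (List.mem_cons_of_mem _ hu)
    have e : Hv T k kb (fun e w wb => Cut T (σ e) w (k e) wb (kb e)) (s :: P) =
        (P.map (lpS fun e => Dl T.a (kb e))).prod • fun p =>
          nga T kb s.g (p + wid kb (s.l.map Prod.fst)) *
            EE T k kb σ 0 s.tgt (Red (qOps T k kb σ) (fun e => (σ e).length) P) p *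
              ngv T k s.g (p + wid k (s.l.map Prod.fst)) := by
      funext p
      rw [Hv, Phi_cut (fun e _ => hσ e) i1, i3, EE_smul]
      simp only [Pi.smul_apply, smul_mul_assoc, mul_smul_comm]
    refine ⟨?_, ?_, ?_⟩
    · have l1 := loc_EE (T := T) (k := k) (kb := kb) (σ := σ) (ρ := s.tgt) (fun e _ => hσ e)
        (m := 0) (r := 0) i2
      have l2 := ((Slice_loc_nga (T := T) hkb.2).padL (wid kb (s.l.map Prod.fst))).padR
        (wid kb (s.r.map Prod.fst))
      have l3 := ((Slice_loc_ngv (T := T) hk.2).padL (wid k (s.l.map Prod.fst))).padR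
        (wid k (s.r.map Prod.fst))
      obtain ⟨w1, w2⟩ := hk.wid
      obtain ⟨w3, w4⟩ := hkb.wid
      have l4 := Paths_mul (Paths_mul l2 l1 (by simp only [NSl.tgt, wid_append]; omega)) l3
        (by simp only [NSl.tgt, wid_append]; omega)
      rw [e]
      exact (l4.smul _).cast (by simp only [NSl.src, wid_append])
        (by simp only [NSl.src, wid_append]) fun _ => rfl
    · exact (i2.mul (loc_Osl hk hkb hσ)).cast rfl rfl fun _ => rfl
    · rw [e, RR_smul, slice_eq hT hk hkb hσ hd i2, smul_smul, List.map_cons, List.prod_cons,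
        mul_comm]
      rfl

end

theorem Hv_red [Fintype E] (hT : Ok T) {L : List (Sl (Arc ι))} (Q : Prog L E) (k kb : ι → ℕ)
    (σ : E → List Bool) (hσ : ∀ e, en (k (Q.nm e)) (σ e) = kb (Q.nm e))
    (hd : ∀ i, Dl T.a (kb i) ≠ 0) :
    Hv T (fun e => k (Q.nm e)) (fun e => kb (Q.nm e))
        (fun e w wb => Cut T (σ e) w (k (Q.nm e)) wb (kb (Q.nm e))) Q.pr 0 =
      (∏ e, Dl T.a (kb (Q.nm e))) • Red (qOps T (fun e => k (Q.nm e)) (fun e => kb (Q.nm e)) σ)
        (fun e => (σ e).length) Q.pr 0 := by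
  have h := (Slice_red (k := fun e => k (Q.nm e)) (kb := fun e => kb (Q.nm e)) hT hσ
    (fun e => hd _) Q.pr Q.run fun s hs => ⟨Q.okc k s hs, Q.okc kb s hs⟩).2.2
  rw [Q.prod_lpS fun i => Dl T.a (kb i)] at h
  exact congrFun h 0

end Pool.Agent.P.MP_53e370_gt.S
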