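import Pool.Agent.P.MP_53e370_gt.S.WEval
import Pool.Agent.P.MP_53e370_gt.S.HvCut
import Pool.Agent.P.MP_53e370_gt.S.Slice

/-! The formula for the doubled link with Kirby-coloured rings. -/

namespace Pool.Agent.P.MP_53e370_gt.S

open Pool.Agent.P.MP_ac4909_gt

variable {K : Type} [Field K] {R : Type} [Ring R] [Algebra K R] {T : TL K R} {ι E : Type}
  [Fintype ι] [DecidableEq ι] [Fintype E] [DecidableEq E] {L : List (Sl (Arc ι))}

section Aux

open Polynomial.Chebyshev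

/-- the ring operator is linear in the polynomial -/
noncomputable def GForm_lin (T : TL K R) (w k wb kb : ℕ) :
    Polynomial K →ₗ[K] Module.End K (ℕ → R) :=
  Polynomial.lsum fun n => LinearMap.toSpanSingleton K _ (RgN T n w k wb kb)

theorem GForm_lin_apply (T : TL K R) (w k wb kb : ℕ) (q : Polynomial K) :
    GForm_lin T w k wb kb q = OmR T q w k wb kb := rfl

theorem GForm_OmR_sum (T : TL K R) (s : Finset ℕ) (c : ℕ → K) (q : ℕ → Polynomial K)
    (w k wb kb : ℕ) :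
    OmR T (∑ κ ∈ s, Polynomial.C (c κ) * q κ) w k wb kb =
      ∑ κ ∈ s, c κ • OmR T (q κ) w k wb kb := by
  rw [← GForm_lin_apply, map_sum]
  refine Finset.sum_congr rfl fun κ _ => ?_
  rw [← Polynomial.smul_eq_C_mul, map_smul, GForm_lin_apply]

theorem GForm_OmR_S (T : TL K R) (m : ℤ) (w k wb kb : ℕ) :
    OmR T (S K m) w k wb kb = ∑ n ∈ Finset.range ((S ℤ m).natDegree + 1),
      (((S ℤ m).coeff n : ℤ) : K) • RgN T n w k wb kb := by
  have e : S K m = (S ℤ m).map (Int.castRingHom K) := (map_S _ _).symm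
  have hd : (S K m).natDegree < (S ℤ m).natDegree + 1 := by
    rw [e]
    exact Nat.lt_succ_of_le Polynomial.natDegree_map_le
  rw [OmR, Polynomial.sum_over_range' (f := fun n c => c • RgN T n w k wb kb) _
    (fun n => zero_smul _ _) _ hd]
  refine Finset.sum_congr rfl fun n _ => ?_
  rw [e, Polynomial.coeff_map, eq_intCast]

omit [DecidableEq ι] [DecidableEq E] in
theorem GForm_chb (k kb : ι → ℕ) (κ : E → ℕ) :
    chb (fun i => (cl k kb κ i : ℤ) + 1) = chb (fun i => (cl k kb (0 : E → ℕ) i : ℤ) + 1) *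
      ∏ e, Polynomial.aeval (MvPolynomial.X (Sum.inr e) : MvPolynomial ((ι ⊕ ι) ⊕ E) ℤ)
        (S ℤ (κ e)) := by
  simp only [chb, add_sub_cancel_right]
  rw [Fintype.prod_sum_type, Fintype.prod_sum_type (α₂ := E)]
  simp [cl]

omit [DecidableEq ι] [DecidableEq E] in
theorem GForm_mon (j : E → ℕ) :
    (∏ i, MvPolynomial.X i ^ cl (0 : ι → ℕ) 0 j i : MvPolynomial ((ι ⊕ ι) ⊕ E) ℤ) =
      ∏ e, MvPolynomial.X (Sum.inr e) ^ j e := by
  rw [Fintype.prod_sum_type, Fintype.prod_sum_type]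
  simp [cl]

theorem GForm_Jv (Q : Prog L E) (hW : IsFramedLink Q.W) {k kb : ι → ℕ}
    (hk : ∀ i, Adm T.a (k i)) (hkb : ∀ i, Adm T.a (kb i)) (κ : E → ℕ) :
    algebraMap K R (Jv T.a T.ha Q.W (cl k kb κ)) =
      Hv T (fun e => k (Q.nm e)) (fun e => kb (Q.nm e))
        (fun e w wb => OmR T (S K (κ e)) w (k (Q.nm e)) wb (kb (Q.nm e))) Q.pr 0 := by
  have hadm : ∀ i, Adm T.a (cl k kb (0 : E → ℕ) i) := by
    rintro ((i | i) | e)
    · exact hk i
    · exact hkb i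
    · exact fun j hj => absurd hj (Nat.not_lt_zero j)
  simp only [GForm_OmR_S]
  rw [Hv_sum T _ _ (fun e => Finset.range ((S ℤ (κ e)).natDegree + 1))
    (fun e n => (((S ℤ (κ e)).coeff n : ℤ) : K))
    (fun e n w wb => RgN T n w (k (Q.nm e)) wb (kb (Q.nm e))) Q.nodup Q.all]
  rw [Jv, JP, GForm_chb]
  simp only [Polynomial.aeval_eq_sum_range]
  rw [Finset.prod_univ_sum, Finset.mul_sum, map_sum, map_sum, map_sum, Finset.sum_apply]
  refine Finset.sum_congr rfl fun j _ => ?_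
  rw [Finset.prod_smul, mul_smul_comm, map_smul, map_zsmul, map_zsmul, ← GForm_mon,
    ← T.ev_jcA hW _ _ (fun _ => true) hadm, ev_W_plain, Pi.smul_apply, ← Int.cast_prod,
    Int.cast_smul_eq_zsmul]

theorem GForm_Em (T : TL K R) (n p : ℕ) : Em T n [] p = T.f n p := by
  simp [Em, PP, TL.cupC]

theorem GForm_Abs (T : TL K R) (n p : ℕ) : Abs T n [] p = T.f n p := by
  simp [Abs, II, TL.capC]

theorem GForm_Mon (T : TL K R) (s : Bool) (n p : ℕ) : Mon T s n 0 p = 1 := by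
  simp [Mon, TL.crC_zero_left, TL.crC]

theorem GForm_lp {n : ℕ} (h : Adm T.a (n + 1)) {Z : ℕ → R} (hZ : ∀ q, Z q = T.f n q) (p : ℕ) :
    lp T n Z p = 1 := by
  have h1 : Adm T.a n := h.mono (Nat.le_succ n)
  rw [lp, Pi.smul_apply, ptr, hZ, mul_assoc, ← T.rot_f h1 p, ← mul_assoc, T.f_closure h1,
    Algebra.smul_def, ← map_mul, inv_mul_cancel₀ (h n (Nat.lt_succ_self n)), map_one]

theorem GForm_Tw {n : ℕ} (h : Adm T.a n) (q : ℕ) : Tw T n n 0 (Em T n []) q = T.f n q := by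
  rw [Tw, T.crC_zero_left, mul_one, GForm_Em, (T.rot_f h).cap (T.loc_f n) (T.loc_f n), mul_assoc,
    (T.loc_f n).far' (T.loc_cupC n) q (q + n) (q + n) le_rfl rfl, ← mul_assoc, T.zagC, one_mul]

theorem GForm_Tw' {n : ℕ} (h : Adm T.a n) (q : ℕ) : Tw' T n n 0 (Abs T n []) q = T.f n q := by
  rw [Tw', TL.crC, mul_one, GForm_Abs, mul_assoc, ← T.rot_f h q, ← mul_assoc,
    ← (T.loc_f n).far' (T.loc_capC n) q (q + n) (q + n) le_rfl rfl, mul_assoc, T.zigC, mul_one]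

omit [Fintype E] [DecidableEq E] in
theorem GForm_id {k : E → ℕ} (h : ∀ e, Adm T.a (k e + 1)) {x x' : E} (hx : k x' = k x) (p : ℕ) :
    qId T k k (fun _ => []) x x' p = 1 := by
  refine GForm_lp (h x) (fun q => ?_) p
  rw [GForm_Em, GForm_Abs, hx, T.f_idem ((h x).mono (Nat.le_succ _))]

omit [Fintype E] [DecidableEq E] in
theorem GForm_gen {k : E → ℕ} (h : ∀ e, Adm T.a (k e + 1)) {g : NGen E} (hg : g.okc k) (p : ℕ) :
    (qOps T k k fun _ => []).gen g p = 1 := by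
  have h1 : ∀ e, Adm T.a (k e) := fun e => (h e).mono (Nat.le_succ _)
  rcases g with ⟨e₁, e₂⟩ | ⟨e₁, e₂⟩ | ⟨b, x, y, y', x'⟩
  · have e : k e₂ = k e₁ := hg
    refine GForm_lp (h e₂) (fun q => ?_) p
    rw [List.length_nil, GForm_Tw (h1 e₁), GForm_Em, e, T.f_idem (h1 e₁)]
  · have e : k e₂ = k e₁ := hg
    refine GForm_lp (h e₂) (fun q => ?_) p
    rw [List.length_nil, GForm_Tw' (h1 e₁), GForm_Abs, e, T.f_idem (h1 e₁)]
  · obtain ⟨ex, ey⟩ : k x' = k x ∧ k y' = k y := hg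
    cases b
    · change lp T (k y) _ p * qId T k k _ x x' _ = 1
      rw [GForm_id h ex, mul_one]
      refine GForm_lp (h y) (fun q => ?_) p
      rw [List.length_nil, GForm_Mon, T.crC_zero_left, GForm_Em, GForm_Abs, ey, one_mul, one_mul,
        T.f_idem (h1 y)]
    · change lp T (k x) _ p * T.crC false 0 0 p * qId T k k _ y y' _ = 1
      rw [GForm_id h ey, mul_one, T.crC_zero_left, mul_one]
      refine GForm_lp (h x) (fun q => ?_) p
      rw [List.length_nil, GForm_Mon, GForm_Em, GForm_Abs, ex, mul_one, T.f_idem (h1 x)]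

omit [Fintype E] [DecidableEq E] in
theorem GForm_tensL (O : Ops E R) (j : E → ℕ) (l : List (E × E))
    (hl : ∀ z ∈ l, ∀ p, O.id z.1 z.2 p = 1) {z : ℕ → R} (hz : ∀ p, z p = 1) (p : ℕ) :
    tensL O j l z p = 1 := by
  induction l generalizing z with
  | nil => exact hz p
  | cons x l ih =>
    rw [tensL]
    refine ih (fun z hz => hl z (List.mem_cons_of_mem _ hz)) fun q => ?_
    rw [hl x List.mem_cons_self, hz, mul_one]

omit [Fintype E] [DecidableEq E] in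
theorem GForm_Red {k : E → ℕ} (h : ∀ e, Adm T.a (k e + 1)) (j : E → ℕ) (P : List (NSl E))
    (hP : ∀ s ∈ P, s.okc k) (p : ℕ) : Red (qOps T k k fun _ => []) j P p = 1 := by
  induction P with
  | nil => rfl
  | cons s P ih =>
    have hs := hP s List.mem_cons_self
    rw [Red, ih fun s hs => hP s (List.mem_cons_of_mem _ hs), one_mul, Osl]
    refine GForm_tensL _ _ _ (fun z hz q => GForm_id h (hs.1 z (List.mem_append_right _ hz)) q)
      (fun q => ?_) p
    rw [GForm_gen h hs.2, one_mul]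
    exact GForm_tensL _ _ _ (fun z hz q => GForm_id h (hs.1 z (List.mem_append_left _ hz)) q)
      (fun _ => rfl) _

end Aux

theorem Jv_sum (Q : Prog L E) (hW : IsFramedLink Q.W) {k kb : ι → ℕ} (hk : ∀ i, Adm T.a (k i))
    (hkb : ∀ i, Adm T.a (kb i)) (N : ℕ) (c : E → ℕ → K) :
    algebraMap K R (∑ κ ∈ bx E N, (∏ e, c e (κ e)) * Jv T.a T.ha Q.W (cl k kb κ)) =
      Hv T (fun e => k (Q.nm e)) (fun e => kb (Q.nm e))
        (fun e w wb => OmR T (∑ κ ∈ Finset.range (N + 1),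
          Polynomial.C (c e κ) * Polynomial.Chebyshev.S K κ) w (k (Q.nm e)) wb (kb (Q.nm e)))
        Q.pr 0 := by
  simp only [GForm_OmR_sum]
  rw [Hv_sum T _ _ (fun _ => Finset.range (N + 1)) c
    (fun e (n : ℕ) w wb => OmR T (Polynomial.Chebyshev.S K n) w (k (Q.nm e)) wb (kb (Q.nm e)))
    Q.nodup Q.all, map_sum, Finset.sum_apply]
  refine Finset.sum_congr rfl fun κ _ => ?_
  rw [map_mul, ← Algebra.smul_def, GForm_Jv Q hW hk hkb, Pi.smul_apply]

theorem Gs_eq (Q : Prog L E) (hW : IsFramedLink Q.W) {N : ℕ} (h : Lev T N) {k kb : ι → ℕ}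
    (hk : ∀ i, k i ≤ N) (hkb : ∀ i, kb i ≤ N) (j : E → ℕ) :
    algebraMap K R (Gs T.a T.ha Q.W N k kb fun κ => ∏ e, mu T.a (κ e) ^ j e) =
      ∑ σ ∈ Fintype.piFinset fun e => (ls (j e)).filter fun σ => en (k (Q.nm e)) σ = kb (Q.nm e),
        Red (qOps T (fun e => k (Q.nm e)) (fun e => kb (Q.nm e)) σ) (fun e => (σ e).length)
          Q.pr 0 := by
  have hd : ∀ i, Dl T.a (kb i) ≠ 0 := fun i => h.adm _ (Nat.lt_succ_of_le (hkb i))
  have e1 : (Gs T.a T.ha Q.W N k kb fun κ => ∏ e, mu T.a (κ e) ^ j e) =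
      (∏ _e : E, (DD T.a N)⁻¹) * ∑ κ ∈ bx E N, (∏ e, Dl T.a (κ e) * mu T.a (κ e) ^ j e) *
        Jv T.a T.ha Q.W (cl k kb κ) := by
    rw [Gs, Finset.mul_sum]
    refine Finset.sum_congr rfl fun κ _ => ?_
    rw [← mul_assoc, ← Finset.prod_mul_distrib, ← Finset.prod_mul_distrib]
    congr 1
    refine Finset.prod_congr rfl fun e _ => ?_
    rw [div_eq_inv_mul, mul_assoc]
  have e2 := Jv_sum Q hW (fun i => h.adm.mono (Nat.le_succ_of_le (hk i)))
    (fun i => h.adm.mono (Nat.le_succ_of_le (hkb i))) N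
    (fun e κ => Dl T.a κ * mu T.a κ ^ j e)
  have e3 := Hv_cut h (k := fun e => k (Q.nm e)) (kb := fun e => kb (Q.nm e)) (fun e => hk _)
    (fun e => hkb _) j Q.run fun s hs => ⟨Q.okc k s hs, Q.okc kb s hs⟩
  rw [Hv_sum T _ _ (fun e => (ls (j e)).filter fun σ => en (k (Q.nm e)) σ = kb (Q.nm e))
    (fun e _ => DD T.a N / Dl T.a (kb (Q.nm e)))
    (fun e σ w wb => Cut T σ w (k (Q.nm e)) wb (kb (Q.nm e))) Q.nodup Q.all] at e3
  have e4 := congrFun e3 0
  rw [e1, map_mul, ← Algebra.smul_def, e2]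
  refine (congrArg _ e4).trans ?_
  rw [Finset.sum_apply, Finset.smul_sum]
  refine Finset.sum_congr rfl fun σ hσ => ?_
  have hσ' : ∀ e, en (k (Q.nm e)) (σ e) = kb (Q.nm e) := fun e =>
    (Finset.mem_filter.1 (Fintype.mem_piFinset.1 hσ e)).2
  rw [Pi.smul_apply, Hv_red h.ok Q k kb σ hσ' hd, smul_smul, smul_smul,
    ← Finset.prod_mul_distrib, ← Finset.prod_mul_distrib, Finset.prod_eq_one, one_smul]
  intro e _
  have h1 := h.dd
  have h2 := hd (Q.nm e)
  field_simp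

theorem GForm_far [Nontrivial R] (Q : Prog L E) (hW : IsFramedLink Q.W) {N : ℕ} (h : Lev T N)
    {k kb : ι → ℕ} (hk : ∀ i, k i ≤ N) (hkb : ∀ i, kb i ≤ N) (j : E → ℕ) (e : E)
    (he : k (Q.nm e) + j e < kb (Q.nm e) ∨ kb (Q.nm e) + j e < k (Q.nm e)) :
    (Gs T.a T.ha Q.W N k kb fun κ => ∏ e, mu T.a (κ e) ^ j e) = 0 := by
  apply (algebraMap K R).injective
  rw [Gs_eq Q hW h hk hkb, map_zero]
  refine Finset.sum_eq_zero fun σ hσ => ?_
  obtain ⟨h1, h2⟩ := Finset.mem_filter.1 (Fintype.mem_piFinset.1 hσ e)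
  have h3 := en_le (k (Q.nm e)) (σ e)
  have h4 := le_en (k (Q.nm e)) (σ e)
  rw [mem_ls] at h1
  omega

theorem Gs_one [Nontrivial R] (Q : Prog L E) (hL : IsFramedLink L) (hW : IsFramedLink Q.W)
    {N : ℕ} (h : Lev T N) {k kb : ι → ℕ} (hk : ∀ i, k i ≤ N) (hkb : ∀ i, kb i ≤ N) :
    (Gs T.a T.ha Q.W N k kb fun _ => 1) = if k = kb then 1 else 0 := by
  have e1 : (fun _ : E → ℕ => (1 : K)) = fun κ => ∏ e, mu T.a (κ e) ^ (0 : E → ℕ) e := by
    funext κ
    simp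
  rw [e1]
  split_ifs with hkk
  · subst hkk
    apply (algebraMap K R).injective
    rw [Gs_eq Q hW h hk hkb, map_one]
    have e2 : (Fintype.piFinset fun e => (ls ((0 : E → ℕ) e)).filter
        fun σ => en (k (Q.nm e)) σ = k (Q.nm e)) = {fun _ => []} := by
      ext σ
      simp only [Fintype.mem_piFinset, Finset.mem_filter, mem_ls, Pi.zero_apply,
        List.length_eq_zero_iff, Finset.mem_singleton]
      constructor
      · intro hσ
        exact funext fun e => (hσ e).1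
      · rintro rfl e
        exact ⟨rfl, rfl⟩
    rw [e2, Finset.sum_singleton]
    exact GForm_Red (fun e => h.adm.mono (Nat.succ_le_succ (hk _))) _ _ (Q.okc k) 0
  · obtain ⟨i, hi⟩ := Function.ne_iff.1 hkk
    obtain ⟨base, hb⟩ := Q.exists_base hL
    refine GForm_far Q hW h hk hkb 0 (base i) ?_
    rw [hb, Pi.zero_apply]
    omega

theorem Gs_far [Nontrivial R] (Q : Prog L E) (hW : IsFramedLink Q.W) {N : ℕ} (h : Lev T N)
    {k kb : ι → ℕ} (hk : ∀ i, k i ≤ N) (hkb : ∀ i, kb i ≤ N) (j : E → ℕ) (e : E)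
    (he : k (Q.nm e) + j e < kb (Q.nm e) ∨ kb (Q.nm e) + j e < k (Q.nm e)) :
    (Gs T.a T.ha Q.W N k kb fun κ => ∏ e, mu T.a (κ e) ^ j e) = 0 :=
  GForm_far Q hW h hk hkb j e he

end Pool.Agent.P.MP_53e370_gt.S
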