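import Pool.Agent.P.MP_53e370_gt.S.PhiCut

/-! The loops of a cup and of a cap. -/

namespace Pool.Agent.P.MP_53e370_gt.S

open Pool.Agent.P.MP_ac4909_gt

variable {K : Type} [Field K] {R : Type} [Ring R] [Algebra K R] {T : TL K R} {E : Type}
  {k kb : E → ℕ} {σ : E → List Bool}

theorem GenCup_ra {a b c d : R} (h : a * b = c * d) (x : R) : a * (b * x) = c * (d * x) := by
  rw [← mul_assoc, h, mul_assoc]

theorem GenCup_rb {a b c : R} (h : a * b = c) (x : R) : a * (b * x) = c * x := by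
  rw [← mul_assoc, h]

theorem GenCup_loop {n b j₁ : ℕ} {E₁ E₂ : ℕ → R} (h₁ : T.Loc n (b + j₁) E₁) (p : ℕ) :
    ptr T b (fun q => E₂ q * Tw T b n j₁ E₁ q) p =
      T.capC b p * (E₂ (p + b) * (T.crC true j₁ n (p + b) * (E₁ p * T.cupC n p))) := by
  have e1 : T.cupC n (p + b + b) * T.cupC b p = T.cupC b p * T.cupC n p :=
    ((T.loc_cupC b).far' (T.loc_cupC n) p p _ le_rfl (by omega)).symm
  have e2 : E₁ (p + b + b) * T.cupC b p = T.cupC b p * E₁ p :=
    ((T.loc_cupC b).far' h₁ p p _ le_rfl (by omega)).symm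
  have e3 : T.crC true j₁ n (p + b + b + b) * T.cupC b p = T.cupC b p * T.crC true j₁ n (p + b) :=
    ((T.loc_cupC b).far' (T.loc_crC true j₁ n) p (p + b) _ (by omega) (by omega)).symm
  simp only [ptr, Tw, mul_assoc]
  rw [e1, GenCup_ra e2, GenCup_ra e3, GenCup_rb (T.zigC b p), one_mul]

theorem GenCup_cup {n b j₁ j₂ m m' a a' : ℕ} {W E₁ E₂ z : ℕ → R} (hW : T.Loc a a' W)
    (h₁ : T.Loc n (b + j₁) E₁) (h₂ : T.Loc n (b + j₂) E₂) (hz : T.Loc m m' z)
    (f₁ : ∀ p, T.f b p * E₁ p = E₁ p) (f₂ : ∀ p, E₁ p * T.f n p = E₁ p) (p : ℕ) :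
    T.capC b p * T.f b p * (W (p + b + b) * E₂ (p + b) * T.crC true (j₁ + m') n (p + b) * E₁ p *
        T.crC true m' n p) * z p * (T.f n (p + m) * T.cupC n (p + m)) =
      W p * (ptr T b (fun q => E₂ q * Tw T b n j₁ E₁ q) p * z p) := by
  have hG : T.Loc 0 (n + n) fun q => T.f n q * T.cupC n q :=
    ((T.loc_f n).padR n).mul (T.loc_cupC n)
  have e1 : z p * (T.f n (p + m) * T.cupC n (p + m)) =
      (T.f n (p + m') * T.cupC n (p + m')) * z p := hz.far' hG p _ _ le_rfl (by omega)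
  have e2 : T.crC true m' (n + n) p * (T.f n (p + m') * T.cupC n (p + m')) =
      T.f n p * T.cupC n p := (hG.natR true m' p).trans (mul_one _)
  have e3 : T.crC true m' n (p + b + j₁) * E₁ p = E₁ p * T.crC true m' n (p + n) :=
    (h₁.far' (T.loc_crC true m' n) p _ _ le_rfl (by omega)).symm
  have e4 : T.f b p * W (p + b + b) = W (p + b + b) * T.f b p :=
    (T.loc_f b).far' hW p _ _ (by omega) rfl
  have e5 : T.capC b p * W (p + b + b) = W p * T.capC b p :=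
    (T.loc_capC b).far' hW p _ _ (by omega) (by omega)
  have e6 : T.f b p * E₂ (p + b) = E₂ (p + b) * T.f b p :=
    (T.loc_f b).far' h₂ p _ _ le_rfl rfl
  have e7 : T.f b p * T.crC true j₁ n (p + b) = T.crC true j₁ n (p + b) * T.f b p :=
    (T.loc_f b).far' (T.loc_crC true j₁ n) p _ _ le_rfl rfl
  rw [GenCup_loop h₁, T.hexL, mul_assoc _ (z p), e1]
  simp only [mul_assoc]
  rw [GenCup_ra e3, GenCup_rb (T.hexR true m' n n p).symm, ← mul_assoc (T.f n (p + m')),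
    GenCup_rb e2, mul_assoc, GenCup_rb (f₂ p), GenCup_ra e4, GenCup_ra e5, GenCup_ra e6,
    GenCup_ra e7, GenCup_rb (f₁ p)]

theorem gen_cup (hT : Ok T) {e₁ e₂ : E} (hk : k e₂ = k e₁) (hkb : kb e₂ = kb e₁)
    (h₁ : en (k e₁) (σ e₁) = kb e₁) (h₂ : en (k e₂) (σ e₂) = kb e₂) (hd : Dl T.a (kb e₂) ≠ 0)
    (ρ ρ' : List E) (hρ' : ∀ e ∈ ρ', en (k e) (σ e) = kb e) {m m' : ℕ} {y z : ℕ → R}
    (hz : T.Loc m m' z)
    (hy : T.Loc (wid (fun e => (σ e).length) ρ' + ((σ e₂).length + ((σ e₁).length + m'))) 0 y) :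
    (fun p => nga T kb (.cup e₁ e₂) p * EE T k kb σ m' (e₁ :: e₂ :: ρ') y p * z p *
        ngv T k (.cup e₁ e₂) (p + m)) =
      Dl T.a (kb e₂) • fun p => EE T k kb σ ((σ e₂).length + ((σ e₁).length + m')) ρ' y p *
        (qCup T k kb σ e₁ e₂ p * z p) := by
  have hW := loc_EE (r := 0) hρ' hy
  have l₁ := loc_Em T (k e₁) (σ e₁)
  have l₂ := loc_Em T (k e₂) (σ e₂)
  have f₁ := f_Em hT (k e₁) (σ e₁)
  rw [h₁] at l₁ f₁
  rw [h₂] at l₂
  funext p
  simp only [nga, ngv, EE, qCup, lp, Pi.smul_apply, smul_mul_assoc, mul_smul_comm, smul_smul,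
    mul_inv_cancel₀ hd, one_smul]
  rw [hk, hkb] at *
  exact GenCup_cup hW l₁ l₂ hz f₁ (Em_f hT _ _) p

theorem GenCup_cap (hT : Ok T) {n b j₁ j₂ m m' a a' : ℕ} {W A₁ A₂ z : ℕ → R} (hW : T.Loc a a' W)
    (h₁ : T.Loc (b + j₁) n A₁) (h₂ : T.Loc (b + j₂) n A₂) (hz : T.Loc m m' z)
    (f₁ : ∀ p, T.f n p * A₁ p = A₁ p) (f₂ : ∀ p, A₁ p * T.f b p = A₁ p) (p : ℕ) :
    ptr T b (fun q => ptr T b (fun q => T.f b q * T.cupC b q * W q * z q *
        (T.capC n (q + m) * T.f n (q + m)) * T.crC false n m q * A₁ q) q *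
        T.crC false n (j₁ + m) q * A₂ q) p =
      W p * (ptr T b (fun q => Tw' T b n j₁ A₁ q * A₂ q) p * z (p + (j₁ + j₂))) := by
  have hL : T.Loc (j₂ + j₁) 0 (ptr T b fun q => Tw' T b n j₁ A₁ q * A₂ q) :=
    loc_ptr (((loc_Tw' h₁).mul (h₂.padR j₁)).cast (by omega) rfl fun _ => rfl)
  have e0 : ptr T b (fun q => Tw' T b n j₁ A₁ q * A₂ q) p * z (p + (j₁ + j₂)) =
      z p * ptr T b (fun q => Tw' T b n j₁ A₁ q * A₂ q) p :=
    hL.far' hz p _ _ (by omega) (by omega)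
  have e1 : T.capC b (p + b) * T.f b (p + b + b) = T.capC b (p + b) * T.f b (p + b) :=
    (hT.rot b).cap (T.loc_f b) (T.loc_f b) (p + b)
  have e2 : T.f b (p + b) * T.cupC b (p + b + b) = T.cupC b (p + b + b) * T.f b (p + b) :=
    (T.loc_f b).far' (T.loc_cupC b) _ _ _ le_rfl rfl
  have e3 : T.f n (p + b + b + m) * T.crC false n m (p + b + b) =
      T.crC false n m (p + b + b) * T.f n (p + b + b) :=
    ((T.loc_f n).natL false m (p + b + b)).symm
  have e4 : T.cupC b (p + b) * T.crC false n m (p + b + j₁) =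
      T.crC false n m (p + b + b + b + j₁) * T.cupC b (p + b) :=
    (T.loc_cupC b).far' (T.loc_crC false n m) _ _ _ (by omega) (by omega)
  have e5 : A₁ (p + b + b) * T.crC false n m (p + b + b + b + j₁) =
      T.crC false n m (p + b + b + n) * A₁ (p + b + b) :=
    h₁.far' (T.loc_crC false n m) _ _ _ (by omega) (by omega)
  have e6 : T.capC n (p + b + b + m) * T.crC false (n + n) m (p + b + b) = T.capC n (p + b + b) := by
    rw [← (T.loc_capC n).natL false m (p + b + b), T.crC_zero_left, one_mul]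
  have e7 : T.f b (p + b) * W (p + b + b) = W (p + b + b) * T.f b (p + b) :=
    (T.loc_f b).far' hW _ _ _ le_rfl rfl
  have e8 : T.f b (p + b) * z (p + b + b) = z (p + b + b) * T.f b (p + b) :=
    (T.loc_f b).far' hz _ _ _ le_rfl rfl
  have e9 : T.f b (p + b) * T.capC n (p + b + b) = T.capC n (p + b + b) * T.f b (p + b) :=
    (T.loc_f b).far' (T.loc_capC n) _ _ _ le_rfl rfl
  have e10 : T.f b (p + b) * A₁ (p + b + b) = A₁ (p + b + b) * T.f b (p + b) :=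
    (T.loc_f b).far' h₁ _ _ _ le_rfl rfl
  have e11 : T.capC b p * W (p + b + b) = W p * T.capC b p :=
    (T.loc_capC b).far' hW p _ _ (by omega) (by omega)
  have e12 : T.capC b p * z (p + b + b) = z p * T.capC b p :=
    (T.loc_capC b).far' hz p _ _ (by omega) (by omega)
  rw [e0]
  simp only [ptr, Tw', T.hexR false n j₁ m, mul_assoc]
  rw [GenCup_ra e1, GenCup_ra e2, GenCup_rb (T.zagC b (p + b)), one_mul, GenCup_ra e3,
    GenCup_rb (f₁ _), GenCup_ra e4, GenCup_ra e5, GenCup_rb (T.hexL false n n m (p + b + b)).symm,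
    GenCup_rb e6, GenCup_ra e7, GenCup_ra e8, GenCup_ra e9, GenCup_ra e10,
    GenCup_ra (hT.rot b (p + b)), GenCup_rb (f₂ _), GenCup_ra e11, GenCup_ra e12]

theorem gen_cap (hT : Ok T) {e₁ e₂ : E} (hk : k e₂ = k e₁) (hkb : kb e₂ = kb e₁)
    (h₁ : en (k e₁) (σ e₁) = kb e₁) (h₂ : en (k e₂) (σ e₂) = kb e₂) (hd : Dl T.a (kb e₂) ≠ 0)
    (ρ ρ' : List E) (hρ' : ∀ e ∈ ρ', en (k e) (σ e) = kb e) {m m' : ℕ} {y z : ℕ → R}
    (hz : T.Loc m m' z)
    (hy : T.Loc (wid (fun e => (σ e).length) ρ' + m') 0 y) :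
    RR T k kb σ m (e₁ :: e₂ :: ρ) (fun p => nga T kb (.cap e₁ e₂) p * EE T k kb σ m' ρ' y p * z p *
        ngv T k (.cap e₁ e₂) (p + m)) =
      Dl T.a (kb e₂) • RR T k kb σ ((σ e₂).length + ((σ e₁).length + m)) ρ
        fun p => EE T k kb σ m' ρ' y p *
          (qCap T k kb σ e₁ e₂ p * z (p + ((σ e₁).length + (σ e₂).length))) := by
  have hW := loc_EE (r := 0) hρ' hy
  have l₁ := loc_Abs T (k e₁) (σ e₁)
  have l₂ := loc_Abs T (k e₂) (σ e₂)
  have f₂ := Abs_f hT (k e₁) (σ e₁)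
  rw [h₁] at l₁ f₂
  rw [h₂] at l₂
  rw [← RR_smul]
  simp only [RR]
  congr 1
  funext p
  simp only [nga, ngv, qCap, lp, Pi.smul_apply, smul_mul_assoc, mul_smul_comm, smul_smul,
    mul_inv_cancel₀ hd, one_smul]
  rw [hk, hkb] at *
  exact GenCup_cap hT hW l₁ l₂ hz (f_Abs hT _ _) f₂ p

end Pool.Agent.P.MP_53e370_gt.S
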