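import Pool.Agent.P.MP_53e370_gt.S.WLink
import Pool.Agent.P.MP_53e370_gt.S.TDefs
import Pool.Agent.P.MP_ac4909_gt.Bound

/-! In a unitary model the doubled link is a Gram matrix. -/

namespace Pool.Agent.P.MP_53e370_gt.S

open Pool.Agent.P.MP_ac4909_gt

variable {ι E : Type} [Fintype ι] [DecidableEq ι] [Fintype E] [DecidableEq E]
  {L : List (Sl (Arc ι))}

theorem Gram_sig {a : ℂ} (h1 : ‖a‖ = 1) (M : UModel a) (s : Bool) (p : ℕ) :
    BoundAdj (M.T.sig s p) (M.T.sig (!s) p) := by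
  have hc : ∀ s, (starRingEnd ℂ) (zp M.T.a s) = zp M.T.a (!s) := by
    intro s
    have h2 : (starRingEnd ℂ) a = a⁻¹ := (Complex.inv_eq_conj h1).symm
    rw [M.a_eq]
    cases s
    · simp [zp, h2]
    · simp [zp, h2]
  have := (BoundAdj.one.smul (zp M.T.a s)).add ((M.bound_UC p).smul (zp M.T.a (!s)))
  rwa [hc, hc] at this

theorem Gram_X {a : ℂ} (h1 : ‖a‖ = 1) (M : UModel a) (s : Bool) (m : ℕ) : ∀ p (u v : M.V),
    inner ℂ (M.T.X s m p u) (M.T.X s m p v) = inner ℂ u v := by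
  induction m with
  | zero => intro p u v; rfl
  | succ m ih =>
    intro p u v
    rw [TL.X, Module.End.mul_apply, Module.End.mul_apply, Gram_sig h1 M s p,
      ← Module.End.mul_apply (M.T.sig (!s) p), M.T.sig_mul_sig, Module.End.one_apply, ih]

theorem Gram_iso {a : ℂ} (h1 : ‖a‖ = 1) (M : UModel a) (s : Bool) (m n : ℕ) : ∀ p (u v : M.V),
    inner ℂ (M.T.crC s m n p u) (M.T.crC s m n p v) = inner ℂ u v := by
  induction n with
  | zero => intro p u v; rfl
  | succ n ih =>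
    intro p u v
    rw [TL.crC, Module.End.mul_apply, Module.End.mul_apply, ih, Gram_X h1 M]

theorem Gram_crC {a : ℂ} (h1 : ‖a‖ = 1) (M : UModel a) (s : Bool) (m n p : ℕ) :
    BoundAdj (M.T.crC s m n p) (M.T.crC (!s) n m p) := by
  intro u v
  have h2 := M.T.r2C (!s) n m p
  rw [Bool.not_not] at h2
  rw [← Gram_iso h1 M s m n p u, ← Module.End.mul_apply, h2, Module.End.one_apply]

/-- the number of strands of a cup or cap -/
def Gram_nn {α : Type} (n : α → ℕ) : Gen α → ℕ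
  | .cup o => n o
  | .cap o => n o
  | .cr _ _ _ => 0

theorem Gram_gval {a : ℂ} (h1 : ‖a‖ = 1) (M : UModel a) {α : Type}
    (c : Col α (Module.End ℂ M.V)) (hc : ∀ o p, c.F o p = M.T.f (c.n o) p) (g : Gen α) (p : ℕ) :
    BoundAdj (M.T.gval c g p) ((-1 : ℂ) ^ Gram_nn c.n g • M.T.gval c (adjG g) p) := by
  cases g with
  | cup o =>
    have := M.bound_cup_adj h1 (c.n o) p
    rw [smul_mul_assoc] at this
    simpa only [TL.gval, adjG, Gram_nn, hc] using this
  | cap o =>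
    have := (M.bound_cup_adj h1 (c.n o) p).symm.smul ((-1 : ℂ) ^ c.n o)
    rw [smul_mul_assoc, smul_smul, ← mul_pow, neg_mul_neg, one_mul, one_pow, one_smul, map_pow,
      map_neg, map_one] at this
    simpa only [TL.gval, adjG, Gram_nn, hc] using this
  | cr x y s =>
    simpa only [TL.gval, adjG, Gram_nn, pow_zero, one_smul] using Gram_crC h1 M s (c.n x) (c.n y) p

theorem Gram_ev {a : ℂ} (h1 : ‖a‖ = 1) (M : UModel a) {α : Type}
    (c : Col α (Module.End ℂ M.V)) (hc : ∀ o p, c.F o p = M.T.f (c.n o) p) (w : List (Sl α)) :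
    BoundAdj (M.T.ev c w)
      ((-1 : ℂ) ^ (w.map fun s => Gram_nn c.n s.g).sum • M.T.ev c (adj w)) := by
  induction w with
  | nil => simpa [TL.ev, adj] using BoundAdj.one
  | cons s w ih =>
    have h2 := ih.mul (Gram_gval h1 M c hc s.g (wid c.n s.l))
    have e : M.T.ev c (adj (s :: w)) = M.T.gval c (adjG s.g) (wid c.n s.l) * M.T.ev c (adj w) := by
      have e1 : adj (s :: w) = adj w ++ [adjSl s] := by simp [adj]
      rw [e1, M.T.ev_append]
      simp [TL.ev, TL.val, adjSl]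
    rw [smul_mul_smul_comm, ← pow_add, ← e] at h2
    exact h2

theorem Gram_par {α : Type} [Rev α] (n : α → ℕ) (hn : ∀ x, n (Rev.rev x) = n x)
    (w : List (Sl α)) : ∀ ρ σ : List α, Run ρ w σ →
      (wid n ρ + 2 * (w.map fun s => Gram_nn n s.g).sum) % 4 = wid n σ % 4 := by
  induction w with
  | nil =>
    intro ρ σ h
    obtain rfl : ρ = σ := h
    simp
  | cons s w ih =>
    intro ρ σ h
    obtain ⟨rfl, h2⟩ := h
    have h3 := ih _ _ h2
    obtain ⟨l, g, r⟩ := s
    cases g <;>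
      simp only [Sl.src, Sl.tgt, Gen.src, Gen.tgt, wid, List.map_append, List.sum_append,
        List.map_cons, List.sum_cons, List.map_nil, List.sum_nil, Gram_nn, hn] at h3 ⊢ <;>
      omega

theorem Gram_zone (k : ι → ℕ) (κ : E → ℕ) (ρ : List E) :
    wid (fun x : Arc (ι ⊕ E) => Sum.elim k κ x.name) (zone ι ρ) = 2 * (ρ.map κ).sum := by
  induction ρ with
  | nil => rfl
  | cons x ρ ih =>
    simp only [wid, zone, List.map_append, List.sum_append, List.map_cons, List.sum_cons,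
      List.map_nil, List.sum_nil] at ih ⊢
    rw [ih]
    change _ + (κ x + (κ x + 0)) = _
    omega

theorem Gram_zoneAll (k : ι → ℕ) (κ : E → ℕ) (P : List (NSl E)) :
    wid (fun x : Arc (ι ⊕ E) => Sum.elim k κ x.name) (zoneAll ι P) =
      2 * ((P.flatMap NSl.tgt).map κ).sum := by
  induction P with
  | nil => rfl
  | cons s P ih =>
    have h := Gram_zone k κ s.tgt
    simp only [wid, zoneAll, List.map_append, List.sum_append, List.flatMap_cons] at ih h ⊢
    omega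

theorem Gram_comap {K : Type} [Field K] {R : Type} [Ring R] [Algebra K R] (T : TL K R)
    (k kb : ι → ℕ) (κ : E → ℕ) (b : Bool) :
    (T.jcA (cl k kb κ) 0 fun _ => true).comap (relab b) =
      T.jcA (Sum.elim (if b then k else kb) κ) 0 fun _ => true := by
  have h : ∀ x : Arc (ι ⊕ E), cl k kb κ (relab b x).name =
      Sum.elim (if b then k else kb) κ x.name := by
    rintro ⟨i | e, u⟩
    · cases b <;> rfl
    · rfl
  simp only [Col.comap, TL.jcA, h, Pi.zero_apply, add_zero, ite_self]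

theorem exists_gram {a : ℂ} (ha : a ≠ 0) (h1 : ‖a‖ = 1) (M : UModel a) (Q : Prog L E)
    (hW : IsFramedLink Q.W) : ∃ ψ : (ι → ℕ) → (E → ℕ) → M.V, ∀ (k kb : ι → ℕ) (κ : E → ℕ),
      (∀ i, Adm a (k i)) → (∀ i, Adm a (kb i)) → (∀ e, Adm a (κ e)) →
      inner ℂ (ψ kb κ) (ψ k κ) = (-1) ^ (∑ e, κ e) * Jv a ha Q.W (cl k kb κ) := by
  obtain ⟨v0, hv0⟩ := exists_ne (0 : M.V)
  obtain ⟨v, hv⟩ : ∃ v : M.V, inner ℂ v v = (1 : ℂ) := by
    refine ⟨((‖v0‖⁻¹ : ℝ) : ℂ) • v0, ?_⟩
    rw [inner_self_eq_norm_sq_to_K, norm_smul, Complex.norm_real, norm_inv, norm_norm,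
      inv_mul_cancel₀ (norm_ne_zero_iff.2 hv0)]
    simp
  refine ⟨fun k κ => M.T.ev (M.T.jcA (Sum.elim k κ) 0 fun _ => true) (top Q.arc [] Q.pr) v,
    fun k kb κ hk hkb hκ => ?_⟩
  have hadm : ∀ i, Adm M.T.a (cl k kb κ i) := by
    rw [M.a_eq]
    rintro ((i | i) | e)
    exacts [hk i, hkb i, hκ e]
  have e1 := M.T.ev_eq_JP hW (cl k kb κ) hadm
  have e2 : lev M.T.a M.T.ha (JP Q.W fun i => (cl k kb κ i : ℤ) + 1) =
      Jv a ha Q.W (cl k kb κ) := by
    have h : ∀ (b : ℂ) (hb : b ≠ 0), b = a → lev b hb (JP Q.W fun i => (cl k kb κ i : ℤ) + 1) =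
        Jv a ha Q.W (cl k kb κ) := by
      rintro b hb rfl
      rfl
    exact h _ _ M.a_eq
  rw [e2] at e1
  conv_lhs at e1 => rw [Prog.W, adj_map, M.T.ev_append, M.T.ev_map, M.T.ev_map, Gram_comap,
    Gram_comap]
  simp only [Bool.false_eq_true, if_false, if_true] at e1
  have e3 := Gram_ev h1 M (M.T.jcA (Sum.elim kb κ) 0 fun _ => true)
    (fun o p => by simp [TL.jcA]) (top Q.arc [] Q.pr)
  have e4 := Gram_par (fun x : Arc (ι ⊕ E) => Sum.elim kb κ x.name) (fun x => rfl) _ _ _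
    (run_top Q.run Q.ok [])
  have e5 : ((Q.pr.flatMap NSl.tgt).map κ).sum = ∑ e, κ e := by
    rw [← List.sum_toFinset κ Q.nodup]
    congr 1
    exact Finset.eq_univ_of_forall fun e => List.mem_toFinset.2 (Q.all e)
  rw [List.nil_append, List.nil_append, Gram_zoneAll, e5] at e4
  have e6 : (M.T.jcA (Sum.elim kb κ) 0 fun _ => true).n =
      fun x : Arc (ι ⊕ E) => Sum.elim kb κ x.name := rfl
  rw [e6] at e3
  have e7 : wid (fun x : Arc (ι ⊕ E) => Sum.elim kb κ x.name) (List.map (bigA Q.arc) []) = 0 := rfl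
  rw [e7] at e4
  rw [e3, LinearMap.smul_apply, ← Module.End.mul_apply, e1, Module.algebraMap_end_apply,
    inner_smul_right, inner_smul_right, hv, mul_one]
  congr 1
  rw [neg_one_pow_eq_pow_mod_two, neg_one_pow_eq_pow_mod_two (R := ℂ) (∑ e, κ e)]
  congr 1
  omega

end Pool.Agent.P.MP_53e370_gt.S
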