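import Pool.Agent.P.MP_53e370_gt.S.TDefs

/-! The model at `-i a`. -/

namespace Pool.Agent.P.MP_53e370_gt.S

open Pool.Agent.P.MP_ac4909_gt

variable {R : Type} [Ring R] [Algebra ℂ R] {α ι : Type}

theorem twT_a (T : TL ℂ R) : (twT T).a = -Complex.I * T.a := rfl

theorem tw_ne : -Complex.I ≠ 0 := neg_ne_zero.2 Complex.I_ne_zero

theorem tw_sq : (-Complex.I) ^ (2 : ℤ) = -1 := by
  rw [zpow_ofNat, neg_sq, Complex.I_sq]

theorem tw_inv : (-Complex.I)⁻¹ = -(-Complex.I) := by rw [inv_neg, Complex.inv_I]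

theorem dlt_tw (a : ℂ) : dlt (-Complex.I * a) = -dlt a := by
  have e2 : (-Complex.I * a) ^ 2 = -a ^ 2 := by linear_combination (a ^ 2) * Complex.I_sq
  rw [dlt, dlt, inv_pow, inv_pow, e2, inv_neg]
  ring

theorem Dl_tw {a : ℂ} (m : ℕ) : Dl (-Complex.I * a) m = (-1) ^ m * Dl a m := by
  induction m using Nat.twoStepInduction with
  | zero => simp [Dl]
  | one => rw [Dl, Dl, dlt_tw]; ring
  | more m h0 h1 => rw [Dl, Dl, h0, h1, dlt_tw]; ring

theorem adm_tw {a : ℂ} {n : ℕ} : Adm (-Complex.I * a) n ↔ Adm a n := by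
  refine forall₂_congr fun j _ => ?_
  rw [Dl_tw, mul_ne_zero_iff_left (pow_ne_zero _ (neg_ne_zero.2 one_ne_zero))]

theorem kap_tw (a : ℂ) (m : ℕ) : kap (-Complex.I * a) m = -kap a m := by
  rw [kap, kap, Dl_tw, Dl_tw, pow_succ, mul_assoc,
    mul_div_mul_left _ _ (pow_ne_zero _ (neg_ne_zero.2 one_ne_zero)), neg_one_mul, div_neg]

theorem twT_U (T : TL ℂ R) (p : ℕ) :
    (twT T).U p = (-Complex.I) ^ (1 + 2 * (p : ℤ)) • T.U p := by
  rw [zpow_add₀ tw_ne, zpow_mul, tw_sq, zpow_one, zpow_natCast]; rfl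

theorem twT_C (T : TL ℂ R) (p : ℕ) :
    (twT T).C p = (-Complex.I) ^ (1 + 2 * (p : ℤ)) • T.C p := by
  rw [zpow_add₀ tw_ne, zpow_mul, tw_sq, zpow_one, zpow_natCast]; rfl

theorem twT_UC (T : TL ℂ R) (p : ℕ) : (twT T).U p * (twT T).C p = -(T.U p * T.C p) := by
  have h : ((-1 : ℂ) ^ p) * (-1) ^ p = 1 := by rw [← mul_pow]; simp
  have e1 : -Complex.I * (-1) ^ p * (-Complex.I * (-1) ^ p) = -1 := by
    linear_combination (Complex.I ^ 2) * h + Complex.I_sq
  change ((-Complex.I * (-1) ^ p) • T.U p) * ((-Complex.I * (-1) ^ p) • T.C p) = _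
  rw [smul_mul_smul_comm, e1, neg_one_smul]

theorem twT_f (T : TL ℂ R) (n p : ℕ) : (twT T).f n p = T.f n p := by
  induction n using Nat.twoStepInduction with
  | zero => rfl
  | one => rfl
  | more m _ h1 =>
    rw [TL.jw_f_two, TL.jw_f_two, h1, twT_a, kap_tw, mul_assoc (T.f _ _), twT_UC,
      mul_assoc (T.f _ _) (T.U _), mul_neg, neg_mul, neg_smul_neg]

theorem twT_jcA (T : TL ℂ R) (m j : ι → ℕ) (sd : ι → Bool) :
    (twT T).jcA m j sd = T.jcA m j sd := by
  simp only [TL.jcA, twT_f]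

/-- the exponent of a crossing -/
def twE (s : Bool) (n : ℤ) : ℤ := if s then n else -n

theorem twE_add (s : Bool) (m n : ℤ) : twE s (m + n) = twE s m + twE s n := by
  cases s <;> simp [twE, add_comm]

theorem twT_sig (T : TL ℂ R) (s : Bool) (p : ℕ) :
    (twT T).sig s p = (-Complex.I) ^ twE s 1 • T.sig s p := by
  rw [TL.sig, TL.sig, twT_UC, smul_add, smul_smul, smul_smul, smul_neg, ← neg_smul, twT_a]
  have h : (-(Complex.I * T.a))⁻¹ = Complex.I * T.a⁻¹ := by
    rw [← neg_mul, mul_inv, tw_inv, neg_neg]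
  cases s <;> simp only [zp, twE, Bool.not_true, Bool.not_false, if_true, Bool.false_eq_true,
    if_false, h, zpow_neg, zpow_one, tw_inv, neg_mul, neg_neg]

theorem twT_X (T : TL ℂ R) (s : Bool) (m p : ℕ) :
    (twT T).X s m p = (-Complex.I) ^ twE s m • T.X s m p := by
  induction m generalizing p with
  | zero => cases s <;> simp [TL.X, twE]
  | succ m ih =>
    rw [TL.X, TL.X, ih, twT_sig, smul_mul_smul_comm, ← zpow_add₀ tw_ne, ← twE_add]
    congr 3
    push_cast
    ring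

theorem twT_crC (T : TL ℂ R) (s : Bool) (m n p : ℕ) :
    (twT T).crC s m n p = (-Complex.I) ^ twE s (m * n) • T.crC s m n p := by
  induction n generalizing p with
  | zero => cases s <;> simp [TL.crC, twE]
  | succ n ih =>
    rw [TL.crC, TL.crC, ih, twT_X, smul_mul_smul_comm, ← zpow_add₀ tw_ne, ← twE_add,
      Nat.cast_succ, mul_add_one]

theorem twT_cupC (T : TL ℂ R) (m p : ℕ) :
    (twT T).cupC m p = (-Complex.I) ^ ((m : ℤ) ^ 2 + 2 * m * p) • T.cupC m p := by
  induction m generalizing p with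
  | zero => simp [TL.cupC]
  | succ m ih =>
    rw [TL.cupC, TL.cupC, ih, twT_U, smul_mul_smul_comm, ← zpow_add₀ tw_ne]
    congr 2
    push_cast
    ring

theorem twT_capC (T : TL ℂ R) (m p : ℕ) :
    (twT T).capC m p = (-Complex.I) ^ ((m : ℤ) ^ 2 + 2 * m * p) • T.capC m p := by
  induction m generalizing p with
  | zero => simp [TL.capC]
  | succ m ih =>
    rw [TL.capC, TL.capC, ih, twT_C, smul_mul_smul_comm, ← zpow_add₀ tw_ne]
    congr 2
    push_cast
    ring

theorem val_twT (T : TL ℂ R) (c : Col α R) (s : Sl α) :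
    (twT T).val c s = (-Complex.I) ^ ex c.n s • T.val c s := by
  obtain ⟨l, g, r⟩ := s
  cases g with
  | cup o => simp only [TL.val, TL.gval, ex, twT_cupC, mul_smul_comm]
  | cap o => simp only [TL.val, TL.gval, ex, twT_capC, smul_mul_assoc]
  | cr x y b => simp only [TL.val, TL.gval, ex, twT_crC, twE]

theorem ev_twT (T : TL ℂ R) (c : Col α R) (w : List (Sl α)) :
    (twT T).ev c w = (-Complex.I) ^ Ex c.n w • T.ev c w := by
  induction w with
  | nil => simp [TL.ev, Ex]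
  | cons s w ih =>
    rw [TL.ev, TL.ev, ih, val_twT, smul_mul_smul_comm, ← zpow_add₀ tw_ne, Ex, Ex, List.map_cons,
      List.sum_cons, add_comm]

theorem Jv_tw [Nontrivial R] [Fintype ι] [DecidableEq ι] (T : TL ℂ R) {W : List (Sl (Arc ι))}
    (hW : IsFramedLink W) (m : ι → ℕ) (hm : ∀ i, Adm T.a (m i)) :
    Jv (twT T).a (twT T).ha W m =
      (-Complex.I) ^ Ex (fun x : Arc ι => m x.name) W * Jv T.a T.ha W m := by
  apply (algebraMap ℂ R).injective
  rw [Jv, Jv, map_mul, ← (twT T).ev_eq_JP hW m fun i => adm_tw.2 (hm i), ← T.ev_eq_JP hW m hm,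
    twT_jcA, ev_twT, Algebra.smul_def]
  rfl

end Pool.Agent.P.MP_53e370_gt.S
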