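import Pool.Agent.P.MP_53e370_gt.S.Root
import Pool.Agent.P.MP_53e370_gt.S.Twist
import Pool.Agent.P.MP_53e370_gt.S.Paths
import Pool.Agent.P.MP_53e370_gt.Sym
import Pool.Agent.P.MP_ac4909_gt.Bound

/-! Facts on the levels. -/

namespace Pool.Agent.P.MP_53e370_gt.S

open Pool.Agent.P.MP_ac4909_gt Filter Topology

theorem pp_five (t : ℕ) : 5 ≤ pp t := by
  have : 0 < 5 ^ t := by positivity
  rw [pp, pow_succ]
  omega

theorem NN_add (t : ℕ) : NN t + 2 = pp t := by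
  have := pp_five t
  unfold NN
  omega

theorem NN_odd (t : ℕ) : Odd (NN t) := by
  have := pp_mod t
  have := NN_add t
  rw [Nat.odd_iff]
  omega

theorem qq_eq (t : ℕ) : 2 * qq t = NN t + 1 := by
  have := pp_mod t
  have := NN_add t
  unfold qq
  omega

theorem qq_pos (t : ℕ) : 0 < qq t := by
  have := qq_eq t
  omega

theorem pp_tend : Tendsto pp atTop atTop :=
  (tendsto_pow_atTop_atTop_of_one_lt (by norm_num : 1 < 5)).comp (tendsto_add_atTop_nat 1)

theorem qq_tend : Tendsto qq atTop atTop := by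
  refine tendsto_atTop.2 fun b => ?_
  filter_upwards [pp_tend.eventually_ge_atTop (2 * b + 1)] with t ht
  have := qq_eq t
  have := NN_add t
  omega

/-- the levels as a family -/
@[reducible] def Level_fam : Fam where
  r := pp
  tend := pp_tend
  four t := by have := pp_five t; omega
  tot t := by
    rw [pp, Nat.totient_mul (Nat.Coprime.pow_right _ (by norm_num)),
      Nat.totient_prime_pow_succ Nat.prime_five, show Nat.totient 4 = 2 by decide, pow_succ]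
    omega

theorem Level_rr (t : ℕ) : @rr Level_fam t - 1 = NN t + 1 := by
  have := NN_add t
  change pp t - 1 = _
  omega

theorem Level_pos (t : ℕ) : (0 : ℝ) < pp t := by
  have := pp_five t
  exact_mod_cast (by omega : 0 < pp t)

theorem Level_NN (t : ℕ) : (NN t : ℝ) + 2 = pp t := by exact_mod_cast NN_add t

theorem norm_a1 (t : ℕ) : ‖a1 t‖ = 1 := @norm_aa Level_fam t

theorem tendsto_a1 : Tendsto a1 atTop (𝓝 (-1)) := @tendsto_aa Level_fam

theorem adm_a1 (t : ℕ) : Adm (a1 t) (NN t + 1) := Level_rr t ▸ @adm_aa Level_fam t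

theorem exists_M (t : ℕ) : Nonempty (UModel (a1 t)) := @exists_uModel Level_fam t

theorem Level_Dl (t : ℕ) : Dl (a1 t) (NN t + 1) = 0 := Level_rr t ▸ @Dl_aa Level_fam t

theorem Level_root (t : ℕ) : a1 t ^ (2 * (NN t + 2)) = -1 := by
  rw [NN_add]
  exact @aa_two_r Level_fam t

theorem Level_pow (t κ : ℕ) : a1 t ^ (2 * κ + 2) =
    Complex.exp (((Real.pi * (κ + 1) / pp t : ℝ) : ℂ) * Complex.I) := by
  have h : a1 t ^ 2 = Complex.exp (Real.pi * Complex.I / pp t) := @aa_sq Level_fam t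
  rw [show 2 * κ + 2 = 2 * (κ + 1) by ring, pow_mul, h, ← Complex.exp_nat_mul]
  congr 1
  push_cast
  ring

theorem Level_inv (t κ : ℕ) : (a1 t)⁻¹ ^ (2 * κ + 2) =
    Complex.exp (-((Real.pi * (κ + 1) / pp t : ℝ) : ℂ) * Complex.I) := by
  rw [inv_pow, Level_pow, ← Complex.exp_neg, neg_mul]

theorem Level_sub (t κ : ℕ) : a1 t ^ (2 * κ + 2) - (a1 t)⁻¹ ^ (2 * κ + 2) =
    2 * Complex.I * ((Real.sin (Real.pi * (κ + 1) / pp t) : ℝ) : ℂ) := by
  rw [Level_pow, Level_inv, Complex.ofReal_sin]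
  generalize ((Real.pi * (κ + 1) / pp t : ℝ) : ℂ) = x
  linear_combination (-Complex.I) * Complex.two_sin x -
    (Complex.exp (-x * Complex.I) - Complex.exp (x * Complex.I)) * Complex.I_sq

theorem Level_sin (t : ℕ) : 0 < Real.sin (Real.pi / pp t) := by
  have h := Level_pos t
  have h5 : (5 : ℝ) ≤ pp t := by exact_mod_cast pp_five t
  exact Real.sin_pos_of_pos_of_lt_pi (div_pos Real.pi_pos h)
    (div_lt_self Real.pi_pos (by linarith))

theorem Level_sq (t : ℕ) : a1 t ^ 2 - (a1 t)⁻¹ ^ 2 =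
    2 * Complex.I * ((Real.sin (Real.pi / pp t) : ℝ) : ℂ) := by
  simpa using Level_sub t 0

theorem Level_sq_ne (t : ℕ) : a1 t ^ 2 - (a1 t)⁻¹ ^ 2 ≠ 0 := by
  rw [Level_sq]
  exact mul_ne_zero (mul_ne_zero two_ne_zero Complex.I_ne_zero)
    (Complex.ofReal_ne_zero.2 (Level_sin t).ne')

theorem Level_mem {t κ : ℕ} (h : κ ≤ NN t) :
    Real.pi * (κ + 1) / pp t ∈ Set.Icc 0 Real.pi := by
  have h0 := Level_pos t
  have h1 : (κ : ℝ) ≤ NN t := by exact_mod_cast h
  have h2 := Level_NN t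
  refine ⟨by positivity, ?_⟩
  rw [div_le_iff₀ h0]
  exact mul_le_mul_of_nonneg_left (by linarith) Real.pi_pos.le

theorem Level_mu (t κ : ℕ) : mu (a1 t) κ = (muR t κ : ℝ) := by
  rw [mu, Level_pow, Level_inv, muR, Complex.ofReal_mul, Complex.ofReal_cos]
  generalize ((Real.pi * (κ + 1) / pp t : ℝ) : ℂ) = x
  push_cast
  linear_combination Complex.two_cos x

theorem Level_Dl_eq (t κ : ℕ) : Dl (a1 t) κ = (-1) ^ κ *
    ((Real.sin (Real.pi * (κ + 1) / pp t) / Real.sin (Real.pi / pp t) : ℝ) : ℂ) := by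
  refine mul_left_cancel₀ (Level_sq_ne t) ?_
  have h := Complex.ofReal_ne_zero.2 (Level_sin t).ne'
  rw [Dl_closed _ (a1_ne t), Level_sub, Level_sq, Complex.ofReal_div]
  field_simp

theorem Level_sum (t : ℕ) : ∑ κ ∈ Finset.range (NN t + 1),
    Real.sin (Real.pi * (κ + 1) / pp t) ^ 2 = pp t / 2 := by
  have h0 := Level_pos t
  have h1 := Real.sin_mul_sum_cos (pp t) (2 * (Real.pi / pp t)) (2 * (Real.pi / pp t))
  rw [show (pp t : ℝ) * (2 * (Real.pi / pp t)) / 2 = Real.pi by field_simp, Real.sin_pi, zero_mul,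
    show 2 * (Real.pi / pp t) / 2 = Real.pi / pp t by ring] at h1
  have h2 := (mul_eq_zero.1 h1).resolve_left (Level_sin t).ne'
  have h3 : ∑ κ ∈ Finset.range (pp t), Real.sin (Real.pi * (κ + 1) / pp t) ^ 2 = pp t / 2 := by
    have e : ∀ κ : ℕ, Real.sin (Real.pi * (κ + 1) / pp t) ^ 2 =
        1 / 2 - Real.cos (2 * (Real.pi / pp t) * κ + 2 * (Real.pi / pp t)) / 2 := fun κ => by
      rw [Real.sin_sq_eq_half_sub]
      congr 3
      ring
    simp only [e]
    rw [Finset.sum_sub_distrib, ← Finset.sum_div, ← Finset.sum_div, h2]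
    simp
  have h4 : Real.pi * (((NN t + 1 : ℕ) : ℝ) + 1) / pp t = Real.pi := by
    rw [div_eq_iff h0.ne', ← Level_NN]
    push_cast
    ring
  rw [← h3]
  conv_rhs => rw [← NN_add t, Finset.sum_range_succ, NN_add, h4, Real.sin_pi]
  simp

theorem Level_DD (t : ℕ) :
    DD (a1 t) (NN t) = ((pp t / (2 * Real.sin (Real.pi / pp t) ^ 2) : ℝ) : ℂ) := by
  have e : ∀ κ : ℕ, Dl (a1 t) κ ^ 2 = ((Real.sin (Real.pi * (κ + 1) / pp t) ^ 2 /
      Real.sin (Real.pi / pp t) ^ 2 : ℝ) : ℂ) := fun κ => by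
    rw [Level_Dl_eq, mul_pow, ← pow_mul, mul_comm κ 2, pow_mul, neg_one_sq, one_pow, one_mul,
      ← Complex.ofReal_pow, div_pow]
  simp only [DD, e]
  rw [← Complex.ofReal_sum, ← Finset.sum_div, Level_sum, div_div]

theorem lev_M {t : ℕ} (M : UModel (a1 t)) : Lev M.T (NN t) := by
  refine ⟨?_, fun p => M.f_eq_zero (norm_a1 t) (adm_a1 t) (Level_Dl t) p, ?_, ?_,
    fun c h1 h2 => ?_, ?_⟩ <;> rw [M.a_eq]
  · exact adm_a1 t
  · exact Level_Dl t
  · exact Level_sq_ne t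
  · have e : dlt (a1 t) = mu (a1 t) 0 := rfl
    rw [e, Level_mu, Level_mu, Ne, Complex.ofReal_inj, muR, muR, mul_right_inj' (by norm_num)]
    intro h
    have h3 := Real.injOn_cos (Level_mem h2) (Level_mem (Nat.zero_le _)) h
    rw [div_left_inj' (Level_pos t).ne', mul_right_inj' Real.pi_pos.ne', add_left_inj,
      Nat.cast_inj] at h3
    omega
  · rw [Level_DD]
    have := Level_pos t
    have := Level_sin t
    exact Complex.ofReal_ne_zero.2 (by positivity)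

theorem Level_refl {t κ : ℕ} (h : κ ≤ NN t) : Dl (bb t) (NN t - κ) = Dl (bb t) κ := by
  have e : (-1 : ℂ) ^ NN t = (-1) ^ (NN t - κ) * (-1) ^ κ := by
    rw [← pow_add, Nat.sub_add_cancel h]
  have e' : (-1 : ℂ) ^ (NN t - κ) * (-1) ^ (NN t - κ) = 1 := by
    rw [← mul_pow, neg_mul_neg, one_mul, one_pow]
  rw [bb, Dl_tw, Dl_tw, Dl_refl (a1_ne t) (Level_sq_ne t) (Level_root t) h, e]
  linear_combination ((-1) ^ κ * Dl (a1 t) κ) * e'

theorem Level_twa {t : ℕ} (M : UModel (a1 t)) : (twT M.T).a = bb t := by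
  rw [twT_a, M.a_eq, bb]

theorem bos_M {t : ℕ} (M : UModel (a1 t)) : Bos (twT M.T) (NN t) := by
  refine ⟨(NN_odd t).pos, ?_, fun p => ?_, ?_, ?_⟩
  · rw [twT_a]
    exact adm_tw.2 (lev_M M).adm
  · rw [twT_f]
    exact (lev_M M).zero p
  · have := pp_five t
    rw [Level_twa, NN_add]
    exact ((bb_prim t).pow (by omega) (mul_comm _ _)).eq_neg_one_of_two_right
  · rw [Level_twa]
    exact Level_refl (Nat.zero_le _)

theorem twT_M {t : ℕ} (M : UModel (a1 t)) : (twT M.T).a = bb t := Level_twa M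

theorem mu_a1 (t κ : ℕ) : mu (a1 t) κ = (muR t κ : ℝ) := Level_mu t κ

theorem Dl_a1 (t κ : ℕ) : Dl (a1 t) κ = (-1) ^ κ *
    ((Real.sin (Real.pi * (κ + 1) / pp t) / Real.sin (Real.pi / pp t) : ℝ) : ℂ) := Level_Dl_eq t κ

theorem Dl_bb (t κ : ℕ) : Dl (bb t) κ = (-1) ^ κ * Dl (a1 t) κ := Dl_tw κ

theorem DD_a1 (t : ℕ) :
    DD (a1 t) (NN t) = ((pp t / (2 * Real.sin (Real.pi / pp t) ^ 2) : ℝ) : ℂ) := Level_DD t

theorem muR_refl {t κ : ℕ} (h : κ ≤ NN t) : muR t (NN t - κ) = -muR t κ := by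
  have := mu_refl (Level_root t) h
  rw [mu_a1, mu_a1] at this
  exact_mod_cast this

theorem Dl_bb_refl {t κ : ℕ} (h : κ ≤ NN t) : Dl (bb t) (NN t - κ) = Dl (bb t) κ := Level_refl h

theorem abs_muR (t κ : ℕ) : |muR t κ| ≤ 2 := by
  rw [muR, abs_mul, abs_neg, abs_two]
  linarith [Real.abs_cos_le_one (Real.pi * (κ + 1) / pp t)]

theorem bump_small {δ : ℝ} (h0 : 0 < δ) (h1 : δ ≤ 1) {t κ : ℕ} (h : κ ≤ NN t)
    (hb : bump δ (muR t κ) ≠ 0) : (κ : ℝ) ≤ δ * pp t := by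
  by_contra hc
  apply hb
  have hp := Level_pos t
  have h2 : Real.pi * δ ≤ Real.pi * (κ + 1) / pp t := by
    rw [mul_div_assoc]
    exact mul_le_mul_of_nonneg_left ((le_div_iff₀ hp).2 (by linarith)) Real.pi_pos.le
  have h3 := Real.cos_le_cos_of_nonneg_of_le_pi (by positivity) (Level_mem h).2 h2
  rw [bump, muR]
  exact max_eq_left (by linarith)

end Pool.Agent.P.MP_53e370_gt.S
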