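import Pool.Agent.P.MP_53e370_gt.S.Sphere
import Pool.Agent.P.MP_53e370_gt.S.Lambda
import Pool.Agent.P.MP_53e370_gt.S.Level
import Pool.Agent.P.MP_ac4909_gt.Slide
import Pool.Agent.P.MP_ac4909_gt.Moves

/-! Skeins that vanish in the skein module have vanishing invariants. -/

namespace Pool.Agent.P.MP_53e370_gt.S

open Pool.Agent.P.MP_ac4909_gt Filter

variable {ι E : Type} [Fintype ι] [DecidableEq ι] [Fintype E] [DecidableEq E]
  {L : List (Sl (Arc ι))}

theorem kills_om {R : Type} [Ring R] [Algebra ℂ R] (T : TL ℂ R) (hL : IsFramedLink L) {N : ℕ}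
    (hadm : Adm T.a (N + 1)) (hf : ∀ p, T.f (N + 1) p = 0) (φ : R →ₗ[ℂ] ℂ) :
    Kills T.a (fun D => φ (T.om N D)) L := by
  have hmem : ∀ m ∈ Fintype.piFinset fun _ : ι => Finset.range (N + 1), ∀ i, Adm T.a (m i) := by
    intro m hm i
    have := Finset.mem_range.1 (Fintype.mem_piFinset.1 hm i)
    exact hadm.mono (by omega)
  refine ⟨?_, ?_, ?_, ?_⟩
  · intro w₁ u u' w₂ h hw
    congr 1
    refine Finset.sum_congr rfl fun m hm => ?_
    rw [(T.good_jc _ _ (hmem m hm)).ev_move h hw]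
  · intro w₁ w₂ l r s
    rw [← smul_eq_mul, ← smul_eq_mul, ← map_smul, ← map_smul, ← map_add]
    congr 1
    simp only [TL.om, Finset.smul_sum, ← Finset.sum_add_distrib]
    refine Finset.sum_congr rfl fun m _ => ?_
    simp only [TL.jw, TL.jc]
    rw [TL.ev_skein, smul_add, smul_comm, smul_comm (zp T.a !s)]
  · intro w₁ w₂ l r
    rw [← smul_eq_mul, ← map_smul]
    congr 1
    simp only [TL.om, Finset.smul_sum]
    refine Finset.sum_congr rfl fun m _ => ?_
    simp only [TL.jw, TL.jc]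
    rw [TL.ev_loop, smul_comm]
  · intro D w₁ w₂ l r x hρ hD
    rw [T.om_slide hL N hadm hf D hρ hD]

theorem sum_bx_sum {α β M : Type} [Fintype α] [DecidableEq α] [Fintype β] [DecidableEq β]
    [AddCommMonoid M] (N : ℕ) (F : (α ⊕ β → ℕ) → M) :
    ∑ m ∈ bx (α ⊕ β) N, F m = ∑ kb ∈ bx β N, ∑ k ∈ bx α N, F (Sum.elim k kb) := by
  rw [← Finset.sum_product']
  refine Finset.sum_nbij' (fun m => (fun i => m (.inr i), fun i => m (.inl i)))
    (fun x => Sum.elim x.2 x.1) ?_ ?_ ?_ ?_ ?_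
  · intro m hm
    simp only [bx, Finset.mem_product, Fintype.mem_piFinset] at hm ⊢
    exact ⟨fun i => hm _, fun i => hm _⟩
  · intro x hx
    simp only [bx, Finset.mem_product, Fintype.mem_piFinset] at hx ⊢
    rintro (i | i)
    · exact hx.2 i
    · exact hx.1 i
  · intro m _
    funext i
    cases i <;> rfl
  · intro x _
    rfl
  · intro m _
    congr 1
    funext i
    cases i <;> rfl

theorem Hp_vanish (hL : IsFramedLink L) (Q : Prog L E) (v : Finset ι) (ε : ℕ)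
    (h : ∀ D : Diagram L, chi v D.1 % 2 = ε % 2 →
      (Submodule.Quotient.mk (Finsupp.single D 1) : SkeinModule L) = 0) (j : E → ℕ)
    (hj : (∑ e ∈ Finset.univ.filter fun e => Q.nm e ∈ v, j e) % 2 = ε % 2) :
    ∀ᶠ t in atTop, Hp Q.W t j = 0 := by
  obtain ⟨S, D, hχ, hD⟩ := sphere Q v j
  have M : ∀ t, UModel (a1 t) := fun t => (exists_M t).some
  have hφ : ∀ t, ∃ φ : Module.End ℂ (M t).V →ₗ[ℂ] ℂ, φ 1 = 1 := fun t => by
    obtain ⟨ψ, hψ⟩ := Module.Projective.exists_dual_ne_zero ℂ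
      (one_ne_zero : (1 : Module.End ℂ (M t).V) ≠ 0)
    exact ⟨(ψ 1)⁻¹ • ψ, by simp [hψ]⟩
  choose φ hφ using hφ
  obtain ⟨Λ, -, hΛ⟩ := exists_Lambda (L := L) (fun t D => φ t ((twT (M t).T).om (NN t) D))
    (Eventually.of_forall fun t => twT_M (M t) ▸
      kills_om _ hL (bos_M (M t)).adm (bos_M (M t)).zero (φ t))
  have h0 : ∀ u ∈ S, ∀ᶠ t in atTop, φ t ((twT (M t).T).om (NN t) (D u).1) = 0 := by
    intro u hu
    have h1 := hΛ (D u)
    rw [h (D u) (by rw [hχ u hu, hj]), map_zero] at h1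
    exact Germ.coe_eq.1 h1.symm
  filter_upwards [(eventually_all_finset S).2 h0] with t ht
  obtain ⟨T, hT⟩ : ∃ T, T = twT (M t).T := ⟨_, rfl⟩
  have hB : Bos T (NN t) := hT ▸ bos_M (M t)
  have ha : T.a = bb t := hT ▸ twT_M (M t)
  rw [← hT] at ht
  have hlev : ∀ c, lev (bb t) (bb_ne t) c = lev T.a T.ha c := by
    intro c; congr 1; simp only [ha]
  have hmem : ∀ m ∈ bx ι (NN t), ∀ i, Adm T.a (m i) := by
    intro m hm i
    have := Finset.mem_range.1 (Fintype.mem_piFinset.1 hm i)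
    exact hB.adm.mono (by omega)
  rw [Hp, sum_bx_sum]
  refine Finset.sum_eq_zero fun kb hkb => ?_
  obtain ⟨c, hc⟩ := hD ℂ _ T kb (hmem kb hkb)
  have key : ∀ k ∈ bx ι (NN t), (∏ i, Dl (bb t) (Sum.elim k kb i)) *
      lev (bb t) (bb_ne t) (beta Q.W (chb (fun i =>
        ((Sum.elim (Sum.elim k kb) (0 : E → ℕ) i : ℕ) : ℤ) + 1) *
      ∏ i, MvPolynomial.X i ^ Sum.elim (0 : ι ⊕ ι → ℕ) j i)) =
      (∏ i, Dl T.a (kb i)) * ∑ u ∈ S, c u * φ t ((∏ i, Dl T.a (k i)) • T.ev (T.jw k) (D u).1) := by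
    intro k hk
    have h1 := T.ev_jcA (Q.framed hL) (cl k kb 0) (cl 0 0 j) (fun _ => true) (by
      rintro ((i | i) | e)
      · exact hmem k hk i
      · exact hmem kb hkb i
      · exact (adm_one _).mono (Nat.zero_le _))
    have h2 := congrArg (φ t) h1
    rw [hc k, Algebra.algebraMap_eq_smul_one, map_smul, hφ, smul_eq_mul, mul_one, map_sum, cl, cl,
      Sum.elim_zero_zero] at h2
    rw [hlev, ← h2, Fintype.prod_sum_type, ← ha, Finset.mul_sum, Finset.mul_sum]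
    refine Finset.sum_congr rfl fun u _ => ?_
    simp only [Sum.elim_inl, Sum.elim_inr, map_smul, smul_eq_mul]
    ring
  rw [Finset.sum_congr rfl key, ← Finset.mul_sum, Finset.sum_comm]
  refine mul_eq_zero_of_right _ (Finset.sum_eq_zero fun u hu => ?_)
  rw [← Finset.mul_sum, ← map_sum]
  exact mul_eq_zero_of_right _ (ht u hu)

end Pool.Agent.P.MP_53e370_gt.S
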