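import Pool.Agent.P.MP_53e370_gt.S.Avg
import Pool.Agent.P.MP_53e370_gt.S.DynT
import Pool.Agent.P.MP_53e370_gt.S.DynU

/-! The classical limits of the loops. -/

namespace Pool.Agent.P.MP_53e370_gt.S

open Pool.Agent.P.MP_ac4909_gt Filter Topology

variable {Rc : Type} [Ring Rc] [Algebra ℂ Rc] {V : Lv Rc}
  {R : ℕ → Type} [∀ t, Ring (R t)] [∀ t, Algebra ℂ (R t)] {T : ∀ t, TL ℂ (R t)}
  {E : Type} [Fintype E] {k kb : ℕ → E → ℕ} {σ : E → List Bool} {ζ : E → Circle}
  {g a : (E ⊕ E → SU) → E → SU}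

section Classical

theorem Loops_gam_zero (V : Lv Rc) (h : SU) : gam V h 0 = 1 := rfl

theorem Loops_gam_EmV (V : Lv Rc) (u h : SU) (s : List Bool) :
    gam V u s.length * EmV V h s = EmV V (u * h) s := by
  rw [EmV, EmV, gam_mul, mul_assoc]

theorem Loops_sh_EmV (V : Lv Rc) (h : SU) (s : List Bool) (y : Rc) :
    sh V y s.length * EmV V h s = EmV V h s * y := (LC_EmV V h s y).symm

theorem Loops_AbV_sh (V : Lv Rc) (h : SU) (s : List Bool) (y : Rc) :
    AbV V h s * sh V y s.length = y * AbV V h s := LC_AbV V h s y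

theorem Loops_gam_em (V : Lv Rc) (h : SU) (s : List Bool) (n : ℕ) :
    gam V h (s.length + n) * em V s = EmV V h s * gam V h n := by
  have h1 : sh V (gam V h n) s.length * em V s = em V s * gam V h n := (LC_em V s _).symm
  rw [gam_add, mul_assoc, h1, EmV, mul_assoc]

theorem Loops_ab_gam (V : Lv Rc) (h : SU) (s : List Bool) (n : ℕ) :
    ab V s * gam V h⁻¹ (s.length + n) = gam V h⁻¹ n * AbV V h s := by
  rw [gam_add, ← mul_assoc, ← Loops_AbV_sh, AbV]

theorem Loops_cls_cup (V : Lv Rc) (h u : SU) (s₁ s₂ : List Bool) :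
    gam V h (s₂.length + s₁.length) * (em V s₂ * (gam V u s₁.length * em V s₁)) * gam V h⁻¹ 0 =
      EmV V h s₂ * EmV V (h * u) s₁ := by
  rw [Loops_gam_zero, mul_one, ← mul_assoc, Loops_gam_em, mul_assoc, ← Loops_gam_EmV V h u]
  rfl

theorem Loops_cls_cap (V : Lv Rc) (h u : SU) (s₁ s₂ : List Bool) :
    gam V h 0 * (ab V s₁ * gam V u s₁.length * ab V s₂) * gam V h⁻¹ (s₂.length + s₁.length) =
      AbV V (h * u⁻¹) s₁ * AbV V h s₂ := by
  rw [Loops_gam_zero, one_mul, mul_assoc, Loops_ab_gam, AbV.eq_1 V (h * u⁻¹), mul_inv_rev, inv_inv,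
    gam_mul]
  simp only [mul_assoc]

theorem Loops_cls_true (V : Lv Rc) (h h' u : SU) (x x' y y' : List Bool) :
    gam V h (x'.length + y'.length) * (em V x' * gam V u y'.length * ab V x) *
        gam V h⁻¹ (x.length + y'.length) * (Tc V).crC false y'.length x.length 0 *
        (EmV V h' y' * AbV V h' y) =
      (-1 : ℂ) ^ (y'.length * x.length) •
        (EmV V h x' * EmV V (h * u * h⁻¹ * h') y' * AbV V h x * AbV V h' y) := by
  have h1 := crC_LC (LC_EmV V h' y') false x.length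
  have h2 := Loops_gam_em V h x' y'.length
  have h3 := Loops_ab_gam V h x y'.length
  have h4 := Loops_AbV_sh V h x (EmV V h' y')
  calc _ = (gam V h (x'.length + y'.length) * em V x') * gam V u y'.length *
        (ab V x * gam V h⁻¹ (x.length + y'.length)) *
        ((Tc V).crC false y'.length x.length 0 * EmV V h' y') * AbV V h' y := by
        simp only [mul_assoc]
    _ = (-1 : ℂ) ^ (y'.length * x.length) • (EmV V h x' * gam V h y'.length * gam V u y'.length *
        gam V h⁻¹ y'.length * (AbV V h x * sh V (EmV V h' y') x.length) * AbV V h' y) := by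
        rw [h1, h2, h3]
        simp only [mul_assoc, mul_smul_comm, smul_mul_assoc]
    _ = _ := by
        rw [h4, ← Loops_gam_EmV, gam_mul, gam_mul]
        simp only [mul_assoc]

theorem Loops_cls_false (V : Lv Rc) (h h' u : SU) (x x' y y' : List Bool) :
    gam V h (x'.length + y'.length) *
        (gam V u x'.length * (Tc V).crC false y'.length x'.length 0 * em V y' * ab V y) *
        gam V h⁻¹ (y.length + x'.length) * sh V (EmV V h' x' * AbV V h' x) y.length =
      (-1 : ℂ) ^ (y'.length * x'.length) •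
        (EmV V (h * u * h⁻¹ * h') x' * EmV V h y' * AbV V h' x * AbV V h y) := by
  have h1 := crC_LC (LC_em V y') false x'.length
  have h3 := Loops_ab_gam V h y x'.length
  have h4 := Loops_AbV_sh V h y (EmV V h' x' * AbV V h' x)
  have h5 : sh V (gam V h y'.length) x'.length * gam V u x'.length =
      gam V u x'.length * sh V (gam V h y'.length) x'.length := (LC_gam V u x'.length _).symm
  have h6 : sh V (gam V h y'.length) x'.length * sh V (em V y') x'.length =
      sh V (EmV V h y') x'.length := by rw [← sh_mul, EmV]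
  have h7 := Loops_sh_EmV V (h⁻¹ * h') x' (EmV V h y')
  calc _ = gam V h (x'.length + y'.length) * gam V u x'.length *
        ((Tc V).crC false y'.length x'.length 0 * em V y') *
        (ab V y * gam V h⁻¹ (y.length + x'.length)) *
        sh V (EmV V h' x' * AbV V h' x) y.length := by
        simp only [mul_assoc]
    _ = (-1 : ℂ) ^ (y'.length * x'.length) • (gam V h x'.length *
        (sh V (gam V h y'.length) x'.length * gam V u x'.length) * sh V (em V y') x'.length *
        gam V h⁻¹ x'.length * (AbV V h y * sh V (EmV V h' x' * AbV V h' x) y.length)) := by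
        rw [h1, h3, gam_add]
        simp only [mul_assoc, mul_smul_comm, smul_mul_assoc]
    _ = (-1 : ℂ) ^ (y'.length * x'.length) • (gam V h x'.length * gam V u x'.length *
        ((sh V (gam V h y'.length) x'.length * sh V (em V y') x'.length) *
        (gam V h⁻¹ x'.length * EmV V h' x')) * AbV V h' x * AbV V h y) := by
        rw [h4, h5]
        simp only [mul_assoc]
    _ = _ := by
        rw [h6, Loops_gam_EmV, h7, mul_assoc (h * u), ← Loops_gam_EmV V (h * u), gam_mul]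
        simp only [mul_assoc]

end Classical

theorem Loops_Tw_f {R₀ : Type} [Ring R₀] [Algebra ℂ R₀] {T₀ : TL ℂ R₀} (h : Ok T₀) {b c j : ℕ}
    {X : ℕ → R₀} (hX : T₀.Loc c (b + j) X) (hf : ∀ p, T₀.f b p * X p = X p) (q : ℕ) :
    Tw T₀ b c j X q * T₀.f b q = Tw T₀ b c j X q := by
  have h1 := (T₀.loc_f b).far' (T₀.loc_cupC c) q (q + b) (q + b) le_rfl rfl
  have h2 := (T₀.loc_f b).far' hX q (q + b) (q + b) le_rfl rfl
  have h3 := (T₀.loc_f b).far' (T₀.loc_crC true j c) q (q + b + b) (q + b + b) (by omega) rfl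
  have h4 := (T₀.loc_f b).far' (T₀.loc_crC true j c) (q + b) (q + b + b) (q + b + b) le_rfl rfl
  have h5 := TL.Rot.cap (h.rot b) (T₀.loc_f b) (T₀.loc_f b) q
  calc _ = T₀.capC b q * (T₀.crC true j c (q + b + b) * (X (q + b) *
        (T₀.cupC c (q + b) * T₀.f b q))) := by simp only [Tw, mul_assoc]
    _ = T₀.capC b q * T₀.f b q * T₀.crC true j c (q + b + b) * X (q + b) * T₀.cupC c (q + b) := by
        rw [← h1, ← mul_assoc (X _), ← h2, mul_assoc (T₀.f b q), ← mul_assoc (T₀.crC _ _ _ _),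
          ← h3]
        simp only [mul_assoc]
    _ = T₀.capC b q * (T₀.f b (q + b) * T₀.crC true j c (q + b + b)) * X (q + b) *
        T₀.cupC c (q + b) := by rw [← h5]; simp only [mul_assoc]
    _ = T₀.capC b q * T₀.crC true j c (q + b + b) * (T₀.f b (q + b) * X (q + b)) *
        T₀.cupC c (q + b) := by rw [h4]; simp only [mul_assoc]
    _ = _ := by rw [hf, Tw]

omit [Fintype E] in
theorem Loops_near (hR : Reg T k kb σ ζ) (e : E) : Near (fun t => kb t e) fun t => k t e :=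
  near_of_en (hR.mid e).big (σ e) (hR.ends e)

omit [Fintype E] in
theorem Loops_mid (hS : Seq T) (hR : Reg T k kb σ ζ) (e : E) : Mid T (fun t => k t e) (ζ e) :=
  (hR.mid e).near hS (Loops_near hR e)

omit [Fintype E] in
theorem Loops_Em (V : Lv Rc) (hS : Seq T) (hR : Reg T k kb σ ζ) {e e' : E}
    (hk : ∀ t, k t e' = k t e) (hkb : ∀ t, kb t e' = kb t e) :
    Dyn V T (fun t => k t e) (fun t => kb t e) 0 (σ e').length
      (fun t => Em (T t) (k t e') (σ e')) (em V (σ e')) :=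
  (dyn_Em V hS (Loops_mid hS hR e') (σ e')).congr (.of_forall hk)
    ((hR.ends e').mono fun t ht => ht.trans (hkb t)) (.of_forall fun _ _ => rfl) rfl

omit [Fintype E] in
theorem Loops_Abs (V : Lv Rc) (hS : Seq T) (hR : Reg T k kb σ ζ) (e : E) :
    Dyn V T (fun t => kb t e) (fun t => k t e) (σ e).length 0
      (fun t => Abs (T t) (k t e) (σ e)) (ab V (σ e)) :=
  (dyn_Abs V hS (Loops_mid hS hR e) (σ e)).congr (hR.ends e) (.of_forall fun _ => rfl)
    (.of_forall fun _ _ => rfl) rfl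

omit [Fintype E] in
theorem Loops_Abs_f (hS : Seq T) (hR : Reg T k kb σ ζ) (e : E) (Y : ∀ t, ℕ → R t) :
    ∀ᶠ t in atTop, ∀ p, Y t p * Abs (T t) (k t e) (σ e) p * (T t).f (kb t e) p =
      Y t p * Abs (T t) (k t e) (σ e) p :=
  (hR.ends e).mono fun t ht p => by rw [mul_assoc, ← ht, Abs_f (hS.ok t)]

theorem Loops_cast {β β' : ℕ → ℕ} {m n m' n' : ℕ} {Z : ∀ t, ℕ → R t} {z : Rc}
    (h : Dyn V T β β' m n Z z) (hm : m = m') (hn : n = n') : Dyn V T β β' m' n' Z z := by
  subst hm hn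
  exact h

theorem Loops_sign {b : ℕ} (hb : Even b) (j : ℕ) : (-1 : ℂ) ^ (b * j) = 1 :=
  (hb.mul_right j).neg_one_pow

theorem lim_id (V : Lv Rc) (hS : Seq T) (hR : Reg T k kb σ ζ) {x x' : E}
    (hk : ∀ t, k t x' = k t x) (hkb : ∀ t, kb t x' = kb t x)
    (hg : ∀ ω, g ω x' = ω (.inl x)) (ha : ∀ ω, a ω x = ω (.inl x)) :
    Lim V T {Sum.inl x} (σ x).length (σ x').length (fun t => qId (T t) (k t) (kb t) σ x x')
      fun ω => (cOps V (g ω) (a ω) σ).id x x' := by
  have hZ := (Loops_Em V hS hR hk hkb).mul hS (Loops_Abs V hS hR x)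
  refine (lim_lp hS (hR.mid x) hZ (Loops_Abs_f hS hR x _) (Sum.inl x : E ⊕ E)).congr subset_rfl
    rfl rfl (.of_forall fun _ _ => rfl) fun ω p => ?_
  simp only [cOps, hg, ha, EmV, AbV, mul_assoc]

theorem Loops_cup (V : Lv Rc) (hS : Seq T) (hR : Reg T k kb σ ζ) {e₁ e₂ : E}
    (hk : ∀ t, k t e₂ = k t e₁) (hkb : ∀ t, kb t e₂ = kb t e₁) (l : E ⊕ E) :
    Lim V T {l} 0 ((σ e₂).length + (σ e₁).length) (fun t => qCup (T t) (k t) (kb t) σ e₁ e₂)
      fun ω => sh V (EmV V (ω l) (σ e₂) * EmV V (ω l * Sm (ζ e₁)) (σ e₁)) := by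
  have h1 := dyn_Tw hS (hR.mid e₁) (Loops_near hR e₁)
    (Loops_Em V hS hR (fun _ => rfl) fun _ => rfl) (.of_forall fun t p => Em_f (hS.ok t) _ _ p)
  have h2 : Dyn V T (fun t => kb t e₂) (fun t => k t e₂) 0 (σ e₁).length
      (fun t => Tw (T t) (kb t e₁) (k t e₁) (σ e₁).length (Em (T t) (k t e₁) (σ e₁)))
      (gam V (Sm (ζ e₁)) (σ e₁).length * em V (σ e₁)) :=
    h1.congr (.of_forall fun t => (hkb t).symm) (.of_forall fun t => (hk t).symm)
      (.of_forall fun t p => by rw [Loops_sign (hR.even t e₁), one_smul]) rfl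
  have h3 := Loops_cast (Dyn.padR hS (Loops_mid hS hR e₂)
    (Loops_Em V hS hR (e := e₂) (fun _ => rfl) fun _ => rfl) (σ e₁).length) (Nat.zero_add _) rfl
  have hZ := h3.mul hS h2
  refine (lim_lp hS (hR.mid e₂) hZ ?_ l).congr subset_rfl rfl rfl (.of_forall fun _ _ => rfl)
    fun ω p => ?_
  · refine (hR.ends e₁).mono fun t ht p => ?_
    have hl := loc_Em (T t) (k t e₁) (σ e₁)
    have hf := f_Em (hS.ok t) (k t e₁) (σ e₁)
    rw [ht] at hl hf
    rw [mul_assoc, hkb t, Loops_Tw_f (hS.ok t) hl hf]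
  · rw [Loops_cls_cup]

theorem Loops_cap (V : Lv Rc) (hS : Seq T) (hR : Reg T k kb σ ζ) {e₁ e₂ : E}
    (hk : ∀ t, k t e₂ = k t e₁) (hkb : ∀ t, kb t e₂ = kb t e₁) (l : E ⊕ E) :
    Lim V T {l} ((σ e₂).length + (σ e₁).length) 0 (fun t => qCap (T t) (k t) (kb t) σ e₁ e₂)
      fun ω => sh V (AbV V (ω l * (Sm (ζ e₁))⁻¹) (σ e₁) * AbV V (ω l) (σ e₂)) := by
  have h1 := dyn_Tw' hS (hR.mid e₁) (Loops_near hR e₁) (Loops_Abs V hS hR e₁)
    ((hR.ends e₁).mono fun t ht p => by rw [← ht, Abs_f (hS.ok t)])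
  have h2 : Dyn V T (fun t => k t e₂) (fun t => kb t e₂) (σ e₁).length 0
      (fun t => Tw' (T t) (kb t e₁) (k t e₁) (σ e₁).length (Abs (T t) (k t e₁) (σ e₁)))
      (ab V (σ e₁) * gam V (Sm (ζ e₁)) (σ e₁).length) :=
    h1.congr (.of_forall fun t => (hk t).symm) (.of_forall fun t => (hkb t).symm)
      (.of_forall fun t p => by rw [Loops_sign (hR.even t e₁), one_smul]) rfl
  have h3 := Loops_cast (Dyn.padR hS (hR.mid e₂) (Loops_Abs V hS hR e₂) (σ e₁).length) rfl
    (Nat.zero_add _)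
  have hZ := h2.mul hS h3
  refine (lim_lp hS (hR.mid e₂) hZ (Loops_Abs_f hS hR e₂ _) l).congr subset_rfl rfl rfl
    (.of_forall fun _ _ => rfl) fun ω p => ?_
  rw [Loops_cls_cap]

theorem Loops_true (V : Lv Rc) (hS : Seq T) (hR : Reg T k kb σ ζ) {x y y' x' : E}
    (hkx : ∀ t, k t x' = k t x) (hky : ∀ t, k t y' = k t y) (hbx : ∀ t, kb t x' = kb t x)
    (hby : ∀ t, kb t y' = kb t y) (hne : x ≠ y) :
    Lim V T ({Sum.inl x} ∪ ∅ ∪ {Sum.inl y} : Set (E ⊕ E)) ((σ y).length + (σ x).length)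
      ((σ x').length + (σ y').length) (fun t => qCr (T t) (k t) (kb t) σ true x y y' x')
      fun ω => sh V ((-1 : ℂ) ^ ((σ y').length * (σ x).length) •
        (EmV V (ω (.inl x)) (σ x') *
          EmV V (ω (.inl x) * dg (ζ x ^ 2) * (ω (.inl x))⁻¹ * ω (.inl y)) (σ y') *
          AbV V (ω (.inl x)) (σ x) * AbV V (ω (.inl y)) (σ y))) := by
  have h1 := Loops_cast (Dyn.padR hS (Loops_mid hS hR x) (Loops_Em V hS hR hkx hbx)
    (σ y').length) (Nat.zero_add _) rfl
  have h2 := dyn_Mon V hS (Loops_mid hS hR x) true (σ y').length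
  have h3 := Loops_cast (Dyn.padR hS (hR.mid x) (Loops_Abs V hS hR x) (σ y').length) rfl
    (Nat.zero_add _)
  have hZ := (h1.mul hS h2).mul hS h3
  have hA := lim_lp hS (hR.mid x) hZ (Loops_Abs_f hS hR x _) (Sum.inl x : E ⊕ E)
  have hB : Lim V T (∅ : Set (E ⊕ E)) _ _ _ _ :=
    lim_cv (cv_crC V hS false (σ y').length (σ x).length)
  have hC := (lim_id (g := fun ω _ => ω (.inl y)) (a := fun ω _ => ω (.inl y)) V hS hR hky hby
    (fun _ => rfl) fun _ => rfl).padR (σ x).length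
  refine ((hA.mul hB (Set.disjoint_empty _)).mul hC (by simpa using hne)).congr subset_rfl rfl rfl
    (.of_forall fun _ _ => rfl) fun ω p => ?_
  rw [← Loops_cls_true, loc_sh ((Tc V).loc_crC false _ _) p]
  simp only [cOps, sh_mul, if_true]

theorem Loops_false (V : Lv Rc) (hS : Seq T) (hR : Reg T k kb σ ζ) {x y y' x' : E}
    (hkx : ∀ t, k t x' = k t x) (hky : ∀ t, k t y' = k t y) (hbx : ∀ t, kb t x' = kb t x)
    (hby : ∀ t, kb t y' = kb t y) (hne : x ≠ y) :
    Lim V T ({Sum.inl y} ∪ {Sum.inl x} : Set (E ⊕ E)) ((σ y).length + (σ x).length)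
      ((σ x').length + (σ y').length) (fun t => qCr (T t) (k t) (kb t) σ false x y y' x')
      fun ω => sh V ((-1 : ℂ) ^ ((σ y').length * (σ x').length) •
        (EmV V (ω (.inl y) * (dg (ζ y ^ 2))⁻¹ * (ω (.inl y))⁻¹ * ω (.inl x)) (σ x') *
          EmV V (ω (.inl y)) (σ y') * AbV V (ω (.inl x)) (σ x) * AbV V (ω (.inl y)) (σ y))) := by
  have h1 := Dyn.padR hS (hR.mid y) (dyn_Mon V hS (hR.mid y) false (σ x').length) (σ y').length
  have h2 := dyn_small hS (hR.mid y) (cv_crC V hS false (σ y').length (σ x').length)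
  have h3 := Dyn.padR hS (Loops_mid hS hR y) (Loops_Em V hS hR hky hby) (σ x').length
  have h4 := Dyn.padR hS (hR.mid y) (Loops_Abs V hS hR y) (σ x').length
  have hZ := ((h1.mul hS h2).mul hS h3).mul hS h4
  have hA := lim_lp hS (hR.mid y) hZ (Loops_Abs_f hS hR y _) (Sum.inl y : E ⊕ E)
  have hC := (lim_id (g := fun ω _ => ω (.inl x)) (a := fun ω _ => ω (.inl x)) V hS hR hkx hbx
    (fun _ => rfl) fun _ => rfl).padL (σ y).length
  refine (hA.mul hC (by simpa using hne.symm)).congr subset_rfl rfl rfl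
    (.of_forall fun _ _ => rfl) fun ω p => ?_
  rw [← Loops_cls_false]
  simp only [cOps, sh_mul, sh_sh, Bool.false_eq_true, if_false]

theorem lim_gen (V : Lv Rc) (hS : Seq T) (hR : Reg T k kb σ ζ) {s : NGen E}
    (hk : ∀ t, s.okc (k t)) (hkb : ∀ t, s.okc (kb t)) (hn : s.loops.Nodup)
    (hc : ∀ ω, s.Compat ζ ω (g ω) (a ω)) :
    Lim V T {l | l ∈ s.loops} (wid (fun e => (σ e).length) s.src)
      (wid (fun e => (σ e).length) s.tgt) (fun t => (qOps (T t) (k t) (kb t) σ).gen s)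
      fun ω => (cOps V (g ω) (a ω) σ).gen s := by
  rcases s with ⟨e₁, e₂⟩ | ⟨e₁, e₂⟩ | ⟨b, x, y, y', x'⟩
  · refine (Loops_cup V hS hR hk hkb (.inr e₂)).congr (by simp [NGen.loops]) rfl
      (by simp [wid, NGen.tgt, add_comm]) (.of_forall fun _ _ => rfl) fun ω p => ?_
    simp only [Ops.gen, cOps, (hc ω).1, (hc ω).2]
  · refine (Loops_cap V hS hR hk hkb (.inl e₂)).congr (by simp [NGen.loops])
      (by simp [wid, NGen.src, add_comm]) rfl (.of_forall fun _ _ => rfl) fun ω p => ?_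
    simp only [Ops.gen, cOps, (hc ω).1, (hc ω).2]
  · have hne : x ≠ y := by simpa [NGen.loops] using hn
    cases b
    · refine (Loops_false V hS hR (fun t => (hk t).1) (fun t => (hk t).2) (fun t => (hkb t).1)
        (fun t => (hkb t).2) hne).congr (fun l hl => ?_) (by simp [wid, NGen.src, add_comm])
        (by simp [wid, NGen.tgt, add_comm]) (.of_forall fun _ _ => rfl) fun ω p => ?_
      · rcases hl with rfl | rfl <;> simp [NGen.loops]
      · obtain ⟨c1, c2, c3, c4⟩ := hc ω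
        simp only [Ops.gen, cOps, sgG, c1, c2, c3, c4]
    · refine (Loops_true V hS hR (fun t => (hk t).1) (fun t => (hk t).2) (fun t => (hkb t).1)
        (fun t => (hkb t).2) hne).congr (fun l hl => ?_) (by simp [wid, NGen.src, add_comm])
        (by simp [wid, NGen.tgt, add_comm]) (.of_forall fun _ _ => rfl) fun ω p => ?_
      · rcases hl with (rfl | hl) | rfl
        · simp [NGen.loops]
        · exact hl.elim
        · simp [NGen.loops]
      · obtain ⟨c1, c2, c3, c4⟩ := hc ω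
        simp only [Ops.gen, cOps, sgG, c1, c2, c3, c4]

end Pool.Agent.P.MP_53e370_gt.S
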