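import Pool.Agent.P.MP_53e370_gt.S.WDefs
import Pool.Agent.P.MP_53e370_gt.Phase

/-! The grading of the skein module by the intersection number with the sublink. -/

namespace Pool.Agent.P.MP_53e370_gt.S

open Pool.Agent.P.MP_ac4909_gt

variable {ι : Type} [DecidableEq ι] {L : List (Sl (Arc ι))}

theorem Parity_nil (v : Finset ι) : chi v [] = 0 := rfl

theorem Parity_cons (v : Finset ι) (s : Sl (Option (Arc ι))) (w : List (Sl (Option (Arc ι)))) :
    chi v (s :: w) = chiG v s.g + chi v w := by
  simp [chi]

theorem Parity_append (v : Finset ι) (u w : List (Sl (Option (Arc ι)))) :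
    chi v (u ++ w) = chi v u + chi v w := by
  simp [chi]

theorem Parity_cup (v : Finset ι) (o : Option (Arc ι)) : chiG v (.cup o) = 0 := rfl

theorem Parity_cap (v : Finset ι) (o : Option (Arc ι)) : chiG v (.cap o) = 0 := rfl

theorem Parity_swap (v : Finset ι) (x y : Option (Arc ι)) (s : Bool) :
    chiG v (.cr y x (!s)) = chiG v (.cr x y s) := by
  cases x <;> cases y <;> cases s <;> rfl

theorem Parity_revl (v : Finset ι) (x y : Option (Arc ι)) (s : Bool) :
    chiG v (.cr (Rev.rev x) y s) = chiG v (.cr x y s) := by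
  cases x <;> cases y <;> cases s <;> rfl

theorem Parity_revr (v : Finset ι) (x y : Option (Arc ι)) (s : Bool) :
    chiG v (.cr x (Rev.rev y) s) = chiG v (.cr x y s) := by
  cases x <;> cases y <;> cases s <;> rfl

theorem Parity_nn (v : Finset ι) (s : Bool) : chiG v (.cr none none s) = 0 := by
  cases s <;> rfl

theorem Parity_move (v : Finset ι) {u u' : List (Sl (Option (Arc ι)))} (h : Move u u') :
    chi v u % 2 = chi v u' % 2 := by
  cases h <;>
    simp only [Parity_cons, Parity_nil, Parity_cup, Parity_cap, Parity_swap, Parity_revl,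
      Parity_revr] <;> omega

theorem Parity_cups (v : Finset ι) (ys : List (Option (Arc ι))) :
    ∀ l r, chi v (cups l ys r) = 0 := by
  induction ys with
  | nil => exact fun _ _ => rfl
  | cons y ys ih => exact fun l r => by rw [cups, Parity_cons, ih, Parity_cup]

theorem Parity_caps (v : Finset ι) (ys : List (Option (Arc ι))) :
    ∀ l r, chi v (caps l ys r) = 0 := by
  induction ys with
  | nil => exact fun _ _ => rfl
  | cons y ys ih =>
    exact fun l r => by rw [caps, Parity_append, ih, Parity_cons, Parity_cap, Parity_nil]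

theorem Parity_cross1 (v : Finset ι) (s : Bool) (y : Option (Arc ι)) (r xs : List (Option (Arc ι))) :
    ∀ l, chi v (cross1 s y r l xs) = (xs.map fun x => chiG v (.cr x y s)).sum := by
  induction xs with
  | nil => exact fun _ => rfl
  | cons x xs ih =>
    intro l
    rw [cross1, Parity_append, ih, Parity_cons, Parity_nil, List.map_cons, List.sum_cons]
    exact (add_comm _ _).trans (congrArg (· + _) (add_zero _))

theorem Parity_cross (v : Finset ι) (s : Bool) (xs r ys : List (Option (Arc ι))) :
    ∀ l, chi v (cross s xs r l ys) =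
      (ys.map fun y => (xs.map fun x => chiG v (.cr x y s)).sum).sum := by
  induction ys with
  | nil => exact fun _ => rfl
  | cons y ys ih =>
    intro l
    rw [cross, Parity_append, ih, Parity_cross1, List.map_cons, List.sum_cons]

theorem Parity_push (a : Arc ι) (f : Option (Arc ι) → ℕ) (x : Arc ι) :
    ((pushoff a (some x)).map f).sum = f (some x) + if x.name = a.name then f none else 0 := by
  obtain ⟨i, b⟩ := a
  obtain ⟨j, c⟩ := x
  by_cases h : j = i
  · subst h
    cases b <;> cases c <;> simp [pushoff, Rev.rev, add_comm]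
  · simp [pushoff, Rev.rev, h]

theorem Parity_push0 (a : Arc ι) (f : Option (Arc ι) → ℕ) :
    ((pushoff a none).map f).sum = f none := by
  simp [pushoff]

theorem Parity_lk (v : Finset ι) (k : ι) (x y : Arc ι) (b : Bool) :
    ((∑ i ∈ v, lkGen i k (.cr x y b) : ℤ) : ZMod 2) =
      if (if b then y else x).name ∈ v ∧ (if b then x else y).name = k then 1 else 0 := by
  have h1 : ((crSign x y b : ℤ) : ZMod 2) = 1 := by
    unfold crSign
    split_ifs
    · rfl
    · rfl
  by_cases h : (if b then x else y).name = k
  · simp only [lkGen, h, and_true, Finset.sum_ite_eq]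
    split_ifs <;> first | exact h1 | rfl
  · simp only [lkGen, h, and_false, if_false, Finset.sum_const_zero, Int.cast_zero]

theorem Parity_slice (v : Finset ι) (a : Arc ι) (s : Sl (Option (Arc ι))) :
    (chi v (cable (pushoff a) [s]) : ZMod 2) =
      chiG v s.g + ((∑ i ∈ v, lk (erase [s]) i a.name : ℤ) : ZMod 2) := by
  obtain ⟨l, g, r⟩ := s
  have h0 : ∀ w : List (Sl (Arc ι)), (∀ i, lk w i a.name = 0) →
      ((∑ i ∈ v, lk w i a.name : ℤ) : ZMod 2) = 0 := fun w h => by
    simp only [h, Finset.sum_const_zero, Int.cast_zero]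
  cases g with
  | cup o =>
    rw [h0 _ fun i => by cases o <;> rfl]
    simp only [cable, List.flatMap_cons, List.flatMap_nil, List.append_nil, Parity_cups,
      Parity_cup, add_zero]
  | cap o =>
    rw [h0 _ fun i => by cases o <;> rfl]
    simp only [cable, List.flatMap_cons, List.flatMap_nil, List.append_nil, Parity_caps,
      Parity_cap, add_zero]
  | cr x y b =>
    simp only [cable, List.flatMap_cons, List.flatMap_nil, List.append_nil, Parity_cross]
    cases x with
    | none =>
      rw [h0 _ fun i => rfl, add_zero]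
      simp only [Parity_push0]
      cases y with
      | none => rw [Parity_push0]
      | some y => rw [Parity_push, Parity_nn, ite_self, add_zero]
    | some x =>
      cases y with
      | none =>
        rw [h0 _ fun i => rfl, add_zero, Parity_push0, Parity_push, Parity_nn, ite_self, add_zero]
      | some y =>
        have e : ∀ i, lk (erase [⟨l, .cr (some x) (some y) b, r⟩]) i a.name =
            lkGen i a.name (.cr x y b) := fun i => add_zero _
        simp only [e, Parity_lk, Parity_push, Parity_nn, ite_self, add_zero]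
        cases b <;> by_cases h1 : x.name = a.name <;> by_cases h2 : y.name = a.name <;>
          by_cases h3 : x.name ∈ v <;> by_cases h4 : y.name ∈ v <;>
          simp [chiG, h1, h2, h3, h4]

theorem Parity_cable (v : Finset ι) (a : Arc ι) (w : List (Sl (Option (Arc ι)))) :
    (chi v (cable (pushoff a) w) : ZMod 2) =
      chi v w + ((∑ i ∈ v, lk (erase w) i a.name : ℤ) : ZMod 2) := by
  induction w with
  | nil => simp [cable, erase, lk, Parity_nil]
  | cons s w ih =>
    have e : ∀ i, lk (erase (s :: w)) i a.name = lk (erase [s]) i a.name + lk (erase w) i a.name :=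
      fun i => by
        rw [show s :: w = [s] ++ w from rfl, erase_append, lk, List.map_append, List.sum_append]
        rfl
    rw [cable_cons, Parity_append, Nat.cast_add, ih, Parity_slice, Parity_cons]
    simp only [e, Finset.sum_add_distrib]
    push_cast
    ring

theorem Parity_slide (v : Finset ι) (h1 : ∀ k, Even (∑ i ∈ v, lk L i k)) (a : Arc ι)
    {w₁ w₂ : List (Sl (Option (Arc ι)))} (h : erase (w₁ ++ w₂) = L) :
    chi v (w₁ ++ w₂) % 2 =
      (chi v (cable (pushoff a) w₁) + chi v (cable (pushoff a) w₂)) % 2 := by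
  have e : cable (pushoff a) (w₁ ++ w₂) = cable (pushoff a) w₁ ++ cable (pushoff a) w₂ :=
    List.flatMap_append
  have h2 := Parity_cable v a (w₁ ++ w₂)
  rw [h, (ZMod.intCast_eq_zero_iff_even).2 (h1 a.name), add_zero, e, Parity_append] at h2
  exact ((ZMod.natCast_eq_natCast_iff' _ _ 2).1 h2).symm

/-- the projection to a parity class -/
theorem Parity_proj (v : Finset ι) (h1 : ∀ k, Even (∑ i ∈ v, lk L i k)) :
    ∃ π : SkeinModule L →ₗ[RatFunc ℚ] SkeinModule L, ∀ D : Diagram L,
      π (Submodule.Quotient.mk (Finsupp.single D 1)) =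
        if chi v D.1 % 2 = 0 then Submodule.Quotient.mk (Finsupp.single D 1) else 0 := by
  let q : (Diagram L →₀ RatFunc ℚ) →ₗ[RatFunc ℚ] SkeinModule L := Submodule.mkQ _
  let p : (Diagram L →₀ RatFunc ℚ) →ₗ[RatFunc ℚ] SkeinModule L :=
    Finsupp.linearCombination (RatFunc ℚ) fun D : Diagram L =>
      if chi v D.1 % 2 = 0 then q (Finsupp.single D 1) else 0
  have hp : ∀ (D : Diagram L) (c : RatFunc ℚ), p (Finsupp.single D c) =
      if chi v D.1 % 2 = 0 then q (Finsupp.single D c) else 0 := fun D c => by
    rw [Finsupp.linearCombination_single]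
    split_ifs
    · rw [← map_smul, Finsupp.smul_single_one]
    · exact smul_zero c
  have hq : ∀ x, Rel L x → q x = 0 := fun x hx =>
    (Submodule.Quotient.mk_eq_zero _).2 (Submodule.subset_span hx)
  have two : ∀ (D D' : Diagram L) (c c' : RatFunc ℚ), chi v D.1 % 2 = chi v D'.1 % 2 →
      Rel L (Finsupp.single D c - Finsupp.single D' c') →
      p (Finsupp.single D c - Finsupp.single D' c') = 0 := fun D D' c c' e hx => by
    rw [map_sub, hp, hp, e]
    split_ifs
    · rw [← map_sub, hq _ hx]
    · exact sub_zero _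
  have hker : Submodule.span (RatFunc ℚ) {x | Rel L x} ≤ LinearMap.ker p := by
    refine Submodule.span_le.2 fun x hx => ?_
    have hx' : Rel L x := hx
    change p x = 0
    cases hx' with
    | isotopy D D' w₁ u u' w₂ hm e e' =>
      refine two _ _ _ _ ?_ hx
      have := Parity_move v hm
      simp only [e, e', Parity_append]
      omega
    | skein D D₀ D₁ w₁ w₂ l r s e e₀ e₁ =>
      have a0 : chi v D₀.1 % 2 = chi v D.1 % 2 := by
        simp only [e, e₀, Parity_append, Parity_cons, Parity_nil, Parity_nn, add_zero]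
      have a1 : chi v D₁.1 % 2 = chi v D.1 % 2 := by
        simp only [e, e₁, Parity_append, Parity_cons, Parity_nil, Parity_nn, Parity_cup,
          Parity_cap, add_zero]
      rw [map_sub, map_sub, hp, hp, hp, a0, a1]
      by_cases hc : chi v D.1 % 2 = 0
      · rw [if_pos hc, if_pos hc, if_pos hc, ← map_sub, ← map_sub, hq _ hx]
      · rw [if_neg hc, if_neg hc, if_neg hc, sub_zero, sub_zero]
    | loop D D₀ w₁ w₂ l r e e₀ =>
      refine two _ _ _ _ ?_ hx
      simp only [e, e₀, Parity_append, Parity_cons, Parity_nil, Parity_cup, Parity_cap, add_zero]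
    | handleSlide D D' w₁ w₂ l r a hr e e' =>
      refine two _ _ _ _ ?_ hx
      rw [e, Parity_slide v h1 a (e ▸ D.2.2), e']
      simp only [Parity_append, Parity_cons, Parity_nil, Parity_cup, Parity_cap, add_zero]
  exact ⟨Submodule.liftQ _ p hker, fun D => hp D 1⟩

theorem killed_class (v : Finset ι) (h1 : ∀ k, Even (∑ i ∈ v, lk L i k))
    (h : ¬2 ≤ Module.rank (RatFunc ℚ) (SkeinModule L)) :
    ∃ ε : ℕ, ∀ D : Diagram L, chi v D.1 % 2 = ε % 2 →
      (Submodule.Quotient.mk (Finsupp.single D 1) : SkeinModule L) = 0 := by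
  by_contra hc
  have hex : ∀ ε : ℕ, ∃ D : Diagram L, chi v D.1 % 2 = ε % 2 ∧
      (Submodule.Quotient.mk (Finsupp.single D 1) : SkeinModule L) ≠ 0 := fun ε => by
    by_contra h2
    exact hc ⟨ε, fun D hD => not_not.1 fun h3 => h2 ⟨D, hD, h3⟩⟩
  obtain ⟨D₀, a0, b0⟩ := hex 0
  obtain ⟨D₁, a1, b1⟩ := hex 1
  obtain ⟨π, hπ⟩ := Parity_proj v h1
  have c0 := hπ D₀
  have c1 := hπ D₁
  rw [if_pos a0] at c0
  rw [if_neg (by omega)] at c1
  generalize (Submodule.Quotient.mk (Finsupp.single D₀ 1) : SkeinModule L) = x at *
  generalize (Submodule.Quotient.mk (Finsupp.single D₁ 1) : SkeinModule L) = y at *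
  have hi : LinearIndependent (RatFunc ℚ) ![x, y] := by
    refine LinearIndependent.pair_iff.2 fun s t hst => ?_
    have h2 := congrArg π hst
    rw [map_add, map_smul, map_smul, c0, c1, smul_zero, add_zero, map_zero] at h2
    have hs : s = 0 := (smul_eq_zero.1 h2).resolve_right b0
    rw [hs, zero_smul, zero_add] at hst
    exact ⟨hs, (smul_eq_zero.1 hst).resolve_right b1⟩
  exact h (by simpa using hi.cardinal_lift_le_rank)

end Pool.Agent.P.MP_53e370_gt.S
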