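import Pool.Agent.P.MP_53e370_gt.S.Diag
import Pool.Agent.P.MP_53e370_gt.S.Prog

/-! Frames exist; representations give points of the configuration space. -/

namespace Pool.Agent.P.MP_53e370_gt.S

open Pool.Agent.P.MP_ac4909_gt

section
variable {ι E : Type}

/-- continuous frames -/
abbrev Points_D (ι E : Type) : Type := C((ι → Circle) × (E ⊕ E → SU), SU)

def Points_ev (ι : Type) (k : E ⊕ E) : Points_D ι E :=
  ⟨fun x => x.2 k, (continuous_apply k).comp continuous_snd⟩

noncomputable def Points_sm (E : Type) (i : ι) : Points_D ι E :=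
  ⟨fun x => Sm (x.1 i), continuous_Sm.comp ((continuous_apply i).comp continuous_fst)⟩

noncomputable def Points_dg (E : Type) (i : ι) : Points_D ι E :=
  ⟨fun x => dg (x.1 i ^ 2),
    continuous_dg.comp (((continuous_apply i).comp continuous_fst).pow 2)⟩

noncomputable def Points_gG (nm : E → ι) : NGen E → List (E × Points_D ι E)
  | .cup e₁ e₂ => [(e₁, Points_ev ι (.inr e₂) * Points_sm E (nm e₁)), (e₂, Points_ev ι (.inr e₂))]
  | .cap _ _ => []
  | .cr true x y y' x' => [(y', Points_ev ι (.inl x) * Points_dg E (nm x) *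
      (Points_ev ι (.inl x))⁻¹ * Points_ev ι (.inl y)), (x', Points_ev ι (.inl x))]
  | .cr false x y y' x' => [(y', Points_ev ι (.inl y)), (x', Points_ev ι (.inl y) *
      (Points_dg E (nm y))⁻¹ * (Points_ev ι (.inl y))⁻¹ * Points_ev ι (.inl x))]

noncomputable def Points_aG (nm : E → ι) : NGen E → List (E × Points_D ι E)
  | .cup _ _ => []
  | .cap e₁ e₂ => [(e₁, Points_ev ι (.inl e₂) * (Points_sm E (nm e₁))⁻¹),
      (e₂, Points_ev ι (.inl e₂))]
  | .cr _ x y _ _ => [(x, Points_ev ι (.inl x)), (y, Points_ev ι (.inl y))]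

noncomputable def Points_gS (nm : E → ι) (s : NSl E) : List (E × Points_D ι E) :=
  s.l.map (fun z => (z.2, Points_ev ι (.inl z.1))) ++ Points_gG nm s.g ++
    s.r.map (fun z => (z.2, Points_ev ι (.inl z.1)))

noncomputable def Points_aS (nm : E → ι) (s : NSl E) : List (E × Points_D ι E) :=
  s.l.map (fun z => (z.1, Points_ev ι (.inl z.1))) ++ Points_aG nm s.g ++
    s.r.map (fun z => (z.1, Points_ev ι (.inl z.1)))

theorem Points_gS_fst (nm : E → ι) (s : NSl E) : (Points_gS nm s).map Prod.fst = s.tgt := by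
  obtain ⟨l, g, r⟩ := s
  rcases g with ⟨e₁, e₂⟩ | ⟨e₁, e₂⟩ | ⟨_ | _, x, y, y', x'⟩ <;>
    simp [Points_gS, Points_gG, NSl.tgt, NGen.tgt, Function.comp_def]

theorem Points_aS_fst (nm : E → ι) (s : NSl E) : (Points_aS nm s).map Prod.fst = s.src := by
  obtain ⟨l, g, r⟩ := s
  rcases g with ⟨e₁, e₂⟩ | ⟨e₁, e₂⟩ | ⟨_ | _, x, y, y', x'⟩ <;>
    simp [Points_aS, Points_aG, NSl.src, NGen.src, Function.comp_def]

theorem Points_compat (nm : E → ι) (s : NSl E) (G A : E → Points_D ι E)
    (hG : ∀ z ∈ Points_gS nm s, G z.1 = z.2) (hA : ∀ z ∈ Points_aS nm s, A z.1 = z.2)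
    (ζ : ι → Circle) (t : E ⊕ E → SU) :
    s.Compat (fun e => ζ (nm e)) t (fun e => G e (ζ, t)) (fun e => A e (ζ, t)) := by
  obtain ⟨l, g, r⟩ := s
  refine ⟨fun z hz => ?_, ?_⟩
  · have h1 := hG (z.2, Points_ev ι (.inl z.1)) (by
      simp only [Points_gS, List.mem_append, List.mem_map] at hz ⊢
      rcases hz with hz | hz
      · exact Or.inl (Or.inl ⟨z, hz, rfl⟩)
      · exact Or.inr ⟨z, hz, rfl⟩)
    have h2 := hA (z.1, Points_ev ι (.inl z.1)) (by
      simp only [Points_aS, List.mem_append, List.mem_map] at hz ⊢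
      rcases hz with hz | hz
      · exact Or.inl (Or.inl ⟨z, hz, rfl⟩)
      · exact Or.inr ⟨z, hz, rfl⟩)
    simp only at h1 h2 ⊢
    rw [h1, h2]
    exact ⟨rfl, rfl⟩
  · have hG' : ∀ z ∈ Points_gG nm g, G z.1 = z.2 := fun z hz => hG z (by
      simp only [Points_gS, List.mem_append]
      exact Or.inl (Or.inr hz))
    have hA' : ∀ z ∈ Points_aG nm g, A z.1 = z.2 := fun z hz => hA z (by
      simp only [Points_aS, List.mem_append]
      exact Or.inl (Or.inr hz))
    rcases g with ⟨e₁, e₂⟩ | ⟨e₁, e₂⟩ | ⟨_ | _, x, y, y', x'⟩ <;>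
      simp only [Points_gG, Points_aG, List.mem_cons, List.not_mem_nil, or_false,
        forall_eq_or_imp, forall_eq] at hG' hA' <;>
      simp only [NGen.Compat]
    · rw [hG'.1, hG'.2]
      exact ⟨rfl, rfl⟩
    · rw [hA'.1, hA'.2]
      exact ⟨rfl, rfl⟩
    · rw [hG'.1, hG'.2, hA'.1, hA'.2]
      exact ⟨rfl, rfl, rfl, rfl⟩
    · rw [hG'.1, hG'.2, hA'.1, hA'.2]
      exact ⟨rfl, rfl, rfl, rfl⟩

theorem Points_framed_one [DecidableEq ι] (v : Finset ι) :
    ∀ (w : List (Sl (Arc ι))) (ρ : List (Arc ι)), Run ρ w [] →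
      Framed (fun _ => 1) v (List.replicate ρ.length 1) w 1
  | [], ρ, h => by
    have : ρ = [] := h
    subst this
    exact Framed.nil
  | ⟨l, g, r⟩ :: w, ρ, h => by
    obtain ⟨rfl, h2⟩ := h
    have ih := Points_framed_one v w _ h2
    have e0 : List.replicate (l ++ [] ++ r).length (1 : SU) =
        List.replicate l.length 1 ++ List.replicate r.length 1 := by
      rw [List.append_nil, List.length_append, List.replicate_add]
    have e2 : ∀ a b : Arc ι, List.replicate (l ++ [a, b] ++ r).length (1 : SU) =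
        List.replicate l.length 1 ++ 1 :: 1 :: List.replicate r.length 1 := by
      intro a b
      simp [List.replicate_add, List.replicate_succ]
    have hm : ∀ a : Arc ι, mer (fun _ => 1) a (1 : SU) = 1 := by
      intro a
      simp [mer]
    rcases g with o | o | ⟨x, y, _ | _⟩
    · simp only [Sl.src, Sl.tgt, Gen.src, Gen.tgt, e0, e2] at ih ⊢
      exact Framed.cup _ _ 1 l r o w 1 (by simp) ih
    · simp only [Sl.src, Sl.tgt, Gen.src, Gen.tgt, e0, e2] at ih ⊢
      have := Framed.cap _ _ 1 1 1 l r o w 1 (by simp) (by simp) ih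
      simpa using this
    · simp only [Sl.src, Sl.tgt, Gen.src, Gen.tgt, e2] at ih ⊢
      refine Framed.under _ _ 1 1 l r x y w 1 (by simp) ?_
      rw [hm]
      simpa using ih
    · simp only [Sl.src, Sl.tgt, Gen.src, Gen.tgt, e2] at ih ⊢
      refine Framed.over _ _ 1 1 l r x y w 1 (by simp) ?_
      rw [hm]
      simpa using ih

/-- the sign between two elements -/
noncomputable def Points_sgn (g f : SU) : ℤˣ := by
  classical exact if g = f then 1 else -1

theorem Points_ne_neg (f : SU) : f.1 ≠ -f.1 := by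
  intro h
  have h0 : f.1 = 0 := by
    ext i j
    have := congrFun (congrFun h i) j
    simp only [Matrix.neg_apply] at this
    have h2 : (2 : ℂ) * f.1 i j = 0 := by linear_combination this
    simpa using h2
  have h1 := (Matrix.mem_specialUnitaryGroup_iff.1 f.2).2
  rw [h0] at h1
  simp at h1

theorem Points_sgn_eq {g f : SU} {σ : ℤˣ} (h : g.1 = (σ : ℤ) • f.1) : Points_sgn g f = σ := by
  unfold Points_sgn
  rcases Int.units_eq_one_or σ with rfl | rfl
  · rw [if_pos (Subtype.ext (by simpa using h))]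
  · rw [if_neg]
    rintro rfl
    exact Points_ne_neg g (by simpa using h)

theorem Points_sgn_self (f : SU) : Points_sgn f f = 1 := Points_sgn_eq (by simp)

/-- `g = ± f` -/
def Points_Pm (g f : SU) : Prop := g.1 = ((Points_sgn g f : ℤˣ) : ℤ) • f.1

theorem Points_Pm_of {g f : SU} {σ : ℤˣ} (h : g.1 = (σ : ℤ) • f.1) : Points_Pm g f := by
  unfold Points_Pm
  rw [Points_sgn_eq h]
  exact h

theorem Points_Pm_self (f : SU) : Points_Pm f f := Points_Pm_of (σ := 1) (by simp)

theorem Points_trace {g a f : SU} (hg : Points_Pm g f) (ha : Points_Pm a f) :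
    (Matrix.trace (a⁻¹ * g).1).re = 2 * (((Points_sgn g f * Points_sgn a f : ℤˣ) : ℤ) : ℝ) := by
  unfold Points_Pm at hg ha
  generalize Points_sgn g f = σ at hg
  generalize Points_sgn a f = σ' at ha
  have h1 : g.1 = ((σ * σ' : ℤˣ) : ℤ) • a.1 := by
    rw [hg, ha, smul_smul]
    congr 1
    rcases Int.units_eq_one_or σ' with rfl | rfl <;> simp
  have h2 : (a⁻¹ * g).1 = ((σ * σ' : ℤˣ) : ℤ) • (1 : Matrix (Fin 2) (Fin 2) ℂ) := by
    have h3 : (a⁻¹ * a).1 = 1 := by rw [inv_mul_cancel]; rfl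
    rw [Submonoid.coe_mul] at h3 ⊢
    rw [h1, Matrix.mul_smul, h3]
  rw [h2]
  rcases Int.units_eq_one_or (σ * σ') with h | h <;> rw [h] <;> simp

/-- the frames `T` are transported through the generator -/
def Points_GoodG (μ : ι → SU) (arc : E → Arc ι) (T : E → SU) : NGen E → Prop
  | .cup e₁ e₂ => T e₂ = T e₁
  | .cap e₁ e₂ => Points_Pm (T e₂) (T e₁)
  | .cr true x y y' x' => T x' = T x ∧ T y' = mer μ (arc x) (T x) * T y
  | .cr false x y y' x' => T y' = T y ∧ T x' = (mer μ (arc y) (T y))⁻¹ * T x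

def Points_Good (μ : ι → SU) (arc : E → Arc ι) (T : E → SU) (s : NSl E) : Prop :=
  (∀ z ∈ s.l ++ s.r, T z.2 = T z.1) ∧ Points_GoodG μ arc T s.g

/-- the sign of a cap -/
noncomputable def Points_eta [DecidableEq ι] (v : Finset ι) (arc : E → Arc ι) (T : E → SU) :
    NGen E → ℤˣ
  | .cap e₁ e₂ => if (arc e₁).name ∈ v then Points_sgn (T e₂) (T e₁) else 1
  | _ => 1

theorem Points_update [DecidableEq E] {D : Type} : ∀ (ks : List E) (vs : List D) (T : E → D),
    ks.Nodup → vs.length = ks.length → ∃ T' : E → D, ks.map T' = vs ∧ ∀ e ∉ ks, T' e = T e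
  | [], [], T, _, _ => ⟨T, rfl, fun _ _ => rfl⟩
  | [], _ :: _, _, _, h => by simp at h
  | _ :: _, [], _, _, h => by simp at h
  | k :: ks, x :: vs, T, hn, hl => by
    rw [List.nodup_cons] at hn
    obtain ⟨T', h1, h2⟩ := Points_update ks vs (Function.update T k x) hn.2 (by simpa using hl)
    refine ⟨T', ?_, fun e he => ?_⟩
    · rw [List.map_cons, h1, h2 k hn.1, Function.update_self]
    · rw [List.mem_cons, not_or] at he
      rw [h2 e he.2, Function.update_of_ne he.1]

theorem Points_split {D : Type} {T : E → D} {l r : List (E × E)} {φ : E × E → E} {m : List E}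
    {tl tm tr : List D} (h : (l.map φ ++ m ++ r.map φ).map T = tl ++ tm ++ tr)
    (h1 : tl.length = l.length) (h2 : tm.length = m.length) :
    l.map (fun z => T (φ z)) = tl ∧ m.map T = tm ∧ r.map (fun z => T (φ z)) = tr := by
  rw [List.map_append, List.map_append] at h
  obtain ⟨h3, h4⟩ := List.append_inj h (by simp [h1, h2])
  obtain ⟨h5, h6⟩ := List.append_inj h3 (by simp [h1])
  exact ⟨by simpa [Function.comp_def] using h5, h6, by simpa [Function.comp_def] using h4⟩

theorem Points_vert {D : Type} {T : E → D} {l r : List (E × E)} {tl tr : List D}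
    (h1 : l.map (fun z => T z.1) = tl) (h2 : l.map (fun z => T z.2) = tl)
    (h3 : r.map (fun z => T z.1) = tr) (h4 : r.map (fun z => T z.2) = tr) :
    ∀ z ∈ l ++ r, T z.2 = T z.1 := by
  intro z hz
  rcases List.mem_append.1 hz with hz | hz
  · exact List.map_inj_left.1 (h2.trans h1.symm) z hz
  · exact List.map_inj_left.1 (h4.trans h3.symm) z hz

/-- one step of a framed derivation -/
theorem Points_step [DecidableEq ι] {μ : ι → SU} {v : Finset ι} {arc : E → Arc ι} (s : NSl E)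
    {ts : List SU} {w : List (Sl (Arc ι))} {ε : ℤˣ} (hl : ts.length = s.src.length)
    (h : Framed μ v ts (s.sl arc :: w) ε) :
    ∃ (ts' : List SU) (ε' : ℤˣ), ts'.length = s.tgt.length ∧ Framed μ v ts' w ε' ∧
      ∀ T : E → SU, s.src.map T = ts → s.tgt.map T = ts' →
        Points_Good μ arc T s ∧ Points_eta v arc T s.g * ε' = ε := by
  obtain ⟨l, g, r⟩ := s
  generalize hs : NSl.sl arc ⟨l, g, r⟩ = s' at h
  rcases h with _ | ⟨tl, tr, t, l', r', o, w, ε, hlen, hF⟩ |
    ⟨tl, tr, t, t', η, l', r', o, w, ε, hlen, ht, hF⟩ |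
    ⟨tl, tr, tx, ty, l', r', x0, y0, w, ε, hlen, hF⟩ |
    ⟨tl, tr, tx, ty, l', r', x0, y0, w, ε, hlen, hF⟩
  · rcases g with ⟨e₁, e₂⟩ | ⟨e₁, e₂⟩ | ⟨b, x, y, y', x'⟩ <;>
      simp only [NSl.sl, NGen.gen, Sl.mk.injEq, reduceCtorEq, false_and, and_false] at hs
    obtain ⟨rfl, -, rfl⟩ := hs
    rw [List.length_map] at hlen
    refine ⟨_, _, ?_, hF, fun T h1 h2 => ?_⟩
    · simp [NSl.src, NSl.tgt, NGen.src, NGen.tgt] at hl ⊢
      omega
    · obtain ⟨a1, -, a3⟩ := Points_split (tm := []) (tl := tl) (tr := tr) (T := T)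
        (by simpa [NSl.src, NGen.src] using h1 : (l.map Prod.fst ++ [] ++ r.map Prod.fst).map T = _)
        hlen rfl
      obtain ⟨b1, b2, b3⟩ := Points_split (tm := [t, t]) (tl := tl) (tr := tr) (T := T)
        (by simpa [NSl.tgt, NGen.tgt] using h2 :
          (l.map Prod.snd ++ [e₁, e₂] ++ r.map Prod.snd).map T = _) hlen rfl
      simp only [List.map_cons, List.map_nil, List.cons.injEq, and_true] at b2
      exact ⟨⟨Points_vert a1 b1 a3 b3, b2.2.trans b2.1.symm⟩, one_mul _⟩
  · rcases g with ⟨e₁, e₂⟩ | ⟨e₁, e₂⟩ | ⟨b, x, y, y', x'⟩ <;>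
      simp only [NSl.sl, NGen.gen, Sl.mk.injEq, reduceCtorEq, false_and, and_false,
        Gen.cap.injEq] at hs
    obtain ⟨rfl, rfl, rfl⟩ := hs
    rw [List.length_map] at hlen
    refine ⟨_, _, ?_, hF, fun T h1 h2 => ?_⟩
    · simp [NSl.src, NSl.tgt, NGen.src, NGen.tgt] at hl ⊢
      omega
    · obtain ⟨a1, a2, a3⟩ := Points_split (tm := [t, t']) (tl := tl) (tr := tr) (T := T)
        (by simpa [NSl.src, NGen.src] using h1 :
          (l.map Prod.fst ++ [e₁, e₂] ++ r.map Prod.fst).map T = _) hlen rfl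
      obtain ⟨b1, -, b3⟩ := Points_split (tm := []) (tl := tl) (tr := tr) (T := T)
        (by simpa [NSl.tgt, NGen.tgt] using h2 :
          (l.map Prod.snd ++ [] ++ r.map Prod.snd).map T = _) hlen rfl
      simp only [List.map_cons, List.map_nil, List.cons.injEq, and_true] at a2
      obtain ⟨rfl, rfl⟩ := a2
      refine ⟨⟨Points_vert a1 b1 a3 b3, Points_Pm_of ht⟩, ?_⟩
      simp only [Points_eta, Points_sgn_eq ht]
  · rcases g with ⟨e₁, e₂⟩ | ⟨e₁, e₂⟩ | ⟨b, x, y, y', x'⟩ <;>
      simp only [NSl.sl, NGen.gen, Sl.mk.injEq, reduceCtorEq, false_and, and_false,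
        Gen.cr.injEq] at hs
    obtain ⟨rfl, ⟨rfl, rfl, rfl⟩, rfl⟩ := hs
    rw [List.length_map] at hlen
    refine ⟨_, _, ?_, hF, fun T h1 h2 => ?_⟩
    · simpa [NSl.src, NSl.tgt, NGen.src, NGen.tgt] using hl
    · obtain ⟨a1, a2, a3⟩ := Points_split (tm := [tx, ty]) (tl := tl) (tr := tr) (T := T)
        (by simpa [NSl.src, NGen.src] using h1 :
          (l.map Prod.fst ++ [x, y] ++ r.map Prod.fst).map T = _) hlen rfl
      obtain ⟨b1, b2, b3⟩ := Points_split (tm := [mer μ (arc x) tx * ty, tx]) (tl := tl) (tr := tr)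
        (T := T) (by simpa [NSl.tgt, NGen.tgt] using h2 :
          (l.map Prod.snd ++ [y', x'] ++ r.map Prod.snd).map T = _) hlen rfl
      simp only [List.map_cons, List.map_nil, List.cons.injEq, and_true] at a2 b2
      obtain ⟨rfl, rfl⟩ := a2
      exact ⟨⟨Points_vert a1 b1 a3 b3, b2.2, b2.1⟩, one_mul _⟩
  · rcases g with ⟨e₁, e₂⟩ | ⟨e₁, e₂⟩ | ⟨b, x, y, y', x'⟩ <;>
      simp only [NSl.sl, NGen.gen, Sl.mk.injEq, reduceCtorEq, false_and, and_false,
        Gen.cr.injEq] at hs
    obtain ⟨rfl, ⟨rfl, rfl, rfl⟩, rfl⟩ := hs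
    rw [List.length_map] at hlen
    refine ⟨_, _, ?_, hF, fun T h1 h2 => ?_⟩
    · simpa [NSl.src, NSl.tgt, NGen.src, NGen.tgt] using hl
    · obtain ⟨a1, a2, a3⟩ := Points_split (tm := [tx, ty]) (tl := tl) (tr := tr) (T := T)
        (by simpa [NSl.src, NGen.src] using h1 :
          (l.map Prod.fst ++ [x, y] ++ r.map Prod.fst).map T = _) hlen rfl
      obtain ⟨b1, b2, b3⟩ := Points_split (tm := [ty, (mer μ (arc y) ty)⁻¹ * tx]) (tl := tl)
        (tr := tr) (T := T) (by simpa [NSl.tgt, NGen.tgt] using h2 :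
          (l.map Prod.snd ++ [y', x'] ++ r.map Prod.snd).map T = _) hlen rfl
      simp only [List.map_cons, List.map_nil, List.cons.injEq, and_true] at a2 b2
      obtain ⟨rfl, rfl⟩ := a2
      exact ⟨⟨Points_vert a1 b1 a3 b3, b2.1, b2.2⟩, one_mul _⟩

theorem Points_frames [DecidableEq ι] [DecidableEq E] {μ : ι → SU} {v : Finset ι}
    {arc : E → Arc ι} : ∀ (P : List (NSl E)) (ρ : List E) (T₀ : E → SU) (ε : ℤˣ), NRun ρ P →
      (ρ ++ P.flatMap NSl.tgt).Nodup → Framed μ v (ρ.map T₀) (P.map (NSl.sl arc)) ε →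
      ∃ T : E → SU, (∀ e ∉ P.flatMap NSl.tgt, T e = T₀ e) ∧ (∀ s ∈ P, Points_Good μ arc T s) ∧
        (P.map fun s => Points_eta v arc T s.g).prod = ε
  | [], ρ, T₀, ε, _, _, h => by
    refine ⟨T₀, fun _ _ => rfl, by simp, ?_⟩
    generalize ρ.map T₀ = ts at h
    rw [List.map_nil] at h ⊢
    cases h
    rfl
  | s :: P, ρ, T₀, ε, hr, hn, h => by
    obtain ⟨rfl, hr⟩ := hr
    obtain ⟨ts', ε', hl, hF, hT⟩ := Points_step s (List.length_map _) h
    rw [List.flatMap_cons, List.nodup_append] at hn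
    obtain ⟨-, hn2, hn3⟩ := hn
    have hn4 := List.nodup_append.1 hn2
    obtain ⟨T₁, h1, h2⟩ := Points_update s.tgt ts' T₀ hn4.1 hl
    obtain ⟨T, h3, h4, h5⟩ := Points_frames P s.tgt T₁ ε' hr hn2 (h1 ▸ hF)
    have h6 : ∀ e ∉ s.tgt ++ P.flatMap NSl.tgt, T e = T₀ e := by
      intro e he
      rw [List.mem_append, not_or] at he
      rw [h3 e he.2, h2 e he.1]
    obtain ⟨h7, h8⟩ := hT T
      (List.map_congr_left fun e he => h6 e fun he' => hn3 e he e he' rfl)
      (h1 ▸ List.map_congr_left fun e he => h3 e fun he' => hn4.2.2 e he e he' rfl)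
    refine ⟨T, h6, ?_, ?_⟩
    · intro s' hs'
      rcases List.mem_cons.1 hs' with rfl | hs'
      · exact h7
      · exact h4 s' hs'
    · rw [List.map_cons, List.prod_cons, h5, h8]

/-- the frame of an edge that diagonalises its meridian -/
noncomputable def Points_Fr (arc : E → Arc ι) (q : ι → SU) (ζ : ι → Circle) (T : E → SU) (e : E) :
    SU := T e * q (arc e).name * (if (arc e).up then 1 else Sm (ζ (arc e).name))

theorem Points_mer {μ q : ι → SU} {ζ : ι → Circle} (hμ : ∀ i, μ i = q i * dg (ζ i ^ 2) * (q i)⁻¹)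
    (arc : E → Arc ι) (T : E → SU) (x : E) :
    Points_Fr arc q ζ T x * dg (ζ (arc x).name ^ 2) * (Points_Fr arc q ζ T x)⁻¹ =
      mer μ (arc x) (T x) := by
  unfold Points_Fr mer
  rw [hμ]
  cases (arc x).up
  · have h := Sm_dg (ζ (arc x).name) (ζ (arc x).name ^ 2)
    simp only [Bool.false_eq_true, if_false, mul_inv_rev, inv_inv]
    rw [← h]
    group
  · simp only [if_true]
    group

theorem Points_Fr_eq {arc : E → Arc ι} (q : ι → SU) (ζ : ι → Circle) {T : E → SU} {x y : E}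
    (h : arc y = arc x) (u : SU) (hT : T y = u * T x) :
    Points_Fr arc q ζ T y = u * Points_Fr arc q ζ T x := by
  unfold Points_Fr
  rw [h, hT]
  simp only [mul_assoc]

/-- the sign at the left arm of a cup -/
def Points_cg [DecidableEq ι] (v : Finset ι) (arc : E → Arc ι) : NGen E → ℤˣ
  | .cup e₁ _ => if (arc e₁).name ∈ v then (if (arc e₁).up then -1 else 1) else 1
  | _ => 1

/-- the sign at the left arm of a cap -/
def Points_ca [DecidableEq ι] (v : Finset ι) (arc : E → Arc ι) : NGen E → ℤˣ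
  | .cap e₁ _ => if (arc e₁).name ∈ v then (if (arc e₁).up then 1 else -1) else 1
  | _ => 1

/-- the sign of an edge, counted only in `v` -/
noncomputable def Points_d [DecidableEq ι] (v : Finset ι) (arc : E → Arc ι) (g f : E → SU)
    (e : E) : ℤˣ := if (arc e).name ∈ v then Points_sgn (g e) (f e) else 1

theorem Points_d_one [DecidableEq ι] (v : Finset ι) (arc : E → Arc ι) {g f : E → SU} {e : E}
    (h : g e = f e) : Points_d v arc g f e = 1 := by
  unfold Points_d
  rw [h, Points_sgn_self, ite_self]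

theorem Points_Pm_eq {g f : SU} (h : g = f) : Points_Pm g f := h ▸ Points_Pm_self g

theorem Points_row [DecidableEq ι] (v : Finset ι) (arc : E → Arc ι) {g f : E → SU}
    {l r : List (E × E)} {φ : E × E → E} {m : List E} {c : ℤˣ}
    (h : ∀ z ∈ l ++ r, g (φ z) = f (φ z))
    (hm : (∀ e ∈ m, Points_Pm (g e) (f e)) ∧ (m.map (Points_d v arc g f)).prod = c) :
    (∀ e ∈ l.map φ ++ m ++ r.map φ, Points_Pm (g e) (f e)) ∧
      ((l.map φ ++ m ++ r.map φ).map (Points_d v arc g f)).prod = c := by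
  have h1 : ∀ k : List (E × E), (∀ z ∈ k, g (φ z) = f (φ z)) →
      ((k.map φ).map (Points_d v arc g f)).prod = 1 := by
    intro k hk
    refine List.prod_eq_one fun x hx => ?_
    simp only [List.mem_map] at hx
    obtain ⟨e, ⟨z, hz, rfl⟩, rfl⟩ := hx
    exact Points_d_one v arc (hk z hz)
  refine ⟨fun e he => ?_, ?_⟩
  · simp only [List.mem_append, List.mem_map] at he
    rcases he with (⟨z, hz, rfl⟩ | he) | ⟨z, hz, rfl⟩
    · exact Points_Pm_eq (h z (List.mem_append_left _ hz))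
    · exact hm.1 e he
    · exact Points_Pm_eq (h z (List.mem_append_right _ hz))
  · rw [List.map_append, List.map_append, List.prod_append, List.prod_append,
      h1 l fun z hz => h z (List.mem_append_left _ hz),
      h1 r fun z hz => h z (List.mem_append_right _ hz), hm.2, one_mul, mul_one]

theorem Points_Sm_inv (z : Circle) : ((Sm z)⁻¹).1 = -(Sm z).1 := by
  have h2 : ((Sm z)⁻¹).1 * (Sm z * Sm z).1 = (Sm z).1 := by
    rw [← Submonoid.coe_mul, inv_mul_cancel_left]
  rw [Sm_sq, mul_neg, mul_one] at h2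
  rw [← h2, neg_neg]

theorem Points_gen [DecidableEq ι] (v : Finset ι) {arc : E → Arc ι} {μ q : ι → SU} {ζ : ι → Circle}
    (hμ : ∀ i, μ i = q i * dg (ζ i ^ 2) * (q i)⁻¹) {T g a : E → SU} (n : NGen E) (hok : n.ok arc)
    (hG : Points_GoodG μ arc T n)
    (hc : n.Compat (fun e => ζ (arc e).name)
      (Sum.elim (Points_Fr arc q ζ T) (Points_Fr arc q ζ T)) g a) :
    ((∀ e ∈ n.tgt, Points_Pm (g e) (Points_Fr arc q ζ T e)) ∧
      (n.tgt.map (Points_d v arc g (Points_Fr arc q ζ T))).prod = Points_cg v arc n) ∧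
    ((∀ e ∈ n.src, Points_Pm (a e) (Points_Fr arc q ζ T e)) ∧
      (n.src.map (Points_d v arc a (Points_Fr arc q ζ T))).prod =
        Points_eta v arc T n * Points_ca v arc n) := by
  rcases n with ⟨e₁, e₂⟩ | ⟨e₁, e₂⟩ | ⟨_ | _, x, y, y', x'⟩ <;>
    simp only [NGen.ok, Points_GoodG, NGen.Compat, Sum.elim_inl, Sum.elim_inr] at hok hG hc <;>
    simp only [NGen.tgt, NGen.src, List.mem_cons, List.not_mem_nil, or_false, forall_eq_or_imp,
      forall_eq, List.map_cons, List.map_nil, List.prod_cons, List.prod_nil, mul_one, Points_cg,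
      Points_ca, Points_eta, false_imp_iff, implies_true, true_and, and_true]
  · have h1 : (g e₁).1 = ((if (arc e₁).up then -1 else 1 : ℤˣ) : ℤ) •
        (Points_Fr arc q ζ T e₁).1 := by
      rw [hc.2]
      unfold Points_Fr
      rw [hok, hG]
      change (T e₁ * q (arc e₁).name * (if (!(arc e₁).up) = true then 1 else Sm (ζ (arc e₁).name)) *
        Sm (ζ (arc e₁).name)).1 = _
      cases (arc e₁).up
      · simp
      · simp only [Bool.not_true, Bool.false_eq_true, if_false, if_true, mul_one]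
        rw [mul_assoc, Submonoid.coe_mul _ _ (Sm _ * Sm _), Sm_sq]
        simp
    refine ⟨⟨Points_Pm_of h1, Points_Pm_eq hc.1⟩, ?_⟩
    rw [Points_d_one v arc hc.1, mul_one, Points_d, Points_sgn_eq h1]
  · have h1 : (a e₁).1 = ((Points_sgn (T e₂) (T e₁) * if (arc e₁).up then 1 else -1 : ℤˣ) : ℤ) •
        (Points_Fr arc q ζ T e₁).1 := by
      rw [hc.2]
      unfold Points_Fr
      unfold Points_Pm at hG
      generalize Points_sgn (T e₂) (T e₁) = η at hG
      rw [hok]
      change (T e₂ * q (arc e₁).name * (if (!(arc e₁).up) = true then 1 else Sm (ζ (arc e₁).name)) *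
        (Sm (ζ (arc e₁).name))⁻¹).1 = _
      cases (arc e₁).up
      · simp only [Bool.not_false, Bool.false_eq_true, if_false, if_true, mul_one,
          Submonoid.coe_mul, Points_Sm_inv, hG]
        simp [mul_assoc]
      · simp only [Bool.not_true, Bool.false_eq_true, if_false, if_true, mul_one,
          mul_inv_cancel_right, Submonoid.coe_mul, hG]
        simp [mul_assoc]
    refine ⟨⟨Points_Pm_of h1, Points_Pm_eq hc.1⟩, ?_⟩
    rw [Points_d_one v arc hc.1, mul_one, Points_d, Points_sgn_eq h1]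
    split_ifs <;> simp
  · obtain ⟨c1, c2, c3, c4⟩ := hc
    have g1 : g y' = Points_Fr arc q ζ T y' := by
      rw [c3, Points_Fr_eq q ζ hok.2 1 (by rw [hG.1, one_mul]), one_mul]
    have g2 : g x' = Points_Fr arc q ζ T x' := by
      rw [c4, Points_Fr_eq q ζ hok.1 _ hG.2, ← Points_mer hμ]
      group
    rw [Points_d_one v arc g1, Points_d_one v arc g2, Points_d_one v arc c1, Points_d_one v arc c2]
    exact ⟨⟨⟨Points_Pm_eq g1, Points_Pm_eq g2⟩, one_mul _⟩, ⟨Points_Pm_eq c1, Points_Pm_eq c2⟩,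
      one_mul _⟩
  · obtain ⟨c1, c2, c3, c4⟩ := hc
    have g1 : g x' = Points_Fr arc q ζ T x' := by
      rw [c3, Points_Fr_eq q ζ hok.1 1 (by rw [hG.1, one_mul]), one_mul]
    have g2 : g y' = Points_Fr arc q ζ T y' := by
      rw [c4, Points_Fr_eq q ζ hok.2 _ hG.2, ← Points_mer hμ]
    rw [Points_d_one v arc g1, Points_d_one v arc g2, Points_d_one v arc c1, Points_d_one v arc c2]
    exact ⟨⟨⟨Points_Pm_eq g2, Points_Pm_eq g1⟩, one_mul _⟩, ⟨Points_Pm_eq c1, Points_Pm_eq c2⟩,
      one_mul _⟩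

theorem Points_slice [DecidableEq ι] (v : Finset ι) {arc : E → Arc ι} {μ q : ι → SU}
    {ζ : ι → Circle} (hμ : ∀ i, μ i = q i * dg (ζ i ^ 2) * (q i)⁻¹) {T g a : E → SU} (s : NSl E)
    (hok : s.ok arc) (hG : Points_Good μ arc T s)
    (hc : s.Compat (fun e => ζ (arc e).name)
      (Sum.elim (Points_Fr arc q ζ T) (Points_Fr arc q ζ T)) g a) :
    ((∀ e ∈ s.tgt, Points_Pm (g e) (Points_Fr arc q ζ T e)) ∧
      (s.tgt.map (Points_d v arc g (Points_Fr arc q ζ T))).prod = Points_cg v arc s.g) ∧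
    ((∀ e ∈ s.src, Points_Pm (a e) (Points_Fr arc q ζ T e)) ∧
      (s.src.map (Points_d v arc a (Points_Fr arc q ζ T))).prod =
        Points_eta v arc T s.g * Points_ca v arc s.g) := by
  obtain ⟨h1, h2⟩ := Points_gen v hμ s.g hok.2 hG.2 hc.2
  refine ⟨Points_row v arc (fun z hz => ?_) h1, Points_row v arc (fun z hz => (hc.1 z hz).2) h2⟩
  rw [(hc.1 z hz).1, Points_Fr_eq q ζ (hok.1 z hz) 1 (by rw [hG.1 z hz, one_mul]), one_mul]
  rfl

theorem Points_prod_flatMap {M : Type} [CommMonoid M] (d : E → M) (φ : NSl E → List E) :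
    ∀ P : List (NSl E), ((P.flatMap φ).map d).prod = (P.map fun s => ((φ s).map d).prod).prod
  | [] => rfl
  | s :: P => by
    rw [List.flatMap_cons, List.map_append, List.prod_append, Points_prod_flatMap d φ P,
      List.map_cons, List.prod_cons]

end

variable {ι E : Type} [Fintype ι] [DecidableEq ι] [Fintype E] [DecidableEq E]
  {L : List (Sl (Arc ι))}

theorem exists_frames (Q : Prog L E) : Nonempty (Frames Q) := by
  have : Nonempty (Points_D ι E) := ⟨1⟩
  obtain ⟨G, hG⟩ := exists_fun_of_nodup (Q.pr.flatMap (Points_gS Q.nm)) (by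
    rw [List.map_flatMap]
    simp only [Points_gS_fst]
    exact Q.nodup)
  obtain ⟨A, hA⟩ := exists_fun_of_nodup (Q.pr.flatMap (Points_aS Q.nm)) (by
    rw [List.map_flatMap]
    simp only [Points_aS_fst]
    have := Q.flatMap_src
    rw [show (fun s : NSl E => s.src) = NSl.src from rfl, this]
    exact Q.nodup)
  refine ⟨⟨fun ζ t e => G e (ζ, t), fun ζ t e => A e (ζ, t),
    continuous_pi fun e => (G e).continuous, continuous_pi fun e => (A e).continuous, ?_⟩⟩
  intro ζ t s hs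
  exact Points_compat Q.nm s G A (fun z hz => hG z (List.mem_flatMap.2 ⟨s, hs, hz⟩))
    (fun z hz => hA z (List.mem_flatMap.2 ⟨s, hs, hz⟩)) ζ t

theorem framed_one (hL : Run [] L []) (v : Finset ι) : Framed (fun _ => 1) v [] L 1 :=
  Points_framed_one v L [] hL

theorem exists_point {Q : Prog L E} (F : Frames Q) (base : ι → E) (v : Finset ι) :
    ∃ c : ℤˣ, ∀ (μ : ι → SU) (ε : ℤˣ), Framed μ v [] L ε → ∃ (x : Cfg ι E) (η : E → ℤˣ),
      (∀ e, zc F base x e = -2 * ((η e : ℤ) : ℝ)) ∧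
        ∏ e ∈ Finset.univ.filter fun e => Q.nm e ∈ v, η e = ε * c := by
  refine ⟨(Q.pr.map fun s => Points_ca v Q.arc s.g).prod *
    (Q.pr.map fun s => Points_cg v Q.arc s.g).prod, fun μ ε hF => ?_⟩
  obtain ⟨T, -, hT, hε⟩ := Points_frames (μ := μ) (v := v) (arc := Q.arc) Q.pr [] (fun _ => 1) ε
    Q.run (by simpa using Q.nodup) (by rw [Q.map]; exact hF)
  choose q θ hμ using fun i => su_diag (μ i)
  let ζ : ι → Circle := fun i => zt (θ i)
  let f : E → SU := Points_Fr Q.arc q ζ T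
  let ω : E ⊕ E → SU := Sum.elim f f
  have hs := fun s (hs : s ∈ Q.pr) =>
    Points_slice v (ζ := ζ) hμ s (Q.ok s hs) (hT s hs) (F.compat ζ ω s hs)
  refine ⟨(θ, ω, fun _ => 1), fun e => Points_sgn (F.g ζ ω e) (f e) * Points_sgn (F.a ζ ω e) (f e),
    fun e => ?_, ?_⟩
  · have hg : Points_Pm (F.g ζ ω e) (f e) := by
      obtain ⟨s, h1, h2⟩ := List.mem_flatMap.1 (Q.all e)
      exact (hs s h1).1.1 e h2
    have ha : Points_Pm (F.a ζ ω e) (f e) := by
      obtain ⟨s, h1, h2⟩ := List.mem_flatMap.1 (Q.flatMap_src ▸ Q.all e)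
      exact (hs s h1).2.1 e h2
    have ht : tt Q.nm base (fun _ => 1) e = 1 := by simp [tt]
    change -(Matrix.trace (dg (tt Q.nm base (fun _ => 1) e) *
      ((F.a ζ ω e)⁻¹ * F.g ζ ω e)).1).re = _
    rw [ht, dg_one, one_mul, Points_trace hg ha]
    ring
  · have h1 : ∏ e, Points_d v Q.arc (F.g ζ ω) f e =
        (Q.pr.map fun s => Points_cg v Q.arc s.g).prod := by
      rw [← Q.prod_rows]
      exact congrArg List.prod (List.map_congr_left fun s h => (hs s h).1.2)
    have h2 : ∏ e, Points_d v Q.arc (F.a ζ ω) f e =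
        ε * (Q.pr.map fun s => Points_ca v Q.arc s.g).prod := by
      rw [← Q.prod_rows, ← Points_prod_flatMap, ← Q.flatMap_src, Points_prod_flatMap, ← hε,
        ← List.prod_map_mul]
      exact congrArg List.prod (List.map_congr_left fun s h => (hs s h).2.2)
    rw [← mul_assoc, ← h1, ← h2, ← Finset.prod_mul_distrib, Finset.prod_filter]
    refine Finset.prod_congr rfl fun e _ => ?_
    unfold Points_d Prog.nm
    split_ifs
    · exact mul_comm _ _
    · rfl

end Pool.Agent.P.MP_53e370_gt.S
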