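import Pool.Agent.P.MP_53e370_gt.S.Level

/-! The colours `2 ⌊θ q⌋` are in the classical regime; the Weyl density. -/

namespace Pool.Agent.P.MP_53e370_gt.S

open Pool.Agent.P.MP_ac4909_gt Filter Topology

theorem MidL_pp (t : ℕ) : (pp t : ℝ) = 2 * qq t + 1 := by
  have h1 := NN_add t
  have h2 := qq_eq t
  have h3 : pp t = 2 * qq t + 1 := by omega
  exact_mod_cast h3

theorem MidL_pos (t : ℕ) : (0 : ℝ) < pp t := by
  have := pp_five t
  exact_mod_cast (by omega : 0 < pp t)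

theorem MidL_tend : Tendsto (fun t => (pp t : ℝ)) atTop atTop :=
  tendsto_natCast_atTop_atTop.comp pp_tend

theorem MidL_div (θ c : ℝ) : Tendsto (fun t => θ + c / (pp t : ℝ)) atTop (𝓝 θ) := by
  have := (tendsto_const_nhds (x := θ)).add ((tendsto_const_nhds (x := c)).div_atTop MidL_tend)
  rwa [add_zero] at this

theorem MidL_ratio (θ : unitInterval) (c : ℝ) :
    Tendsto (fun t => (((2 * ⌊(θ : ℝ) * qq t⌋₊ : ℕ) : ℝ) + c) / pp t) atTop (𝓝 (θ : ℝ)) := by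
  have h0 : (0 : ℝ) ≤ θ := θ.2.1
  have h1 : (θ : ℝ) ≤ 1 := θ.2.2
  refine tendsto_of_tendsto_of_tendsto_of_le_of_le (MidL_div θ (c - 3)) (MidL_div θ c)
    (fun t => ?_) fun t => ?_
  · have h2 := Nat.lt_floor_add_one ((θ : ℝ) * qq t)
    have h3 := MidL_pos t
    have h4 := MidL_pp t
    show (θ : ℝ) + (c - 3) / pp t ≤ _
    rw [le_div_iff₀ h3, add_mul, div_mul_cancel₀ _ h3.ne', h4]
    push_cast
    nlinarith
  · have h2 := Nat.floor_le (mul_nonneg h0 (Nat.cast_nonneg (qq t)))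
    have h3 := MidL_pos t
    have h4 := MidL_pp t
    show _ ≤ (θ : ℝ) + c / pp t
    rw [div_le_iff₀ h3, add_mul, div_mul_cancel₀ _ h3.ne', h4]
    push_cast
    nlinarith

theorem floor_le {θ : unitInterval} (h1 : θ < 1) (t : ℕ) : ⌊(θ : ℝ) * qq t⌋₊ < qq t := by
  have h0 : (0 : ℝ) ≤ θ := θ.2.1
  have h2 : (θ : ℝ) < 1 := h1
  have h3 : (0 : ℝ) < qq t := by exact_mod_cast qq_pos t
  rw [Nat.floor_lt (mul_nonneg h0 h3.le)]
  nlinarith

theorem MidL_far {θ : unitInterval} (h1 : θ < 1) (n : ℕ) :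
    ∀ᶠ t in atTop, 2 * ⌊(θ : ℝ) * qq t⌋₊ + n ≤ NN t := by
  have h2 : (θ : ℝ) < 1 := h1
  filter_upwards [(MidL_ratio θ (n + 2)).eventually_lt_const h2] with t ht
  rw [div_lt_one (MidL_pos t), ← NN_add] at ht
  have h3 : 2 * ⌊(θ : ℝ) * qq t⌋₊ + (n + 2) < NN t + 2 := by exact_mod_cast ht
  omega

theorem mid_floor {R : ℕ → Type} [∀ t, Ring (R t)] [∀ t, Algebra ℂ (R t)] (T : ∀ t, TL ℂ (R t))
    (hT : ∀ t, (T t).a = a1 t) {θ : unitInterval} (h0 : 0 < θ) (h1 : θ < 1) :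
    Mid T (fun t => 2 * ⌊(θ : ℝ) * qq t⌋₊) (zt θ) := by
  have h0' : (0 : ℝ) < θ := h0
  have h1' : (θ : ℝ) < 1 := h1
  have hz : (zt θ : ℂ) = Complex.exp ((Real.pi * θ / 2 : ℝ) * Complex.I) := Circle.coe_exp _
  refine ⟨?_, fun n => ?_, ?_, ?_⟩
  · have h2 : Tendsto (fun t => ⌊(θ : ℝ) * qq t⌋₊) atTop atTop :=
      tendsto_nat_floor_atTop.comp
        ((tendsto_natCast_atTop_atTop.comp qq_tend).const_mul_atTop h0')
    exact tendsto_atTop_mono (fun t => by omega) h2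
  · filter_upwards [MidL_far h1 n] with t ht
    rw [hT]
    exact (adm_a1 t).mono (by omega)
  · have h2 : Continuous fun x : ℝ => Complex.exp ((Real.pi * x / 2 : ℝ) * Complex.I) := by
      fun_prop
    rw [hz]
    refine ((h2.tendsto θ).comp (MidL_ratio θ 0)).congr fun t => ?_
    rw [hT, a1, neg_neg, ← Complex.exp_nat_mul]
    simp only [Function.comp]
    congr 1
    push_cast
    ring
  · rw [hz, ← Complex.exp_nat_mul, Ne, Complex.exp_eq_one_iff]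
    rintro ⟨n, hn⟩
    have h2 : ((θ : ℝ) : ℂ) = (n : ℂ) := by
      apply mul_right_cancel₀ Complex.two_pi_I_ne_zero
      rw [← hn]
      push_cast
      ring
    have h3 : (θ : ℝ) = n := by exact_mod_cast h2
    rw [h3] at h0' h1'
    have h4 : 0 < n := by exact_mod_cast h0'
    have h5 : n < 1 := by exact_mod_cast h1'
    omega

theorem floor_far {θ : unitInterval} (h1 : θ < 1) (n : ℕ) :
    ∀ᶠ t in atTop, 2 * ⌊(θ : ℝ) * qq t⌋₊ + n ≤ NN t := MidL_far h1 n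

theorem MidL_dens (t k kb : ℕ) :
    (qq t : ℂ) * (Dl (a1 t) k * Dl (a1 t) kb / DD (a1 t) (NN t)) = (-1) ^ k * (-1) ^ kb *
      (((1 + -1 / pp t) * (Real.sin (Real.pi * ((k + 1) / pp t)) *
        Real.sin (Real.pi * ((kb + 1) / pp t))) : ℝ) : ℂ) := by
  have h1 := MidL_pos t
  have h2 : (1 : ℝ) < pp t := by
    have := pp_five t
    exact_mod_cast (by omega : 1 < pp t)
  have h3 : Real.sin (Real.pi / pp t) ≠ 0 :=
    (Real.sin_pos_of_pos_of_lt_pi (div_pos Real.pi_pos h1) (div_lt_self Real.pi_pos h2)).ne'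
  have h4 : (qq t : ℝ) = (pp t - 1) / 2 := by rw [MidL_pp]; ring
  have h5 : (qq t : ℝ) * (Real.sin (Real.pi * (k + 1) / pp t) / Real.sin (Real.pi / pp t) *
      (Real.sin (Real.pi * (kb + 1) / pp t) / Real.sin (Real.pi / pp t)) /
      (pp t / (2 * Real.sin (Real.pi / pp t) ^ 2))) =
      (1 + -1 / pp t) * (Real.sin (Real.pi * ((k + 1) / pp t)) *
        Real.sin (Real.pi * ((kb + 1) / pp t))) := by
    rw [h4, ← mul_div_assoc Real.pi, ← mul_div_assoc Real.pi]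
    field_simp
    ring
  rw [← h5, Dl_a1, Dl_a1, DD_a1, Complex.ofReal_mul, Complex.ofReal_div _ (_ / _),
    Complex.ofReal_mul (_ / _) (_ / _), Complex.ofReal_natCast]
  ring

theorem dens_lim {θ : unitInterval} (k : ℕ → ℕ) (d : ℤ)
    (hk : ∀ᶠ t in atTop, ((2 * ⌊(θ : ℝ) * qq t⌋₊ : ℕ) : ℤ) = k t + d) :
    Tendsto (fun t => (qq t : ℂ) *
        (Dl (a1 t) (k t) * Dl (a1 t) (2 * ⌊(θ : ℝ) * qq t⌋₊) / DD (a1 t) (NN t))) atTop
      (𝓝 ((-1) ^ d * ((Real.sin (Real.pi * θ) ^ 2 : ℝ) : ℂ))) := by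
  have hs : Continuous fun x : ℝ => Real.sin (Real.pi * x) := by fun_prop
  have h1 := (MidL_div 1 (-1)).mul (((hs.tendsto θ).comp (MidL_ratio θ (1 - d))).mul
    ((hs.tendsto θ).comp (MidL_ratio θ 1)))
  rw [one_mul, ← sq] at h1
  have h2 := (Complex.continuous_ofReal.tendsto _).comp h1
  refine (h2.const_mul ((-1 : ℂ) ^ d)).congr' ?_
  filter_upwards [hk] with t ht
  have h3 : ((2 * ⌊(θ : ℝ) * qq t⌋₊ : ℕ) : ℝ) = k t + d := by exact_mod_cast ht
  have h4 : ((2 * ⌊(θ : ℝ) * qq t⌋₊ : ℕ) : ℝ) + (1 - d) = k t + 1 := by rw [h3]; ring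
  have h5 : (-1 : ℂ) ^ d = (-1) ^ k t * (-1) ^ (2 * ⌊(θ : ℝ) * qq t⌋₊) := by
    have h6 : (-1 : ℂ) ≠ 0 := neg_ne_zero.2 one_ne_zero
    have h7 : (-1 : ℂ) ^ k t * (-1) ^ k t = 1 := by rw [← mul_pow]; simp
    rw [← zpow_natCast (-1 : ℂ) (2 * _), ht, zpow_add₀ h6, zpow_natCast, ← mul_assoc, h7, one_mul]
  rw [MidL_dens, h5]
  simp only [Function.comp]
  rw [h4]

theorem dens_bd (t k kb : ℕ) :
    ‖(qq t : ℂ) * (Dl (a1 t) k * Dl (a1 t) kb / DD (a1 t) (NN t))‖ ≤ 1 := by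
  have h1 := MidL_pos t
  have h2 : (1 : ℝ) < pp t := by
    have := pp_five t
    exact_mod_cast (by omega : 1 < pp t)
  have h3 : |1 + -1 / (pp t : ℝ)| ≤ 1 := by
    have h4 : 0 < 1 / (pp t : ℝ) := by positivity
    have h5 : 1 / (pp t : ℝ) < 1 := (div_lt_one h1).2 h2
    rw [neg_div, abs_le]
    constructor <;> linarith
  rw [MidL_dens, norm_mul, norm_mul, norm_pow, norm_pow, norm_neg, norm_one, one_pow, one_pow,
    one_mul, one_mul, Complex.norm_real, Real.norm_eq_abs, abs_mul, abs_mul]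
  exact mul_le_one₀ h3 (by positivity)
    (mul_le_one₀ (Real.abs_sin_le_one _) (abs_nonneg _) (Real.abs_sin_le_one _))

end Pool.Agent.P.MP_53e370_gt.S
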