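import Pool.Agent.P.MP_53e370_gt.S.Level
import Pool.Agent.P.MP_53e370_gt.S.Gram
import Pool.Agent.P.MP_53e370_gt.S.GForm
import Pool.Agent.P.MP_53e370_gt.S.MidL

/-! Bounds from positivity. -/

namespace Pool.Agent.P.MP_53e370_gt.S

open Pool.Agent.P.MP_ac4909_gt

variable {ι E : Type} [Fintype ι] [DecidableEq ι] [Fintype E] [DecidableEq E]
  {L : List (Sl (Arc ι))}

theorem Pos_inner {V α : Type} [NormedAddCommGroup V] [InnerProductSpace ℂ V]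
    (A B : Finset α) (φ : α → V) (x y : α → ℝ) :
    ∑ kb ∈ B, ∑ k ∈ A, ((x k * y kb : ℝ) : ℂ) * inner ℂ (φ kb) (φ k) =
      inner ℂ (∑ kb ∈ B, (y kb : ℂ) • φ kb) (∑ k ∈ A, (x k : ℂ) • φ k) := by
  rw [sum_inner]
  refine Finset.sum_congr rfl fun kb _ => ?_
  rw [inner_sum]
  refine Finset.sum_congr rfl fun k _ => ?_
  rw [inner_smul_left, inner_smul_right, Complex.conj_ofReal]
  push_cast
  ring

theorem Pos_norm {V α κ : Type} [NormedAddCommGroup V] [InnerProductSpace ℂ V] [DecidableEq α]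
    (S : Finset κ) (w : κ → ℝ) (A : Finset α) (ψ : α → κ → V)
    (hδ : ∀ k ∈ A, ∀ kb ∈ A,
      ∑ c ∈ S, (w c : ℂ) * inner ℂ (ψ kb c) (ψ k c) = if k = kb then 1 else 0) (x : α → ℝ) :
    ∑ c ∈ S, w c * ‖∑ k ∈ A, (x k : ℂ) • ψ k c‖ ^ 2 = ∑ k ∈ A, x k ^ 2 := by
  apply Complex.ofReal_injective
  have e1 : ∀ c, ((‖∑ k ∈ A, (x k : ℂ) • ψ k c‖ : ℝ) : ℂ) ^ 2 =
      ∑ kb ∈ A, ∑ k ∈ A, ((x k * x kb : ℝ) : ℂ) * inner ℂ (ψ kb c) (ψ k c) := fun c => by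
    rw [Pos_inner A A (fun k => ψ k c) x x, inner_self_eq_norm_sq_to_K]
    rfl
  push_cast
  simp only [e1, Finset.mul_sum]
  rw [Finset.sum_comm]
  refine Finset.sum_congr rfl fun kb hkb => ?_
  rw [Finset.sum_comm]
  have e2 : ∀ k ∈ A, ∑ c ∈ S, (w c : ℂ) * (((x k * x kb : ℝ) : ℂ) * inner ℂ (ψ kb c) (ψ k c)) =
      if k = kb then ((x k * x kb : ℝ) : ℂ) else 0 := fun k hk => by
    have : ∑ c ∈ S, (w c : ℂ) * (((x k * x kb : ℝ) : ℂ) * inner ℂ (ψ kb c) (ψ k c)) =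
        ((x k * x kb : ℝ) : ℂ) * ∑ c ∈ S, (w c : ℂ) * inner ℂ (ψ kb c) (ψ k c) := by
      rw [Finset.mul_sum]
      exact Finset.sum_congr rfl fun c _ => by ring
    rw [this, hδ k hk kb hkb]
    split_ifs <;> simp
  rw [Finset.sum_congr rfl e2, Finset.sum_ite_eq' A kb, if_pos hkb]
  push_cast
  ring

theorem gram_bound {V α κ : Type} [NormedAddCommGroup V] [InnerProductSpace ℂ V] [DecidableEq α]
    (S : Finset κ) (w : κ → ℝ) (hw : ∀ c ∈ S, 0 ≤ w c) (A B : Finset α) (ψ : α → κ → V)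
    (hδ : ∀ k ∈ A ∪ B, ∀ kb ∈ A ∪ B,
      ∑ c ∈ S, (w c : ℂ) * inner ℂ (ψ kb c) (ψ k c) = if k = kb then 1 else 0) (x y : α → ℝ) :
    ∑ c ∈ S, ‖(w c : ℂ) * ∑ kb ∈ B, ∑ k ∈ A, (x k * y kb : ℝ) * inner ℂ (ψ kb c) (ψ k c)‖ ≤
      (∑ k ∈ A, x k ^ 2 + ∑ k ∈ B, y k ^ 2) / 2 := by
  rw [← Pos_norm S w A ψ (fun k hk kb hkb => hδ k (Finset.mem_union_left _ hk) kb
      (Finset.mem_union_left _ hkb)) x,
    ← Pos_norm S w B ψ (fun k hk kb hkb => hδ k (Finset.mem_union_right _ hk) kb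
      (Finset.mem_union_right _ hkb)) y, ← Finset.sum_add_distrib, Finset.sum_div]
  refine Finset.sum_le_sum fun c hc => ?_
  rw [Pos_inner A B (fun k => ψ k c) x y, norm_mul, Complex.norm_real,
    Real.norm_of_nonneg (hw c hc)]
  have h1 := norm_inner_le_norm (𝕜 := ℂ) (∑ kb ∈ B, (y kb : ℂ) • ψ kb c)
    (∑ k ∈ A, (x k : ℂ) • ψ k c)
  have h2 := sq_nonneg (‖∑ kb ∈ B, (y kb : ℂ) • ψ kb c‖ - ‖∑ k ∈ A, (x k : ℂ) • ψ k c‖)
  have h3 := hw c hc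
  nlinarith [mul_le_mul_of_nonneg_left h1 h3, mul_nonneg h3 h2]

/-- the quantum dimension up to sign -/
noncomputable def Pos_s (t κ : ℕ) : ℝ :=
  Real.sin (Real.pi * (κ + 1) / pp t) / Real.sin (Real.pi / pp t)

/-- the global dimension -/
noncomputable def Pos_D (t : ℕ) : ℝ := pp t / (2 * Real.sin (Real.pi / pp t) ^ 2)

theorem Pos_sin (t : ℕ) : 0 < Real.sin (Real.pi / pp t) := by
  have h : (5 : ℝ) ≤ pp t := by exact_mod_cast pp_five t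
  refine Real.sin_pos_of_pos_of_lt_pi (by positivity) ?_
  exact div_lt_self Real.pi_pos (by linarith)

theorem Pos_D_pos (t : ℕ) : 0 < Pos_D t := by
  have h : (5 : ℝ) ≤ pp t := by exact_mod_cast pp_five t
  have := Pos_sin t
  unfold Pos_D
  positivity

theorem Pos_s_nonneg {t κ : ℕ} (h : κ ≤ NN t) : 0 ≤ Pos_s t κ := by
  have h5 : (5 : ℝ) ≤ pp t := by exact_mod_cast pp_five t
  have hk : (κ : ℝ) + 1 ≤ pp t := by
    have := NN_add t
    exact_mod_cast (by omega : κ + 1 ≤ pp t)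
  refine div_nonneg (Real.sin_nonneg_of_nonneg_of_le_pi (by positivity) ?_) (Pos_sin t).le
  rw [div_le_iff₀ (by linarith)]
  exact mul_le_mul_of_nonneg_left hk Real.pi_pos.le

theorem Pos_Dl (t κ : ℕ) : Dl (a1 t) κ = (((-1) ^ κ * Pos_s t κ : ℝ) : ℂ) := by
  rw [Dl_a1, Pos_s]
  simp only [Complex.ofReal_mul, Complex.ofReal_pow, Complex.ofReal_neg, Complex.ofReal_one]

theorem Pos_DD (t : ℕ) : DD (a1 t) (NN t) = (Pos_D t : ℂ) := DD_a1 t

theorem Pos_sum (t : ℕ) :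
    ∑ κ ∈ Finset.range (NN t + 1), ((-1) ^ κ * Pos_s t κ) ^ 2 = Pos_D t := by
  apply Complex.ofReal_injective
  rw [← Pos_DD, DD, Complex.ofReal_sum]
  exact Finset.sum_congr rfl fun κ _ => by rw [Pos_Dl, Complex.ofReal_pow]

theorem Pos_mem {α : Type} [Fintype α] [DecidableEq α] {N : ℕ} {k : α → ℕ} :
    k ∈ bx α N ↔ ∀ i, k i ≤ N := by
  simp [bx, Fintype.mem_piFinset]

/-- the weight of the colours of the rings -/
noncomputable def Pos_w (t : ℕ) (κ : E → ℕ) : ℝ := ∏ e, Pos_s t (κ e) / Pos_D t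

theorem Pos_w_nonneg {t : ℕ} {κ : E → ℕ} (h : κ ∈ bx E (NN t)) : 0 ≤ Pos_w t κ :=
  Finset.prod_nonneg fun e _ => div_nonneg (Pos_s_nonneg (Pos_mem.1 h e)) (Pos_D_pos t).le

omit [DecidableEq E] in
theorem Pos_prod (t : ℕ) (κ : E → ℕ) :
    ∏ e, Dl (a1 t) (κ e) / DD (a1 t) (NN t) = (Pos_w t κ : ℂ) * (-1) ^ (∑ e, κ e) := by
  rw [Pos_w, ← Finset.prod_pow_eq_pow_sum, Complex.ofReal_prod, ← Finset.prod_mul_distrib]
  refine Finset.prod_congr rfl fun e _ => ?_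
  rw [Pos_Dl, Pos_DD]
  push_cast
  ring

theorem Pos_Gs_one (Q : Prog L E) (hL : IsFramedLink L) (t : ℕ) {k kb : ι → ℕ}
    (hk : ∀ i, k i ≤ NN t) (hkb : ∀ i, kb i ≤ NN t) :
    (Gs (a1 t) (a1_ne t) Q.W (NN t) k kb fun _ => 1) = if k = kb then 1 else 0 := by
  obtain ⟨M⟩ := exists_M t
  have h := Gs_one Q hL (Q.framed hL) (lev_M M) hk hkb
  have key : ∀ (a : ℂ) (ha : a ≠ 0), a = a1 t →
      (Gs a ha Q.W (NN t) k kb fun _ => 1) = Gs (a1 t) (a1_ne t) Q.W (NN t) k kb fun _ => 1 := by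
    rintro a ha rfl
    rfl
  rw [← key _ M.T.ha M.a_eq, h]

theorem Pos_Gs_far (Q : Prog L E) (hL : IsFramedLink L) (t : ℕ) {k kb : ι → ℕ}
    (hk : ∀ i, k i ≤ NN t) (hkb : ∀ i, kb i ≤ NN t) (j : E → ℕ) (e : E)
    (he : k (Q.nm e) + j e < kb (Q.nm e) ∨ kb (Q.nm e) + j e < k (Q.nm e)) :
    (Gs (a1 t) (a1_ne t) Q.W (NN t) k kb fun κ => ∏ e, mu (a1 t) (κ e) ^ j e) = 0 := by
  obtain ⟨M⟩ := exists_M t
  have h := Gs_far Q (Q.framed hL) (lev_M M) hk hkb j e he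
  have key : ∀ (a : ℂ) (ha : a ≠ 0), a = a1 t →
      (Gs a ha Q.W (NN t) k kb fun κ => ∏ e, mu a (κ e) ^ j e) =
        Gs (a1 t) (a1_ne t) Q.W (NN t) k kb fun κ => ∏ e, mu (a1 t) (κ e) ^ j e := by
    rintro a ha rfl
    rfl
  rw [← key _ M.T.ha M.a_eq, h]

theorem Pos_gram (Q : Prog L E) (hL : IsFramedLink L) (t : ℕ) (A B : Finset (ι → ℕ))
    (hA : A ⊆ bx ι (NN t)) (hB : B ⊆ bx ι (NN t)) (x y : (ι → ℕ) → ℝ) :
    ∑ κ ∈ bx E (NN t), ‖(∏ e, Dl (a1 t) (κ e) / DD (a1 t) (NN t)) *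
      ∑ kb ∈ B, ∑ k ∈ A, (x k * y kb : ℝ) * Jv (a1 t) (a1_ne t) Q.W (cl k kb κ)‖ ≤
      (∑ k ∈ A, x k ^ 2 + ∑ k ∈ B, y k ^ 2) / 2 := by
  obtain ⟨M⟩ := exists_M t
  obtain ⟨ψ, hψ⟩ := exists_gram (a1_ne t) (norm_a1 t) M Q (Q.framed hL)
  have hadm : ∀ {m : ℕ}, m ≤ NN t → Adm (a1 t) m := fun hm => (adm_a1 t).mono (by omega)
  have hin : ∀ k ∈ bx ι (NN t), ∀ kb ∈ bx ι (NN t), ∀ κ ∈ bx E (NN t),
      inner ℂ (ψ kb κ) (ψ k κ) = (-1) ^ (∑ e, κ e) * Jv (a1 t) (a1_ne t) Q.W (cl k kb κ) :=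
    fun k hk kb hkb κ hκ => hψ k kb κ (fun i => hadm (Pos_mem.1 hk i))
      (fun i => hadm (Pos_mem.1 hkb i)) fun e => hadm (Pos_mem.1 hκ e)
  have hAB : A ∪ B ⊆ bx ι (NN t) := Finset.union_subset hA hB
  have h := gram_bound (bx E (NN t)) (Pos_w t) (fun c hc => Pos_w_nonneg hc) A B ψ
    (fun k hk kb hkb => by
      rw [← Pos_Gs_one Q hL t (Pos_mem.1 (hAB hk)) (Pos_mem.1 (hAB hkb)), Gs]
      refine Finset.sum_congr rfl fun κ hκ => ?_
      rw [hin k (hAB hk) kb (hAB hkb) κ hκ, Pos_prod]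
      ring) x y
  refine le_trans (le_of_eq (Finset.sum_congr rfl fun κ hκ => ?_)) h
  congr 1
  rw [Pos_prod, mul_assoc]
  congr 1
  rw [Finset.mul_sum]
  refine Finset.sum_congr rfl fun kb hkb => ?_
  rw [Finset.mul_sum]
  refine Finset.sum_congr rfl fun k hk => ?_
  rw [hin k (hA hk) kb (hB hkb) κ hκ]
  ring

/-- the normalised quantum dimension -/
noncomputable def Pos_x (t : ℕ) (k : ι → ℕ) : ℝ :=
  ∏ i, (-1) ^ k i * Pos_s t (k i) / Real.sqrt (Pos_D t)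

theorem Pos_x_sum (t : ℕ) (π : ι → ℕ) : ∑ k ∈ bxp (NN t) π, Pos_x t k ^ 2 ≤ 1 := by
  have h1 : ∑ k ∈ bx ι (NN t), Pos_x t k ^ 2 = 1 := by
    simp only [Pos_x, ← Finset.prod_pow]
    rw [bx, ← Finset.prod_univ_sum (fun _ : ι => Finset.range (NN t + 1))
      fun _ κ => ((-1) ^ κ * Pos_s t κ / Real.sqrt (Pos_D t)) ^ 2]
    refine Finset.prod_eq_one fun i _ => ?_
    simp only [div_pow, Real.sq_sqrt (Pos_D_pos t).le]
    rw [← Finset.sum_div, Pos_sum, div_self (Pos_D_pos t).ne']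
  rw [← h1]
  exact Finset.sum_le_sum_of_subset_of_nonneg (Finset.filter_subset _ _) fun _ _ _ => sq_nonneg _

omit [DecidableEq ι] in
theorem Pos_x_mul (t : ℕ) (k kb : ι → ℕ) :
    ∏ i, Dl (a1 t) (k i) * Dl (a1 t) (kb i) / DD (a1 t) (NN t) =
      ((Pos_x t k * Pos_x t kb : ℝ) : ℂ) := by
  rw [Pos_x, Pos_x, ← Finset.prod_mul_distrib, Complex.ofReal_prod]
  refine Finset.prod_congr rfl fun i _ => ?_
  rw [div_mul_div_comm, Real.mul_self_sqrt (Pos_D_pos t).le, Pos_Dl, Pos_Dl, Pos_DD]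
  push_cast
  ring

theorem mm_le (Q : Prog L E) (hL : IsFramedLink L) (π : ι → ℕ) (t : ℕ) :
    ∑ κ ∈ bx E (NN t), ‖mm Q.W π t κ‖ ≤ 1 := by
  have h := Pos_gram Q hL t (bxp (NN t) π) (bxp (NN t) 0) (Finset.filter_subset _ _)
    (Finset.filter_subset _ _) (Pos_x t) (Pos_x t)
  have h1 := Pos_x_sum t π
  have h2 := Pos_x_sum t (0 : ι → ℕ)
  simp only [mm, Pos_x_mul]
  linarith

theorem Gs_le (Q : Prog L E) (hL : IsFramedLink L) (t : ℕ) {k kb : ι → ℕ} (hk : ∀ i, k i ≤ NN t)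
    (hkb : ∀ i, kb i ≤ NN t) (F : (E → ℕ) → ℂ) {C : ℝ} (hF : ∀ κ ∈ bx E (NN t), ‖F κ‖ ≤ C) :
    ‖Gs (a1 t) (a1_ne t) Q.W (NN t) k kb F‖ ≤ C := by
  have h := Pos_gram Q hL t {k} {kb} (Finset.singleton_subset_iff.2 (Pos_mem.2 hk))
    (Finset.singleton_subset_iff.2 (Pos_mem.2 hkb)) (fun _ => 1) fun _ => 1
  have hC : 0 ≤ C := (norm_nonneg _).trans (hF 0 (Pos_mem.2 fun _ => Nat.zero_le _))
  simp only [Finset.sum_singleton, mul_one, Complex.ofReal_one, one_mul, one_pow,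
    add_self_div_two] at h
  rw [Gs]
  refine (norm_sum_le _ _).trans ?_
  calc ∑ κ ∈ bx E (NN t), ‖(∏ e, Dl (a1 t) (κ e) / DD (a1 t) (NN t)) * F κ *
        Jv (a1 t) (a1_ne t) Q.W (cl k kb κ)‖
      ≤ ∑ κ ∈ bx E (NN t), C * ‖(∏ e, Dl (a1 t) (κ e) / DD (a1 t) (NN t)) *
        Jv (a1 t) (a1_ne t) Q.W (cl k kb κ)‖ := by
        refine Finset.sum_le_sum fun κ hκ => ?_
        rw [mul_right_comm, norm_mul, mul_comm]
        exact mul_le_mul_of_nonneg_right (hF κ hκ) (norm_nonneg _)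
    _ ≤ C * 1 := by
        rw [← Finset.mul_sum]
        exact mul_le_mul_of_nonneg_left h hC
    _ = C := mul_one C

theorem AA_le (Q : Prog L E) (hL : IsFramedLink L) (π : ι → ℕ) (j : E → ℕ) :
    ∃ C : ℝ, ∀ t, ∀ n : ι → ℕ, (∀ i, n i < qq t) → ‖AA Q.W π j t n‖ ≤ C := by
  obtain ⟨base, hb⟩ := Q.exists_base hL
  refine ⟨(∏ i, (2 * j (base i) + 1) : ℕ) * ∏ e, (2 : ℝ) ^ j e, fun t n hn => ?_⟩
  have hn2 : ∀ i, 2 * n i ≤ NN t := fun i => by have := hn i; have := qq_eq t; omega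
  set B : Finset (ι → ℕ) := Fintype.piFinset fun i =>
    Finset.Icc (2 * n i - j (base i)) (2 * n i + j (base i)) with hB
  have hcard : B.card ≤ ∏ i, (2 * j (base i) + 1) := by
    rw [hB, Fintype.card_piFinset]
    refine Finset.prod_le_prod' fun i _ => ?_
    rw [Nat.card_Icc]
    omega
  have hP : (0 : ℝ) ≤ ∏ e, (2 : ℝ) ^ j e := Finset.prod_nonneg fun e _ => by positivity
  rw [AA, ← Finset.sum_subset (Finset.filter_subset (· ∈ B) (bxp (NN t) π))]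
  · refine (norm_sum_le _ _).trans ?_
    refine (Finset.sum_le_card_nsmul _ _ (∏ e, (2 : ℝ) ^ j e) fun k hk => ?_).trans ?_
    · have hk1 : ∀ i, k i ≤ NN t :=
        Pos_mem.1 (Finset.filter_subset _ _ (Finset.filter_subset _ _ hk))
      rw [norm_mul, ← one_mul (∏ e, (2 : ℝ) ^ j e)]
      refine mul_le_mul ?_ (Gs_le Q hL t hk1 hn2 _ fun κ _ => ?_) (norm_nonneg _) zero_le_one
      · rw [norm_prod]
        exact Finset.prod_le_one (fun i _ => norm_nonneg _) fun i _ => dens_bd t _ _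
      · rw [norm_prod]
        refine Finset.prod_le_prod (fun e _ => norm_nonneg _) fun e _ => ?_
        rw [norm_pow, mu_a1, Complex.norm_real, Real.norm_eq_abs]
        exact pow_le_pow_left₀ (abs_nonneg _) (abs_muR t _) _
    · rw [nsmul_eq_mul]
      refine mul_le_mul_of_nonneg_right ?_ hP
      have : ((bxp (NN t) π).filter (· ∈ B)).card ≤ B.card :=
        Finset.card_le_card fun k hk => (Finset.mem_filter.1 hk).2
      exact_mod_cast this.trans hcard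
  · intro k hk hk'
    have hk1 : ∀ i, k i ≤ NN t := Pos_mem.1 (Finset.filter_subset _ _ hk)
    have hk2 : k ∉ B := fun h => hk' (Finset.mem_filter.2 ⟨hk, h⟩)
    rw [hB, Fintype.mem_piFinset, not_forall] at hk2
    obtain ⟨i, hi⟩ := hk2
    rw [Finset.mem_Icc] at hi
    rw [Pos_Gs_far Q hL t hk1 hn2 j (base i) (by rw [hb]; omega), mul_zero]

theorem Pos_even (t : ℕ) (G : (ι → ℕ) → ℂ) :
    ∑ kb ∈ bxp (NN t) (0 : ι → ℕ), G kb =
      ∑ n ∈ Fintype.piFinset fun _ : ι => Finset.range (qq t), G fun i => 2 * n i := by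
  have hq := qq_eq t
  symm
  refine Finset.sum_bij' (fun n _ i => 2 * n i) (fun k _ i => k i / 2) ?_ ?_ ?_ ?_ ?_
  · intro n hn
    rw [Fintype.mem_piFinset] at hn
    refine Finset.mem_filter.2 ⟨Pos_mem.2 fun i => ?_, fun i => by simp⟩
    have := Finset.mem_range.1 (hn i)
    omega
  · intro k hk
    rw [Fintype.mem_piFinset]
    intro i
    have h1 := Pos_mem.1 (Finset.mem_filter.1 hk).1 i
    have h2 := (Finset.mem_filter.1 hk).2 i
    simp only [Pi.zero_apply] at h2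
    rw [Finset.mem_range]
    omega
  · intro n _
    funext i
    simp
  · intro k hk
    funext i
    have h2 := (Finset.mem_filter.1 hk).2 i
    simp only [Pi.zero_apply] at h2
    show 2 * (k i / 2) = k i
    omega
  · intro n _
    rfl

theorem TT_eq_AA (W : List (Sl (Arc ((ι ⊕ ι) ⊕ E)))) (π : ι → ℕ) (j : E → ℕ) (t : ℕ) :
    (TT W π t fun x => ∏ e, x e ^ j e) = ((qq t : ℂ) ^ Fintype.card ι)⁻¹ *
      ∑ n ∈ Fintype.piFinset fun _ : ι => Finset.range (qq t), AA W π j t n := by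
  have hq : ((qq t : ℂ) ^ Fintype.card ι) ≠ 0 :=
    pow_ne_zero _ (Nat.cast_ne_zero.2 (qq_pos t).ne')
  rw [eq_inv_mul_iff_mul_eq₀ hq]
  simp only [TT, mm, AA, Gs, Pos_even, Finset.mul_sum, Finset.sum_mul]
  rw [Finset.sum_comm]
  refine Finset.sum_congr rfl fun n _ => ?_
  rw [Finset.sum_comm]
  refine Finset.sum_congr rfl fun k _ => Finset.sum_congr rfl fun κ _ => ?_
  rw [Finset.prod_mul_distrib (f := fun _ => (qq t : ℂ)), Finset.prod_const, Finset.card_univ]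
  simp only [mu_a1, Complex.ofReal_prod, Complex.ofReal_pow]
  ring

end Pool.Agent.P.MP_53e370_gt.S
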