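import Pool.Agent.P.MP_53e370_gt.S.ADefs

/-! Riemann sums, and polynomial approximation with parities. -/

namespace Pool.Agent.P.MP_53e370_gt.S

open Pool.Agent.P.MP_ac4909_gt Filter Topology MeasureTheory

variable {ι E : Type} [Fintype ι] [DecidableEq ι] [Fintype E] [DecidableEq E]

theorem Riem_vol (q k : ℕ) (hk : k < q) :
    volume {x : unitInterval | ⌊(x : ℝ) * q⌋₊ = k} = ENNReal.ofReal ((q : ℝ)⁻¹) := by
  have hq : (0 : ℝ) < q := by exact_mod_cast (by omega : 0 < q)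
  have hk1 : ((k : ℝ) + 1) ≤ q := by exact_mod_cast hk
  have ha : (k : ℝ) / q ∈ unitInterval :=
    ⟨by positivity, by rw [div_le_one hq]; linarith⟩
  have hb : ((k : ℝ) + 1) / q ∈ unitInterval :=
    ⟨by positivity, by rw [div_le_one hq]; linarith⟩
  have h : {x : unitInterval | ⌊(x : ℝ) * q⌋₊ = k} =
      Set.Ico (⟨_, ha⟩ : unitInterval) ⟨_, hb⟩ := by
    ext x
    have hx : 0 ≤ (x : ℝ) * q := mul_nonneg x.2.1 hq.le
    rw [Set.mem_setOf_eq, Nat.floor_eq_iff hx, Set.mem_Ico, ← Subtype.coe_le_coe,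
      ← Subtype.coe_lt_coe]
    simp only
    rw [div_le_iff₀ hq, lt_div_iff₀ hq]
  rw [h, unitInterval.volume_Ico]
  congr 1
  simp only
  field_simp
  ring

theorem Riem_meas (q k : ℕ) : MeasurableSet {x : unitInterval | ⌊(x : ℝ) * q⌋₊ = k} := by
  have h : Measurable fun x : unitInterval => ⌊(x : ℝ) * q⌋₊ :=
    Nat.measurable_floor.comp (measurable_subtype_coe.mul_const _)
  exact h (measurableSet_singleton k)

omit [DecidableEq ι] in
theorem Riem_ae : ∀ᵐ θ : ι → unitInterval, ∀ i, 0 < θ i ∧ θ i < 1 := by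
  rw [ae_all_iff]
  intro i
  have h0 : ∀ᵐ x : unitInterval, 0 < x ∧ x < 1 := by
    have h1 : ∀ᵐ x : unitInterval, x ≠ 0 := by
      simp [ae_iff]
    have h2 : ∀ᵐ x : unitInterval, x ≠ 1 := by
      simp [ae_iff]
    filter_upwards [h1, h2] with x h1 h2
    exact ⟨lt_of_le_of_ne x.2.1 (Ne.symm h1), lt_of_le_of_ne x.2.2 h2⟩
  exact (Measure.tendsto_eval_ae_ae (μ := fun _ : ι => (volume : Measure unitInterval))
    (i := i)).eventually h0

theorem Riem_floor (q : ℕ) (hq : 0 < q) (x : unitInterval) (hx : x < 1) :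
    ⌊(x : ℝ) * q⌋₊ < q := by
  have hq' : (0 : ℝ) < q := by exact_mod_cast hq
  have hx' : (x : ℝ) < 1 := by exact_mod_cast hx
  rw [Nat.floor_lt (mul_nonneg x.2.1 hq'.le)]
  nlinarith

theorem Riem_int (q : ℕ) (hq : 0 < q) (A : (ι → ℕ) → ℂ) :
    ∫ θ : ι → unitInterval, A (fun i => ⌊(θ i : ℝ) * q⌋₊) =
      ((q : ℂ) ^ Fintype.card ι)⁻¹ * ∑ n ∈ Fintype.piFinset fun _ : ι => Finset.range q, A n := by
  set box : (ι → ℕ) → Set (ι → unitInterval) :=
    fun n => Set.pi Set.univ fun i => {x : unitInterval | ⌊(x : ℝ) * q⌋₊ = n i} with hbox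
  have hm : ∀ n, MeasurableSet (box n) := fun n =>
    MeasurableSet.univ_pi fun i => Riem_meas q (n i)
  have h1 : (fun θ : ι → unitInterval => A (fun i => ⌊(θ i : ℝ) * q⌋₊)) =ᵐ[volume]
      fun θ => ∑ n ∈ Fintype.piFinset fun _ : ι => Finset.range q,
        (box n).indicator (fun _ => A n) θ := by
    filter_upwards [Riem_ae (ι := ι)] with θ hθ
    rw [Finset.sum_eq_single (fun i => ⌊(θ i : ℝ) * q⌋₊)]
    · rw [Set.indicator_of_mem]
      intro i _
      rfl
    · intro n _ hn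
      rw [Set.indicator_of_notMem]
      intro h
      apply hn
      funext i
      exact (h i (Set.mem_univ i)).symm
    · intro h
      exfalso
      apply h
      rw [Fintype.mem_piFinset]
      intro i
      exact Finset.mem_range.2 (Riem_floor q hq _ (hθ i).2)
  rw [integral_congr_ae h1, integral_finset_sum, Finset.mul_sum]
  · refine Finset.sum_congr rfl fun n hn => ?_
    rw [integral_indicator_const _ (hm n)]
    have hv : volume (box n) = ∏ _i : ι, ENNReal.ofReal ((q : ℝ)⁻¹) := by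
      rw [hbox, volume_pi, Measure.pi_pi]
      refine Finset.prod_congr rfl fun i _ => ?_
      exact Riem_vol q (n i) (Finset.mem_range.1 (Fintype.mem_piFinset.1 hn i))
    rw [Measure.real, hv, Finset.prod_const, Finset.card_univ, ENNReal.toReal_pow,
      ENNReal.toReal_ofReal (by positivity), Complex.real_smul]
    push_cast
    rw [inv_pow]
  · intro n _
    exact (integrable_const (A n)).indicator (hm n)

theorem riemann (q : ℕ → ℕ) (hq : ∀ t, 0 < q t) (A : ℕ → (ι → ℕ) → ℂ)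
    (B : (ι → unitInterval) → ℂ) (C : ℝ) (hC : ∀ t n, (∀ i, n i < q t) → ‖A t n‖ ≤ C)
    (hB : ∀ θ : ι → unitInterval, (∀ i, 0 < θ i ∧ θ i < 1) →
      Tendsto (fun t => A t fun i => ⌊(θ i : ℝ) * q t⌋₊) atTop (𝓝 (B θ))) :
    Tendsto (fun t => ((q t : ℂ) ^ Fintype.card ι)⁻¹ *
      ∑ n ∈ Fintype.piFinset fun _ : ι => Finset.range (q t), A t n) atTop (𝓝 (∫ θ, B θ)) := by
  have h : ∀ t, ((q t : ℂ) ^ Fintype.card ι)⁻¹ *
      ∑ n ∈ Fintype.piFinset fun _ : ι => Finset.range (q t), A t n =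
      ∫ θ : ι → unitInterval, A t (fun i => ⌊(θ i : ℝ) * q t⌋₊) :=
    fun t => (Riem_int (q t) (hq t) (A t)).symm
  simp only [h]
  refine tendsto_integral_of_dominated_convergence (fun _ => C) (fun t => ?_)
    (integrable_const C) (fun t => ?_) ?_
  · have h1 : Measurable fun θ : ι → unitInterval => fun i => ⌊(θ i : ℝ) * q t⌋₊ :=
      measurable_pi_lambda _ fun i =>
        Nat.measurable_floor.comp
          ((measurable_subtype_coe.comp (measurable_pi_apply i)).mul_const _)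
    exact ((measurable_of_countable (A t)).comp h1).aestronglyMeasurable
  · filter_upwards [Riem_ae (ι := ι)] with θ hθ
    exact hC t _ fun i => Riem_floor _ (hq t) _ (hθ i).2
  · filter_upwards [Riem_ae (ι := ι)] with θ hθ
    exact hB θ hθ

theorem Riem_poly (π : ℕ) {f : ℝ → ℝ} (hf : Continuous f)
    (hpar : ∀ y, f (-y) = (-1) ^ π * f y) {ε : ℝ} (hε : 0 < ε) :
    ∃ (s : Finset ℕ) (c : ℕ → ℝ), (∀ k ∈ s, k % 2 = π % 2) ∧
      ∀ y, |y| ≤ 2 → |f y - ∑ k ∈ s, c k * y ^ k| ≤ ε := by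
  obtain ⟨p, hp⟩ := exists_polynomial_near_of_continuousOn (-2) 2 f hf.continuousOn ε hε
  refine ⟨(Finset.range (p.natDegree + 1)).filter fun k => k % 2 = π % 2, p.coeff,
    fun k hk => (Finset.mem_filter.1 hk).2, fun y hy => ?_⟩
  have hy' := abs_le.1 hy
  have h1 := hp y ⟨hy'.1, hy'.2⟩
  have h2 := hp (-y) ⟨by linarith [hy'.2], by linarith [hy'.1]⟩
  have hs : ((-1 : ℝ) ^ π) * (-1) ^ π = 1 := by
    rw [← pow_add, ← two_mul, pow_mul]; simp
  have h3 : 2 * ∑ k ∈ (Finset.range (p.natDegree + 1)).filter fun k => k % 2 = π % 2,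
      p.coeff k * y ^ k = p.eval y + (-1) ^ π * p.eval (-y) := by
    rw [Polynomial.eval_eq_sum_range, Polynomial.eval_eq_sum_range, Finset.sum_filter,
      Finset.mul_sum, Finset.mul_sum, ← Finset.sum_add_distrib]
    refine Finset.sum_congr rfl fun k _ => ?_
    rw [neg_pow y k]
    rcases Nat.even_or_odd k with hk | hk <;> rcases Nat.even_or_odd π with hπ | hπ
    · rw [if_pos (by rw [Nat.even_iff.1 hk, Nat.even_iff.1 hπ]), hk.neg_one_pow, hπ.neg_one_pow]
      ring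
    · rw [if_neg (by rw [Nat.even_iff.1 hk, Nat.odd_iff.1 hπ]; omega), hk.neg_one_pow,
        hπ.neg_one_pow]
      ring
    · rw [if_neg (by rw [Nat.odd_iff.1 hk, Nat.even_iff.1 hπ]; omega), hk.neg_one_pow,
        hπ.neg_one_pow]
      ring
    · rw [if_pos (by rw [Nat.odd_iff.1 hk, Nat.odd_iff.1 hπ]), hk.neg_one_pow, hπ.neg_one_pow]
      ring
  rw [hpar] at h2
  have h4 : |(-1 : ℝ) ^ π * p.eval (-y) - f y| < ε := by
    have : (-1 : ℝ) ^ π * p.eval (-y) - f y = (-1) ^ π * (p.eval (-y) - (-1) ^ π * f y) := by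
      rw [mul_sub, ← mul_assoc, hs, one_mul]
    rw [this, abs_mul, abs_pow, abs_neg, abs_one, one_pow, one_mul]
    exact h2
  rw [abs_lt] at h1 h4
  rw [abs_le]
  constructor <;> linarith [h1.1, h1.2, h4.1, h4.2]

section Conv

variable {Ω κ : Type} [TopologicalSpace Ω] [CompactSpace Ω] [MeasurableSpace Ω]
  [OpensMeasurableSpace Ω]

/-- convergence of the sums to the integral for the test function `g` -/
def Riem_Conv (ν : Measure Ω) (ρ : Ω → ℝ) (z : Ω → E → ℝ) (S : ℕ → Finset κ) (m : ℕ → κ → ℂ)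
    (x : ℕ → κ → E → ℝ) (s : ℂ) (g : (E → ℝ) → ℝ) : Prop :=
  Tendsto (fun t => ∑ c ∈ S t, m t c * ((g (x t c) : ℝ) : ℂ)) atTop
    (𝓝 (s * ((∫ ω, ρ ω * g (z ω) ∂ν : ℝ) : ℂ)))

variable {ν : Measure Ω} [IsFiniteMeasure ν] {ρ : Ω → ℝ} {z : Ω → E → ℝ} {S : ℕ → Finset κ}
  {m : ℕ → κ → ℂ} {x : ℕ → κ → E → ℝ} {s : ℂ}

omit [Fintype E] [DecidableEq E] in
theorem Riem_integrable (hρ : Continuous ρ) (hz : Continuous z) {g : (E → ℝ) → ℝ}
    (hg : Continuous g) : Integrable (fun ω => ρ ω * g (z ω)) ν :=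
  (hρ.mul (hg.comp hz)).integrable_of_hasCompactSupport
    (HasCompactSupport.of_compactSpace _)

omit [Fintype E] [DecidableEq E] in
theorem Riem_Conv_sum (hρ : Continuous ρ) (hz : Continuous z) (u : Finset ℕ) (c : ℕ → ℝ)
    (g : ℕ → (E → ℝ) → ℝ) (hg : ∀ k, Continuous (g k))
    (h : ∀ k ∈ u, Riem_Conv ν ρ z S m x s (g k)) :
    Riem_Conv ν ρ z S m x s fun y => ∑ k ∈ u, c k * g k y := by
  unfold Riem_Conv at h ⊢
  have h1 : ∀ t, ∑ a ∈ S t, m t a * ((∑ k ∈ u, c k * g k (x t a) : ℝ) : ℂ) =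
      ∑ k ∈ u, (c k : ℂ) * ∑ a ∈ S t, m t a * ((g k (x t a) : ℝ) : ℂ) := by
    intro t
    push_cast
    simp only [Finset.mul_sum]
    rw [Finset.sum_comm]
    refine Finset.sum_congr rfl fun k _ => Finset.sum_congr rfl fun a _ => ?_
    ring
  have h2 : s * ((∫ ω, ρ ω * ∑ k ∈ u, c k * g k (z ω) ∂ν : ℝ) : ℂ) =
      ∑ k ∈ u, (c k : ℂ) * (s * ((∫ ω, ρ ω * g k (z ω) ∂ν : ℝ) : ℂ)) := by
    have h3 : ∀ ω, ρ ω * ∑ k ∈ u, c k * g k (z ω) = ∑ k ∈ u, c k * (ρ ω * g k (z ω)) := by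
      intro ω
      rw [Finset.mul_sum]
      refine Finset.sum_congr rfl fun k _ => ?_
      ring
    simp only [h3]
    rw [integral_finset_sum _ fun k _ => (Riem_integrable hρ hz (hg k)).const_mul (c k)]
    simp only [integral_const_mul]
    push_cast
    rw [Finset.mul_sum]
    refine Finset.sum_congr rfl fun k _ => ?_
    ring
  simp only [h1]
  rw [h2]
  exact tendsto_finset_sum _ fun k hk => (h k hk).const_mul _

omit [Fintype E] [DecidableEq E] in
theorem Riem_Conv_lim (hρ : Continuous ρ) (hz : Continuous z) (hz2 : ∀ ω e, |z ω e| ≤ 2)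
    (hm : ∀ t, ∑ c ∈ S t, ‖m t c‖ ≤ 1) (hx : ∀ t c e, |x t c e| ≤ 2) {g : (E → ℝ) → ℝ}
    (hg : Continuous g)
    (h : ∀ ε > 0, ∃ g' : (E → ℝ) → ℝ, Continuous g' ∧ Riem_Conv ν ρ z S m x s g' ∧
      ∀ y : E → ℝ, (∀ e, |y e| ≤ 2) → |g y - g' y| ≤ ε) :
    Riem_Conv ν ρ z S m x s g := by
  unfold Riem_Conv at h ⊢
  rw [Metric.tendsto_atTop]
  intro ε hε
  set K : ℝ := ‖s‖ * ∫ ω, |ρ ω| ∂ν with hK
  have hK0 : 0 ≤ K := mul_nonneg (norm_nonneg _) (integral_nonneg fun _ => abs_nonneg _)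
  have hδ : 0 < ε / (K + 3) := by positivity
  obtain ⟨g', hg', hc, hd⟩ := h _ hδ
  rw [Metric.tendsto_atTop] at hc
  obtain ⟨N, hN⟩ := hc _ hδ
  refine ⟨N, fun t ht => ?_⟩
  have h1 := hN t ht
  have h2 : dist (∑ c ∈ S t, m t c * ((g (x t c) : ℝ) : ℂ))
      (∑ c ∈ S t, m t c * ((g' (x t c) : ℝ) : ℂ)) ≤ ε / (K + 3) := by
    rw [dist_eq_norm, ← Finset.sum_sub_distrib]
    refine (norm_sum_le _ _).trans ?_
    calc ∑ c ∈ S t, ‖m t c * ((g (x t c) : ℝ) : ℂ) - m t c * ((g' (x t c) : ℝ) : ℂ)‖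
        ≤ ∑ c ∈ S t, ‖m t c‖ * (ε / (K + 3)) := by
          refine Finset.sum_le_sum fun c _ => ?_
          rw [← mul_sub, norm_mul, ← Complex.ofReal_sub, Complex.norm_real, Real.norm_eq_abs]
          exact mul_le_mul_of_nonneg_left (hd _ (hx t c)) (norm_nonneg _)
      _ ≤ ε / (K + 3) := by
          rw [← Finset.sum_mul]
          exact mul_le_of_le_one_left hδ.le (hm t)
  have hρi : Integrable (fun ω => |ρ ω|) ν :=
    (hρ.abs).integrable_of_hasCompactSupport (HasCompactSupport.of_compactSpace _)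
  have h3 : dist (s * ((∫ ω, ρ ω * g' (z ω) ∂ν : ℝ) : ℂ))
      (s * ((∫ ω, ρ ω * g (z ω) ∂ν : ℝ) : ℂ)) ≤ K * (ε / (K + 3)) := by
    rw [dist_eq_norm, ← mul_sub, norm_mul, ← Complex.ofReal_sub, Complex.norm_real,
      ← integral_sub (Riem_integrable hρ hz hg') (Riem_integrable hρ hz hg), hK, mul_assoc]
    refine mul_le_mul_of_nonneg_left ?_ (norm_nonneg _)
    rw [← integral_mul_const]
    refine norm_integral_le_of_norm_le (hρi.mul_const _) (Eventually.of_forall fun ω => ?_)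
    rw [← mul_sub, Real.norm_eq_abs, abs_mul, abs_sub_comm]
    exact mul_le_mul_of_nonneg_left (hd _ (hz2 ω)) (abs_nonneg _)
  have h4 := dist_triangle4 (∑ c ∈ S t, m t c * ((g (x t c) : ℝ) : ℂ))
    (∑ c ∈ S t, m t c * ((g' (x t c) : ℝ) : ℂ)) (s * ((∫ ω, ρ ω * g' (z ω) ∂ν : ℝ) : ℂ))
    (s * ((∫ ω, ρ ω * g (z ω) ∂ν : ℝ) : ℂ))
  have h5 : (K + 3) * (ε / (K + 3)) = ε := by field_simp
  nlinarith

end Conv

omit [DecidableEq E] in
theorem Riem_bdd {R : (E → ℝ) → ℝ} (hR : Continuous R) :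
    ∃ M : ℝ, 0 < M ∧ ∀ y : E → ℝ, (∀ e, |y e| ≤ 2) → |R y| ≤ M := by
  have hc : IsCompact (Set.pi Set.univ fun _ : E => Set.Icc (-2 : ℝ) 2) :=
    isCompact_univ_pi fun _ => isCompact_Icc
  obtain ⟨M, hM⟩ := hc.exists_bound_of_continuousOn hR.continuousOn
  refine ⟨|M| + 1, by positivity, fun y hy => ?_⟩
  have := hM y fun e _ => abs_le.1 (hy e)
  rw [Real.norm_eq_abs] at this
  linarith [le_abs_self M]

theorem weier {Ω κ : Type} [TopologicalSpace Ω] [CompactSpace Ω] [MeasurableSpace Ω]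
    [OpensMeasurableSpace Ω] (ν : Measure Ω) [IsFiniteMeasure ν] {ρ : Ω → ℝ} (hρ : Continuous ρ)
    {z : Ω → E → ℝ} (hz : Continuous z) (hz2 : ∀ ω e, |z ω e| ≤ 2) (S : ℕ → Finset κ)
    (m : ℕ → κ → ℂ) (hm : ∀ t, ∑ c ∈ S t, ‖m t c‖ ≤ 1) (x : ℕ → κ → E → ℝ)
    (hx : ∀ t c e, |x t c e| ≤ 2) (π : E → ℕ) (s : ℂ)
    (hmon : ∀ j : E → ℕ, (∀ e, j e % 2 = π e % 2) →
      Tendsto (fun t => ∑ c ∈ S t, m t c * ((∏ e, x t c e ^ j e : ℝ) : ℂ)) atTop
        (𝓝 (s * ((∫ ω, ρ ω * ∏ e, z ω e ^ j e ∂ν : ℝ) : ℂ))))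
    (f : E → ℝ → ℝ) (hf : ∀ e, Continuous (f e)) (hpar : ∀ e y, f e (-y) = (-1) ^ π e * f e y) :
    Tendsto (fun t => ∑ c ∈ S t, m t c * ((∏ e, f e (x t c e) : ℝ) : ℂ)) atTop
      (𝓝 (s * ((∫ ω, ρ ω * ∏ e, f e (z ω e) ∂ν : ℝ) : ℂ))) := by
  have key : ∀ u : Finset E, ∀ j : E → ℕ, (∀ e, j e % 2 = π e % 2) →
      Riem_Conv ν ρ z S m x s fun y => (∏ e ∈ u, f e (y e)) * ∏ e ∈ uᶜ, y e ^ j e := by
    intro u
    induction u using Finset.induction_on with
    | empty =>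
      intro j hj
      have := hmon j hj
      unfold Riem_Conv
      simpa using this
    | insert a u ha ih =>
      intro j hj
      have hcu : ∀ (v w : Finset E) (i : E → ℕ),
          Continuous fun y : E → ℝ => (∏ e ∈ v, f e (y e)) * ∏ e ∈ w, y e ^ i e := by
        intro v w i
        exact (continuous_finset_prod _ fun e _ => (hf e).comp (continuous_apply e)).mul
          (continuous_finset_prod _ fun e _ => (continuous_apply e).pow _)
      obtain ⟨M, hM0, hM⟩ := Riem_bdd (hcu u (insert a u)ᶜ j)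
      refine Riem_Conv_lim hρ hz hz2 hm hx (hcu _ _ _) fun ε hε => ?_
      obtain ⟨w, c, hw, hc⟩ := Riem_poly (π a) (hf a) (hpar a) (div_pos hε hM0)
      refine ⟨fun y => ∑ k ∈ w, c k *
        ((∏ e ∈ u, f e (y e)) * ∏ e ∈ uᶜ, y e ^ Function.update j a k e), ?_, ?_, ?_⟩
      · exact continuous_finset_sum _ fun k _ => continuous_const.mul (hcu _ _ _)
      · refine Riem_Conv_sum hρ hz w c
          (fun k y => (∏ e ∈ u, f e (y e)) * ∏ e ∈ uᶜ, y e ^ Function.update j a k e)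
          (fun k => hcu _ _ _) fun k hk => ih _ fun e => ?_
        by_cases he : e = a
        · subst he
          rw [Function.update_self]
          exact hw k hk
        · rw [Function.update_of_ne he]
          exact hj e
      · intro y hy
        have hu : uᶜ = insert a (insert a u)ᶜ := by
          ext e
          by_cases he : e = a
          · subst he
            simp [ha]
          · simp [he]
        have h1 : ∀ k, ∏ e ∈ uᶜ, y e ^ Function.update j a k e =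
            y a ^ k * ∏ e ∈ (insert a u)ᶜ, y e ^ j e := by
          intro k
          rw [hu, Finset.prod_insert (by simp), Function.update_self]
          congr 1
          refine Finset.prod_congr rfl fun e he => ?_
          rw [Function.update_of_ne]
          rintro rfl
          simp at he
        have h2 : (∏ e ∈ insert a u, f e (y e)) * ∏ e ∈ (insert a u)ᶜ, y e ^ j e -
            ∑ k ∈ w, c k * ((∏ e ∈ u, f e (y e)) * ∏ e ∈ uᶜ, y e ^ Function.update j a k e) =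
            (f a (y a) - ∑ k ∈ w, c k * y a ^ k) *
              ((∏ e ∈ u, f e (y e)) * ∏ e ∈ (insert a u)ᶜ, y e ^ j e) := by
          rw [Finset.prod_insert ha, sub_mul, Finset.sum_mul, mul_assoc]
          congr 1
          refine Finset.sum_congr rfl fun k _ => ?_
          rw [h1]
          ring
        rw [h2, abs_mul]
        calc _ ≤ ε / M * M :=
              mul_le_mul (hc _ (hy a)) (hM y hy) (abs_nonneg _) (div_pos hε hM0).le
          _ = ε := by field_simp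
  have := key Finset.univ π fun _ => rfl
  unfold Riem_Conv at this
  simpa using this

end Pool.Agent.P.MP_53e370_gt.S
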