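import Pool.Agent.P.MP_53e370_gt.S.SecA

/-! The two parity classes give functionals of the same size. -/

namespace Pool.Agent.P.MP_53e370_gt.S

open Pool.Agent.P.MP_ac4909_gt

variable {ι E : Type} [Fintype ι] [DecidableEq ι] [Fintype E] [DecidableEq E]
  {L : List (Sl (Arc ι))}

theorem SecB_mem {N : ℕ} {κ : E → ℕ} : κ ∈ bx E N ↔ ∀ e, κ e ≤ N := by
  simp [bx, Fintype.mem_piFinset]

/-- the weighted sum with one function for each coordinate -/
noncomputable def SecB_T (N : ℕ) (π : E → ℕ) (Y : (E → ℕ) → ℂ) (x : ℕ → ℝ) (G : E → ℝ → ℝ) : ℂ :=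
  ∑ κ ∈ bx E N, (-1) ^ (∑ e, κ e * π e) * Y κ * ((∏ e, G e (x (κ e)) : ℝ) : ℂ)

theorem SecB_sign {N : ℕ} (hN : Odd N) (π κ : E → ℕ) (a : E) (h : κ a ≤ N) :
    (-1 : ℂ) ^ (∑ e, Function.update κ a (N - κ a) e * π e) =
      (-1) ^ π a * (-1) ^ (∑ e, κ e * π e) := by
  have e1 : ∑ e, Function.update κ a (N - κ a) e * π e =
      (N - κ a) * π a + ∑ e ∈ Finset.univ.erase a, κ e * π e := by
    rw [← Finset.add_sum_erase _ _ (Finset.mem_univ a), Function.update_self]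
    congr 1
    exact Finset.sum_congr rfl fun e he => by
      rw [Function.update_of_ne (Finset.ne_of_mem_erase he)]
  have e2 : ∑ e, κ e * π e = κ a * π a + ∑ e ∈ Finset.univ.erase a, κ e * π e :=
    (Finset.add_sum_erase _ (fun e => κ e * π e) (Finset.mem_univ a)).symm
  have e3 : (-1 : ℂ) ^ (N - κ a) = -(-1) ^ κ a := by
    have h1 : (-1 : ℂ) ^ (N - κ a) * (-1) ^ κ a = -1 := by
      rw [← pow_add, Nat.sub_add_cancel h, hN.neg_one_pow]
    have h2 : (-1 : ℂ) ^ κ a * (-1) ^ κ a = 1 := by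
      rw [← mul_pow]; simp
    calc (-1 : ℂ) ^ (N - κ a) = (-1) ^ (N - κ a) * ((-1) ^ κ a * (-1) ^ κ a) := by rw [h2, mul_one]
      _ = -(-1) ^ κ a := by rw [← mul_assoc, h1]; ring
  rw [e1, e2, pow_add, pow_add, pow_mul, pow_mul, e3, neg_pow ((-1 : ℂ) ^ κ a), mul_assoc]

theorem SecB_step {N : ℕ} (hN : Odd N) (π : E → ℕ) (Y : (E → ℕ) → ℂ) (x : ℕ → ℝ)
    (hY : ∀ κ ∈ bx E N, ∀ e, Y (Function.update κ e (N - κ e)) = Y κ)
    (hx : ∀ κ ≤ N, x (N - κ) = -x κ) (G : E → ℝ → ℝ) (a : E) :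
    SecB_T N π Y x (Function.update G a fun y => G a y + (-1) ^ π a * G a (-y)) =
      2 * SecB_T N π Y x G := by
  set P : (E → ℕ) → ℝ := fun κ => ∏ e ∈ Finset.univ.erase a, G e (x (κ e)) with hP
  have h1 : ∀ κ : E → ℕ, ∏ e, G e (x (κ e)) = G a (x (κ a)) * P κ := fun κ =>
    (Finset.mul_prod_erase _ (fun e => G e (x (κ e))) (Finset.mem_univ a)).symm
  have h2 : ∀ κ : E → ℕ,
      ∏ e, Function.update G a (fun y => G a y + (-1) ^ π a * G a (-y)) e (x (κ e)) =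
        (G a (x (κ a)) + (-1) ^ π a * G a (-x (κ a))) * P κ := fun κ => by
    rw [← Finset.mul_prod_erase _ _ (Finset.mem_univ a), Function.update_self]
    congr 1
    exact Finset.prod_congr rfl fun e he => by
      rw [Function.update_of_ne (Finset.ne_of_mem_erase he)]
  have h3 : ∀ κ : E → ℕ, ∀ n, P (Function.update κ a n) = P κ := fun κ n =>
    Finset.prod_congr rfl fun e he => by
      rw [Function.update_of_ne (Finset.ne_of_mem_erase he)]
  have hm : ∀ κ ∈ bx E N, Function.update κ a (N - κ a) ∈ bx E N := fun κ hκ => by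
    rw [SecB_mem] at hκ ⊢
    intro e
    by_cases he : e = a
    · subst he; rw [Function.update_self]; omega
    · rw [Function.update_of_ne he]; exact hκ e
  have hi : ∀ κ ∈ bx E N, Function.update (Function.update κ a (N - κ a)) a
      (N - Function.update κ a (N - κ a) a) = κ := fun κ hκ => by
    rw [SecB_mem] at hκ
    have := hκ a
    rw [Function.update_idem, Function.update_self, show N - (N - κ a) = κ a by omega,
      Function.update_eq_self]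
  have key : ∑ κ ∈ bx E N, (-1) ^ (∑ e, κ e * π e) * Y κ *
        (((-1) ^ π a * G a (-x (κ a)) * P κ : ℝ) : ℂ) =
      ∑ κ ∈ bx E N, (-1) ^ (∑ e, κ e * π e) * Y κ * ((G a (x (κ a)) * P κ : ℝ) : ℂ) := by
    refine Finset.sum_nbij' (fun κ => Function.update κ a (N - κ a))
      (fun κ => Function.update κ a (N - κ a)) hm hm hi hi fun κ hκ => ?_
    have ha := SecB_mem.1 hκ a
    rw [SecB_sign hN π κ a ha, hY κ hκ a, h3, Function.update_self, hx _ ha]
    push_cast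
    ring
  unfold SecB_T
  simp only [h1, h2]
  rw [two_mul]
  nth_rewrite 2 [← key]
  rw [← Finset.sum_add_distrib]
  refine Finset.sum_congr rfl fun κ _ => ?_
  push_cast
  ring

theorem SecB_ind {N : ℕ} (hN : Odd N) (π : E → ℕ) (Y : (E → ℕ) → ℂ) (x : ℕ → ℝ) (g : ℝ → ℝ)
    (hY : ∀ κ ∈ bx E N, ∀ e, Y (Function.update κ e (N - κ e)) = Y κ)
    (hx : ∀ κ ≤ N, x (N - κ) = -x κ) (S : Finset E) :
    SecB_T N π Y x (fun e => if e ∈ S then fun y => g y + (-1) ^ π e * g (-y) else g) =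
      2 ^ S.card * SecB_T N π Y x fun _ => g := by
  induction S using Finset.induction_on with
  | empty => simp
  | insert a S ha ih =>
    have h := SecB_step hN π Y x hY hx
      (fun e => if e ∈ S then fun y => g y + (-1) ^ π e * g (-y) else g) a
    rw [ih] at h
    rw [Finset.card_insert_of_notMem ha, pow_succ, mul_comm (2 ^ S.card : ℂ), mul_assoc, ← h]
    congr 1
    funext e
    by_cases he : e = a
    · subst he
      simp [ha]
    · simp [he]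

theorem sum_test {N : ℕ} (hN : Odd N) (π : E → ℕ) (Y : (E → ℕ) → ℂ) (x : ℕ → ℝ) (g : ℝ → ℝ)
    (hY : ∀ κ ∈ bx E N, ∀ e, Y (Function.update κ e (N - κ e)) = Y κ)
    (hx : ∀ κ ≤ N, x (N - κ) = -x κ) :
    ∑ κ ∈ bx E N, (-1) ^ (∑ e, κ e * π e) * Y κ *
        ((∏ e, (g (x (κ e)) + (-1) ^ π e * g (-x (κ e))) : ℝ) : ℂ) =
      2 ^ Fintype.card E * ∑ κ ∈ bx E N, (-1) ^ (∑ e, κ e * π e) * Y κ *
        ((∏ e, g (x (κ e)) : ℝ) : ℂ) := by
  have h := SecB_ind hN π Y x g hY hx Finset.univ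
  simpa only [SecB_T, Finset.mem_univ, if_true, Finset.card_univ] using h

theorem SecB_TT (Q : Prog L E) (hL : IsFramedLink L) (π : ι → ℕ) (δ : ℝ) (t : ℕ) :
    ‖TT Q.W π t (test δ fun e => π (Q.nm e))‖ = 2 ^ Fintype.card E *
      ‖∑ κ ∈ bx E (NN t), (-1) ^ (∑ e, κ e * π (Q.nm e)) * YY Q.W t κ *
        ((∏ e, bump δ (muR t (κ e)) : ℝ) : ℂ)‖ := by
  obtain ⟨γ, hγ, h⟩ := mm_eq Q hL π
  have h1 := sum_test (NN_odd t) (fun e => π (Q.nm e)) (YY Q.W t) (muR t) (bump δ)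
    (fun κ hκ e => YY_flip Q hL t hκ e) (fun κ hκ => muR_refl hκ)
  have h2 : TT Q.W π t (test δ fun e => π (Q.nm e)) = γ * ∑ κ ∈ bx E (NN t),
      (-1) ^ (∑ e, κ e * π (Q.nm e)) * YY Q.W t κ *
        ((∏ e, (bump δ (muR t (κ e)) + (-1) ^ π (Q.nm e) * bump δ (-muR t (κ e))) : ℝ) : ℂ) := by
    rw [TT, Finset.mul_sum]
    refine Finset.sum_congr rfl fun κ hκ => ?_
    rw [h t κ hκ, test]
    ring
  rw [h2, h1, norm_mul, norm_mul, hγ, one_mul]
  simp

theorem TT_norm (Q : Prog L E) (hL : IsFramedLink L) (v : Finset ι) (ε : ℕ) {δ : ℝ} (h0 : 0 < δ)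
    (h1 : δ ≤ 1) (t : ℕ) (hv : ∀ κ : E → ℕ, (∀ e, (κ e : ℝ) ≤ δ * pp t) →
      (∑ e ∈ Finset.univ.filter fun e => Q.nm e ∈ v, κ e) % 2 = ε % 2 →
      (Ha Q.W t fun e => (κ e : ℤ) + 1) = 0) :
    ‖TT Q.W 0 t (test δ 0)‖ = ‖TT Q.W (ind v) t (test δ fun e => ind v (Q.nm e))‖ := by
  have a0 := SecB_TT Q hL 0 δ t
  have a1 := SecB_TT Q hL (ind v) δ t
  have e0 : (fun e => (0 : ι → ℕ) (Q.nm e)) = (0 : E → ℕ) := rfl
  rw [e0] at a0
  rw [a0, a1]
  congr 1
  have key : ∑ κ ∈ bx E (NN t), (-1) ^ (∑ e, κ e * ind v (Q.nm e)) * YY Q.W t κ *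
        ((∏ e, bump δ (muR t (κ e)) : ℝ) : ℂ) =
      (-1) ^ (ε + 1) * ∑ κ ∈ bx E (NN t), (-1) ^ (∑ e, κ e * (0 : ι → ℕ) (Q.nm e)) * YY Q.W t κ *
        ((∏ e, bump δ (muR t (κ e)) : ℝ) : ℂ) := by
    rw [Finset.mul_sum]
    refine Finset.sum_congr rfl fun κ hκ => ?_
    by_cases hb : ∏ e, bump δ (muR t (κ e)) = 0
    · rw [hb]; simp
    have hs : ∀ e, (κ e : ℝ) ≤ δ * pp t := fun e =>
      bump_small h0 h1 (SecB_mem.1 hκ e) fun h => hb (Finset.prod_eq_zero (Finset.mem_univ e) h)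
    have hsum : ∑ e, κ e * ind v (Q.nm e) =
        ∑ e ∈ Finset.univ.filter fun e => Q.nm e ∈ v, κ e := by
      rw [Finset.sum_filter]
      refine Finset.sum_congr rfl fun e _ => ?_
      unfold ind
      split_ifs <;> simp
    rw [hsum]
    by_cases hp : (∑ e ∈ Finset.univ.filter fun e => Q.nm e ∈ v, κ e) % 2 = ε % 2
    · have : YY Q.W t κ = 0 := by rw [YY, hv κ hs hp, mul_zero]
      rw [this]; simp
    · have : (-1 : ℂ) ^ (∑ e ∈ Finset.univ.filter fun e => Q.nm e ∈ v, κ e) = (-1) ^ (ε + 1) := by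
        rw [neg_one_pow_eq_pow_mod_two, neg_one_pow_eq_pow_mod_two (ε + 1)]
        congr 1
        omega
      rw [this]
      simp [mul_assoc]
  rw [key, norm_mul]
  simp

end Pool.Agent.P.MP_53e370_gt.S
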