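import Pool.Agent.P.MP_53e370_gt.S.PDFT
import Pool.Agent.P.MP_53e370_gt.S.FD

/-! Vanishing for all plain cablings of a parity class gives vanishing for small colours. -/

namespace Pool.Agent.P.MP_53e370_gt.S

open Pool.Agent.P.MP_ac4909_gt Filter

variable {α β : Type} [Fintype α] [DecidableEq α] [Fintype β] [DecidableEq β]

theorem Van_step {p q : Polynomial ℤ} {m : ℤ}
    (hp : ∀ j : ℕ, p.coeff j ≠ 0 → ((j : ℤ) + 1) % 2 = m % 2)
    (hq : ∀ j : ℕ, q.coeff j ≠ 0 → (j : ℤ) % 2 = m % 2) (j : ℕ)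
    (h : (Polynomial.X * p - q).coeff j ≠ 0) : (j : ℤ) % 2 = m % 2 := by
  by_cases h1 : q.coeff j = 0
  · rw [Polynomial.coeff_sub, h1, sub_zero] at h
    rcases j with _ | j
    · simp at h
    · rw [Polynomial.coeff_X_mul] at h
      exact_mod_cast hp j h
  · exact hq j h1

open Polynomial.Chebyshev in
theorem Van_par (m : ℤ) : ∀ j : ℕ, (S ℤ m).coeff j ≠ 0 → (j : ℤ) % 2 = m % 2 := by
  induction m using Polynomial.Chebyshev.induct with
  | zero =>
    intro j h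
    rw [S_zero, Polynomial.coeff_one] at h
    split_ifs at h with h0
    · simp [h0]
    · exact absurd rfl h
  | one =>
    intro j h
    rw [S_one, Polynomial.coeff_X] at h
    split_ifs at h with h0
    · simp [← h0]
    · exact absurd rfl h
  | add_two n ih1 ih2 =>
    rw [S_add_two]
    exact Van_step (fun j h => by have := ih1 j h; omega) fun j h => by have := ih2 j h; omega
  | neg_add_one n ih1 ih2 =>
    rw [S_sub_one]
    exact Van_step (fun j h => by have := ih1 j h; omega) fun j h => by have := ih2 j h; omega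

omit [DecidableEq α] in
open Polynomial.Chebyshev in
theorem Van_chb (m : α → ℕ) (n : β → ℤ) :
    chb (Sum.elim (fun i => (m i : ℤ) + 1) n) =
      ∑ j ∈ Fintype.piFinset fun e => Finset.range ((S ℤ (n e - 1)).natDegree + 1),
        (∏ e, (S ℤ (n e - 1)).coeff (j e)) •
          (chb (fun i => ((Sum.elim m (0 : β → ℕ) i : ℕ) : ℤ) + 1) *
            ∏ i, MvPolynomial.X i ^ Sum.elim (0 : α → ℕ) j i) := by
  simp only [chb, Fintype.prod_sum_type, Sum.elim_inl, Sum.elim_inr, Pi.zero_apply, Nat.cast_zero,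
    zero_add, sub_self, S_zero, map_one, Finset.prod_const_one, mul_one, pow_zero, one_mul]
  have h1 : ∀ e : β, Polynomial.aeval (MvPolynomial.X (Sum.inr e) : MvPolynomial (α ⊕ β) ℤ)
      (S ℤ (n e - 1)) = ∑ j ∈ Finset.range ((S ℤ (n e - 1)).natDegree + 1),
        (S ℤ (n e - 1)).coeff j • MvPolynomial.X (Sum.inr e) ^ j :=
    fun e => Polynomial.aeval_eq_sum_range _
  simp only [h1]
  rw [Finset.prod_univ_sum, Finset.mul_sum]
  refine Finset.sum_congr rfl fun j _ => ?_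
  rw [Finset.prod_smul, mul_smul_comm]

open Polynomial.Chebyshev in
theorem Van_Ha (W : List (Sl (Arc (α ⊕ β)))) (t : ℕ) (n : β → ℤ) :
    Ha W t n = ∑ j ∈ Fintype.piFinset fun e => Finset.range ((S ℤ (n e - 1)).natDegree + 1),
      ((∏ e, (S ℤ (n e - 1)).coeff (j e) : ℤ) : ℂ) * Hp W t j := by
  simp only [Ha, Hp, JP, Van_chb, map_sum, map_zsmul, Finset.mul_sum]
  rw [Finset.sum_comm]
  refine Finset.sum_congr rfl fun j _ => Finset.sum_congr rfl fun m _ => ?_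
  rw [zsmul_eq_mul]
  ring

theorem Van_pt {W : List (Sl (Arc (α ⊕ β)))} (u : Finset β) (ε : ℕ)
    (h : ∀ j : β → ℕ, (∑ e ∈ u, j e) % 2 = ε % 2 → ∀ᶠ t in atTop, Hp W t j = 0) (π : β → ℕ)
    (hπ : (∑ e ∈ u, π e) % 2 = ε % 2) (n : β → ℤ) (hn : ∀ e, (n e - 1) % 2 = (π e : ℤ) % 2) :
    ∀ᶠ t in atTop, Ha W t n = 0 := by
  have hall : ∀ j : β → ℕ, ∀ᶠ t in atTop,
      ((∏ e, (Polynomial.Chebyshev.S ℤ (n e - 1)).coeff (j e) : ℤ) : ℂ) * Hp W t j = 0 := by
    intro j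
    by_cases h0 : ∏ e, (Polynomial.Chebyshev.S ℤ (n e - 1)).coeff (j e) = 0
    · exact Eventually.of_forall fun t => by rw [h0, Int.cast_zero, zero_mul]
    · have hj : ∀ e, j e % 2 = π e % 2 := fun e => by
        have h1 := Van_par _ _ (Finset.prod_ne_zero_iff.1 h0 e (Finset.mem_univ e))
        have h2 := hn e
        omega
      have h3 : (∑ e ∈ u, j e) % 2 = ε % 2 := by
        rw [← hπ, Finset.sum_nat_mod, Finset.sum_nat_mod u 2 π]
        simp only [hj]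
      exact (h j h3).mono fun t ht => by rw [ht, mul_zero]
  filter_upwards [(Filter.eventually_all_finset (Fintype.piFinset fun e =>
    Finset.range ((Polynomial.Chebyshev.S ℤ (n e - 1)).natDegree + 1))).2 fun j _ => hall j]
    with t ht
  rw [Van_Ha]
  exact Finset.sum_eq_zero ht

theorem Ha_vanish {W : List (Sl (Arc (α ⊕ β)))} (hW : IsFramedLink W) (u : Finset β) (ε : ℕ)
    (h : ∀ j : β → ℕ, (∑ e ∈ u, j e) % 2 = ε % 2 → ∀ᶠ t in atTop, Hp W t j = 0) :
    ∃ δ : ℝ, 0 < δ ∧ δ ≤ 1 ∧ ∀ᶠ t in atTop, ∀ κ : β → ℕ, (∀ e, (κ e : ℝ) ≤ δ * pp t) →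
      (∑ e ∈ u, κ e) % 2 = ε % 2 → (Ha W t fun e => (κ e : ℤ) + 1) = 0 := by
  let φ : (β → ℤ) →+ (β → ℤ) :=
    { toFun := fun n e => 2 * n e
      map_zero' := by funext e; simp
      map_add' := fun a b => by funext e; simp [mul_add] }
  have key : ∀ π : β → Fin 2, ∃ η : ℝ, 0 < η ∧ ∀ᶠ t in atTop,
      (∑ e ∈ u, (π e : ℕ)) % 2 = ε % 2 → ∀ n : β → ℤ, (∀ e, (|n e| : ℝ) ≤ η * (dgr t : ℝ)) →
        Ha W t ((fun e => ((π e : ℕ) : ℤ) + 1) + φ n) = 0 := by
    intro π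
    by_cases hπ : (∑ e ∈ u, (π e : ℕ)) % 2 = ε % 2
    · obtain ⟨η, h0, h1⟩ := HolG.vanish _ β rfl _
        ((holG_Ha hW).pull (fun e => ((π e : ℕ) : ℤ) + 1) φ) fun n =>
          Van_pt u ε h (fun e => π e) hπ _ fun e => by
            change ((((π e : ℕ) : ℤ) + 1) + 2 * n e - 1) % 2 = _
            omega
      exact ⟨η, h0, h1.mono fun t ht _ => ht⟩
    · exact ⟨1, one_pos, Eventually.of_forall fun t h => absurd h hπ⟩
  choose η h0 h1 using key
  obtain ⟨π₀, hπ₀⟩ := Finite.exists_min η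
  refine ⟨min 1 (η π₀), lt_min one_pos (h0 π₀), min_le_left _ _, ?_⟩
  filter_upwards [Filter.eventually_all.2 h1] with t ht κ hκ hpar
  let π : β → Fin 2 := fun e => ⟨κ e % 2, Nat.mod_lt _ two_pos⟩
  have h2 := ht π (by rw [← hpar, Finset.sum_nat_mod u 2 κ]) (fun e => ((κ e / 2 : ℕ) : ℤ))
    fun e => by
      have h3 : (5 : ℝ) * dgr t = 4 * pp t := by exact_mod_cast dgr_pp t
      have h4 : (2 : ℝ) * ((κ e / 2 : ℕ) : ℝ) ≤ κ e := by
        exact_mod_cast Nat.mul_div_le (κ e) 2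
      have h5 : min 1 (η π₀) ≤ η π := (min_le_right _ _).trans (hπ₀ π)
      have h6 : (0 : ℝ) ≤ pp t := Nat.cast_nonneg _
      have h7 := (hκ e).trans (mul_le_mul_of_nonneg_right h5 h6)
      have h8 : 0 ≤ η π * pp t := mul_nonneg (h0 π).le h6
      have h9 : η π * (dgr t : ℝ) = 4 / 5 * (η π * pp t) := by
        linear_combination (η π / 5) * h3
      rw [Int.cast_natCast, abs_of_nonneg (Nat.cast_nonneg _), h9]
      linarith
  rw [← h2]
  congr 1
  funext e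
  change _ = (((κ e % 2 : ℕ) : ℤ) + 1) + 2 * ((κ e / 2 : ℕ) : ℤ)
  omega

end Pool.Agent.P.MP_53e370_gt.S
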