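import Pool.Agent.P.MP_53e370_gt.S.PtLim
import Pool.Agent.P.MP_53e370_gt.S.Pos
import Pool.Agent.P.MP_53e370_gt.S.Riem
import Pool.Agent.P.MP_53e370_gt.S.SecB
import Pool.Agent.P.MP_53e370_gt.S.Van
import Pool.Agent.P.MP_53e370_gt.S.Kill
import Pool.Agent.P.MP_53e370_gt.S.Parity
import Pool.Agent.P.MP_53e370_gt.S.Points

/-! Assembly. -/

namespace Pool.Agent.P.MP_53e370_gt.S

open Pool.Agent.P.MP_ac4909_gt Filter Topology MeasureTheory

variable {ι E : Type} [Fintype ι] [DecidableEq ι] [Fintype E] [DecidableEq E]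
  {L : List (Sl (Arc ι))}

theorem continuous_bump (δ : ℝ) : Continuous (bump δ) :=
  continuous_const.max (continuous_const.sub continuous_id)

theorem bump_nonneg (δ x : ℝ) : 0 ≤ bump δ x := le_max_left _ _

theorem bump_two (δ : ℝ) : bump δ 2 = 0 :=
  max_eq_left (by linarith [Real.neg_one_le_cos (Real.pi * δ)])

theorem bump_neg_two {δ : ℝ} (h0 : 0 < δ) (h1 : δ ≤ 1) : 0 < bump δ (-2) := by
  refine lt_max_of_lt_right ?_
  have h2 : Real.cos (Real.pi * δ) < Real.cos 0 :=
    Real.cos_lt_cos_of_nonneg_of_le_pi le_rfl (by nlinarith [Real.pi_pos])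
      (mul_pos Real.pi_pos h0)
  rw [Real.cos_zero] at h2
  linarith

omit [DecidableEq E] in
theorem continuous_test (δ : ℝ) (π : E → ℕ) : Continuous (test δ π) :=
  continuous_finsetProd _ fun e _ => ((continuous_bump δ).comp (continuous_apply e)).add
    (continuous_const.mul ((continuous_bump δ).comp (continuous_apply e).neg))

omit [DecidableEq E] in
theorem abs_test_le (δ : ℝ) (π : E → ℕ) (x : E → ℝ) : |test δ π x| ≤ test δ 0 x := by
  rw [test, test, Finset.abs_prod]
  refine Finset.prod_le_prod (fun _ _ => abs_nonneg _) fun e _ => ?_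
  refine (abs_add_le _ _).trans ?_
  rw [abs_mul, abs_pow, abs_neg, abs_one, one_pow, one_mul, abs_of_nonneg (bump_nonneg _ _),
    abs_of_nonneg (bump_nonneg _ _), Pi.zero_apply, pow_zero, one_mul]

omit [DecidableEq E] in
theorem test_point (δ : ℝ) (π : E → ℕ) (η : E → ℤˣ) :
    (test δ π fun e => -2 * ((η e : ℤ) : ℝ)) =
      (((∏ e, η e ^ π e : ℤˣ) : ℤ) : ℝ) * bump δ (-2) ^ Fintype.card E := by
  rw [test, ← Finset.card_univ, ← Finset.prod_const, Units.coe_prod]
  push_cast
  rw [← Finset.prod_mul_distrib]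
  refine Finset.prod_congr rfl fun e _ => ?_
  rcases Int.units_eq_one_or (η e) with h | h <;> simp [h, bump_two]

instance : IsFiniteMeasure (nu ι E) := by
  unfold nu; infer_instance

theorem TT_lim (hL : IsFramedLink L) {Q : Prog L E} (F : Frames Q) {base : ι → E}
    (hb : ∀ i, Q.nm (base i) = i) (π : ι → ℕ) (δ : ℝ) : ∃ s : ℂ, ‖s‖ = 1 ∧
      Tendsto (fun t => TT Q.W π t (test δ fun e => π (Q.nm e))) atTop
        (𝓝 (s * (JJ F base (test δ fun e => π (Q.nm e)) : ℝ))) := by
  obtain ⟨s, hs, hsP⟩ := sgP_par Q π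
  refine ⟨(-1) ^ (∑ i, π i) * s, by simp [hs], ?_⟩
  refine weier (nu ι E) continuous_rho (continuous_zc F base) (abs_zc F base)
    (fun t => bx E (NN t)) (mm Q.W π) (mm_le Q hL π) (fun t κ e => muR t (κ e))
    (fun t κ e => abs_muR t (κ e)) (fun e => π (Q.nm e)) _ (fun j hj => ?_)
    (fun e y => bump δ y + (-1) ^ π (Q.nm e) * bump δ (-y))
    (fun e => (continuous_bump δ).add (continuous_const.mul ((continuous_bump δ).comp
      continuous_neg))) fun e y => ?_
  · obtain ⟨C, hC⟩ := AA_le Q hL π j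
    have h1 := riemann qq qq_pos (AA Q.W π j) _ C hC (AA_lim hL F hb π j hj)
    have h2 := JJ_iter F base (G := fun x => ∏ e, x e ^ j e)
      (continuous_finsetProd _ fun e _ => (continuous_apply e).pow _)
    rw [integral_const_mul, integral_complex_ofReal, ← h2, hsP j hj] at h1
    exact h1.congr fun t => (TT_eq_AA Q.W π j t).symm
  · rw [neg_neg, mul_add, ← mul_assoc, ← mul_pow]
    simp [add_comm]

omit [Fintype E] [DecidableEq E] in
theorem two_le_rank (hL : IsFramedLink L) (v : Finset ι) (h1 : ∀ k, Even (∑ i ∈ v, lk L i k))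
    (μ : ι → SU) (h2 : Framed μ v [] L (-1)) :
    2 ≤ Module.rank (RatFunc ℚ) (SkeinModule L) := by
  by_contra hr
  obtain ⟨ε, hε⟩ := killed_class v h1 hr
  obtain ⟨E, _, _, ⟨Q⟩⟩ := exists_prog hL.1
  obtain ⟨base, hb⟩ := Q.exists_base hL
  obtain ⟨F⟩ := exists_frames Q
  obtain ⟨δ, d0, d1, hvan⟩ := Ha_vanish (Q.framed hL) (Finset.univ.filter fun e => Q.nm e ∈ v) ε
    (Hp_vanish hL Q v ε hε)
  obtain ⟨s₀, hs₀, l₀⟩ := TT_lim hL F hb 0 δ
  obtain ⟨s₁, hs₁, l₁⟩ := TT_lim hL F hb (ind v) δ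
  set π : E → ℕ := fun e => ind v (Q.nm e) with hπ
  have heq : |JJ F base (test δ 0)| = |JJ F base (test δ π)| := by
    have h3 := tendsto_nhds_unique_of_eventuallyEq l₀.norm l₁.norm
      (hvan.mono fun t ht => TT_norm Q hL v ε d0 d1 t ht)
    simp only [norm_mul, hs₀, hs₁, one_mul, Complex.norm_real, Real.norm_eq_abs] at h3
    exact h3
  obtain ⟨c, hc⟩ := exists_point F base v
  have key : ∀ (μ : ι → SU) (ε : ℤˣ), Framed μ v [] L ε →
      0 < JJ F base (test δ 0) + ((ε * c : ℤˣ) : ℤ) * JJ F base (test δ π) := by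
    intro μ ε h
    obtain ⟨x, η, hx, hη⟩ := hc μ ε h
    rw [← JJ_add F base (continuous_test δ 0) (continuous_test δ π)]
    refine JJ_pos F base ((continuous_test δ 0).add (continuous_const.mul (continuous_test δ π)))
      (fun y => ?_) x ?_
    · have h4 := abs_le.1 (abs_test_le δ π y)
      rcases Int.units_eq_one_or (ε * c) with h5 | h5 <;> rw [h5] <;> simp <;> linarith
    · have e1 : ∏ e, η e ^ π e = ε * c := by
        rw [← hη, Finset.prod_filter]
        refine Finset.prod_congr rfl fun e _ => ?_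
        simp only [hπ, ind]
        split_ifs <;> simp
      have h6 := pow_pos (bump_neg_two d0 d1) (Fintype.card E)
      rw [show zc F base x = _ from funext hx, test_point, test_point, e1]
      rcases Int.units_eq_one_or (ε * c) with h5 | h5 <;> rw [h5] <;> simp <;> linarith
  have k1 := key _ _ (framed_one hL.1 v)
  have k2 := key _ _ h2
  rcases Int.units_eq_one_or c with h5 | h5 <;> rw [h5] at k1 k2 <;> simp at k1 k2 <;>
    rcases abs_eq_abs.1 heq with h6 | h6 <;> linarith

end Pool.Agent.P.MP_53e370_gt.S
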