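import Pool.Agent.P.MP_53e370_gt.S.GM
import Pool.Agent.P.MP_53e370_gt.S.Level
import Pool.Agent.P.MP_ac4909_gt.Fold
import Pool.Agent.P.MP_ac4909_gt.HolSS

/-! Surgery on some components of a link gives a holonomic germ in the other colours. -/

namespace Pool.Agent.P.MP_53e370_gt.S

open Pool.Agent.P.MP_ac4909_gt Filter

variable {α β : Type} [Fintype α] [DecidableEq α] [Fintype β] [DecidableEq β]

theorem PDFT_hol_of_rel {K : Type} [Field K] {q q' : Kˣ} {γ M M' : Type} [Fintype γ]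
    [AddCommGroup M] [Module K M] [AddCommGroup M'] [Module K M'] (T : QT q γ M)
    (T' : QT q' γ M') {x : M} {y : M'} (h : T.Hol x) (Y : (γ → ℤ) × (γ → ℤ) → M')
    (hY : ∀ d, ∀ u ∈ box γ d, ∀ v ∈ box γ d, ∃ z : (γ → ℤ) × (γ → ℤ), z.1 ∈ box γ d ∧
      z.2 ∈ box γ d ∧ ∃ c : K, T'.Q v (T'.E u y) = c • Y z)
    (hrel : ∀ (S : Finset ((γ → ℤ) × (γ → ℤ))) (c : (γ → ℤ) × (γ → ℤ) → K),
      ∑ z ∈ S, c z • T.Q z.2 (T.E z.1 x) = 0 → ∑ z ∈ S, c z • Y z = 0) : T'.Hol y := by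
  obtain ⟨C, hC⟩ := h
  refine ⟨C, fun d => le_trans ?_ (hC d)⟩
  have h1 := qt_finrank_le (K := K) ((box_finite γ d).prod (box_finite γ d)).toFinset
    (fun z => T.Q z.2 (T.E z.1 x)) Y (hrel _)
  rw [Set.Finite.coe_toFinset] at h1
  have hfin : Module.Finite K (Submodule.span K (Y '' box γ d ×ˢ box γ d)) :=
    Module.Finite.span_of_finite K (((box_finite γ d).prod (box_finite γ d)).image Y)
  have e1 : Submodule.span K ((fun z : (γ → ℤ) × (γ → ℤ) => T.Q z.2 (T.E z.1 x)) ''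
      box γ d ×ˢ box γ d) ≤ T.Fil d x := by
    refine Submodule.span_le.2 ?_
    rintro _ ⟨w, hw, rfl⟩
    exact T.mem_Fil x hw.1 hw.2
  have e2 : T'.Fil d y ≤ Submodule.span K (Y '' box γ d ×ˢ box γ d) := by
    refine Submodule.span_le.2 ?_
    rintro _ ⟨u, hu, v, hv, rfl⟩
    obtain ⟨z, h1, h2, c, hc⟩ := hY d u hu v hv
    rw [hc]
    exact Submodule.smul_mem _ _ (Submodule.subset_span ⟨z, ⟨h1, h2⟩, rfl⟩)
  exact (Submodule.finrank_mono e2).trans (h1.trans (Submodule.finrank_mono e1))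

/-- Fourier transform in the first group of variables -/
noncomputable def PDFT_Psi (G : ℕ → (α ⊕ β → ℤ) → ℂ) (t : ℕ) (n : α ⊕ β → ℤ) : ℂ :=
  ∑ k ∈ Fintype.piFinset fun _ : α => Finset.Ico (0 : ℤ) (2 * (pp t : ℤ)),
    bb t ^ (2 * ((n ∘ Sum.inl) ⬝ᵥ k)) * G t (Sum.elim k (n ∘ Sum.inr))

theorem PDFT_bb_pow (t : ℕ) (z : ℤ) : bb t ^ (2 * (pp t : ℤ) * z) = 1 := by
  have h3 : 2 * (pp t : ℤ) = ((2 * pp t : ℕ) : ℤ) := by push_cast; ring
  rw [h3, zpow_mul, zpow_natCast, (bb_prim t).pow_eq_one, one_zpow]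

omit [Fintype α] [Fintype β] in
theorem PDFT_elim_single (k : α → ℤ) (n : β → ℤ) (i : α) (z : ℤ) :
    (Sum.elim (k + Pi.single i z) n : α ⊕ β → ℤ) = Sum.elim k n + Pi.single (Sum.inl i) z := by
  funext x
  rcases x with j | j
  · by_cases h : j = i
    · subst h
      simp
    · simp [h]
  · simp

omit [DecidableEq α] [DecidableEq β] in
theorem PDFT_dot (v : α ⊕ β → ℤ) (k : α → ℤ) (n : β → ℤ) :
    v ⬝ᵥ Sum.elim k n = (v ∘ Sum.inl) ⬝ᵥ k + (v ∘ Sum.inr) ⬝ᵥ n := by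
  simp [dotProduct, Fintype.sum_sum_type]

theorem PDFT_shift (G : ℕ → (α ⊕ β → ℤ) → ℂ) (t : ℕ)
    (hG : ∀ k i, G t (k + Pi.single (Sum.inl i) (2 * (pp t : ℤ))) = G t k)
    (u v n : α ⊕ β → ℤ) :
    bb t ^ (2 * (v ⬝ᵥ n)) * PDFT_Psi G t (n + u) =
      bb t ^ (-(2 * ((u ∘ Sum.inl) ⬝ᵥ (v ∘ Sum.inl)))) *
        PDFT_Psi (fun t k => bb t ^ (2 * (Sum.elim (u ∘ Sum.inl) (v ∘ Sum.inr) ⬝ᵥ k)) *
          G t (k + Sum.elim (-(v ∘ Sum.inl)) (u ∘ Sum.inr))) t n := by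
  have hc : ((2 * pp t : ℕ) : ℤ) = 2 * (pp t : ℤ) := by push_cast; rfl
  have h1 := sum_box_shift (2 * pp t) (by have := pp_five t; omega)
    (fun k : α → ℤ => bb t ^ (2 * (((n + u) ∘ Sum.inl) ⬝ᵥ k)) *
      G t (Sum.elim k ((n + u) ∘ Sum.inr))) (by
      intro k i
      rw [hc, PDFT_elim_single, hG, dotProduct_add, dotProduct_single, mul_add,
        zpow_add₀ (bb_ne t)]
      have h2 : bb t ^ (2 * (((n + u) ∘ Sum.inl) i * (2 * (pp t : ℤ)))) = 1 := by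
        rw [← PDFT_bb_pow t (2 * ((n + u) ∘ Sum.inl) i)]
        congr 1
        ring
      rw [h2, mul_one]) (-(v ∘ Sum.inl))
  rw [hc] at h1
  rw [PDFT_Psi, PDFT_Psi, ← h1, Finset.mul_sum, Finset.mul_sum]
  refine Finset.sum_congr rfl fun k _ => ?_
  have e1 : (Sum.elim (k + -(v ∘ Sum.inl)) ((n + u) ∘ Sum.inr) : α ⊕ β → ℤ) =
      Sum.elim k (n ∘ Sum.inr) + Sum.elim (-(v ∘ Sum.inl)) (u ∘ Sum.inr) := by
    funext x
    rcases x with j | j <;> simp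
  have e2 : v ⬝ᵥ n = (v ∘ Sum.inl) ⬝ᵥ (n ∘ Sum.inl) + (v ∘ Sum.inr) ⬝ᵥ (n ∘ Sum.inr) := by
    rw [← PDFT_dot, Sum.elim_comp_inl_inr]
  have e3 : (n + u) ∘ Sum.inl = n ∘ Sum.inl + u ∘ (Sum.inl : α → α ⊕ β) := rfl
  rw [e1, ← mul_assoc, ← mul_assoc, ← mul_assoc, ← zpow_add₀ (bb_ne t), ← zpow_add₀ (bb_ne t),
    ← zpow_add₀ (bb_ne t)]
  congr 2
  rw [e2, e3, PDFT_dot, Sum.elim_comp_inl, Sum.elim_comp_inr, add_dotProduct, dotProduct_add,
    dotProduct_add, dotProduct_neg, dotProduct_neg, dotProduct_comm (n ∘ Sum.inl) (v ∘ Sum.inl)]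
  ring

theorem PDFT_hol (g : (α ⊕ β → ℤ) → LaurentPolynomial ℤ)
    (hg : HolF (uA ^ 2) fun k => lev RatFunc.X RatFunc.X_ne_zero (g k))
    (hper : ∀ t k i, lev (bb t) (bb_ne t) (g (k + Pi.single (Sum.inl i) (2 * (pp t : ℤ)))) =
      lev (bb t) (bb_ne t) (g k)) :
    HolG (PDFT_Psi fun t k => lev (bb t) (bb_ne t) (g k)) := by
  refine PDFT_hol_of_rel (funQT (uA ^ 2) (α ⊕ β)) (germQT (α ⊕ β)) hg
    (fun z => GM.mk (PDFT_Psi fun t k => bb t ^ (2 * (z.2 ⬝ᵥ k)) *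
      lev (bb t) (bb_ne t) (g (k + z.1)))) ?_ ?_
  · intro d u hu v hv
    refine ⟨(Sum.elim (-(v ∘ Sum.inl)) (u ∘ Sum.inr), Sum.elim (u ∘ Sum.inl) (v ∘ Sum.inr)),
      ?_, ?_, RatFunc.X ^ (-(2 * ((u ∘ Sum.inl) ⬝ᵥ (v ∘ Sum.inl)))), ?_⟩
    · rintro (j | j)
      · simpa using hv (Sum.inl j)
      · simpa using hu (Sum.inr j)
    · rintro (j | j)
      · simpa using hu (Sum.inl j)
      · simpa using hv (Sum.inr j)
    · rw [germQT_E, germQT_Q, GM.smul_mk _ _ (theta_X_zpow _)]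
      congr 1
      funext t n
      exact PDFT_shift (fun t k => lev (bb t) (bb_ne t) (g k)) t (hper t) u v n
  intro S c hrel
  obtain ⟨b, hb⟩ := IsLocalization.exist_integer_multiples (nonZeroDivisors (Polynomial ℚ)) S c
  choose! p hp using hb
  have hb0 : algebraMap (Polynomial ℚ) (RatFunc ℚ) b ≠ 0 :=
    RatFunc.algebraMap_ne_zero (nonZeroDivisors.coe_ne_zero b)
  have hp' : ∀ z ∈ S, algebraMap (Polynomial ℚ) (RatFunc ℚ) (p z) =
      algebraMap (Polynomial ℚ) (RatFunc ℚ) b * c z := by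
    intro z hz
    rw [hp z hz, Algebra.smul_def]
  have hrel' : ∀ t k, ∑ z ∈ S, Polynomial.aeval (bb t) (p z) *
      (bb t ^ (2 * (z.2 ⬝ᵥ k)) * lev (bb t) (bb_ne t) (g (k + z.1))) = 0 := by
    intro t k
    have h1 := congrFun hrel k
    rw [Finset.sum_apply] at h1
    have h2 := eval_rel S p (fun z => LaurentPolynomial.T (2 * (z.2 ⬝ᵥ k)) * g (k + z.1)) (by
      have h3 := congrArg (fun y => algebraMap (Polynomial ℚ) (RatFunc ℚ) b * y) h1
      simp only [Pi.zero_apply, mul_zero, Finset.mul_sum] at h3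
      rw [← h3]
      refine Finset.sum_congr rfl fun z hz => ?_
      rw [hp' z hz, map_mul, lev_T, Pi.smul_apply, funQT_Q, funQT_E, smul_eq_mul, mul_assoc,
        zpow_mul, Units.val_pow_eq_pow_val]
      rfl) (bb t) (bb_ne t)
    simpa only [map_mul, lev_T] using h2
  refine (smul_eq_zero_iff_right hb0).1 ?_
  rw [Finset.smul_sum]
  have e : ∀ z ∈ S, algebraMap (Polynomial ℚ) (RatFunc ℚ) b • c z •
      GM.mk (PDFT_Psi fun t k => bb t ^ (2 * (z.2 ⬝ᵥ k)) * lev (bb t) (bb_ne t) (g (k + z.1))) =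
      GM.mk fun t n => Polynomial.aeval (bb t) (p z) * PDFT_Psi
        (fun t k => bb t ^ (2 * (z.2 ⬝ᵥ k)) * lev (bb t) (bb_ne t) (g (k + z.1))) t n := by
    intro z hz
    rw [smul_smul, ← hp' z hz, GM.smul_mk _ _ (theta_poly (p z))]
  rw [Finset.sum_congr rfl e, GM.sum_mk, GM.mk_eq_zero]
  refine Eventually.of_forall fun t n => ?_
  simp only [PDFT_Psi, Finset.mul_sum]
  rw [Finset.sum_comm]
  refine Finset.sum_eq_zero fun k _ => ?_
  have h5 := congrArg (fun y => bb t ^ (2 * ((n ∘ Sum.inl) ⬝ᵥ k)) * y)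
    (hrel' t (Sum.elim k (n ∘ Sum.inr)))
  simp only [mul_zero, Finset.mul_sum] at h5
  rw [← h5]
  refine Finset.sum_congr rfl fun z _ => ?_
  ring

theorem PDFT_period {W : List (Sl (Arc (α ⊕ β)))} (hW : IsFramedLink W) (t : ℕ)
    (k : α ⊕ β → ℤ) (i : α ⊕ β) :
    lev (bb t) (bb_ne t) (JP W (k + Pi.single i (2 * (pp t : ℤ)))) =
      lev (bb t) (bb_ne t) (JP W k) := by
  obtain ⟨M⟩ := exists_M t
  have hB := bos_M M
  have hlev : ∀ c, lev (twT M.T).a (twT M.T).ha c = lev (bb t) (bb_ne t) c := by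
    intro c; have := twT_M M; congr 1; simp only [this]
  have := (twT M.T).JP_period hW (NN t + 1) hB.adm hB.zero k i
  rw [hlev, hlev] at this
  have h2 : (2 * (((NN t + 1 : ℕ) : ℤ) + 1)) = 2 * (pp t : ℤ) := by
    have := NN_add t
    omega
  rwa [h2] at this

/-- the coloured Jones polynomial with signs for the first group of colours -/
noncomputable def PDFT_G (W : List (Sl (Arc (α ⊕ β)))) (k : α ⊕ β → ℤ) : LaurentPolynomial ℤ :=
  (∏ i : α, LaurentPolynomial.C (((k (Sum.inl i) - 1).negOnePow : ℤˣ) : ℤ)) * JP W k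

omit [DecidableEq α] [DecidableEq β] in
theorem PDFT_lev_G {K : Type} [Field K] (a : K) (ha : a ≠ 0) (W : List (Sl (Arc (α ⊕ β))))
    (k : α ⊕ β → ℤ) :
    lev a ha (PDFT_G W k) = (∏ i : α, (-1 : K) ^ (k (Sum.inl i) - 1)) * lev a ha (JP W k) := by
  simp only [PDFT_G, map_mul, map_prod, lev_C, Int.cast_negOnePow]

omit [Fintype β] in
theorem PDFT_sign (k : α ⊕ β → ℤ) (i : α ⊕ β) (z : ℤ) :
    (∏ j : α, (-1 : ℂ) ^ ((k + Pi.single i (2 * z) : α ⊕ β → ℤ) (Sum.inl j) - 1)) =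
      ∏ j : α, (-1 : ℂ) ^ (k (Sum.inl j) - 1) := by
  refine Finset.prod_congr rfl fun j _ => ?_
  by_cases hj : Sum.inl j = i
  · subst hj
    rw [Pi.add_apply, Pi.single_eq_same, add_sub_right_comm, zpow_add₀ (by norm_num), zpow_mul]
    norm_num
  · rw [Pi.add_apply, Pi.single_eq_of_ne hj, add_zero]

theorem PDFT_fold {W : List (Sl (Arc (α ⊕ β)))} (hW : IsFramedLink W) (t : ℕ) (n : β → ℤ) :
    PDFT_Psi (fun t k => lev (bb t) (bb_ne t) (PDFT_G W k)) t (Sum.elim 1 n) =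
      (bb t ^ (2 : ℤ) - bb t ^ (-2 : ℤ)) ^ Fintype.card α * Ha W t n := by
  have ha := bb_ne t
  have key := Fold_box (pp t) (fun k : α → ℤ => lev (bb t) (bb_ne t) (PDFT_G W (Sum.elim k n)))
    (fun k i => by
      have e : Function.update k i (-k i) = k + Pi.single i (2 * -k i) := by
        funext j
        by_cases hj : j = i
        · subst hj
          simp; ring
        · simp [hj]
      have e' : (Sum.elim (Function.update k i (-k i)) n : α ⊕ β → ℤ) =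
          Function.update (Sum.elim k n) (Sum.inl i)
            (-(Sum.elim k n : α ⊕ β → ℤ) (Sum.inl i)) := by
        rw [Sum.update_elim_inl]
        rfl
      rw [PDFT_lev_G, PDFT_lev_G]
      nth_rewrite 2 [e']
      rw [JP_neg, map_neg, e, PDFT_elim_single, PDFT_sign, mul_neg])
    (fun k i => by
      rw [PDFT_lev_G, PDFT_lev_G, PDFT_elim_single, PDFT_period hW, PDFT_sign])
    (fun _ x => bb t ^ (2 * x))
  have e1 : ∀ k : α → ℤ, bb t ^ (2 * ((1 : α → ℤ) ⬝ᵥ k)) = ∏ i, bb t ^ (2 * k i) := by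
    intro k
    rw [one_dotProduct, Finset.mul_sum]
    induction (Finset.univ : Finset α) using Finset.induction_on with
    | empty => simp
    | insert j S hj ih => rw [Finset.sum_insert hj, Finset.prod_insert hj, zpow_add₀ ha, ih]
  unfold PDFT_Psi
  simp only [Sum.elim_comp_inl, Sum.elim_comp_inr, e1]
  rw [key, Ha, bx, Finset.mul_sum, show NN t + 1 = pp t - 1 by have := NN_add t; omega]
  refine Finset.sum_congr rfl fun m _ => ?_
  have e2 : ∀ m : ℕ, (bb t ^ (2 * ((m : ℤ) + 1)) - bb t ^ (2 * (2 * (pp t : ℤ) - ((m : ℤ) + 1)))) *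
      (-1 : ℂ) ^ ((m : ℤ) + 1 - 1) = (bb t ^ (2 : ℤ) - bb t ^ (-2 : ℤ)) * Dl (bb t) m := by
    intro m
    have h2 : bb t ^ (2 * ((m : ℤ) + 1)) = bb t ^ (2 * m + 2) := by
      rw [← zpow_natCast]
      congr 1
    have h3 : bb t ^ (2 * (2 * (pp t : ℤ) - ((m : ℤ) + 1))) = (bb t)⁻¹ ^ (2 * m + 2) := by
      have h4 : 2 * (2 * (pp t : ℤ) - ((m : ℤ) + 1)) =
          2 * (pp t : ℤ) * 2 + -(2 * ((m : ℤ) + 1)) := by ring
      rw [h4, zpow_add₀ ha, PDFT_bb_pow, one_mul, zpow_neg, h2, inv_pow]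
    have h5 : bb t ^ (2 : ℤ) - bb t ^ (-2 : ℤ) = bb t ^ 2 - (bb t)⁻¹ ^ 2 := by
      rw [zpow_neg, inv_pow]
      rfl
    rw [h2, h3, h5, Dl_closed _ ha, add_sub_cancel_right, zpow_natCast]
    ring
  rw [PDFT_lev_G, ← mul_assoc, ← Finset.prod_mul_distrib]
  simp only [Sum.elim_inl, e2]
  rw [Finset.prod_mul_distrib, Finset.prod_const, Finset.card_univ, mul_assoc]

theorem holG_Ha {W : List (Sl (Arc (α ⊕ β)))} (hW : IsFramedLink W) : HolG (Ha W) := by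
  have hhol : HolG (PDFT_Psi fun t k => lev (bb t) (bb_ne t) (PDFT_G W k)) := by
    refine PDFT_hol (PDFT_G W) (HolF.sq ?_) fun t k i => ?_
    · have h₁ : HolF uA fun k : α ⊕ β → ℤ => ∏ i : α, (-1 : RatFunc ℚ) ^ (k (Sum.inl i) - 1) :=
        HolF.finset_prod uA_nontorsion _ fun i _ =>
          holF_sign uA_nontorsion ((isAff_coord (Sum.inl i)).sub (isAff_const 1))
      refine (h₁.mul uA_nontorsion (holF_JP uA_nontorsion hW)).congr fun k => ?_
      rw [PDFT_lev_G]; rfl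
    · rw [PDFT_lev_G, PDFT_lev_G, PDFT_period hW, PDFT_sign]
  let φ : (β → ℤ) →+ (α ⊕ β → ℤ) :=
    { toFun := fun n => Sum.elim 0 n
      map_zero' := by funext x; rcases x with j | j <;> rfl
      map_add' := fun a b => by funext x; rcases x with j | j <;> simp }
  have h1 := hhol.pull (Sum.elim 1 0) φ
  have e : ∀ n : β → ℤ, (Sum.elim 1 0 : α ⊕ β → ℤ) + φ n = Sum.elim (1 : α → ℤ) n := by
    intro n
    funext x
    rcases x with j | j <;> simp [φ]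
  simp only [e, PDFT_fold hW] at h1
  set d : RatFunc ℚ := (RatFunc.X ^ (2 : ℤ) - RatFunc.X ^ (-2 : ℤ)) ^ Fintype.card α with hd
  have hd0 : d ≠ 0 := by
    refine pow_ne_zero _ (sub_ne_zero.2 fun h => ?_)
    have h4 : (uA : RatFunc ℚ) ^ (4 : ℤ) = 1 := by
      change (RatFunc.X : RatFunc ℚ) ^ (4 : ℤ) = 1
      rw [show (4 : ℤ) = 2 + 2 by norm_num, zpow_add₀ RatFunc.X_ne_zero]
      nth_rewrite 1 [h]
      rw [← zpow_add₀ RatFunc.X_ne_zero]
      norm_num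
    have := uA_nontorsion 4 h4
    omega
  have hθ : theta d = ((fun t => (bb t ^ (2 : ℤ) - bb t ^ (-2 : ℤ)) ^ Fintype.card α : ℕ → ℂ) :
      Germ atTop ℂ) := by
    rw [hd, map_pow, map_sub, theta_X_zpow, theta_X_zpow, ← Germ.coe_sub, ← Germ.coe_pow]
    rfl
  have h2 := QT.Hol.smul h1 d⁻¹
  rw [← GM.smul_mk d _ hθ, smul_smul, inv_mul_cancel₀ hd0, one_smul] at h2
  exact h2

end Pool.Agent.P.MP_53e370_gt.S
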