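import Pool.Agent.P.MP_53e370_gt.S.Paths

/-! Cutting all strands of a row. -/

namespace Pool.Agent.P.MP_53e370_gt.S

open Pool.Agent.P.MP_ac4909_gt

variable {K : Type} [Field K] {R : Type} [Ring R] [Algebra K R] {T : TL K R} {E : Type}
  {k kb : E → ℕ} {σ : E → List Bool}

theorem PhiCut_wid_cons (n : E → ℕ) (x : E) (ρ : List E) : wid n (x :: ρ) = n x + wid n ρ := by
  simp [wid]

theorem PhiCut_wid_nil (n : E → ℕ) : wid n ([] : List E) = 0 := by
  simp [wid]

theorem PhiCut_sw {a b c d : R} (h : a * b = c * d) (z : R) : a * (b * z) = c * (d * z) := by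
  rw [← mul_assoc, h, mul_assoc]

theorem PhiCut_one {a b : R} (h : a * b = 1) (z : R) : a * (b * z) = z := by
  rw [← mul_assoc, h, one_mul]

theorem PhiCut_loc_step {c cb m r rb : ℕ} {τ : List Bool} (hτ : en c τ = cb) {Y : ℕ → R}
    (hY : T.Loc (m + c + r) (cb + rb) Y) :
    T.Loc (τ.length + m + r) rb
      (ptr T cb fun q => Y q * T.crC false c m q * Abs T c τ q) := by
  apply loc_ptr
  have h1 : T.Loc (cb + (τ.length + m + r)) (c + m + r) (Abs T c τ) :=
    ((loc_Abs T c τ).padR (m + r)).cast (by omega) (by omega) fun _ => rfl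
  have h2 : T.Loc (c + m + r) (m + c + r) (T.crC false c m) := (T.loc_crC false c m).padR r
  exact (hY.mul h2).mul h1

theorem PhiCut_loc_B {c cb : ℕ} {τ : List Bool} (hτ : en c τ = cb) (m : ℕ) :
    T.Loc (m + c) (cb + (τ.length + m)) fun p => Em T c τ p * T.crC true m c p := by
  have h1 : T.Loc (c + m) (cb + (τ.length + m)) (Em T c τ) :=
    ((loc_Em T c τ).padR m).cast rfl (by omega) fun _ => rfl
  exact h1.mul (T.loc_crC true m c)

theorem loc_RR {ρ : List E} (hσ : ∀ e ∈ ρ, en (k e) (σ e) = kb e) {m r rb : ℕ} {Y : ℕ → R}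
    (hY : T.Loc (m + wid k ρ + r) (wid kb ρ + rb) Y) :
    T.Loc (wid (fun e => (σ e).length) ρ + m + r) rb (RR T k kb σ m ρ Y) := by
  induction ρ generalizing m Y with
  | nil =>
    rw [PhiCut_wid_nil] at hY ⊢
    rw [PhiCut_wid_nil] at hY
    exact hY.cast (by omega) (by omega) fun _ => rfl
  | cons x ρ ih =>
    rw [PhiCut_wid_cons, PhiCut_wid_cons] at hY
    rw [PhiCut_wid_cons]
    have h1 := PhiCut_loc_step (m := m) (r := wid k ρ + r) (rb := wid kb ρ + rb)
      (hσ x List.mem_cons_self) (hY.cast (by omega) (by omega) fun _ => rfl)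
    have h2 := ih (fun e he => hσ e (List.mem_cons_of_mem _ he)) (m := (σ x).length + m)
      (h1.cast (by omega) rfl fun _ => rfl)
    exact h2.cast (by omega) rfl fun _ => rfl

theorem loc_EE {ρ : List E} (hσ : ∀ e ∈ ρ, en (k e) (σ e) = kb e) {m r rb : ℕ} {y : ℕ → R}
    (hy : T.Loc (wid (fun e => (σ e).length) ρ + m + r) rb y) :
    T.Loc (m + wid k ρ + r) (wid kb ρ + rb) (EE T k kb σ m ρ y) := by
  induction ρ generalizing m with
  | nil =>
    rw [PhiCut_wid_nil] at hy
    rw [PhiCut_wid_nil, PhiCut_wid_nil]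
    exact hy.cast (by omega) (by omega) fun _ => rfl
  | cons x ρ ih =>
    rw [PhiCut_wid_cons] at hy
    rw [PhiCut_wid_cons, PhiCut_wid_cons]
    have h1 := ih (fun e he => hσ e (List.mem_cons_of_mem _ he)) (m := (σ x).length + m)
      (hy.cast (by omega) rfl fun _ => rfl)
    have h2 := (PhiCut_loc_B (T := T) (hσ x List.mem_cons_self) m).padR (wid k ρ + r)
    have h3 := ((h1.padL (kb x)).cast (m' := kb x + ((σ x).length + m) + (wid k ρ + r))
      (by omega) rfl fun _ => rfl).mul h2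
    exact h3.cast (by omega) (by omega) fun p => by simp only [EE, mul_assoc]

theorem RR_smul (c : K) (m : ℕ) (ρ : List E) (Y : ℕ → R) :
    RR T k kb σ m ρ (c • Y) = c • RR T k kb σ m ρ Y := by
  induction ρ generalizing m Y with
  | nil => rfl
  | cons x ρ ih =>
    simp only [RR]
    rw [← ih]
    congr 1
    funext p
    simp only [ptr, Pi.smul_apply, smul_mul_assoc, mul_smul_comm]

theorem EE_smul (c : K) (m : ℕ) (ρ : List E) (y : ℕ → R) :
    EE T k kb σ m ρ (c • y) = c • EE T k kb σ m ρ y := by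
  induction ρ generalizing m with
  | nil => rfl
  | cons x ρ ih =>
    funext p
    simp only [EE, ih, Pi.smul_apply, smul_mul_assoc]

theorem PhiCut_apply (τ : List Bool) (w c wb cb : ℕ) (Y : ℕ → R) (p : ℕ) :
    Cut T τ w c wb cb Y p =
      T.crC false cb wb p * (T.capC cb (p + cb) * (T.crC true wb cb (p + cb + cb) *
        (Y (p + cb + cb) * (T.crC false c w (p + cb + cb) * (Abs T c τ (p + cb + cb) *
          (T.cupC cb (p + cb) * (Em T c τ p * T.crC true w c p))))))) := by
  rw [add_assoc p cb cb]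
  simp only [Cut, sand, LinearMap.coe_mk, AddHom.coe_mk, mul_assoc, add_assoc]

theorem PhiCut_loc_G {c cb : ℕ} {τ : List Bool} (hτ : en c τ = cb) :
    T.Loc c (cb + cb + c)
      fun p => Abs T c τ (p + cb + cb) * (T.cupC cb (p + cb) * Em T c τ p) := by
  have h1 : T.Loc c (cb + τ.length) (Em T c τ) := (loc_Em T c τ).cast rfl (by omega) fun _ => rfl
  have h2 : T.Loc (cb + τ.length) (cb + cb + (cb + τ.length)) fun p => T.cupC cb (p + cb) :=
    (((T.loc_cupC cb).padR τ.length).padL cb).cast (by omega) (by omega) fun _ => rfl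
  have h3 : T.Loc (cb + cb + (cb + τ.length)) (cb + cb + c) fun p => Abs T c τ (p + cb + cb) :=
    ((loc_Abs T c τ).padL (cb + cb)).cast (by omega) rfl fun p => by rw [add_assoc]
  exact h3.mul (h2.mul h1)

theorem PhiCut_loc_cut {c cb w wb r rb : ℕ} {τ : List Bool} (hτ : en c τ = cb) {Y : ℕ → R}
    (hY : T.Loc (w + c + r) (wb + cb + rb) Y) :
    T.Loc (w + c + r) (wb + cb + rb) (Cut T τ w c wb cb Y) := by
  have h1 : T.Loc (w + c + r) (c + w + r) (T.crC true w c) := (T.loc_crC true w c).padR r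
  have h2 : T.Loc (c + w + r) (cb + cb + (c + w + r))
      fun p => Abs T c τ (p + cb + cb) * (T.cupC cb (p + cb) * Em T c τ p) :=
    ((PhiCut_loc_G hτ).padR (w + r)).cast (by omega) (by omega) fun _ => rfl
  have h3 : T.Loc (c + w + r) (cb + wb + rb)
      fun p => T.crC true wb cb p * (Y p * T.crC false c w p) :=
    ((T.loc_crC true wb cb).padR rb).mul (hY.mul ((T.loc_crC false c w).padR r))
  have h4 : T.Loc (cb + cb + (cb + wb + rb)) (cb + wb + rb) fun p => T.capC cb (p + cb) :=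
    (((T.loc_capC cb).padR (wb + rb)).padL cb).cast (by omega) (by omega) fun _ => rfl
  have h5 : T.Loc (cb + wb + rb) (wb + cb + rb) (T.crC false cb wb) :=
    (T.loc_crC false cb wb).padR rb
  refine (h5.mul (h4.mul ((h3.padL (cb + cb)).mul (h2.mul h1)))).cast rfl rfl fun p => ?_
  rw [PhiCut_apply]
  simp only [mul_assoc, add_assoc]

theorem PhiCut_cut_mul {c cb w w' wb : ℕ} {τ : List Bool} (hτ : en c τ = cb) {B : ℕ → R}
    (hB : T.Loc w w' B) (Y : ℕ → R) :
    Cut T τ w c wb cb (fun p => Y p * B p) = fun p => Cut T τ w' c wb cb Y p * B p := by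
  funext p
  rw [PhiCut_apply, PhiCut_apply]
  have h1 := hB.natR false c (p + cb + cb)
  have h2 := (loc_Abs T c τ).far' hB (p + cb + cb) (p + cb + cb + cb + τ.length)
    (p + cb + cb + c) (by omega) (by omega)
  have h3 := (T.loc_cupC cb).far' hB (p + cb) (p + cb + τ.length) (p + cb + cb + cb + τ.length)
    (by omega) (by omega)
  have h4 := (loc_Em T c τ).far' hB p (p + c) (p + cb + τ.length) (by omega) (by omega)
  have h5 := hB.natL true c p
  simp only [mul_assoc]
  rw [h5, PhiCut_sw h4, PhiCut_sw h3, PhiCut_sw h2, PhiCut_sw h1]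

theorem PhiCut_cut_shift {c cb w wb a b : ℕ} {τ : List Bool} (hτ : en c τ = cb) {y : ℕ → R}
    (hy : T.Loc a b y) (n : ℕ) :
    Cut T τ (n + w) c (n + wb) cb (fun p => y (p + n)) =
      fun p => Cut T τ w c wb cb y (p + n) := by
  funext p
  rw [PhiCut_apply, PhiCut_apply]
  have hc : T.Loc (cb + cb + cb) cb fun p => T.capC cb (p + cb) :=
    ((T.loc_capC cb).padL cb).cast (by omega) (by omega) fun _ => rfl
  have h1 := hc.natL false n p
  have h2 := (PhiCut_loc_G (T := T) hτ).natR true n p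
  have h3 : T.crC false cb n (p + cb + cb) * T.crC true n cb (p + cb + cb) = 1 :=
    T.r2C true n cb _
  have h4 : T.crC false c n (p + cb + cb) * T.crC true n c (p + cb + cb) = 1 := T.r2C true n c _
  have h5 : T.crC false (cb + cb) n p * T.crC true n (cb + cb) p = 1 := T.r2C true n (cb + cb) p
  have hX := T.loc_crC false (cb + cb) n
  have h6 := hX.far' (T.loc_crC true wb cb) p (p + n + cb + cb) (p + n + cb + cb)
    (by omega) (by omega)
  have h7 := hX.far' hy p (p + n + cb + cb) (p + n + cb + cb) (by omega) (by omega)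
  have h8 := hX.far' (T.loc_crC false c w) p (p + n + cb + cb) (p + n + cb + cb)
    (by omega) (by omega)
  have e1 : p + cb + cb + n = p + n + cb + cb := by omega
  have e2 : p + (cb + cb) = p + cb + cb := by omega
  rw [T.hexL false (cb + cb) cb n p, e2] at h1
  rw [T.hexR true n (cb + cb) c p, e2] at h2
  simp only [mul_assoc] at h2
  have h9 : ∀ z : R, Abs T c τ (p + cb + cb) * (T.cupC cb (p + cb) * (Em T c τ p *
      (T.crC true n c p * z))) = T.crC true n c (p + cb + cb) * (T.crC true n (cb + cb) p *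
        (Abs T c τ (p + n + cb + cb) * (T.cupC cb (p + n + cb) * (Em T c τ (p + n) * z)))) := by
    intro z
    have h10 := congrArg (· * z) h2
    simp only [mul_assoc] at h10
    exact h10.symm
  rw [T.hexR false cb n wb p, T.hexL true n wb cb (p + cb + cb), T.hexR false c n w (p + cb + cb),
    T.hexL true n w c p, e1]
  simp only [mul_assoc]
  rw [PhiCut_sw h1, mul_assoc, PhiCut_one h3, h9, PhiCut_one h4, PhiCut_sw h6, PhiCut_sw h7,
    PhiCut_sw h8, PhiCut_one h5]

theorem PhiCut_phi_cons (Ω : E → ℕ → ℕ → Module.End K (ℕ → R)) (w wb : ℕ) (x : E) (ρ : List E)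
    (Y : ℕ → R) :
    Phi k kb Ω w wb (x :: ρ) Y = Phi k kb Ω (w + k x) (wb + kb x) ρ (Ω x w wb Y) := rfl

theorem PhiCut_phi_mul {ρ : List E} (hσ : ∀ e ∈ ρ, en (k e) (σ e) = kb e) {w w' wb : ℕ}
    {B : ℕ → R} (hB : T.Loc w w' B) (Y : ℕ → R) :
    Phi k kb (fun e w wb => Cut T (σ e) w (k e) wb (kb e)) w wb ρ (fun p => Y p * B p) =
      fun p => Phi k kb (fun e w wb => Cut T (σ e) w (k e) wb (kb e)) w' wb ρ Y p * B p := by
  induction ρ generalizing w w' wb Y with
  | nil => rfl
  | cons x ρ ih =>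
    rw [PhiCut_phi_cons, PhiCut_phi_cons, PhiCut_cut_mul (hσ x List.mem_cons_self) hB]
    exact ih (fun e he => hσ e (List.mem_cons_of_mem _ he)) (hB.padR (k x)) _

theorem PhiCut_phi_shift {ρ : List E} (hσ : ∀ e ∈ ρ, en (k e) (σ e) = kb e) {w wb r rb : ℕ}
    {y : ℕ → R} (hy : T.Loc (w + wid k ρ + r) (wb + wid kb ρ + rb) y) (n : ℕ) :
    Phi k kb (fun e w wb => Cut T (σ e) w (k e) wb (kb e)) (n + w) (n + wb) ρ
        (fun p => y (p + n)) =
      fun p => Phi k kb (fun e w wb => Cut T (σ e) w (k e) wb (kb e)) w wb ρ y (p + n) := by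
  induction ρ generalizing w wb y with
  | nil => rfl
  | cons x ρ ih =>
    rw [PhiCut_wid_cons, PhiCut_wid_cons] at hy
    rw [PhiCut_phi_cons, PhiCut_phi_cons, PhiCut_cut_shift (hσ x List.mem_cons_self) hy,
      add_assoc, add_assoc]
    have h1 := PhiCut_loc_cut (w := w) (wb := wb) (r := wid k ρ + r) (rb := wid kb ρ + rb)
      (hσ x List.mem_cons_self) (hy.cast (by omega) (by omega) fun _ => rfl)
    exact ih (fun e he => hσ e (List.mem_cons_of_mem _ he))
      (h1.cast (by omega) (by omega) fun _ => rfl)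

theorem PhiCut_gen {ρ : List E} (hσ : ∀ e ∈ ρ, en (k e) (σ e) = kb e) {m : ℕ} {Y : ℕ → R}
    (hY : T.Loc (m + wid k ρ) (wid kb ρ) Y) :
    Phi k kb (fun e w wb => Cut T (σ e) w (k e) wb (kb e)) m 0 ρ Y =
      EE T k kb σ m ρ (RR T k kb σ m ρ Y) := by
  induction ρ generalizing m Y with
  | nil => rfl
  | cons x ρ ih =>
    rw [PhiCut_wid_cons, PhiCut_wid_cons] at hY
    have hx := hσ x List.mem_cons_self
    have hρ : ∀ e ∈ ρ, en (k e) (σ e) = kb e := fun e he => hσ e (List.mem_cons_of_mem _ he)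
    have h1 := PhiCut_loc_step (m := m) (r := wid k ρ) (rb := wid kb ρ) hx
      (hY.cast (by omega) rfl fun _ => rfl)
    have h2 : Cut T (σ x) m (k x) 0 (kb x) Y = fun p =>
        ptr T (kb x) (fun q => Y q * T.crC false (k x) m q * Abs T (k x) (σ x) q) (p + kb x) *
          (Em T (k x) (σ x) p * T.crC true m (k x) p) := by
      funext p
      rw [PhiCut_apply, T.crC_zero_left]
      simp only [TL.crC, ptr, one_mul, mul_assoc]
    have h3 := PhiCut_phi_shift (w := (σ x).length + m) (wb := 0) (r := 0) (rb := 0) hρ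
      (h1.cast (by omega) (by omega) fun _ => rfl) (kb x)
    rw [PhiCut_phi_cons, h2, PhiCut_phi_mul hρ (PhiCut_loc_B hx m), zero_add]
    rw [add_zero] at h3
    rw [h3, ih hρ h1]
    funext p
    simp only [EE, RR, mul_assoc]

theorem Phi_cut {ρ : List E} (hσ : ∀ e ∈ ρ, en (k e) (σ e) = kb e) {Y : ℕ → R}
    (hY : T.Loc (wid k ρ) (wid kb ρ) Y) :
    Phi k kb (fun e w wb => Cut T (σ e) w (k e) wb (kb e)) 0 0 ρ Y =
      EE T k kb σ 0 ρ (RR T k kb σ 0 ρ Y) := PhiCut_gen hσ (hY.cast (by omega) rfl fun _ => rfl)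

end Pool.Agent.P.MP_53e370_gt.S
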