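import Pool.Agent.P.MP_53e370_gt.Defs

/-! Representations of the link group in `SU(2)` that send every framing curve to `±1`, read off
from a diagram. -/

namespace Pool.Agent.P.MP_53e370_gt.S

open Pool.Agent.P.MP_ac4909_gt

/-- the group `SU(2)` -/
abbrev SU : Type := Matrix.specialUnitaryGroup (Fin 2) ℂ

variable {ι : Type} [DecidableEq ι]

/-- The meridian of a strand of component `x.name` that carries the frame `t`, for the upward
direction of the strand: the conjugate of `μ x.name` (or its inverse, if the component runs
downwards there) by the frame. -/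
def mer (μ : ι → SU) (x : Arc ι) (t : SU) : SU :=
  t * (if x.up then μ x.name else (μ x.name)⁻¹) * t⁻¹

/-- `Framed μ v ts w ε`: the frames `ts` on the strands below the word `w` can be transported
upwards through `w`.  Both arms of a cup get the same (arbitrary) frame, a strand that passes
under another one has its frame multiplied by the meridian of the over-strand (or its inverse,
according to the direction), and the frames of the two arms of a cap agree up to a sign.  The
sign `ε` is the product of these signs over all caps of components in `v`. -/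
inductive Framed (μ : ι → SU) (v : Finset ι) : List SU → List (Sl (Arc ι)) → ℤˣ → Prop
  | nil : Framed μ v [] [] 1
  | cup (tl tr : List SU) (t : SU) (l r : List (Arc ι)) (o : Arc ι) (w : List (Sl (Arc ι)))
      (ε : ℤˣ) : tl.length = l.length → Framed μ v (tl ++ t :: t :: tr) w ε →
      Framed μ v (tl ++ tr) (⟨l, .cup o, r⟩ :: w) ε
  | cap (tl tr : List SU) (t t' : SU) (η : ℤˣ) (l r : List (Arc ι)) (o : Arc ι)
      (w : List (Sl (Arc ι))) (ε : ℤˣ) : tl.length = l.length → t'.1 = (η : ℤ) • t.1 →
      Framed μ v (tl ++ tr) w ε →
      Framed μ v (tl ++ t :: t' :: tr) (⟨l, .cap o, r⟩ :: w) ((if o.name ∈ v then η else 1) * ε)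
  | over (tl tr : List SU) (tx ty : SU) (l r : List (Arc ι)) (x y : Arc ι)
      (w : List (Sl (Arc ι))) (ε : ℤˣ) : tl.length = l.length →
      Framed μ v (tl ++ (mer μ x tx * ty) :: tx :: tr) w ε →
      Framed μ v (tl ++ tx :: ty :: tr) (⟨l, .cr x y true, r⟩ :: w) ε
  | under (tl tr : List SU) (tx ty : SU) (l r : List (Arc ι)) (x y : Arc ι)
      (w : List (Sl (Arc ι))) (ε : ℤˣ) : tl.length = l.length →
      Framed μ v (tl ++ ty :: ((mer μ y ty)⁻¹ * tx) :: tr) w ε →
      Framed μ v (tl ++ tx :: ty :: tr) (⟨l, .cr x y false, r⟩ :: w) ε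

end Pool.Agent.P.MP_53e370_gt.S
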