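import Pool.Agent.P.MP_53e370_gt.S.PiDefs
import Pool.Agent.P.MP_53e370_gt.S.Stmt
import Pool.Agent.P.MP_ac4909_gt.Words

/-! Transport of frames through a diagram, row by row; changes of sign. -/

namespace Pool.Agent.P.MP_53e370_gt.S

open Pool.Agent.P.MP_ac4909_gt

variable {ι α : Type}

section Grp
variable {G H : Type} [Group G] [Group H]

/-- meridian of a strand with a frame -/
def gm (μ : ι → G) (x : Arc ι) (t : G) : G := t * (if x.up then μ x.name else (μ x.name)⁻¹) * t⁻¹

theorem map_gm (φ : G →* H) (μ : ι → G) (x : Arc ι) (t : G) :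
    φ (gm μ x t) = gm (fun i => φ (μ i)) x (φ t) := by
  unfold gm
  split_ifs <;> simp

theorem me_eq (x : Arc ι) (t : FG ι) : me x t = gm (fun i => FreeGroup.of (.inl i)) x t := rfl

/-- frames above a generator from the frames below -/
def gst (μ : ι → G) (c : G) (p : ℕ) (t : ℕ → G) (j : ℕ) : Gen (Arc ι) → G
  | .cup _ => if j < p then t j else if j < p + 2 then c else t (j - 2)
  | .cap _ => if j < p then t j else t (j + 2)
  | .cr x _ true => if j = p then gm μ x (t p) * t (p + 1) else if j = p + 1 then t p else t j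
  | .cr _ y false =>
    if j = p then t (p + 1) else if j = p + 1 then (gm μ y (t (p + 1)))⁻¹ * t p else t j

theorem gst_left (μ : ι → G) (c : G) {p j : ℕ} (t : ℕ → G) (g : Gen (Arc ι)) (h : j < p) :
    gst μ c p t j g = t j := by
  rcases g with o | o | ⟨x, y, _ | _⟩ <;> simp only [gst] <;> split_ifs <;>
    first | rfl | omega

theorem gst_right (μ : ι → G) (c : G) (p j : ℕ) (t : ℕ → G) (g : Gen (Arc ι)) :
    gst μ c p t (p + g.tgt.length + j) g = t (p + g.src.length + j) := by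
  rcases g with o | o | ⟨x, y, _ | _⟩
  · change gst μ c p t (p + 2 + j) _ = t (p + j)
    rw [gst, if_neg (by omega), if_neg (by omega)]
    congr 1
    omega
  · change gst μ c p t (p + j) _ = t (p + 2 + j)
    rw [gst, if_neg (by omega)]
    congr 1
    omega
  · change gst μ c p t (p + 2 + j) _ = t (p + 2 + j)
    rw [gst, if_neg (by omega), if_neg (by omega)]
  · change gst μ c p t (p + 2 + j) _ = t (p + 2 + j)
    rw [gst, if_neg (by omega), if_neg (by omega)]

/-- the frames of row `n` -/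
def rws (L : List (Sl (Arc ι))) (μ : ι → G) (c : ℕ → G) : ℕ → ℕ → G
  | 0, _ => 1
  | n + 1, j => (L[n]?).elim 1 fun s => gst μ (c n) s.l.length (rws L μ c n) j s.g

variable {L : List (Sl (Arc ι))}

theorem rws_succ (μ : ι → G) (c : ℕ → G) {n : ℕ} {s : Sl (Arc ι)} (h : L[n]? = some s) (j : ℕ) :
    rws L μ c (n + 1) j = gst μ (c n) s.l.length (rws L μ c n) j s.g := by
  rw [rws, h]; rfl

theorem rws_hom (φ : FG ι →* H) (hφ : ∀ a b, PiEq L a b → φ a = φ b) (π : G →* H) {μ : ι → G}
    {c : ℕ → G} (hμ : ∀ i, π (μ i) = φ (FreeGroup.of (.inl i)))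
    (hc : ∀ n s, L[n]? = some s → π (c n) = φ (fr (n + 1) s.l.length)) (n : ℕ) :
    ∀ j, π (rws L μ c n j) = φ (fr n j) := by
  induction n with
  | zero => intro j; rw [hφ _ _ (.bot j), rws, map_one, map_one]
  | succ n ih =>
    intro j
    rcases h : L[n]? with _ | s
    · rw [hφ _ _ (.top n j (List.getElem?_eq_none_iff.1 h)), rws, h, map_one]
      exact map_one π
    rw [rws_succ μ c h]
    rcases Nat.lt_or_ge j s.l.length with h1 | h1
    · rw [gst_left _ _ _ _ h1, ih, hφ _ _ (.left n j s h h1)]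
    rcases Nat.lt_or_ge j (s.l.length + s.g.tgt.length) with h2 | h2
    swap
    · obtain ⟨k, rfl⟩ := Nat.exists_eq_add_of_le h2
      rw [gst_right, ih, hφ _ _ (.right n k s h)]
    have hg := fun a b hab => hφ a b (.gen n s a b h hab)
    have hc' := hc n s h
    have hm : ∀ x t t', π t = φ t' → π (gm μ x t) = φ (me x t') := fun x t t' e => by
      rw [me_eq, map_gm, map_gm, e, funext hμ]
    obtain ⟨l, g, r⟩ := s
    have h3 : g.tgt.length ≤ 2 := by cases g <;> simp [Gen.tgt]
    have h4 : j = l.length ∨ j = l.length + 1 := by simp only at h1 h2; omega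
    rcases g with o | o | ⟨x, y, _ | _⟩ <;>
      simp only [gEq, List.mem_cons, Prod.mk.injEq, List.not_mem_nil, or_false] at hg
    · rcases h4 with rfl | rfl
      · simpa [gst] using hc'
      · rw [hg _ _ ⟨rfl, rfl⟩]
        simpa [gst] using hc'
    · simp only [Gen.tgt, List.length_nil] at h1 h2
      omega
    · rcases h4 with rfl | rfl
      · rw [hg _ _ (.inl ⟨rfl, rfl⟩)]
        simp [gst, ih]
      · rw [hg _ _ (.inr ⟨rfl, rfl⟩)]
        simp [gst, ih, hm y _ _ (ih _)]
    · rcases h4 with rfl | rfl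
      · rw [hg _ _ (.inr ⟨rfl, rfl⟩)]
        simp [gst, ih, hm x _ _ (ih _)]
      · rw [hg _ _ (.inl ⟨rfl, rfl⟩)]
        simp [gst, ih]

theorem rws_lift (μ : ι → G) (c : ℕ → G)
    (hcap : ∀ n l o r, L[n]? = some ⟨l, .cap o, r⟩ →
      rws L μ c n (l.length + 1) = rws L μ c n l.length)
    (hbase : ∀ n l o r, L[n]? = some ⟨l, .cup o, r⟩ →
      (∀ s ∈ L.take n, ∀ b, s.g ≠ .cup ⟨o.name, b⟩) → c n = 1) {a b : FG ι} (h : PiEq L a b) :
    FreeGroup.lift (Sum.elim μ fun x : ℕ × ℕ => rws L μ c x.1 x.2) a =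
      FreeGroup.lift (Sum.elim μ fun x : ℕ × ℕ => rws L μ c x.1 x.2) b := by
  have hf : ∀ n j, FreeGroup.lift (Sum.elim μ fun x : ℕ × ℕ => rws L μ c x.1 x.2) (fr n j) =
      rws L μ c n j := fun n j => by simp [fr]
  have hm : ∀ x t, FreeGroup.lift (Sum.elim μ fun x : ℕ × ℕ => rws L μ c x.1 x.2) (me x t) =
      gm μ x (FreeGroup.lift (Sum.elim μ fun x : ℕ × ℕ => rws L μ c x.1 x.2) t) := fun x t => by
    rw [me_eq, map_gm]
    simp
  cases h with
  | bot j => rw [hf, map_one, rws]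
  | top n j h => rw [hf, map_one, rws, List.getElem?_eq_none_iff.2 h]; rfl
  | left n j s h h1 => rw [hf, hf, rws_succ μ c h, gst_left _ _ _ _ h1]
  | right n j s h => rw [hf, hf, rws_succ μ c h, gst_right]
  | base n l r o h h1 =>
    rw [hf, map_one, rws_succ μ c h, hbase n l o r h h1]
    simp [gst]
  | gen n s a b h hab =>
    obtain ⟨l, g, r⟩ := s
    rcases g with o | o | ⟨x, y, _ | _⟩ <;>
      simp only [gEq, List.mem_cons, Prod.mk.injEq, List.not_mem_nil, or_false] at hab
    · obtain ⟨rfl, rfl⟩ := hab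
      simp [hf, rws_succ μ c h, gst]
    · obtain ⟨rfl, rfl⟩ := hab
      rw [hf, hf, hcap n l o r h]
    · rcases hab with ⟨rfl, rfl⟩ | ⟨rfl, rfl⟩ <;> simp [hf, hm, rws_succ μ c h, gst]
    · rcases hab with ⟨rfl, rfl⟩ | ⟨rfl, rfl⟩ <;> simp [hf, hm, rws_succ μ c h, gst]

end Grp

/-- a class modulo two as a sign -/
def un (a : ZMod 2) : ℤˣ := if a = 0 then 1 else -1

theorem un_add (a b : ZMod 2) : un (a + b) = un a * un b := by
  revert a b; decide

/-- a class modulo two as a central element -/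
noncomputable def zs (a : ZMod 2) : SU :=
  ⟨(un a : ℤ) • 1, by
    rw [Matrix.mem_specialUnitaryGroup_iff, Matrix.mem_unitaryGroup_iff]
    rcases Int.units_eq_one_or (un a) with h | h <;> simp [h, Matrix.det_fin_two]⟩

theorem zs_mul_val (a : ZMod 2) (g : SU) : (zs a * g).1 = (un a : ℤ) • g.1 := by
  simp [zs]

theorem zs_comm (a : ZMod 2) (g : SU) : g * zs a = zs a * g :=
  Subtype.ext (by
    rw [zs_mul_val]
    change g.1 * ((un a : ℤ) • 1) = _
    rw [Matrix.mul_smul, mul_one])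

theorem zs_lc (g : SU) (a : ZMod 2) (h : SU) : g * (zs a * h) = zs a * (g * h) := by
  rw [← mul_assoc, zs_comm, mul_assoc]

theorem zs_add (a b : ZMod 2) : zs (a + b) = zs a * zs b :=
  Subtype.ext (by rw [zs_mul_val]; simp [zs, un_add])

theorem zs_zero : zs 0 = 1 := Subtype.ext (by simp [zs, un])

theorem zs_inv (a : ZMod 2) : (zs a)⁻¹ = zs a := by
  rw [inv_eq_iff_mul_eq_one, ← zs_add, CharTwo.add_self_eq_zero, zs_zero]

theorem zs_mem (a : ZMod 2) : zs a ∈ Subgroup.center SU :=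
  Subgroup.mem_center_iff.2 fun g => zs_comm a g

theorem center_su {g : SU} (h : g ∈ Subgroup.center SU) : ∃ a, g = zs a := by
  rw [Subgroup.mem_center_iff] at h
  let d : SU := ⟨!![Complex.I, 0; 0, -Complex.I], by
    rw [Matrix.mem_specialUnitaryGroup_iff, Matrix.mem_unitaryGroup_iff]
    refine ⟨?_, by simp [Matrix.det_fin_two]⟩
    ext i j
    fin_cases i <;> fin_cases j <;> simp [Matrix.mul_apply, Fin.sum_univ_two]⟩
  let e : SU := ⟨!![0, -1; 1, 0], by
    rw [Matrix.mem_specialUnitaryGroup_iff, Matrix.mem_unitaryGroup_iff]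
    refine ⟨?_, by simp [Matrix.det_fin_two]⟩
    ext i j
    fin_cases i <;> fin_cases j <;> simp [Matrix.mul_apply, Fin.sum_univ_two]⟩
  have h1 := congrFun (congrFun (congrArg Subtype.val (h d)) 0) 1
  have h2 := congrFun (congrFun (congrArg Subtype.val (h d)) 1) 0
  have h3 := congrFun (congrFun (congrArg Subtype.val (h e)) 0) 1
  simp [d, e, Matrix.mul_apply, Fin.sum_univ_two] at h1 h2 h3
  have h4 : g.1 0 1 = 0 := by
    have : (2 * Complex.I) * g.1 0 1 = 0 := by linear_combination h1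
    simpa using this
  have h5 : g.1 1 0 = 0 := by
    have : (2 * Complex.I) * g.1 1 0 = 0 := by linear_combination -h2
    simpa using this
  have h6 := (Matrix.mem_specialUnitaryGroup_iff.1 g.2).2
  rw [Matrix.det_fin_two, h4, h3, zero_mul, sub_zero, mul_self_eq_one_iff] at h6
  rcases h6 with h6 | h6
  · refine ⟨0, Subtype.ext ?_⟩
    ext i j
    fin_cases i <;> fin_cases j <;> simp [zs, un, h3, h4, h5, h6]
  · refine ⟨1, Subtype.ext ?_⟩
    ext i j
    fin_cases i <;> fin_cases j <;> simp [zs, un, h3, h4, h5, h6]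

theorem gm_sign (μ : ι → SU) (σ : ι → ZMod 2) (x : Arc ι) (a : ZMod 2) (t : SU) :
    gm (fun i => zs (σ i) * μ i) x (zs a * t) = zs (σ x.name) * gm μ x t := by
  have h : ∀ u : SU, zs a * t * (zs (σ x.name) * u) * (zs a * t)⁻¹ =
      zs (σ x.name) * (t * u * t⁻¹) := fun u => by
    rw [← zs_comm a, mul_inv_rev, mul_assoc t, ← zs_comm a, mul_assoc t, mul_assoc _ (zs a),
      mul_inv_cancel_left, ← mul_assoc, ← mul_assoc, zs_comm]
    simp only [mul_assoc]
  unfold gm
  split_ifs
  · exact h _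
  · rw [mul_inv_rev, zs_inv (σ _), zs_comm (σ _)]
    exact h _

/-- transport of signs through a generator -/
def lin (p : ℕ) (g : Gen α) : (ℕ → ZMod 2) →ₗ[ZMod 2] ℕ → ZMod 2 where
  toFun a j := match g with
    | .cup _ => if j < p then a j else if j < p + 2 then 0 else a (j - 2)
    | .cap _ => if j < p then a j else a (j + 2)
    | .cr _ _ _ => if j = p then a (p + 1) else if j = p + 1 then a p else a j
  map_add' a b := funext fun j => by
    cases g <;> simp only [Pi.add_apply] <;> split_ifs <;> simp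
  map_smul' c a := funext fun j => by
    cases g <;> simp only [Pi.smul_apply, RingHom.id_apply] <;> split_ifs <;> simp

/-- new signs at a generator -/
def inh (n p : ℕ) : Gen (Arc ι) → (ι ⊕ ℕ → ZMod 2) →ₗ[ZMod 2] ℕ → ZMod 2
  | .cup _ => (LinearMap.proj (.inr n)).smulRight (Pi.single p 1 + Pi.single (p + 1) 1)
  | .cap _ => 0
  | .cr x _ true => (LinearMap.proj (.inl x.name)).smulRight (Pi.single p 1)
  | .cr _ y false => (LinearMap.proj (.inl y.name)).smulRight (Pi.single (p + 1) 1)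

theorem gst_sign (μ : ι → SU) (c : SU) (x : ι ⊕ ℕ → ZMod 2) (n p : ℕ) (t : ℕ → SU)
    (a : ℕ → ZMod 2) (j : ℕ) (g : Gen (Arc ι)) :
    gst (fun i => zs (x (.inl i)) * μ i) (zs (x (.inr n)) * c) p (fun j => zs (a j) * t j) j g =
      zs (lin p g a j + inh n p g x j) * gst μ c p t j g := by
  rcases g with o | o | ⟨y, z, _ | _⟩ <;>
    simp only [gst, lin, inh, LinearMap.coe_mk, AddHom.coe_mk, LinearMap.smulRight_apply,
      LinearMap.proj_apply, Pi.smul_apply, Pi.add_apply, Pi.single_apply, smul_eq_mul,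
      LinearMap.zero_apply, Pi.zero_apply, gm_sign] <;>
    split_ifs <;> first | omega | simp [zs_add, zs_inv, mul_assoc]
  · rw [zs_lc _ (x _), zs_lc _ (a _), zs_lc _ (a _)]
  · rw [zs_lc _ (a _), zs_lc _ (a _)]

/-- the signs of row `n` -/
def sr (L : List (Sl (Arc ι))) : ℕ → (ι ⊕ ℕ → ZMod 2) →ₗ[ZMod 2] ℕ → ZMod 2
  | 0 => 0
  | n + 1 => (L[n]?).elim 0 fun s => lin s.l.length s.g ∘ₗ sr L n + inh n s.l.length s.g

theorem sr_succ {L : List (Sl (Arc ι))} {n : ℕ} {s : Sl (Arc ι)} (h : L[n]? = some s)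
    (x : ι ⊕ ℕ → ZMod 2) :
    sr L (n + 1) x = lin s.l.length s.g (sr L n x) + inh n s.l.length s.g x := by
  rw [sr, h]; rfl

theorem rws_sign (L : List (Sl (Arc ι))) (μ : ι → SU) (c : ℕ → SU) (x : ι ⊕ ℕ → ZMod 2) (n : ℕ) :
    rws L (fun i => zs (x (.inl i)) * μ i) (fun n => zs (x (.inr n)) * c n) n =
      fun j => zs (sr L n x j) * rws L μ c n j := by
  induction n with
  | zero => funext j; simp [rws, sr, zs_zero]
  | succ n ih =>
    funext j
    rcases h : L[n]? with _ | s
    · simp [rws, sr, h, zs_zero]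
    · rw [rws_succ _ _ h, rws_succ _ _ h, sr_succ h, ih, gst_sign, Pi.add_apply]

end Pool.Agent.P.MP_53e370_gt.S
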