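import Pool.Agent.P.MP_53e370_gt.S.PiA

/-! The obstruction to lifting frames: duality modulo two. -/

namespace Pool.Agent.P.MP_53e370_gt.S

open Pool.Agent.P.MP_ac4909_gt Rev

variable {ι α β : Type}

/-- the first `m` values -/
def Rw (t : ℕ → β) (m : ℕ) : List β := (List.range m).map t

theorem Rw_length (t : ℕ → β) (m : ℕ) : (Rw t m).length = m := by simp [Rw]

theorem Rw_add (t : ℕ → β) (m k : ℕ) : Rw t (m + k) = Rw t m ++ Rw (fun j => t (m + j)) k := by
  simp [Rw, List.range_add, Function.comp_def]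

theorem Rw_congr {t t' : ℕ → β} {m : ℕ} (h : ∀ j < m, t j = t' j) : Rw t m = Rw t' m :=
  List.map_congr_left fun j hj => h j (List.mem_range.1 hj)

theorem Rw_split (t : ℕ → β) (l m r : List α) : Rw t (l ++ m ++ r).length = Rw t l.length ++
    Rw (fun j => t (l.length + j)) m.length ++
      Rw (fun j => t (l.length + m.length + j)) r.length := by
  rw [List.length_append, List.length_append, Rw_add, Rw_add]

theorem Rw_two (t : ℕ → β) (x y : α) : Rw t [x, y].length = [t 0, t 1] := rfl

theorem Rw_nil (t : ℕ → β) : Rw t ([] : List α).length = [] := rfl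

theorem drop_cons {L w : List α} {s : α} {n : ℕ} (h : L.drop n = s :: w) :
    L[n]? = some s ∧ L.drop (n + 1) = w := by
  constructor
  · have := congrArg (·[0]?) h
    simpa using this
  · rw [List.drop_add_one_eq_tail_drop, h, List.tail_cons]

variable {L : List (Sl (Arc ι))}

/-- the defects of the caps of the sublink `v` -/
def capS [DecidableEq ι] (v : Finset ι) (η : ℕ → ZMod 2) : List (Sl (Arc ι)) → ℕ → ZMod 2
  | [], _ => 0
  | ⟨_, .cap o, _⟩ :: w, n => (if o.name ∈ v then η n else 0) + capS v η w (n + 1)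
  | _ :: w, n => capS v η w (n + 1)

theorem framed_rws [DecidableEq ι] (v : Finset ι) (μ : ι → SU) (c : ℕ → SU) (η : ℕ → ZMod 2)
    (hη : ∀ m l o r, L[m]? = some ⟨l, .cap o, r⟩ →
      rws L μ c m (l.length + 1) = zs (η m) * rws L μ c m l.length) :
    ∀ (w : List (Sl (Arc ι))) (n : ℕ) (ρ : List (Arc ι)), L.drop n = w → Run ρ w [] →
      Framed μ v (Rw (rws L μ c n) ρ.length) w (un (capS v η w n))
  | [], n, ρ, _, h => by
    obtain rfl : ρ = [] := h
    exact Framed.nil
  | ⟨l, g, r⟩ :: w, n, ρ, hd, h => by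
    obtain ⟨rfl, h⟩ := h
    obtain ⟨h1, h2⟩ := drop_cons hd
    have ih := framed_rws v μ c η hη w (n + 1) _ h2 h
    rw [Sl.tgt, Rw_split, Rw_congr (fun j hj => (rws_succ μ c h1 j).trans (gst_left _ _ _ _ hj)),
      Rw_congr (t := fun j => rws L μ c (n + 1) (l.length + g.tgt.length + j))
        (fun j _ => (rws_succ μ c h1 _).trans (gst_right _ _ _ _ _ _))] at ih
    rw [Sl.src, Rw_split]
    simp only [rws_succ μ c h1] at ih
    rcases g with o | o | ⟨x, y, _ | _⟩ <;>
      simp only [Gen.src, Gen.tgt, Rw_two, Rw_nil, List.append_nil, List.append_assoc,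
        List.cons_append, List.nil_append, capS] at ih ⊢
    · refine Framed.cup _ _ (c n) l r o w _ (Rw_length _ _) ?_
      simpa [gst] using ih
    · have := Framed.cap _ _ (rws L μ c n l.length) (rws L μ c n (l.length + 1)) (un (η n)) l r o
        w _ (Rw_length _ _) (by rw [hη n l o r h1, zs_mul_val]) ih
      rw [un_add, apply_ite un]
      exact this
    · refine Framed.under _ _ _ _ l r x y w _ (Rw_length _ _) ?_
      simpa [gst, gm, mer] using ih
    · refine Framed.over _ _ _ _ l r x y w _ (Rw_length _ _) ?_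
      simpa [gst, gm, mer] using ih

/-- the sum of the signs of the arms of a cap -/
def capF (p : ℕ) : Gen α → (ℕ → ZMod 2) →ₗ[ZMod 2] ZMod 2
  | .cap _ => LinearMap.proj (R := ZMod 2) (φ := fun _ => ZMod 2) p +
      LinearMap.proj (R := ZMod 2) (φ := fun _ => ZMod 2) (p + 1)
  | _ => 0

/-- the change of the defect of the cap in slice `n` -/
def dfc (L : List (Sl (Arc ι))) (n : ℕ) : (ι ⊕ ℕ → ZMod 2) →ₗ[ZMod 2] ZMod 2 :=
  (L[n]?).elim 0 fun s => capF s.l.length s.g ∘ₗ sr L n

theorem dfc_some {n : ℕ} {s : Sl (Arc ι)} (h : L[n]? = some s) (x : ι ⊕ ℕ → ZMod 2) :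
    dfc L n x = capF s.l.length s.g (sr L n x) := by
  rw [dfc, h]; rfl

theorem lin_left {p j : ℕ} (g : Gen α) (a : ℕ → ZMod 2) (h : j < p) : lin p g a j = a j := by
  cases g <;> simp only [lin, LinearMap.coe_mk, AddHom.coe_mk] <;> split_ifs <;>
    first | rfl | omega

theorem lin_right [Rev α] (p j : ℕ) (g : Gen α) (a : ℕ → ZMod 2) :
    lin p g a (p + g.tgt.length + j) = a (p + g.src.length + j) := by
  rcases g with o | o | ⟨x, y, b⟩
  · change (if p + 2 + j < p then _ else if p + 2 + j < p + 2 then _ else a (p + 2 + j - 2)) =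
      a (p + j)
    rw [if_neg (by omega), if_neg (by omega)]
    congr 1
    omega
  · change (if p + j < p then _ else a (p + j + 2)) = a (p + 2 + j)
    rw [if_neg (by omega)]
    congr 1
    omega
  · change (if p + 2 + j = p then _ else if p + 2 + j = p + 1 then _ else a (p + 2 + j)) =
      a (p + 2 + j)
    rw [if_neg (by omega), if_neg (by omega)]

/-- changing all frames of a component does not change the defects -/
theorem dfc_gauge (γ : ι → ZMod 2) (x : ι ⊕ ℕ → ZMod 2) (h0 : ∀ i, x (.inl i) = 0)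
    (hx : ∀ n l o r, L[n]? = some ⟨l, .cup o, r⟩ → x (.inr n) = γ o.name) :
    ∀ (w : List (Sl (Arc ι))) (n : ℕ) (ρ : List (Arc ι)), L.drop n = w → Run ρ w [] →
      Rw (sr L n x) ρ.length = ρ.map (fun a => γ a.name) → ∀ m, n ≤ m → dfc L m x = 0
  | [], n, ρ, hd, _, _, m, hm => by
    rw [dfc, List.getElem?_eq_none_iff.2 ((List.drop_eq_nil_iff.1 hd).trans hm)]
    rfl
  | ⟨l, g, r⟩ :: w, n, ρ, hd, h, ha, m, hm => by
    obtain ⟨rfl, h⟩ := h
    obtain ⟨h1, h2⟩ := drop_cons hd
    rw [Sl.src, Rw_split, List.map_append, List.map_append] at ha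
    obtain ⟨h3, a3⟩ := List.append_inj ha (by simp [Rw_length])
    obtain ⟨a1, a2⟩ := List.append_inj h3 (by simp [Rw_length])
    rcases hm.eq_or_lt with rfl | hm
    · rw [dfc_some h1]
      rcases g with o | o | ⟨x, y, b⟩
      · rfl
      · simp only [Gen.src, Rw_two, List.map_cons, List.map_nil, List.cons.injEq, rev_name,
          and_true, add_zero] at a2
        simp only [capF, LinearMap.add_apply, LinearMap.proj_apply, a2.1, a2.2]
        exact CharTwo.add_self_eq_zero _
      · rfl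
    refine dfc_gauge γ x h0 hx w (n + 1) _ h2 h ?_ m hm
    have hi : ∀ j, j < l.length ∨ l.length + g.tgt.length ≤ j → inh n l.length g x j = 0 := by
      intro j hj
      rcases g with o | o | ⟨y, z, _ | _⟩ <;> simp only [Gen.tgt, List.length_cons,
        List.length_nil] at hj <;> simp [inh, h0]
      rw [Pi.single_eq_of_ne (by omega), Pi.single_eq_of_ne (by omega)]
      simp
    rw [Sl.tgt, Rw_split, List.map_append, List.map_append, ← a1, ← a3, sr_succ h1]
    congr 1
    congr 1
    · exact Rw_congr fun j hj => by rw [Pi.add_apply, lin_left _ _ hj, hi j (.inl hj), add_zero]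
    · rcases g with o | o | ⟨y, z, b⟩
      · simp [Gen.tgt, Rw, List.range_succ, lin, inh, hx n l o r h1]
      · rfl
      · simp only [Gen.src, Rw_two, List.map_cons, List.map_nil, List.cons.injEq,
          and_true, add_zero] at a2
        cases b <;> simp [Gen.tgt, Rw, List.range_succ, lin, inh, h0, a2.1, a2.2]
    · exact Rw_congr fun j _ => by
        rw [Pi.add_apply, lin_right, hi _ (.inr (Nat.le_add_right _ _)), add_zero]

variable (wt : ℕ → ZMod 2)

/-- the weighted sum of the defects caused by the signs of the lowest row -/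
def FF : List (Sl α) → ℕ → (ℕ → ZMod 2) →ₗ[ZMod 2] ZMod 2
  | [], _ => 0
  | s :: w, n => wt n • capF s.l.length s.g + FF w (n + 1) ∘ₗ lin s.l.length s.g

/-- the weighted sum of the defects caused by the new signs -/
def Rm : List (Sl (Arc ι)) → ℕ → (ι ⊕ ℕ → ZMod 2) → ZMod 2
  | [], _, _ => 0
  | s :: w, n, x => FF wt w (n + 1) (inh n s.l.length s.g x) + Rm w (n + 1) x

theorem sum_dfc (x : ι ⊕ ℕ → ZMod 2) : ∀ (w : List (Sl (Arc ι))) (n : ℕ), L.drop n = w →
    ∑ m ∈ Finset.range w.length, wt (n + m) * dfc L (n + m) x = FF wt w n (sr L n x) + Rm wt w n x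
  | [], n, _ => by simp [FF, Rm]
  | s :: w, n, hd => by
    obtain ⟨h1, h2⟩ := drop_cons hd
    have ih := sum_dfc x w (n + 1) h2
    rw [sr_succ h1, map_add] at ih
    rw [List.length_cons, Finset.sum_range_succ', add_zero, dfc_some h1, FF, Rm]
    simp only [← add_assoc, add_right_comm n _ 1] at ih ⊢
    rw [ih]
    simp only [LinearMap.add_apply, LinearMap.smul_apply, LinearMap.comp_apply, smul_eq_mul]
    ring

/-- the mark of strand `j` -/
def mk (w : List (Sl α)) (n j : ℕ) : ZMod 2 := FF wt w n (Pi.single j 1)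

theorem mk_left {s : Sl α} (w : List (Sl α)) (n : ℕ) {j : ℕ} (h : j < s.l.length) :
    mk wt (s :: w) n j = mk wt w (n + 1) j := by
  obtain ⟨l, g, r⟩ := s
  have h1 : lin l.length g (Pi.single j 1) = Pi.single j 1 := funext fun k => by
    cases g <;> simp only [lin, LinearMap.coe_mk, AddHom.coe_mk, Pi.single_apply] at h ⊢ <;>
      split_ifs <;> first | rfl | omega
  have h2 : capF l.length g (Pi.single j 1) = 0 := by
    cases g <;> simp [capF, Pi.single_eq_of_ne' h.ne, Pi.single_eq_of_ne' (Nat.lt_succ_of_lt h).ne]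
  simp [mk, FF, h1, h2]

theorem mk_right [Rev α] (s : Sl α) (w : List (Sl α)) (n j : ℕ) :
    mk wt (s :: w) n (s.l.length + s.g.src.length + j) =
      mk wt w (n + 1) (s.l.length + s.g.tgt.length + j) := by
  obtain ⟨l, g, r⟩ := s
  have h1 : ∀ a b, a = g.src.length → b = g.tgt.length →
      lin l.length g (Pi.single (l.length + a + j) 1) = Pi.single (l.length + b + j) 1 ∧
      capF l.length g (Pi.single (l.length + a + j) 1) = 0 := by
    intro a b ha hb
    refine ⟨funext fun k => ?_, ?_⟩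
    · cases g <;> simp only [Gen.src, Gen.tgt, List.length_cons, List.length_nil] at ha hb <;>
        simp only [lin, LinearMap.coe_mk, AddHom.coe_mk, Pi.single_apply] <;>
        split_ifs <;> first | rfl | omega
    · cases g with
      | cap o =>
        simp only [Gen.src, List.length_cons, List.length_nil] at ha
        simp only [capF, LinearMap.add_apply, LinearMap.proj_apply]
        rw [Pi.single_eq_of_ne (by omega), Pi.single_eq_of_ne (by omega), add_zero]
      | _ => rfl
  simp [mk, FF, (h1 _ _ rfl rfl).1, (h1 _ _ rfl rfl).2]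

theorem mk_cap (l r : List α) (o : α) (w : List (Sl α)) (n : ℕ) {j : ℕ}
    (h : j = l.length ∨ j = l.length + 1) : mk wt (⟨l, .cap o, r⟩ :: w) n j = wt n := by
  have h1 : lin l.length (.cap o) (Pi.single j 1) = 0 := funext fun k => by
    simp only [lin, LinearMap.coe_mk, AddHom.coe_mk, Pi.single_apply, Pi.zero_apply]
    split_ifs <;> first | rfl | omega
  rcases h with rfl | rfl <;> simp [mk, FF, h1, capF]

theorem mk_cr (l r : List α) (x y : α) (b : Bool) (w : List (Sl α)) (n : ℕ) :
    mk wt (⟨l, .cr x y b, r⟩ :: w) n l.length = mk wt w (n + 1) (l.length + 1) ∧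
      mk wt (⟨l, .cr x y b, r⟩ :: w) n (l.length + 1) = mk wt w (n + 1) l.length := by
  have h1 : lin l.length (.cr x y b) (Pi.single l.length 1) = Pi.single (l.length + 1) 1 :=
    funext fun k => by
      simp only [lin, LinearMap.coe_mk, AddHom.coe_mk, Pi.single_apply]
      split_ifs <;> first | rfl | omega
  have h2 : lin l.length (.cr x y b) (Pi.single (l.length + 1) 1) = Pi.single l.length 1 :=
    funext fun k => by
      simp only [lin, LinearMap.coe_mk, AddHom.coe_mk, Pi.single_apply]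
      split_ifs <;> first | rfl | omega
  simp [mk, FF, h1, h2, capF]

/-- both arms of every cup have the same mark -/
def CupOK : List (Sl α) → ℕ → Prop
  | [], _ => True
  | s :: w, n => (∀ o, s.g = .cup o →
      mk wt w (n + 1) (s.l.length + 1) = mk wt w (n + 1) s.l.length) ∧ CupOK w (n + 1)

theorem Rm_congr {x y : ι ⊕ ℕ → ZMod 2} (h : ∀ i, x (.inl i) = y (.inl i)) :
    ∀ (w : List (Sl (Arc ι))) (n : ℕ), (∀ m, n ≤ m → x (.inr m) = y (.inr m)) →
      Rm wt w n x = Rm wt w n y
  | [], _, _ => rfl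
  | ⟨l, g, r⟩ :: w, n, h' => by
    rw [Rm, Rm, Rm_congr h w (n + 1) fun m hm => h' m (by omega)]
    rcases g with o | o | ⟨x, y, _ | _⟩ <;> simp [inh, h, h' n le_rfl]

theorem Rm_zero : ∀ (w : List (Sl (Arc ι))) (n : ℕ), Rm wt w n 0 = 0
  | [], _ => rfl
  | s :: w, n => by rw [Rm, Rm_zero w, map_zero, map_zero, add_zero]

theorem cupOK_of : ∀ (w : List (Sl (Arc ι))) (n : ℕ),
    (∀ u : ℕ → ZMod 2, Rm wt w n (Sum.elim 0 u) = 0) → CupOK wt w n
  | [], _, _ => trivial
  | ⟨l, g, r⟩ :: w, n, h => by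
    refine ⟨?_, cupOK_of w (n + 1) fun u => ?_⟩
    · rintro o rfl
      have h1 := h (Pi.single n 1)
      rw [Rm, Rm_congr wt (x := Sum.elim 0 _) (y := 0) (fun _ => rfl) w (n + 1) (fun m hm => by
        simp [Pi.single_eq_of_ne (by omega : m ≠ n)]), Rm_zero] at h1
      simp only [inh, LinearMap.smulRight_apply, LinearMap.proj_apply, Sum.elim_inr,
        Pi.single_eq_same, one_smul, map_add, add_zero] at h1
      exact (CharTwo.add_eq_zero.1 h1).symm
    · have h1 := h (Function.update u n 0)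
      rw [Rm, Rm_congr wt (x := Sum.elim 0 (Function.update u n 0)) (y := Sum.elim 0 u)
        (fun _ => rfl) w (n + 1) (fun m hm => by
        simp [Function.update_of_ne (by omega : m ≠ n)])] at h1
      rcases g with o | o | ⟨x, y, _ | _⟩ <;> simpa [inh] using h1

/-- a row with marks -/
def mz (ρ : List α) (M : ℕ → ZMod 2) : List (α × ℕ) := ρ.zip (Rw (fun j => (M j).val) ρ.length)

theorem mz_fst (ρ : List α) (M : ℕ → ZMod 2) : (mz ρ M).map Prod.fst = ρ :=
  List.map_fst_zip (by rw [Rw_length])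

theorem mz_split (l m r : List α) (M : ℕ → ZMod 2) : mz (l ++ m ++ r) M =
    mz l M ++ mz m (fun j => M (l.length + j)) ++ mz r fun j => M (l.length + m.length + j) := by
  rw [mz, Rw_split, List.zip_append (by simp [Rw_length]), List.zip_append (by simp [Rw_length])]
  rfl

theorem mz_congr {ρ : List α} {M M' : ℕ → ZMod 2} (h : ∀ j < ρ.length, M j = M' j) :
    mz ρ M = mz ρ M' := by
  rw [mz, mz, Rw_congr fun j hj => by rw [h j hj]]

/-- a generator with marks -/
def mg (a : ZMod 2) (M : ℕ → ZMod 2) (p : ℕ) : Gen α → Gen (α × ℕ)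
  | .cup o => .cup (o, (M p).val)
  | .cap o => .cap (o, a.val)
  | .cr x y b => .cr (x, (M (p + 1)).val) (y, (M p).val) b

/-- the word with marks -/
def lf [Rev α] : List (Sl α) → ℕ → List (Sl (α × ℕ))
  | [], _ => []
  | s :: w, n => ⟨mz s.l (mk wt w (n + 1)), mg (wt n) (mk wt w (n + 1)) s.l.length s.g,
      mz s.r fun j => mk wt w (n + 1) (s.l.length + s.g.tgt.length + j)⟩ :: lf w (n + 1)

theorem lf_fst [Rev α] : ∀ (w : List (Sl α)) (n : ℕ), (lf wt w n).map (Sl.map Prod.fst) = w
  | [], _ => rfl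
  | ⟨l, g, r⟩ :: w, n => by
    rw [lf, List.map_cons, lf_fst w]
    cases g <;> simp [Sl.map, mz_fst, mg, Gen.map]

theorem run_lf [Rev α] : ∀ (w : List (Sl α)) (n : ℕ) (ρ : List α), Run ρ w [] → CupOK wt w n →
    Run (mz ρ (mk wt w n)) (lf wt w n) []
  | [], n, ρ, h, _ => by
    obtain rfl : ρ = [] := h
    rfl
  | ⟨l, g, r⟩ :: w, n, ρ, h, hc => by
    obtain ⟨rfl, h⟩ := h
    have ih := run_lf w (n + 1) _ h hc.2
    refine ⟨?_, ?_⟩
    · rw [Sl.src, Sl.src, mz_split, mz_congr fun j hj => mk_left wt w n hj,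
        mz_congr fun j _ => mk_right wt ⟨l, g, r⟩ w n j]
      congr 2
      rcases g with o | o | ⟨x, y, b⟩
      · rfl
      · simp [mz, mg, Gen.src, Rw, List.range_succ, mk_cap]
      · simp [mz, mg, Gen.src, Rw, List.range_succ, mk_cr]
    · rw [Sl.tgt, mz_split] at ih
      rw [Sl.tgt]
      convert ih using 3
      rcases g with o | o | ⟨x, y, b⟩
      · simp [mz, mg, Gen.tgt, Rw, List.range_succ, hc.1 o rfl]
      · rfl
      · simp [mz, mg, Gen.tgt, Rw, List.range_succ]

theorem mark_mem [Fintype ι] [DecidableEq ι] {g : ι → ℕ} {a : ZMod 2} {i : ι} (h : a.val = g i) :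
    a = if i ∈ Finset.univ.filter fun i => (g i : ZMod 2) = 1 then 1 else 0 := by
  simp only [Finset.mem_filter, Finset.mem_univ, true_and, ← h, ZMod.natCast_zmod_val]
  clear h
  revert a
  decide

theorem Rm_lk [Fintype ι] [DecidableEq ι] (g : ι → ℕ) (k : ι) :
    ∀ (w : List (Sl (Arc ι))) (n : ℕ), lf wt w n = w.map (Sl.map fun a => (a, g a.name)) →
      Rm wt w n (Pi.single (.inl k) 1) =
        ((∑ i ∈ Finset.univ.filter fun i => (g i : ZMod 2) = 1, lk w i k : ℤ) : ZMod 2)
  | [], _, _ => by simp [Rm, lk]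
  | ⟨l, γ, r⟩ :: w, n, h => by
    rw [lf, List.map_cons, List.cons.injEq] at h
    have h1 := congrArg Sl.g h.1
    rw [Rm, Rm_lk g k w (n + 1) h.2]
    simp only [lk, List.map_cons, List.sum_cons, Finset.sum_add_distrib, Int.cast_add]
    congr 1
    have hs : ∀ x y s, ((crSign (ι := ι) x y s : ℤ) : ZMod 2) = 1 := fun x y s => by
      unfold crSign
      split_ifs
      · rfl
      · rfl
    rcases γ with o | o | ⟨x, y, _ | _⟩
    · simp [inh, lkGen]
    · simp [inh, lkGen]
    · simp only [mg, Sl.map, Gen.map, Gen.cr.injEq, Prod.mk.injEq, true_and, and_true] at h1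
      have h2 := mark_mem h1.1
      rw [mk] at h2
      by_cases hk : y.name = k <;> simp [inh, lkGen, hk, h2, hs, apply_ite (Int.cast (R := ZMod 2))]
    · simp only [mg, Sl.map, Gen.map, Gen.cr.injEq, Prod.mk.injEq, true_and, and_true] at h1
      have h2 := mark_mem h1.2
      rw [mk] at h2
      by_cases hk : x.name = k <;> simp [inh, lkGen, hk, h2, hs, apply_ite (Int.cast (R := ZMod 2))]

theorem sum_capS [Fintype ι] [DecidableEq ι] (g : ι → ℕ) (η : ℕ → ZMod 2)
    (hη : ∀ m, (∀ l o r, L[m]? ≠ some ⟨l, .cap o, r⟩) → η m = 0) :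
    ∀ (w : List (Sl (Arc ι))) (n : ℕ), L.drop n = w →
      lf wt w n = w.map (Sl.map fun a => (a, g a.name)) →
      ∑ m ∈ Finset.range w.length, wt (n + m) * η (n + m) =
        capS (Finset.univ.filter fun i => (g i : ZMod 2) = 1) η w n
  | [], _, _, _ => by simp [capS]
  | ⟨l, γ, r⟩ :: w, n, hd, h => by
    obtain ⟨h1, h2⟩ := drop_cons hd
    rw [lf, List.map_cons, List.cons.injEq] at h
    have h3 := congrArg Sl.g h.1
    have ih := sum_capS g η hη w (n + 1) h2 h.2
    rw [List.length_cons, Finset.sum_range_succ', add_zero]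
    simp only [← add_assoc, add_right_comm n _ 1] at ih ⊢
    rw [ih]
    rcases γ with o | o | ⟨x, y, b⟩
    · rw [hη n (by simp [h1]), mul_zero, add_zero, capS]
      simp
    · simp only [mg, Sl.map, Gen.map, Gen.cap.injEq, Prod.mk.injEq, true_and] at h3
      rw [capS, mark_mem h3, add_comm, ite_mul, one_mul, zero_mul]
    · rw [hη n (by simp [h1]), mul_zero, add_zero, capS]
      simp

theorem alt_two {V : Type} [AddCommGroup V] [Module (ZMod 2) V] (Φ : ℕ → V →ₗ[ZMod 2] ZMod 2)
    (η : ℕ → ZMod 2) (N : ℕ) : (∃ x, ∀ m < N, Φ m x = η m) ∨ ∃ wt : ℕ → ZMod 2,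
      (∀ x, ∑ m ∈ Finset.range N, wt m * Φ m x = 0) ∧ ∑ m ∈ Finset.range N, wt m * η m ≠ 0 := by
  have : Fact (Nat.Prime 2) := Nat.fact_prime_two
  by_cases h : (fun m : Fin N => η m) ∈ LinearMap.range (LinearMap.pi fun m : Fin N => Φ m)
  · obtain ⟨x, hx⟩ := h
    exact .inl ⟨x, fun m hm => congrFun hx ⟨m, hm⟩⟩
  obtain ⟨f, h1, h2⟩ := Submodule.exists_le_ker_of_notMem h
  have key : ∀ y : ℕ → ZMod 2, ∑ m ∈ Finset.range N,
      (if h : m < N then f (Pi.single ⟨m, h⟩ 1) else 0) * y m = f fun m : Fin N => y m := by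
    intro y
    rw [LinearMap.pi_apply_eq_sum_univ, Finset.sum_range]
    refine Finset.sum_congr rfl fun m _ => ?_
    rw [dif_pos m.2, smul_eq_mul, mul_comm]
    congr 2
    funext j
    simp [Pi.single_apply, eq_comm]
  refine .inr ⟨_, fun x => (key _).trans (h2 ⟨x, rfl⟩), (key η).symm ▸ h1⟩

end Pool.Agent.P.MP_53e370_gt.S
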