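import Pool.Agent.P.MP_ac4909_gt.Defs

/-! The fundamental group of the result of surgery on a framed link diagram. -/

namespace Pool.Agent.P.MP_53e370_gt.S

open Pool.Agent.P.MP_ac4909_gt

variable {ι : Type}

/-- The free group on a meridian `inl i` for every component and a frame `inr (n, j)` for strand
number `j` in the row below slice number `n`. -/
abbrev FG (ι : Type) : Type := FreeGroup (ι ⊕ ℕ × ℕ)

/-- the frame of strand number `j` in row number `n` -/
def fr (n j : ℕ) : FG ι := FreeGroup.of (.inr (n, j))

/-- The meridian, for the upward direction, of a strand labelled `x` that has the frame `t`. -/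
def me (x : Arc ι) (t : FG ι) : FG ι :=
  t * (if x.up then FreeGroup.of (.inl x.name) else (FreeGroup.of (.inl x.name))⁻¹) * t⁻¹

/-- The equations at a cup, cap or crossing in slice `n` with `p` strands on its left: both arms of
a cup or cap have the same frame; at a crossing the upper strand keeps its frame, and the frame of
the lower strand is multiplied by the meridian of the upper strand or by its inverse. -/
def gEq (n p : ℕ) : Gen (Arc ι) → List (FG ι × FG ι)
  | .cup _ => [(fr (n + 1) (p + 1), fr (n + 1) p)]
  | .cap _ => [(fr n (p + 1), fr n p)]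
  | .cr x _ true => [(fr (n + 1) (p + 1), fr n p), (fr (n + 1) p, me x (fr n p) * fr n (p + 1))]
  | .cr _ y false =>
    [(fr (n + 1) p, fr n (p + 1)), (fr (n + 1) (p + 1), (me y (fr n (p + 1)))⁻¹ * fr n p)]

/-- The defining equations.  Vertical strands keep their frames, the frame at the first cup of each
component is trivial, and frames that belong to no strand are trivial. -/
inductive PiEq (L : List (Sl (Arc ι))) : FG ι → FG ι → Prop
  | bot (j : ℕ) : PiEq L (fr 0 j) 1
  | top (n j : ℕ) : L.length ≤ n → PiEq L (fr (n + 1) j) 1
  | left (n j : ℕ) (s : Sl (Arc ι)) : L[n]? = some s → j < s.l.length →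
      PiEq L (fr (n + 1) j) (fr n j)
  | right (n j : ℕ) (s : Sl (Arc ι)) : L[n]? = some s →
      PiEq L (fr (n + 1) (s.l.length + s.g.tgt.length + j)) (fr n (s.l.length + s.g.src.length + j))
  | gen (n : ℕ) (s : Sl (Arc ι)) (a b : FG ι) : L[n]? = some s → (a, b) ∈ gEq n s.l.length s.g →
      PiEq L a b
  | base (n : ℕ) (l r : List (Arc ι)) (o : Arc ι) : L[n]? = some ⟨l, .cup o, r⟩ →
      (∀ s ∈ L.take n, ∀ b, s.g ≠ .cup ⟨o.name, b⟩) → PiEq L (fr (n + 1) l.length) 1

/-- The link group (Wirtinger presentation) modulo the blackboard framing curves.  The frame of a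
strand is the word read along the framing curve from the first cup of the component. -/
abbrev Pi1 (L : List (Sl (Arc ι))) : Type := PresentedGroup {x | ∃ a b, PiEq L a b ∧ x = a * b⁻¹}

end Pool.Agent.P.MP_53e370_gt.S
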