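import Pool.Agent.P.MP_53e370_gt.S.PiB
import Pool.Agent.P.MP_53e370_gt.S.Main

/-! A representation in `SU(2)` modulo its centre that does not lift gives the diagrammatic data. -/

namespace Pool.Agent.P.MP_53e370_gt.S

open Pool.Agent.P.MP_ac4909_gt

variable {ι : Type} [Fintype ι] [DecidableEq ι] {L : List (Sl (Arc ι))}

theorem mk_zs (a : ZMod 2) (g : SU) :
    QuotientGroup.mk' (Subgroup.center SU) (zs a * g) = QuotientGroup.mk' _ g := by
  rw [map_mul, QuotientGroup.mk'_apply, (QuotientGroup.eq_one_iff _).2 (zs_mem a), one_mul]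

theorem exists_zs {g h : SU}
    (e : QuotientGroup.mk' (Subgroup.center SU) g = QuotientGroup.mk' _ h) :
    ∃ a, g = zs a * h := by
  obtain ⟨z, hz, rfl⟩ := (QuotientGroup.mk'_eq_mk' _).1 e.symm
  obtain ⟨a, rfl⟩ := center_su hz
  exact ⟨a, zs_comm a h⟩

omit [Fintype ι] [DecidableEq ι] in
theorem first_unique {n n' : ℕ} {l r : List (Arc ι)} {o o' : Arc ι}
    (h : L[n]? = some ⟨l, .cup o, r⟩) (hn : n < n') (e : o.name = o'.name)
    (h' : ∀ s ∈ L.take n', ∀ b, s.g ≠ .cup ⟨o'.name, b⟩) : False := by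
  refine h' ⟨l, .cup o, r⟩ (List.mem_of_getElem? (i := n) ?_) o.up (by rw [← e])
  rw [List.getElem?_take_of_lt hn, h]

theorem exists_framed (hL : IsFramedLink L) (ρ : Pi1 L →* SU ⧸ Subgroup.center SU)
    (h : ∀ σ : Pi1 L →* SU, (QuotientGroup.mk' _).comp σ ≠ ρ) :
    ∃ (v : Finset ι) (μ : ι → SU), (∀ k, Even (∑ i ∈ v, lk L i k)) ∧ Framed μ v [] L (-1) := by
  classical
  let π := QuotientGroup.mk' (Subgroup.center SU)
  let φ : FG ι →* SU ⧸ Subgroup.center SU := ρ.comp (PresentedGroup.mk _)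
  have hφ : ∀ a b, PiEq L a b → φ a = φ b := fun a b hab =>
    congrArg ρ (PresentedGroup.mk_eq_mk_of_mul_inv_mem ⟨a, b, hab, rfl⟩)
  have hs : ∀ q, ∃ g, π g = q ∧ (q = 1 → g = 1) := fun q => by
    by_cases hq : q = 1
    · exact ⟨1, by rw [map_one, hq], fun _ => rfl⟩
    · obtain ⟨g, hg⟩ := QuotientGroup.mk'_surjective _ q
      exact ⟨g, hg, fun h => absurd h hq⟩
  choose sec hs1 hs2 using hs
  let μ : ι → SU := fun i => sec (φ (FreeGroup.of (.inl i)))
  let c : ℕ → SU := fun n => sec (φ (fr (n + 1) ((L[n]?).elim 0 fun s => s.l.length)))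
  have hμ : ∀ i, π (μ i) = φ (FreeGroup.of (.inl i)) := fun i => hs1 _
  have hc : ∀ n s, L[n]? = some s → π (c n) = φ (fr (n + 1) s.l.length) := fun n s e => by
    simp only [c, hs1, e, Option.elim_some]
  have hη : ∀ m, ∃ a, (∀ l o r, L[m]? = some ⟨l, .cap o, r⟩ →
      rws L μ c m (l.length + 1) = zs a * rws L μ c m l.length) ∧
      ((∀ l o r, L[m]? ≠ some ⟨l, .cap o, r⟩) → a = 0) := fun m => by
    by_cases e : ∃ l o r, L[m]? = some ⟨l, .cap o, r⟩
    · obtain ⟨l, o, r, e⟩ := e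
      obtain ⟨a, ha⟩ := exists_zs (g := rws L μ c m (l.length + 1)) (h := rws L μ c m l.length) (by
        rw [rws_hom φ hφ π hμ hc, rws_hom φ hφ π hμ hc]
        exact hφ _ _ (.gen m _ _ _ e (List.mem_singleton.2 rfl)))
      refine ⟨a, fun l' o' r' e' => ?_, fun h => absurd e (h l o r)⟩
      obtain ⟨rfl, -, -⟩ := Sl.mk.inj (Option.some.inj (e.symm.trans e'))
      exact ha
    · exact ⟨0, fun l o r e' => absurd ⟨l, o, r, e'⟩ e, fun _ => rfl⟩
  choose η hη1 hη2 using hη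
  rcases alt_two (dfc L) η L.length with ⟨x, hx⟩ | ⟨wt, h1, h2⟩
  · exfalso
    have hγ : ∀ i, ∃ a, ∀ n l o r, L[n]? = some ⟨l, .cup o, r⟩ → o.name = i →
        (∀ s ∈ L.take n, ∀ b, s.g ≠ .cup ⟨o.name, b⟩) → x (.inr n) = a := fun i => by
      by_cases e : ∃ n l o r, L[n]? = some ⟨l, .cup o, r⟩ ∧ o.name = i ∧
          ∀ s ∈ L.take n, ∀ b, s.g ≠ .cup ⟨o.name, b⟩
      · obtain ⟨n, l, o, r, e1, e2, e3⟩ := e
        refine ⟨x (.inr n), fun n' l' o' r' f1 f2 f3 => ?_⟩
        rcases lt_trichotomy n n' with hn | rfl | hn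
        · exact (first_unique e1 hn (e2.trans f2.symm) f3).elim
        · rfl
        · exact (first_unique f1 hn (f2.trans e2.symm) e3).elim
      · exact ⟨0, fun n l o r e1 e2 e3 => absurd ⟨n, l, o, r, e1, e2, e3⟩ e⟩
    choose γ hγ using hγ
    have hy : ∀ n : ℕ, ∃ a, ∀ l o r, L[n]? = some ⟨l, .cup o, r⟩ → a = γ o.name := fun n => by
      by_cases e : ∃ l o r, L[n]? = some ⟨l, .cup o, r⟩
      · obtain ⟨l, o, r, e⟩ := e
        refine ⟨γ o.name, fun l' o' r' e' => ?_⟩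
        obtain ⟨-, e2, -⟩ := Sl.mk.inj (Option.some.inj (e.symm.trans e'))
        rw [Gen.cup.inj e2]
      · exact ⟨0, fun l o r e' => absurd ⟨l, o, r, e'⟩ e⟩
    choose y hy using hy
    have hg := dfc_gauge (L := L) γ (Sum.elim 0 y) (fun _ => rfl) hy L 0 [] rfl hL.1 rfl
    obtain ⟨x', hx'⟩ : ∃ x' : ι ⊕ ℕ → ZMod 2, x' = x + Sum.elim (0 : ι → ZMod 2) y := ⟨_, rfl⟩
    have hd : ∀ m < L.length, dfc L m x' = η m := fun m hm => by
      rw [hx', map_add, hx m hm, hg m (Nat.zero_le _), add_zero]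
    let μ' : ι → SU := fun i => zs (x' (.inl i)) * μ i
    let c' : ℕ → SU := fun n => zs (x' (.inr n)) * c n
    have hl := fun a b => rws_lift (L := L) μ' c' (a := a) (b := b) (fun n l o r e => by
      have h3 := hd n (List.getElem?_eq_some_iff.1 e).1
      rw [dfc_some e] at h3
      simp only [capF, LinearMap.add_apply, LinearMap.proj_apply] at h3
      simp only [μ', c', rws_sign]
      rw [hη1 n l o r e, ← mul_assoc, ← zs_add, ← h3, add_comm, add_assoc,
        CharTwo.add_self_eq_zero, add_zero]) fun n l o r e e' => by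
      have h3 : c n = 1 := hs2 _ (by
        rw [e, Option.elim_some, hφ _ _ (.base n l r o e e'), map_one])
      simp only [c', h3, hx', Pi.add_apply, Sum.elim_inr, hγ _ n l o r e rfl e', hy n l o r e,
        CharTwo.add_self_eq_zero, zs_zero, one_mul]
    refine h (PresentedGroup.toGroup (f := Sum.elim μ' fun x : ℕ × ℕ => rws L μ' c' x.1 x.2) ?_) ?_
    · rintro _ ⟨a, b, hab, rfl⟩
      rw [map_mul, map_inv, hl a b hab, mul_inv_cancel]
    · refine PresentedGroup.ext fun z => ?_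
      rw [MonoidHom.comp_apply, PresentedGroup.toGroup.of]
      rcases z with i | ⟨n, j⟩
      · exact (mk_zs _ _).trans (hμ i)
      · exact rws_hom φ hφ π (fun i => (mk_zs _ _).trans (hμ i))
          (fun n s e => (mk_zs _ _).trans (hc n s e)) n j
  · have hR : ∀ x, Rm wt L 0 x = 0 := fun x => by
      have h3 := sum_dfc wt x L 0 rfl
      simp only [zero_add, h1, sr, LinearMap.zero_apply, map_zero] at h3
      exact h3.symm
    obtain ⟨g, hg⟩ := hL.2.2 _ (run_lf wt L 0 [] hL.1 (cupOK_of wt L 0 fun u => hR _))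
      (lf_fst wt L 0)
    refine ⟨Finset.univ.filter fun i => (g i : ZMod 2) = 1, μ, fun k => ?_, ?_⟩
    · rw [← ZMod.intCast_eq_zero_iff_even, ← Rm_lk wt g k L 0 hg, hR]
    · have h3 := sum_capS wt g η hη2 L 0 rfl hg
      simp only [zero_add] at h3
      have h4 := framed_rws (Finset.univ.filter fun i => (g i : ZMod 2) = 1) μ c η hη1 L 0 [] rfl
        hL.1
      rwa [← h3, un, if_neg h2] at h4

theorem two_le_rank_pi (hL : IsFramedLink L) (ρ : Pi1 L →* SU ⧸ Subgroup.center SU)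
    (h : ∀ σ : Pi1 L →* SU, (QuotientGroup.mk' _).comp σ ≠ ρ) :
    2 ≤ Module.rank (RatFunc ℚ) (SkeinModule L) := by
  obtain ⟨v, μ, h1, h2⟩ := exists_framed hL ρ h
  exact two_le_rank hL v h1 μ h2

end Pool.Agent.P.MP_53e370_gt.S
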