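import Pool.Agent.P.MP_53e370_gt.S.Cls
import Pool.Agent.P.MP_53e370_gt.S.Prog

/-! The classical reduced product. -/

namespace Pool.Agent.P.MP_53e370_gt.S

open Pool.Agent.P.MP_ac4909_gt

variable {Rc : Type} [Ring Rc] [Algebra ℂ Rc] {V : Lv Rc}
  {ι E : Type} [Fintype E] {L : List (Sl (Arc ι))}

/-- emission of a row -/
noncomputable def RedCl_Em (V : Lv Rc) (g : E → SU) (σ : E → List Bool) : List E → Rc
  | [] => 1
  | x :: ρ => RedCl_Em V g σ ρ * EmV V (g x) (σ x)

/-- absorption of a row -/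
noncomputable def RedCl_Ab (V : Lv Rc) (a : E → SU) (σ : E → List Bool) : List E → Rc
  | [] => 1
  | x :: ρ => AbV V (a x) (σ x) * RedCl_Ab V a σ ρ

omit [Fintype E] in
theorem RedCl_Em_append (g : E → SU) (σ : E → List Bool) (l r : List E) :
    RedCl_Em V g σ (l ++ r) = RedCl_Em V g σ r * RedCl_Em V g σ l := by
  induction l with
  | nil => simp [RedCl_Em]
  | cons x l ih => simp only [List.cons_append, RedCl_Em, ih, mul_assoc]

omit [Fintype E] in
theorem RedCl_Ab_append (a : E → SU) (σ : E → List Bool) (l r : List E) :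
    RedCl_Ab V a σ (l ++ r) = RedCl_Ab V a σ l * RedCl_Ab V a σ r := by
  induction l with
  | nil => simp [RedCl_Ab]
  | cons x l ih => simp only [List.cons_append, RedCl_Ab, ih, mul_assoc]

omit [Fintype E] in
theorem RedCl_LC (a : E → SU) (σ : E → List Bool) (ρ : List E) :
    LC V (wid (fun e => (σ e).length) ρ) 0 (RedCl_Ab V a σ ρ) := by
  induction ρ with
  | nil => exact LC_one V 0
  | cons x ρ ih =>
    have h := ih.padR (σ x).length
    rw [Nat.zero_add, Nat.add_comm] at h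
    exact (LC_AbV V (a x) (σ x)).mul h

omit [Fintype E] in
theorem RedCl_Ab_Em (g a : E → SU) (σ : E → List Bool) (ρ : List E) :
    RedCl_Ab V a σ ρ * RedCl_Em V g σ ρ =
      (ρ.map fun e => pr (σ e) ((a e)⁻¹ * g e)).prod • (1 : Rc) := by
  induction ρ with
  | nil => simp [RedCl_Ab, RedCl_Em]
  | cons x ρ ih =>
    simp only [RedCl_Ab, RedCl_Em, List.map_cons, List.prod_cons]
    rw [mul_assoc, ← mul_assoc (RedCl_Ab V a σ ρ), ih, smul_mul_assoc, one_mul, mul_smul_comm,
      AbV_EmV, smul_smul, mul_comm]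

omit [Fintype E] in
/-- one operator is put to the left of another -/
theorem RedCl_step (g a : E → SU) (σ : E → List Bool) (c c' : ℂ) (t s t' s' : List E) (p : ℕ) :
    sh V (c' • (RedCl_Em V g σ t' * RedCl_Ab V a σ s')) p *
      sh V (c • (RedCl_Em V g σ t * RedCl_Ab V a σ s)) (p + wid (fun e => (σ e).length) s') =
      sh V ((c' * c) • (RedCl_Em V g σ (t ++ t') * RedCl_Ab V a σ (s ++ s'))) p := by
  rw [← sh_sh, ← sh_mul, smul_mul_assoc, mul_assoc, RedCl_LC a σ s', sh_zero,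
    RedCl_Em_append, RedCl_Ab_append]
  simp only [smul_mul_assoc, mul_smul_comm, smul_smul, mul_assoc]

omit [Fintype E] in
theorem RedCl_tens (g a : E → SU) (σ : E → List Bool) (c : ℂ) (l : List (E × E)) (t s : List E) :
    tensL (cOps V g a σ) (fun e => (σ e).length) l
      (sh V (c • (RedCl_Em V g σ t * RedCl_Ab V a σ s))) =
      sh V (c • (RedCl_Em V g σ (t ++ l.map Prod.snd) * RedCl_Ab V a σ (s ++ l.map Prod.fst))) := by
  induction l generalizing t s with
  | nil => simp [tensL]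
  | cons x l ih =>
    have h : (fun p => (cOps V g a σ).id x.1 x.2 p *
        sh V (c • (RedCl_Em V g σ t * RedCl_Ab V a σ s)) (p + (σ x.1).length)) =
        sh V (c • (RedCl_Em V g σ (t ++ [x.2]) * RedCl_Ab V a σ (s ++ [x.1]))) := by
      funext p
      have := RedCl_step (V := V) g a σ c 1 t s [x.2] [x.1] p
      simpa [RedCl_Em, RedCl_Ab, cOps] using this
    rw [tensL, h, ih]
    simp

omit [Fintype E] in
theorem RedCl_gen (g a : E → SU) (σ : E → List Bool) (G : NGen E) :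
    (cOps V g a σ).gen G = sh V (sgG (fun e => (σ e).length) G •
      (RedCl_Em V g σ G.tgt * RedCl_Ab V a σ G.src)) := by
  cases G with
  | cup e₁ e₂ => simp [Ops.gen, cOps, sgG, NGen.tgt, NGen.src, RedCl_Em, RedCl_Ab]
  | cap e₁ e₂ => simp [Ops.gen, cOps, sgG, NGen.tgt, NGen.src, RedCl_Em, RedCl_Ab]
  | cr b x y y' x' => simp [Ops.gen, cOps, NGen.tgt, NGen.src, RedCl_Em, RedCl_Ab, mul_assoc]

omit [Fintype E] in
theorem RedCl_Osl (g a : E → SU) (σ : E → List Bool) (s : NSl E) :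
    Osl (cOps V g a σ) (fun e => (σ e).length) s = sh V (sgG (fun e => (σ e).length) s.g •
      (RedCl_Em V g σ s.tgt * RedCl_Ab V a σ s.src)) := by
  have h1 : (fun _ : ℕ => (1 : Rc)) =
      sh V ((1 : ℂ) • (RedCl_Em V g σ ([] : List E) * RedCl_Ab V a σ ([] : List E))) := by
    funext p
    simp [RedCl_Em, RedCl_Ab, sh_one]
  unfold Osl
  rw [h1, RedCl_tens, RedCl_gen]
  simp only [RedCl_step]
  rw [RedCl_tens]
  simp [NSl.tgt, NSl.src]

omit [Fintype E] in
theorem RedCl_Red (g a : E → SU) (σ : E → List Bool) (P : List (NSl E)) (ρ : List E)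
    (h : NRun ρ P) (p : ℕ) :
    Red (cOps V g a σ) (fun e => (σ e).length) P p =
      sh V ((sgP (fun e => (σ e).length) P *
        (P.map fun s => (s.tgt.map fun e => pr (σ e) ((a e)⁻¹ * g e)).prod).prod) •
          RedCl_Ab V a σ ρ) p := by
  induction P generalizing ρ with
  | nil =>
    have : ρ = [] := h
    subst this
    simp [Red, sgP, RedCl_Ab, sh_one]
  | cons s P ih =>
    obtain ⟨rfl, h2⟩ := h
    rw [Red, ih _ h2, RedCl_Osl, ← sh_mul, smul_mul_smul_comm, ← mul_assoc, RedCl_Ab_Em,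
      smul_mul_assoc, one_mul, smul_smul]
    congr 2
    simp only [sgP, List.map_cons, List.prod_cons]
    ring

omit [Fintype E] in
theorem RedCl_sgG_norm (j : E → ℕ) (G : NGen E) : ‖sgG j G‖ = 1 := by
  rcases G with _ | _ | ⟨_ | _, _⟩ <;> simp [sgG]

omit [Fintype E] in
theorem RedCl_sgG_congr {j j' : E → ℕ} (h : ∀ e, j e % 2 = j' e % 2) (G : NGen E) :
    sgG j G = sgG j' G := by
  have key : ∀ x y, (-1 : ℂ) ^ (j x * j y) = (-1) ^ (j' x * j' y) := fun x y => by
    rw [neg_one_pow_eq_pow_mod_two, Nat.mul_mod, h x, h y, ← Nat.mul_mod,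
      ← neg_one_pow_eq_pow_mod_two]
  rcases G with _ | _ | ⟨_ | _, _⟩
  · rfl
  · rfl
  · exact key _ _
  · exact key _ _

theorem red_cl (V : Lv Rc) (Q : Prog L E) (g a : E → SU) (σ : E → List Bool) :
    Red (cOps V g a σ) (fun e => (σ e).length) Q.pr 0 =
      (sgP (fun e => (σ e).length) Q.pr * ∏ e, pr (σ e) ((a e)⁻¹ * g e)) • (1 : Rc) := by
  rw [RedCl_Red g a σ Q.pr [] Q.run, sh_zero, Q.prod_rows]
  rfl

theorem sgP_par (Q : Prog L E) (π : ι → ℕ) : ∃ s : ℂ, ‖s‖ = 1 ∧
    ∀ j : E → ℕ, (∀ e, j e % 2 = π (Q.nm e) % 2) → sgP j Q.pr = s := by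
  refine ⟨sgP (fun e => π (Q.nm e)) Q.pr, ?_, fun j hj => ?_⟩
  · unfold sgP
    induction Q.pr with
    | nil => simp
    | cons s P ih => rw [List.map_cons, List.prod_cons, norm_mul, ih, RedCl_sgG_norm, mul_one]
  · unfold sgP
    simp only [RedCl_sgG_congr hj]

end Pool.Agent.P.MP_53e370_gt.S
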