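import Pool.Agent.P.MP_53e370_gt.S.Loops
import Pool.Agent.P.MP_53e370_gt.S.RedCl

/-! The classical limit of the reduced product. -/

namespace Pool.Agent.P.MP_53e370_gt.S

open Pool.Agent.P.MP_ac4909_gt Filter Topology MeasureTheory

variable {R : ℕ → Type} [∀ t, Ring (R t)] [∀ t, Algebra ℂ (R t)] {T : ∀ t, TL ℂ (R t)}
  {ι E : Type} [Fintype E] {L : List (Sl (Arc ι))}

/-- the loops named by incoming edges in `ρ` and outgoing edges in `ρ'` -/
def RedLim_S {E : Type} (ρ ρ' : List E) : Set (E ⊕ E) := {u | Sum.elim (· ∈ ρ) (· ∈ ρ') u}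

section Aux

variable {Rc : Type} [Ring Rc] [Algebra ℂ Rc] {V : Lv Rc} {O : ∀ t, Ops E (R t)}
  {Oc : (E ⊕ E → SU) → Ops E Rc} {j : E → ℕ}

theorem RedLim_tens (l : List (E × E))
    (hid : ∀ x ∈ l, Lim V T {Sum.inl x.1} (j x.1) (j x.2) (fun t => (O t).id x.1 x.2)
      fun ω => (Oc ω).id x.1 x.2) {ρ ρ' : List E} (hn : (ρ ++ l.map Prod.fst).Nodup) {m m' : ℕ}
    {Z : ∀ t, ℕ → R t} {z : (E ⊕ E → SU) → ℕ → Rc} (hZ : Lim V T (RedLim_S ρ ρ') m m' Z z) :
    Lim V T (RedLim_S (ρ ++ l.map Prod.fst) ρ') (wid j (l.map Prod.fst) + m)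
      (wid j (l.map Prod.snd) + m') (fun t => tensL (O t) j l (Z t))
      fun ω => tensL (Oc ω) j l (z ω) := by
  induction l generalizing ρ m m' Z z with
  | nil =>
    exact hZ.congr (by simp) (by simp) (by simp) (Eventually.of_forall fun _ _ => rfl)
      fun _ _ => rfl
  | cons x l ih =>
    have hx : x.1 ∉ ρ := fun h => (List.nodup_append.1 hn).2.2 _ h _ (by simp) rfl
    have h1 := ((hid x List.mem_cons_self).padR m').mul (hZ.padL (j x.1))
      (Set.disjoint_singleton_left.2 hx)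
    have h2 := h1.congr (S' := RedLim_S (ρ ++ [x.1]) ρ') (by
      rintro (u | u) hu <;> simp only [RedLim_S] at hu ⊢ <;> simp at hu ⊢ <;> tauto) rfl rfl
      (Eventually.of_forall fun _ _ => rfl) fun _ _ => rfl
    have h3 := ih (fun y hy => hid y (List.mem_cons_of_mem _ hy)) (by simpa using hn) h2
    exact h3.congr (by simp) (by simp only [List.map_cons, wid_cons]; ring)
      (by simp only [List.map_cons, wid_cons]; ring) (Eventually.of_forall fun _ _ => rfl)
      fun _ _ => rfl

theorem RedLim_slice (s : NSl E)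
    (hid : ∀ x ∈ s.l ++ s.r, Lim V T {Sum.inl x.1} (j x.1) (j x.2) (fun t => (O t).id x.1 x.2)
      fun ω => (Oc ω).id x.1 x.2)
    (hg : Lim V T {l | l ∈ s.g.loops} (wid j s.g.src) (wid j s.g.tgt) (fun t => (O t).gen s.g)
      fun ω => (Oc ω).gen s.g) (hn : s.src.Nodup) :
    Lim V T (RedLim_S s.src s.tgt) (wid j s.src) (wid j s.tgt) (fun t => Osl (O t) j s)
      fun ω => Osl (Oc ω) j s := by
  have h0 : Lim V T (RedLim_S ([] : List E) []) 0 0 (fun _ _ => 1) fun _ _ => 1 :=
    (lim_cv (Cv.one 0)).congr (Set.empty_subset _) rfl rfl (Eventually.of_forall fun _ _ => rfl)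
      fun _ _ => rfl
  have hn' := (List.nodup_append.1 hn).1
  have h1 := RedLim_tens s.l (fun x hx => hid x (List.mem_append_left _ hx))
    (by simpa using (List.nodup_append.1 hn').1) h0
  have hl : {l | l ∈ s.g.loops} ⊆ RedLim_S s.g.src s.g.tgt := by
    rcases s.g with _ | _ | _ <;> intro u hu <;>
      simp only [NGen.loops, Set.mem_ofPred_eq, List.mem_cons, List.not_mem_nil, or_false] at hu
    · subst hu; simp [RedLim_S, NGen.tgt]
    · subst hu; simp [RedLim_S, NGen.src]
    · rcases hu with rfl | rfl <;> simp [RedLim_S, NGen.src]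
  have h2 := (hg.padR (wid j (s.l.map Prod.snd) + 0)).mul (h1.padL (wid j s.g.src))
    (Set.disjoint_left.2 fun u hu hu' => by
      rcases u with u | u
      · exact (List.nodup_append.1 hn').2.2 u (by simpa [RedLim_S] using hu') u (hl hu) rfl
      · simp [RedLim_S] at hu')
  have h3 := h2.congr (S' := RedLim_S (s.l.map Prod.fst ++ s.g.src) s.g.tgt) (by
    rintro (u | u) (hu | hu)
    · exact List.mem_append_right _ (hl hu)
    · exact List.mem_append_left _ (by simpa [RedLim_S] using hu)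
    · exact hl hu
    · simp [RedLim_S] at hu) rfl rfl (Eventually.of_forall fun _ _ => rfl) fun _ _ => rfl
  have h4 := RedLim_tens s.r (fun x hx => hid x (List.mem_append_right _ hx)) hn h3
  refine h4.congr ?_ (by simp only [NSl.src, wid_append]; ring)
    (by simp only [NSl.tgt, wid_append]; ring) (Eventually.of_forall fun _ _ => rfl)
    fun _ _ => rfl
  rintro (u | u) hu
  · exact hu
  · exact List.mem_append_left _ (List.mem_append_right _ hu)

theorem RedLim_red {P : List (NSl E)} {ρ : List E} (hr : NRun ρ P)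
    (h : ∀ s ∈ P, s.src.Nodup → Lim V T (RedLim_S s.src s.tgt) (wid j s.src) (wid j s.tgt)
      (fun t => Osl (O t) j s) fun ω => Osl (Oc ω) j s)
    (h1 : (P.flatMap NSl.src).Nodup) (h2 : (P.flatMap NSl.tgt).Nodup) :
    Lim V T (RedLim_S (P.flatMap NSl.src) (P.flatMap NSl.tgt)) (wid j ρ) 0
      (fun t => Red (O t) j P) fun ω => Red (Oc ω) j P := by
  induction P generalizing ρ with
  | nil =>
    obtain rfl : ρ = [] := hr
    exact (lim_cv (Cv.one 0)).congr (Set.empty_subset _) rfl rfl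
      (Eventually.of_forall fun _ _ => rfl) fun _ _ => rfl
  | cons s P ih =>
    obtain ⟨rfl, hr⟩ := hr
    rw [List.flatMap_cons, List.nodup_append] at h1 h2
    have h3 := (ih hr (fun s hs => h s (List.mem_cons_of_mem _ hs)) h1.2.1 h2.2.1).mul
      (h s List.mem_cons_self h1.1) (Set.disjoint_left.2 fun u hu hu' => by
        rcases u with u | u
        · exact h1.2.2 u hu' u hu rfl
        · exact h2.2.2 u hu' u hu rfl)
    refine h3.congr ?_ rfl rfl (Eventually.of_forall fun _ _ => rfl) fun _ _ => rfl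
    rw [List.flatMap_cons, List.flatMap_cons]
    rintro (u | u) (hu | hu)
    · exact List.mem_append_right _ hu
    · exact List.mem_append_left _ hu
    · exact List.mem_append_right _ hu
    · exact List.mem_append_left _ hu

end Aux

theorem red_lim (hS : Seq T) {Q : Prog L E} (F : Frames Q) {k kb : ℕ → ι → ℕ}
    {σ : E → List Bool} {ζ : ι → Circle}
    (hR : Reg T (fun t e => k t (Q.nm e)) (fun t e => kb t (Q.nm e)) σ fun e => ζ (Q.nm e)) :
    ∃ c : ℕ → ℂ, (∀ᶠ t in atTop, Red (qOps (T t) (fun e => k t (Q.nm e)) (fun e => kb t (Q.nm e)) σ)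
        (fun e => (σ e).length) Q.pr 0 = c t • (1 : R t)) ∧
      Tendsto c atTop (𝓝 (sgP (fun e => (σ e).length) Q.pr *
        ∫ ω, ∏ e, pr (σ e) ((F.a ζ ω e)⁻¹ * F.g ζ ω e) ∂(hpi (E ⊕ E) SU))) := by
  obtain ⟨V⟩ := exists_lv ℂ
  have h := RedLim_red (V := V) (T := T) (j := fun e => (σ e).length)
    (O := fun t => qOps (T t) (fun e => k t (Q.nm e)) (fun e => kb t (Q.nm e)) σ)
    (Oc := fun ω => cOps V (F.g ζ ω) (F.a ζ ω) σ) Q.run (fun s hs hn => RedLim_slice s
      (fun x hx => lim_id V hS hR (fun t => (Q.okc (k t) s hs).1 x hx)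
        (fun t => (Q.okc (kb t) s hs).1 x hx) (fun ω => ((F.compat ζ ω s hs).1 x hx).1)
        fun ω => ((F.compat ζ ω s hs).1 x hx).2)
      (lim_gen V hS hR (fun t => (Q.okc (k t) s hs).2) (fun t => (Q.okc (kb t) s hs).2) (by
        have h1 := (List.nodup_append.1 (List.nodup_append.1 hn).1).2.1
        revert h1
        rcases s.g with _ | _ | _ <;> simp [NGen.loops, NGen.src])
        fun ω => (F.compat ζ ω s hs).2) hn) (Q.flatMap_src ▸ Q.nodup) Q.nodup
  have h2 := Lim.scalar hS h fun ω => red_cl V Q (F.g ζ ω) (F.a ζ ω) σ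
  rwa [integral_const_mul] at h2

end Pool.Agent.P.MP_53e370_gt.S
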