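import Pool.Agent.P.MP_53e370_gt.S.Diag
import Pool.Agent.P.MP_53e370_gt.S.Paths
import Pool.Agent.P.MP_53e370_gt.S.AvL

/-! The sum over balanced paths is an integral over tori. -/

namespace Pool.Agent.P.MP_53e370_gt.S

open Pool.Agent.P.MP_ac4909_gt MeasureTheory

variable {ι E : Type} [Fintype ι] [DecidableEq ι] [Fintype E] [DecidableEq E]
  {L : List (Sl (Arc ι))}

theorem Torus_char (n : ℤ) :
    ∫ z : Circle, ((z ^ n : Circle) : ℂ) ∂(hp Circle) = if n = 0 then 1 else 0 := by
  split_ifs with hn
  · simp [hn]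
  · have hn' : (n : ℝ) ≠ 0 := by exact_mod_cast hn
    set w : Circle := Circle.exp (Real.pi / n) with hw
    have hwn : ((w ^ n : Circle) : ℂ) = -1 := by
      rw [hw, ← Circle.exp_zsmul, zsmul_eq_mul, mul_div_cancel₀ _ hn', Circle.coe_exp,
        Complex.exp_pi_mul_I]
    have h := integral_mul_left_eq_self (μ := hp Circle) (fun z : Circle => ((z ^ n : Circle) : ℂ)) w
    simp only [mul_zpow, Circle.coe_mul, hwn] at h
    rw [integral_const_mul] at h
    linear_combination (-1 / 2 : ℂ) * h

theorem Torus_pow (z : Circle) (h : SU) (n : ℕ) :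
    (((-(Matrix.trace (dg z * h).1).re) ^ n : ℝ) : ℂ) =
      ∑ σ ∈ ls n, ((z ^ (-wt σ) : Circle) : ℂ) * pr σ h := by
  have htr : ((-(Matrix.trace (dg z * h).1).re : ℝ) : ℂ) =
      ((z⁻¹ : Circle) : ℂ) * (-h.1 1 1) + (z : ℂ) * (-h.1 0 0) := by
    rw [Complex.ofReal_neg, su_trace]
    have e : (dg z * h).1 = !![(z : ℂ), 0; 0, (z : ℂ)⁻¹] * h.1 := rfl
    rw [e, Matrix.trace_fin_two]
    simp [Matrix.mul_apply, Fin.sum_univ_two, add_comm]
  induction n with
  | zero => simp [ls, wt, pr]
  | succ n ih =>
    rw [pow_succ, Complex.ofReal_mul, ih, htr, sum_ls_succ, Finset.sum_mul,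
      ← Finset.sum_add_distrib]
    refine Finset.sum_congr rfl fun σ _ => ?_
    have e1 : -wt (true :: σ) = -1 + -wt σ := by simp [wt]; ring
    have e2 : -wt (false :: σ) = 1 + -wt σ := by simp [wt]; ring
    have e3 : pr (true :: σ) h = -h.1 1 1 * pr σ h := by simp [pr, ix]
    have e4 : pr (false :: σ) h = -h.1 0 0 * pr σ h := by simp [pr, ix]
    rw [e1, e2, e3, e4, zpow_add, zpow_add, zpow_neg_one, zpow_one, Circle.coe_mul, Circle.coe_mul]
    ring

theorem Torus_tt {nm : E → ι} {base : ι → E} (hb : ∀ i, nm (base i) = i) (τ : E → Circle)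
    (w : E → ℤ) : ∏ e, tt nm base τ e ^ w e = ∏ e, τ e ^ (w e - w (base (nm e))) := by
  have h1 : ∀ e, tt nm base τ e ^ w e = τ e ^ w e *
      ∏ e', if e = base (nm e') then τ e' ^ (-w e) else 1 := by
    intro e
    unfold tt
    rw [mul_zpow]
    congr 1
    split_ifs with he
    · rw [inv_zpow', ← Finset.prod_zpow, Finset.prod_filter]
      refine Finset.prod_congr rfl fun e' _ => ?_
      have : (nm e' = nm e) ↔ (e = base (nm e')) := by
        constructor
        · intro h; rw [h]; exact he
        · intro h; rw [h, hb]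
      simp only [this]
    · rw [one_zpow]
      refine (Finset.prod_eq_one fun e' _ => ?_).symm
      rw [if_neg]
      intro h
      apply he
      rw [h, hb]
  simp only [h1]
  rw [Finset.prod_mul_distrib, Finset.prod_comm, ← Finset.prod_mul_distrib]
  refine Finset.prod_congr rfl fun e _ => ?_
  rw [Finset.prod_ite_eq', if_pos (Finset.mem_univ _), ← zpow_add, sub_eq_add_neg]

theorem Torus_cont_tt (nm : E → ι) (base : ι → E) (e : E) :
    Continuous fun τ : E → Circle => tt nm base τ e := by
  unfold tt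
  refine (continuous_apply e).mul ?_
  split_ifs
  · exact (continuous_finsetProd _ fun e' _ => continuous_apply e').inv
  · exact continuous_const

theorem Torus_cont_tr : Continuous fun g : SU => -(Matrix.trace g.1).re :=
  (Complex.continuous_re.comp continuous_subtype_val.matrix_trace).neg

theorem Torus_int {X : Type} [TopologicalSpace X] [CompactSpace X] [MeasurableSpace X]
    [OpensMeasurableSpace X] {μ : Measure X} [IsFiniteMeasure μ] {N : Type}
    [NormedAddCommGroup N] [SecondCountableTopology N] {f : X → N} (hf : Continuous f) :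
    Integrable f μ :=
  Integrable.of_bound hf.aestronglyMeasurable ‖(⟨f, hf⟩ : C(X, N))‖
    (Filter.Eventually.of_forall fun x => ContinuousMap.norm_coe_le_norm (⟨f, hf⟩ : C(X, N)) x)

instance Torus_prob : IsProbabilityMeasure (nu ι E) := by
  unfold nu; infer_instance

instance Torus_pos (Λ G : Type) [Fintype Λ] [Group G] [TopologicalSpace G] [IsTopologicalGroup G]
    [CompactSpace G] [MeasurableSpace G] [BorelSpace G] : (hpi Λ G).IsOpenPosMeasure := by
  unfold hpi; infer_instance

instance Torus_pos' : (nu ι E).IsOpenPosMeasure := by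
  have h1 : (volume : Measure (ι → unitInterval)).IsOpenPosMeasure :=
    Measure.pi.isOpenPosMeasure _
  have h2 : ((hpi (E ⊕ E) SU).prod (hpi E Circle)).IsOpenPosMeasure :=
    Measure.prod.instIsOpenPosMeasure
  exact Measure.prod.instIsOpenPosMeasure

theorem torus {nm : E → ι} {base : ι → E} (hb : ∀ i, nm (base i) = i) (j : E → ℕ) (h : E → SU) :
    ∑ σ ∈ (Fintype.piFinset fun e => ls (j e)).filter
        fun σ => ∀ e, wt (σ e) = wt (σ (base (nm e))), ∏ e, pr (σ e) (h e) =
      ((∫ τ, ∏ e, (-(Matrix.trace (dg (tt nm base τ e) * h e).1).re) ^ j e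
        ∂(hpi E Circle) : ℝ) : ℂ) := by
  rw [← integral_complex_ofReal]
  have h1 : ∀ τ : E → Circle,
      ((∏ e, (-(Matrix.trace (dg (tt nm base τ e) * h e).1).re) ^ j e : ℝ) : ℂ) =
      ∑ σ ∈ Fintype.piFinset fun e => ls (j e),
        (∏ e, ((τ e ^ (-wt (σ e) - -wt (σ (base (nm e)))) : Circle) : ℂ)) * ∏ e, pr (σ e) (h e) := by
    intro τ
    rw [Complex.ofReal_prod]
    simp only [Torus_pow]
    rw [Finset.prod_univ_sum]
    refine Finset.sum_congr rfl fun σ _ => ?_
    rw [Finset.prod_mul_distrib]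
    congr 1
    have h2 := congrArg (Circle.coeHom) (Torus_tt hb τ fun e => -wt (σ e))
    rw [map_prod, map_prod] at h2
    exact h2
  have h3 : ∀ σ : E → List Bool, ∫ τ : E → Circle,
      (∏ e, ((τ e ^ (-wt (σ e) - -wt (σ (base (nm e)))) : Circle) : ℂ)) ∂(hpi E Circle) =
      if ∀ e, wt (σ e) = wt (σ (base (nm e))) then 1 else 0 := by
    intro σ
    unfold hpi
    rw [integral_fintype_prod_eq_prod
      (fun e (z : Circle) => ((z ^ (-wt (σ e) - -wt (σ (base (nm e)))) : Circle) : ℂ))]
    simp only [Torus_char]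
    rw [Fintype.prod_ite_zero]
    simp only [Finset.prod_const_one]
    refine if_congr (forall_congr' fun e => ?_) rfl rfl
    constructor <;> intro h <;> linarith
  refine Eq.trans ?_ (integral_congr_ae (Filter.Eventually.of_forall fun τ => (h1 τ).symm))
  rw [integral_finsetSum]
  · rw [Finset.sum_filter]
    refine Finset.sum_congr rfl fun σ _ => ?_
    rw [integral_mul_const, h3]
    split_ifs <;> simp
  · intro σ _
    refine Torus_int (Continuous.mul ?_ continuous_const)
    exact continuous_finsetProd _ fun e _ =>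
      continuous_subtype_val.comp ((continuous_apply e).zpow _)

theorem continuous_zc {Q : Prog L E} (F : Frames Q) (base : ι → E) : Continuous (zc F base) := by
  refine continuous_pi fun e => ?_
  have hz : Continuous fun x : Cfg ι E => ((fun i => zt (x.1 i)), x.2.1) := by
    refine Continuous.prodMk (continuous_pi fun i => ?_) (continuous_fst.comp continuous_snd)
    unfold zt
    refine Circle.exp.continuous.comp ?_
    fun_prop
  have ha := (continuous_apply e).comp (F.ca.comp hz)
  have hg := (continuous_apply e).comp (F.cg.comp hz)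
  have ht := continuous_dg.comp ((Torus_cont_tt Q.nm base e).comp
    (continuous_snd.comp (continuous_snd (X := ι → unitInterval)
      (Y := (E ⊕ E → SU) × (E → Circle)))))
  exact Torus_cont_tr.comp (ht.mul (ha.inv.mul hg))

theorem abs_zc {Q : Prog L E} (F : Frames Q) (base : ι → E) (x : Cfg ι E) (e : E) :
    |zc F base x e| ≤ 2 := by
  unfold zc zz
  rw [abs_neg]
  exact su_trace_le _

theorem continuous_rho : Continuous (rho : Cfg ι E → ℝ) := by
  unfold rho
  fun_prop

theorem JJ_iter {Q : Prog L E} (F : Frames Q) (base : ι → E) {G : (E → ℝ) → ℝ}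
    (hG : Continuous G) : JJ F base G = ∫ θ : ι → unitInterval,
      (∏ i, Real.sin (Real.pi * θ i) ^ 2) * ∫ ω, ∫ τ, G (zz F base (fun i => zt (θ i)) ω τ)
        ∂(hpi E Circle) ∂(hpi (E ⊕ E) SU) := by
  have hc : Continuous fun x : Cfg ι E => G (zc F base x) := hG.comp (continuous_zc F base)
  have hc' : Continuous fun x : Cfg ι E => rho x * G (zc F base x) := continuous_rho.mul hc
  unfold JJ nu
  rw [integral_prod _ (Torus_int hc')]
  refine integral_congr_ae (Filter.Eventually.of_forall fun θ => ?_)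
  have h1 : Continuous fun y : (E ⊕ E → SU) × (E → Circle) => G (zc F base (θ, y)) :=
    hc.comp (Continuous.prodMk_right θ)
  have h2 := integral_prod _ (Torus_int (μ := (hpi (E ⊕ E) SU).prod (hpi E Circle)) h1)
  change ∫ y, (∏ i, Real.sin (Real.pi * θ i) ^ 2) * G (zc F base (θ, y))
    ∂((hpi (E ⊕ E) SU).prod (hpi E Circle)) = _
  rw [integral_const_mul, h2]
  rfl

theorem JJ_pos {Q : Prog L E} (F : Frames Q) (base : ι → E) {G : (E → ℝ) → ℝ}
    (hG : Continuous G) (h0 : ∀ y, 0 ≤ G y) (x : Cfg ι E) (hx : 0 < G (zc F base x)) :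
    0 < JJ F base G := by
  have hc : Continuous fun x : Cfg ι E => G (zc F base x) := hG.comp (continuous_zc F base)
  have hr : ∀ y : Cfg ι E, 0 ≤ rho y := fun y => Finset.prod_nonneg fun i _ => sq_nonneg _
  have hd : Dense {y : Cfg ι E | rho y ≠ 0} := by
    have h1 : Dense {t : unitInterval | (t : ℝ) ∈ Set.Ioo (0 : ℝ) 1} := by
      rw [Subtype.dense_iff]
      intro t ht
      have e : Subtype.val '' {t : unitInterval | (t : ℝ) ∈ Set.Ioo (0 : ℝ) 1} = Set.Ioo 0 1 := by
        ext s
        constructor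
        · rintro ⟨u, hu, rfl⟩; exact hu
        · intro hs; exact ⟨⟨s, Set.Ioo_subset_Icc_self hs⟩, hs, rfl⟩
      rw [e, closure_Ioo zero_ne_one]
      exact ht
    have h2 := (dense_pi Set.univ fun (i : ι) _ => h1).prod
      (dense_univ (X := (E ⊕ E → SU) × (E → Circle)))
    refine h2.mono fun y hy => ?_
    refine Finset.prod_ne_zero_iff.2 fun i _ => pow_ne_zero _ (ne_of_gt ?_)
    have h3 := hy.1 i (Set.mem_univ i)
    refine Real.sin_pos_of_pos_of_lt_pi (mul_pos Real.pi_pos h3.1) ?_
    nlinarith [Real.pi_pos, h3.2]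
  obtain ⟨y, hy1, hy2⟩ := hd.inter_open_nonempty {y | 0 < G (zc F base y)}
    (isOpen_lt continuous_const hc) ⟨x, hx⟩
  unfold JJ
  rw [integral_pos_iff_support_of_nonneg (fun y => mul_nonneg (hr y) (h0 _))
    (Torus_int (continuous_rho.mul hc))]
  exact (continuous_rho.mul hc).isOpen_support.measure_pos _
    ⟨y, mul_ne_zero hy2 (ne_of_gt hy1)⟩

theorem JJ_add {Q : Prog L E} (F : Frames Q) (base : ι → E) {G G' : (E → ℝ) → ℝ}
    (hG : Continuous G) (hG' : Continuous G') (c : ℝ) :
    (JJ F base fun y => G y + c * G' y) = JJ F base G + c * JJ F base G' := by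
  have hc : Continuous fun x : Cfg ι E => rho x * G (zc F base x) :=
    continuous_rho.mul (hG.comp (continuous_zc F base))
  have hc' : Continuous fun x : Cfg ι E => rho x * G' (zc F base x) :=
    continuous_rho.mul (hG'.comp (continuous_zc F base))
  have hc'' : Continuous fun x : Cfg ι E => c * (rho x * G' (zc F base x)) :=
    continuous_const.mul hc'
  unfold JJ
  rw [← integral_const_mul, ← integral_add (Torus_int hc) (Torus_int hc'')]
  refine integral_congr_ae (Filter.Eventually.of_forall fun x => ?_)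
  simp only []
  ring

end Pool.Agent.P.MP_53e370_gt.S
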