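import Pool.Agent.P.MP_53e370_gt.S.Prog

/-! The doubled link is a framed link. -/

namespace Pool.Agent.P.MP_53e370_gt.S

open Pool.Agent.P.MP_ac4909_gt Rev

variable {ι E α β : Type} {L : List (Sl (Arc ι))}

theorem WLink_adj_cons (s : Sl α) (w : List (Sl α)) : adj (s :: w) = adj w ++ [adjSl s] := by
  simp [adj]

theorem WLink_adjSl_src [Rev α] (s : Sl α) : (adjSl s).src = s.tgt := by
  obtain ⟨l, g, r⟩ := s
  cases g <;> rfl

theorem WLink_adjSl_tgt [Rev α] (s : Sl α) : (adjSl s).tgt = s.src := by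
  obtain ⟨l, g, r⟩ := s
  cases g <;> rfl

theorem WLink_adjSl_adjSl (s : Sl α) : adjSl (adjSl s) = s := by
  obtain ⟨l, g, r⟩ := s
  cases g <;> simp [adjSl, adjG]

theorem WLink_adj_adj (w : List (Sl α)) : adj (adj w) = w := by
  simp [adj, List.map_reverse, Function.comp_def, WLink_adjSl_adjSl]

theorem WLink_mem_adj {w : List (Sl α)} {s : Sl α} : s ∈ adj w ↔ adjSl s ∈ w := by
  simp only [adj, List.mem_reverse, List.mem_map]
  constructor
  · rintro ⟨t, ht, rfl⟩
    rwa [WLink_adjSl_adjSl]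
  · intro h
    exact ⟨_, h, WLink_adjSl_adjSl s⟩

theorem run_adj [Rev α] {ρ σ : List α} {w : List (Sl α)} (h : Run ρ w σ) : Run σ (adj w) ρ := by
  induction w generalizing ρ with
  | nil => exact (show ρ = σ from h).symm
  | cons s w ih =>
    obtain ⟨rfl, h2⟩ := h
    rw [WLink_adj_cons]
    exact run_append.2 ⟨_, ih h2, (WLink_adjSl_src s).symm, WLink_adjSl_tgt s⟩

theorem adj_append (u w : List (Sl α)) : adj (u ++ w) = adj w ++ adj u := by
  simp [adj]

theorem adj_map (φ : α → β) (w : List (Sl α)) :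
    adj (w.map (Sl.map φ)) = (adj w).map (Sl.map φ) := by
  simp only [adj, List.map_reverse, List.map_map]
  refine congrArg _ (List.map_congr_left fun s _ => ?_)
  obtain ⟨l, g, r⟩ := s
  cases g <;> rfl

theorem WLink_run_cross1 [Rev β] (s : Bool) (y : β) (r l xs : List β) :
    Run (l ++ xs ++ y :: r) (cross1 s y r l xs) (l ++ y :: xs ++ r) := by
  induction xs generalizing l with
  | nil => simp [cross1, Run]
  | cons x xs ih =>
    refine run_append.2 ⟨l ++ [x] ++ y :: xs ++ r, ?_, ?_⟩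
    · simpa using ih (l ++ [x])
    · simp [Run, Sl.src, Sl.tgt, Gen.src, Gen.tgt]

theorem WLink_run_cross [Rev β] (s : Bool) (xs r l ys : List β) :
    Run (l ++ xs ++ ys ++ r) (cross s xs r l ys) (l ++ ys ++ xs ++ r) := by
  induction ys generalizing l with
  | nil => simp [cross, Run]
  | cons y ys ih =>
    refine run_append.2 ⟨l ++ y :: xs ++ (ys ++ r), ?_, ?_⟩
    · simpa using WLink_run_cross1 s y (ys ++ r) l xs
    · simpa using ih (l ++ [y])

theorem run_ringHalf [Rev β] (M l : List β) (x : β) (r : List β) (o : β) :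
    Run (M ++ l ++ x :: r) (ringHalf M l x r o) (M ++ [o, rev o] ++ l ++ x :: r) := by
  refine ⟨by simp [Sl.src, Gen.src], ?_⟩
  refine run_append.2 ⟨M ++ [o] ++ l ++ [rev o] ++ x :: r,
    run_append.2 ⟨M ++ [o] ++ l ++ [rev o] ++ x :: r, ?_, ?_⟩, ?_⟩
  · simpa [Sl.tgt, Gen.tgt] using WLink_run_cross false [rev o] (x :: r) (M ++ [o]) l
  · simp [Run, Sl.src, Sl.tgt, Gen.src, Gen.tgt]
  · simpa using WLink_run_cross true l (x :: r) (M ++ [o]) [rev o]

theorem run_rings (arc : E → Arc ι) (M : List (Arc (ι ⊕ E))) (l ρ : List E) :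
    Run (M ++ (l ++ ρ).map (bigA arc)) (rings arc M l ρ)
      (M ++ zone ι ρ ++ (l ++ ρ).map (bigA arc)) := by
  induction ρ generalizing l with
  | nil => simp [rings, zone, Run]
  | cons x ρ ih =>
    refine run_append.2 ⟨M ++ zone ι ρ ++ (l ++ [x] ++ ρ).map (bigA arc), ?_, ?_⟩
    · simpa using ih (l ++ [x])
    · simpa [zone] using run_ringHalf (M ++ zone ι ρ) (l.map (bigA arc)) (bigA arc x)
        (ρ.map (bigA arc)) (rgA ι x)

theorem WLink_ok_big {arc : E → Arc ι} {s : NSl E} (h : s.ok arc) : s.ok (bigA arc) := by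
  obtain ⟨l, g, r⟩ := s
  refine ⟨fun z hz => ?_, ?_⟩
  · simp only [bigA, h.1 z hz]
  · have h2 := h.2
    cases g <;> simp only [NGen.ok] at h2 ⊢ <;> simp [bigA, h2]

theorem WLink_shl_src [Rev α] (M : List α) (s : Sl α) : (shl M s).src = M ++ s.src := by
  simp [shl, Sl.src]

theorem WLink_shl_tgt [Rev α] (M : List α) (s : Sl α) : (shl M s).tgt = M ++ s.tgt := by
  simp [shl, Sl.tgt]

theorem run_top {arc : E → Arc ι} {ρ : List E} {P : List (NSl E)} (hrun : NRun ρ P)
    (hok : ∀ s ∈ P, s.ok arc) (M : List (Arc (ι ⊕ E))) :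
    Run (M ++ ρ.map (bigA arc)) (top arc M P) (M ++ zoneAll ι P) := by
  induction P generalizing ρ M with
  | nil =>
    obtain rfl : ρ = [] := hrun
    simp [top, zoneAll, Run]
  | cons s P ih =>
    obtain ⟨rfl, h2⟩ := hrun
    have hs := WLink_ok_big (hok s List.mem_cons_self)
    refine ⟨by rw [WLink_shl_src, hs.src_sl], ?_⟩
    rw [WLink_shl_tgt, hs.tgt_sl]
    refine run_append.2 ⟨_, by simpa using run_rings arc M [] s.tgt, ?_⟩
    simpa [zoneAll] using ih h2 (fun t ht => hok t (List.mem_cons_of_mem _ ht))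
      (M ++ zone ι s.tgt)

theorem WLink_mem_zone {ρ : List E} {x : Arc (ι ⊕ E)} (h : x ∈ zone ι ρ) :
    ∃ e, x.name = .inr e := by
  induction ρ with
  | nil => cases h
  | cons y ρ ih =>
    simp only [zone, List.mem_append, List.mem_cons, List.not_mem_nil, or_false] at h
    rcases h with h | rfl | rfl
    · exact ih h
    · exact ⟨y, rfl⟩
    · exact ⟨y, rfl⟩

theorem zoneAll_relab (P : List (NSl E)) :
    (zoneAll ι P).map (relab true) = (zoneAll ι P).map (relab false) := by
  induction P with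
  | nil => rfl
  | cons s P ih =>
    simp only [zoneAll, List.map_append, ih]
    refine congrArg (· ++ _) (List.map_congr_left fun x hx => ?_)
    obtain ⟨e, he⟩ := WLink_mem_zone hx
    simp [relab, he]

theorem WLink_relab_rev (b : Bool) (x : Arc (ι ⊕ E)) : relab b (rev x) = rev (relab b x) := rfl

theorem Prog.run_W (Q : Prog L E) : Run [] Q.W [] := by
  have h := run_top (ι := ι) Q.run Q.ok []
  refine run_append.2 ⟨(zoneAll ι Q.pr).map (relab true), ?_, ?_⟩
  · simpa using h.map (relab true) (WLink_relab_rev true)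
  · rw [zoneAll_relab]
    refine run_adj ?_
    simpa using h.map (relab false) (WLink_relab_rev false)

theorem WLink_mem_cross1 {b : Bool} {y : β} {r l xs : List β} {s : Sl β}
    (h : s ∈ cross1 b y r l xs) : ∃ x ∈ xs, s.g = .cr x y b := by
  induction xs generalizing l with
  | nil => cases h
  | cons x xs ih =>
    simp only [cross1, List.mem_append, List.mem_singleton] at h
    rcases h with h | rfl
    · obtain ⟨z, hz, e⟩ := ih h
      exact ⟨z, List.mem_cons_of_mem _ hz, e⟩
    · exact ⟨x, List.mem_cons_self, rfl⟩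

theorem WLink_mem_cross {b : Bool} {xs r l ys : List β} {s : Sl β}
    (h : s ∈ cross b xs r l ys) : ∃ x ∈ xs, ∃ y ∈ ys, s.g = .cr x y b := by
  induction ys generalizing l with
  | nil => cases h
  | cons y ys ih =>
    simp only [cross, List.mem_append] at h
    rcases h with h | h
    · obtain ⟨x, hx, e⟩ := WLink_mem_cross1 h
      exact ⟨x, hx, y, List.mem_cons_self, e⟩
    · obtain ⟨x, hx, z, hz, e⟩ := ih h
      exact ⟨x, hx, z, List.mem_cons_of_mem _ hz, e⟩

/-- the slices of a half ring after its cup -/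
theorem WLink_ringHalf [Rev β] (M l : List β) (x : β) (r : List β) (o : β) :
    ∃ w, ringHalf M l x r o = ⟨M, .cup o, l ++ x :: r⟩ :: w ∧
      ∀ s ∈ w, ∃ y b, s.g = .cr (rev o) y b ∨ s.g = .cr y (rev o) b := by
  refine ⟨_, rfl, fun s hs => ?_⟩
  simp only [List.mem_append, List.mem_cons, List.not_mem_nil, or_false] at hs
  rcases hs with (hs | rfl | rfl) | hs
  · obtain ⟨a, ha, y, -, e⟩ := WLink_mem_cross hs
    obtain rfl := List.mem_singleton.1 ha
    exact ⟨y, false, Or.inl e⟩
  · exact ⟨x, true, Or.inl rfl⟩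
  · exact ⟨x, true, Or.inr rfl⟩
  · obtain ⟨y, -, a, ha, e⟩ := WLink_mem_cross hs
    obtain rfl := List.mem_singleton.1 ha
    exact ⟨y, true, Or.inr e⟩

theorem WLink_mem_rings {arc : E → Arc ι} {M : List (Arc (ι ⊕ E))} {l ρ : List E}
    {s : Sl (Arc (ι ⊕ E))} (h : s ∈ rings arc M l ρ) :
    ∃ e, s.g = .cup (rgA ι e) ∨
      ∃ y b, s.g = .cr (rev (rgA ι e)) y b ∨ s.g = .cr y (rev (rgA ι e)) b := by
  induction ρ generalizing l with
  | nil => cases h
  | cons x ρ ih =>
    rcases List.mem_append.1 h with h | h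
    · exact ih h
    · obtain ⟨w, e, hw⟩ := WLink_ringHalf (M ++ zone ι ρ) (l.map (bigA arc)) (bigA arc x)
        (ρ.map (bigA arc)) (rgA ι x)
      rw [e] at h
      rcases List.mem_cons.1 h with rfl | h
      · exact ⟨x, Or.inl rfl⟩
      · exact ⟨x, Or.inr (hw s h)⟩

/-- the label of a cup -/
def WLink_cup (s : Sl α) : Option α :=
  match s.g with
  | .cup o => some o
  | _ => none

theorem WLink_cup_eq {s : Sl α} {o : α} : WLink_cup s = some o ↔ s.g = .cup o := by
  obtain ⟨l, g, r⟩ := s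
  cases g <;> simp [WLink_cup]

theorem WLink_cup_map (φ : α → β) (s : Sl α) : WLink_cup (s.map φ) = (WLink_cup s).map φ := by
  obtain ⟨l, g, r⟩ := s
  cases g <;> rfl

theorem WLink_cups_map (φ : α → β) (w : List (Sl α)) :
    (w.map (Sl.map φ)).filterMap WLink_cup = (w.filterMap WLink_cup).map φ := by
  rw [List.filterMap_map, List.map_filterMap]
  exact List.filterMap_congr fun s _ => WLink_cup_map φ s

theorem WLink_cups_rings (arc : E → Arc ι) (M : List (Arc (ι ⊕ E))) (l ρ : List E) :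
    (rings arc M l ρ).filterMap WLink_cup = ρ.reverse.map (rgA ι) := by
  induction ρ generalizing l with
  | nil => rfl
  | cons x ρ ih =>
    obtain ⟨w, e, hw⟩ := WLink_ringHalf (M ++ zone ι ρ) (l.map (bigA arc)) (bigA arc x)
      (ρ.map (bigA arc)) (rgA ι x)
    have h0 : w.filterMap WLink_cup = [] := by
      refine List.filterMap_eq_nil_iff.2 fun s hs => ?_
      obtain ⟨y, b, h | h⟩ := hw s hs <;> simp [WLink_cup, h]
    rw [rings, List.filterMap_append, ih, e, List.filterMap_cons_some (WLink_cup_eq.2 rfl),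
      h0]
    simp

theorem WLink_cups_top (arc : E → Arc ι) (M : List (Arc (ι ⊕ E))) (P : List (NSl E)) :
    ((top arc M P).filterMap WLink_cup).filterMap (fun x => x.name.getRight?) =
      P.flatMap fun s => s.tgt.reverse := by
  induction P generalizing M with
  | nil => rfl
  | cons s P ih =>
    have h1 : ∀ ρ : List E, (ρ.map (rgA ι)).filterMap (fun x => x.name.getRight?) = ρ := by
      intro ρ
      rw [List.filterMap_map]
      exact List.filterMap_some
    have h2 : ([shl M (s.sl (bigA arc))].filterMap WLink_cup).filterMap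
        (fun x => x.name.getRight?) = [] := by
      obtain ⟨l, g, r⟩ := s
      cases g <;> rfl
    rw [top, ← List.singleton_append, List.filterMap_append, List.filterMap_append,
      List.filterMap_append, List.filterMap_append, h2, ih, WLink_cups_rings, h1]
    simp

theorem WLink_cap_top {arc : E → Arc ι} {M : List (Arc (ι ⊕ E))} {P : List (NSl E)}
    {s : Sl (Arc (ι ⊕ E))} (h : s ∈ top arc M P) {o : Arc (ι ⊕ E)} (ho : s.g = .cap o) :
    ∃ e, o = bigA arc e := by
  induction P generalizing M with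
  | nil => cases h
  | cons t P ih =>
    rcases List.mem_cons.1 h with rfl | h
    · obtain ⟨l, g, r⟩ := t
      cases g <;> cases ho
      exact ⟨_, rfl⟩
    · rcases List.mem_append.1 h with h | h
      · obtain ⟨e, h | ⟨y, b, h | h⟩⟩ := WLink_mem_rings h <;> cases ho.symm.trans h
      · exact ih h

/-- the names of the cups of the rings in `W` -/
theorem WLink_cups_W (Q : Prog L E) :
    (Q.W.filterMap WLink_cup).filterMap (fun x => x.name.getRight?) =
      Q.pr.flatMap fun s => s.tgt.reverse := by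
  have h1 : ((adj ((top Q.arc [] Q.pr).map (Sl.map (relab false)))).filterMap
      WLink_cup).filterMap (fun x => x.name.getRight?) = [] := by
    refine List.filterMap_eq_nil_iff.2 fun x hx => ?_
    obtain ⟨s, hs, e⟩ := List.mem_filterMap.1 hx
    rw [adj_map] at hs
    obtain ⟨t, ht, rfl⟩ := List.mem_map.1 hs
    rw [WLink_cup_map] at e
    obtain ⟨o, ho, rfl⟩ := Option.map_eq_some_iff.1 e
    obtain ⟨a, rfl⟩ := WLink_cap_top (WLink_mem_adj.1 ht) (o := o)
      (by simp only [adjSl, WLink_cup_eq.1 ho]; rfl)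
    rfl
  rw [Prog.W, List.filterMap_append, List.filterMap_append, h1, List.append_nil, WLink_cups_map,
    List.filterMap_map, ← WLink_cups_top Q.arc []]
  refine List.filterMap_congr fun x _ => ?_
  obtain ⟨_ | _, b⟩ := x <;> rfl

/-- forgetting the rings -/
def WLink_big (x : Arc (ι ⊕ E)) : Option (Arc ι) := x.name.getLeft?.map fun i => ⟨i, x.up⟩

theorem WLink_erase_top (arc : E → Arc ι) (M : List (Arc (ι ⊕ E)))
    (hM : ∀ x ∈ M, ∃ e, x.name = .inr e) (P : List (NSl E)) :
    erase ((top arc M P).map (Sl.map WLink_big)) = P.map (NSl.sl arc) := by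
  induction P generalizing M with
  | nil => rfl
  | cons s P ih =>
    have h1 : erase ((rings arc M [] s.tgt).map (Sl.map WLink_big)) = [] := by
      refine List.filterMap_eq_nil_iff.2 fun t ht => ?_
      obtain ⟨u, hu, rfl⟩ := List.mem_map.1 ht
      obtain ⟨e, h | ⟨y, b, h | h⟩⟩ := WLink_mem_rings hu
      · simp only [Sl.map, h]; rfl
      · simp only [Sl.map, h]; rfl
      · simp only [Sl.map, h, Gen.map]
        rcases WLink_big y with _ | _ <;> rfl
    have h2 : (M.map WLink_big).reduceOption = [] := by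
      refine List.filterMap_eq_nil_iff.2 fun t ht => ?_
      obtain ⟨x, hx, rfl⟩ := List.mem_map.1 ht
      obtain ⟨e, he⟩ := hM x hx
      simp [WLink_big, he]
    have h3 : ∀ l : List (E × E), ((l.map fun z => bigA arc z.1).map WLink_big).reduceOption =
        l.map fun z => arc z.1 := by
      intro l
      induction l with
      | nil => rfl
      | cons z l ih => exact congrArg (arc z.1 :: ·) ih
    have h4 : erase [(shl M (s.sl (bigA arc))).map WLink_big] = [s.sl arc] := by
      obtain ⟨l, g, r⟩ := s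
      have h5 : ((NGen.gen (bigA arc) g).map WLink_big).erase = some (g.gen arc) := by
        cases g <;> rfl
      simp only [erase, shl, NSl.sl, Sl.map, List.filterMap_cons, h5, Option.map_some,
        List.filterMap_nil, List.map_append, List.reduceOption_append, h2, h3, List.nil_append]
    rw [top, List.map_cons, List.map_append, ← List.singleton_append, erase_append, erase_append,
      h4, h1, ih]
    · rfl
    · intro x hx
      rcases List.mem_append.1 hx with hx | hx
      · exact hM x hx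
      · exact WLink_mem_zone hx

theorem WLink_erase_none (w : List (Sl α)) :
    erase (w.map (Sl.map fun _ => (none : Option β))) = [] := by
  refine List.filterMap_eq_nil_iff.2 fun t ht => ?_
  obtain ⟨⟨l, g, r⟩, -, rfl⟩ := List.mem_map.1 ht
  cases g <;> rfl

theorem WLink_erase_adj (w : List (Sl (Option α))) : erase (adj w) = adj (erase w) := by
  induction w with
  | nil => rfl
  | cons s w ih =>
    rw [WLink_adj_cons, erase_append, ih, ← List.singleton_append (l := w), erase_append,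
      adj_append]
    refine congrArg _ ?_
    obtain ⟨l, g, r⟩ := s
    rcases g with (_ | o) | (_ | o) | ⟨_ | x, _ | y, b⟩ <;> rfl

theorem WLink_map_map {γ : Type} (φ : α → β) (ψ : β → γ) (w : List (Sl α)) :
    (w.map (Sl.map φ)).map (Sl.map ψ) = w.map (Sl.map (ψ ∘ φ)) := by
  rw [List.map_map]
  exact List.map_congr_left fun s _ => ref_map_map φ ψ s

/-- keeping the link (`b = true`) or its mirror image (`b = false`) -/
def WLink_keep (b : Bool) (x : Arc ((ι ⊕ ι) ⊕ E)) : Option (Arc ι) :=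
  match b, x.name with
  | true, .inl (.inl i) => some ⟨i, x.up⟩
  | false, .inl (.inr i) => some ⟨i, x.up⟩
  | _, _ => none

theorem WLink_keep_rev (b : Bool) (x : Arc ((ι ⊕ ι) ⊕ E)) :
    WLink_keep b (rev x) = rev (WLink_keep b x) := by
  obtain ⟨(_ | _) | _, u⟩ := x <;> cases b <;> rfl

theorem WLink_keep_same (b : Bool) :
    WLink_keep b ∘ relab b = (WLink_big : Arc (ι ⊕ E) → Option (Arc ι)) := by
  funext ⟨x, u⟩
  cases x <;> cases b <;> rfl

theorem WLink_keep_ne (b : Bool) :
    WLink_keep b ∘ relab (!b) = fun _ : Arc (ι ⊕ E) => (none : Option (Arc ι)) := by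
  funext ⟨x, u⟩
  cases x <;> cases b <;> rfl

theorem WLink_erase_W_true (Q : Prog L E) : erase (Q.W.map (Sl.map (WLink_keep true))) = L := by
  rw [Prog.W, List.map_append, erase_append, ← adj_map, WLink_map_map, WLink_map_map,
    WLink_keep_same, WLink_erase_adj, WLink_erase_top _ _ (by simp), Q.map,
    show WLink_keep true ∘ relab false = _ from WLink_keep_ne true, WLink_erase_none]
  exact List.append_nil _

theorem WLink_erase_W_false (Q : Prog L E) :
    erase (Q.W.map (Sl.map (WLink_keep false))) = adj L := by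
  rw [Prog.W, List.map_append, erase_append, ← adj_map, WLink_map_map, WLink_map_map,
    WLink_keep_same, WLink_erase_adj, WLink_erase_top _ _ (by simp), Q.map,
    show WLink_keep false ∘ relab true = _ from WLink_keep_ne false, WLink_erase_none]
  exact List.nil_append _

/-- the mirror image of a framed link is a framed link -/
theorem WLink_framed_adj (hL : IsFramedLink L) : IsFramedLink (adj L) := by
  refine ⟨run_adj hL.1, fun i => ?_, fun L' h1 h2 => ?_⟩
  · by_contra h
    obtain ⟨s, hs, b, e⟩ := hL.2.1 i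
    have h3 := (ref_pred (fun x : Arc ι => x.name ≠ i) (fun _ hx => hx) (run_adj hL.1)
      (fun t ht x ex hx => h ⟨t, ht, x.up, by rw [ex, ← hx]⟩) (fun x hx => by cases hx)).1
      (adjSl s) (WLink_mem_adj.2 (by rwa [WLink_adjSl_adjSl]))
    refine h3.1 ⟨i, b⟩ ?_ rfl
    rw [WLink_adjSl_src]
    simp [Sl.tgt, e, Gen.tgt]
  · obtain ⟨g, hg⟩ := hL.2.2 (adj L') (run_adj h1) (by rw [← adj_map, h2, WLink_adj_adj])
    exact ⟨g, by rw [← adj_map, ← hg, WLink_adj_adj]⟩

/-- a framed link obtained by erasing strands: existence of cups -/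
theorem WLink_sub_cup {κ : Type} {W : List (Sl (Arc κ))} (φ : Arc κ → Option (Arc ι))
    (hW : erase (W.map (Sl.map φ)) = L) (hL : IsFramedLink L) (i : ι) :
    ∃ s ∈ W, ∃ x b, s.g = .cup x ∧ φ x = some ⟨i, b⟩ := by
  obtain ⟨s, hs, b, e⟩ := hL.2.1 i
  obtain ⟨t, ht, e'⟩ := ref_mem_erase.1 ⟨s, hW.symm ▸ hs, e⟩
  obtain ⟨u, hu, rfl⟩ := List.mem_map.1 ht
  have h1 := WLink_cup_eq.2 e'
  rw [WLink_cup_map] at h1
  obtain ⟨x, hx, h2⟩ := Option.map_eq_some_iff.1 h1
  exact ⟨u, hu, x, b, WLink_cup_eq.1 hx, h2⟩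

/-- a framed link obtained by erasing strands: marks of cups -/
theorem WLink_sub_mark {κ : Type} {W : List (Sl (Arc κ))} (φ : Arc κ → Option (Arc ι))
    (hφ : ∀ x, φ (rev x) = rev (φ x)) (hW : erase (W.map (Sl.map φ)) = L) (hL : IsFramedLink L)
    {W' : List (Sl (Arc κ × ℕ))} (h₁ : Run [] W' []) (h₂ : W'.map (Sl.map Prod.fst) = W) :
    ∃ g : ι → ℕ, ∀ s ∈ W', ∀ x n a, s.g = .cup (x, n) → φ x = some a → n = g a.name := by
  let ψ : Arc κ × ℕ → Option (Arc ι × ℕ) := fun x => (φ x.1).map (·, x.2)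
  have h4 : Run [] (W'.map (Sl.map ψ)) [] := h₁.map ψ (by
    rintro ⟨x, n⟩
    simp only [ψ, rev_pair, hφ]
    cases φ x <;> rfl)
  obtain ⟨g, hg⟩ := hL.2.2 _ (ref_run_erase h4) (by
    rw [ref_erase_map, WLink_map_map, ← hW, ← h₂, WLink_map_map]
    refine congrArg (fun f => erase (W'.map (Sl.map f))) ?_
    funext ⟨x, n⟩
    simp only [ψ, Function.comp_apply]
    cases φ x <;> rfl)
  refine ⟨g, fun s hs x n a e ha => ?_⟩
  obtain ⟨t, ht, e'⟩ := (ref_mem_erase (w := W'.map (Sl.map ψ)) (o := (a, n))).2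
    ⟨_, List.mem_map_of_mem hs, by simp only [Sl.map, e, Gen.map, ψ, ha]; rfl⟩
  rw [hg] at ht
  obtain ⟨⟨l, g', r⟩, -, rfl⟩ := List.mem_map.1 ht
  cases g' <;> cases e'
  rfl

theorem Prog.framed (Q : Prog L E) (hL : IsFramedLink L) : IsFramedLink Q.W := by
  have hL' := WLink_framed_adj hL
  have hperm : (Q.pr.flatMap fun s => s.tgt.reverse).Perm (Q.pr.flatMap NSl.tgt) :=
    List.Perm.flatMap_left _ fun s _ => List.reverse_perm _
  refine ⟨Q.run_W, ?_, fun W' h₁ h₂ => ?_⟩
  · rintro ((i | i) | e)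
    · obtain ⟨s, hs, x, b, e, hx⟩ := WLink_sub_cup _ (WLink_erase_W_true Q) hL i
      obtain ⟨(_ | _) | _, u⟩ := x <;> cases hx
      exact ⟨s, hs, _, e⟩
    · obtain ⟨s, hs, x, b, e, hx⟩ := WLink_sub_cup _ (WLink_erase_W_false Q) hL' i
      obtain ⟨(_ | _) | _, u⟩ := x <;> cases hx
      exact ⟨s, hs, _, e⟩
    · have h1 := hperm.mem_iff.2 (Q.all e)
      rw [← WLink_cups_W] at h1
      obtain ⟨x, hx, ex⟩ := List.mem_filterMap.1 h1
      obtain ⟨s, hs, es⟩ := List.mem_filterMap.1 hx
      obtain ⟨_ | _, u⟩ := x <;> cases ex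
      exact ⟨s, hs, u, WLink_cup_eq.1 es⟩
  · obtain ⟨g₁, hg₁⟩ := WLink_sub_mark _ (WLink_keep_rev true) (WLink_erase_W_true Q) hL h₁ h₂
    obtain ⟨g₂, hg₂⟩ := WLink_sub_mark _ (WLink_keep_rev false) (WLink_erase_W_false Q) hL' h₁ h₂
    obtain ⟨g₃, hg₃⟩ := exists_fun_of_nodup
      ((W'.filterMap WLink_cup).filterMap fun z => z.1.name.getRight?.map (·, z.2)) (by
        refine hperm.nodup_iff.2 Q.nodup |>.perm (List.Perm.of_eq ?_)
        rw [← WLink_cups_W, ← h₂, WLink_cups_map, List.filterMap_map, List.map_filterMap]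
        refine List.filterMap_congr fun z _ => ?_
        obtain ⟨⟨_ | _, u⟩, n⟩ := z <;> rfl)
    refine ⟨cl g₁ g₂ g₃, ?_⟩
    have h5 := (ref_pred (fun z : Arc ((ι ⊕ ι) ⊕ E) × ℕ => z.2 = cl g₁ g₂ g₃ z.1.name)
      (fun _ h => h) h₁ ?_ fun x hx => by cases hx).1
    · rw [← h₂, WLink_map_map]
      symm
      refine (List.map_congr_left (g := id) fun s hs => ?_).trans (List.map_id _)
      exact ref_map_fix _ s (fun z hz => Prod.ext rfl ((h5 s hs).1 z hz).symm)
        fun z hz => Prod.ext rfl ((h5 s hs).2 z hz).symm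
    · rintro s hs ⟨⟨(i | i) | e, u⟩, n⟩ es
      · exact hg₁ s hs _ n ⟨i, u⟩ es rfl
      · exact hg₂ s hs _ n ⟨i, u⟩ es rfl
      · exact (hg₃ (e, n) (List.mem_filterMap.2 ⟨_, List.mem_filterMap.2
          ⟨s, hs, WLink_cup_eq.2 es⟩, rfl⟩)).symm

end Pool.Agent.P.MP_53e370_gt.S
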