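import Pool.Agent.P.MP_53e370_gt.S.MidL
import Pool.Agent.P.MP_53e370_gt.S.GForm
import Pool.Agent.P.MP_53e370_gt.S.RedLim
import Pool.Agent.P.MP_53e370_gt.S.Torus
import Pool.Agent.P.MP_53e370_gt.S.WLink

/-! The limit of the summand of the Riemann sum. -/

namespace Pool.Agent.P.MP_53e370_gt.S

open Pool.Agent.P.MP_ac4909_gt Filter Topology MeasureTheory

variable {ι E : Type} [Fintype ι] [DecidableEq ι] [Fintype E] [DecidableEq E]
  {L : List (Sl (Arc ι))}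

theorem PtLim_cont (σ : List Bool) : Continuous (pr σ) := by
  induction σ with
  | nil => exact continuous_const
  | cons s σ ih => exact ((continuous_entry _ _).neg).mul ih

theorem PtLim_sign {d : ℤ} {n : ℕ} (h : d % 2 = (n : ℤ) % 2) : (-1 : ℂ) ^ d = (-1) ^ n := by
  rcases Nat.even_or_odd n with hn | hn
  · have : Even d := by
      obtain ⟨m, rfl⟩ := hn
      exact Int.even_iff.2 (by omega)
    rw [this.neg_one_zpow, hn.neg_one_pow]
  · have : Odd d := by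
      obtain ⟨m, rfl⟩ := hn
      exact Int.odd_iff.2 (by omega)
    rw [this.neg_one_zpow, hn.neg_one_pow]

/-- the colour at which the path `σ` must start to end at `kb` -/
theorem PtLim_en {kb J : ℕ} {σ : List Bool} (hl : σ.length ≤ J) (hJ : 2 * J ≤ kb) :
    ((((kb : ℤ) - wt σ).toNat : ℕ) : ℤ) = kb - wt σ ∧ en ((kb : ℤ) - wt σ).toNat σ = kb := by
  have h1 := abs_le.1 (abs_wt_le σ)
  have h2 : ((((kb : ℤ) - wt σ).toNat : ℕ) : ℤ) = kb - wt σ := by omega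
  have h3 := en_eq (b := ((kb : ℤ) - wt σ).toNat) (σ := σ) (by omega)
  exact ⟨h2, by omega⟩

theorem PtLim_inv {kb k J : ℕ} {σ : List Bool} (hl : σ.length ≤ J) (hJ : 2 * J ≤ kb)
    (h : en k σ = kb) : wt σ = (kb : ℤ) - k := by
  have h1 := en_le k σ
  have h3 := en_eq (b := k) (σ := σ) (by omega)
  omega

theorem PtLim_iff {nm : E → ι} {base : ι → E} (hb : ∀ i, nm (base i) = i) {π : ι → ℕ}
    {j : E → ℕ} (hj : ∀ e, j e % 2 = π (nm e) % 2) {J N : ℕ} (hJ : ∀ e, j e ≤ J) {n : ι → ℕ}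
    (h1 : ∀ i, 2 * J ≤ 2 * n i) (h2 : ∀ i, 2 * n i + J ≤ N) (k : ι → ℕ) (σ : E → List Bool) :
    (k ∈ bxp N π ∧ σ ∈ Fintype.piFinset fun e =>
        (ls (j e)).filter fun σ => en (k (nm e)) σ = 2 * n (nm e)) ↔
      k ∈ ({fun i => (((2 * n i : ℕ) : ℤ) - wt (σ (base i))).toNat} : Finset (ι → ℕ)) ∧
        σ ∈ (Fintype.piFinset fun e => ls (j e)).filter
          fun σ => ∀ e, wt (σ e) = wt (σ (base (nm e))) := by
  simp only [bxp, bx, Finset.mem_filter, Fintype.mem_piFinset, mem_ls, Finset.mem_singleton,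
    Finset.mem_range]
  constructor
  · rintro ⟨-, h⟩
    have h3 : ∀ e, wt (σ e) = ((2 * n (nm e) : ℕ) : ℤ) - k (nm e) := fun e =>
      PtLim_inv ((h e).1.le.trans (hJ e)) (h1 _) (h e).2
    refine ⟨funext fun i => ?_, fun e => (h e).1, fun e => by rw [h3, h3, hb]⟩
    rw [h3, hb]
    omega
  · rintro ⟨rfl, hl, hw⟩
    have h3 := fun i => PtLim_en (kb := 2 * n i) ((hl (base i)).le.trans (hJ _)) (h1 i)
    refine ⟨⟨fun i => ?_, fun i => ?_⟩, fun e => ⟨hl e, ?_⟩⟩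
    · have h4 := (h3 i).1
      have h5 := abs_le.1 (abs_wt_le (σ (base i)))
      have h6 := hl (base i)
      have h7 := hJ (base i)
      have h8 := h2 i
      beta_reduce
      omega
    · have h4 := (h3 i).1
      have h5 := wt_mod (σ (base i))
      have h6 := hl (base i)
      have h7 := hj (base i)
      rw [hb] at h7
      beta_reduce
      omega
    · beta_reduce
      rw [← hw e]
      exact (PtLim_en ((hl e).le.trans (hJ _)) (h1 _)).2

theorem PtLim_Gs {R : Type} [Ring R] [Algebra ℂ R] {T : TL ℂ R} {a : ℂ} (ha : a ≠ 0)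
    (hT : T.a = a) (Q : Prog L E) (hW : IsFramedLink Q.W) {N : ℕ} (h : Lev T N) {k kb : ι → ℕ}
    (hk : ∀ i, k i ≤ N) (hkb : ∀ i, kb i ≤ N) (j : E → ℕ) :
    algebraMap ℂ R (Gs a ha Q.W N k kb fun κ => ∏ e, mu a (κ e) ^ j e) =
      ∑ σ ∈ Fintype.piFinset fun e => (ls (j e)).filter fun σ => en (k (Q.nm e)) σ = kb (Q.nm e),
        Red (qOps T (fun e => k (Q.nm e)) (fun e => kb (Q.nm e)) σ) (fun e => (σ e).length)
          Q.pr 0 := by
  subst hT
  exact Gs_eq Q hW h hk hkb j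

/-- the summand as a sum over balanced paths -/
theorem PtLim_AA (hL : IsFramedLink L) (Q : Prog L E) {base : ι → E}
    (hb : ∀ i, Q.nm (base i) = i) {π : ι → ℕ} {j : E → ℕ}
    (hj : ∀ e, j e % 2 = π (Q.nm e) % 2) {J t : ℕ} (hJ : ∀ e, j e ≤ J) {n : ι → ℕ}
    (h1 : ∀ i, 2 * J ≤ 2 * n i) (h2 : ∀ i, 2 * n i + J ≤ NN t) (M : UModel (a1 t))
    (c : (E → List Bool) → ℂ)
    (hc : ∀ σ ∈ (Fintype.piFinset fun e => ls (j e)).filter
        fun σ => ∀ e, wt (σ e) = wt (σ (base (Q.nm e))),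
      Red (qOps M.T (fun e => (((2 * n (Q.nm e) : ℕ) : ℤ) - wt (σ (base (Q.nm e)))).toNat)
        (fun e => 2 * n (Q.nm e)) σ) (fun e => (σ e).length) Q.pr 0 =
        c σ • (1 : Module.End ℂ M.V)) :
    AA Q.W π j t n = ∑ σ ∈ (Fintype.piFinset fun e => ls (j e)).filter
        fun σ => ∀ e, wt (σ e) = wt (σ (base (Q.nm e))),
      (∏ i, (qq t : ℂ) * (Dl (a1 t) (((2 * n i : ℕ) : ℤ) - wt (σ (base i))).toNat *
        Dl (a1 t) (2 * n i) / DD (a1 t) (NN t))) * c σ := by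
  apply (algebraMap ℂ (Module.End ℂ M.V)).injective
  rw [AA, map_sum, map_sum]
  have h3 : ∀ k ∈ bxp (NN t) π, algebraMap ℂ (Module.End ℂ M.V)
      ((∏ i, (qq t : ℂ) * (Dl (a1 t) (k i) * Dl (a1 t) (2 * n i) / DD (a1 t) (NN t))) *
        Gs (a1 t) (a1_ne t) Q.W (NN t) k (fun i => 2 * n i) fun κ => ∏ e, mu (a1 t) (κ e) ^ j e) =
      ∑ σ ∈ Fintype.piFinset fun e =>
          (ls (j e)).filter fun σ => en (k (Q.nm e)) σ = 2 * n (Q.nm e),
        (∏ i, (qq t : ℂ) * (Dl (a1 t) (k i) * Dl (a1 t) (2 * n i) / DD (a1 t) (NN t))) •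
          Red (qOps M.T (fun e => k (Q.nm e)) (fun e => 2 * n (Q.nm e)) σ)
            (fun e => (σ e).length) Q.pr 0 := by
    intro k hk
    have hk' : ∀ i, k i ≤ NN t := fun i => Nat.lt_succ_iff.1
      (Finset.mem_range.1 (Fintype.mem_piFinset.1 (Finset.mem_filter.1 hk).1 i))
    rw [map_mul, PtLim_Gs (a1_ne t) M.a_eq Q (Q.framed hL) (lev_M M) hk'
      (fun i => (Nat.le_add_right _ _).trans (h2 i)) j, ← Algebra.smul_def, Finset.smul_sum]
  rw [Finset.sum_congr rfl h3, Finset.sum_comm' (PtLim_iff hb hj hJ h1 h2)]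
  refine Finset.sum_congr rfl fun σ hσ => ?_
  rw [Finset.sum_singleton, hc σ hσ, smul_smul, Algebra.algebraMap_eq_smul_one]

theorem PtLim_int {Q : Prog L E} (F : Frames Q) {base : ι → E} (hb : ∀ i, Q.nm (base i) = i)
    (j : E → ℕ) (ζ : ι → Circle) :
    ∑ σ ∈ (Fintype.piFinset fun e => ls (j e)).filter
        fun σ => ∀ e, wt (σ e) = wt (σ (base (Q.nm e))),
      ∫ ω, ∏ e, pr (σ e) ((F.a ζ ω e)⁻¹ * F.g ζ ω e) ∂(hpi (E ⊕ E) SU) =
      ((∫ ω, ∫ τ, ∏ e, zz F base ζ ω τ e ^ j e ∂(hpi E Circle) ∂(hpi (E ⊕ E) SU) : ℝ) : ℂ) := by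
  have hP : IsProbabilityMeasure (hpi (E ⊕ E) SU) := by
    unfold hpi
    infer_instance
  have hO : OpensMeasurableSpace (E ⊕ E → SU) := inferInstance
  rw [← integral_finsetSum, ← integral_complex_ofReal]
  · exact integral_congr_ae (Eventually.of_forall fun ω =>
      torus hb j fun e => (F.a ζ ω e)⁻¹ * F.g ζ ω e)
  · intro σ _
    refine Continuous.integrable_of_hasCompactSupport ?_ (HasCompactSupport.of_compactSpace _)
    refine continuous_finsetProd _ fun e _ => (PtLim_cont _).comp (Continuous.mul ?_ ?_)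
    · exact ((continuous_apply e).comp (F.ca.comp (Continuous.prodMk_right ζ))).inv
    · exact (continuous_apply e).comp (F.cg.comp (Continuous.prodMk_right ζ))

theorem AA_lim (hL : IsFramedLink L) {Q : Prog L E} (F : Frames Q) {base : ι → E}
    (hb : ∀ i, Q.nm (base i) = i) (π : ι → ℕ) (j : E → ℕ) (hj : ∀ e, j e % 2 = π (Q.nm e) % 2)
    (θ : ι → unitInterval) (hθ : ∀ i, 0 < θ i ∧ θ i < 1) :
    Tendsto (fun t => AA Q.W π j t fun i => ⌊(θ i : ℝ) * qq t⌋₊) atTop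
      (𝓝 ((-1) ^ (∑ i, π i) * sgP j Q.pr * (((∏ i, Real.sin (Real.pi * θ i) ^ 2) *
        ∫ ω, ∫ τ, ∏ e, zz F base (fun i => zt (θ i)) ω τ e ^ j e
          ∂(hpi E Circle) ∂(hpi (E ⊕ E) SU) : ℝ) : ℂ))) := by
  have M : ∀ t, UModel (a1 t) := fun t => (exists_M t).some
  have hS : Seq fun t => (M t).T :=
    ⟨fun t => (lev_M (M t)).ok, tendsto_a1.congr fun t => (M t).a_eq.symm⟩
  have hmid := fun i => mid_floor (fun t => (M t).T) (fun t => (M t).a_eq) (hθ i).1 (hθ i).2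
  have hJ : ∀ e, j e ≤ ∑ e, j e := fun e =>
    Finset.single_le_sum (fun _ _ => Nat.zero_le _) (Finset.mem_univ e)
  have h1 : ∀ᶠ t in atTop, ∀ i, 2 * ∑ e, j e ≤ 2 * ⌊(θ i : ℝ) * qq t⌋₊ :=
    eventually_all.2 fun i => (hmid i).big.eventually_ge_atTop _
  have h2 : ∀ᶠ t in atTop, ∀ i, 2 * ⌊(θ i : ℝ) * qq t⌋₊ + ∑ e, j e ≤ NN t :=
    eventually_all.2 fun i => floor_far (hθ i).2 _
  have hlen : ∀ σ ∈ (Fintype.piFinset fun e => ls (j e)).filter
      fun σ => ∀ e, wt (σ e) = wt (σ (base (Q.nm e))), ∀ e, (σ e).length = j e := fun σ hσ e =>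
    mem_ls.1 (Fintype.mem_piFinset.1 (Finset.mem_filter.1 hσ).1 e)
  have hred := fun σ (hσ : σ ∈ (Fintype.piFinset fun e => ls (j e)).filter
      fun σ => ∀ e, wt (σ e) = wt (σ (base (Q.nm e)))) => red_lim hS F
    (k := fun t i => (((2 * ⌊(θ i : ℝ) * qq t⌋₊ : ℕ) : ℤ) - wt (σ (base i))).toNat)
    (kb := fun t i => 2 * ⌊(θ i : ℝ) * qq t⌋₊) (σ := σ) (ζ := fun i => zt (θ i))
    ⟨fun e => hmid _, fun t e => even_two_mul _, fun e => h1.mono fun t ht => by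
      rw [← (Finset.mem_filter.1 hσ).2 e]
      exact (PtLim_en ((hlen σ hσ e).le.trans (hJ e)) (ht _)).2⟩
  choose! c hc1 hc2 using hred
  have h3 := (Finset.eventually_all _).2 hc1
  refine Tendsto.congr' (((h1.and h2).and h3).mono fun t ht =>
    (PtLim_AA hL Q hb hj hJ ht.1.1 ht.1.2 (M t) (fun σ => c σ t) ht.2).symm) ?_
  rw [Complex.ofReal_mul, ← PtLim_int F hb j, Finset.mul_sum, Finset.mul_sum]
  refine tendsto_finsetSum _ fun σ hσ => ?_
  have h4 := (tendsto_finsetProd Finset.univ fun i _ => dens_lim (θ := θ i)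
    (fun t => (((2 * ⌊(θ i : ℝ) * qq t⌋₊ : ℕ) : ℤ) - wt (σ (base i))).toNat) (wt (σ (base i)))
    (h1.mono fun t ht => by
      rw [(PtLim_en ((hlen σ hσ _).le.trans (hJ _)) (ht i)).1, sub_add_cancel])).mul (hc2 σ hσ)
  refine (congrArg (fun x => Tendsto _ atTop (𝓝 x)) ?_).mp h4
  have h5 : ∀ i, (-1 : ℂ) ^ wt (σ (base i)) = (-1) ^ π i := fun i => PtLim_sign (by
    have h6 := wt_mod (σ (base i))
    have h7 := hj (base i)
    rw [hb] at h7
    rw [hlen σ hσ] at h6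
    omega)
  rw [funext (hlen σ hσ), Finset.prod_mul_distrib, Finset.prod_congr rfl fun i _ => h5 i,
    Finset.prod_pow_eq_pow_sum, Complex.ofReal_prod]
  ring

end Pool.Agent.P.MP_53e370_gt.S
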