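import Pool.Agent.P.MP_53e370_gt.S.RingF

/-! The ring lemma: a ring with the Kirby colour cuts the two strands it clasps. -/

namespace Pool.Agent.P.MP_53e370_gt.S

open Pool.Agent.P.MP_ac4909_gt

variable {K : Type} [Field K] {R : Type} [Ring R] [Algebra K R] {T : TL K R}

/-- `w` strands pass over a local element -/
theorem RingCut_conj {j k j' k' : ℕ} {Z : ℕ → R} (hZ : T.Loc (j + k) (j' + k') Z) (w q : ℕ) :
    T.crC true w j' q * Z (q + w) * T.crC false j w q =
      T.crC false k' w (q + j') * Z q * T.crC true w k (q + j) := by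
  have h := hZ.natR true w q
  rw [T.hexR, T.hexR] at h
  have e1 : T.crC false k' w (q + j') * T.crC true w k' (q + j') = 1 := T.r2C true w k' (q + j')
  have e2 : T.crC true w j q * T.crC false j w q = 1 := T.r2C false j w q
  calc T.crC true w j' q * Z (q + w) * T.crC false j w q
      = T.crC false k' w (q + j') * (T.crC true w k' (q + j') * T.crC true w j' q * Z (q + w)) *
          T.crC false j w q := by
        rw [← mul_assoc, ← mul_assoc, e1, one_mul]
    _ = T.crC false k' w (q + j') * Z q * T.crC true w k (q + j) *
          (T.crC true w j q * T.crC false j w q) := by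
        rw [h]; simp only [mul_assoc]
    _ = _ := by rw [e2, mul_one]

/-- a zigzag around a local element -/
theorem RingCut_zig {m n : ℕ} {W : ℕ → R} (hW : T.Loc m n W) (c q : ℕ) :
    T.capC c (q + c) * W (q + c + c) * T.cupC c q = W q := by
  have h := (T.loc_cupC c).far' hW q q (q + c + c) (by omega) (by omega)
  rw [mul_assoc, ← h, ← mul_assoc, T.zigC, one_mul]

/-- the half turn of a crossing -/
theorem RingCut_rot (T : TL K R) (j c p : ℕ) :
    T.crC true j c (p + c + j) * T.cupC j (p + c) * T.cupC c p =
      T.crC true j c p * T.cupC c (p + j) * T.cupC j p := by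
  have h1 : T.crC true j c p * T.cupC c (p + j) = T.crC false c j (p + c) * T.cupC c p :=
    T.cupSlC true j c p
  have h2 : T.crC false c j (p + c) * T.cupC j (p + c + c) =
      T.crC true j c (p + c + j) * T.cupC j (p + c) := T.cupSlC false c j (p + c)
  have h3 := (T.loc_cupC c).far' (T.loc_cupC j) p p (p + c + c) (by omega) (by omega)
  rw [h1, ← h2, mul_assoc, mul_assoc, h3]

/-- the ring is slid around the cup -/
theorem RingCut_slide {k c m n : ℕ} {Y : ℕ → R} (hY : T.Loc (k + m) (c + n) Y) (j p : ℕ) :
    T.capC j p * (T.crC false c j (p + j) * T.crC false j c (p + j)) * Y (p + j + j) *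
        (T.crC true k j (p + j) * T.crC true j k (p + j)) * T.cupC j p =
      T.capC c (p + c) * Y (p + c + c) * ringN T j (c + k) (p + c) * T.cupC c p := by
  have hW : T.Loc (j + k + m) (c + j + n) fun q => T.crC false j c q * Y (q + j) *
      (T.crC true k j q * T.crC true j k q) :=
    TL.Loc.mul (TL.Loc.mul ((T.loc_crC false j c).padR n)
      ((hY.padL j).cast (by omega) (by omega) fun _ => rfl))
      ((TL.Loc.mul (T.loc_crC true k j) (T.loc_crC true j k)).padR m)
  have z := RingCut_zig hW c (p + j)
  have s1 : T.capC j (p + c) * T.crC true j c p = T.capC j p * T.crC false c j (p + j) :=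
    T.capSlC true c j p
  have s2 : T.capC c (p + c + j + j) * T.crC true c j (p + c + j) =
      T.capC c (p + c + j) * T.crC false j c (p + c + j + c) := T.capSlC true j c (p + c + j)
  have f1 := (T.loc_capC j).far' hY (p + c) (p + c + j + c + j) (p + c + c) (by omega) (by omega)
  have f2 := (T.loc_capC j).far' (T.loc_capC c) (p + c) (p + c + j + j) (p + c) (by omega)
    (by omega)
  have f3 := (T.loc_crC true c j).far' hY (p + c + j) (p + c + j + c + j) (p + c + j + c + j)
    (by omega) (by omega)
  have f4 := (T.loc_crC true j c).far' hW p (p + c + j + c) (p + c + j + c) (by omega) (by omega)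
  have f5 := (T.loc_crC true j c).far' (T.loc_capC c) p (p + c + j) (p + c + j) (by omega)
    (by omega)
  have r := RingCut_rot T j c p
  have e : p + j + c = p + c + j := by omega
  simp only [e] at z
  rw [ringN, T.hexL, T.hexR]
  symm
  calc T.capC c (p + c) * Y (p + c + c) * (T.capC j (p + c) *
          (T.crC true c j (p + c + j) * T.crC true k j (p + c + j + c)) *
          (T.crC true j k (p + c + j + c) * T.crC true j c (p + c + j)) * T.cupC j (p + c)) *
        T.cupC c p
      = T.capC c (p + c) * (Y (p + c + c) * T.capC j (p + c)) * T.crC true c j (p + c + j) *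
          (T.crC true k j (p + c + j + c) * T.crC true j k (p + c + j + c)) *
          (T.crC true j c (p + c + j) * T.cupC j (p + c) * T.cupC c p) := by
        simp only [mul_assoc]
    _ = T.capC c (p + c) * T.capC j (p + c) *
          (Y (p + c + j + c + j) * T.crC true c j (p + c + j)) *
          (T.crC true k j (p + c + j + c) * T.crC true j k (p + c + j + c)) *
          (T.crC true j c p * T.cupC c (p + j) * T.cupC j p) := by
        rw [← f1, r]; simp only [mul_assoc]
    _ = T.capC j (p + c) * (T.capC c (p + c + j + j) * T.crC true c j (p + c + j)) *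
          Y (p + c + j + c + j) *
          (T.crC true k j (p + c + j + c) * T.crC true j k (p + c + j + c)) *
          (T.crC true j c p * T.cupC c (p + j) * T.cupC j p) := by
        rw [← f2, ← f3]; simp only [mul_assoc]
    _ = T.capC j (p + c) * T.capC c (p + c + j) * (T.crC false j c (p + c + j + c) *
          Y (p + c + j + c + j) *
          (T.crC true k j (p + c + j + c) * T.crC true j k (p + c + j + c)) * T.crC true j c p) *
          T.cupC c (p + j) * T.cupC j p := by
        rw [s2]; simp only [mul_assoc]
    _ = T.capC j (p + c) * (T.capC c (p + c + j) * T.crC true j c p) *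
          (T.crC false j c (p + c + j + c) * Y (p + c + j + c + j) *
          (T.crC true k j (p + c + j + c) * T.crC true j k (p + c + j + c))) *
          T.cupC c (p + j) * T.cupC j p := by
        rw [← f4]; simp only [mul_assoc]
    _ = T.capC j (p + c) * T.crC true j c p * (T.capC c (p + c + j) *
          (T.crC false j c (p + c + j + c) * Y (p + c + j + c + j) *
          (T.crC true k j (p + c + j + c) * T.crC true j k (p + c + j + c))) *
          T.cupC c (p + j)) * T.cupC j p := by
        rw [← f5]; simp only [mul_assoc]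
    _ = _ := by rw [z, s1]; simp only [mul_assoc]

/-- the element with the two clasped groups of strands moved to the left -/
theorem RingCut_loc {w k r wb kb rb : ℕ} {Y : ℕ → R} (hY : T.Loc (w + k + r) (wb + kb + rb) Y) :
    T.Loc (k + (w + r)) (kb + (wb + rb)) fun q => T.crC true wb kb q * Y q * T.crC false k w q :=
  (TL.Loc.mul (TL.Loc.mul ((T.loc_crC true wb kb).padR rb) hY)
    ((T.loc_crC false k w).padR r)).cast (by omega) (by omega) fun _ => rfl

theorem RgN_eq {w k r wb kb rb : ℕ} {Y : ℕ → R} (hY : T.Loc (w + k + r) (wb + kb + rb) Y)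
    (j p : ℕ) : RgN T j w k wb kb Y p = T.crC false kb wb p *
      (T.capC kb (p + kb) * T.crC true wb kb (p + kb + kb) * Y (p + kb + kb) *
        T.crC false k w (p + kb + kb) * ringN T j (kb + k) (p + kb) * T.cupC kb p) *
      T.crC true w k p := by
  have c1 := RingCut_conj (TL.Loc.mul (T.loc_crC true k j) (T.loc_crC true j k)) w (p + j)
  have c2 := RingCut_conj (TL.Loc.mul (T.loc_crC false kb j) (T.loc_crC false j kb)) wb (p + j)
  have s := RingCut_slide (RingCut_loc hY) j p
  have f1 := (T.loc_capC j).far' (T.loc_crC false kb wb) p (p + j + j) p (by omega) (by omega)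
  have f2 := (T.loc_cupC j).far' (T.loc_crC true w k) p p (p + j + j) (by omega) (by omega)
  calc RgN T j w k wb kb Y p
      = T.capC j p * (T.crC true wb j (p + j) *
          (T.crC false kb j (p + j + wb) * T.crC false j kb (p + j + wb)) *
          T.crC false j wb (p + j)) * Y (p + j + j) *
          (T.crC true w j (p + j) * (T.crC true k j (p + j + w) * T.crC true j k (p + j + w)) *
          T.crC false j w (p + j)) * T.cupC j p := by
        simp only [RgN, sand, LinearMap.coe_mk, AddHom.coe_mk, mul_assoc, add_assoc]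
    _ = T.capC j p * T.crC false kb wb (p + j + j) *
          (T.crC false kb j (p + j) * T.crC false j kb (p + j)) *
          (T.crC true wb kb (p + j + j) * Y (p + j + j) * T.crC false k w (p + j + j)) *
          (T.crC true k j (p + j) * T.crC true j k (p + j)) *
          (T.crC true w k (p + j + j) * T.cupC j p) := by
        rw [c1, c2]; simp only [mul_assoc]
    _ = T.crC false kb wb p * (T.capC j p *
          (T.crC false kb j (p + j) * T.crC false j kb (p + j)) *
          (T.crC true wb kb (p + j + j) * Y (p + j + j) * T.crC false k w (p + j + j)) *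
          (T.crC true k j (p + j) * T.crC true j k (p + j)) * T.cupC j p) * T.crC true w k p := by
        rw [f1, ← f2]; simp only [mul_assoc]
    _ = _ := by rw [s]; simp only [mul_assoc]

theorem RingCut_OmR {w k r wb kb rb : ℕ} {Y : ℕ → R} (hY : T.Loc (w + k + r) (wb + kb + rb) Y)
    (q : Polynomial K) (p : ℕ) : OmR T q w k wb kb Y p = T.crC false kb wb p *
      (T.capC kb (p + kb) * (T.crC true wb kb (p + kb + kb) * Y (p + kb + kb) *
        T.crC false k w (p + kb + kb)) * Om T q (kb + k) (p + kb) * T.cupC kb p) *
      T.crC true w k p := by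
  rw [OmR, Om, Polynomial.aeval_def, Polynomial.eval₂_eq_sum, Polynomial.sum, Polynomial.sum,
    LinearMap.sum_apply, Finset.sum_apply, Finset.mul_sum, Finset.sum_mul, Finset.mul_sum,
    Finset.sum_mul]
  refine Finset.sum_congr rfl fun n _ => ?_
  rw [LinearMap.smul_apply, Pi.smul_apply, RgN_eq hY, ringN_pow, ← Algebra.smul_def]
  simp only [mul_smul_comm, smul_mul_assoc, mul_assoc]

theorem ring_cut {N : ℕ} (h : Lev T N) {w k r wb kb rb : ℕ} (hk : k ≤ N) (hkb : kb ≤ N)
    {Y : ℕ → R} (hY : T.Loc (w + k + r) (wb + kb + rb) Y)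
    (hr : ∀ p, Y p * T.f k (p + w) = Y p) (hl : ∀ p, T.f kb (p + wb) * Y p = Y p) (j : ℕ) :
    OmR T (Fp T.a N j) w k wb kb Y = ∑ σ ∈ (ls j).filter fun σ => en k σ = kb,
      (DD T.a N / Dl T.a kb) • Cut T σ w k wb kb Y := by
  funext p
  have hY' := RingCut_loc hY
  have a1 : ∀ q, T.crC true wb kb q * Y q * T.crC false k w q * T.f k q =
      T.crC true wb kb q * Y q * T.crC false k w q := fun q => by
    rw [mul_assoc, (T.loc_f k).natL false w q, ← mul_assoc, mul_assoc _ (Y q), hr]
  have a2 : ∀ q, T.f kb q * (T.crC true wb kb q * Y q * T.crC false k w q) =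
      T.crC true wb kb q * Y q * T.crC false k w q := fun q => by
    rw [← mul_assoc, ← mul_assoc, ← (T.loc_f kb).natR true wb q, mul_assoc _ _ (Y q), hl]
  have a3 := (h.ok.rot kb).cap (T.loc_f kb) (T.loc_f kb) (p + kb)
  have a4 := (T.loc_f kb).far' hY' (p + kb) (p + kb + kb) (p + kb + kb) (by omega) (by omega)
  have a5 := (T.loc_f kb).far' (T.loc_f k) (p + kb) (p + kb + kb) (p + kb + kb) (by omega)
    (by omega)
  have a6 := Om_nat ((T.loc_f kb).tens (T.loc_f k)) (Fp T.a N j) (p + kb)
  have a7 : T.capC kb (p + kb) * (T.crC true wb kb (p + kb + kb) * Y (p + kb + kb) *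
        T.crC false k w (p + kb + kb)) =
      T.capC kb (p + kb) * (T.crC true wb kb (p + kb + kb) * Y (p + kb + kb) *
        T.crC false k w (p + kb + kb)) * (T.f kb (p + kb) * T.f k (p + kb + kb)) := by
    have b1 := a1 (p + kb + kb)
    have b2 := a2 (p + kb + kb)
    generalize T.crC true wb kb (p + kb + kb) * Y (p + kb + kb) *
      T.crC false k w (p + kb + kb) = y at a4 b1 b2 ⊢
    rw [a5, mul_assoc, ← mul_assoc y, b1, ← a4, ← mul_assoc, ← a3, mul_assoc, b2]
  rw [RingCut_OmR hY, a7, mul_assoc _ (T.f kb (p + kb) * T.f k (p + kb + kb)), ← a6,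
    Om_ff h hk hkb, Finset.sum_apply, Finset.mul_sum, Finset.sum_mul, Finset.mul_sum,
    Finset.sum_mul]
  refine Finset.sum_congr rfl fun σ _ => ?_
  have z := RingCut_zig (loc_Em T k σ) kb p
  rw [Pi.smul_apply]
  simp only [Cut, sand, LinearMap.coe_mk, AddHom.coe_mk, mul_smul_comm, smul_mul_assoc]
  rw [← z]
  simp only [mul_assoc, add_assoc]

end Pool.Agent.P.MP_53e370_gt.S
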