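import Pool.Agent.P.MP_53e370_gt.S.Paths
import Pool.Agent.P.MP_ac4909_gt.Scal

/-! The Kirby colour with meridians on a ring around two coloured strands. -/

namespace Pool.Agent.P.MP_53e370_gt.S

open Pool.Agent.P.MP_ac4909_gt

variable {K : Type} [Field K] {R : Type} [Ring R] [Algebra K R] {T : TL K R}

/-- value of the Chebyshev polynomial -/
noncomputable def RingF_e (z : K) (n : ℕ) : K := (Polynomial.Chebyshev.S K n).eval z

theorem RingF_e_zero (z : K) : RingF_e z 0 = 1 := by simp [RingF_e]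

theorem RingF_e_one (z : K) : RingF_e z 1 = z := by simp [RingF_e]

theorem RingF_e_two (z : K) (n : ℕ) :
    RingF_e z (n + 2) = z * RingF_e z (n + 1) - RingF_e z n := by
  unfold RingF_e
  push_cast
  rw [Polynomial.Chebyshev.S_add_two]
  simp

theorem RingF_closed {u v : K} (h : u * v = 1) (n : ℕ) :
    (u - v) * RingF_e (-u - v) n = (-1) ^ n * (u ^ (n + 1) - v ^ (n + 1)) := by
  induction n using Nat.twoStepInduction with
  | zero => simp [RingF_e_zero]
  | one => rw [RingF_e_one]; ring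
  | more n h1 h2 =>
    rw [RingF_e_two]
    linear_combination (-u - v) * h2 - h1 +
      (-1) ^ n * (u ^ (n + 1) - v ^ (n + 1)) * h

theorem RingF_key {a : K} (ha : a ≠ 0) (c n : ℕ) :
    (a ^ 2 - a⁻¹ ^ 2) * (Dl a c * RingF_e (mu a c) n) =
      (-1) ^ (c + n) * (a ^ (2 * ((c + 1) * (n + 1))) - a⁻¹ ^ (2 * ((c + 1) * (n + 1)))) := by
  have h : a ^ (2 * c + 2) * a⁻¹ ^ (2 * c + 2) = 1 := by
    rw [← mul_pow, mul_inv_cancel₀ ha, one_pow]
  rw [← mul_assoc, Dl_closed a ha, mul_assoc, mu, RingF_closed h, ← pow_mul, ← pow_mul,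
    show (2 * c + 2) * (n + 1) = 2 * ((c + 1) * (n + 1)) by ring, pow_add, mul_assoc]

theorem RingF_symm {a : K} (ha : a ≠ 0) (hs : a ^ 2 - a⁻¹ ^ 2 ≠ 0) (c n : ℕ) :
    Dl a c * RingF_e (mu a c) n = Dl a n * RingF_e (mu a n) c := by
  apply mul_left_cancel₀ hs
  rw [RingF_key ha, RingF_key ha, add_comm c n, mul_comm (c + 1)]

theorem RingF_dlt (a : K) (n : ℕ) : RingF_e (dlt a) n = Dl a n := by
  induction n using Nat.twoStepInduction with
  | zero => exact RingF_e_zero _
  | one => exact RingF_e_one _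
  | more n h1 h2 => rw [RingF_e_two, h1, h2, Dl]

theorem RingF_eval (a : K) (N j : ℕ) (z : K) :
    (Fp a N j).eval z = ∑ n ∈ Finset.range (N + 1), Dl a n * mu a n ^ j * RingF_e z n := by
  simp only [Fp, Polynomial.eval_finsetSum, Polynomial.eval_mul, Polynomial.eval_C, RingF_e]

theorem RingF_CD (z w : K) (n : ℕ) :
    (z - w) * ∑ k ∈ Finset.range (n + 1), RingF_e w k * RingF_e z k =
      RingF_e z (n + 1) * RingF_e w n - RingF_e z n * RingF_e w (n + 1) := by
  induction n with
  | zero => simp [RingF_e_zero, RingF_e_one]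
  | succ n ih =>
    rw [Finset.sum_range_succ, mul_add, ih, RingF_e_two, RingF_e_two]
    ring

theorem Fp_rec {a : K} (ha : a ≠ 0) (hs : a ^ 2 - a⁻¹ ^ 2 ≠ 0) (N j c : ℕ) :
    (Fp a N (j + 1)).eval (mu a c) * Dl a c = (Fp a N j).eval (mu a (c + 1)) * Dl a (c + 1) +
      if c = 0 then 0 else (Fp a N j).eval (mu a (c - 1)) * Dl a (c - 1) := by
  cases c with
  | zero =>
    simp only [RingF_eval, Finset.sum_mul, if_true, add_zero]
    refine Finset.sum_congr rfl fun n _ => ?_
    have h0 := RingF_symm ha hs 0 n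
    have h1 := RingF_symm ha hs (0 + 1) n
    rw [RingF_e_zero] at h0
    rw [zero_add, RingF_e_one] at h1
    rw [zero_add]
    linear_combination (Dl a n * mu a n ^ (j + 1)) * h0 - (Dl a n * mu a n ^ j) * h1
  | succ c =>
    simp only [RingF_eval, Finset.sum_mul, Nat.succ_ne_zero, if_false, Nat.add_sub_cancel,
      ← Finset.sum_add_distrib]
    refine Finset.sum_congr rfl fun n _ => ?_
    have h0 := RingF_symm ha hs c n
    have h1 := RingF_symm ha hs (c + 1) n
    have h2 := RingF_symm ha hs (c + 2) n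
    rw [RingF_e_two] at h2
    linear_combination (Dl a n * mu a n ^ (j + 1)) * h1 - (Dl a n * mu a n ^ j) * (h2 + h0)

theorem RingF_mu_zero (a : K) : mu a 0 = dlt a := by simp [mu, dlt]

theorem Fp_zero_zero (a : K) (N : ℕ) : (Fp a N 0).eval (mu a 0) = DD a N := by
  rw [RingF_eval, RingF_mu_zero, DD]
  refine Finset.sum_congr rfl fun n _ => ?_
  rw [RingF_dlt]
  ring

theorem Lev.Fp_zero {N : ℕ} (h : Lev T N) {c : ℕ} (h1 : 1 ≤ c) (h2 : c ≤ N) :
    (Fp T.a N 0).eval (mu T.a c) = 0 := by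
  have h3 := RingF_CD (mu T.a c) (dlt T.a) N
  have h4 := RingF_symm T.ha h.sq c (N + 1)
  rw [h.dl, zero_mul] at h4
  have h5 := (mul_eq_zero.1 h4).resolve_left (h.adm c (by omega))
  rw [h5, RingF_dlt T.a (N + 1), h.dl, zero_mul, mul_zero, sub_zero] at h3
  have h6 := (mul_eq_zero.1 h3).resolve_left (sub_ne_zero.2 (h.mu_ne c h1 h2))
  rw [RingF_eval, ← h6]
  refine Finset.sum_congr rfl fun n _ => ?_
  rw [RingF_dlt, pow_zero, mul_one]

theorem ringN_nat {m n : ℕ} {x : ℕ → R} (hx : T.Loc m n x) (j p : ℕ) :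
    ringN T j n p * x p = x p * ringN T j m p := by
  have h1 := (T.loc_cupC j).far' hx p p (p + j + j) (by omega) (by omega)
  have h2 := hx.natR true j (p + j)
  have h3 := hx.natL true j (p + j)
  have h4 := (T.loc_capC j).far' hx p (p + j + j) p (by omega) (by omega)
  unfold ringN
  rw [mul_assoc _ (T.cupC j p), h1, ← mul_assoc, mul_assoc _ _ (x (p + j + j)), h2, ← mul_assoc,
    mul_assoc _ _ (x (p + j)), h3, ← mul_assoc, h4]
  simp only [mul_assoc]

theorem RingF_succ (T : TL K R) (j n p : ℕ) :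
    ringN T (j + 1) n p = ringN T 1 n p * ringN T j n p := by
  have h1 := (T.loc_cupC j).far' (T.loc_crC true 1 n) (p + 1) (p + 1) (p + (j + 1) + j)
    (by omega) (by omega)
  have h2 := (T.loc_capC j).far' (T.loc_crC true n 1) (p + 1) (p + (j + 1) + j) (p + 1)
    (by omega) (by omega)
  have h3 := (loc_ringN T j n).natR true 1 (p + 1)
  have h4 := T.loc_U.far' (loc_ringN T j n) p p (p + 1 + 1) (by omega) (by omega)
  have h5 : ringN T (j + 1) n p = T.C p * T.crC true n 1 (p + 1) *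
      (ringN T j n (p + 1) * T.crC true 1 n (p + 1)) * T.U p := by
    unfold ringN
    rw [T.hexL, T.hexR, TL.capC, TL.cupC, show p + 1 + j = p + (j + 1) by omega]
    simp only [mul_assoc]
    rw [← mul_assoc (T.crC true 1 n (p + (j + 1) + j)), ← h1, ← mul_assoc (T.capC j (p + 1)), h2]
    simp only [mul_assoc]
  rw [h5, ← h3, mul_assoc, mul_assoc _ _ (T.U p), ← h4]
  simp only [ringN, T.capC_one, T.cupC_one, mul_assoc]

theorem ringN_pow (T : TL K R) (j n p : ℕ) : ringN T j n p = ringN T 1 n p ^ j := by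
  induction j with
  | zero => simp [ringN, TL.capC, TL.cupC, TL.crC, T.crC_zero_left]
  | succ j ih => rw [RingF_succ, ih, pow_succ']

theorem Om_nat {m n : ℕ} {x : ℕ → R} (hx : T.Loc m n x) (q : Polynomial K) (p : ℕ) :
    Om T q n p * x p = x p * Om T q m p := by
  unfold Om
  induction q using Polynomial.induction_on' with
  | add q r hq hr => rw [map_add, map_add, add_mul, mul_add, hq, hr]
  | monomial k c =>
    rw [Polynomial.aeval_monomial, Polynomial.aeval_monomial, ← ringN_pow, ← ringN_pow,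
      ← Algebra.smul_def, ← Algebra.smul_def, smul_mul_assoc, mul_smul_comm, ringN_nat hx]

theorem RingF_Om_f (h : Ok T) (q : Polynomial K) (c p : ℕ) :
    Om T q c p * T.f c p = q.eval (mu T.a c) • T.f c p := by
  unfold Om
  induction q using Polynomial.induction_on' with
  | add q r hq hr => rw [map_add, add_mul, hq, hr, Polynomial.eval_add, add_smul]
  | monomial k b =>
    have h1 : ∀ k : ℕ, ringN T 1 c p ^ k * T.f c p = mu T.a c ^ k • T.f c p := by
      intro k
      induction k with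
      | zero => simp
      | succ k ih => rw [pow_succ', mul_assoc, ih, mul_smul_comm, h.merid, smul_smul, pow_succ]
    rw [Polynomial.aeval_monomial, Polynomial.eval_monomial, mul_assoc, h1, ← Algebra.smul_def,
      smul_smul]

theorem RingF_loc_II (T : TL K R) {n : ℕ} {τ : List Bool} (hτ : τ ∈ ls n) :
    T.Loc (en 0 τ) n (II T 0 τ) :=
  (loc_II T 0 τ).cast rfl (by rw [mem_ls.1 hτ, zero_add]) fun _ => rfl

theorem RingF_one (h : Ok T) (n p : ℕ) : ∑ τ ∈ ls n, II T 0 τ p * PP T 0 τ p = 1 :=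
  complete h 0 n p

theorem RingF_ext (h : Ok T) {A B : ℕ → ℕ → R}
    (hA : ∀ m n x, T.Loc m n x → ∀ p, A n p * x p = x p * A m p)
    (hB : ∀ m n x, T.Loc m n x → ∀ p, B n p * x p = x p * B m p)
    (hf : ∀ c p, A c p * T.f c p = B c p * T.f c p) (n p : ℕ) : A n p = B n p := by
  rw [← mul_one (A n p), ← mul_one (B n p), ← RingF_one h n p, Finset.mul_sum, Finset.mul_sum]
  refine Finset.sum_congr rfl fun τ hτ => ?_
  have h1 := RingF_loc_II T hτ
  rw [← f_PP h, ← mul_assoc, ← mul_assoc, ← mul_assoc, ← mul_assoc, hA _ _ _ h1, hB _ _ _ h1,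
    mul_assoc _ (A _ p), mul_assoc _ (B _ p), hf]

theorem RingF_step {N : ℕ} (h : Lev T N) (j n p : ℕ) :
    Om T (Fp T.a N (j + 1)) n p = T.C (p + n) * Om T (Fp T.a N j) (n + 1) p * T.U (p + n) := by
  have ho := h.ok
  refine RingF_ext ho (A := fun n p => Om T (Fp T.a N (j + 1)) n p)
    (B := fun n p => T.C (p + n) * Om T (Fp T.a N j) (n + 1) p * T.U (p + n))
    (fun m n x hx p => Om_nat hx _ p) (fun m n x hx p => ?_) (fun c p => ?_) n p
  · have h1 := hx.far' T.loc_U p (p + m) (p + n) (by omega) (by omega)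
    have h2 := hx.far' T.loc_C p (p + m) (p + n) (by omega) (by omega)
    rw [mul_assoc, ← h1, ← mul_assoc, mul_assoc (T.C _), Om_nat (hx.padR 1), ← mul_assoc, ← h2]
    simp only [mul_assoc]
  · by_cases hc : N < c
    · rw [h.f_zero hc, mul_zero, mul_zero]
    have hD : Dl T.a c ≠ 0 := h.adm c (by omega)
    have hr := Fp_rec T.ha h.sq N j c
    rw [RingF_Om_f ho]
    cases c with
    | zero =>
      have h1 := RingF_Om_f ho (Fp T.a N j) 1 p
      simp only [TL.f, mul_one] at h1
      simp only [TL.f, mul_one, zero_add, add_zero, h1, mul_smul_comm, smul_mul_assoc, T.loop]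
      simp only [Dl, mul_one, if_true, add_zero, zero_add] at hr
      rw [hr, Algebra.algebraMap_eq_smul_one, smul_smul]
    | succ b =>
      have hU := T.jw_f_U (b + 1) p 0
      have hC := T.jw_f_C (b + 1) p 0
      have hC' := T.jw_f_C b p 0
      rw [add_zero] at hU hC hC'
      have hx : T.Loc b (b + 2) fun p => T.f (b + 1) p * T.U (p + b) :=
        ((T.loc_f (b + 1)).padR 1).mul (TL.Loc.U b b le_rfl)
      have h1 : T.C (p + b) * T.f (b + 1) p = T.f b p * (T.C (p + b) * T.f (b + 1) p) := by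
        have := ho.f_f' (n := b + 1) (m := b) (j := 0) (by omega) p
        rw [add_zero] at this
        rw [← mul_assoc, hC', mul_assoc, this]
      have h2 : Om T (Fp T.a N j) (b + 2) p * T.f (b + 1) p =
          (Fp T.a N j).eval (mu T.a (b + 2)) • T.f (b + 2) p +
            (kap T.a b * (Fp T.a N j).eval (mu T.a b)) •
              (T.f (b + 1) p * T.U (p + b) * (T.C (p + b) * T.f (b + 1) p)) := by
        have h3 : T.f (b + 1) p = T.f (b + 2) p +
            kap T.a b • (T.f (b + 1) p * T.U (p + b) * (T.C (p + b) * T.f (b + 1) p)) := by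
          rw [T.jw_f_two b p, ← mul_assoc, sub_add_cancel]
        have h4 : Om T (Fp T.a N j) (b + 2) p *
            (T.f (b + 1) p * T.U (p + b) * (T.C (p + b) * T.f (b + 1) p)) =
            (Fp T.a N j).eval (mu T.a b) •
              (T.f (b + 1) p * T.U (p + b) * (T.C (p + b) * T.f (b + 1) p)) := by
          rw [← mul_assoc, Om_nat hx, mul_assoc, h1, ← mul_assoc (Om _ _ _ _), RingF_Om_f ho,
            smul_mul_assoc, mul_smul_comm]
        conv_lhs => rw [h3]
        rw [mul_add, RingF_Om_f ho, mul_smul_comm, h4, smul_smul]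
      have h5 : T.C (p + (b + 1)) * (T.f (b + 1) p * T.U (p + b) * (T.C (p + b) * T.f (b + 1) p)) *
          T.U (p + (b + 1)) = T.f (b + 1) p := by
        have z1 : T.C (p + (b + 1)) * T.U (p + b) = 1 := T.zig (p + b)
        have z2 : T.C (p + b) * T.U (p + (b + 1)) = 1 := T.zag (p + b)
        rw [← mul_assoc, ← mul_assoc, ← mul_assoc, ← hC, mul_assoc (T.f _ _), z1, mul_one,
          mul_assoc, hU, ← mul_assoc, mul_assoc (T.f _ _), z2, mul_one, ho.idem]
      rw [mul_assoc, ← hU, ← mul_assoc, mul_assoc (T.C _), h2, mul_add, add_mul, mul_smul_comm,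
        smul_mul_assoc, mul_smul_comm, smul_mul_assoc, h5,
        T.f_ptr (h.adm.mono (by omega : b + 1 + 1 ≤ N + 1)), smul_smul, ← add_smul]
      congr 1
      simp only [Nat.succ_ne_zero, if_false, Nat.add_sub_cancel] at hr
      rw [kap]
      field_simp
      linear_combination hr

theorem RingF_Om_eq {N : ℕ} (h : Lev T N) (j n p : ℕ) :
    Om T (Fp T.a N j) n p =
      T.capC j (p + n) * Om T (Fp T.a N 0) (n + j) p * T.cupC j (p + n) := by
  induction j generalizing n with
  | zero => simp [TL.capC, TL.cupC]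
  | succ j ih =>
    rw [RingF_step h, ih, TL.capC, TL.cupC, show n + 1 + j = n + (j + 1) by omega, add_assoc]
    simp only [mul_assoc]

theorem RingF_vec (h : Ok T) {a b : ℕ} {y : ℕ → R} (hy : T.Loc 0 (a + b) y) (p : ℕ) :
    ∃ c : K, T.f a p * T.f b (p + a) * y p = c • (T.f a (p + a) * T.cupC a p) ∧
      (a ≠ b → c = 0) := by
  have hy' : T.Loc a b fun q => T.capC a q * y (q + a) :=
    (((T.loc_capC a).padR b).mul ((hy.padL a).cast rfl (add_assoc a a b).symm fun _ => rfl)).cast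
      (add_zero a) (zero_add b) fun _ => rfl
  obtain ⟨c, hc, hc0⟩ := schur h hy'
  refine ⟨c, ?_, hc0⟩
  have h1 : y p = T.capC a (p + a) * y (p + a + a) * T.cupC a p := by
    rw [mul_assoc, ← (T.loc_cupC a).far' hy p p (p + a + a) (by omega) (by omega), ← mul_assoc,
      T.zigC, one_mul]
  rw [h1, (T.loc_f a).far' (T.loc_f b) p (p + a) (p + a) le_rfl rfl, mul_assoc,
    ← mul_assoc (T.f a p), (T.loc_f a).far' hy' p (p + a) (p + a) le_rfl rfl, mul_assoc,
    h.rot a p, ← mul_assoc, ← mul_assoc, hc (p + a), smul_mul_assoc]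

theorem RingF_G {N : ℕ} (h : Lev T N) {a : ℕ} (ha : a ≤ N) (b p : ℕ) :
    Om T (Fp T.a N 0) (a + b) p * (T.f a p * T.f b (p + a)) =
      if b = a then (DD T.a N / Dl T.a a) •
        (T.f a (p + a) * T.cupC a p * T.capC a p * T.f a (p + a)) else 0 := by
  have ho := h.ok
  have h1 : ∀ τ : List Bool, ∃ c : K, (τ ∈ ls (a + b) →
      T.f a p * T.f b (p + a) * Om T (Fp T.a N 0) (a + b) p * II T 0 τ p =
        c • (T.f a (p + a) * T.cupC a p)) ∧ (a ≠ b → c = 0) := by
    intro τ
    by_cases hτ : τ ∈ ls (a + b)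
    swap
    · exact ⟨0, fun h' => absurd h' hτ, fun _ => rfl⟩
    have h2 := RingF_loc_II T hτ
    have h3 : Om T (Fp T.a N 0) (a + b) p * II T 0 τ p =
        (Fp T.a N 0).eval (mu T.a (en 0 τ)) • II T 0 τ p := by
      rw [Om_nat h2, ← II_f ho, mul_assoc, ← Om_nat (T.loc_f _), RingF_Om_f ho, mul_smul_comm]
    by_cases h0 : en 0 τ = 0
    · rw [h0] at h2
      obtain ⟨c, hc, hc0⟩ := RingF_vec ho h2 p
      refine ⟨(Fp T.a N 0).eval (mu T.a (en 0 τ)) * c, fun _ => ?_, fun hab => ?_⟩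
      · rw [mul_assoc, h3, mul_smul_comm, hc, smul_smul]
      · rw [hc0 hab, mul_zero]
    · refine ⟨0, fun _ => ?_, fun _ => rfl⟩
      rw [mul_assoc, h3, zero_smul]
      by_cases hN : N < en 0 τ
      · rw [← II_f ho, h.f_zero hN, mul_zero, smul_zero, mul_zero]
      · rw [h.Fp_zero (by omega) (by omega), zero_smul, mul_zero]
  choose c hc hc0 using h1
  have h4 : Om T (Fp T.a N 0) (a + b) p * (T.f a p * T.f b (p + a)) =
      T.f a (p + a) * T.cupC a p * ∑ τ ∈ ls (a + b), c τ • PP T 0 τ p := by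
    rw [Om_nat ((T.loc_f a).tens (T.loc_f b)), ← mul_one (_ * Om _ _ _ _), ← RingF_one ho (a + b) p,
      Finset.mul_sum, Finset.mul_sum]
    refine Finset.sum_congr rfl fun τ hτ => ?_
    rw [← mul_assoc, hc τ hτ, smul_mul_assoc, mul_smul_comm]
  split_ifs with hab
  · subst hab
    have hD : Dl T.a b ≠ 0 := h.adm b (by omega)
    have h5 := (ho.rot b).cap (T.loc_f b) (T.loc_f b) p
    have h6 := RingF_Om_f ho (Fp T.a N 0) 0 p
    simp only [TL.f, mul_one, Fp_zero_zero] at h6
    have h7 := congrArg (fun z => T.capC b p * z) h4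
    rw [← mul_assoc, ← Om_nat (T.loc_capC b), h6, smul_mul_assoc, one_mul, smul_mul_assoc,
      ← mul_assoc, ← h5, mul_assoc, ho.idem, ← mul_assoc, ← mul_assoc, h5,
      T.f_closure (h.adm.mono (by omega)), ← Algebra.smul_def, ← h5] at h7
    have h8 : ∑ τ ∈ ls (b + b), c τ • PP T 0 τ p =
        (DD T.a N / Dl T.a b) • (T.capC b p * T.f b (p + b)) := by
      rw [div_eq_inv_mul, ← smul_smul, h7, smul_smul, inv_mul_cancel₀ hD, one_smul]
    rw [h4, h8, mul_smul_comm, ← mul_assoc]
  · rw [h4, Finset.sum_eq_zero fun τ _ => by rw [hc0 τ (Ne.symm hab), zero_smul], mul_zero]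

theorem Om_ff {N : ℕ} (h : Lev T N) {k kb : ℕ} (hk : k ≤ N) (hkb : kb ≤ N) (j q : ℕ) :
    Om T (Fp T.a N j) (kb + k) q * (T.f kb q * T.f k (q + kb)) =
      ∑ σ ∈ (ls j).filter fun σ => en k σ = kb, (DD T.a N / Dl T.a kb) •
        (Abs T k σ (q + kb) * T.cupC kb q * T.capC kb q * Em T k σ (q + kb)) := by
  have ho := h.ok
  have _ := hk
  have h1 := ((T.loc_f kb).tens (T.loc_f k)).far' (T.loc_cupC j) q (q + (kb + k)) (q + (kb + k))
    le_rfl rfl
  rw [RingF_Om_eq h, mul_assoc, ← h1, ← complete ho k j (q + kb), Finset.mul_sum, Finset.sum_mul,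
    Finset.mul_sum, Finset.sum_filter]
  refine Finset.sum_congr rfl fun σ hσ => ?_
  have hl := mem_ls.1 hσ
  have h2 := (T.loc_f kb).far' (loc_II T k σ) q (q + kb) (q + kb) le_rfl rfl
  have h3 := Om_nat ((loc_II T k σ).padL kb) (Fp T.a N 0) q
  rw [hl, ← add_assoc] at h3
  have h4 : T.capC j (q + (kb + k)) * Om T (Fp T.a N 0) (kb + k + j) q *
      (T.f kb q * (II T k σ (q + kb) * PP T k σ (q + kb)) * T.cupC j (q + (kb + k))) =
      Abs T k σ (q + kb) * (Om T (Fp T.a N 0) (kb + en k σ) q *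
        (T.f kb q * T.f (en k σ) (q + kb))) * Em T k σ (q + kb) := by
    rw [mul_assoc (Abs _ _ _ _), mul_assoc (Om _ _ (kb + en k σ) _), mul_assoc (T.f kb q) (T.f _ _),
      f_Em ho, Abs, Em, hl, add_assoc q, ← mul_assoc (T.f kb q), h2]
    simp only [mul_assoc]
    rw [← mul_assoc (Om _ _ (kb + k + j) _), h3]
    simp only [mul_assoc]
  rw [h4, RingF_G h hkb]
  split_ifs with he
  · have h5 := Abs_f ho k σ (q + kb)
    have h6 := f_Em ho k σ (q + kb)
    rw [he] at h5 h6
    rw [mul_smul_comm, smul_mul_assoc, ← mul_assoc, ← mul_assoc, ← mul_assoc, h5, mul_assoc, h6]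
  · rw [mul_zero, zero_mul]

end Pool.Agent.P.MP_53e370_gt.S
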