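import Pool.Agent.P.MP_53e370_gt.S.Stmt

/-! `SU(2)` as a compact group, Haar probability measures, special elements. -/

namespace Pool.Agent.P.MP_53e370_gt.S

open MeasureTheory

instance : SecondCountableTopology SU :=
  have : SecondCountableTopology (Matrix (Fin 2) (Fin 2) ℂ) :=
    inferInstanceAs (SecondCountableTopology (Fin 2 → Fin 2 → ℂ))
  TopologicalSpace.Subtype.secondCountableTopology _

instance : IsTopologicalGroup SU where
  continuous_inv := Continuous.subtype_mk (continuous_subtype_val.star) _

instance : CompactSpace SU := by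
  have hc : IsCompact (Set.univ.pi fun _ : Fin 2 => Set.univ.pi fun _ : Fin 2 =>
      Metric.closedBall (0 : ℂ) 1) :=
    isCompact_univ_pi fun _ => isCompact_univ_pi fun _ => isCompact_closedBall _ _
  have hcl : IsClosed (Matrix.specialUnitaryGroup (Fin 2) ℂ : Set (Matrix (Fin 2) (Fin 2) ℂ)) := by
    have e : (Matrix.specialUnitaryGroup (Fin 2) ℂ : Set (Matrix (Fin 2) (Fin 2) ℂ)) =
        {A | A * star A = 1} ∩ {A | A.det = 1} := by
      ext A
      simp [Matrix.mem_specialUnitaryGroup_iff, Matrix.mem_unitaryGroup_iff]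
    rw [e]
    exact (isClosed_eq (continuous_id.mul continuous_star) continuous_const).inter
      (isClosed_eq continuous_id.matrix_det continuous_const)
  refine isCompact_iff_compactSpace.1 (hc.of_isClosed_subset hcl fun A hA => ?_)
  intro i _ j _
  rw [mem_closedBall_zero_iff]
  exact entry_norm_bound_of_unitary (Matrix.mem_specialUnitaryGroup_iff.1 hA).1 i j

noncomputable instance : MeasurableSpace SU := borel SU

instance : BorelSpace SU := ⟨rfl⟩

noncomputable instance : MeasurableSpace Circle := borel Circle

instance : BorelSpace Circle := ⟨rfl⟩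

/-- Haar probability measure -/
noncomputable def hp (G : Type) [Group G] [TopologicalSpace G] [IsTopologicalGroup G]
    [CompactSpace G] [MeasurableSpace G] [BorelSpace G] : Measure G :=
  Measure.haarMeasure (⊤ : TopologicalSpace.PositiveCompacts G)

section
variable (G : Type) [Group G] [TopologicalSpace G] [IsTopologicalGroup G]
    [CompactSpace G] [MeasurableSpace G] [BorelSpace G]

instance : (hp G).IsHaarMeasure := Measure.isHaarMeasure_haarMeasure _

instance : IsProbabilityMeasure (hp G) :=
  ⟨by simpa [hp] using Measure.haarMeasure_self (K₀ := (⊤ : TopologicalSpace.PositiveCompacts G))⟩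

end

instance : Measure.IsOpenPosMeasure (volume : Measure unitInterval) := by
  refine ⟨fun U hU hne h0 => ?_⟩
  obtain ⟨V, hV, rfl⟩ := isOpen_induced_iff.1 hU
  rw [unitInterval.volume_apply, Subtype.image_preimage_coe] at h0
  obtain ⟨x, hx⟩ := hne
  have h1 : (V ∩ Set.Ioo 0 1).Nonempty := by
    have h2 : x.1 ∈ closure (Set.Ioo (0 : ℝ) 1) := by
      rw [closure_Ioo zero_ne_one]; exact x.2
    exact mem_closure_iff.1 h2 V hV hx
  refine (hV.inter isOpen_Ioo).measure_ne_zero volume h1 (measure_mono_null ?_ h0)
  exact fun y hy => ⟨Set.Ioo_subset_Icc_self hy.2, hy.1⟩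

/-- `diag(z, z⁻¹)` -/
noncomputable def dg (z : Circle) : SU :=
  ⟨!![(z : ℂ), 0; 0, (z : ℂ)⁻¹], by
    have h := Circle.coe_ne_zero z
    have h1 : (starRingEnd ℂ) (z : ℂ) = (z : ℂ)⁻¹ := (Circle.coe_inv_eq_conj z).symm.trans
      (Circle.coe_inv z)
    rw [Matrix.mem_specialUnitaryGroup_iff, Matrix.mem_unitaryGroup_iff]
    refine ⟨?_, by simp [Matrix.det_fin_two]⟩
    ext i j
    fin_cases i <;> fin_cases j <;> simp [Matrix.mul_apply, Fin.sum_univ_two, h1]⟩

/-- the half turn -/
noncomputable def Sm (z : Circle) : SU :=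
  ⟨!![0, -(z : ℂ); (z : ℂ)⁻¹, 0], by
    have h := Circle.coe_ne_zero z
    have h1 : (starRingEnd ℂ) (z : ℂ) = (z : ℂ)⁻¹ := (Circle.coe_inv_eq_conj z).symm.trans
      (Circle.coe_inv z)
    rw [Matrix.mem_specialUnitaryGroup_iff, Matrix.mem_unitaryGroup_iff]
    refine ⟨?_, by simp [Matrix.det_fin_two]⟩
    ext i j
    fin_cases i <;> fin_cases j <;> simp [Matrix.mul_apply, Fin.sum_univ_two, h1]⟩

theorem continuous_dg : Continuous dg := by
  refine Continuous.subtype_mk (continuous_matrix fun i j => ?_) _
  have h : Continuous fun z : Circle => (z : ℂ)⁻¹ :=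
    continuous_subtype_val.inv₀ fun z => Circle.coe_ne_zero z
  fin_cases i <;> fin_cases j
  · exact continuous_subtype_val
  · exact continuous_const
  · exact continuous_const
  · exact h

theorem continuous_Sm : Continuous Sm := by
  refine Continuous.subtype_mk (continuous_matrix fun i j => ?_) _
  have h : Continuous fun z : Circle => (z : ℂ)⁻¹ :=
    continuous_subtype_val.inv₀ fun z => Circle.coe_ne_zero z
  fin_cases i <;> fin_cases j
  · exact continuous_const
  · exact continuous_subtype_val.neg
  · exact h
  · exact continuous_const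

theorem continuous_entry (i j : Fin 2) : Continuous fun g : SU => g.1 i j :=
  continuous_subtype_val.matrix_elem i j

end Pool.Agent.P.MP_53e370_gt.S
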