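import Pool.Agent.P.MP_53e370_gt.S.Level
import Pool.Agent.P.MP_53e370_gt.S.Boson
import Pool.Agent.P.MP_53e370_gt.S.ExW

/-! The measure of a parity class in terms of the invariant at `bb t`. -/

namespace Pool.Agent.P.MP_53e370_gt.S

open Pool.Agent.P.MP_ac4909_gt

variable {ι E : Type} [Fintype ι] [DecidableEq ι] [Fintype E] [DecidableEq E]
  {L : List (Sl (Arc ι))}

theorem SecA_mem_bx {α : Type} [Fintype α] [DecidableEq α] {N : ℕ} {m : α → ℕ} :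
    m ∈ bx α N ↔ ∀ i, m i ≤ N := by
  simp [bx, Fintype.mem_piFinset]

theorem SecA_half {β : Type} (A : Finset β) (P : β → Prop) [DecidablePred P] (φ : β → β)
    (Φ : β → ℂ) (h1 : ∀ m ∈ A, φ m ∈ A) (h2 : ∀ m ∈ A, φ (φ m) = m)
    (h3 : ∀ m ∈ A, (P (φ m) ↔ ¬P m)) (h4 : ∀ m ∈ A, Φ (φ m) = Φ m) :
    ∑ m ∈ A, Φ m = 2 * ∑ m ∈ A.filter P, Φ m := by
  rw [← Finset.sum_filter_add_sum_filter_not A P, two_mul]
  congr 1
  refine Finset.sum_nbij' φ φ ?_ ?_ ?_ ?_ ?_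
  · intro m hm
    rw [Finset.mem_filter] at hm ⊢
    exact ⟨h1 m hm.1, (h3 m hm.1).2 hm.2⟩
  · intro m hm
    rw [Finset.mem_filter] at hm ⊢
    exact ⟨h1 m hm.1, fun h => (h3 m hm.1).1 h hm.2⟩
  · intro m hm
    exact h2 m (Finset.mem_filter.1 hm).1
  · intro m hm
    exact h2 m (Finset.mem_filter.1 hm).1
  · intro m hm
    exact (h4 m (Finset.mem_filter.1 hm).1).symm

theorem sum_bx_par {α : Type} [Fintype α] [DecidableEq α] {N : ℕ} (hN : Odd N) (π : α → ℕ)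
    (Φ : (α → ℕ) → ℂ) (h : ∀ m ∈ bx α N, ∀ i, Φ (Function.update m i (N - m i)) = Φ m) :
    ∑ m ∈ bx α N, Φ m = 2 ^ Fintype.card α * ∑ m ∈ bxp N π, Φ m := by
  have key : ∀ S : Finset α, ∑ m ∈ bx α N, Φ m =
      2 ^ S.card * ∑ m ∈ (bx α N).filter fun k => ∀ i ∈ S, k i % 2 = π i % 2, Φ m := by
    intro S
    induction S using Finset.induction_on with
    | empty => simp
    | insert i S hi ih =>
      have hN' := Nat.odd_iff.1 hN
      have e : ((bx α N).filter fun k => ∀ j ∈ insert i S, k j % 2 = π j % 2) =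
          ((bx α N).filter fun k => ∀ j ∈ S, k j % 2 = π j % 2).filter
            fun k => k i % 2 = π i % 2 := by
        ext k
        simp only [Finset.mem_filter, Finset.forall_mem_insert]
        tauto
      rw [ih, e, Finset.card_insert_of_notMem hi, pow_succ, mul_assoc]
      congr 1
      refine SecA_half _ _ (fun m => Function.update m i (N - m i)) Φ ?_ ?_ ?_ ?_
      · intro m hm
        rw [Finset.mem_filter, SecA_mem_bx] at hm ⊢
        refine ⟨fun j => ?_, fun j hj => ?_⟩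
        · by_cases hj : j = i
          · subst hj
            rw [Function.update_self]
            omega
          · rw [Function.update_of_ne hj]
            exact hm.1 j
        · rw [Function.update_of_ne fun e : j = i => hi (e ▸ hj)]
          exact hm.2 j hj
      · intro m hm
        have := SecA_mem_bx.1 (Finset.mem_filter.1 hm).1 i
        rw [Function.update_idem, Function.update_self, show N - (N - m i) = m i by omega,
          Function.update_eq_self]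
      · intro m hm
        have := SecA_mem_bx.1 (Finset.mem_filter.1 hm).1 i
        rw [Function.update_self]
        omega
      · intro m hm
        exact h m (Finset.mem_filter.1 hm).1 i
  rw [key Finset.univ, Finset.card_univ, bxp]
  congr 2
  ext k
  simp

theorem SecA_Jv_congr {α : Type} [Fintype α] {a b : ℂ} (h : a = b) (ha : a ≠ 0) (hb : b ≠ 0)
    (W : List (Sl (Arc α))) (m : α → ℕ) : Jv a ha W m = Jv b hb W m := by
  subst h
  rfl

theorem SecA_bos {α : Type} [Fintype α] [DecidableEq α] {W : List (Sl (Arc α))}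
    (hW : IsFramedLink W) (t : ℕ) {m : α → ℕ} (hm : ∀ i, m i ≤ NN t) (i : α) :
    Jv (bb t) (bb_ne t) W (Function.update m i (NN t - m i)) = Jv (bb t) (bb_ne t) W m := by
  obtain ⟨M⟩ := exists_M t
  have h := Jv_bos (bos_M M) hW {i} m hm
  have e : (fun j => if j ∈ ({i} : Finset α) then NN t - m j else m j) =
      Function.update m i (NN t - m i) := by
    funext j
    by_cases hj : j = i
    · subst hj
      simp
    · simp [hj]
  rwa [e, SecA_Jv_congr (twT_M M) _ (bb_ne t), SecA_Jv_congr (twT_M M) _ (bb_ne t)] at h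

theorem SecA_tw {α : Type} [Fintype α] [DecidableEq α] {W : List (Sl (Arc α))}
    (hW : IsFramedLink W) (t : ℕ) {m : α → ℕ} (hm : ∀ i, m i ≤ NN t) :
    Jv (bb t) (bb_ne t) W m =
      (-Complex.I) ^ Ex (fun x : Arc α => m x.name) W * Jv (a1 t) (a1_ne t) W m := by
  obtain ⟨M⟩ := exists_M t
  have h := Jv_tw M.T hW m fun i => by
    rw [M.a_eq]
    exact (adm_a1 t).mono (by have := hm i; omega)
  rwa [SecA_Jv_congr (twT_M M) _ (bb_ne t), SecA_Jv_congr M.a_eq _ (a1_ne t)] at h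

theorem SecA_Ha {α β : Type} [Fintype α] [DecidableEq α] [Fintype β]
    (W : List (Sl (Arc (α ⊕ β)))) (t : ℕ) (κ : β → ℕ) :
    Ha W t (fun e => (κ e : ℤ) + 1) = ∑ m ∈ bx α (NN t), (∏ i, Dl (bb t) (m i)) *
      Jv (bb t) (bb_ne t) W (Sum.elim m κ) := by
  refine Finset.sum_congr rfl fun m _ => ?_
  have e : Sum.elim (fun i => (m i : ℤ) + 1) (fun e => (κ e : ℤ) + 1) =
      fun i => ((Sum.elim m κ i : ℕ) : ℤ) + 1 := by
    funext i
    cases i <;> rfl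
  rw [e, Jv]

theorem SecA_prod_flip {α : Type} [Fintype α] [DecidableEq α] (t : ℕ) {m : α → ℕ}
    (hm : ∀ i, m i ≤ NN t) (i : α) :
    ∏ j, Dl (bb t) (Function.update m i (NN t - m i) j) = ∏ j, Dl (bb t) (m j) := by
  refine Finset.prod_congr rfl fun j _ => ?_
  by_cases hj : j = i
  · subst hj
    rw [Function.update_self, Dl_bb_refl (hm j)]
  · rw [Function.update_of_ne hj]

theorem SecA_elim_le {α β : Type} {N : ℕ} {m : α → ℕ} {κ : β → ℕ} (hm : ∀ i, m i ≤ N)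
    (hκ : ∀ e, κ e ≤ N) (i : α ⊕ β) : Sum.elim m κ i ≤ N := by
  cases i with
  | inl i => exact hm i
  | inr e => exact hκ e

theorem YY_flip (Q : Prog L E) (hL : IsFramedLink L) (t : ℕ) {κ : E → ℕ} (hκ : κ ∈ bx E (NN t))
    (e : E) : YY Q.W t (Function.update κ e (NN t - κ e)) = YY Q.W t κ := by
  have hκ' := SecA_mem_bx.1 hκ
  have hH : Ha Q.W t (fun e' => ((Function.update κ e (NN t - κ e) e' : ℕ) : ℤ) + 1) =
      Ha Q.W t fun e' => (κ e' : ℤ) + 1 := by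
    rw [SecA_Ha, SecA_Ha]
    refine Finset.sum_congr rfl fun m hm => ?_
    have h := SecA_bos (Q.framed hL) t (SecA_elim_le (SecA_mem_bx.1 hm) hκ') (Sum.inr e)
    rw [Sum.elim_inr] at h
    rw [Sum.elim_update_right, h]
  unfold YY
  rw [hH, SecA_prod_flip t hκ']

theorem SecA_sum_elim {N : ℕ} (π π' : ι → ℕ) (F : (ι ⊕ ι → ℕ) → ℂ) :
    ∑ m ∈ bxp N (Sum.elim π π'), F m = ∑ kb ∈ bxp N π', ∑ k ∈ bxp N π, F (Sum.elim k kb) := by
  rw [← Finset.sum_product']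
  refine Finset.sum_nbij' (fun m => (m ∘ Sum.inr, m ∘ Sum.inl)) (fun z => Sum.elim z.2 z.1)
    ?_ ?_ ?_ ?_ ?_
  · intro m hm
    rw [bxp, Finset.mem_filter, SecA_mem_bx] at hm
    rw [Finset.mem_product, bxp, bxp, Finset.mem_filter, Finset.mem_filter, SecA_mem_bx,
      SecA_mem_bx]
    exact ⟨⟨fun i => hm.1 _, fun i => hm.2 (Sum.inr i)⟩, fun i => hm.1 _,
      fun i => hm.2 (Sum.inl i)⟩
  · intro z hz
    rw [Finset.mem_product, bxp, bxp, Finset.mem_filter, Finset.mem_filter, SecA_mem_bx,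
      SecA_mem_bx] at hz
    rw [bxp, Finset.mem_filter, SecA_mem_bx]
    refine ⟨SecA_elim_le hz.2.1 hz.1.1, fun i => ?_⟩
    cases i with
    | inl i => exact hz.2.2 i
    | inr i => exact hz.1.2 i
  · intro m _
    exact Sum.elim_comp_inl_inr m
  · intro z _
    rfl
  · intro m _
    rw [Sum.elim_comp_inl_inr]

theorem SecA_zpow {z w : ℤ} (h : z ≡ w [ZMOD 4]) : (-Complex.I) ^ z = (-Complex.I) ^ w := by
  obtain ⟨c, hc⟩ := h.dvd
  have h4 : (-Complex.I) ^ (4 : ℤ) = 1 := by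
    rw [zpow_ofNat, neg_pow, Complex.I_pow_four]
    norm_num
  rw [show w = z + 4 * c by omega, zpow_add₀ (neg_ne_zero.2 Complex.I_ne_zero), zpow_mul, h4,
    one_zpow, mul_one]

theorem SecA_neg_pow {a b : ℕ} (h : a % 2 = b % 2) : (-1 : ℂ) ^ a = (-1) ^ b := by
  rw [neg_one_pow_eq_pow_mod_two, h, ← neg_one_pow_eq_pow_mod_two]

theorem SecA_term (Q : Prog L E) (hL : IsFramedLink L) (π : ι → ℕ) (t : ℕ) {κ : E → ℕ}
    (hκ : ∀ e, κ e ≤ NN t) {k kb : ι → ℕ} (hk : k ∈ bxp (NN t) π)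
    (hkb : kb ∈ bxp (NN t) (0 : ι → ℕ)) :
    (∏ i, Dl (bb t) (Sum.elim k kb i)) * Jv (bb t) (bb_ne t) Q.W (Sum.elim (Sum.elim k kb) κ) =
      ((-1) ^ (∑ i, π i) * (-Complex.I) ^ Ex (fun x : Arc ι => π x.name) L) *
        ((-1) ^ (∑ e, κ e) * (-1) ^ (∑ e, κ e * π (Q.nm e))) *
        ((∏ i, Dl (a1 t) (k i) * Dl (a1 t) (kb i)) * Jv (a1 t) (a1_ne t) Q.W (cl k kb κ)) := by
  rw [bxp, Finset.mem_filter, SecA_mem_bx] at hk hkb
  have h1 := SecA_tw (Q.framed hL) t (SecA_elim_le (SecA_elim_le hk.1 hkb.1) hκ)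
  have h2 := SecA_zpow (Ex_W Q hL.1 k kb π κ hk.2 hkb.2)
  have h3 : (2 : ℤ) * ∑ e, (κ e : ℤ) * (1 + π (Q.nm e)) =
      ((2 * (∑ e, κ e + ∑ e, κ e * π (Q.nm e)) : ℕ) : ℤ) := by
    push_cast
    rw [← Finset.sum_add_distrib]
    congr 1
    exact Finset.sum_congr rfl fun e _ => by ring
  have h4 : (-Complex.I) ^ 2 = -1 := by rw [neg_sq, Complex.I_sq]
  rw [zpow_add₀ (neg_ne_zero.2 Complex.I_ne_zero), h3, zpow_natCast, pow_mul, h4, pow_add] at h2
  have h5 : ∏ i, Dl (bb t) (Sum.elim k kb i) =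
      (-1) ^ (∑ i, π i) * ∏ i, Dl (a1 t) (k i) * Dl (a1 t) (kb i) := by
    rw [Fintype.prod_sum_type, ← Finset.prod_mul_distrib, ← Finset.prod_pow_eq_pow_sum,
      ← Finset.prod_mul_distrib]
    refine Finset.prod_congr rfl fun i _ => ?_
    rw [Sum.elim_inl, Sum.elim_inr, Dl_bb, Dl_bb, SecA_neg_pow (hk.2 i), SecA_neg_pow (hkb.2 i)]
    simp only [Pi.zero_apply, pow_zero, one_mul, mul_assoc]
  rw [h1, h5]
  change _ * ((-Complex.I) ^ Ex (fun x => cl k kb κ x.name) Q.W *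
    Jv (a1 t) (a1_ne t) Q.W (cl k kb κ)) = _
  rw [h2]
  ring

theorem mm_eq (Q : Prog L E) (hL : IsFramedLink L) (π : ι → ℕ) :
    ∃ γ : ℂ, ‖γ‖ = 1 ∧ ∀ t, ∀ κ ∈ bx E (NN t),
      mm Q.W π t κ = γ * (-1) ^ (∑ e, κ e * π (Q.nm e)) * YY Q.W t κ := by
  obtain ⟨s, hs⟩ : ∃ s : ℂ,
    s = (-1) ^ (∑ i, π i) * (-Complex.I) ^ Ex (fun x : Arc ι => π x.name) L := ⟨_, rfl⟩
  have hn : ‖s‖ = 1 := by simp [hs, norm_zpow]
  have hs0 : s ≠ 0 := fun h => by simp [h] at hn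
  refine ⟨s⁻¹, by rw [norm_inv, hn, inv_one], fun t κ hκ => ?_⟩
  have hκ' := SecA_mem_bx.1 hκ
  obtain ⟨SS, hSS⟩ : ∃ SS : ℂ, SS = ∑ kb ∈ bxp (NN t) (0 : ι → ℕ), ∑ k ∈ bxp (NN t) π,
    (∏ i, Dl (a1 t) (k i) * Dl (a1 t) (kb i)) * Jv (a1 t) (a1_ne t) Q.W (cl k kb κ) := ⟨_, rfl⟩
  have hH : Ha Q.W t (fun e => (κ e : ℤ) + 1) = 4 ^ Fintype.card ι *
      (s * ((-1) ^ (∑ e, κ e) * (-1) ^ (∑ e, κ e * π (Q.nm e))) * SS) := by
    have h1 : ∑ kb ∈ bxp (NN t) (0 : ι → ℕ), ∑ k ∈ bxp (NN t) π,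
        (∏ i, Dl (bb t) (Sum.elim k kb i)) *
          Jv (bb t) (bb_ne t) Q.W (Sum.elim (Sum.elim k kb) κ) =
        s * ((-1) ^ (∑ e, κ e) * (-1) ^ (∑ e, κ e * π (Q.nm e))) * SS := by
      rw [hSS, Finset.mul_sum]
      refine Finset.sum_congr rfl fun kb hkb => ?_
      rw [Finset.mul_sum]
      exact Finset.sum_congr rfl fun k hk => by rw [SecA_term Q hL π t hκ' hk hkb, hs]
    rw [SecA_Ha, sum_bx_par (NN_odd t) (Sum.elim π 0), SecA_sum_elim, h1, Fintype.card_sum,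
      ← two_mul, pow_mul, show (2 : ℂ) ^ 2 = 4 by norm_num]
    intro m hm i
    have hm' := SecA_mem_bx.1 hm
    have h := SecA_bos (Q.framed hL) t (SecA_elim_le hm' hκ') (Sum.inl i)
    rw [Sum.elim_inl] at h
    rw [SecA_prod_flip t hm', Sum.elim_update_left, h]
  have hm : mm Q.W π t κ = (∏ e, Dl (a1 t) (κ e)) * (DD (a1 t) (NN t))⁻¹ ^ Fintype.card E *
      ((DD (a1 t) (NN t))⁻¹ ^ Fintype.card ι * SS) := by
    have h1 : ∏ e, Dl (a1 t) (κ e) / DD (a1 t) (NN t) =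
        (∏ e, Dl (a1 t) (κ e)) * (DD (a1 t) (NN t))⁻¹ ^ Fintype.card E := by
      simp only [div_eq_mul_inv, Finset.prod_mul_distrib, Finset.prod_const, Finset.card_univ]
    have h2 : ∑ kb ∈ bxp (NN t) (0 : ι → ℕ), ∑ k ∈ bxp (NN t) π,
        (∏ i, Dl (a1 t) (k i) * Dl (a1 t) (kb i) / DD (a1 t) (NN t)) *
          Jv (a1 t) (a1_ne t) Q.W (cl k kb κ) = (DD (a1 t) (NN t))⁻¹ ^ Fintype.card ι * SS := by
      rw [hSS, Finset.mul_sum]
      refine Finset.sum_congr rfl fun kb _ => ?_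
      rw [Finset.mul_sum]
      refine Finset.sum_congr rfl fun k _ => ?_
      simp only [div_eq_mul_inv, Finset.prod_mul_distrib, Finset.prod_const, Finset.card_univ]
      ring
    rw [mm, h1, h2]
  have hP : ∏ e, Dl (bb t) (κ e) = (-1) ^ (∑ e, κ e) * ∏ e, Dl (a1 t) (κ e) := by
    rw [← Finset.prod_pow_eq_pow_sum, ← Finset.prod_mul_distrib]
    exact Finset.prod_congr rfl fun e _ => Dl_bb t (κ e)
  have e1 : ((-1 : ℂ) ^ (∑ e, κ e)) * (-1) ^ (∑ e, κ e) = 1 := by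
    rw [← mul_pow]; simp
  have e2 : ((-1 : ℂ) ^ (∑ e, κ e * π (Q.nm e))) * (-1) ^ (∑ e, κ e * π (Q.nm e)) = 1 := by
    rw [← mul_pow]; simp
  have e3 : s⁻¹ * s = 1 := inv_mul_cancel₀ hs0
  have e4 : ((4 : ℂ) ^ Fintype.card ι)⁻¹ * 4 ^ Fintype.card ι = 1 :=
    inv_mul_cancel₀ (pow_ne_zero _ (by norm_num))
  rw [hm, YY, hH, hP, mul_inv, ← inv_pow (DD (a1 t) (NN t)), pow_add]
  calc _ = (s⁻¹ * s) * (((-1 : ℂ) ^ (∑ e, κ e)) * (-1) ^ (∑ e, κ e)) *
        (((-1 : ℂ) ^ (∑ e, κ e * π (Q.nm e))) * (-1) ^ (∑ e, κ e * π (Q.nm e))) *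
        (((4 : ℂ) ^ Fintype.card ι)⁻¹ * 4 ^ Fintype.card ι) *
        ((∏ e, Dl (a1 t) (κ e)) * (DD (a1 t) (NN t))⁻¹ ^ Fintype.card E *
          ((DD (a1 t) (NN t))⁻¹ ^ Fintype.card ι * SS)) := by
        rw [e1, e2, e3, e4]; ring
    _ = _ := by ring

end Pool.Agent.P.MP_53e370_gt.S
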