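import Pool.Agent.P.MP_ac4909_gt.Cable
import Pool.Agent.P.MP_ac4909_gt.Ref

/-! Local families without outgoing strands are combinations of caps; counting in cabled words. -/

namespace Pool.Agent.P.MP_53e370_gt.S

open Pool.Agent.P.MP_ac4909_gt Rev

section Span
variable {K : Type} [Field K] {R : Type} [Ring R] [Algebra K R] {T : TL K R}

/-- the ways to cap off `n` strands -/
def Sphere_S : ℕ → Finset (List ℕ)
  | 0 => {[]}
  | 1 => ∅
  | m + 2 => (Finset.range (m + 1)).biUnion fun i => (Sphere_S m).image (List.cons i)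

theorem Sphere_mem {m : ℕ} {u : List ℕ} :
    u ∈ Sphere_S (m + 2) ↔ ∃ i w, i ≤ m ∧ w ∈ Sphere_S m ∧ i :: w = u := by
  simp only [Sphere_S, Finset.mem_biUnion, Finset.mem_range, Finset.mem_image, Nat.lt_succ_iff]
  exact ⟨fun ⟨i, hi, w, hw, e⟩ => ⟨i, w, hi, hw, e⟩, fun ⟨i, w, hi, hw, e⟩ => ⟨i, hi, w, hw, e⟩⟩

/-- a product of caps -/
def Sphere_cw (T : TL K R) : List ℕ → R
  | [] => 1
  | i :: u => Sphere_cw T u * T.C i

/-- the span of the products of caps on `n` strands -/
def Sphere_sp (T : TL K R) (n : ℕ) : Submodule K R :=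
  Submodule.span K (Sphere_cw T '' (Sphere_S n : Set (List ℕ)))

theorem Sphere_mul {m n : ℕ} {z : R} (h : ∀ u ∈ Sphere_S n, Sphere_cw T u * z ∈ Sphere_sp T m)
    {y : R} (hy : y ∈ Sphere_sp T n) : y * z ∈ Sphere_sp T m := by
  induction hy using Submodule.span_induction with
  | mem x hx =>
    obtain ⟨u, hu, rfl⟩ := hx
    exact h u hu
  | zero => rw [zero_mul]; exact Submodule.zero_mem _
  | add x y _ _ hx hy => rw [add_mul]; exact Submodule.add_mem _ hx hy
  | smul c x _ hx => rw [smul_mul_assoc]; exact Submodule.smul_mem _ _ hx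

theorem Sphere_C {m i : ℕ} (hi : i ≤ m) {y : R} (hy : y ∈ Sphere_sp T m) :
    y * T.C i ∈ Sphere_sp T (m + 2) :=
  Sphere_mul (fun u hu => Submodule.subset_span ⟨i :: u, Sphere_mem.2 ⟨i, u, hi, hu, rfl⟩, rfl⟩) hy

theorem Sphere_U (m : ℕ) : ∀ {j : ℕ}, j ≤ m → ∀ {y : R}, y ∈ Sphere_sp T (m + 2) →
    y * T.U j ∈ Sphere_sp T m := by
  induction m using Nat.strong_induction_on with
  | _ m ih =>
    intro j hj y hy
    refine Sphere_mul (fun u hu => ?_) hy
    obtain ⟨i, w, hi, hw, rfl⟩ := Sphere_mem.1 hu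
    have hw' : Sphere_cw T w ∈ Sphere_sp T m := Submodule.subset_span ⟨w, hw, rfl⟩
    rw [Sphere_cw, mul_assoc]
    rcases Nat.lt_trichotomy i j with h | rfl | h
    · rcases Nat.lt_or_ge (i + 1) j with h' | h'
      · obtain ⟨j, rfl⟩ : ∃ k, j = k + 2 := ⟨j - 2, by omega⟩
        obtain ⟨m, rfl⟩ : ∃ k, m = k + 2 := ⟨m - 2, by omega⟩
        rw [T.CU' i j (by omega), ← mul_assoc]
        exact Sphere_C (by omega) (ih m (by omega) (by omega) hw')
      · obtain rfl : j = i + 1 := by omega
        rwa [T.zag, mul_one]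
    · rw [T.loop, ← Algebra.commutes, ← Algebra.smul_def]
      exact Submodule.smul_mem _ _ hw'
    · rcases Nat.lt_or_ge (j + 1) i with h' | h'
      · obtain ⟨i, rfl⟩ : ∃ k, i = k + 2 := ⟨i - 2, by omega⟩
        obtain ⟨m, rfl⟩ : ∃ k, m = k + 2 := ⟨m - 2, by omega⟩
        rw [T.CU j i (by omega), ← mul_assoc]
        exact Sphere_C (by omega) (ih m (by omega) (by omega) hw')
      · obtain rfl : i = j + 1 := by omega
        rwa [T.zig, mul_one]

theorem Sphere_loc {m n : ℕ} {x : ℕ → R} (hx : T.Loc m n x) :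
    ∀ {y : R}, y ∈ Sphere_sp T n → y * x 0 ∈ Sphere_sp T m := by
  induction hx with
  | one m => intro y hy; rwa [mul_one]
  | U m j hj => intro y hy; beta_reduce; rw [zero_add]; exact Sphere_U m hj hy
  | C m j hj => intro y hy; beta_reduce; rw [zero_add]; exact Sphere_C hj hy
  | mul _ _ ih₁ ih₂ => intro y hy; rw [← mul_assoc]; exact ih₂ (ih₁ hy)
  | add _ _ ih₁ ih₂ => intro y hy; rw [mul_add]; exact Submodule.add_mem _ (ih₁ hy) (ih₂ hy)
  | smul c _ ih => intro y hy; rw [mul_smul_comm]; exact Submodule.smul_mem _ _ (ih hy)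
  | zero => intro y _; rw [mul_zero]; exact Submodule.zero_mem _

theorem Sphere_comb {n : ℕ} {x : ℕ → R} (hx : T.Loc n 0 x) :
    ∃ c : List ℕ → K, ∑ u ∈ Sphere_S n, c u • Sphere_cw T u = x 0 := by
  have h1 : (1 : R) ∈ Sphere_sp T 0 :=
    Submodule.subset_span ⟨[], Finset.mem_coe.2 (Finset.mem_singleton_self _), rfl⟩
  have h2 := Sphere_loc hx h1
  rw [one_mul] at h2
  exact (Submodule.mem_span_image_finset_iff_exists_fun' _).1 h2

theorem Sphere_ev {α : Type} [Rev α] {c : Col α R} (hc : T.Good c) {w : List (Sl α)} :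
    ∀ {ρ σ : List α}, Run ρ w σ → ∃ x, T.Loc (wid c.n ρ) (wid c.n σ) x ∧ T.ev c w = x 0 := by
  induction w with
  | nil =>
    rintro ρ σ rfl
    exact ⟨_, .one _, rfl⟩
  | cons s w ih =>
    rintro ρ σ ⟨rfl, hw⟩
    obtain ⟨x, hx, e⟩ := ih hw
    have h1 := (((hc.loc_gval s.g).padL (wid c.n s.l)).padR (wid c.n s.r)).cast
      (m' := wid c.n s.src) (n' := wid c.n s.tgt) (by simp only [Sl.src, wid_append])
      (by simp only [Sl.tgt, wid_append]) fun _ => rfl
    exact ⟨_, hx.mul h1, by rw [TL.ev, e, TL.val, zero_add]⟩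

end Span

section Words
variable {α β : Type}

theorem Sphere_run_cups [Rev β] (l ys r : List β) :
    Run (l ++ r) (cups l ys r) (l ++ ys ++ (ys.map rev).reverse ++ r) := by
  induction ys generalizing l r with
  | nil => simp [cups, Run]
  | cons y ys ih =>
    refine ⟨by simp [Sl.src, Gen.src], ?_⟩
    simpa [Sl.tgt, Gen.tgt] using ih (l ++ [y]) (rev y :: r)

theorem Sphere_run_caps [Rev β] (l ys r : List β) :
    Run (l ++ ys ++ (ys.map rev).reverse ++ r) (caps l ys r) (l ++ r) := by
  induction ys generalizing l r with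
  | nil => simp [caps, Run]
  | cons y ys ih =>
    refine run_append.2 ⟨l ++ [y] ++ rev y :: r, ?_, ?_⟩
    · simpa using ih (l ++ [y]) (rev y :: r)
    · simp [Run, Sl.src, Sl.tgt, Gen.src, Gen.tgt]

theorem Sphere_run_cross1 [Rev β] (s : Bool) (y : β) (r l xs : List β) :
    Run (l ++ xs ++ y :: r) (cross1 s y r l xs) (l ++ y :: xs ++ r) := by
  induction xs generalizing l with
  | nil => simp [cross1, Run]
  | cons x xs ih =>
    refine run_append.2 ⟨l ++ [x] ++ y :: xs ++ r, ?_, ?_⟩
    · simpa using ih (l ++ [x])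
    · simp [Run, Sl.src, Sl.tgt, Gen.src, Gen.tgt]

theorem Sphere_run_cross [Rev β] (s : Bool) (xs r l ys : List β) :
    Run (l ++ xs ++ ys ++ r) (cross s xs r l ys) (l ++ ys ++ xs ++ r) := by
  induction ys generalizing l with
  | nil => simp [cross, Run]
  | cons y ys ih =>
    refine run_append.2 ⟨l ++ y :: xs ++ (ys ++ r), ?_, ?_⟩
    · simpa using Sphere_run_cross1 s y (ys ++ r) l xs
    · simpa using ih (l ++ [y])

theorem Sphere_run_cable [Rev α] [Rev β] (k : α → List β)
    (hk : ∀ x, k (rev x) = ((k x).map rev).reverse) {ρ σ : List α} {w : List (Sl α)}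
    (h : Run ρ w σ) : Run (ρ.flatMap k) (cable k w) (σ.flatMap k) := by
  induction w generalizing ρ with
  | nil => exact congrArg _ h
  | cons s w ih =>
    obtain ⟨rfl, h⟩ := h
    have h1 := ih h
    unfold cable at h1 ⊢
    rw [List.flatMap_cons]
    refine run_append.2 ⟨_, ?_, h1⟩
    obtain ⟨l, g, r⟩ := s
    cases g with
    | cup o =>
      simpa [Sl.src, Sl.tgt, Gen.src, Gen.tgt, hk] using
        Sphere_run_cups (l.flatMap k) (k o) (r.flatMap k)
    | cap o =>
      simpa [Sl.src, Sl.tgt, Gen.src, Gen.tgt, hk] using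
        Sphere_run_caps (l.flatMap k) (k o) (r.flatMap k)
    | cr x y b =>
      simpa [Sl.src, Sl.tgt, Gen.src, Gen.tgt] using
        Sphere_run_cross b (k x) (r.flatMap k) (l.flatMap k) (k y)

/-- the sum of a weight over the generators of a word -/
def Sphere_gs (φ : Gen β → ℕ) (w : List (Sl β)) : ℕ := (w.map fun s => φ s.g).sum

theorem Sphere_gs_append (φ : Gen β → ℕ) (u w : List (Sl β)) :
    Sphere_gs φ (u ++ w) = Sphere_gs φ u + Sphere_gs φ w := by
  simp only [Sphere_gs, List.map_append, List.sum_append]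

theorem Sphere_gs_cons (φ : Gen β → ℕ) (s : Sl β) (w : List (Sl β)) :
    Sphere_gs φ (s :: w) = φ s.g + Sphere_gs φ w := by
  simp only [Sphere_gs, List.map_cons, List.sum_cons]

theorem Sphere_gs_nil (φ : Gen β → ℕ) : Sphere_gs φ [] = 0 := rfl

theorem Sphere_gs_cups [Rev β] (φ : Gen β → ℕ) (l ys r : List β) :
    Sphere_gs φ (cups l ys r) = (ys.map fun y => φ (.cup y)).sum := by
  induction ys generalizing l r with
  | nil => rfl
  | cons y ys ih => rw [cups, Sphere_gs_cons, ih, List.map_cons, List.sum_cons]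

theorem Sphere_gs_caps [Rev β] (φ : Gen β → ℕ) (l ys r : List β) :
    Sphere_gs φ (caps l ys r) = (ys.map fun y => φ (.cap y)).sum := by
  induction ys generalizing l r with
  | nil => rfl
  | cons y ys ih =>
    rw [caps, Sphere_gs_append, Sphere_gs_cons, Sphere_gs_nil, ih, List.map_cons, List.sum_cons]
    dsimp only
    omega

theorem Sphere_gs_cross1 (φ : Gen β → ℕ) (s : Bool) (y : β) (r l xs : List β) :
    Sphere_gs φ (cross1 s y r l xs) = (xs.map fun x => φ (.cr x y s)).sum := by
  induction xs generalizing l with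
  | nil => rfl
  | cons x xs ih =>
    rw [cross1, Sphere_gs_append, Sphere_gs_cons, Sphere_gs_nil, ih, List.map_cons, List.sum_cons]
    dsimp only
    omega

theorem Sphere_gs_cross (φ : Gen β → ℕ) (s : Bool) (xs r l ys : List β) :
    Sphere_gs φ (cross s xs r l ys) =
      (ys.map fun y => (xs.map fun x => φ (.cr x y s)).sum).sum := by
  induction ys generalizing l with
  | nil => rfl
  | cons y ys ih => rw [cross, Sphere_gs_append, Sphere_gs_cross1, ih, List.map_cons, List.sum_cons]

/-- the weight of a cabled generator -/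
def Sphere_cg (κ : α → List β) (φ : Gen β → ℕ) : Gen α → ℕ
  | .cup o => ((κ o).map fun y => φ (.cup y)).sum
  | .cap o => ((κ o).map fun y => φ (.cap y)).sum
  | .cr x y s => ((κ y).map fun y' => ((κ x).map fun x' => φ (.cr x' y' s)).sum).sum

theorem Sphere_gs_cable [Rev β] (κ : α → List β) (φ : Gen β → ℕ) (w : List (Sl α)) :
    Sphere_gs φ (cable κ w) = Sphere_gs (Sphere_cg κ φ) w := by
  induction w with
  | nil => rfl
  | cons s w ih =>
    unfold cable at ih ⊢
    rw [List.flatMap_cons, Sphere_gs_append, ih, Sphere_gs_cons]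
    obtain ⟨l, g, r⟩ := s
    cases g with
    | cup o => rw [Sphere_gs_cups]; rfl
    | cap o => rw [Sphere_gs_caps]; rfl
    | cr x y b => rw [Sphere_gs_cross]; rfl

/-- `1` for the generators that are not erased -/
def Sphere_er (g : Gen (Option α)) : ℕ := if g.erase.isSome then 1 else 0

theorem Sphere_erase_nil {w : List (Sl (Option α))} (h : Sphere_gs Sphere_er w = 0) :
    erase w = [] := by
  induction w with
  | nil => rfl
  | cons s w ih =>
    rw [Sphere_gs_cons, Nat.add_eq_zero_iff] at h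
    have h1 : s.g.erase = none := by
      have := h.1
      unfold Sphere_er at this
      cases h2 : s.g.erase with
      | none => rfl
      | some g => simp [h2] at this
    rw [← List.singleton_append, erase_append, ih h.2]
    simp [erase, h1]

/-- the word of caps on unlabelled strands -/
def Sphere_caps (α : Type) : ℕ → List ℕ → List (Sl (Option α))
  | _, [] => []
  | n, i :: u => ⟨List.replicate i none, .cap none, List.replicate (n - 2 - i) none⟩ ::
      Sphere_caps α (n - 2) u

theorem Sphere_run_capsW [Rev α] (u : List ℕ) : ∀ {n : ℕ}, u ∈ Sphere_S n →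
    Run (List.replicate n none) (Sphere_caps α n u) [] := by
  induction u with
  | nil =>
    intro n hn
    rcases n with _ | _ | m
    · rfl
    · simp [Sphere_S] at hn
    · obtain ⟨i, w, -, -, e⟩ := Sphere_mem.1 hn
      cases e
  | cons i u ih =>
    intro n hn
    rcases n with _ | _ | m
    · simp [Sphere_S] at hn
    · simp [Sphere_S] at hn
    · obtain ⟨i', w, hi, hw, e⟩ := Sphere_mem.1 hn
      cases e
      obtain ⟨d, rfl⟩ := Nat.exists_eq_add_of_le hi
      have e1 : i + d + 1 + 1 - 2 = i + d := by omega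
      have e2 : i + d - i = d := by omega
      rw [Sphere_caps, e1, e2]
      refine ⟨?_, ?_⟩
      · rw [show i + d + 1 + 1 = i + 2 + d by omega, List.replicate_add, List.replicate_add]
        rfl
      · have := ih hw
        rw [List.replicate_add] at this
        simpa only [Sl.tgt, Gen.tgt, List.append_nil] using this

theorem Sphere_gs_capsW (φ : Gen (Option α) → ℕ) (h : φ (.cap none) = 0) (n : ℕ) (u : List ℕ) :
    Sphere_gs φ (Sphere_caps α n u) = 0 := by
  induction u generalizing n with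
  | nil => rfl
  | cons i u ih => rw [Sphere_caps, Sphere_gs_cons, ih, h]

theorem Sphere_ev_capsW {K : Type} [Field K] {R : Type} [Ring R] [Algebra K R] (T : TL K R)
    (c : Col α R) (n : ℕ) (u : List ℕ) : T.ev c.opt (Sphere_caps α n u) = Sphere_cw T u := by
  induction u generalizing n with
  | nil => rfl
  | cons i u ih =>
    rw [Sphere_caps, TL.ev, ih, Sphere_cw]
    have e : wid c.opt.n (List.replicate i none) = i := by simp [wid, Col.opt]
    simp only [TL.val, TL.gval, e]
    change _ * (T.capC 1 i * 1) = _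
    rw [mul_one, T.capC_one]

end Words

end Pool.Agent.P.MP_53e370_gt.S
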