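import Pool.Agent.P.MP_53e370_gt.S.WLink
import Pool.Agent.P.MP_53e370_gt.S.TDefs
import Pool.Agent.P.MP_53e370_gt.Phase
import Pool.Agent.P.MP_53e370_gt.S.SphereA

/-! The upper half of the doubled link is a combination of caps. -/

namespace Pool.Agent.P.MP_53e370_gt.S

open Pool.Agent.P.MP_ac4909_gt

variable {ι E : Type} [DecidableEq ι] [Fintype E] [DecidableEq E] {L : List (Sl (Arc ι))}

section Aux
open Rev
variable {ι E : Type}

/-- the rings are replaced by parallel strands of the skein -/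
def Sphere_k (j : E → ℕ) (a : Arc (ι ⊕ E)) : List (Option (Arc ι)) :=
  a.name.elim (fun i => [some ⟨i, a.up⟩]) fun e => List.replicate (j e) none

theorem Sphere_k_rev (j : E → ℕ) (x : Arc (ι ⊕ E)) :
    Sphere_k j (rev x) = ((Sphere_k j x).map rev).reverse := by
  obtain ⟨i | e, b⟩ := x <;> simp [Sphere_k]

theorem Sphere_k_big (j : E → ℕ) (arc : E → Arc ι) (e : E) :
    Sphere_k j (bigA arc e) = [some (arc e)] := rfl

theorem Sphere_k_rg (j : E → ℕ) (e : E) :
    Sphere_k j (rgA ι e) = List.replicate (j e) none := rfl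

theorem Sphere_k_rg' (j : E → ℕ) (e : E) :
    Sphere_k j (rev (rgA ι e)) = List.replicate (j e) none := rfl

theorem Sphere_gs_half {β : Type} [Rev β] (ψ : Gen β → ℕ) (M l : List β) (x : β) (r : List β)
    (o : β) (h₁ : ψ (.cup o) = 0) (h₂ : ∀ y, ψ (.cr (rev o) y false) = 0)
    (h₃ : ∀ y, ψ (.cr y (rev o) true) = 0) :
    Sphere_gs ψ (ringHalf M l x r o) = ψ (.cr (rev o) x true) := by
  simp [ringHalf, Sphere_gs_cons, Sphere_gs_append, Sphere_gs_cross, h₁, h₂, h₃]

theorem Sphere_gs_rings (ψ : Gen (Arc (ι ⊕ E)) → ℕ) (arc : E → Arc ι)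
    (h₁ : ∀ e, ψ (.cup (rgA ι e)) = 0) (h₂ : ∀ e y, ψ (.cr (rev (rgA ι e)) y false) = 0)
    (h₃ : ∀ e y, ψ (.cr y (rev (rgA ι e)) true) = 0) (M : List (Arc (ι ⊕ E))) (l ρ : List E) :
    Sphere_gs ψ (rings arc M l ρ) =
      (ρ.map fun e => ψ (.cr (rev (rgA ι e)) (bigA arc e) true)).sum := by
  induction ρ generalizing l with
  | nil => rfl
  | cons x ρ ih =>
    rw [rings, Sphere_gs_append, ih, Sphere_gs_half ψ _ _ _ _ _ (h₁ x) (h₂ x) (h₃ x),
      List.map_cons, List.sum_cons, add_comm]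

theorem Sphere_erase_rings (j : E → ℕ) (arc : E → Arc ι) (M : List (Arc (ι ⊕ E)))
    (l ρ : List E) : erase (cable (Sphere_k j) (rings arc M l ρ)) = [] := by
  refine Sphere_erase_nil ?_
  rw [Sphere_gs_cable, Sphere_gs_rings]
  · simp [Sphere_cg, Sphere_k_big, Sphere_k_rg', Sphere_er, Gen.erase]
  · intro e
    simp [Sphere_cg, Sphere_k_rg, Sphere_er, Gen.erase]
  · intro e y
    simp [Sphere_cg, Sphere_k_rg', Sphere_er, Gen.erase]
  · rintro e ⟨i | e', b⟩ <;> simp [Sphere_cg, Sphere_k_rg', Sphere_er, Gen.erase]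

theorem Sphere_chi_rings [DecidableEq ι] (v : Finset ι) (j : E → ℕ) (arc : E → Arc ι)
    (M : List (Arc (ι ⊕ E))) (l ρ : List E) :
    Sphere_gs (Sphere_cg (Sphere_k j) (chiG v)) (rings arc M l ρ) =
      (ρ.map fun e => if (arc e).name ∈ v then j e else 0).sum := by
  rw [Sphere_gs_rings]
  · simp [Sphere_cg, Sphere_k_big, Sphere_k_rg', chiG]
  · intro e
    simp [Sphere_cg, Sphere_k_rg, chiG]
  · rintro e ⟨i | e', b⟩ <;> simp [Sphere_cg, Sphere_k, rgA, chiG]
  · rintro e ⟨i | e', b⟩ <;> simp [Sphere_cg, Sphere_k, rgA, chiG]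

theorem Sphere_chi_top [DecidableEq ι] (v : Finset ι) (j : E → ℕ) (arc : E → Arc ι)
    (P : List (NSl E)) : ∀ M : List (Arc (ι ⊕ E)),
    Sphere_gs (Sphere_cg (Sphere_k j) (chiG v)) (top arc M P) =
      ((P.flatMap NSl.tgt).map fun e => if (arc e).name ∈ v then j e else 0).sum := by
  induction P with
  | nil => exact fun _ => rfl
  | cons s P ih =>
    intro M
    rw [top, Sphere_gs_cons, Sphere_gs_append, ih, Sphere_chi_rings, List.flatMap_cons,
      List.map_append, List.sum_append]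
    have : Sphere_cg (Sphere_k j) (chiG v) (shl M (s.sl (bigA arc))).g = 0 := by
      obtain ⟨l, g, r⟩ := s
      cases g <;> simp [shl, NSl.sl, NGen.gen, Sphere_cg, Sphere_k_big, chiG]
    rw [this, zero_add]

theorem Sphere_red_big (j : E → ℕ) (arc : E → Arc ι) (l : List (E × E)) :
    ((l.map fun z => bigA arc z.1).flatMap (Sphere_k j)).reduceOption = l.map fun z => arc z.1 := by
  induction l with
  | nil => rfl
  | cons z l ih =>
    rw [List.map_cons, List.flatMap_cons, List.reduceOption_append, ih, Sphere_k_big]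
    rfl

/-- the number of strands that replace a ring -/
def Sphere_n (j : E → ℕ) (a : Arc (ι ⊕ E)) : ℕ := a.name.elim (fun _ => 0) j

theorem Sphere_flat (j : E → ℕ) (Z : List (Arc (ι ⊕ E))) (h : ∀ x ∈ Z, ∃ e b, x = ⟨.inr e, b⟩) :
    Z.flatMap (Sphere_k j) = List.replicate (wid (Sphere_n j) Z) none := by
  induction Z with
  | nil => rfl
  | cons x Z ih =>
    obtain ⟨e, b, rfl⟩ := h x List.mem_cons_self
    rw [List.flatMap_cons, ih fun x hx => h x (List.mem_cons_of_mem _ hx), wid_cons,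
      List.replicate_add]
    rfl

theorem Sphere_zone (ρ : List E) : ∀ x ∈ zone ι ρ, ∃ e b, x = ⟨.inr e, b⟩ := by
  induction ρ with
  | nil => simp [zone]
  | cons y ρ ih =>
    intro x hx
    simp only [zone, List.mem_append, List.mem_cons, List.not_mem_nil, or_false] at hx
    rcases hx with hx | rfl | rfl
    · exact ih x hx
    · exact ⟨y, _, rfl⟩
    · exact ⟨y, _, rfl⟩

theorem Sphere_zoneAll (P : List (NSl E)) : ∀ x ∈ zoneAll ι P, ∃ e b, x = ⟨.inr e, b⟩ := by
  induction P with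
  | nil => simp [zoneAll]
  | cons s P ih =>
    intro x hx
    rcases List.mem_append.1 hx with hx | hx
    · exact Sphere_zone _ x hx
    · exact ih x hx

theorem Sphere_erase_top (j : E → ℕ) (arc : E → Arc ι) (P : List (NSl E)) :
    ∀ M : List (Arc (ι ⊕ E)), (∀ x ∈ M, ∃ e b, x = ⟨.inr e, b⟩) →
      erase (cable (Sphere_k j) (top arc M P)) = P.map (NSl.sl arc) := by
  induction P with
  | nil => exact fun _ _ => rfl
  | cons s P ih =>
    intro M hM
    have h1 := ih (M ++ zone ι s.tgt) fun x hx =>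
      (List.mem_append.1 hx).elim (hM x) (Sphere_zone _ x)
    have h2 := Sphere_erase_rings j arc M [] s.tgt
    have h3 : (M.flatMap (Sphere_k j)).reduceOption = [] := by
      rw [Sphere_flat j M hM]
      simp
    have h4 : erase (cable (Sphere_k j) [shl M (s.sl (bigA arc))]) = [s.sl arc] := by
      obtain ⟨l, g, r⟩ := s
      cases g <;>
        simp [shl, NSl.sl, NGen.gen, cable, Sphere_k_big, cups, caps, cross, cross1, erase,
          Gen.erase, List.reduceOption_append, h3, Sphere_red_big]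
    have h5 : cable (Sphere_k j) (rings arc M [] s.tgt ++ top arc (M ++ zone ι s.tgt) P) =
        cable (Sphere_k j) (rings arc M [] s.tgt) ++
          cable (Sphere_k j) (top arc (M ++ zone ι s.tgt) P) := List.flatMap_append
    rw [top, cable_cons, erase_append, h5, erase_append, h1, h2, h4]
    rfl

variable {K : Type} [Field K] {R : Type} [Ring R] [Algebra K R] (T : TL K R)

theorem Sphere_row_none (c : Col (Arc ι) R) (n p : ℕ) :
    row c.opt.n c.opt.F (List.replicate n none) p = 1 := by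
  induction n generalizing p with
  | zero => rfl
  | succ n ih =>
    rw [List.replicate_succ, row, ih]
    exact mul_one _

theorem Sphere_low (k kb : ι → ℕ) (j : E → ℕ) :
    (T.jcA (cl k kb 0) (cl 0 0 j) fun _ => true).comap (relab true) =
      (T.jw k).tens (Sphere_k j) := by
  unfold Col.tens Col.comap
  congr 1
  · funext ⟨x, u⟩
    rcases x with i | e
    · rfl
    · simp [TL.jcA, relab, cl, Sphere_k, wid, TL.jc, Col.opt]
  · funext ⟨x, u⟩ p
    rcases x with i | e
    · exact (mul_one _).symm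
    · refine Eq.trans ?_ (Sphere_row_none (T.jcA k 0 fun _ => true) (j e) p).symm
      cases u <;> rfl

theorem Sphere_up (k kb : ι → ℕ) (j : E → ℕ) :
    (T.jcA (cl k kb 0) (cl 0 0 j) fun _ => true).comap (relab false) =
      T.jcA (Sum.elim kb 0) (Sum.elim 0 j) fun _ => true := by
  unfold Col.comap TL.jcA
  congr 1
  · funext ⟨x, u⟩
    rcases x with i | e <;> rfl
  · funext ⟨x, u⟩ p
    rcases x with i | e <;> rfl

theorem Sphere_loc_jw (k : ι → ℕ) (y : Option (Arc ι)) :
    T.Loc ((T.jw k).n y) ((T.jw k).n y) ((T.jw k).F y) := by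
  rcases y with _ | ⟨i, _ | _⟩
  · exact .one 1
  · exact T.loc_f (k i)
  · exact T.loc_f (k i)

end Aux

theorem sphere (Q : Prog L E) (v : Finset ι) (j : E → ℕ) :
    ∃ (S : Finset (List ℕ)) (D : List ℕ → Diagram L),
      (∀ u ∈ S, chi v (D u).1 = ∑ e ∈ Finset.univ.filter fun e => Q.nm e ∈ v, j e) ∧
      ∀ (K : Type) [Field K] (R : Type) [Ring R] [Algebra K R] (T : TL K R) (kb : ι → ℕ),
        (∀ i, Adm T.a (kb i)) → ∃ c : List ℕ → K, ∀ k : ι → ℕ,
          T.ev (T.jcA (cl k kb 0) (cl 0 0 j) fun _ => true) Q.W =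
            ∑ u ∈ S, c u • T.ev (T.jw k) (D u).1 := by
  have hrun : Run [] (top Q.arc [] Q.pr) (zoneAll ι Q.pr) := run_top Q.run Q.ok []
  obtain ⟨n, hn⟩ : ∃ n, n = wid (Sphere_n j) (zoneAll ι Q.pr) := ⟨_, rfl⟩
  have hc : Run [] (cable (Sphere_k j) (top Q.arc [] Q.pr)) (List.replicate n none) := by
    have := Sphere_run_cable (Sphere_k j) (Sphere_k_rev j) hrun
    rwa [Sphere_flat j _ (Sphere_zoneAll Q.pr), ← hn] at this
  have he : erase (cable (Sphere_k j) (top Q.arc [] Q.pr)) = L :=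
    (Sphere_erase_top j Q.arc Q.pr [] (by simp)).trans Q.map
  have hL : Run [] L [] := by
    have := ref_run_erase hc
    rw [he] at this
    simpa using this
  have hD : ∀ u ∈ Sphere_S n,
      Run [] (cable (Sphere_k j) (top Q.arc [] Q.pr) ++ Sphere_caps (Arc ι) n u) [] ∧
        erase (cable (Sphere_k j) (top Q.arc [] Q.pr) ++ Sphere_caps (Arc ι) n u) = L := by
    intro u hu
    refine ⟨run_append.2 ⟨_, hc, Sphere_run_capsW u hu⟩, ?_⟩
    rw [erase_append, he, Sphere_erase_nil (Sphere_gs_capsW _ rfl n u), List.append_nil]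
  have hD' : ∀ u : List ℕ, ∃ D : Diagram L, u ∈ Sphere_S n →
      D.1 = cable (Sphere_k j) (top Q.arc [] Q.pr) ++ Sphere_caps (Arc ι) n u := by
    intro u
    by_cases hu : u ∈ Sphere_S n
    · exact ⟨⟨_, hD u hu⟩, fun _ => rfl⟩
    · exact ⟨⟨lift L, run_lift hL, erase_lift L⟩, fun h => absurd h hu⟩
  choose D hD' using hD'
  refine ⟨Sphere_S n, D, fun u hu => ?_, fun K _ R _ _ T kb hkb => ?_⟩
  · rw [hD' u hu]
    change Sphere_gs (chiG v) (_ ++ _) = _
    rw [Sphere_gs_append, Sphere_gs_capsW _ rfl, add_zero, Sphere_gs_cable, Sphere_chi_top,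
      ← List.sum_toFinset _ Q.nodup, Finset.sum_filter]
    exact Finset.sum_congr (Finset.eq_univ_iff_forall.2 fun e => List.mem_toFinset.2 (Q.all e))
      fun _ _ => rfl
  · have hg : T.Good (T.jcA (Sum.elim kb 0) (Sum.elim 0 j) fun _ => true) := by
      refine T.good_jcA _ _ ?_
      rintro (i | e)
      · exact hkb i
      · exact fun _ h => absurd h (Nat.not_lt_zero _)
    obtain ⟨x, hx, e⟩ := Sphere_ev hg (run_adj hrun)
    have hw : wid (T.jcA (Sum.elim kb 0) (Sum.elim 0 j) fun _ => true).n (zoneAll ι Q.pr) = n := by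
      rw [hn]
      refine congrArg List.sum (List.map_congr_left fun y hy => ?_)
      obtain ⟨e, b, rfl⟩ := Sphere_zoneAll Q.pr y hy
      exact zero_add _
    rw [hw, wid_nil] at hx
    obtain ⟨c, hc⟩ := Sphere_comb hx
    refine ⟨c, fun k => ?_⟩
    rw [Prog.W, T.ev_append, adj_map, T.ev_map, T.ev_map, Sphere_up, Sphere_low, e, ← hc,
      ← T.ev_cable _ (Sphere_loc_jw T k), Finset.sum_mul]
    refine Finset.sum_congr rfl fun u hu => ?_
    rw [hD' u hu, smul_mul_assoc, T.ev_append]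
    exact congrArg (fun z => c u • (z * _))
      (Sphere_ev_capsW T (T.jcA k 0 fun _ => true) n u).symm

end Pool.Agent.P.MP_53e370_gt.S
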