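import Pool.Agent.P.MP_53e370_gt.S.Prog
import Pool.Agent.P.MP_ac4909_gt.Cable

/-! Evaluation of the doubled link with plain rings; multilinearity. -/

namespace Pool.Agent.P.MP_53e370_gt.S

open Pool.Agent.P.MP_ac4909_gt

variable {K : Type} [Field K] {R : Type} [Ring R] [Algebra K R] {T : TL K R} {ι E : Type}
  {L : List (Sl (Arc ι))}

theorem WEval_adj_nil {α : Type} : adj ([] : List (Sl α)) = [] := rfl

theorem WEval_adj_append {α : Type} (u w : List (Sl α)) : adj (u ++ w) = adj w ++ adj u := by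
  simp only [adj, List.map_append, List.reverse_append]

theorem WEval_adj_cons {α : Type} (s : Sl α) (w : List (Sl α)) :
    adj (s :: w) = adj w ++ [adjSl s] := by
  simp only [adj, List.map_cons, List.reverse_cons]

theorem WEval_adj_map {α β : Type} (φ : α → β) (w : List (Sl α)) :
    adj (w.map (Sl.map φ)) = (adj w).map (Sl.map φ) := by
  induction w with
  | nil => rfl
  | cons s w ih =>
    rw [List.map_cons, WEval_adj_cons, WEval_adj_cons, ih, List.map_append]
    congr 1
    obtain ⟨l, g, r⟩ := s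
    cases g <;> rfl

theorem WEval_ev_single {α : Type} (T : TL K R) (c : Col α R) (s : Sl α) :
    T.ev c [s] = T.val c s := by
  simp only [TL.ev, one_mul]

theorem WEval_adj_cross1 {β : Type} (T : TL K R) (c : Col β R) (s : Bool) (y : β)
    (r l xs : List β) :
    T.ev c (adj (cross1 s y r l xs)) = T.crC (!s) (c.n y) (wid c.n xs) (wid c.n l) := by
  induction xs generalizing l with
  | nil => simp [cross1, WEval_adj_nil, TL.ev, TL.crC]
  | cons x xs ih =>
    rw [cross1, WEval_adj_append, T.ev_append, ih, WEval_adj_cons, WEval_adj_nil, List.nil_append,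
      WEval_ev_single, wid_cons, T.hexR, wid_append, wid_cons, wid_nil, add_zero]
    rfl

theorem WEval_adj_cross {β : Type} (T : TL K R) (c : Col β R) (s : Bool) (xs r l ys : List β) :
    T.ev c (adj (cross s xs r l ys)) = T.crC (!s) (wid c.n ys) (wid c.n xs) (wid c.n l) := by
  induction ys generalizing l with
  | nil => simp [cross, WEval_adj_nil, TL.ev, TL.crC_zero_left]
  | cons y ys ih =>
    rw [cross, WEval_adj_append, T.ev_append, ih, WEval_adj_cross1, wid_cons, T.hexL, wid_append,
      wid_cons, wid_nil, add_zero]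

theorem WEval_half {β : Type} [Rev β] (T : TL K R) (c : Col β R) (M l : List β) (x : β)
    (r : List β) (o : β) (hr : c.n (Rev.rev o) = c.n o) (hF : ∀ p, c.F o p = 1) :
    T.ev c (ringHalf M l x r o) =
      T.crC true (wid c.n l) (c.n o) (wid c.n M + c.n o) *
        T.crC true (c.n x) (c.n o) (wid c.n M + c.n o + wid c.n l) *
        T.crC true (c.n o) (c.n x) (wid c.n M + c.n o + wid c.n l) *
        T.crC false (c.n o) (wid c.n l) (wid c.n M + c.n o) * T.cupC (c.n o) (wid c.n M) := by
  simp only [ringHalf, TL.ev, T.ev_append, T.cable_cross, TL.val, TL.gval, wid_append, wid_cons,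
    wid_nil, add_zero, hr, hF, one_mul, mul_assoc]

theorem WEval_adj_half {β : Type} [Rev β] (T : TL K R) (c : Col β R) (M l : List β) (x : β)
    (r : List β) (o : β) (hr : c.n (Rev.rev o) = c.n o) (hF : ∀ p, c.F o p = 1) :
    T.ev c (adj (ringHalf M l x r o)) =
      T.capC (c.n o) (wid c.n M) * (T.crC true (wid c.n l) (c.n o) (wid c.n M + c.n o) *
        T.crC false (c.n x) (c.n o) (wid c.n M + c.n o + wid c.n l) *
        T.crC false (c.n o) (c.n x) (wid c.n M + c.n o + wid c.n l) *
        T.crC false (c.n o) (wid c.n l) (wid c.n M + c.n o)) := by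
  simp only [ringHalf, WEval_adj_cons, WEval_adj_append, WEval_adj_nil, TL.ev, T.ev_append,
    WEval_adj_cross, TL.val, adjSl, adjG, TL.gval, wid_append, wid_cons, wid_nil, add_zero, hr, hF,
    one_mul, mul_one, mul_assoc, Bool.not_true, Bool.not_false]

/-- the colouring gives the colour `k` to the edges and `j` plain strands to the rings -/
structure WEval_Fit (T : TL K R) (c : Col (Arc (ι ⊕ E)) R) (arc : E → Arc ι) (k j : E → ℕ) :
    Prop where
  n : ∀ e, c.n (bigA arc e) = k e
  F : ∀ e p, c.F (bigA arc e) p = T.f (k e) p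
  rn : ∀ e, c.n (rgA ι e) = j e
  rn' : ∀ e, c.n (Rev.rev (rgA ι e)) = j e
  rF : ∀ e p, c.F (rgA ι e) p = 1

/-- the width of the arms of the rings of a row -/
def WEval_zw (j : E → ℕ) : List E → ℕ
  | [] => 0
  | x :: ρ => WEval_zw j ρ + (j x + j x)

theorem WEval_Fit.zone {c : Col (Arc (ι ⊕ E)) R} {arc : E → Arc ι} {k j : E → ℕ}
    (h : WEval_Fit T c arc k j) (ρ : List E) : wid c.n (zone ι ρ) = WEval_zw j ρ := by
  induction ρ with
  | nil => rfl
  | cons x ρ ih =>
    rw [S.zone, wid_append, ih, wid_cons, wid_cons, wid_nil, h.rn, h.rn', add_zero, WEval_zw]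

theorem WEval_Fit.big {c : Col (Arc (ι ⊕ E)) R} {arc : E → Arc ι} {k j : E → ℕ}
    (h : WEval_Fit T c arc k j) (l : List E) : wid c.n (l.map (bigA arc)) = wid k l := by
  induction l with
  | nil => rfl
  | cons x l ih => rw [List.map_cons, wid_cons, wid_cons, ih, h.n]

theorem WEval_rings {c c' : Col (Arc (ι ⊕ E)) R} {arc : E → Arc ι} {k kb j : E → ℕ}
    (h : WEval_Fit T c arc k j) (h' : WEval_Fit T c' arc kb j) {M : List (Arc (ι ⊕ E))} {p : ℕ}
    (hM : wid c.n M = p) (hM' : wid c'.n M = p) (ρ l : List E) (Y : ℕ → R) :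
    T.ev c' (adj (rings arc M l ρ)) * Y (p + WEval_zw j ρ) * T.ev c (rings arc M l ρ) =
      Phi k kb (fun e w wb => RgN T (j e) w (k e) wb (kb e)) (wid k l) (wid kb l) ρ Y p := by
  induction ρ generalizing l Y with
  | nil => simp [rings, WEval_adj_nil, TL.ev, WEval_zw, Phi]
  | cons x ρ ih =>
    have e := ih (l ++ [x]) (RgN T (j x) (wid k l) (k x) (wid kb l) (kb x) Y)
    rw [wid_append, wid_append, wid_cons, wid_cons, wid_nil, wid_nil, add_zero, add_zero] at e
    rw [Phi, Module.End.mul_apply, ← e, rings, WEval_adj_append, T.ev_append, T.ev_append,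
      WEval_half T c _ _ _ _ _ (by rw [h.rn, h.rn']) (h.rF x),
      WEval_adj_half T c' _ _ _ _ _ (by rw [h'.rn, h'.rn']) (h'.rF x)]
    simp only [wid_append, h.zone, h'.zone, h.big, h'.big, hM, hM', h.rn, h'.rn, h.n, h'.n, RgN,
      sand, LinearMap.coe_mk, AddHom.coe_mk, WEval_zw, mul_assoc, add_assoc]

theorem WEval_val {c : Col (Arc (ι ⊕ E)) R} {arc : E → Arc ι} {k j : E → ℕ}
    (h : WEval_Fit T c arc k j) (M : List (Arc (ι ⊕ E))) (s : NSl E) :
    T.val c (shl M (s.sl (bigA arc))) =
      ngv T k s.g (wid c.n M + wid k (s.l.map Prod.fst)) := by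
  obtain ⟨l, g, r⟩ := s
  have e : wid c.n (l.map fun z => bigA arc z.1) = wid k (l.map Prod.fst) := by
    rw [← h.big, List.map_map]; rfl
  cases g <;> simp only [TL.val, shl, NSl.sl, NGen.gen, TL.gval, ngv, wid_append, e, h.n, h.F]

theorem WEval_val_adj {c : Col (Arc (ι ⊕ E)) R} {arc : E → Arc ι} {k j : E → ℕ}
    (h : WEval_Fit T c arc k j) (M : List (Arc (ι ⊕ E))) (s : NSl E) :
    T.val c (adjSl (shl M (s.sl (bigA arc)))) =
      nga T k s.g (wid c.n M + wid k (s.l.map Prod.fst)) := by
  obtain ⟨l, g, r⟩ := s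
  have e : wid c.n (l.map fun z => bigA arc z.1) = wid k (l.map Prod.fst) := by
    rw [← h.big, List.map_map]; rfl
  cases g <;> simp only [TL.val, adjSl, adjG, shl, NSl.sl, NGen.gen, TL.gval, nga, wid_append, e,
    h.n, h.F]

theorem WEval_top {c c' : Col (Arc (ι ⊕ E)) R} {arc : E → Arc ι} {k kb j : E → ℕ}
    (h : WEval_Fit T c arc k j) (h' : WEval_Fit T c' arc kb j) (P : List (NSl E))
    {M : List (Arc (ι ⊕ E))} {p : ℕ} (hM : wid c.n M = p) (hM' : wid c'.n M = p) :
    T.ev c' (adj (top arc M P)) * T.ev c (top arc M P) =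
      Hv T k kb (fun e w wb => RgN T (j e) w (k e) wb (kb e)) P p := by
  induction P generalizing M p with
  | nil => simp [top, WEval_adj_nil, TL.ev, Hv]
  | cons s P ih =>
    have e1 := ih (M := M ++ zone ι s.tgt) (p := p + WEval_zw j s.tgt)
      (by rw [wid_append, hM, h.zone]) (by rw [wid_append, hM', h'.zone])
    have e2 := WEval_rings h h' hM hM' s.tgt []
      (Hv T k kb (fun e w wb => RgN T (j e) w (k e) wb (kb e)) P)
    rw [wid_nil, wid_nil] at e2
    rw [Hv, ← e2, ← e1, top, WEval_adj_cons, WEval_adj_append, T.ev_append, T.ev_append, TL.ev,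
      TL.ev, TL.ev, T.ev_append, WEval_val h, WEval_val_adj h', hM, hM']
    simp only [one_mul, mul_assoc]

theorem ev_W_plain (T : TL K R) (Q : Prog L E) (k kb : ι → ℕ) (j : E → ℕ) :
    T.ev (T.jcA (cl k kb 0) (cl 0 0 j) fun _ => true) Q.W =
      Hv T (fun e => k (Q.nm e)) (fun e => kb (Q.nm e))
        (fun e w wb => RgN T (j e) w (k (Q.nm e)) wb (kb (Q.nm e))) Q.pr 0 := by
  rw [Prog.W, T.ev_append, WEval_adj_map, T.ev_map, T.ev_map]
  refine WEval_top (j := j) ?_ ?_ Q.pr rfl rfl
  · refine ⟨fun e => ?_, fun e p => ?_, fun e => ?_, fun e => ?_, fun e p => ?_⟩ <;>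
      simp [Col.comap, TL.jcA, cl, relab, bigA, rgA, Prog.nm, TL.f, Rev.rev]
  · refine ⟨fun e => ?_, fun e p => ?_, fun e => ?_, fun e => ?_, fun e p => ?_⟩ <;>
      simp [Col.comap, TL.jcA, cl, relab, bigA, rgA, Prog.nm, TL.f, Rev.rev]

theorem WEval_Phi_congr (k kb : E → ℕ) {Ω Ω' : E → ℕ → ℕ → Module.End K (ℕ → R)} (ρ : List E)
    (h : ∀ e ∈ ρ, Ω e = Ω' e) (w wb : ℕ) : Phi k kb Ω w wb ρ = Phi k kb Ω' w wb ρ := by
  induction ρ generalizing w wb with
  | nil => rfl
  | cons x ρ ih =>
    rw [Phi, Phi, ih fun e he => h e (List.mem_cons_of_mem _ he), h x List.mem_cons_self]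

theorem WEval_Hv_congr (T : TL K R) (k kb : E → ℕ) {Ω Ω' : E → ℕ → ℕ → Module.End K (ℕ → R)}
    (P : List (NSl E)) (h : ∀ e ∈ P.flatMap NSl.tgt, Ω e = Ω' e) :
    Hv T k kb Ω P = Hv T k kb Ω' P := by
  induction P with
  | nil => rfl
  | cons s P ih =>
    funext p
    rw [List.flatMap_cons] at h
    rw [Hv, Hv, ih fun e he => h e (List.mem_append_right _ he),
      WEval_Phi_congr k kb s.tgt fun e he => h e (List.mem_append_left _ he)]

theorem WEval_Phi_lin [DecidableEq E] (k kb : E → ℕ) (Ω : E → ℕ → ℕ → Module.End K (ℕ → R))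
    (e : E) (ρ : List E) (hnd : ρ.Nodup) (he : e ∈ ρ) (w wb : ℕ) :
    IsLinearMap K fun A => Phi k kb (Function.update Ω e A) w wb ρ := by
  induction ρ generalizing w wb with
  | nil => simp at he
  | cons x ρ ih =>
    obtain ⟨hx, hnd'⟩ := List.nodup_cons.1 hnd
    by_cases hxe : x = e
    · subst hxe
      have e1 : ∀ A, Phi k kb (Function.update Ω x A) w wb (x :: ρ) =
          Phi k kb Ω (w + k x) (wb + kb x) ρ * A w wb := fun A => by
        rw [Phi, Function.update_self, WEval_Phi_congr k kb ρ (Ω' := Ω) fun e' he' =>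
          Function.update_of_ne (fun h : e' = x => hx (h ▸ he')) _ _]
      simp only [e1]
      exact ⟨fun A B => by simp only [Pi.add_apply, mul_add],
        fun a A => by simp only [Pi.smul_apply, mul_smul_comm]⟩
    · have he' : e ∈ ρ := (List.mem_cons.1 he).resolve_left fun h => hxe h.symm
      have e1 : ∀ A, Phi k kb (Function.update Ω e A) w wb (x :: ρ) =
          Phi k kb (Function.update Ω e A) (w + k x) (wb + kb x) ρ * Ω x w wb := fun A => by
        rw [Phi, Function.update_of_ne hxe]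
      have ih' := ih hnd' he' (w + k x) (wb + kb x)
      simp only [e1]
      exact ⟨fun A B => by rw [ih'.map_add, add_mul], fun a A => by rw [ih'.map_smul, smul_mul_assoc]⟩

theorem WEval_Hv_lin [DecidableEq E] (T : TL K R) (k kb : E → ℕ)
    (Ω : E → ℕ → ℕ → Module.End K (ℕ → R)) (e : E) (P : List (NSl E))
    (hnd : (P.flatMap NSl.tgt).Nodup) (he : e ∈ P.flatMap NSl.tgt) :
    IsLinearMap K fun A => Hv T k kb (Function.update Ω e A) P := by
  induction P with
  | nil => simp at he
  | cons s P ih =>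
    rw [List.flatMap_cons] at hnd he
    obtain ⟨h1, h2, h3⟩ := List.nodup_append.1 hnd
    by_cases hs : e ∈ s.tgt
    · have e1 : ∀ A, Hv T k kb (Function.update Ω e A) P = Hv T k kb Ω P := fun A =>
        WEval_Hv_congr T k kb P fun e' he' =>
          Function.update_of_ne (fun h : e' = e => h3 e hs e' he' h.symm) _ _
      have hl := WEval_Phi_lin k kb Ω e s.tgt h1 hs 0 0
      refine ⟨fun A B => funext fun p => ?_, fun a A => funext fun p => ?_⟩
      · simp only [Hv, e1, Pi.add_apply]
        rw [hl.map_add]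
        simp only [LinearMap.add_apply, Pi.add_apply, mul_add, add_mul]
      · simp only [Hv, e1, Pi.smul_apply]
        rw [hl.map_smul]
        simp only [LinearMap.smul_apply, Pi.smul_apply, mul_smul_comm, smul_mul_assoc]
    · have he' : e ∈ P.flatMap NSl.tgt := (List.mem_append.1 he).resolve_left hs
      have e1 : ∀ A, Phi k kb (Function.update Ω e A) 0 0 s.tgt = Phi k kb Ω 0 0 s.tgt := fun A =>
        WEval_Phi_congr k kb s.tgt (fun e' he'' =>
          Function.update_of_ne (fun h : e' = e => hs (h ▸ he'')) _ _) 0 0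
      have hl := ih h2 he'
      refine ⟨fun A B => funext fun p => ?_, fun a A => funext fun p => ?_⟩
      · simp only [Hv, e1, Pi.add_apply]
        rw [hl.map_add]
        simp only [map_add, Pi.add_apply, mul_add, add_mul]
      · simp only [Hv, e1, Pi.smul_apply]
        rw [hl.map_smul]
        simp only [map_smul, Pi.smul_apply, mul_smul_comm, smul_mul_assoc]

/-- the evaluation as a multilinear map of the operators of the edges -/
def WEval_ml (T : TL K R) (k kb : E → ℕ) {P : List (NSl E)} (hnd : (P.flatMap NSl.tgt).Nodup)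
    (hall : ∀ e, e ∈ P.flatMap NSl.tgt) :
    MultilinearMap K (fun _ : E => ℕ → ℕ → Module.End K (ℕ → R)) (ℕ → R) where
  toFun Ω := Hv T k kb Ω P
  map_update_add' Ω e A B := (WEval_Hv_lin T k kb Ω e P hnd (hall e)).map_add A B
  map_update_smul' Ω e a A := (WEval_Hv_lin T k kb Ω e P hnd (hall e)).map_smul a A

theorem Hv_sum [Fintype E] [DecidableEq E] {I : Type} (T : TL K R) (k kb : E → ℕ)
    (S : E → Finset I) (c : E → I → K) (Ω : E → I → ℕ → ℕ → Module.End K (ℕ → R))
    {P : List (NSl E)} (hnd : (P.flatMap NSl.tgt).Nodup) (hall : ∀ e, e ∈ P.flatMap NSl.tgt) :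
    Hv T k kb (fun e w wb => ∑ i ∈ S e, c e i • Ω e i w wb) P =
      ∑ i ∈ Fintype.piFinset S, (∏ e, c e (i e)) • Hv T k kb (fun e => Ω e (i e)) P := by
  have e1 : (fun e w wb => ∑ i ∈ S e, c e i • Ω e i w wb) = fun e => ∑ i ∈ S e, c e i • Ω e i := by
    funext e w wb
    simp only [Finset.sum_apply, Pi.smul_apply]
  have e2 := (WEval_ml T k kb hnd hall).map_sum_finset (fun e i => c e i • Ω e i) S
  rw [e1]
  refine e2.trans (Finset.sum_congr rfl fun i _ => ?_)
  exact (WEval_ml T k kb hnd hall).map_smul_univ (fun e => c e (i e)) fun e => Ω e (i e)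

end Pool.Agent.P.MP_53e370_gt.S
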